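import Pool.Agent.Lib.MX.QStp
import Pool.Agent.Lib.TC.IQ
import Pool.Agent.Lib.TE.Bases

/-!
# Module QBase: valuations of rank one of mixed characteristic with transcendence defect at most one
modulo the implicit prime
-/

open IsLocalRing

namespace Pool.Agent.Lib.MXB

open TC CQ
open Pool.Agent.Lib.MP_3029eb_ag Pool.Agent.Lib.MP_3029eb_ag.Abh
open Pool.Agent.Lib.TE (top_one top_lt impl_top base_impl resIndep_cons)

private theorem qqx_equiv {R K : Type} [CommRing R] [Field K] [Algebra R K]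
    {V : ValuationSubring K} (A0 : Subalgebra R K) (P : Ideal A0) [P.IsPrime]
    (hAV : ∀ a : A0, (a : K) ∈ V) (hP : ∀ a : A0, a ∈ P ↔ V.valuation (a : K) < 1) :
    ∃ e : Localization.AtPrime P ≃+* locV V A0.toSubring, ∀ a : A0,
      ((e (algebraMap A0 (Localization.AtPrime P) a) : locV V A0.toSubring) : K) = a := by
  let i1 : A0 →+* locV V A0.toSubring :=
    (A0.subtype : A0 →+* K).codRestrict _ fun a => le_locV V _ a.2
  let : Algebra A0 (locV V A0.toSubring) := i1.toAlgebra
  have hmap : ∀ a : A0, ((algebraMap A0 (locV V A0.toSubring) a : locV V A0.toSubring) : K) = a :=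
    fun a => rfl
  have hc : ∀ b : A0, b ∈ P.primeCompl ↔ V.valuation (b : K) = 1 := by
    intro b
    rw [Ideal.mem_primeCompl_iff, hP, not_lt]
    exact ⟨fun h1 => le_antisymm ((V.valuation_le_one_iff _).2 (hAV b)) h1, fun h1 => h1.ge⟩
  have : IsLocalization P.primeCompl (locV V A0.toSubring) :=
    { map_units := by
        rintro ⟨b, hb⟩
        have hb' : V.valuation (b : K) = 1 := (hc b).1 hb
        have hb0 : (b : K) ≠ 0 := ((C1_val_one_iff V _).1 hb').2.2
        have hmem : (b : K)⁻¹ ∈ locV V A0.toSubring :=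
          ⟨1, one_mem _, b, b.2, hb', inv_mul_cancel₀ hb0⟩
        exact IsUnit.of_mul_eq_one ⟨(b : K)⁻¹, hmem⟩ (Subtype.ext (mul_inv_cancel₀ hb0))
      surj := by
        rintro ⟨z, a, ha, b, hb, hb1, hab⟩
        exact ⟨(⟨a, ha⟩, ⟨⟨b, hb⟩, (hc ⟨b, hb⟩).2 hb1⟩), Subtype.ext hab⟩
      exists_of_eq := by
        intro x y hxy
        refine ⟨1, ?_⟩
        have : (x : K) = y := by
          rw [← hmap x, ← hmap y, hxy]
        rw [Subtype.ext this] }
  refine ⟨(IsLocalization.algEquiv P.primeCompl (Localization.AtPrime P)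
    (locV V A0.toSubring)).toRingEquiv, fun a => ?_⟩
  have h1 : (IsLocalization.algEquiv P.primeCompl (Localization.AtPrime P)
      (locV V A0.toSubring)).toRingEquiv (algebraMap A0 (Localization.AtPrime P) a) =
      algebraMap A0 (locV V A0.toSubring) a :=
    (IsLocalization.algEquiv P.primeCompl (Localization.AtPrime P)
      (locV V A0.toSubring)).commutes a
  rw [h1]
  exact hmap a

private theorem qqx_step (p : ℕ) [Fact p.Prime] {R K : Type} [CommRing R] [Field K] [Algebra R K]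
    (hRn : IsNoetherianRing R) {V V1 : ValuationSubring K} (h : V ≤ V1)
    (harch : ∀ a b : K, V1.valuation a = 1 → V1.valuation b = 1 → V.valuation b < 1 →
      ∃ n : ℕ, V.valuation (b ^ n) ≤ V.valuation a)
    (A0 : Subalgebra R K) (hfg : A0.FG)
    (hAV : ∀ a : A0, (a : K) ∈ V) (P : Ideal A0) [P.IsPrime]
    (hP : ∀ a : A0, a ∈ P ↔ V.valuation (a : K) < 1)
    (halg : ∀ z : K, z ∈ V1 → ∃ f : Polynomial A0,
      (∃ n, V1.valuation ((f.coeff n : A0) : K) = 1) ∧ V1.valuation (Polynomial.aeval z f) < 1)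
    {r s : ℕ} (hr : 0 < r) (x : Fin r → K) (hx1 : ∀ i, V1.valuation (x i) = 1)
    (hx : ∀ m : Fin r → ℤ, V.valuation (∏ i, x i ^ m i) = 1 → m = 0)
    (hrank : ∀ z : Fin (r + 1) → K, (∀ i, V1.valuation (z i) = 1) →
      ∃ m : Fin (r + 1) → ℤ, m ≠ 0 ∧ V.valuation (∏ i, z i ^ m i) = 1)
    (y : Fin s → K) (hyV : ∀ j, y j ∈ V)
    (hy : ∀ q : MvPolynomial (Fin s) A0, V.valuation (MvPolynomial.aeval y q) < 1 →
      ∀ m, V.valuation ((MvPolynomial.coeff m q : A0) : K) < 1)
    (hyalg : ∀ z : K, z ∈ V → ∃ f : Polynomial (Algebra.adjoin A0 (Set.range y)),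
      (∃ n, V.valuation ((f.coeff n : Algebra.adjoin A0 (Set.range y)) : K) = 1) ∧
      V.valuation (Polynomial.aeval z f) < 1)
    (hp : V.valuation (p : K) < 1) (hp1 : V1.valuation (p : K) = 1)
    (hdim : ringKrullDim (AdicCompletion (maximalIdeal (Localization.AtPrime P))
      (Localization.AtPrime P) ⧸ implicitIdeal V1 V A0 P) ≤ ((r + s + 1 : ℕ) : WithBot ℕ∞))
    (S : Subring K) (hS : S = A0.toSubring) [IsLocalRing (locV V S)] :
    ∃ I : Ideal (AdicCompletion (maximalIdeal (locV V S)) (locV V S)),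
      QStepX p V1 V (locV V S) x y I := by
  subst hS
  have hAV' : A0.toSubring ≤ V.toSubring := fun z hz => hAV ⟨z, hz⟩
  have hn0 : IsNoetherianRing A0 := isNoetherianRing_of_fg hfg
  have hn1 : IsNoetherianRing A0.toSubring := isNoetherianRing_of_fg hfg
  have hn2 : IsNoetherianRing (locV V A0.toSubring) := isNoetherianRing_locV V
  have hn3 : IsNoetherianRing (Localization.AtPrime P) :=
    IsLocalization.isNoetherianRing P.primeCompl (Localization.AtPrime P) hn0
  obtain ⟨e, he⟩ := qqx_equiv A0 P hAV hP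
  obtain ⟨E, hE⟩ := Pool.Agent.Lib.MP_3029eb_ag.Imp.exists_completion_equiv e
  let i1 : A0 →+* locV V A0.toSubring :=
    (A0.subtype : A0 →+* K).codRestrict _ fun a => le_locV V _ a.2
  let i2 : A0.toSubring →+* A0 := A0.toSubring.subtype.codRestrict A0 fun a => a.2
  refine ⟨(implicitIdeal V1 V A0 P).map (E : _ →+* _), h, locV_le V hAV', locV_locV V _,
    fun z hz => ?_, hr, harch, hx1, hx, hrank, hyV, resIndep_locV V _ hAV' ?_, ?_, hp, hp1,
    fun d hd => ?_, ?_⟩
  · obtain ⟨f, ⟨n, hn⟩, hf⟩ := halg z hz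
    refine ⟨f.map i1, ⟨n, ?_⟩, ?_⟩
    · rw [Polynomial.coeff_map]
      exact hn
    · rw [Polynomial.eval₂_map]
      exact hf
  · intro q hq m
    have h1 := hy (MvPolynomial.map i2 q) (by
      rw [MvPolynomial.aeval_def, MvPolynomial.eval₂_map]
      exact hq) m
    rw [MvPolynomial.coeff_map] at h1
    exact h1
  · intro z hz
    obtain ⟨f, ⟨n, hn⟩, hf⟩ := hyalg z hz
    have hle : ∀ a : Algebra.adjoin A0 (Set.range y),
        (a : K) ∈ Subring.closure ((locV V A0.toSubring : Set K) ∪ Set.range y) := by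
      intro a
      have h1 : (a : K) ∈ (Algebra.adjoin A0 (Set.range y)).toSubring := a.2
      rw [Algebra.adjoin_eq_ring_closure] at h1
      refine (Subring.closure_mono (Set.union_subset_union_left _ ?_)) h1
      rintro _ ⟨b, rfl⟩
      exact le_locV V _ b.2
    let i3 : Algebra.adjoin A0 (Set.range y) →+*
        Subring.closure ((locV V A0.toSubring : Set K) ∪ Set.range y) :=
      (algebraMap (Algebra.adjoin A0 (Set.range y)) K).codRestrict _ fun a => hle a
    refine ⟨f.map i3, ⟨n, ?_⟩, ?_⟩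
    · rw [Polynomial.coeff_map]
      exact hn
    · rw [Polynomial.eval₂_map]
      exact hf
  · obtain ⟨z, a, ha, b, hb, hb1, hab⟩ := d
    have hd' : V1.valuation z = 1 := hd
    have hb2 : V1.valuation b = 1 := by
      have h2 := (C1_val_one_iff V b).1 hb1
      exact (C1_val_one_iff V1 b).2 ⟨h h2.1, h h2.2.1, h2.2.2⟩
    have ha1 : V1.valuation a = 1 := by rw [← hab, map_mul, hd', hb2, one_mul]
    have haz : V.valuation a = V.valuation z := by rw [← hab, map_mul, hb1, mul_one]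
    have h1 : implicitIdeal V1 V A0 P ≤ Ideal.span
        ((fun a : A0 => algebraMap (Localization.AtPrime P)
          (AdicCompletion (maximalIdeal (Localization.AtPrime P)) (Localization.AtPrime P))
          (algebraMap A0 (Localization.AtPrime P) a)) ''
          {c : A0 | V.valuation (c : K) ≤ V.valuation a}) :=
      iInf_le (fun d : {d : A0 // V1.valuation (d : K) = 1} => Ideal.span
        ((fun a : A0 => algebraMap (Localization.AtPrime P)
          (AdicCompletion (maximalIdeal (Localization.AtPrime P)) (Localization.AtPrime P))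
          (algebraMap A0 (Localization.AtPrime P) a)) ''
          {a : A0 | V.valuation (a : K) ≤ V.valuation ((d : A0) : K)})) ⟨⟨a, ha⟩, ha1⟩
    refine (Ideal.map_mono h1).trans ?_
    rw [Ideal.map_span]
    refine Ideal.span_mono ?_
    rintro _ ⟨_, ⟨c, hc, rfl⟩, rfl⟩
    refine ⟨e (algebraMap A0 (Localization.AtPrime P) c), ?_, ?_⟩
    · show V.valuation ((e (algebraMap A0 (Localization.AtPrime P) c) : locV V A0.toSubring) : K) ≤
        V.valuation z
      rw [he, ← haz]
      exact hc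
    · exact (hE _).symm
  · rw [← dim_mapQ E, Nat.add_right_comm r 1 s]
    exact hdim

theorem unif_QQX (p : ℕ) [Fact p.Prime] {R K : Type} [CommRing R] [Field K] [Algebra R K]
    (hR : GoodBase R)
    {V V1 : ValuationSubring K} (h : V ≤ V1)
    (harch : ∀ a b : K, V1.valuation a = 1 → V1.valuation b = 1 → V.valuation b < 1 →
      ∃ n : ℕ, V.valuation (b ^ n) ≤ V.valuation a)
    (A0 : Subalgebra R K) (hfg : A0.FG)
    (hAV : ∀ a : A0, (a : K) ∈ V) (P : Ideal A0) [P.IsPrime]
    (hP : ∀ a : A0, a ∈ P ↔ V.valuation (a : K) < 1)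
    (halg : ∀ z : K, z ∈ V1 → ∃ f : Polynomial A0,
      (∃ n, V1.valuation ((f.coeff n : A0) : K) = 1) ∧ V1.valuation (Polynomial.aeval z f) < 1)
    {r s : ℕ} (hr : 0 < r) (x : Fin r → K) (hx1 : ∀ i, V1.valuation (x i) = 1)
    (hx : ∀ m : Fin r → ℤ, V.valuation (∏ i, x i ^ m i) = 1 → m = 0)
    (hrank : ∀ z : Fin (r + 1) → K, (∀ i, V1.valuation (z i) = 1) →
      ∃ m : Fin (r + 1) → ℤ, m ≠ 0 ∧ V.valuation (∏ i, z i ^ m i) = 1)
    (y : Fin s → K) (hyV : ∀ j, y j ∈ V)
    (hy : ∀ q : MvPolynomial (Fin s) A0, V.valuation (MvPolynomial.aeval y q) < 1 →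
      ∀ m, V.valuation ((MvPolynomial.coeff m q : A0) : K) < 1)
    (hyalg : ∀ z : K, z ∈ V → ∃ f : Polynomial (Algebra.adjoin A0 (Set.range y)),
      (∃ n, V.valuation ((f.coeff n : Algebra.adjoin A0 (Set.range y)) : K) = 1) ∧
      V.valuation (Polynomial.aeval z f) < 1)
    (hp : V.valuation (p : K) < 1) (hp1 : V1.valuation (p : K) = 1)
    (hdim : ringKrullDim (AdicCompletion (maximalIdeal (Localization.AtPrime P))
      (Localization.AtPrime P) ⧸ implicitIdeal V1 V A0 P) ≤ ((r + s + 1 : ℕ) : WithBot ℕ∞)) {r1 : ℕ}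
    (H : Unif (algebraMap R K) V1 r1) : Unif (algebraMap R K) V (r1 + r) := by
  classical
  have hfg' := hfg
  obtain ⟨g0, hg0⟩ := hfg
  have hA : Subring.closure (((algebraMap R K).range : Set K) ∪ (g0 : Set K)) = A0.toSubring := by
    rw [← hg0, Algebra.adjoin_eq_ring_closure]
    rfl
  have hAV' : Subring.closure (((algebraMap R K).range : Set K) ∪ (g0 : Set K)) ≤
      V.toSubring := by
    rw [hA]
    exact fun z hz => hAV ⟨z, hz⟩
  have hloc : IsLocalRing
      (locV V (Subring.closure (((algebraMap R K).range : Set K) ∪ (g0 : Set K)))) :=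
    isLocalRing_locV V hAV'
  obtain ⟨I, hI⟩ := qqx_step p hR.1 h harch A0 hfg' hAV P hP halg hr x hx1 hx hrank y hyV hy
    hyalg hp hp1 hdim
    (Subring.closure (((algebraMap R K).range : Set K) ∪ (g0 : Set K))) hA
  exact unif_QX p hR (algebraMap R K) g0 hI H

section

variable {R K : Type} [CommRing R] [Field K] [Algebra R K]

private theorem qbs_alg {A0 : Subalgebra R K} (halg : Algebra.IsAlgebraic A0 K) (z : K)
    (_ : z ∈ (⊤ : ValuationSubring K)) : ∃ f : Polynomial A0,
      (∃ n, (⊤ : ValuationSubring K).valuation ((f.coeff n : A0) : K) = 1) ∧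
      (⊤ : ValuationSubring K).valuation (Polynomial.aeval z f) < 1 := by
  obtain ⟨f, hf0, hf⟩ := halg.isAlgebraic z
  refine ⟨f, ?_, (top_lt _).2 hf⟩
  refine ⟨f.natDegree, (top_one _).2 fun h0 => hf0 ?_⟩
  have h1 : f.leadingCoeff = 0 := Subtype.ext h0
  exact Polynomial.leadingCoeff_eq_zero.1 h1

theorem base_defM (p : ℕ) [Fact p.Prime] (hR : GoodBase R) (V : ValuationSubring K)
    (harch : ∀ a b : K, a ≠ 0 → V.valuation b < 1 → ∃ n : ℕ, V.valuation (b ^ n) ≤ V.valuation a)
    (A0 : Subalgebra R K) (hfg : A0.FG)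
    (hAV : ∀ a : A0, (a : K) ∈ V) (P : Ideal A0) [P.IsPrime]
    (hP : ∀ a : A0, a ∈ P ↔ V.valuation (a : K) < 1) (halg : Algebra.IsAlgebraic A0 K)
    {r s : ℕ} (hr : 0 < r) (x : Fin r → K) (hx0 : ∀ i, x i ≠ 0)
    (hx : ∀ m : Fin r → ℤ, V.valuation (∏ i, x i ^ m i) = 1 → m = 0)
    (hrank : ∀ z : Fin (r + 1) → K, (∀ i, z i ≠ 0) →
      ∃ m : Fin (r + 1) → ℤ, m ≠ 0 ∧ V.valuation (∏ i, z i ^ m i) = 1)
    (y : Fin s → K) (hyV : ∀ j, y j ∈ V)
    (hy : ∀ p : MvPolynomial (Fin s) A0, V.valuation (MvPolynomial.aeval y p) < 1 →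
      ∀ m, V.valuation ((MvPolynomial.coeff m p : A0) : K) < 1)
    (hp0 : (p : K) ≠ 0) (hp : V.valuation (p : K) < 1)
    (hdim : ringKrullDim (AdicCompletion (maximalIdeal (Localization.AtPrime P))
      (Localization.AtPrime P) ⧸ (⨅ d : {d : A0 // d ≠ 0}, Ideal.span
    ((fun a : A0 => algebraMap (Localization.AtPrime P)
      (AdicCompletion (maximalIdeal (Localization.AtPrime P)) (Localization.AtPrime P))
      (algebraMap A0 (Localization.AtPrime P) a)) ''
      {a : A0 | V.valuation (a : K) ≤ V.valuation ((d : A0) : K)}))) ≤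
      ((r + s + 1 : ℕ) : WithBot ℕ∞)) : Unif (algebraMap R K) V r := by
  by_cases hyalg : ∀ z : K, z ∈ V → ∃ f : Polynomial (Algebra.adjoin A0 (Set.range y)),
      (∃ n, V.valuation ((f.coeff n : Algebra.adjoin A0 (Set.range y)) : K) = 1) ∧
      V.valuation (Polynomial.aeval z f) < 1
  · rw [← impl_top] at hdim
    have h3 := unif_QQX p hR (V := V) (V1 := ⊤) le_top
      (fun a b ha _ hb => harch a b ((top_one a).1 ha) hb)
      A0 hfg hAV P hP (qbs_alg halg) hr x (fun i => (top_one _).2 (hx0 i)) hx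
      (fun z hz => hrank z fun i => (top_one _).1 (hz i)) y hyV hy hyalg
      hp ((top_one _).2 hp0) hdim (Unif_top _)
    simpa using h3
  · push Not at hyalg
    obtain ⟨z, hzV, hz⟩ := hyalg
    refine base_impl hR V harch A0 hfg hAV P hP halg hr x hx0 hx (Fin.cons z y : Fin (s + 1) → K)
      (fun j => ?_) (resIndep_cons y hyV hAV hy z ?_) ?_
    · refine Fin.cases ?_ (fun i => ?_) j
      · exact hzV
      · exact hyV i
    · rintro ⟨f, ⟨n, hn⟩, hf⟩
      exact absurd hf (not_lt.2 (hz f ⟨n, hn⟩))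
    · rw [← add_assoc]
      exact hdim

end

end Pool.Agent.Lib.MXB
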