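import Pool.Agent.Lib.MX.ThmA

/-!
# Module ThmF: monomialization of finite sets
-/

namespace Pool.Agent.Lib.MX

open Pool.Agent.Lib.MP_3029eb_ag Pool.Agent.Lib.MP_3029eb_ag.Abh Pool.Agent.Lib.TDO
open Pool.Agent.Lib.TU (Mt exists_Mt)

variable {E W : Type} [Field E] [NormedField W] [IsUltrametricDist W] [Algebra E W] {r p : ℕ}
  {S : IntermediateField E W} {c c' c'' : Tri W r}

theorem thmA_Fr (hr : 0 < r) (hA : AmbX p r S) (hc : Gd S c) {z : W} (hz : z ∈ Fr E c)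
    (h0 : z ≠ 0) : ∃ c' : Tri W r, RfS S c c' ∧ MoH c' z := by
  obtain ⟨a, ha, b, hb, hb0, h⟩ := (mem_Fr_iff hc z).1 hz
  have ha0 : a ≠ 0 := by rw [← h]; exact mul_ne_zero h0 hb0
  obtain ⟨c1, h1, h2⟩ := thmA hr hA hc (HO_le_HL (B_mem_HO hc ha)) ha0
  obtain ⟨c2, h3, h4⟩ := thmA hr hA (h1.gd hc)
    (HO_le_HL (h1.HO_le (B_mem_HO hc hb))) hb0
  refine ⟨c2, h1.trans h3, ?_⟩
  have h5 : z = a * b⁻¹ := by rw [← h, mul_inv_cancel_right₀ hb0]
  rw [h5]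
  exact MoH.mul (h3.gd (h1.gd hc)) (h3.moH h2) (MoH.inv (h3.gd (h1.gd hc)) h4)

/-- Finitely many nonzero elements of the field of fractions become monomial. -/
theorem thmA_fin (hr : 0 < r) (hA : AmbX p r S) (hc : Gd S c) (Z : Finset W)
    (hZ : ∀ z ∈ Z, z ∈ Fr E c ∧ z ≠ 0) : ∃ c' : Tri W r, RfS S c c' ∧ ∀ z ∈ Z, MoH c' z := by
  classical
  induction Z using Finset.induction_on with
  | empty => exact ⟨c, Relation.ReflTransGen.refl, fun z hz => absurd hz (Finset.notMem_empty z)⟩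
  | insert a s ha ih =>
    obtain ⟨c1, h1, h2⟩ := ih fun z hz => hZ z (Finset.mem_insert_of_mem hz)
    obtain ⟨h3, h4⟩ := hZ a (Finset.mem_insert_self a s)
    obtain ⟨c2, h5, h6⟩ := thmA_Fr hr hA (h1.gd hc) (by rw [h1.fr]; exact h3) h4
    refine ⟨c2, h1.trans h5, fun z hz => ?_⟩
    rcases Finset.mem_insert.1 hz with rfl | hz
    · exact h6
    · exact h5.moH (h2 z hz)

/-- Finitely many elements of norm at most one of the field of fractions are in `HO c'`. -/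
theorem thmA_HO (hr : 0 < r) (hA : AmbX p r S) (hc : Gd S c) (Z : Finset W)
    (hZ : ∀ z ∈ Z, z ∈ Fr E c ∧ ‖z‖ ≤ 1) : ∃ c' : Tri W r, RfS S c c' ∧ ∀ z ∈ Z, z ∈ HO c' := by
  classical
  obtain ⟨c', h1, h2⟩ := thmA_fin hr hA hc (Z.filter fun z => z ≠ 0) fun z hz =>
    ⟨(hZ z (Finset.mem_filter.1 hz).1).1, (Finset.mem_filter.1 hz).2⟩
  refine ⟨c', h1, fun z hz => ?_⟩
  by_cases h0 : z = 0
  · rw [h0]; exact zero_mem _
  · exact (h2 z (Finset.mem_filter.2 ⟨hz, h0⟩)).mem_HO (h1.gd hc) (hZ z hz).2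

end Pool.Agent.Lib.MX
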