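import Pool.Agent.Lib.MX.AdmSt
import Pool.Agent.Lib.MX.ThmF
import Pool.Agent.Lib.MX.ExpX

set_option autoImplicit false

/-!
# Module MX.AdmCmp: two admissible norms are comparable (paper 4.1, 4.3)

`adm_eq_mo`: `z = mon c.x a * u`, `u ∈ HO c`, `‖u‖ = 1`: `N u ≤ 1` and `N u ≥ ‖u‖ = 1`.
`adm_le_gn`: `z ∈ HL c` nonzero has a lead form `z = mon c.x a * (y^d v + q)`: `Gn c z = ‖mon c.x a‖`, the bracket is in `HO c`.
`adm_le`: `N1 y > ‖y‖`, `N2 y ≤ N1 y`.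
Case `N1 y = 1`: `N1 = Gn c` on `HL c`: lead form, `N1 q < 1` (`q = mon c.x b * h`, `‖mon c.x b‖ < 1`),
`N1 (y^d v) = N1 v = 1`, so `N1 z = ‖mon c.x a‖ = Gn c z ≥ N2 z`.
Case `N1 y < 1`: let `z ∈ HL c`, `z ≠ 0`.  Expansion (module ExpX): for all `ε > 0` there is a finite sum
`P = ∑_A t_(a,j) x^a y^j`, `t_(a,j) ∈ HO c` of norm one, such that `z - P` is a sum of an element of `x^b HO c` with `‖x^b‖ < ε` and an element
`x^(a0) y^J HO c`, `‖x^(a0)‖ = Gn c z`, `J` large: both norms of `z - P` are less than any given `δ > 0` (`N2 y ≤ N1 y < 1`); choose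
`δ := ‖z‖ ≤ N1 z, N2 z`.  So `N_i z = N_i P`.  Let `μ := max_A ‖x^a‖ (N1 y)^j`.  `N2 P ≤ max_A ‖x^a‖ (N2 y)^j ≤ μ`.
`N1 P = μ`: the terms with `‖x^a‖ (N1 y)^j < μ` do not matter; two different terms with value `μ` have different `j` (equal `j`: `‖x^a‖ = ‖x^a'‖`,
`a = a'`, `norm_mon_inj`); let `(a1, j1)` be the one with the smallest `j`: the sum of the terms of value `μ` is `x^(a1) y^(j1) ζ`,
`ζ = t + ∑ t' x^(a - a1) y^(j - j1)` in `HL c`, `‖x^(a - a1)‖ (N1 y)^(j - j1) = 1` and `‖y‖ < N1 y`, so `‖x^(a - a1) y^(j - j1)‖ < 1`, `‖ζ‖ = 1`, so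
`N1 ζ ≥ 1` (`Adm.ge`), `N1` of the sum is `≥ μ`, and `≤ μ` clearly.
`adm_comp`: otherwise there are `z1, z2 ∈ HL c` with `N2 z1 < N1 z1`, `N1 z2 < N2 z2`; Theorem A (twice): `RfS S c c'`, `MoH c' z1`, `MoH c' z2`.
Head induction on `RfS S c c'` (for all `N1, N2` admissible for the first triple, whose `HL` contains `z1, z2`): `c = c'`: `adm_eq_mo`
gives `N1 z1 = ‖z1‖ = N2 z1`.  Step `c → c1`: if `N1 y = N2 y = ‖y‖` (`Adm.ge`: `‖y‖ ≤ N_i y`) then both are admissible for `c1` (`adm_stage`), `HL c ≤ HL c1`.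
Otherwise `adm_le` applies to `(N1, N2)` or `(N2, N1)`: contradiction.
-/

namespace Pool.Agent.Lib.MX

open Pool.Agent.Lib.MP_3029eb_ag Pool.Agent.Lib.MP_3029eb_ag.Abh Pool.Agent.Lib.TDO
open Pool.Agent.Lib.TU (Mt)

variable {E W : Type} [Field E] [NormedField W] [IsUltrametricDist W] [Algebra E W] {p r : ℕ}
  {S : IntermediateField E W}

/-- The norm of a unit of `HO c`. -/
private theorem AdmCmp_unit {c : Tri W r} {N : W → ℝ} (hN : Adm E c N) {u : W}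
    (hu : u ∈ HO c) (h1 : ‖u‖ = 1) : N u = 1 :=
  le_antisymm (hN.le1 u hu) (h1 ▸ hN.ge u (HO_le_HL hu))

theorem adm_eq_mo {c : Tri W r} (hc : Gd S c) {N : W → ℝ} (hN : Adm E c N) {z : W}
    (hz : MoH c z) : N z = ‖z‖ := by
  obtain ⟨a, u, hu, hu1, rfl⟩ := hz
  rw [hN.fn.mul _ (mon_mem_Fr hc a) _ (HO_mem_Fr hc hu), hN.mon, AdmCmp_unit hN hu hu1, norm_mul,
    hu1]

theorem adm_le_gn (hr : 0 < r) (hA : AmbX p r S) {c : Tri W r} (hc : Gd S c) {N : W → ℝ} (hN : Adm E c N)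
    {z : W} (hz : z ∈ HL c) : N z ≤ Gn c z := by
  by_cases h0 : z = 0
  · rw [h0, hN.fn.zero]
    exact Gn_nonneg 0
  · obtain ⟨a, d, h⟩ := exists_Ld hr hA hc hz h0
    rw [Gn_eq hr hA hc h]
    obtain ⟨v, hv, hv1, q, hq, rfl⟩ := h
    have h2 : c.y ^ d * v + q ∈ HO c :=
      add_mem (mul_mem (pow_mem (y_mem_HO hc) d) hv) (QH_mem_HO hc hq)
    rw [hN.fn.mul _ (mon_mem_Fr hc a) _ (HO_mem_Fr hc h2), hN.mon]
    exact mul_le_of_le_one_right (norm_nonneg _) (hN.le1 _ h2)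

/-- If `N a ≤ C` fails for a sum it fails for a summand. -/
private theorem AdmCmp_low {M : IntermediateField E W} {N : W → ℝ} (h : FN M N) {a b : W}
    (ha : a ∈ M) (hb : b ∈ M) {μ : ℝ} (h1 : μ ≤ N (a + b)) (h2 : N b < μ) : μ ≤ N a := by
  rcases le_max_iff.1 (h1.trans (h.add a ha b hb)) with h3 | h3
  · exact h3
  · exact absurd h3 (not_le.2 h2)

/-- A finite sum of elements of norm less than one. -/
private theorem AdmCmp_small {ι : Type} (s : Finset ι) (f : ι → W) (h : ∀ i ∈ s, ‖f i‖ < 1) :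
    ‖∑ i ∈ s, f i‖ < 1 := by
  classical
  induction s using Finset.induction_on with
  | empty => rw [Finset.sum_empty, norm_zero]; exact one_pos
  | insert a s ha ih =>
    rw [Finset.sum_insert ha]
    exact (IsUltrametricDist.norm_add_le_max _ _).trans_lt (max_lt
      (h a (Finset.mem_insert_self _ _)) (ih fun i hi => h i (Finset.mem_insert_of_mem hi)))

/-- The strict bound of a finite sum. -/
private theorem AdmCmp_lt {M : IntermediateField E W} {N : W → ℝ} (h : FN M N) {ι : Type}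
    (s : Finset ι) (f : ι → W) (hf : ∀ i ∈ s, f i ∈ M) {C : ℝ} (hC : 0 < C)
    (hN : ∀ i ∈ s, N (f i) < C) : N (∑ i ∈ s, f i) < C := by
  classical
  induction s using Finset.induction_on with
  | empty => rw [Finset.sum_empty, h.zero]; exact hC
  | insert a s ha ih =>
    rw [Finset.sum_insert ha]
    exact (h.add _ (hf a (Finset.mem_insert_self _ _)) _
      (sum_mem fun i hi => hf i (Finset.mem_insert_of_mem hi))).trans_lt (max_lt
        (hN a (Finset.mem_insert_self _ _)) (ih (fun i hi => hf i (Finset.mem_insert_of_mem hi))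
          fun i hi => hN i (Finset.mem_insert_of_mem hi)))

/-- The norm of a finite sum of terms of an expansion, lower bound. -/
private theorem AdmCmp_sum {c : Tri W r} (hc : Gd S c) {N1 : W → ℝ}
    (h1 : Adm E c N1) (hy1 : ‖c.y‖ < N1 c.y) {F : Subfield (RW W)} {τ : F → W}
    (hτ : Sec c.B F τ) (D : Finset ((Fin r → ℤ) × ℕ)) (f : (Fin r → ℤ) × ℕ → F)
    (hf : ∀ m ∈ D, f m ≠ 0) {μ : ℝ} (hμ : ∀ m ∈ D, ‖mon c.x m.1‖ * N1 c.y ^ m.2 ≤ μ)
    {m0 : (Fin r → ℤ) × ℕ} (hm0 : m0 ∈ D) (hm0' : ‖mon c.x m0.1‖ * N1 c.y ^ m0.2 = μ) :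
    μ ≤ N1 (∑ m ∈ D, τ (f m) * (mon c.x m.1 * c.y ^ m.2)) := by
  classical
  have hx := hc.ind
  have hτO : ∀ e : F, τ e ∈ HO c := fun e => B_mem_HO hc (hτ.mem e)
  have hyF : c.y ∈ Fr E c := B_le_Fr hc.yB
  have hyn : 0 < N1 c.y := lt_of_le_of_lt (norm_nonneg _) hy1
  have hμ0 : 0 < μ := by
    rw [← hm0']
    exact mul_pos (norm_pos_iff.2 (mon_ne c.x hx.ne _)) (pow_pos hyn _)
  have hterm : ∀ m : (Fin r → ℤ) × ℕ, ∀ e : F, τ e * (mon c.x m.1 * c.y ^ m.2) ∈ HL c := fun m e =>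
    mul_mem (HO_le_HL (hτO e)) (mul_mem (mon_mem_HL _) (pow_mem (HO_le_HL (y_mem_HO hc)) _))
  have hval : ∀ m ∈ D, N1 (τ (f m) * (mon c.x m.1 * c.y ^ m.2)) =
      ‖mon c.x m.1‖ * N1 c.y ^ m.2 := by
    intro m hm
    rw [h1.fn.mul _ (HO_mem_Fr hc (hτO _)) _ (mul_mem (mon_mem_Fr hc _) (pow_mem hyF _)),
      h1.fn.mul _ (mon_mem_Fr hc _) _ (pow_mem hyF _), h1.mon, h1.fn.pow hyF,
      AdmCmp_unit h1 (hτO _) (hτ.norm_one (hf m hm)), one_mul]
  -- the terms of maximal value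
  set M : Finset ((Fin r → ℤ) × ℕ) := D.filter (fun m => ‖mon c.x m.1‖ * N1 c.y ^ m.2 = μ) with hM
  have hMne : M.Nonempty := ⟨m0, Finset.mem_filter.2 ⟨hm0, hm0'⟩⟩
  obtain ⟨m1, hm1, hmin⟩ := Finset.exists_min_image M (fun m => m.2) hMne
  have hm1D : m1 ∈ D := (Finset.mem_filter.1 hm1).1
  have hm1v : ‖mon c.x m1.1‖ * N1 c.y ^ m1.2 = μ := (Finset.mem_filter.1 hm1).2
  rw [← Finset.sum_filter_add_sum_filter_not D (fun m => ‖mon c.x m.1‖ * N1 c.y ^ m.2 = μ)]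
  refine AdmCmp_low h1.fn (a := _ + _) (b := -(∑ m ∈ D.filter
      (fun m => ¬ (‖mon c.x m.1‖ * N1 c.y ^ m.2 = μ)), τ (f m) * (mon c.x m.1 * c.y ^ m.2)))
      (add_mem (sum_mem fun m _ => HL_mem_Fr hc (hterm m _))
        (sum_mem fun m _ => HL_mem_Fr hc (hterm m _)))
      (neg_mem (sum_mem fun m _ => HL_mem_Fr hc (hterm m _))) ?_ ?_
  · rw [add_neg_cancel_right, ← hM]
    -- factor out the term with the smallest exponent of y
    have hd : ∀ m ∈ M, m ≠ m1 → m1.2 < m.2 := by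
      intro m hm hne
      refine lt_of_le_of_ne (hmin m hm) fun h2 => hne ?_
      have h3 : ‖mon c.x m.1‖ = ‖mon c.x m1.1‖ := by
        have h4 := (Finset.mem_filter.1 hm).2
        rw [← hm1v, ← h2] at h4
        exact mul_right_cancel₀ (pow_pos hyn _).ne' h4
      exact Prod.ext (norm_mon_inj hx h3) h2.symm
    set ζ : W := ∑ m ∈ M, τ (f m) * (mon c.x (m.1 - m1.1) * c.y ^ (m.2 - m1.2)) with hζ
    have hfac : ∑ m ∈ M, τ (f m) * (mon c.x m.1 * c.y ^ m.2) = mon c.x m1.1 * c.y ^ m1.2 * ζ := by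
      rw [hζ, Finset.mul_sum]
      refine Finset.sum_congr rfl fun m hm => ?_
      have h2 : c.y ^ m.2 = c.y ^ m1.2 * c.y ^ (m.2 - m1.2) := by
        rw [← pow_add, Nat.add_sub_cancel' (hmin m hm)]
      have h3 : mon c.x m.1 = mon c.x m1.1 * mon c.x (m.1 - m1.1) := by
        rw [← mon_add c.x hx.ne, add_sub_cancel]
      rw [h2, h3]
      ring
    have hζL : ζ ∈ HL c := sum_mem fun m _ => mul_mem (HO_le_HL (hτO _))
      (mul_mem (mon_mem_HL _) (pow_mem (HO_le_HL (y_mem_HO hc)) _))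
    have hζ1 : ‖ζ‖ = 1 := by
      rw [hζ, ← Finset.add_sum_erase M _ hm1, sub_self, mon_zero, Nat.sub_self, pow_zero, mul_one,
        mul_one]
      have h2 : ‖τ (f m1)‖ = 1 := hτ.norm_one (hf m1 hm1D)
      have h3 : ‖∑ m ∈ M.erase m1, τ (f m) * (mon c.x (m.1 - m1.1) * c.y ^ (m.2 - m1.2))‖ < 1 := by
        refine AdmCmp_small _ _ fun m hm => ?_
        obtain ⟨hne, hmM⟩ := Finset.mem_erase.1 hm
        have h4 := hd m hmM hne
        have h5 : ‖mon c.x (m.1 - m1.1)‖ * N1 c.y ^ (m.2 - m1.2) = 1 := by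
          have h6 := (Finset.mem_filter.1 hmM).2
          have h7 : N1 c.y ^ m.2 = N1 c.y ^ m1.2 * N1 c.y ^ (m.2 - m1.2) := by
            rw [← pow_add, Nat.add_sub_cancel' h4.le]
          have h8 : mon c.x m.1 = mon c.x m1.1 * mon c.x (m.1 - m1.1) := by
            rw [← mon_add c.x hx.ne, add_sub_cancel]
          rw [h7, h8, norm_mul] at h6
          have h9 : μ * (‖mon c.x (m.1 - m1.1)‖ * N1 c.y ^ (m.2 - m1.2)) = μ * 1 := by
            rw [mul_one]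
            nth_rewrite 1 [← hm1v]
            rw [← h6]
            ring
          exact mul_left_cancel₀ hμ0.ne' h9
        rw [norm_mul, norm_mul, norm_pow, hτ.norm_one (hf m (Finset.mem_filter.1 hmM).1), one_mul]
        rw [← h5]
        refine mul_lt_mul_of_pos_left ?_ (norm_pos_iff.2 (mon_ne c.x hx.ne _))
        exact pow_lt_pow_left₀ hy1 (norm_nonneg _) (by omega)
      rw [← h2] at h3
      rw [IsUltrametricDist.norm_add_eq_max_of_norm_ne_norm h3.ne', max_eq_left h3.le, h2]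
    rw [hfac, h1.fn.mul _ (mul_mem (mon_mem_Fr hc _) (pow_mem hyF _)) _ (HL_mem_Fr hc hζL),
      h1.fn.mul _ (mon_mem_Fr hc _) _ (pow_mem hyF _), h1.mon, h1.fn.pow hyF, hm1v]
    exact le_mul_of_one_le_right hμ0.le (hζ1 ▸ h1.ge ζ hζL)
  · rw [h1.fn.neg (sum_mem fun m _ => HL_mem_Fr hc (hterm m _))]
    refine AdmCmp_lt h1.fn _ _ (fun m _ => HL_mem_Fr hc (hterm m _)) hμ0 fun m hm => ?_
    obtain ⟨hmD, hmne⟩ := Finset.mem_filter.1 hm
    rw [hval m hmD]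
    exact lt_of_le_of_ne (hμ m hmD) hmne

/-- The case `N1 y < 1` is done with the expansion of `z`. -/
private theorem AdmCmp_exp (hr : 0 < r) {c : Tri W r} (hc : Gd S c)
    {N1 N2 : W → ℝ} (h1 : Adm E c N1) (h2 : Adm E c N2) (hy1 : ‖c.y‖ < N1 c.y)
    (h21 : N2 c.y ≤ N1 c.y) (hlt : N1 c.y < 1) {z : W} (hz : z ∈ HL c) (hz0 : z ≠ 0) :
    N2 z ≤ N1 z := by
  classical
  have hx := hc.ind
  have hyF : c.y ∈ Fr E c := B_le_Fr hc.yB
  have hyn : 0 < N1 c.y := lt_of_le_of_lt (norm_nonneg _) hy1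
  have hy2n : 0 ≤ N2 c.y := h2.fn.nonneg hyF
  obtain ⟨a0, h, hh, hzh⟩ := (mem_HL_iff hc z).1 hz
  have hzn : 0 < ‖z‖ := norm_pos_iff.2 hz0
  have ha0 : 0 < ‖mon c.x a0‖ := norm_pos_iff.2 (mon_ne c.x hx.ne _)
  -- the error terms
  obtain ⟨N, -, hN⟩ := exists_mon_lt hr hx (‖z‖ / ‖mon c.x a0‖) (div_pos hzn ha0)
  obtain ⟨J, hJ⟩ := exists_pow_lt_of_lt_one (div_pos hzn ha0) hlt
  rw [lt_div_iff₀' ha0] at hN hJ
  obtain ⟨τ, hτ⟩ := exists_Sec (F := kap c.B) (fun _ hz => hc.norm_le hz)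
    (fun _ hz h1 => hc.inv hz h1) le_rfl
  have hτO : ∀ e, τ e ∈ HO c := fun e => B_mem_HO hc (hτ.mem e)
  obtain ⟨P, -, e1, he1, e2, he2, hP⟩ := HO_approxS hr hc rfl hτ hh N J
  set D : Finset ((Fin r → ℤ) × ℕ) := P.coeff.support with hD
  have hev : evS τ c.x c.y P = ∑ m ∈ D, τ (P.coeff m) * (mon c.x m.1 * c.y ^ m.2) :=
    evS_eq_sum hτ.zero c.x c.y P D fun m hm => Finsupp.mem_support_iff.2 hm
  have hDne : ∀ m ∈ D, P.coeff m ≠ 0 := fun m hm => Finsupp.mem_support_iff.1 hm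
  have hevF : evS τ c.x c.y P ∈ Fr E c := HL_mem_Fr hc (evS_mem_HL hc hτ P)
  have hmF : mon c.x a0 ∈ Fr E c := mon_mem_Fr hc a0
  set err : W := mon c.x a0 * (mon c.x N * e1 + c.y ^ J * e2) with herr
  have hbrF : mon c.x N * e1 + c.y ^ J * e2 ∈ Fr E c :=
    add_mem (mul_mem (mon_mem_Fr hc _) (HO_mem_Fr hc he1))
      (mul_mem (pow_mem hyF _) (HO_mem_Fr hc he2))
  have herrF : err ∈ Fr E c := mul_mem hmF hbrF
  have hzP : z = mon c.x a0 * evS τ c.x c.y P + err := by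
    rw [hzh, hP, herr]
    ring
  have hsmall : ∀ {N' : W → ℝ}, Adm E c N' → N' c.y ≤ N1 c.y → N' err < ‖z‖ := by
    intro N' h' hy'
    rw [herr, h'.fn.mul _ hmF _ hbrF, h'.mon]
    have h3 : N' (mon c.x N * e1) ≤ ‖mon c.x N‖ := by
      rw [h'.fn.mul _ (mon_mem_Fr hc _) _ (HO_mem_Fr hc he1), h'.mon]
      exact mul_le_of_le_one_right (norm_nonneg _) (h'.le1 _ he1)
    have h4 : N' (c.y ^ J * e2) ≤ N1 c.y ^ J := by
      rw [h'.fn.mul _ (pow_mem hyF _) _ (HO_mem_Fr hc he2), h'.fn.pow hyF]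
      exact (mul_le_of_le_one_right (pow_nonneg (h'.fn.nonneg hyF) _) (h'.le1 _ he2)).trans
        (pow_le_pow_left₀ (h'.fn.nonneg hyF) hy' J)
    rcases le_max_iff.1 (h'.fn.add _ (mul_mem (mon_mem_Fr hc N) (HO_mem_Fr hc he1)) _
      (mul_mem (pow_mem hyF J) (HO_mem_Fr hc he2))) with h5 | h5
    · exact lt_of_le_of_lt (mul_le_mul_of_nonneg_left (h5.trans h3) ha0.le) hN
    · exact lt_of_le_of_lt (mul_le_mul_of_nonneg_left (h5.trans h4) ha0.le) hJ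
  have herr1 : N1 err < N1 z := lt_of_lt_of_le (hsmall h1 le_rfl) (h1.ge z hz)
  have herr2 : N2 err < N1 z := lt_of_lt_of_le (hsmall h2 h21) (h1.ge z hz)
  have hz2 : N2 z ≤ max (N2 (mon c.x a0 * evS τ c.x c.y P)) (N2 err) := by
    nth_rewrite 1 [hzP]
    exact h2.fn.add _ (mul_mem hmF hevF) _ herrF
  rcases le_max_iff.1 hz2 with h3 | h3
  swap
  · exact h3.trans herr2.le
  rcases D.eq_empty_or_nonempty with hDe | hDn
  · rw [hev, hDe, Finset.sum_empty, mul_zero, h2.fn.zero] at h3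
    exact h3.trans (h1.fn.nonneg (HL_mem_Fr hc hz))
  -- the largest term
  obtain ⟨m0, hm0, hmax⟩ := Finset.exists_max_image D
    (fun m => ‖mon c.x m.1‖ * N1 c.y ^ m.2) hDn
  have h4 := AdmCmp_sum hc h1 hy1 hτ D (fun m => P.coeff m) hDne hmax hm0 rfl
  rw [← hev] at h4
  have h5 : N2 (evS τ c.x c.y P) ≤ ‖mon c.x m0.1‖ * N1 c.y ^ m0.2 := by
    rw [hev]
    refine h2.fn.sum_le _ _ (fun m _ => mul_mem (HO_mem_Fr hc (hτO _))
      (mul_mem (mon_mem_Fr hc _) (pow_mem hyF _))) (mul_nonneg (norm_nonneg _)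
        (pow_nonneg hyn.le _)) fun m hm => ?_
    rw [h2.fn.mul _ (HO_mem_Fr hc (hτO _)) _ (mul_mem (mon_mem_Fr hc _) (pow_mem hyF _)),
      h2.fn.mul _ (mon_mem_Fr hc _) _ (pow_mem hyF _), h2.mon, h2.fn.pow hyF,
      AdmCmp_unit h2 (hτO _) (hτ.norm_one (hDne m hm)), one_mul]
    exact (mul_le_mul_of_nonneg_left (pow_le_pow_left₀ hy2n h21 _) (norm_nonneg _)).trans
      (hmax m hm)
  have h6 : N2 (mon c.x a0 * evS τ c.x c.y P) ≤ N1 (mon c.x a0 * evS τ c.x c.y P) := by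
    rw [h2.fn.mul _ hmF _ hevF, h1.fn.mul _ hmF _ hevF, h1.mon, h2.mon]
    exact mul_le_mul_of_nonneg_left (h5.trans h4) ha0.le
  refine h3.trans (h6.trans ?_)
  have h7 : mon c.x a0 * evS τ c.x c.y P = z + -err := by
    rw [hzP]
    ring
  rw [h7]
  refine (h1.fn.add _ (HL_mem_Fr hc hz) _ (neg_mem herrF)).trans (max_le le_rfl ?_)
  rw [h1.fn.neg herrF]
  exact herr1.le

theorem adm_le (hr : 0 < r) (hA : AmbX p r S) {c : Tri W r} (hc : Gd S c) {N1 N2 : W → ℝ}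
    (h1 : Adm E c N1) (h2 : Adm E c N2) (hy1 : ‖c.y‖ < N1 c.y) (h21 : N2 c.y ≤ N1 c.y) :
    ∀ z ∈ HL c, N2 z ≤ N1 z := by
  intro z hz
  by_cases hz0 : z = 0
  · rw [hz0, h1.fn.zero, h2.fn.zero]
  rcases lt_or_eq_of_le (h1.le1 c.y (y_mem_HO hc)) with hlt | heq
  · exact AdmCmp_exp hr hc h1 h2 hy1 h21 hlt hz hz0
  · refine (adm_le_gn hr hA hc h2 hz).trans ?_
    obtain ⟨a, d, h⟩ := exists_Ld hr hA hc hz hz0
    rw [Gn_eq hr hA hc h]
    obtain ⟨v, hv, hv1, q, hq, rfl⟩ := h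
    have hyF : c.y ∈ Fr E c := B_le_Fr hc.yB
    have hvF : v ∈ Fr E c := HO_mem_Fr hc hv
    have hqF : q ∈ Fr E c := HO_mem_Fr hc (QH_mem_HO hc hq)
    have hyvF : c.y ^ d * v ∈ Fr E c := mul_mem (pow_mem hyF d) hvF
    rw [h1.fn.mul _ (mon_mem_Fr hc a) _ (add_mem hyvF hqF), h1.mon]
    refine le_mul_of_one_le_right (norm_nonneg _) ?_
    have h3 : N1 (c.y ^ d * v) = 1 := by
      rw [h1.fn.mul _ (pow_mem hyF d) _ hvF, h1.fn.pow hyF, heq, one_pow, one_mul,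
        AdmCmp_unit h1 hv hv1]
    have h4 : N1 (-q) < 1 := by
      rw [h1.fn.neg hqF]
      obtain ⟨b, hb, h, hh, rfl⟩ := hq
      rw [h1.fn.mul _ (mon_mem_Fr hc b) _ (HO_mem_Fr hc hh), h1.mon]
      exact lt_of_le_of_lt (mul_le_of_le_one_right (norm_nonneg _) (h1.le1 _ hh)) hb
    refine AdmCmp_low h1.fn (a := c.y ^ d * v + q) (b := -q) (add_mem hyvF hqF) (neg_mem hqF)
      ?_ h4
    rw [add_neg_cancel_right, h3]

theorem adm_comp (hr : 0 < r) (hA : AmbX p r S) {c : Tri W r} (hc : Gd S c) {N1 N2 : W → ℝ}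
    (h1 : Adm E c N1) (h2 : Adm E c N2) :
    (∀ z ∈ HL c, N1 z ≤ N2 z) ∨ ∀ z ∈ HL c, N2 z ≤ N1 z := by
  by_contra hcon
  push Not at hcon
  obtain ⟨⟨z1, hz1, hlt1⟩, z2, hz2, hlt2⟩ := hcon
  have h01 : z1 ≠ 0 := by
    rintro rfl
    rw [h1.fn.zero, h2.fn.zero] at hlt1
    exact lt_irrefl _ hlt1
  have h02 : z2 ≠ 0 := by
    rintro rfl
    rw [h1.fn.zero, h2.fn.zero] at hlt2
    exact lt_irrefl _ hlt2
  obtain ⟨c1, hr1, hm1⟩ := thmA hr hA hc hz1 h01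
  obtain ⟨c', hr2, hm2⟩ := thmA hr hA (hr1.gd hc) (hr1.HL_le hc hz2) h02
  have hR : RfS S c c' := hr1.trans hr2
  have hm1' : MoH c' z1 := hr2.moH hm1
  have key : ∀ c : Tri W r, RfS S c c' → Gd S c → Adm E c N1 → Adm E c N2 → z1 ∈ HL c →
      z2 ∈ HL c → False := by
    intro c hR
    induction hR using Relation.ReflTransGen.head_induction_on with
    | refl =>
      intro hc h1 h2 _ _
      rw [adm_eq_mo hc h1 hm1', adm_eq_mo hc h2 hm1'] at hlt1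
      exact lt_irrefl _ hlt1
    | head hst hR ih =>
      intro hc h1 h2 hz1 hz2
      rename_i b b'
      have hge1 : ‖b.y‖ ≤ N1 b.y := h1.ge _ (HO_le_HL (y_mem_HO hc))
      have hge2 : ‖b.y‖ ≤ N2 b.y := h2.ge _ (HO_le_HL (y_mem_HO hc))
      rcases le_total (N2 b.y) (N1 b.y) with hle | hle
      · rcases lt_or_eq_of_le hge1 with hlt | heq
        · exact absurd (adm_le hr hA hc h1 h2 hlt hle z2 hz2) (not_le.2 hlt2)
        · have heq2 : N2 b.y = ‖b.y‖ := le_antisymm (hle.trans heq.ge) hge2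
          have hst' := hst
          obtain ⟨F, e, β, w, g, G, T, hs⟩ := hst'
          exact ih hst.gd' (adm_stage hr hA hs h1 heq.symm) (adm_stage hr hA hs h2 heq2)
            (RfS.HL_le hc (Relation.ReflTransGen.single hst) hz1)
            (RfS.HL_le hc (Relation.ReflTransGen.single hst) hz2)
      · rcases lt_or_eq_of_le hge2 with hlt | heq
        · exact absurd (adm_le hr hA hc h2 h1 hlt hle z1 hz1) (not_le.2 hlt1)
        · have heq1 : N1 b.y = ‖b.y‖ := le_antisymm (hle.trans heq.ge) hge1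
          have hst' := hst
          obtain ⟨F, e, β, w, g, G, T, hs⟩ := hst'
          exact ih hst.gd' (adm_stage hr hA hs h1 heq1) (adm_stage hr hA hs h2 heq.symm)
            (RfS.HL_le hc (Relation.ReflTransGen.single hst) hz1)
            (RfS.HL_le hc (Relation.ReflTransGen.single hst) hz2)
  exact key c hR hc h1 h2 hz1 hz2

end Pool.Agent.Lib.MX
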