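import Pool.Agent.Lib.MX.LdBas

/-!
# Module StHO: the rings `HO` along stages (paper 3.1)

For a stage: `x_i = x'^(T(e_i, 0)).1 w^(..)` and `y = x'^(..) w^(..)` by `St.hm` (`mon_single`), `w` is a
unit of `HO c'` (`w ∈ c'.B`), so `x_i, y ∈ MoH c'`; `‖y‖ < 1`, so `y ∈ QH c'` (`MoH.mem_QH`).
`HO c ≤ HO c'`: `c.B ≤ c'.B`; if `Mt c.x x1` then `x1 i` is a monomial in `c.x` of norm `< 1`, so it is in
`MoH c'` and in `HO c'`; `Bx_le`.
`Gn c' z ≤ Gn c z` for `z ∈ HL c`: `z = x^a h`, `h ∈ HO c ⊆ HO c'`, `‖x^a‖ = Gn c z` (`Gn_le_iff`),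
`x^a ∈ MoH c'`.  Then induction on the chain of stages.
-/

namespace Pool.Agent.Lib.MX

open Pool.Agent.Lib.MP_3029eb_ag Pool.Agent.Lib.MP_3029eb_ag.Abh Pool.Agent.Lib.TDO
open Pool.Agent.Lib.TU (Mt exists_Mt)

variable {E W : Type} [Field E] [NormedField W] [IsUltrametricDist W] [Algebra E W] {r p : ℕ}
  {S : IntermediateField E W} {c c' c'' : Tri W r}

theorem StR.gd (h : StR S c c') : Gd S c := by
  obtain ⟨F, e, β, w, g, G, T, h⟩ := h
  exact h.gd

theorem StR.gd' (h : StR S c c') : Gd S c' := by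
  obtain ⟨F, e, β, w, g, G, T, h⟩ := h
  exact h.gd'

section
variable {F : Subfield (RW W)} {e : ℕ} {β : Fin r → ℤ} {w : W} {g : Polynomial F}
  {G : Polynomial W} {T : ((Fin r → ℤ) × ℤ) ≃+ ((Fin r → ℤ) × ℤ)}

theorem St.stR (h : St S c c' F e β w g G T) : StR S c c' := ⟨F, e, β, w, g, G, T, h⟩

theorem St.B_le (h : St S c c' F e β w g G T) : c.B ≤ c'.B := by
  rw [h.hB]
  intro z hz
  exact subset_locV_closure (Or.inl hz)

theorem St.w_mem (h : St S c c' F e β w g G T) : w ∈ c'.B := by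
  rw [h.hB]
  exact subset_locV_closure (Or.inr (Or.inr rfl))

theorem St.w_mem_HO (h : St S c c' F e β w g G T) : w ∈ HO c' := B_mem_HO h.gd' h.w_mem

theorem St.w_zpow (h : St S c c' F e β w g G T) (n : ℤ) : w ^ n ∈ HO c' ∧ ‖w ^ n‖ = 1 := by
  refine ⟨?_, by rw [norm_zpow, h.w1, one_zpow]⟩
  cases n with
  | ofNat n =>
    rw [Int.ofNat_eq_natCast, zpow_natCast]
    exact pow_mem h.w_mem_HO n
  | negSucc n =>
    rw [zpow_negSucc]
    exact inv_mem_HO h.gd' (pow_mem h.w_mem_HO _) (by rw [norm_pow, h.w1, one_pow])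

/-- Every monomial in `x, y` is monomial for `c'`. -/
theorem St.mon_moH (h : St S c c' F e β w g G T) (a : Fin r → ℤ) (j : ℤ) :
    MoH c' (mon c.x a * c.y ^ j) :=
  ⟨(T (a, j)).1, w ^ (T (a, j)).2, (h.w_zpow _).1, (h.w_zpow _).2, h.hm a j⟩

end

theorem StR.mon_moH (h : StR S c c') (a : Fin r → ℤ) (j : ℤ) : MoH c' (mon c.x a * c.y ^ j) := by
  obtain ⟨F, e, β, w, g, G, T, h⟩ := h
  exact h.mon_moH a j

theorem StR.x_moH (h : StR S c c') (i : Fin r) : MoH c' (c.x i) := by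
  have h1 := h.mon_moH (Pi.single i 1) 0
  rwa [mon_single, zpow_zero, mul_one] at h1

theorem StR.y_moH (h : StR S c c') : MoH c' c.y := by
  have h1 := h.mon_moH 0 1
  rwa [mon_zero, zpow_one, one_mul] at h1

theorem StR.B_le (h : StR S c c') : c.B ≤ c'.B := by
  obtain ⟨F, e, β, w, g, G, T, h⟩ := h
  exact h.B_le

theorem StR.HO_le (h : StR S c c') {z : W} (hz : z ∈ HO c) : z ∈ HO c' := by
  obtain ⟨x1, h1, hz1⟩ := (mem_HO_iff h.gd z).1 hz
  refine Bx_le (HO c') (fun w hw => B_mem_HO h.gd' (h.B_le hw)) (fun i => ?_)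
    (fun w hw hw1 => inv_mem_HO h.gd' hw hw1) hz1
  obtain ⟨A, B, -, hB, -⟩ := h1.mat
  have h2 := h.mon_moH (B i) 0
  rw [zpow_zero, mul_one, ← hB i] at h2
  exact h2.mem_HO h.gd' (h1.ind.lt i).le

theorem RfS.gd (hc : Gd S c) (h : RfS S c c') : Gd S c' := by
  induction h with
  | refl => exact hc
  | tail _ h _ => exact h.gd'

theorem RfS.B_le (h : RfS S c c') : c.B ≤ c'.B := by
  induction h with
  | refl => exact le_rfl
  | tail _ h ih => exact ih.trans h.B_le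

theorem RfS.HO_le (h : RfS S c c') {z : W} (hz : z ∈ HO c) : z ∈ HO c' := by
  induction h with
  | refl => exact hz
  | tail _ h ih => exact h.HO_le ih

theorem MoH.mono (hc' : Gd S c') (hH : ∀ z ∈ HO c, z ∈ HO c')
    (hx : ∀ i, MoH c' (c.x i)) {z : W} (hz : MoH c z) : MoH c' z := by
  obtain ⟨a, u, hu, hu1, rfl⟩ := hz
  refine MoH.mul hc' ?_ (MoH.of_unit (hH _ hu) hu1)
  have key : ∀ i, ∀ n : ℤ, MoH c' (c.x i ^ n) := by
    intro i n
    have hp : ∀ k : ℕ, MoH c' (c.x i ^ k) := by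
      intro k
      induction k with
      | zero =>
        rw [pow_zero]
        exact MoH.of_unit (one_mem _) norm_one
      | succ k ih =>
        rw [pow_succ]
        exact MoH.mul hc' ih (hx i)
    cases n with
    | ofNat n =>
      rw [Int.ofNat_eq_natCast, zpow_natCast]
      exact hp n
    | negSucc n =>
      rw [zpow_negSucc]
      exact MoH.inv hc' (hp _)
  unfold mon
  refine Finset.prod_induction _ (fun z => MoH c' z) (fun a b ha hb => MoH.mul hc' ha hb)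
    (MoH.of_unit (one_mem _) norm_one) fun i _ => key i _

theorem StR.moH (h : StR S c c') {z : W} (hz : MoH c z) : MoH c' z :=
  MoH.mono h.gd' (fun _ hw => h.HO_le hw) h.x_moH hz

theorem RfS.moH (h : RfS S c c') {z : W} (hz : MoH c z) : MoH c' z := by
  induction h with
  | refl => exact hz
  | tail _ h ih => exact h.moH ih

theorem RfS.x_moH (hc : Gd S c) (h : RfS S c c') (i : Fin r) : MoH c' (c.x i) := by
  refine h.moH ?_
  have h1 := MoH.of_mon hc (Pi.single i 1)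
  rwa [mon_single] at h1

theorem RfS.mon_moH (hc : Gd S c) (h : RfS S c c') (a : Fin r → ℤ) : MoH c' (mon c.x a) :=
  h.moH (MoH.of_mon hc a)

theorem RfS.HL_le (hc : Gd S c) (h : RfS S c c') {z : W} (hz : z ∈ HL c) : z ∈ HL c' := by
  obtain ⟨a, u, hu, rfl⟩ := (mem_HL_iff hc z).1 hz
  exact mul_mem ((h.mon_moH hc a).mem_HL (h.gd hc)) (HO_le_HL (h.HO_le hu))

theorem RfS.QH_le (hc : Gd S c) (h : RfS S c c') {z : W} (hz : z ∈ QH c) : z ∈ QH c' := by
  obtain ⟨a, ha, u, hu, rfl⟩ := hz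
  exact QH_mul (h.gd hc) ((h.mon_moH hc a).mem_QH (h.gd hc) ha) (h.HO_le hu)

theorem RfS.Gn_le (hr : 0 < r) (hA : AmbX p r S) (hc : Gd S c) (h : RfS S c c') {z : W}
    (hz : z ∈ HL c) : Gn c' z ≤ Gn c z := by
  have hc' := h.gd hc
  by_cases h0 : z = 0
  · rw [h0, Gn_zero hr hA hc, Gn_zero hr hA hc']
  obtain ⟨a, d, hl⟩ := exists_Ld hr hA hc hz h0
  rw [Gn_eq hr hA hc hl]
  obtain ⟨u, hu, h1⟩ := (Gn_le_iff hr hA hc hz a).1 (Gn_eq hr hA hc hl).le
  obtain ⟨b, v, hv, hv1, h2⟩ := h.mon_moH hc a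
  have h3 : ‖mon c.x a‖ = ‖mon c'.x b‖ := by rw [h2, norm_mul, hv1, mul_one]
  rw [h3]
  refine (Gn_le_iff hr hA hc' (h.HL_le hc hz) b).2 ⟨v * u, mul_mem hv (h.HO_le hu), ?_⟩
  rw [h1, h2]
  ring

theorem RfS.y_moH (h : StR S c c') (h' : RfS S c' c'') : MoH c'' c.y := h'.moH h.y_moH

theorem RfS.lt_one (hr : 0 < r) (h : StR S c c') (h' : RfS S c' c'') {z : W}
    (hz : z ∈ HO c) (h1 : ‖z‖ < 1) : z ∈ QH c'' := by
  have hc := h.gd
  have hc'' := h'.gd h.gd'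
  obtain ⟨q, hq, b, hb, rfl⟩ := HO_gen hr hc hz h1
  have h2 : RfS S c c'' := Relation.ReflTransGen.head h h'
  refine QH_add hc'' (h2.QH_le hc hq) ?_
  rw [mul_comm]
  exact QH_mul hc'' ((RfS.y_moH h h').mem_QH hc'' hc.y1) (h2.HO_le hb)

/-- The field of fractions of `B`. -/
theorem mem_Fr_iff (hc : Gd S c) (z : W) :
    z ∈ Fr E c ↔ ∃ a ∈ c.B, ∃ b ∈ c.B, b ≠ 0 ∧ z * b = a := by
  constructor
  · intro hz
    unfold Fr at hz
    induction hz using IntermediateField.adjoin_induction with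
    | mem w hw => exact ⟨w, hw, 1, one_mem _, one_ne_zero, mul_one _⟩
    | algebraMap e =>
      rcases le_total ‖algebraMap E W e‖ 1 with h1 | h1
      · exact ⟨algebraMap E W e, hc.lam_le ⟨⟨e, rfl⟩, h1⟩, 1, one_mem _, one_ne_zero, mul_one _⟩
      · have h0 : algebraMap E W e ≠ 0 := by
          intro h0
          rw [h0, norm_zero] at h1
          exact absurd h1 (not_le.2 zero_lt_one)
        have h2 : (algebraMap E W e)⁻¹ ∈ Lam E W := by
          refine ⟨⟨e⁻¹, map_inv₀ _ _⟩, ?_⟩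
          show ‖(algebraMap E W e)⁻¹‖ ≤ 1
          rw [norm_inv]
          exact inv_le_one_of_one_le₀ h1
        exact ⟨1, one_mem _, (algebraMap E W e)⁻¹, hc.lam_le h2, inv_ne_zero h0,
          mul_inv_cancel₀ h0⟩
    | add x y _ _ hx hy =>
      obtain ⟨a, ha, b, hb, hb0, h1⟩ := hx
      obtain ⟨a', ha', b', hb', hb0', h1'⟩ := hy
      exact ⟨a * b' + a' * b, add_mem (mul_mem ha hb') (mul_mem ha' hb), b * b', mul_mem hb hb',
        mul_ne_zero hb0 hb0', by rw [← h1, ← h1']; ring⟩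
    | inv x _ hx =>
      obtain ⟨a, ha, b, hb, hb0, h1⟩ := hx
      by_cases ha0 : a = 0
      · have hx0 : x = 0 := by
          rw [ha0] at h1
          exact (mul_eq_zero.1 h1).resolve_right hb0
        exact ⟨0, zero_mem _, 1, one_mem _, one_ne_zero, by rw [hx0, inv_zero, zero_mul]⟩
      · have hx0 : x ≠ 0 := by
          rintro rfl
          exact ha0 (by rw [← h1, zero_mul])
        exact ⟨b, hb, a, ha, ha0, by rw [← h1, inv_mul_cancel_left₀ hx0]⟩
    | mul x y _ _ hx hy =>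
      obtain ⟨a, ha, b, hb, hb0, h1⟩ := hx
      obtain ⟨a', ha', b', hb', hb0', h1'⟩ := hy
      exact ⟨a * a', mul_mem ha ha', b * b', mul_mem hb hb', mul_ne_zero hb0 hb0',
        by rw [← h1, ← h1']; ring⟩
  · rintro ⟨a, ha, b, hb, hb0, h⟩
    have h1 : z = a * b⁻¹ := by rw [← h, mul_inv_cancel_right₀ hb0]
    rw [h1]
    exact mul_mem (IntermediateField.subset_adjoin _ _ ha)
      (inv_mem (IntermediateField.subset_adjoin _ _ hb))

theorem B_le_Fr {z : W} (hz : z ∈ c.B) : z ∈ Fr E c :=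
  IntermediateField.subset_adjoin _ _ hz

theorem mon_mem_Fr (hc : Gd S c) (a : Fin r → ℤ) : mon c.x a ∈ Fr E c := by
  unfold mon
  exact prod_mem fun i _ => zpow_mem (B_le_Fr (hc.xB i)) _

theorem HO_mem_Fr (hc : Gd S c) {z : W} (hz : z ∈ HO c) : z ∈ Fr E c := by
  obtain ⟨x1, h1, hz1⟩ := (mem_HO_iff hc z).1 hz
  have h3 : z ∈ (Fr E c).toSubring := by
    refine Bx_le (Fr E c).toSubring (fun w hw => B_le_Fr hw) (fun i => ?_) (fun w hw _ => ?_) hz1
    · obtain ⟨A, B, -, hB, -⟩ := h1.mat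
      rw [hB i]
      exact mon_mem_Fr hc _
    · exact inv_mem (S := IntermediateField E W) hw
  exact h3

theorem HL_mem_Fr (hc : Gd S c) {z : W} (hz : z ∈ HL c) : z ∈ Fr E c := by
  obtain ⟨a, u, hu, rfl⟩ := (mem_HL_iff hc z).1 hz
  exact mul_mem (mon_mem_Fr hc a) (HO_mem_Fr hc hu)

/-- A stage does not change the field of fractions. -/
theorem StR.fr (h : StR S c c') : Fr E c' = Fr E c := by
  have hgd := h.gd
  have hxL : MoH c' = MoH c' := rfl
  obtain ⟨F, e, β, w, g, G, T, h⟩ := h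
  have hw : w ∈ Fr E c := by
    have h1 : w = c.y ^ e * (mon c.x β)⁻¹ := by
      rw [h.hw]
      field_simp [mon_ne c.x h.gd.ind.ne β]
    rw [h1]
    exact mul_mem (pow_mem (B_le_Fr h.gd.yB) _) (inv_mem (mon_mem_Fr hgd β))
  have hx' : ∀ i, c'.x i ∈ Fr E c := by
    intro i
    have h1 := h.hm (T.symm (Pi.single i 1, 0)).1 (T.symm (Pi.single i 1, 0)).2
    rw [Prod.mk.eta, T.apply_symm_apply, zpow_zero, mul_one, mon_single] at h1
    rw [← h1]
    exact mul_mem (mon_mem_Fr hgd _) (zpow_mem (B_le_Fr h.gd.yB) _)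
  apply le_antisymm
  · unfold Fr
    rw [IntermediateField.adjoin_le_iff]
    intro z hz
    have hz' : z ∈ (Fr E c).toSubring := by
      rw [SetLike.mem_coe, h.hB] at hz
      refine locV_closure_le (Fr E c).toSubring ?_ (fun w hw _ => ?_) hz
      · rintro v (hv | ⟨i, rfl⟩ | hv)
        · exact B_le_Fr hv
        · exact hx' i
        · rw [Set.mem_singleton_iff.1 hv]
          exact hw
      · exact inv_mem (S := IntermediateField E W) hw
    exact hz'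
  · exact IntermediateField.adjoin.mono _ _ _ h.B_le

theorem RfS.fr (h : RfS S c c') : Fr E c' = Fr E c := by
  induction h with
  | refl => rfl
  | tail _ h ih => rw [h.fr, ih]

/-- The ring of fractions with monomial denominators. -/
private def FrD (c c' : Tri W r) (hc' : Gd S c') : Subring W where
  carrier := {z | ∃ n ∈ HO c, ∃ d ∈ HO c, MoH c' d ∧ z * d = n}
  mul_mem' := by
    rintro z w ⟨n, hn, d, hd, hd', h⟩ ⟨n', hn', d', hd1, hd1', h'⟩
    exact ⟨n * n', mul_mem hn hn', d * d', mul_mem hd hd1, MoH.mul hc' hd' hd1',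
      by rw [← h, ← h']; ring⟩
  one_mem' := ⟨1, one_mem _, 1, one_mem _, MoH.of_unit (one_mem _) norm_one, one_mul _⟩
  add_mem' := by
    rintro z w ⟨n, hn, d, hd, hd', h⟩ ⟨n', hn', d', hd1, hd1', h'⟩
    exact ⟨n * d' + n' * d, add_mem (mul_mem hn hd1) (mul_mem hn' hd), d * d', mul_mem hd hd1,
      MoH.mul hc' hd' hd1', by rw [← h, ← h']; ring⟩
  zero_mem' := ⟨0, zero_mem _, 1, one_mem _, MoH.of_unit (one_mem _) norm_one, zero_mul _⟩
  neg_mem' := by
    rintro z ⟨n, hn, d, hd, hd', h⟩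
    exact ⟨-n, neg_mem hn, d, hd, hd', by rw [← h]; ring⟩

private theorem frD_inv {c c' : Tri W r} {hc' : Gd S c'} {z : W} (hz : z ∈ FrD c c' hc')
    (h1 : MoH c' z) : z⁻¹ ∈ FrD c c' hc' := by
  obtain ⟨n, hn, d, hd, hd', h⟩ := hz
  have hz0 := h1.ne hc'
  exact ⟨d, hd, n, hn, by rw [← h]; exact MoH.mul hc' h1 hd', by rw [← h, inv_mul_cancel_left₀ hz0]⟩

theorem StR.frac (h : StR S c c') {z : W} (hz : z ∈ HL c') :
    ∃ n ∈ HO c, ∃ d ∈ HO c, MoH c' d ∧ z * d = n := by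
  classical
  have hc := h.gd
  have hc' := h.gd'
  have hH : ∀ z ∈ HO c, z ∈ FrD c c' hc' := fun z hz =>
    ⟨z, hz, 1, one_mem _, MoH.of_unit (one_mem _) norm_one, mul_one _⟩
  -- monomials
  have hx : ∀ i, c.x i ∈ FrD c c' hc' ∧ (c.x i)⁻¹ ∈ FrD c c' hc' := fun i =>
    ⟨hH _ (x_mem_HO hc i), frD_inv (hH _ (x_mem_HO hc i)) (h.x_moH i)⟩
  have hy : c.y ∈ FrD c c' hc' ∧ (c.y)⁻¹ ∈ FrD c c' hc' :=
    ⟨hH _ (y_mem_HO hc), frD_inv (hH _ (y_mem_HO hc)) h.y_moH⟩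
  have hzp : ∀ (u : W), u ∈ FrD c c' hc' → u⁻¹ ∈ FrD c c' hc' → ∀ n : ℤ, u ^ n ∈ FrD c c' hc' := by
    intro u h1 h2 n
    cases n with
    | ofNat n =>
      rw [Int.ofNat_eq_natCast, zpow_natCast]
      exact pow_mem h1 n
    | negSucc n =>
      rw [zpow_negSucc, ← inv_pow]
      exact pow_mem h2 _
  have hmon : ∀ (a : Fin r → ℤ) (j : ℤ), mon c.x a * c.y ^ j ∈ FrD c c' hc' := by
    intro a j
    refine mul_mem ?_ (hzp _ hy.1 hy.2 j)
    unfold mon
    exact prod_mem fun i _ => hzp _ (hx i).1 (hx i).2 _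
  obtain ⟨F, e, β, w, g, G, T, h⟩ := h
  have hw : w ∈ FrD c c' hc' := by
    have h1 : w = mon c.x (-β) * c.y ^ (e : ℤ) := by
      rw [zpow_natCast, h.hw, mon_neg]
      field_simp [mon_ne c.x hc.ind.ne β]
    rw [h1]
    exact hmon _ _
  have hx' : ∀ a : Fin r → ℤ, mon c'.x a ∈ FrD c c' hc' := by
    intro a
    have h1 := h.hm (T.symm (a, 0)).1 (T.symm (a, 0)).2
    rw [Prod.mk.eta, T.apply_symm_apply, zpow_zero, mul_one] at h1
    rw [← h1]
    exact hmon _ _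
  have hB : ∀ z ∈ c'.B, z ∈ FrD c c' hc' := by
    intro z hz
    have hz' : z ∈ FrD c c' hc' ⊓ HO c' := by
      rw [h.hB] at hz
      refine locV_closure_le (FrD c c' hc' ⊓ HO c') ?_ (fun v hv hv1 => ?_) hz
      · rintro v (hv | ⟨i, rfl⟩ | hv)
        · exact ⟨hH _ (B_mem_HO hc hv), B_mem_HO hc' (h.B_le hv)⟩
        · refine ⟨?_, x_mem_HO hc' i⟩
          have h1 := hx' (Pi.single i 1)
          rwa [mon_single] at h1
        · rw [Set.mem_singleton_iff.1 hv]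
          exact ⟨hw, h.w_mem_HO⟩
      · exact ⟨frD_inv hv.1 (MoH.of_unit hv.2 hv1), inv_mem_HO hc' hv.2 hv1⟩
    exact hz'.1
  have hHO : ∀ z ∈ HO c', z ∈ FrD c c' hc' := by
    intro z hz
    obtain ⟨x1, h1, hz1⟩ := (mem_HO_iff hc' z).1 hz
    have hz' : z ∈ FrD c c' hc' ⊓ HO c' := by
      refine Bx_le (FrD c c' hc' ⊓ HO c') (fun v hv => ⟨hB v hv, B_mem_HO hc' hv⟩) (fun i => ?_)
        (fun v hv hv1 => ⟨frD_inv hv.1 (MoH.of_unit hv.2 hv1), inv_mem_HO hc' hv.2 hv1⟩) hz1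
      obtain ⟨A, B, -, hB', -⟩ := h1.mat
      refine ⟨?_, Bx_mem_HO hc' h1 (x_mem_Bx i)⟩
      rw [hB' i]
      exact hx' _
    exact hz'.1
  obtain ⟨a, u, hu, rfl⟩ := (mem_HL_iff hc' z).1 hz
  exact mul_mem (hx' a) (hHO u hu)

/-- Fractions along refinements: every element of `HL c'` is `n / d` with `n, d ∈ HO c` and `d`
monomial for `c'`. -/
theorem RfS.frac (hc : Gd S c) (h : RfS S c c') {z : W} (hz : z ∈ HL c') :
    ∃ n ∈ HO c, ∃ d ∈ HO c, MoH c' d ∧ z * d = n := by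
  induction h generalizing z with
  | refl =>
    obtain ⟨a, u, hu, rfl⟩ := (mem_HL_iff hc z).1 hz
    rcases le_total ‖mon c.x a‖ 1 with h1 | h1
    · exact ⟨mon c.x a * u, mul_mem (mon_mem_HO hc h1) hu, 1, one_mem _,
        MoH.of_unit (one_mem _) norm_one, mul_one _⟩
    · have h2 : ‖mon c.x (-a)‖ ≤ 1 := by
        rw [mon_neg, norm_inv]
        exact inv_le_one_of_one_le₀ h1
      refine ⟨u, hu, mon c.x (-a), mon_mem_HO hc h2, MoH.of_mon hc _, ?_⟩
      rw [mon_neg]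
      field_simp [mon_ne c.x hc.ind.ne a]
  | @tail c1 c2 h1 h2 ih =>
    obtain ⟨n, hn, d, hd, hd', h3⟩ := h2.frac hz
    obtain ⟨n1, hn1, n2, hn2, hn2', h4⟩ := ih (HO_le_HL hn)
    obtain ⟨d1, hd1, d2, hd2, hd2', h5⟩ := ih (HO_le_HL hd)
    refine ⟨n1 * d2, mul_mem hn1 hd2, n2 * d1, mul_mem hn2 hd1,
      MoH.mul h2.gd' (h2.moH hn2') ?_, ?_⟩
    · rw [← h5]
      exact MoH.mul h2.gd' hd' (h2.moH hd2')
    · rw [← h4, ← h5, ← h3]
      ring

theorem Ch.of_rfS {L : IntermediateField E W} (hc : Ch S L c) (h : RfS S c c') : Ch S L c' := by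
  refine ⟨h.gd hc.gd, ?_, ?_⟩
  · rw [h.fr]; exact hc.le
  · rw [h.fr]; exact hc.dense

end Pool.Agent.Lib.MX
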