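import Pool.Agent.Lib.MX.Adm
import Pool.Agent.Lib.MX.StHO

set_option autoImplicit false

/-!
# Module MX.AdmSt: admissible norms pass to the next stage (paper 4.2)

Facts on a stage `c → c'` (`hst`): `w = y^e / x^β`; `c'.x i` is a Laurent monomial in `c.x, c.y`: apply `hm` to
`(a, j) := T.symm (Pi.single i 1, 0)`.  So `N w = ‖w‖ = 1`, `N (mon c'.x a) = ‖mon c'.x a‖` (both are monomials in
`c.x, c.y`, `N (c.y) = ‖c.y‖`, `Adm.mon`, `FN.zpow`; all are in `Fr E c`).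
`R1 := {z | ∃ h ∈ HL c, ∃ j : ℕ, z * c.y ^ j = h}` is a subring of `Fr E c` with `‖z‖ ≤ N z` (`Adm.ge` for `h`); it contains `c.B`,
`w`, all `mon c'.x a`.  `K1 := {z ∈ R1 | N z ≤ 1}` is a subring (ultrametric) containing `c.B`, `w`, and `x'' i` for
every basis change `Mt c'.x x''` (`‖x'' i‖ < 1`, a monomial in `c'.x`: `Mt.mon_eq'`).
Let `z ∈ Bx c'.B x''`: as `c'.B = locV (closure (c.B ∪ (range c'.x ∪ {w})))` (`hst.hB`), by `locV_closure_locV` (or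
directly) `z * d = n` with `n, d ∈ closure (c.B ∪ range c'.x ∪ {w} ∪ range x'') ⊆ K1`, `‖d‖ = 1`: `N d ≤ 1` and `N d ≥ ‖d‖ = 1`, so
`N z = N n ≤ 1`, `‖z‖ = ‖n‖ ≤ N n = N z`.  Every element of `HO c'` is in some `Bx c'.B x''` (`mem_HO_iff`), so `le1`; elements of
`HL c'` are `mon c'.x a * h`, `h ∈ HO c'`: `ge`.  `Fr E c' = Fr E c`: `c.B ≤ c'.B` and `c'.B` consists of quotients of polynomials in
elements of `c.B`, `w`, `c'.x i`, all in `Fr E c` (`fr_stage`).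
-/

namespace Pool.Agent.Lib.MX

open Pool.Agent.Lib.MP_3029eb_ag Pool.Agent.Lib.MP_3029eb_ag.Abh Pool.Agent.Lib.TDO
open Pool.Agent.Lib.TU (Mt)

variable {E W : Type} [Field E] [NormedField W] [IsUltrametricDist W] [Algebra E W] {p r : ℕ}
  {S : IntermediateField E W}

theorem fr_stage {c c' : Tri W r} {F : Subfield (RW W)} {e : ℕ} {β : Fin r → ℤ} {w : W}
    {g : Polynomial F} {G : Polynomial W} {T : ((Fin r → ℤ) × ℤ) ≃+ ((Fin r → ℤ) × ℤ)}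
    (hst : St S c c' F e β w g G T) : Fr E c' = Fr E c :=
  hst.stR.fr

private theorem AdmSt_y0 {c c' : Tri W r} {F : Subfield (RW W)} {e : ℕ}
    {β : Fin r → ℤ} {w : W} {g : Polynomial F} {G : Polynomial W}
    {T : ((Fin r → ℤ) × ℤ) ≃+ ((Fin r → ℤ) × ℤ)} (hst : St S c c' F e β w g G T) : c.y ≠ 0 := by
  intro h0
  have h1 := hst.hw
  rw [h0, zero_pow (by have := hst.e1; omega)] at h1
  have h2 : mon c.x β ≠ 0 := mon_ne c.x hst.gd.ind.ne β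
  have h3 : w ≠ 0 := norm_pos_iff.1 (by rw [hst.w1]; exact one_pos)
  exact mul_ne_zero h2 h3 h1.symm

/-- The ring `K1`. -/
private def AdmSt_K1 (c : Tri W r) (N : W → ℝ) (hfn : FN (Fr E c) N) (hy : c.y ∈ HL c) :
    Subring W where
  carrier := {z | z ∈ Fr E c ∧ N z ≤ 1 ∧ ∃ j : ℕ, z * c.y ^ j ∈ HL c}
  one_mem' := ⟨one_mem _, hfn.one.le, 0, by rw [pow_zero, mul_one]; exact one_mem _⟩
  zero_mem' := ⟨zero_mem _, by rw [hfn.zero]; exact zero_le_one, 0, by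
    rw [zero_mul]; exact zero_mem _⟩
  neg_mem' := by
    rintro z ⟨h1, h2, j, hj⟩
    exact ⟨neg_mem h1, by rw [hfn.neg h1]; exact h2, j, by rw [neg_mul]; exact neg_mem hj⟩
  mul_mem' := by
    rintro z z' ⟨h1, h2, j, hj⟩ ⟨h1', h2', j', hj'⟩
    refine ⟨mul_mem h1 h1', ?_, j + j', ?_⟩
    · rw [hfn.mul _ h1 _ h1']
      exact mul_le_one₀ h2 (hfn.nonneg h1') h2'
    · have h3 : z * z' * c.y ^ (j + j') = (z * c.y ^ j) * (z' * c.y ^ j') := by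
        rw [pow_add]; ring
      rw [h3]
      exact mul_mem hj hj'
  add_mem' := by
    rintro z z' ⟨h1, h2, j, hj⟩ ⟨h1', h2', j', hj'⟩
    refine ⟨add_mem h1 h1', (hfn.add _ h1 _ h1').trans (max_le h2 h2'), j + j', ?_⟩
    have h3 : (z + z') * c.y ^ (j + j') =
        (z * c.y ^ j) * c.y ^ j' + (z' * c.y ^ j') * c.y ^ j := by
      rw [pow_add]; ring
    rw [h3]
    exact add_mem (mul_mem hj (pow_mem hy _)) (mul_mem hj' (pow_mem hy _))

theorem adm_stage (hr : 0 < r) (hA : AmbX p r S) {c c' : Tri W r} {F : Subfield (RW W)} {e : ℕ}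
    {β : Fin r → ℤ} {w : W} {g : Polynomial F} {G : Polynomial W}
    {T : ((Fin r → ℤ) × ℤ) ≃+ ((Fin r → ℤ) × ℤ)} (hst : St S c c' F e β w g G T) {N : W → ℝ}
    (hN : Adm E c N) (hy : N c.y = ‖c.y‖) : Adm E c' N := by
  have hc := hst.gd
  have hc' := hst.gd'
  have hfn := hN.fn
  have hy0 := AdmSt_y0 hst
  have hyF : c.y ∈ Fr E c := B_le_Fr hc.yB
  have hyL : c.y ∈ HL c := HO_le_HL (y_mem_HO hc)
  have hfr := fr_stage hst
  -- monomials in `x, y`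
  have hmF : ∀ (a : Fin r → ℤ) (j : ℤ), mon c.x a * c.y ^ j ∈ Fr E c := fun a j =>
    mul_mem (mon_mem_Fr hc a) (zpow_mem hyF j)
  have hmN : ∀ (a : Fin r → ℤ) (j : ℤ), N (mon c.x a * c.y ^ j) = ‖mon c.x a * c.y ^ j‖ := by
    intro a j
    rw [hfn.mul _ (mon_mem_Fr hc a) _ (zpow_mem hyF j), hfn.zpow hyF, hN.mon, hy, norm_mul,
      norm_zpow]
  have hmL : ∀ (a : Fin r → ℤ) (j : ℤ), ∃ k : ℕ, mon c.x a * c.y ^ j * c.y ^ k ∈ HL c := by
    intro a j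
    refine ⟨j.natAbs, ?_⟩
    have h1 : ∃ l : ℕ, j + (j.natAbs : ℤ) = l := ⟨(j + (j.natAbs : ℤ)).toNat, by omega⟩
    obtain ⟨l, hl⟩ := h1
    have h2 : mon c.x a * c.y ^ j * c.y ^ j.natAbs = mon c.x a * c.y ^ l := by
      rw [mul_assoc, ← zpow_natCast c.y j.natAbs, ← zpow_add₀ hy0, hl, zpow_natCast]
    rw [h2]
    exact mul_mem (mon_mem_HL a) (pow_mem hyL l)
  have hw1 : mon c.x (-β) * c.y ^ (e : ℤ) = w := by
    have h1 := hst.hm (-β) (e : ℤ)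
    rw [hst.hT] at h1
    simpa [mon_zero] using h1
  have hx1 : ∀ a : Fin r → ℤ, ∃ (a₀ : Fin r → ℤ) (j : ℤ), mon c'.x a = mon c.x a₀ * c.y ^ j := by
    intro a
    refine ⟨(T.symm (a, 0)).1, (T.symm (a, 0)).2, ?_⟩
    have h1 := hst.hm (T.symm (a, 0)).1 (T.symm (a, 0)).2
    rw [Prod.mk.eta, AddEquiv.apply_symm_apply] at h1
    simpa using h1.symm
  have hmon' : ∀ a : Fin r → ℤ, N (mon c'.x a) = ‖mon c'.x a‖ := by
    intro a
    obtain ⟨a₀, j, h⟩ := hx1 a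
    rw [h, hmN]
  have hmF' : ∀ a : Fin r → ℤ, mon c'.x a ∈ Fr E c := by
    intro a
    obtain ⟨a₀, j, h⟩ := hx1 a
    rw [h]
    exact hmF _ _
  set K1 : Subring W := AdmSt_K1 c N hfn hyL with hK1
  have hK1mem : ∀ z : W, z ∈ K1 ↔ z ∈ Fr E c ∧ N z ≤ 1 ∧ ∃ j : ℕ, z * c.y ^ j ∈ HL c :=
    fun z => Iff.rfl
  have hge : ∀ z ∈ K1, ‖z‖ ≤ N z := by
    intro z hz
    obtain ⟨h1, h2, j, hj⟩ := (hK1mem z).1 hz
    have h3 := hN.ge _ hj
    rw [hfn.mul _ h1 _ (pow_mem hyF j), hfn.pow hyF, hy, norm_mul, norm_pow] at h3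
    have h4 : 0 < ‖c.y‖ ^ j := pow_pos (norm_pos_iff.2 hy0) j
    exact le_of_mul_le_mul_right h3 h4
  have hKB : ∀ z ∈ c.B, z ∈ K1 := by
    intro z hz
    refine (hK1mem z).2 ⟨B_le_Fr hz, hN.le1 z (B_mem_HO hc hz), 0, ?_⟩
    rw [pow_zero, mul_one]
    exact HO_le_HL (B_mem_HO hc hz)
  have hKw : w ∈ K1 := by
    refine (hK1mem w).2 ⟨?_, ?_, ?_⟩
    · rw [← hw1]; exact hmF _ _
    · rw [← hw1, hmN, hw1, hst.w1]
    · rw [← hw1]; exact hmL _ _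
  have hKm : ∀ a : Fin r → ℤ, ‖mon c'.x a‖ ≤ 1 → mon c'.x a ∈ K1 := by
    intro a ha
    refine (hK1mem _).2 ⟨hmF' a, by rw [hmon']; exact ha, ?_⟩
    obtain ⟨a₀, j, h⟩ := hx1 a
    rw [h]
    exact hmL _ _
  -- the localization
  have hKle : ∀ z ∈ locV (ball W) K1, z ∈ Fr E c ∧ N z ≤ 1 ∧ ‖z‖ ≤ N z := by
    rintro z ⟨a, ha, b, hb, hb1, hab⟩
    rw [ball_val_eq_one] at hb1
    obtain ⟨a1, a2, -⟩ := (hK1mem a).1 ha
    obtain ⟨b1, b2, -⟩ := (hK1mem b).1 hb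
    have hNb : N b = 1 := le_antisymm b2 (by rw [← hb1]; exact hge b hb)
    have hb0 : b ≠ 0 := norm_pos_iff.1 (by rw [hb1]; exact one_pos)
    have hzF : z ∈ Fr E c := by
      have h1 : z = a * b⁻¹ := by rw [← hab, mul_inv_cancel_right₀ hb0]
      rw [h1]
      exact mul_mem a1 (inv_mem b1)
    have hNz : N z = N a := by
      rw [← hab, hfn.mul _ hzF _ b1, hNb, mul_one]
    have hz1 : ‖z‖ = ‖a‖ := by rw [← hab, norm_mul, hb1, mul_one]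
    exact ⟨hzF, by rw [hNz]; exact a2, by rw [hNz, hz1]; exact hge a ha⟩
  have hK' : ∀ z ∈ c'.B, z ∈ locV (ball W) K1 := by
    intro z hz
    rw [hst.hB] at hz
    refine locV_closure_le (locV (ball W) K1) ?_ (fun z hz h1 => inv_mem_locV hz h1) hz
    rintro v (hv | ⟨i, rfl⟩ | hv)
    · exact le_locV _ _ (hKB v hv)
    · rw [← mon_single c'.x i]
      refine le_locV _ _ (hKm _ ?_)
      rw [mon_single]
      exact (hc'.ind.lt i).le
    · rw [Set.mem_singleton_iff.1 hv]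
      exact le_locV _ _ hKw
  have hHO : ∀ z ∈ HO c', z ∈ locV (ball W) K1 := by
    intro z hz
    obtain ⟨x1, h1, hz1⟩ := (mem_HO_iff hc' z).1 hz
    refine Bx_le _ hK' (fun i => ?_) (fun z hz h1 => inv_mem_locV hz h1) hz1
    obtain ⟨A, B, -, hB, -⟩ := h1.mat
    rw [hB i]
    refine le_locV _ _ (hKm _ ?_)
    rw [← hB i]
    exact (h1.ind.lt i).le
  refine ⟨?_, fun z hz => (hKle z (hHO z hz)).2.1, hmon', ?_⟩
  · rw [hfr]
    exact hfn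
  · intro z hz
    obtain ⟨a, u, hu, rfl⟩ := (mem_HL_iff hc' z).1 hz
    obtain ⟨u1, -, u3⟩ := hKle u (hHO u hu)
    rw [hfn.mul _ (hmF' a) _ u1, norm_mul, hmon']
    exact mul_le_mul_of_nonneg_left u3 (norm_nonneg _)

end Pool.Agent.Lib.MX
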