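import Pool.Agent.Lib.TU.Defs

/-!
# Embedded local uniformization in mixed characteristic, transcendence defect one: definitions

`W` is an algebraically closed ultrametric normed field of characteristic zero, `E ⊆ W` a complete
discretely valued field with uniformizer `p`, `S` the algebraic closure in `W` of a field of
transcendence degree `r` over `E`.  All fields are intermediate fields of `W / E`.  There is no
coefficient field: charts are good rings `B = locV (Λ[G])` with maximal ideal `(x, y) B`, where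
`Λ` is the ring of elements of `E` of norm at most one.
-/

namespace Pool.Agent.Lib.MX

open Pool.Agent.Lib.MP_3029eb_ag Pool.Agent.Lib.MP_3029eb_ag.Abh Pool.Agent.Lib.TDO
open Pool.Agent.Lib.TU (Mt)

section Residues

variable {W : Type} [NormedField W] [IsUltrametricDist W]

/-- The residue field of `W`. -/
abbrev RW (W : Type) [NormedField W] [IsUltrametricDist W] : Type :=
  IsLocalRing.ResidueField (ball W)

open Classical in
/-- The residue of an element of norm at most one. -/
noncomputable def rs (z : W) : RW W :=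
  if h : ‖z‖ ≤ 1 then IsLocalRing.residue (ball W) ⟨z, (mem_ball z).2 h⟩ else 0

/-- The field generated by the residues of the elements of `B`. -/
noncomputable def kap (B : Subring W) : Subfield (RW W) := Subfield.closure (rs '' (B : Set W))

/-- `τ` is a system of representatives in `B` of the field `F` of residues. -/
structure Sec (B : Subring W) (F : Subfield (RW W)) (τ : F → W) : Prop where
  mem : ∀ c, τ c ∈ B
  norm : ∀ c, ‖τ c‖ ≤ 1
  rs : ∀ c, rs (τ c) = (c : RW W)
  zero : τ 0 = 0

/-- Evaluation of a Laurent polynomial, the coefficients are represented by `τ`. -/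
noncomputable def evS {F : Subfield (RW W)} (τ : F → W) {r : ℕ} (x : Fin r → W) (y : W)
    (P : LP F r) : W :=
  P.coeff.sum fun m c => τ c * (mon x m.1 * y ^ m.2)

end Residues

/-- Triples: a ring `B`, elements `x i` (the monomial parameters) and an element `y`. -/
structure Tri (W : Type) [Field W] (r : ℕ) where
  B : Subring W
  x : Fin r → W
  y : W

/-- A coefficient `e` at the exponent `(a, j)` is of `p`-type. -/
def PT (p : ℕ) {C : Type} [Field C] {r : ℕ} (a : Fin r → ℤ) (j : ℕ) (e : C) : Prop :=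
  (∃ a' : Fin r → ℤ, a = p • a') ∧ p ∣ j ∧ ∃ b : C, e = b ^ p

variable {E W : Type} [Field E] [NormedField W] [IsUltrametricDist W] [Algebra E W] {r : ℕ}

/-- The ring `Λ` of the elements of `E` of norm at most one, as a subring of `W`. -/
def Lam (E W : Type) [Field E] [NormedField W] [IsUltrametricDist W] [Algebra E W] : Subring W :=
  (algebraMap E W).range ⊓ (ball W).toSubring

/-- Standing assumptions. -/
structure AmbX (p r : ℕ) (S : IntermediateField E W) : Prop where
  prime : p.Prime
  char0 : CharZero W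
  p1 : ‖(p : W)‖ < 1
  dvr : ∀ c : E, c ≠ 0 → ∃ n : ℤ, ‖algebraMap E W c‖ = ‖(p : W)‖ ^ n
  cpl : IsComplete (Set.range (algebraMap E W))
  rank : ∀ z : Fin (r + 1) → W, (∀ i, z i ≠ 0) → ∃ a : Fin (r + 1) → ℤ, a ≠ 0 ∧ ‖mon z a‖ = 1
  res : ∀ z : W, ‖z‖ ≤ 1 → ∃ P : Polynomial W, P.Monic ∧ (∀ j, P.coeff j ∈ Lam E W) ∧
    ‖P.eval z‖ < 1
  alg : ∀ z : W, IsAlgebraic S z → z ∈ S
  trd : Algebra.trdeg E S = (r : Cardinal)

/-- The localization of `B[x']` at the centre of the norm. -/
def Bx (B : Subring W) (x' : Fin r → W) : Subring W :=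
  locV (ball W) (Subring.closure ((B : Set W) ∪ Set.range x'))

/-- Strictly good triples in `S`: `B` is essentially of finite type over `Λ`, local with maximal
ideal generated by the independent `x i` and by `y`, and `S` is algebraic over `B`. -/
structure Gs (S : IntermediateField E W) (c : Tri W r) : Prop where
  fg : ∃ G : Finset W, c.B = locV (ball W) (Subring.closure ((Lam E W : Set W) ∪ (G : Set W)))
  le : ∀ z ∈ c.B, z ∈ S ∧ ‖z‖ ≤ 1
  ind : Indep c.x
  y1 : ‖c.y‖ < 1
  xB : ∀ i, c.x i ∈ c.B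
  yB : c.y ∈ c.B
  gen : ∀ z ∈ c.B, ‖z‖ < 1 → ∃ (b : Fin r → W) (b0 : W), (∀ i, b i ∈ c.B) ∧ b0 ∈ c.B ∧
    z = ∑ i, b i * c.x i + b0 * c.y
  alg : ∀ z ∈ S, IsAlgebraic c.B z

/-- Good triples: strictly good after a monomial basis change. -/
structure Gd (S : IntermediateField E W) (c : Tri W r) : Prop where
  ind : Indep c.x
  y1 : ‖c.y‖ < 1
  xB : ∀ i, c.x i ∈ c.B
  yB : c.y ∈ c.B
  fg : ∃ G : Finset W, c.B = locV (ball W) (Subring.closure ((Lam E W : Set W) ∪ (G : Set W)))
  ex : ∃ x1 : Fin r → W, Mt c.x x1 ∧ Gs S (⟨Bx c.B x1, x1, c.y⟩ : Tri W r)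

/-- The union of the rings `Bx c.B x'` over all monomial basis changes `x'` (see `mem_HO_iff`). -/
def HO (c : Tri W r) : Subring W :=
  Subring.closure {z | ∃ x' : Fin r → W, Mt c.x x' ∧ z ∈ Bx c.B x'}

/-- `HO c [1/x]` -/
def HL (c : Tri W r) : Subring W :=
  Subring.closure ((HO c : Set W) ∪ Set.range (mon c.x))

/-- The ideal of `HO c` generated by the monomials of norm less than one. -/
def QH (c : Tri W r) : Set W :=
  {z | ∃ a : Fin r → ℤ, ‖mon c.x a‖ < 1 ∧ ∃ h ∈ HO c, z = mon c.x a * h}

/-- `z` is a monomial in `x` times a unit of `HO c`. -/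
def MoH (c : Tri W r) (z : W) : Prop := Mo (HO c) c.x z

/-- The lead form: `z = x^a * (y^d * v + q)`, `v` a unit of `HO c`, `q ∈ QH c`. -/
def Ld (c : Tri W r) (z : W) (a : Fin r → ℤ) (d : ℕ) : Prop :=
  ∃ v ∈ HO c, ‖v‖ = 1 ∧ ∃ q ∈ QH c, z = mon c.x a * (c.y ^ d * v + q)

open Classical in
/-- The norm given by the lead form. -/
noncomputable def Gn (c : Tri W r) (z : W) : ℝ :=
  if h : ∃ (a : Fin r → ℤ) (d : ℕ), Ld c z a d then ‖mon c.x h.choose‖ else 0

/-- A stage `c → c'`: `w = y^e / x^β` is a unit, `g` is the minimal polynomial of its residue over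
the residue field `F` of `B`, `G` is a lift of `g` to `B`, `y' = G(w)`, `B' = locV B[x', w]`; the
monomials in `x, y` are the monomials in `x', w`. -/
structure St (S : IntermediateField E W) (c c' : Tri W r)
    (F : Subfield (RW W)) (e : ℕ) (β : Fin r → ℤ) (w : W) (g : Polynomial F) (G : Polynomial W)
    (T : ((Fin r → ℤ) × ℤ) ≃+ ((Fin r → ℤ) × ℤ)) : Prop where
  gd : Gd S c
  gd' : Gd S c'
  hF : kap c.B = F
  e1 : 1 ≤ e
  w1 : ‖w‖ = 1
  hw : c.y ^ e = mon c.x β * w
  hT : T (-β, (e : ℤ)) = (0, 1)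
  hm : ∀ (a : Fin r → ℤ) (j : ℤ), mon c.x a * c.y ^ j =
    mon c'.x (T (a, j)).1 * w ^ (T (a, j)).2
  gm : g.Monic
  gi : Irreducible g
  gw : Polynomial.aeval (rs w) g = 0
  Gm : G.Monic
  Gc : ∀ j, G.coeff j ∈ c.B
  Gr : ∀ j, rs (G.coeff j) = (g.coeff j : RW W)
  hy : c'.y = G.eval w
  hB : c'.B = locV (ball W) (Subring.closure ((c.B : Set W) ∪ (Set.range c'.x ∪ {w})))

/-- There is a stage from `c` to `c'`. -/
def StR (S : IntermediateField E W) (c c' : Tri W r) : Prop :=
  ∃ (F : Subfield (RW W)) (e : ℕ) (β : Fin r → ℤ) (w : W) (g : Polynomial F) (G : Polynomial W)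
    (T : ((Fin r → ℤ) × ℤ) ≃+ ((Fin r → ℤ) × ℤ)), St S c c' F e β w g G T

/-- `c'` is obtained from `c` by finitely many stages. -/
def RfS (S : IntermediateField E W) : Tri W r → Tri W r → Prop :=
  Relation.ReflTransGen (StR S)

/-- The field of fractions of `B` (see `mem_Fr_iff`). -/
noncomputable def Fr (E : Type) {W : Type} [Field E] [NormedField W] [Algebra E W] {r : ℕ}
    (c : Tri W r) : IntermediateField E W :=
  IntermediateField.adjoin E (c.B : Set W)

/-- A chart of the (complete) field `L`: a good ring in `S ∩ L` with dense field of fractions. -/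
structure Ch (S L : IntermediateField E W) (c : Tri W r) : Prop where
  gd : Gd S c
  le : Fr E c ≤ L
  dense : ∀ z ∈ L, z ∈ cl (Fr E c)

/-- `L` has a chart. -/
def HasCh (S : IntermediateField E W) (r : ℕ) (L : IntermediateField E W) : Prop :=
  ∃ c : Tri W r, Ch S L c

/-- The group `Γ` acts on the field `L'` with fixed field `L`; the element `σ` acts by the
restriction of an isometric homomorphism `f σ : W → W` over `E` mapping `S` to `S`. -/
structure Act (Γ : Type) [Group Γ] (S L L' : IntermediateField E W) where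
  f : Γ → W →ₐ[E] W
  iso : ∀ σ z, ‖f σ z‖ = ‖z‖
  memL : ∀ σ, ∀ z ∈ L', f σ z ∈ L'
  memS : ∀ σ, ∀ z ∈ S, f σ z ∈ S
  one : ∀ z ∈ L', f 1 z = z
  mul : ∀ σ τ, ∀ z ∈ L', f (σ * τ) z = f σ (f τ z)
  fix : ∀ z ∈ L', (∀ σ, f σ z = z) ↔ z ∈ L

/-- A tower of tame Galois steps leading to a field with a chart. -/
inductive TTower (S : IntermediateField E W) (r p : ℕ) : IntermediateField E W → Prop
  | base (L : IntermediateField E W) : HasCh S r L → TTower S r p L
  | kstep (L : IntermediateField E W) (l : ℕ) (w ζ : W) : l.Prime → l ≠ p → w ^ l ∈ L →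
      ζ ∈ L → IsPrimitiveRoot ζ l →
      TTower S r p (L ⊔ IntermediateField.adjoin E {w}) → TTower S r p L
  | ustep (L L1 : IntermediateField E W) : TU.UStep L L1 → TTower S r p L1 → TTower S r p L

end Pool.Agent.Lib.MX
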