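import Pool.Agent.Lib.MX.KumGen
import Pool.Agent.Lib.MX.InvR
import Pool.Agent.Lib.TU.LatU

set_option autoImplicit false

/-!
# Module MX.KumLatX: the chart of the smaller field in the Kummer case (paper section 11)

`TU.lattice_basis c.x _ l _ n`: `x''` with `Indep x''`, `x'' i = mon c.x a` with `l ∣ ∑ a_j n_j`, and every `mon c.x a` with `l ∣ ∑ a_j n_j` is `mon x'' a'`.  `Y`: `eig_gen`; for `β ∈ Y`: `monN c.x β = mon x'' (γ β)`, of norm `< 1`.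
`TU.exists_Mt` for `x''` and the `γ β`: `x'` with `Mt x'' x'`, `monN c.x β = monN x' δ`, `1 ≤ δ i`.  `x' i` is a Laurent monomial in `x''`, so in `c.x` with `l ∣ ∑ a_j n_j`: fixed by `s` (`mon_eig`, `xi_dvd`), in `Fr E c ≤ L'`, so in `L` (`mem_L`), and in `S`.
`A0 := c.B ⊓ L` (`inv_ring` with `t := (l : W)⁻¹`: `∑_σ σ t = 1`, `Nat.card Γ = l`), `B0 := Bx A0 x'`, `c0 := ⟨B0, x', c.y⟩`.
`Gs S c0`: `fg`: `locV_closure_locV`; `gen`: `z * d = a`, `d, a ∈ closure (A0 ∪ range x')`, `‖d‖ = 1`; `a = a0 + ∑ a_i x'_i` with `a0 ∈ A0` (closure induction), `‖a0‖ < 1`; `eig_gen`: `a0 ∈ y B0 + ∑ x^β B0`, `x^β ∈ (x') B0` (`r ≠ 0`);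
`alg`: `S` is algebraic over `c.B` (`hc.gs.alg`), elements of `c.B` are integral over `A0` (`inv_alg`), `A0 ≤ B0`.
`Ch S L c0`: `Fr E c0 ≤ L`; dense: `adjoin E {u | u ∈ c.B ∧ u ∈ L} ≤ Fr E c0`, `inv_dense`.
-/

namespace Pool.Agent.Lib.MX

open Pool.Agent.Lib.MP_3029eb_ag Pool.Agent.Lib.MP_3029eb_ag.Abh Pool.Agent.Lib.TDO
open Pool.Agent.Lib.TU (Mt)

variable {E W : Type} [Field E] [NormedField W] [IsUltrametricDist W] [Algebra E W] {p r : ℕ}
  {S : IntermediateField E W}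

/-- Algebraicity over a subring over which the larger subring is integral. -/
private theorem klx_alg_trans {A0 B : Subring W} (hle : A0 ≤ B)
    (hint : ∀ z ∈ B, ∃ P : Polynomial W, P.Monic ∧ (∀ j, P.coeff j ∈ A0) ∧ P.eval z = 0)
    {z : W} (hz : IsAlgebraic B z) : IsAlgebraic A0 z := by
  letI : Algebra A0 B := (Subring.inclusion hle).toAlgebra
  haveI : IsScalarTower A0 B W := IsScalarTower.of_algebraMap_eq fun _ => rfl
  haveI : Algebra.IsAlgebraic A0 B := by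
    refine ⟨fun b => ?_⟩
    obtain ⟨P, hPm, hPc, hP⟩ := hint (b : W) b.2
    have hlift : P ∈ Polynomial.lifts A0.subtype := by
      rw [Polynomial.lifts_iff_coeff_lifts]
      intro j
      exact ⟨⟨P.coeff j, hPc j⟩, rfl⟩
    obtain ⟨Q, hQ⟩ := (Polynomial.mem_lifts P).1 hlift
    refine ⟨Q, ?_, ?_⟩
    · rintro rfl
      rw [Polynomial.map_zero] at hQ
      exact hPm.ne_zero hQ.symm
    · apply Subtype.ext
      have h1 : ((Polynomial.aeval b Q : B) : W) = P.eval (b : W) := by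
        rw [← hQ, Polynomial.eval_map, Polynomial.aeval_def]
        exact Polynomial.hom_eval₂ Q (algebraMap A0 B) B.subtype b
      rw [h1, hP]
      rfl
  exact hz.restrictScalars A0

/-- Membership in the closure of an intermediate field. -/
private theorem klx_mem_cl_iff (F : IntermediateField E W) (z : W) :
    z ∈ cl F ↔ ∀ ε : ℝ, 0 < ε → ∃ w ∈ F, ‖z - w‖ < ε := by
  have h1 : z ∈ cl F ↔ z ∈ closure (F : Set W) := Iff.rfl
  rw [h1, Metric.mem_closure_iff]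
  constructor
  · intro h ε hε
    obtain ⟨w, hw, hd⟩ := h ε hε
    exact ⟨w, hw, by rwa [← dist_eq_norm]⟩
  · intro h ε hε
    obtain ⟨w, hw, hd⟩ := h ε hε
    exact ⟨w, hw, by rwa [dist_eq_norm]⟩

theorem kum_lat (hr : 0 < r) (hA : AmbX p r S) {Γ : Type} [Group Γ]
    {L L' : IntermediateField E W} {act : Act Γ S L L'} {l : ℕ} {ξ : W} {s : Γ}
    (hK : KumD p act l ξ s) {c : Tri W r} {n : Fin r → ℕ} (hc : EigX act ξ s c n)
    (hy : c.y ∈ L) : HasCh S r L := by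
  classical
  haveI : Finite Γ := hK.fin
  letI : Fintype Γ := Fintype.ofFinite Γ
  have hl1 : ‖(l : W)‖ = 1 := hK.norm_l hA
  have hl0 : (l : W) ≠ 0 := by
    intro h
    rw [h, norm_zero] at hl1
    exact zero_ne_one hl1
  have hBL' : ∀ z ∈ c.B, z ∈ L' := fun z hz =>
    hc.ch.le (IntermediateField.subset_adjoin E (c.B : Set W) hz)
  have hB1 : ∀ z ∈ c.B, ‖z‖ ≤ 1 := fun z hz => (hc.gs.le z hz).2
  have hBS : ∀ z ∈ c.B, z ∈ S := fun z hz => (hc.gs.le z hz).1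
  -- the sublattice
  obtain ⟨Y, hY, hgen⟩ := eig_gen hr hA hK hc hy
  obtain ⟨x'', hind'', hx1, hx2⟩ := TU.lattice_basis c.x hc.gs.ind l hK.prime.pos
    (fun j => (n j : ℤ))
  have hinvL : ∀ a : Fin r → ℤ, (l : ℤ) ∣ ∑ j, a j * (n j : ℤ) → mon c.x a ∈ L := by
    intro a ha
    refine hK.mem_L ?_ ?_
    · unfold mon
      exact prod_mem fun i _ => zpow_mem (hBL' _ (hc.gs.xB i)) _
    · rw [mon_eig hK hc.eig a, hK.xi_dvd.2 ha, one_mul]
  have hmonS : ∀ a : Fin r → ℤ, mon c.x a ∈ S := by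
    intro a
    unfold mon
    exact prod_mem fun i _ => zpow_mem (hBS _ (hc.gs.xB i)) _
  have hx''L : ∀ i, x'' i ∈ L := fun i => by
    obtain ⟨a, ha, hd⟩ := hx1 i
    rw [ha]
    exact hinvL a hd
  have hx''S : ∀ i, x'' i ∈ S := fun i => by
    obtain ⟨a, ha, hd⟩ := hx1 i
    rw [ha]
    exact hmonS a
  have hγ : ∀ β : Fin r → ℕ, ∃ a' : Fin r → ℤ, β ∈ Y → monN c.x β = mon x'' a' := by
    intro β
    by_cases hβ : β ∈ Y
    · have h1 : (l : ℤ) ∣ ∑ j, ((β j : ℕ) : ℤ) * (n j : ℤ) := by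
        have h2 : ((∑ i, β i * n i : ℕ) : ℤ) = ∑ j, ((β j : ℕ) : ℤ) * (n j : ℤ) := by
          push_cast
          rfl
        rw [← h2]
        exact Int.natCast_dvd_natCast.2 (hY β hβ).2
      obtain ⟨a', ha'⟩ := hx2 (fun j => (β j : ℤ)) h1
      refine ⟨a', fun _ => ?_⟩
      rw [← ha']
      unfold monN mon
      exact Finset.prod_congr rfl fun i _ => (zpow_natCast _ _).symm
    · exact ⟨0, fun h => absurd h hβ⟩
  choose γ hγ using hγ
  have hnorm : ∀ β ∈ Y, ‖monN c.x β‖ < 1 := by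
    intro β hβ
    have h1 : monN c.x β ∈ JI c.B c.x c.y := JI_monN hc.gs.xB (hY β hβ).1
    exact JI_lt hB1 hc.gs.ind.lt hc.gs.y1 h1
  obtain ⟨x', hMt, hx'⟩ := TU.exists_Mt hind'' (Y.image γ) (by
    intro a ha
    obtain ⟨β, hβ, rfl⟩ := Finset.mem_image.1 ha
    rw [← hγ β hβ]
    exact (hnorm β hβ).le)
  have hδ : ∀ β ∈ Y, ∃ δ : Fin r → ℕ, δ ≠ 0 ∧ monN c.x β = monN x' δ := by
    intro β hβ
    obtain ⟨δ, h1, h2⟩ := hx' (γ β) (Finset.mem_image_of_mem _ hβ)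
    rw [← hγ β hβ] at h1 h2
    refine ⟨δ, ?_, h1⟩
    rintro rfl
    have h3 := h2 (hnorm β hβ) ⟨0, hr⟩
    simp at h3
  have hx'L : ∀ i, x' i ∈ L := by
    intro i
    obtain ⟨A, Bm, -, hB, -⟩ := hMt.mat
    rw [hB i]
    unfold mon
    exact prod_mem fun j _ => zpow_mem (hx''L j) _
  have hx'S : ∀ i, x' i ∈ S := by
    intro i
    obtain ⟨A, Bm, -, hB, -⟩ := hMt.mat
    rw [hB i]
    unfold mon
    exact prod_mem fun j _ => zpow_mem (hx''S j) _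
  -- the ring of invariants
  have ht : (l : W)⁻¹ ∈ c.B := hc.gs.inv (natCast_mem c.B l) hl1
  have ht1 : ‖∑ σ : Γ, act.f σ ((l : W)⁻¹)‖ = 1 := by
    have h1 : ∀ σ : Γ, act.f σ ((l : W)⁻¹) = (l : W)⁻¹ := fun σ => by
      rw [map_inv₀, map_natCast]
    rw [Finset.sum_congr rfl fun σ _ => h1 σ, Finset.sum_const, Finset.card_univ,
      ← Nat.card_eq_fintype_card, hK.card, nsmul_eq_mul, mul_inv_cancel₀ hl0, norm_one]
  obtain ⟨G0, hG0, hA0⟩ := inv_ring act hc.gs.fg hB1 hBL' hc.st ht ht1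
  set A0 : Subring W := c.B ⊓ L.toSubfield.toSubring with hA0def
  have hA0B : A0 ≤ c.B := inf_le_left
  have hA0L : ∀ z ∈ A0, z ∈ L := fun z hz => hz.2
  have hA0mem : ∀ z, z ∈ c.B → z ∈ L → z ∈ A0 := fun z h1 h2 => ⟨h1, h2⟩
  have hA0inv : ∀ z ∈ A0, ‖z‖ = 1 → z⁻¹ ∈ A0 := fun z hz h1 =>
    hA0mem _ (hc.gs.inv (hA0B hz) h1) (inv_mem (hA0L z hz))
  have hA01 : ∀ z ∈ A0, ‖z‖ ≤ 1 := fun z hz => hB1 z (hA0B hz)
  have hBn : ∀ z ∈ Bx A0 x', ‖z‖ ≤ 1 := fun z hz => norm_le_Bx hA01 hMt.ind hz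
  have hBxS : ∀ z ∈ Bx A0 x', z ∈ S.toSubring := by
    intro z hz
    refine Bx_le S.toSubring (fun w hw => hBS w (hA0B hw)) (fun i => hx'S i) (fun w hw _ => ?_) hz
    exact inv_mem (S := IntermediateField E W) hw
  have hBxL : ∀ z ∈ Bx A0 x', z ∈ L.toSubring := by
    intro z hz
    refine Bx_le L.toSubring (fun w hw => hA0L w hw) (fun i => hx'L i) (fun w hw _ => ?_) hz
    exact inv_mem (S := IntermediateField E W) hw
  have hgen0 : ∀ z ∈ A0, ‖z‖ < 1 → z ∈ JI (Bx A0 x') x' c.y := by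
    intro z hz hz1
    obtain ⟨b, b0, hb, hb0, hb0L, rfl⟩ := hgen z (hA0B hz) (hA0L z hz) hz1
    refine JI_add (JI_sum _ _ fun β hβ => ?_) ?_
    · obtain ⟨δ, hδ0, hδ1⟩ := hδ β hβ
      rw [hδ1]
      exact JI_mul (le_Bx (hA0mem _ (hb β).1 (hb β).2)) (JI_monN (fun i => x_mem_Bx i) hδ0)
    · exact JI_mul (le_Bx (hA0mem _ hb0 hb0L)) JI_y
  have hg := gen_ext (B := A0) (A := Bx A0 x') (x := x') (y := c.y) hA0inv (Set.range x') rfl hBn
    hMt.ind.lt hc.gs.y1 (by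
      rintro _ ⟨i, rfl⟩
      exact ⟨0, zero_mem _, by rw [sub_zero]; exact JI_x i⟩) hgen0
  have hGs : Gs S (⟨Bx A0 x', x', c.y⟩ : Tri W r) := by
    refine ⟨fg_Bx x' ⟨G0, hA0⟩, fun z hz => ⟨hBxS z hz, hBn z hz⟩, hMt.ind, hc.gs.y1,
      fun i => x_mem_Bx i, le_Bx (hA0mem _ hc.gs.yB hy), hg.2, fun z hz => ?_⟩
    refine isAlgebraic_mono (A := A0) le_Bx ?_
    refine klx_alg_trans hA0B (fun w hw => ?_) (hc.gs.alg z hz)
    exact inv_alg act hBL' hc.st hw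
  refine ⟨⟨Bx A0 x', x', c.y⟩, hGs.gd, ?_, ?_⟩
  · unfold Fr
    rw [IntermediateField.adjoin_le_iff]
    exact fun z hz => hBxL z hz
  · intro z hz
    rw [klx_mem_cl_iff]
    intro ε hε
    obtain ⟨z', hz', hzz⟩ := inv_dense act hc.ch hc.st ht ht1 hz hK.le hε
    refine ⟨z', ?_, hzz⟩
    have h1 : IntermediateField.adjoin E {u : W | u ∈ c.B ∧ u ∈ L} ≤
        Fr E (⟨Bx A0 x', x', c.y⟩ : Tri W r) := by
      refine IntermediateField.adjoin.mono E _ _ ?_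
      rintro u ⟨hu1, hu2⟩
      exact le_Bx (hA0mem u hu1 hu2)
    exact h1 hz'

end Pool.Agent.Lib.MX
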