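import Pool.Agent.Lib.MX.GoodExt
import Pool.Agent.Lib.MX.StHO
import Pool.Agent.Lib.TDO.Um

/-!
# Module StEx: existence of stages (paper section 3)
-/

namespace Pool.Agent.Lib.MX

open Pool.Agent.Lib.MP_3029eb_ag Pool.Agent.Lib.MP_3029eb_ag.Abh Pool.Agent.Lib.TDO
open Pool.Agent.Lib.TU (Mt exists_Mt)

/-- The shear `(a, j) ↦ (a + j • B, j)`. -/
private def stex_shear {r : ℕ} (B : Fin r → ℤ) :
    ((Fin r → ℤ) × ℤ) ≃+ ((Fin r → ℤ) × ℤ) where
  toFun m := (m.1 + m.2 • B, m.2)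
  invFun m := (m.1 - m.2 • B, m.2)
  left_inv m := by
    refine Prod.ext ?_ rfl
    change m.1 + m.2 • B - m.2 • B = m.1
    rw [add_sub_cancel_right]
  right_inv m := by
    refine Prod.ext ?_ rfl
    change m.1 - m.2 • B + m.2 • B = m.1
    rw [sub_add_cancel]
  map_add' m m' := by
    refine Prod.ext ?_ rfl
    change m.1 + m'.1 + (m.2 + m'.2) • B = (m.1 + m.2 • B) + (m'.1 + m'.2 • B)
    rw [add_smul]
    abel

private theorem stex_rank {E W : Type} [Field E] [NormedField W] [IsUltrametricDist W]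
    [Algebra E W] {r p : ℕ} {S : IntermediateField E W} (hA : AmbX p r S) {x : Fin r → W} {y : W} (hx : Indep x) (hy : y ≠ 0) :
    ∃ e : ℕ, 1 ≤ e ∧ ∃ B : Fin r → ℤ, ‖y‖ ^ e = ‖mon x B‖ := by
  have hy0 : ‖y‖ ≠ 0 := norm_ne_zero_iff.2 hy
  obtain ⟨a, ha, hna⟩ := hA.rank (Fin.cons y x) (by
    intro i
    refine Fin.cases ?_ (fun i => ?_) i
    · exact hy
    · exact hx.ne i)
  have hm : mon (Fin.cons y x : Fin (r + 1) → W) a = y ^ a 0 * mon x (fun i => a i.succ) := by
    unfold mon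
    rw [Fin.prod_univ_succ, Fin.cons_zero]
    congr 1
  rw [hm, norm_mul, norm_zpow] at hna
  have ha0 : a 0 ≠ 0 := by
    intro h0
    rw [h0, zpow_zero, one_mul] at hna
    have h1 := hx.indep _ hna
    refine ha (funext fun i => ?_)
    refine Fin.cases ?_ (fun i => ?_) i
    · exact h0
    · exact congrFun h1 i
  have hmon : ‖mon x (fun i => a i.succ)‖ ≠ 0 :=
    norm_ne_zero_iff.2 (mon_ne x hx.ne _)
  rcases lt_or_gt_of_ne ha0 with h | h
  · refine ⟨(-(a 0)).toNat, by omega, fun i => a i.succ, ?_⟩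
    rw [← zpow_natCast, Int.toNat_of_nonneg (by omega), zpow_neg]
    exact inv_eq_of_mul_eq_one_right hna
  · refine ⟨(a 0).toNat, by omega, -fun i => a i.succ, ?_⟩
    rw [← zpow_natCast, Int.toNat_of_nonneg (by omega), mon_neg, norm_inv]
    exact eq_inv_of_mul_eq_one_left hna

/-- The monomial part of a stage. -/
private theorem stex_data {W : Type} [NormedField W] {r : ℕ} (x : Fin r → W) (hx : Indep x)
    (y : W) (hy : y ≠ 0) (hex : ∃ e : ℕ, 1 ≤ e ∧ ∃ B : Fin r → ℤ, ‖y‖ ^ e = ‖mon x B‖)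
    (X : Finset ((Fin r → ℤ) × ℕ)) (hX : ∀ n ∈ X, 1 ≤ ‖mon x n.1 * y ^ n.2‖) :
    ∃ (x' : Fin r → W) (e : ℕ) (B : Fin r → ℤ) (w : W)
      (T : ((Fin r → ℤ) × ℤ) ≃+ ((Fin r → ℤ) × ℤ)),
      Indep x' ∧ 1 ≤ e ∧ ‖w‖ = 1 ∧ w = y ^ e * mon x (-B) ∧ y ^ e = mon x B * w ∧
      T (-B, (e : ℤ)) = (0, 1) ∧
      (∀ (a : Fin r → ℤ) (j : ℤ), mon x a * y ^ j = mon x' (T (a, j)).1 * w ^ (T (a, j)).2) ∧
      (∀ n ∈ X, 0 ≤ (T (n.1, (n.2 : ℤ))).2) ∧
      (e = 1 → x' = x ∧ ∀ (a : Fin r → ℤ) (j : ℤ), T (a, j) = (a + j • B, j)) := by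
  classical
  obtain ⟨e, heq⟩ : ∃ e, e = Nat.find hex := ⟨_, rfl⟩
  obtain ⟨he, B, hB⟩ := Nat.find_spec hex
  rw [← heq] at he hB
  have hmin : ∀ e' : ℕ, 1 ≤ e' → e' < e → ∀ B' : Fin r → ℤ, ‖y‖ ^ e' ≠ ‖mon x B'‖ := by
    intro e' h1 h2 B' h3
    rw [heq] at h2
    exact Nat.find_min hex h2 ⟨h1, B', h3⟩
  have hmB : mon x B ≠ 0 := mon_ne x hx.ne B
  obtain ⟨w, hw⟩ : ∃ w, w = y ^ e * mon x (-B) := ⟨_, rfl⟩
  have hw1 : ‖w‖ = 1 := by
    rw [hw, norm_mul, norm_pow, hB, mon_neg, norm_inv, mul_inv_cancel₀]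
    exact norm_ne_zero_iff.2 hmB
  have hwB : y ^ e = mon x B * w := by
    rw [hw, mon_neg]
    field_simp
  by_cases he1 : e = 1
  · refine ⟨x, e, B, w, stex_shear B, hx, he, hw1, hw, hwB, ?_, ?_, ?_, ?_⟩
    · rw [he1]
      refine Prod.ext ?_ rfl
      change -B + ((1 : ℕ) : ℤ) • B = 0
      rw [Nat.cast_one, one_smul, neg_add_cancel]
    · intro a j
      change mon x a * y ^ j = mon x (a + j • B) * w ^ j
      rw [mon_add x hx.ne, mon_zsmul, mul_assoc, ← mul_zpow, ← hwB, he1, pow_one]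
    · intro m _
      change (0 : ℤ) ≤ (m.2 : ℤ)
      exact Int.natCast_nonneg _
    · intro _
      exact ⟨rfl, fun a j => rfl⟩
  · obtain ⟨x', T, hx', hT, hm, hnn⟩ := exists_um_nonneg x hx y hy e he B hB hmin
      ((X.image fun m => (m.1, (m.2 : ℤ))).filter fun m => 1 < ‖mon x m.1 * y ^ m.2‖) (by
      intro m hm
      exact (Finset.mem_filter.1 hm).2)
    rw [← hw] at hm
    refine ⟨x', e, B, w, T, hx', he, hw1, hw, hwB, hT, hm, ?_, fun h => absurd h he1⟩
    intro n hn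
    rcases lt_or_eq_of_le (hX n hn) with h1 | h1
    · refine hnn _ (Finset.mem_filter.2 ⟨Finset.mem_image_of_mem _ hn, ?_⟩)
      change 1 < ‖mon x n.1 * y ^ (n.2 : ℤ)‖
      rw [zpow_natCast]
      exact h1
    · have h2 := hm n.1 (n.2 : ℤ)
      have h3 : ‖mon x' (T (n.1, (n.2 : ℤ))).1‖ = 1 := by
        have h4 := congrArg norm h2
        rw [norm_mul, norm_mul, norm_zpow, norm_zpow, hw1, one_zpow, mul_one] at h4
        rw [← h4, ← norm_zpow, ← norm_mul, zpow_natCast, ← h1]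
      have h5 := hx'.indep _ h3
      -- the exponent is a multiple of (-B, e)
      obtain ⟨t, ht⟩ : ∃ t : ℤ, t = (T (n.1, (n.2 : ℤ))).2 := ⟨_, rfl⟩
      have h6 : T (n.1, (n.2 : ℤ)) = T (t • ((-B, (e : ℤ)) : (Fin r → ℤ) × ℤ)) := by
        rw [map_zsmul, hT, ht]
        refine Prod.ext ?_ ?_
        · rw [h5]
          change (0 : Fin r → ℤ) = (T (n.1, (n.2 : ℤ))).2 • (0 : Fin r → ℤ)
          rw [smul_zero]
        · change _ = (T (n.1, (n.2 : ℤ))).2 • (1 : ℤ)
          rw [smul_eq_mul, mul_one]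
      have h7 := T.injective h6
      have h8 : (n.2 : ℤ) = t * (e : ℤ) := by
        have := congrArg Prod.snd h7
        exact this
      rw [← ht]
      by_contra hneg
      push Not at hneg
      have h9 : t * (e : ℤ) < 0 := mul_neg_of_neg_of_pos hneg (by omega)
      omega

section

variable {E W : Type} [Field E] [NormedField W] [IsUltrametricDist W] [Algebra E W] {r p : ℕ}
  {S : IntermediateField E W} {c : Tri W r}

/-- Finite generation of extensions. -/
theorem fg_ext {B : Subring W} (X : Set W) (hX : X.Finite)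
    (h : ∃ G : Finset W, B = locV (ball W) (Subring.closure ((Lam E W : Set W) ∪ (G : Set W)))) :
    ∃ G : Finset W, locV (ball W) (Subring.closure ((B : Set W) ∪ X)) =
      locV (ball W) (Subring.closure ((Lam E W : Set W) ∪ (G : Set W))) := by
  classical
  obtain ⟨G, hG⟩ := h
  refine ⟨G ∪ hX.toFinset, ?_⟩
  apply le_antisymm
  · intro z hz
    refine locV_closure_le _ ?_ (fun w hw h1 => inv_mem_locV hw h1) hz
    rintro w (hw | hw)
    · rw [hG] at hw
      refine locV_closure_le _ ?_ (fun w hw h1 => inv_mem_locV hw h1) hw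
      rintro v (hv | hv)
      · exact subset_locV_closure (Or.inl hv)
      · refine subset_locV_closure (Or.inr ?_)
        rw [Finset.coe_union]
        exact Or.inl hv
    · refine subset_locV_closure (Or.inr ?_)
      rw [Finset.mem_coe]
      exact Finset.mem_union_right _ (hX.mem_toFinset.2 hw)
  · intro z hz
    refine locV_closure_le _ ?_ (fun w hw h1 => inv_mem_locV hw h1) hz
    rintro w (hw | hw)
    · refine subset_locV_closure (Or.inl ?_)
      rw [hG]
      exact subset_locV_closure (Or.inl hw)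
    · rw [Finset.mem_coe, Finset.mem_union, hX.mem_toFinset] at hw
      rcases hw with hw | hw
      · refine subset_locV_closure (Or.inl ?_)
        rw [hG]
        exact subset_locV_closure (Or.inr hw)
      · exact subset_locV_closure (Or.inr hw)

theorem Gd.mem_kap_iff (hc : Gd S c) (a : RW W) : a ∈ kap c.B ↔ ∃ z ∈ c.B, rs z = a :=
  MX.mem_kap_iff (fun _ hz => hc.norm_le hz) (fun _ hz h1 => hc.inv hz h1) a

/-- Basis changes do not change the residue field. -/
theorem kap_Bx (hc : Gd S c) {x1 : Fin r → W} (h1 : Mt c.x x1)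
    (hs : Gs S (⟨Bx c.B x1, x1, c.y⟩ : Tri W r)) : kap (Bx c.B x1) = kap c.B := by
  apply le_antisymm
  · intro a ha
    obtain ⟨z, hz, rfl⟩ := (MX.mem_kap_iff (fun z hz => (hs.le z hz).2)
      (fun z hz h => hs.inv hz h) a).1 ha
    obtain ⟨e, he, h2⟩ := hc.dec h1 hs hz
    have h3 : rs z = rs e := (rs_eq_iff (hs.le z hz).2 (hc.norm_le he)).2
      (JI_lt (fun w hw => (hs.le w hw).2) h1.ind.lt hc.y1 h2)
    rw [h3]
    exact rs_mem_kap he
  · exact kap_mono le_Bx

/-- Sections exist. -/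
theorem Gd.exists_sec (hc : Gd S c) {F : Subfield (RW W)} (hF : kap c.B = F) :
    ∃ τ : F → W, Sec c.B F τ :=
  exists_Sec (fun _ hz => hc.norm_le hz) (fun _ hz h1 => hc.inv hz h1) hF.ge

theorem Gd.y_ne (hA : AmbX p r S) (hc : Gd S c) : c.y ≠ 0 := by
  obtain ⟨x1, h1, h2⟩ := hc.ex
  intro h0
  refine h2.y_pow hA 1 (fun _ => 0) (fun _ => zero_mem _) ?_
  change c.y ^ 1 = _
  rw [h0]
  simp

/-- Lifts of monic polynomials. -/
theorem exists_lift {B : Subring W} {F : Subfield (RW W)} {τ : F → W} (hτ : Sec B F τ)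
    (g : Polynomial F) (gm : g.Monic) :
    ∃ G : Polynomial W, G.Monic ∧ (∀ j, G.coeff j ∈ B) ∧
      (∀ j, rs (G.coeff j) = (g.coeff j : RW W)) ∧ G.natDegree = g.natDegree ∧
      ∀ j < g.natDegree, G.coeff j = τ (g.coeff j) := by
  set n := g.natDegree with hn
  set R : Polynomial W := ∑ j ∈ Finset.range n, Polynomial.C (τ (g.coeff j)) * Polynomial.X ^ j
    with hR
  have hRc : ∀ j, R.coeff j = if j < n then τ (g.coeff j) else 0 := by
    intro j
    rw [hR, Polynomial.finset_sum_coeff]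
    simp only [Polynomial.coeff_C_mul, Polynomial.coeff_X_pow]
    by_cases hj : j < n
    · rw [if_pos hj, Finset.sum_eq_single j]
      · rw [if_pos rfl, mul_one]
      · intro i _ hi
        rw [if_neg hi.symm, mul_zero]
      · intro h
        exact absurd (Finset.mem_range.2 hj) h
    · rw [if_neg hj]
      refine Finset.sum_eq_zero fun i hi => ?_
      rw [if_neg, mul_zero]
      rintro rfl
      exact hj (Finset.mem_range.1 hi)
  have hRd : R.degree < n := by
    rw [Polynomial.degree_lt_iff_coeff_zero]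
    intro m hm
    rw [hRc, if_neg (by omega)]
  have hGm : (Polynomial.X ^ n + R).Monic := Polynomial.monic_X_pow_add hRd
  have hGc : ∀ j, (Polynomial.X ^ n + R).coeff j =
      if j = n then 1 else if j < n then τ (g.coeff j) else 0 := by
    intro j
    rw [Polynomial.coeff_add, Polynomial.coeff_X_pow, hRc]
    by_cases h1 : j = n
    · rw [if_pos h1, if_pos h1, if_neg (by omega), add_zero]
    · rw [if_neg h1, if_neg h1, zero_add]
  refine ⟨Polynomial.X ^ n + R, hGm, fun j => ?_, fun j => ?_, ?_, fun j hj => ?_⟩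
  · rw [hGc]
    split_ifs
    · exact one_mem _
    · exact hτ.mem _
    · exact zero_mem _
  · rw [hGc]
    split_ifs with h1 h2
    · rw [rs_one, h1, hn, gm.coeff_natDegree]; rfl
    · exact hτ.rs _
    · rw [rs_zero, Polynomial.coeff_eq_zero_of_natDegree_lt (by omega)]; rfl
  · refine Polynomial.natDegree_eq_of_degree_eq_some ?_
    rw [add_comm]
    exact Polynomial.degree_add_eq_right_of_degree_lt (by
      rw [Polynomial.degree_X_pow]; exact hRd) |>.trans (Polynomial.degree_X_pow n)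
  · rw [hGc, if_neg (by omega), if_pos hj]

/-- Residues are algebraic over the residue field of `B`. -/
theorem res_alg (hA : AmbX p r S) {B : Subring W} (hB : Lam E W ≤ B) {F : Subfield (RW W)}
    (hF : kap B = F) {w : W} (hw : ‖w‖ ≤ 1) : IsIntegral F (rs w) := by
  obtain ⟨P, hP, hPc, h1⟩ := hA.res w hw
  have hmem : ∀ j, rs (P.coeff j) ∈ F := fun j => by
    rw [← hF]
    exact rs_mem_kap (hB (hPc j))
  set Q : Polynomial F := ∑ j ∈ Finset.range (P.natDegree + 1),
    Polynomial.C (⟨rs (P.coeff j), hmem j⟩ : F) * Polynomial.X ^ j with hQ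
  have hQc : ∀ j, Q.coeff j = ⟨rs (P.coeff j), hmem j⟩ := by
    intro j
    rw [hQ, Polynomial.finset_sum_coeff]
    simp only [Polynomial.coeff_C_mul, Polynomial.coeff_X_pow]
    by_cases hj : j < P.natDegree + 1
    · rw [Finset.sum_eq_single j]
      · rw [if_pos rfl, mul_one]
      · intro i _ hi
        rw [if_neg hi.symm, mul_zero]
      · intro h
        exact absurd (Finset.mem_range.2 hj) h
    · rw [Finset.sum_eq_zero]
      · refine Subtype.ext ?_
        change (0 : RW W) = rs (P.coeff j)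
        rw [Polynomial.coeff_eq_zero_of_natDegree_lt (by omega), rs_zero]
      · intro i hi
        rw [if_neg, mul_zero]
        rintro rfl
        exact hj (Finset.mem_range.1 hi)
  have hQm : Q.Monic := by
    refine Polynomial.monic_of_natDegree_le_of_coeff_eq_one P.natDegree ?_ ?_
    · rw [Polynomial.natDegree_le_iff_coeff_eq_zero]
      intro N hN
      rw [hQc]
      refine Subtype.ext ?_
      change rs (P.coeff N) = 0
      rw [Polynomial.coeff_eq_zero_of_natDegree_lt hN, rs_zero]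
    · rw [hQc]
      refine Subtype.ext ?_
      change rs (P.coeff P.natDegree) = 1
      rw [hP.coeff_natDegree, rs_one]
  refine ⟨Q, hQm, ?_⟩
  have h2 := rs_eval hw Q P (fun j => (hPc j).2) (fun j => by rw [hQc])
  have h3 : Polynomial.aeval (rs w) Q = 0 := by
    rw [← h2.2, rs_eq_zero_iff h2.1]
    exact h1
  exact h3

/-- See the header. -/
theorem exists_st (hr : 0 < r) (hA : AmbX p r S) (hc : Gd S c) {F : Subfield (RW W)}
    (hF : kap c.B = F) {τ : F → W} (hτ : Sec c.B F τ) (X : Finset ((Fin r → ℤ) × ℕ))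
    (hX : ∀ n ∈ X, 1 ≤ ‖mon c.x n.1 * c.y ^ n.2‖) :
    ∃ (c' : Tri W r) (e : ℕ) (β : Fin r → ℤ) (w : W) (g : Polynomial F) (G : Polynomial W)
      (T : ((Fin r → ℤ) × ℤ) ≃+ ((Fin r → ℤ) × ℤ)), St S c c' F e β w g G T ∧
      (∀ n ∈ X, 0 ≤ (T (n.1, (n.2 : ℤ))).2) ∧
      (∀ j < g.natDegree, G.coeff j = τ (g.coeff j)) ∧ G.natDegree = g.natDegree ∧
      (e = 1 → c'.x = c.x ∧ ∀ (a : Fin r → ℤ) (j : ℤ), T (a, j) = (a + j • β, j)) := by
  classical
  have hy0 := hc.y_ne hA
  have hxi := hc.ind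
  obtain ⟨x', e, β, w, T, hx', he, hw1, hw, hwB, hT, hm, hnn, he1⟩ :=
    stex_data c.x hxi c.y hy0 (stex_rank hA hxi hy0) X hX
  have hint := res_alg hA hc.lam_le hF hw1.le
  set g : Polynomial F := minpoly F (rs w) with hg
  have gm : g.Monic := minpoly.monic hint
  have gi : Irreducible g := minpoly.irreducible hint
  have gw : Polynomial.aeval (rs w) g = 0 := minpoly.aeval F (rs w)
  obtain ⟨G, Gm, Gc, Gr, Gd', Gτ⟩ := exists_lift hτ g gm
  obtain ⟨x1, h1, hs1⟩ := hc.ex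
  -- exponents of the `x1 i` and of `y`
  obtain ⟨A1, B1, hA1, hB1, -⟩ := h1.mat
  have hx1m : ∀ i, x1 i = mon x' (T (B1 i, 0)).1 * w ^ (T (B1 i, 0)).2 := by
    intro i
    rw [← hm, zpow_zero, mul_one, ← hB1]
  have hym : c.y = mon x' (T (0, 1)).1 * w ^ (T (0, 1)).2 := by
    rw [← hm, mon_zero, one_mul, zpow_one]
  have hwz : ∀ n : ℤ, ‖w ^ n‖ = 1 := fun n => by rw [norm_zpow, hw1, one_zpow]
  obtain ⟨x'', hx'', hY⟩ := exists_Mt hx' (Finset.univ.image (fun i => (T (B1 i, 0)).1) ∪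
    {(T (0, 1)).1}) (by
      intro a ha
      rw [Finset.mem_union, Finset.mem_image, Finset.mem_singleton] at ha
      rcases ha with ⟨i, -, rfl⟩ | rfl
      · have h2 := (h1.ind.lt i).le
        rw [hx1m i, norm_mul, hwz, mul_one] at h2
        exact h2
      · have h2 := hc.y1.le
        rw [hym, norm_mul, hwz, mul_one] at h2
        exact h2)
  have hlt1 : ∀ i, ‖mon x' (T (B1 i, 0)).1‖ < 1 := by
    intro i
    have h2 := h1.ind.lt i
    rwa [hx1m i, norm_mul, hwz, mul_one] at h2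
  have hlt2 : ‖mon x' (T (0, 1)).1‖ < 1 := by
    have h2 := hc.y1
    rwa [hym, norm_mul, hwz, mul_one] at h2
  have hβ1 : ∀ i, ∃ b : Fin r → ℕ, mon x' (T (B1 i, 0)).1 = monN x'' b ∧ ∀ l, 1 ≤ b l := by
    intro i
    obtain ⟨b, hb, hb1⟩ := hY _ (Finset.mem_union_left _ (Finset.mem_image_of_mem
      (fun i => (T (B1 i, 0)).1) (Finset.mem_univ i)))
    exact ⟨b, hb, hb1 (hlt1 i)⟩
  obtain ⟨b0, hb0, hb01⟩ := hY _ (Finset.mem_union_right _ (Finset.mem_singleton_self (T (0, 1)).1))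
  replace hb01 := hb01 hlt2
  have hne : ∀ b : Fin r → ℕ, (∀ l, 1 ≤ b l) → b ≠ 0 := by
    intro b hb h0
    have h2 := hb ⟨0, hr⟩
    rw [h0, Pi.zero_apply] at h2
    omega
  -- the new rings
  obtain ⟨B', hB'⟩ : ∃ B' : Subring W, B' = locV (ball W) (Subring.closure ((c.B : Set W) ∪
    (Set.range x' ∪ {w}))) := ⟨_, rfl⟩
  obtain ⟨B'', hB''⟩ : ∃ B'' : Subring W, B'' = locV (ball W) (Subring.closure
    ((Bx c.B x1 : Set W) ∪ (Set.range x'' ∪ {w}))) := ⟨_, rfl⟩
  have hinv'' : ∀ z ∈ B'', ‖z‖ = 1 → z⁻¹ ∈ B'' := by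
    rw [hB'']
    intro z hz h2
    exact inv_mem_locV hz h2
  have hw'' : w ∈ B'' := by
    rw [hB'']
    exact subset_locV_closure (Or.inr (Or.inr rfl))
  have hwz'' : ∀ n : ℤ, w ^ n ∈ B'' := by
    intro n
    cases n with
    | ofNat n =>
      rw [Int.ofNat_eq_natCast, zpow_natCast]
      exact pow_mem hw'' n
    | negSucc n =>
      rw [zpow_negSucc]
      exact hinv'' _ (pow_mem hw'' _) (by rw [norm_pow, hw1, one_pow])
  have hx''m : ∀ i, x'' i ∈ B'' := fun i => by
    rw [hB'']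
    exact subset_locV_closure (Or.inr (Or.inl ⟨i, rfl⟩))
  have hcB'' : ∀ z ∈ Bx c.B x1, z ∈ B'' := fun z hz => by
    rw [hB'']
    exact subset_locV_closure (Or.inl hz)
  have hyG : G.eval w ∈ B'' ∧ ‖G.eval w‖ < 1 := by
    refine ⟨?_, ?_⟩
    · rw [Polynomial.eval_eq_sum_range]
      exact sum_mem fun j _ => mul_mem (hcB'' _ (le_Bx (Gc j))) (pow_mem hw'' _)
    · have h2 := rs_eval hw1.le g G (fun j => hc.norm_le (Gc j)) Gr
      rw [← rs_eq_zero_iff h2.1, h2.2, gw]
  have hS : ∀ a : Fin r → ℤ, ∀ j : ℤ, mon c.x a * c.y ^ j ∈ S := fun a j =>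
    mul_mem (hc.monS a) (zpow_mem (hc.mem_S hc.yB) _)
  have hwS : w ∈ S := by
    have h2 := hS (-β) (e : ℤ)
    rw [zpow_natCast, mul_comm, ← hw] at h2
    exact h2
  have hx'S : ∀ a : Fin r → ℤ, mon x' a ∈ S := by
    intro a
    have h2 := hm (T.symm (a, 0)).1 (T.symm (a, 0)).2
    rw [Prod.mk.eta, T.apply_symm_apply, zpow_zero, mul_one] at h2
    rw [← h2]
    exact hS _ _
  have hx''S : ∀ i, x'' i ∈ S := by
    intro i
    obtain ⟨a, ha⟩ := hx''.mon_eq' hx' (Pi.single i 1)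
    rw [mon_single] at ha
    rw [ha]
    exact hx'S a
  have hGs : Gs S (⟨B'', x'', G.eval w⟩ : Tri W r) := by
    have hFk := (kap_Bx hc h1 hs1).trans hF
    have key : ∀ (F' : Subfield (RW W)) (_ : kap (Bx c.B x1) = F') (g' : Polynomial F')
        (_ : g'.Monic) (_ : Irreducible g') (_ : Polynomial.aeval (rs w) g' = 0)
        (_ : ∀ j, rs (G.coeff j) = (g'.coeff j : RW W)), Gs S (⟨B'', x'', G.eval w⟩ : Tri W r) := by
      intro F' hF' g' gm' gi' gw' Gr'
      subst hF'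
      refine good_ext hs1 hwS hw1.le g' gm' gi' gw' G Gm (fun j => le_Bx (Gc j)) Gr'
        (Set.range x'') (Set.finite_range x'') ?_ x'' (G.eval w) hx''.ind hyG.2 B'' hB'' hx''m
        hyG.1 (fun i => ?_) ?_ ?_ JI_y
      · rintro _ ⟨i, rfl⟩
        exact ⟨hx''S i, (hx''.ind.lt i).le⟩
      · obtain ⟨b, hb, hb1⟩ := hβ1 i
        change x1 i ∈ _
        rw [hx1m i, hb, mul_comm]
        exact JI_mul (hwz'' _) (JI_monN hx''m (hne b hb1))
      · change c.y ∈ _
        rw [hym, hb0, mul_comm]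
        exact JI_mul (hwz'' _) (JI_monN hx''m (hne b0 hb01))
      · rintro _ ⟨i, rfl⟩
        refine ⟨0, fun j => by rw [Polynomial.coeff_zero]; exact zero_mem _, ?_⟩
        rw [Polynomial.eval_zero, sub_zero]
        exact JI_x i
    exact key F hFk g gm gi gw Gr
  have hB1n : ∀ z ∈ B'', ‖z‖ ≤ 1 := fun z hz => (hGs.le z hz).2
  -- comparison
  have hB'le : ∀ z ∈ B', z ∈ B'' := by
    intro z hz
    rw [hB'] at hz
    refine locV_closure_le B'' ?_ hinv'' hz
    rintro v (hv | ⟨i, rfl⟩ | hv)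
    · exact hcB'' _ (le_Bx hv)
    · obtain ⟨b, -, hb⟩ := TU.Mt.x_eq hx' hx'' i
      rw [hb]
      unfold monN
      exact prod_mem fun l _ => pow_mem (hx''m l) _
    · rw [Set.mem_singleton_iff.1 hv]
      exact hw''
  have hBx : Bx B' x'' = B'' := by
    have hwB' : w ∈ B' := by
      rw [hB']
      exact subset_locV_closure (Or.inr (Or.inr rfl))
    apply le_antisymm
    · intro z hz
      exact Bx_le B'' hB'le hx''m hinv'' hz
    · intro z hz
      rw [hB''] at hz
      refine locV_closure_le (Bx B' x'') ?_ (fun v hv hv1 => inv_mem_Bx hv hv1) hz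
      have hwzx : ∀ n : ℤ, w ^ n ∈ Bx B' x'' := by
        intro n
        cases n with
        | ofNat n =>
          rw [Int.ofNat_eq_natCast, zpow_natCast]
          exact pow_mem (le_Bx hwB') n
        | negSucc n =>
          rw [zpow_negSucc]
          exact inv_mem_Bx (pow_mem (le_Bx hwB') _) (by rw [norm_pow, hw1, one_pow])
      rintro v (hv | ⟨i, rfl⟩ | hv)
      · refine Bx_le (Bx B' x'') (fun u hu => le_Bx ?_) (fun i => ?_)
          (fun u hu hu1 => inv_mem_Bx hu hu1) hv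
        · rw [hB']
          exact subset_locV_closure (Or.inl hu)
        · obtain ⟨b, hb, -⟩ := hβ1 i
          rw [hx1m i, hb]
          exact mul_mem (monN_mem_Bx b) (hwzx _)
      · exact x_mem_Bx i
      · rw [Set.mem_singleton_iff.1 hv]
        exact le_Bx hwB'
  have hgd' : Gd S (⟨B', x', G.eval w⟩ : Tri W r) := by
    refine ⟨hx', hyG.2, fun i => ?_, ?_, ?_, x'', hx'', ?_⟩
    · change x' i ∈ B'
      rw [hB']
      exact subset_locV_closure (Or.inr (Or.inl ⟨i, rfl⟩))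
    · change G.eval w ∈ B'
      have hcB' : ∀ z ∈ c.B, z ∈ B' := fun z hz => by
        rw [hB']
        exact subset_locV_closure (Or.inl hz)
      have hwB' : w ∈ B' := by
        rw [hB']
        exact subset_locV_closure (Or.inr (Or.inr rfl))
      rw [Polynomial.eval_eq_sum_range]
      exact sum_mem fun j _ => mul_mem (hcB' _ (Gc j)) (pow_mem hwB' _)
    · change ∃ G : Finset W, B' = _
      rw [hB']
      exact fg_ext _ ((Set.finite_range x').union (Set.finite_singleton w)) hc.fg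
    · change Gs S (⟨Bx B' x'', x'', G.eval w⟩ : Tri W r)
      rw [hBx]
      exact hGs
  exact ⟨⟨B', x', G.eval w⟩, e, β, w, g, G, T, ⟨hc, hgd', hF, he, hw1, hwB, hT, hm, gm, gi, gw,
    Gm, Gc, Gr, rfl, hB'⟩, hnn, Gτ, Gd', he1⟩

end

end Pool.Agent.Lib.MX
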