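import Mathlib

/-!
# Module MX.InPrim (residue characteristic `p`): a generator of the inertia field

`I` as in `exists_inertia`.
(1) There is `z0 ∈ N`, `‖z0‖ ≤ 1`, `‖g z0 - z0‖ = 1` for all `g ∉ I`: let `κ` be the residue field of the
valuation ring of `N` (or: of the subring `{z | ‖z‖ ≤ 1}`), `G` acts on `κ` by ring automorphisms, and
`g` acts trivially iff `g ∈ I`.  `κ` is a finite Galois extension of the fixed field
(`FixedPoints.subfield`), a primitive element (`Field.exists_primitive_element`) has pairwise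
different images under the group of automorphisms `G / I`; lift it to `z0`.
(2) `card I = p^a * n`, `p ∤ n`.  `Q := ∏_(τ ∈ I) (T - τ z0)`, fixed by `I`; residually
`Q = (T - z̄0)^(p^a n) = (T^(p^a) - z̄0^(p^a))^n`.  Let `z` be the coefficient of `Q` at `T^(p^a (n - 1))`:
`z ∈ N^I`, `‖z‖ ≤ 1`, residually `z = - n z̄0^(p^a)`.  For `g ∉ I`: `g z - z` is residually
`- n (g z̄0 - z̄0)^(p^a) ≠ 0`, so `‖g z - z‖ = 1`.
-/

namespace Pool.Agent.Lib.MX

section
variable (N : Type) [NormedField N] [IsUltrametricDist N]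

/-- unit ball -/
private def ooI : Subring N where
  carrier := {z | ‖z‖ ≤ 1}
  mul_mem' := fun {a b} ha hb => by
    show ‖a * b‖ ≤ 1
    rw [norm_mul]
    exact mul_le_one₀ ha (norm_nonneg _) hb
  one_mem' := by simp
  add_mem' := fun {a b} ha hb =>
    (IsUltrametricDist.norm_add_le_max a b).trans (max_le ha hb)
  zero_mem' := by simp
  neg_mem' := fun {a} ha => by
    show ‖-a‖ ≤ 1
    rw [norm_neg]; exact ha

/-- its maximal ideal -/
private def mmI : Ideal (ooI N) where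
  carrier := {z | ‖(z : N)‖ < 1}
  add_mem' := fun {a b} ha hb =>
    (IsUltrametricDist.norm_add_le_max (a : N) (b : N)).trans_lt (max_lt ha hb)
  zero_mem' := by simp
  smul_mem' := fun c {x} hx => by
    show ‖((c • x : ooI N) : N)‖ < 1
    rw [smul_eq_mul, Subring.coe_mul, norm_mul]
    calc ‖(c : N)‖ * ‖(x : N)‖ ≤ 1 * ‖(x : N)‖ :=
          mul_le_mul_of_nonneg_right c.2 (norm_nonneg _)
      _ < 1 := by rw [one_mul]; exact hx

private theorem mem_mmI (z : ooI N) : z ∈ mmI N ↔ ‖(z : N)‖ < 1 := Iff.rfl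

private theorem mmI_max : (mmI N).IsMaximal := by
  rw [Ideal.isMaximal_iff]
  refine ⟨?_, ?_⟩
  · rw [mem_mmI]; simp
  · intro J x hJ hx hxJ
    have h1 : ‖(x : N)‖ = 1 := le_antisymm x.2 (not_lt.1 hx)
    have hx0 : (x : N) ≠ 0 := by
      intro h0; rw [h0, norm_zero] at h1; exact zero_ne_one h1
    have hinv : ‖((x : N))⁻¹‖ ≤ 1 := by rw [norm_inv, h1, inv_one]
    have : (1 : ooI N) = ⟨(x : N)⁻¹, hinv⟩ * x := by
      apply Subtype.ext
      show (1 : N) = (x : N)⁻¹ * x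
      rw [inv_mul_cancel₀ hx0]
    rw [this]
    exact J.mul_mem_left _ hxJ

end

section
variable {A N : Type} [Field A] [NormedField N] [IsUltrametricDist N] [Algebra A N]

/-- the action of the Galois group on the unit ball -/
private def actO (hiso : ∀ (σ : N ≃ₐ[A] N) (z : N), ‖σ z‖ = ‖z‖) :
    MulSemiringAction (N ≃ₐ[A] N) (ooI N) where
  smul g x := ⟨g x, by show ‖g x‖ ≤ 1; rw [hiso]; exact x.2⟩
  one_smul x := Subtype.ext rfl
  mul_smul g h x := Subtype.ext rfl
  smul_zero g := Subtype.ext (map_zero g)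
  smul_add g x y := Subtype.ext (map_add g _ _)
  smul_one g := Subtype.ext (map_one g)
  smul_mul g x y := Subtype.ext (map_mul g _ _)

/-- the action as ring homs -/
private def homO (hiso : ∀ (σ : N ≃ₐ[A] N) (z : N), ‖σ z‖ = ‖z‖) (g : N ≃ₐ[A] N) :
    ooI N →+* ooI N :=
  letI := actO hiso
  MulSemiringAction.toRingHom (N ≃ₐ[A] N) (ooI N) g

private theorem homO_coe (hiso : ∀ (σ : N ≃ₐ[A] N) (z : N), ‖σ z‖ = ‖z‖) (g : N ≃ₐ[A] N)
    (x : ooI N) : ((homO hiso g x : ooI N) : N) = g (x : N) := rfl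

private theorem homO_le (hiso : ∀ (σ : N ≃ₐ[A] N) (z : N), ‖σ z‖ = ‖z‖) (g : N ≃ₐ[A] N) :
    mmI N ≤ (mmI N).comap (homO hiso g) := by
  intro x hx
  rw [Ideal.mem_comap, mem_mmI, homO_coe, hiso]
  exact hx

/-- the action on the residue field -/
private def homQ (hiso : ∀ (σ : N ≃ₐ[A] N) (z : N), ‖σ z‖ = ‖z‖) (g : N ≃ₐ[A] N) :
    (ooI N ⧸ mmI N) →+* (ooI N ⧸ mmI N) :=
  Ideal.quotientMap (mmI N) (homO hiso g) (homO_le hiso g)

private theorem homQ_mk (hiso : ∀ (σ : N ≃ₐ[A] N) (z : N), ‖σ z‖ = ‖z‖) (g : N ≃ₐ[A] N)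
    (x : ooI N) : homQ hiso g (Ideal.Quotient.mk (mmI N) x) =
      Ideal.Quotient.mk (mmI N) (homO hiso g x) := rfl

private def actQ (hiso : ∀ (σ : N ≃ₐ[A] N) (z : N), ‖σ z‖ = ‖z‖) :
    MulSemiringAction (N ≃ₐ[A] N) (ooI N ⧸ mmI N) where
  smul g x := homQ hiso g x
  one_smul x := by
    obtain ⟨x, rfl⟩ := Ideal.Quotient.mk_surjective x
    rfl
  mul_smul g h x := by
    obtain ⟨x, rfl⟩ := Ideal.Quotient.mk_surjective x
    rfl
  smul_zero g := map_zero (homQ hiso g)
  smul_add g x y := map_add (homQ hiso g) x y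
  smul_one g := map_one (homQ hiso g)
  smul_mul g x y := map_mul (homQ hiso g) x y

/-- step 1: an element of the residue field with trivial stabilizer modulo inertia -/
private theorem exists_prim [FiniteDimensional A N]
    (hiso : ∀ (σ : N ≃ₐ[A] N) (z : N), ‖σ z‖ = ‖z‖) :
    ∃ a : ooI N ⧸ mmI N, ∀ g : N ≃ₐ[A] N, homQ hiso g a = a → ∀ x, homQ hiso g x = x := by
  have := mmI_max N
  let := Ideal.Quotient.field (mmI N)
  letI := actQ hiso
  have hsm : ∀ (g : N ≃ₐ[A] N) (x : ooI N ⧸ mmI N), g • x = homQ hiso g x := fun _ _ => rfl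
  obtain ⟨a, ha⟩ := Field.exists_primitive_element
    (FixedPoints.subfield (N ≃ₐ[A] N) (ooI N ⧸ mmI N)) (ooI N ⧸ mmI N)
  refine ⟨a, fun g hg x => ?_⟩
  have hx : x ∈ IntermediateField.adjoin
      (FixedPoints.subfield (N ≃ₐ[A] N) (ooI N ⧸ mmI N)) {a} := by rw [ha]; trivial
  induction hx using IntermediateField.adjoin_induction with
  | mem y hy => rw [Set.mem_singleton_iff.1 hy]; exact hg
  | algebraMap c => exact c.2 g
  | add y z _ _ h1 h2 => rw [map_add, h1, h2]
  | inv y _ h1 => rw [map_inv₀, h1]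
  | mul y z _ _ h1 h2 => rw [map_mul, h1, h2]

end

/-- See the header. -/
theorem exists_inertia_gen {A N : Type} [Field A] [NormedField N] [IsUltrametricDist N]
    [Algebra A N] [FiniteDimensional A N] [IsGalois A N] (p : ℕ) [Fact p.Prime]
    (hpN : ‖((p : ℕ) : N)‖ < 1)
    (hiso : ∀ (σ : N ≃ₐ[A] N) (z : N), ‖σ z‖ = ‖z‖) (I : Subgroup (N ≃ₐ[A] N))
    (hI : ∀ g, g ∈ I ↔ ∀ z : N, ‖z‖ ≤ 1 → ‖g z - z‖ < 1) :
    ∃ z : N, ‖z‖ ≤ 1 ∧ (∀ g ∈ I, g z = z) ∧ ∀ g, g ∉ I → ‖g z - z‖ = 1 := by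
  classical
  have := mmI_max N
  let := Ideal.Quotient.field (mmI N)
  have hp : p.Prime := Fact.out
  have : CharP (ooI N ⧸ mmI N) p := by
    apply (CharP.charP_iff_prime_eq_zero hp).2
    have h1 : ((p : ℕ) : ooI N ⧸ mmI N) = Ideal.Quotient.mk (mmI N) ((p : ℕ) : ooI N) := by
      rw [map_natCast]
    rw [h1, Ideal.Quotient.eq_zero_iff_mem, mem_mmI]
    have h2 : (((p : ℕ) : ooI N) : N) = ((p : ℕ) : N) := by push_cast; rfl
    rw [h2]
    exact hpN
  obtain ⟨a, ha⟩ := exists_prim hiso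
  obtain ⟨z0, rfl⟩ := Ideal.Quotient.mk_surjective a
  set π := Ideal.Quotient.mk (mmI N) with hπ
  have hIQ : ∀ g, g ∈ I → ∀ x, homQ hiso g x = x := by
    intro g hg x
    obtain ⟨x, rfl⟩ := Ideal.Quotient.mk_surjective x
    rw [homQ_mk, Ideal.Quotient.eq, mem_mmI]
    exact (hI g).1 hg x x.2
  have hnI : ∀ g, g ∉ I → homQ hiso g (π z0) ≠ π z0 := by
    intro g hg h1
    apply hg
    rw [hI]
    intro z hz
    have h2 := ha g h1 (π ⟨z, hz⟩)
    rw [homQ_mk, Ideal.Quotient.eq, mem_mmI] at h2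
    exact h2
  -- the order of I
  have : Fintype I := Fintype.ofFinite I
  obtain ⟨e, n, hpn, hcard⟩ := Nat.exists_eq_pow_mul_and_not_dvd
    (Fintype.card_ne_zero (α := I)) p hp.ne_one
  have hn0 : n ≠ 0 := by rintro rfl; exact hpn (dvd_zero p)
  -- the polynomial
  let Q : Polynomial (ooI N) := ∏ τ : I, (Polynomial.X - Polynomial.C (homO hiso τ z0))
  have hQinv : ∀ g ∈ I, Q.map (homO hiso g) = Q := by
    intro g hg
    show (∏ τ : I, (Polynomial.X - Polynomial.C (homO hiso τ z0))).map (homO hiso g) = _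
    rw [Polynomial.map_prod]
    refine Fintype.prod_equiv (Equiv.mulLeft (⟨g, hg⟩ : I)) _ _ fun τ => ?_
    rw [Polynomial.map_sub, Polynomial.map_X, Polynomial.map_C]
    rfl
  have hQres : Q.map π = (Polynomial.X - Polynomial.C (π z0)) ^ (p ^ e * n) := by
    show (∏ τ : I, (Polynomial.X - Polynomial.C (homO hiso τ z0))).map π = _
    rw [Polynomial.map_prod, ← hcard]
    have : ∀ τ : I, (Polynomial.X - Polynomial.C (homO hiso τ z0)).map π =
        Polynomial.X - Polynomial.C (π z0) := by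
      intro τ
      rw [Polynomial.map_sub, Polynomial.map_X, Polynomial.map_C]
      congr 2
      rw [← homQ_mk]
      exact hIQ τ τ.2 _
    rw [Finset.prod_congr rfl fun τ _ => this τ]
    simp
  set zc : ooI N := Q.coeff ((n - 1) * p ^ e) with hzc
  set w : ooI N ⧸ mmI N := (π z0) ^ (p ^ e) with hw
  have hres : π zc = -((n : ooI N ⧸ mmI N) * w) := by
    have h1 : π zc = (Q.map π).coeff ((n - 1) * p ^ e) := by rw [Polynomial.coeff_map]
    have h2 : (Polynomial.X - Polynomial.C (π z0)) ^ (p ^ e * n) =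
        Polynomial.expand _ (p ^ e) ((Polynomial.X - Polynomial.C w) ^ n) := by
      rw [pow_mul, sub_pow_char_pow, map_pow, map_sub, Polynomial.expand_X, Polynomial.expand_C,
        ← Polynomial.C_pow]
    rw [h1, hQres, h2, Polynomial.coeff_expand_mul (pow_pos hp.pos e),
      sub_eq_add_neg, ← Polynomial.C_neg, Polynomial.coeff_X_add_C_pow]
    have h3 : n - (n - 1) = 1 := by omega
    have h4 : n.choose (n - 1) = n := by
      rw [← Nat.choose_symm (Nat.sub_le n 1), h3, Nat.choose_one_right]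
    rw [h3, h4, pow_one]
    ring
  refine ⟨(zc : N), zc.2, ?_, ?_⟩
  · intro g hg
    have h1 : homO hiso g zc = zc := by
      have h2 : (Q.map (homO hiso g)).coeff ((n - 1) * p ^ e) = homO hiso g zc :=
        Polynomial.coeff_map _ _
      rw [← h2, hQinv g hg]
    exact congrArg Subtype.val h1
  · intro g hg
    have h1 : π (homO hiso g zc - zc) ≠ 0 := by
      rw [map_sub, ← homQ_mk]
      show homQ hiso g (π zc) - π zc ≠ 0
      rw [hres, map_neg, map_mul, map_natCast, hw, map_pow]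
      have h2 : -((n : ooI N ⧸ mmI N) * (homQ hiso g (π z0)) ^ (p ^ e)) -
          -((n : ooI N ⧸ mmI N) * (π z0) ^ (p ^ e)) =
          -((n : ooI N ⧸ mmI N) * (homQ hiso g (π z0) - π z0) ^ (p ^ e)) := by
        rw [sub_pow_char_pow]; ring
      rw [h2, neg_ne_zero]
      apply mul_ne_zero
      · intro h3
        exact hpn ((CharP.cast_eq_zero_iff _ p n).1 h3)
      · exact pow_ne_zero _ (sub_ne_zero.2 (hnI g hg))
    have h2 : ¬ ‖((homO hiso g zc - zc : ooI N) : N)‖ < 1 := by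
      intro h3
      exact h1 (Ideal.Quotient.eq_zero_iff_mem.2 h3)
    exact le_antisymm (homO hiso g zc - zc).2 (not_lt.1 h2)

end Pool.Agent.Lib.MX
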