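import Mathlib

/-!
# The dimension inequality over a discrete valuation ring (by Zariski's main theorem)

`O` is a discrete valuation ring with uniformizer `π`, `T` is a domain finitely generated over `O`,
`n` is a prime of `T` containing `π` whose residue field is algebraic over that of `O`.  If `T`
contains `r` elements algebraically independent over `O`, then `r + 1 ≤ height n`.
-/

open Polynomial

namespace Pool.Agent.Lib.MX

/-- A nonzero element of a prime `n` of height `≤ h` can be completed by `h - 1` elements to a system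
of parameters. -/
theorem exists_sys {T : Type} [CommRing T] [IsDomain T] [IsNoetherianRing T] (n : Ideal T)
    [n.IsPrime] (π : T) (hπn : π ∈ n) (hπ0 : π ≠ 0) {h : ℕ} (hh : n.height ≤ (h : ℕ∞)) :
    ∃ s : Finset T, s.card + 1 ≤ h ∧ n ∈ (Ideal.span (insert π (s : Set T))).minimalPrimes := by
  classical
  let Q := T ⧸ Ideal.span {π}
  let mk : T →+* Q := Ideal.Quotient.mk (Ideal.span {π})
  have hmk : Function.Surjective mk := Ideal.Quotient.mk_surjective
  have hle : Ideal.span {π} ≤ n := by
    rw [Ideal.span_singleton_le_iff_mem]; exact hπn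
  have hker : RingHom.ker mk = Ideal.span {π} := Ideal.mk_ker
  have hprime : (n.map mk).IsPrime :=
    Ideal.map_isPrime_of_surjective hmk (by rw [hker]; exact hle)
  have hcomap : (n.map mk).comap mk = n := Ideal.comap_map_mk hle
  obtain ⟨s', hs', hcard⟩ := Ideal.exists_finset_card_eq_height_of_isNoetherianRing (n.map mk)
  -- the height drops
  have hdrop : (n.map mk).height + 1 ≤ n.height := by
    obtain ⟨l, hl, hlen⟩ := (n.map mk).exists_ltSeries_length_eq_height
    have hmono : StrictMono (PrimeSpectrum.comap mk) := by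
      intro a b hab
      have hle' : PrimeSpectrum.comap mk a ≤ PrimeSpectrum.comap mk b := by
        intro x hx
        exact hab.le hx
      refine lt_of_le_of_ne hle' ?_
      intro heq
      exact hab.ne (PrimeSpectrum.comap_injective_of_surjective mk hmk heq)
    let l' : LTSeries (PrimeSpectrum T) := l.map (PrimeSpectrum.comap mk) hmono
    have hbot : (⟨⊥, Ideal.isPrime_bot⟩ : PrimeSpectrum T) < l'.head := by
      refine lt_of_le_of_ne bot_le ?_
      intro heq
      have h1 : π ∈ (l'.head).asIdeal := by
        show π ∈ (PrimeSpectrum.comap mk l.head).asIdeal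
        rw [PrimeSpectrum.comap_asIdeal, Ideal.mem_comap]
        have h2 : mk π = 0 := Ideal.Quotient.eq_zero_iff_mem.2 (Ideal.mem_span_singleton_self π)
        rw [h2]
        exact zero_mem _
      rw [← heq] at h1
      exact hπ0 ((Submodule.mem_bot T).1 h1)
    have hlast : (l'.cons ⟨⊥, Ideal.isPrime_bot⟩ hbot).last = ⟨n, inferInstance⟩ := by
      rw [RelSeries.last_cons]
      show PrimeSpectrum.comap mk l.last = _
      rw [hl]
      exact PrimeSpectrum.ext hcomap
    have h3 := Order.length_le_height_last (p := l'.cons ⟨⊥, Ideal.isPrime_bot⟩ hbot)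
    rw [hlast, ← PrimeSpectrum.height_eq_orderHeight] at h3
    have h4 : (l'.cons ⟨⊥, Ideal.isPrime_bot⟩ hbot).length = l.length + 1 := by
      show 0 + l.length + 1 = l.length + 1
      omega
    rw [h4] at h3
    rw [← hlen]
    exact_mod_cast h3
  -- lift the generators
  obtain ⟨g, hg⟩ := hmk.hasRightInverse
  refine ⟨s'.image g, ?_, ?_⟩
  · have h1 : ((s'.image g).card : ℕ∞) + 1 ≤ (h : ℕ∞) := by
      refine le_trans ?_ (hdrop.trans hh)
      rw [← hcard]
      gcongr
      exact Finset.card_image_le
    exact_mod_cast h1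
  · have hmap : (Ideal.span (insert π ((s'.image g : Finset T) : Set T))).map mk =
        Ideal.span (s' : Set Q) := by
      rw [Ideal.map_span, Set.image_insert_eq]
      have h2 : mk π = 0 := Ideal.Quotient.eq_zero_iff_mem.2 (Ideal.mem_span_singleton_self π)
      have h3 : mk '' ((s'.image g : Finset T) : Set T) = (s' : Set Q) := by
        rw [Finset.coe_image, ← Set.image_comp]
        have : (mk ∘ g) = id := funext hg
        rw [this, Set.image_id]
      rw [h2, h3]
      refine le_antisymm ?_ (Ideal.span_mono (Set.subset_insert _ _))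
      rw [Ideal.span_le]
      rintro x (rfl | hx)
      · exact zero_mem _
      · exact Ideal.subset_span hx
    have hle2 : Ideal.span (insert π ((s'.image g : Finset T) : Set T)) ≤ n := by
      rw [← hcomap, ← Ideal.map_le_iff_le_comap, hmap]
      exact hs'.1.2
    refine ⟨⟨inferInstance, hle2⟩, ?_⟩
    rintro q ⟨hq, hqs⟩ hqn
    have hπq : Ideal.span {π} ≤ q := by
      rw [Ideal.span_singleton_le_iff_mem]
      exact hqs (Ideal.subset_span (Set.mem_insert _ _))
    have hq' : (q.map mk).IsPrime :=
      Ideal.map_isPrime_of_surjective hmk (by rw [hker]; exact hπq)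
    have h5 := hs'.2 ⟨hq', by rw [← hmap]; exact Ideal.map_mono hqs⟩ (Ideal.map_mono hqn)
    calc n = (n.map mk).comap mk := hcomap.symm
      _ ≤ (q.map mk).comap mk := Ideal.comap_mono h5
      _ = q := Ideal.comap_map_mk hπq

/-- The residue ring of `T` at `n` is a field. -/
theorem isMaximal_of_alg {O T : Type} [CommRing O] [IsLocalRing O] [CommRing T] [Algebra O T]
    (n : Ideal T) [n.IsPrime]
    (hOn : ∀ a : O, ¬ IsUnit a → algebraMap O T a ∈ n)
    (halg : ∀ t : T, ∃ f : O[X], (∃ i, IsUnit (f.coeff i)) ∧ aeval t f ∈ n) : n.IsMaximal := by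
  classical
  rw [Ideal.Quotient.maximal_ideal_iff_isField_quotient]
  refine ⟨⟨0, 1, zero_ne_one⟩, mul_comm, ?_⟩
  intro a ha
  obtain ⟨t, rfl⟩ := Ideal.Quotient.mk_surjective a
  have htn : t ∉ n := fun h => ha (Ideal.Quotient.eq_zero_iff_mem.2 h)
  obtain ⟨f, hf, hft⟩ := halg t
  -- the smallest index of a unit coefficient
  let i := Nat.find hf
  have hi : IsUnit (f.coeff i) := Nat.find_spec hf
  have hlt : ∀ j < i, ¬ IsUnit (f.coeff j) := fun j hj => Nat.find_min hf hj
  -- `f = ∑_{j < i} + X ^ i * g`
  have hsum : ∃ g : O[X], aeval t f - t ^ i * aeval t g ∈ n ∧ g.coeff 0 = f.coeff i := by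
    refine ⟨(Polynomial.divX^[i]) f, ?_, ?_⟩
    · have key : ∀ m : ℕ, m ≤ i → aeval t f - t ^ m * aeval t ((Polynomial.divX^[m]) f) ∈ n ∧
          ∀ j, ((Polynomial.divX^[m]) f).coeff j = f.coeff (j + m) := by
        intro m
        induction m with
        | zero =>
          intro _
          refine ⟨?_, fun j => by simp⟩
          simp
        | succ m ih =>
          intro hm
          obtain ⟨h1, h2⟩ := ih (by omega)
          have h3 : ∀ j, ((Polynomial.divX^[m+1]) f).coeff j = f.coeff (j + (m + 1)) := by
            intro j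
            rw [Function.iterate_succ_apply', Polynomial.coeff_divX, h2]
            congr 1; omega
          refine ⟨?_, h3⟩
          have h4 : (Polynomial.divX^[m]) f =
              Polynomial.divX ((Polynomial.divX^[m]) f) * X + C (((Polynomial.divX^[m]) f).coeff 0) :=
            (Polynomial.divX_mul_X_add _).symm
          have h5 : aeval t ((Polynomial.divX^[m]) f) =
              aeval t ((Polynomial.divX^[m+1]) f) * t + algebraMap O T (f.coeff m) := by
            rw [Function.iterate_succ_apply']
            conv_lhs => rw [h4]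
            rw [map_add, map_mul, aeval_X, aeval_C, h2, Nat.zero_add]
          have h6 : algebraMap O T (f.coeff m) ∈ n := hOn _ (hlt m (by omega))
          have h7 : aeval t f - t ^ (m+1) * aeval t ((Polynomial.divX^[m+1]) f) =
              (aeval t f - t ^ m * aeval t ((Polynomial.divX^[m]) f)) +
                t ^ m * algebraMap O T (f.coeff m) := by
            rw [h5]; ring
          rw [h7]
          exact n.add_mem h1 (n.mul_mem_left _ h6)
      exact (key i le_rfl).1
    · have key : ∀ m : ℕ, ∀ j, ((Polynomial.divX^[m]) f).coeff j = f.coeff (j + m) := by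
        intro m
        induction m with
        | zero => intro j; simp
        | succ m ih =>
          intro j
          rw [Function.iterate_succ_apply', Polynomial.coeff_divX, ih]
          congr 1; omega
      rw [key, Nat.zero_add]
  obtain ⟨g, hg, hg0⟩ := hsum
  have h1 : t ^ i * aeval t g ∈ n := by
    have := n.sub_mem hft hg
    simpa using this
  have h2 : aeval t g ∈ n := by
    rcases (inferInstance : n.IsPrime).mem_or_mem h1 with h | h
    · exact absurd ((inferInstance : n.IsPrime).mem_of_pow_mem _ h) htn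
    · exact h
  obtain ⟨u, hu⟩ := hi
  have h3 : aeval t g = aeval t (Polynomial.divX g) * t + algebraMap O T (f.coeff i) := by
    conv_lhs => rw [← Polynomial.divX_mul_X_add g]
    rw [map_add, map_mul, aeval_X, aeval_C, hg0]
  refine ⟨Ideal.Quotient.mk n (- aeval t (Polynomial.divX g) * algebraMap O T (↑u⁻¹ : O)), ?_⟩
  rw [← map_mul, ← map_one (Ideal.Quotient.mk n), Ideal.Quotient.eq]
  have h4 : algebraMap O T (f.coeff i) * algebraMap O T (↑u⁻¹ : O) = 1 := by
    rw [← map_mul, ← hu, Units.mul_inv, map_one]
  have h5 : t * (- aeval t (Polynomial.divX g) * algebraMap O T (↑u⁻¹ : O)) - 1 =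
      - (algebraMap O T (↑u⁻¹ : O)) * aeval t g := by
    rw [h3]
    linear_combination h4
  rw [h5]
  exact n.mul_mem_left _ h2

theorem dim_ge {O T : Type} [CommRing O] [IsDomain O] [IsDiscreteValuationRing O] [CommRing T]
    [IsDomain T] [Algebra O T] [Algebra.FiniteType O T] (n : Ideal T) [n.IsPrime]
    (hOn : ∀ a : O, ¬ IsUnit a → algebraMap O T a ∈ n)
    (halg : ∀ t : T, ∃ f : O[X], (∃ i, IsUnit (f.coeff i)) ∧ aeval t f ∈ n)
    {r : ℕ} (z : Fin r → T) (hz : AlgebraicIndependent O z) :
    ((r + 1 : ℕ) : ℕ∞) ≤ n.height := by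
  classical
  have hTn : IsNoetherianRing T := Algebra.FiniteType.isNoetherianRing O T
  have hmax : n.IsMaximal := isMaximal_of_alg n hOn halg
  have hinj : Function.Injective (algebraMap O T) := hz.algebraMap_injective
  obtain ⟨ϖ, hϖ⟩ := IsDiscreteValuationRing.exists_irreducible O
  have hϖ0 : algebraMap O T ϖ ≠ 0 := by
    rw [Ne, map_eq_zero_iff _ hinj]
    exact hϖ.ne_zero
  by_contra hcon
  rw [not_le] at hcon
  have hh : n.height ≤ (r : ℕ∞) := by
    have h1 : n.height < (r : ℕ∞) + 1 := by exact_mod_cast hcon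
    exact Order.le_of_lt_add_one h1
  obtain ⟨s, hs, hmin⟩ := exists_sys n (algebraMap O T ϖ) (hOn ϖ hϖ.not_isUnit) hϖ0 hh
  let R := MvPolynomial s O
  let f : R →ₐ[O] T := MvPolynomial.aeval (fun i : s => (i : T))
  let algRT : Algebra R T := f.toRingHom.toAlgebra
  have tower : IsScalarTower O R T := IsScalarTower.of_algebraMap_eq (fun a => by
    show algebraMap O T a = f (algebraMap O R a)
    rw [AlgHom.commutes])
  have : Algebra.FiniteType R T := Algebra.FiniteType.of_restrictScalars_finiteType O R T
  -- the fibre through `n`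
  let q : PrimeSpectrum T := ⟨n, inferInstance⟩
  have hfib : ∀ Q : PrimeSpectrum T, PrimeSpectrum.comap (algebraMap R T) Q =
      PrimeSpectrum.comap (algebraMap R T) q →
      Ideal.span (insert (algebraMap O T ϖ) (s : Set T)) ≤ Q.asIdeal := by
    intro Q hQ
    have key : ∀ a : R, algebraMap R T a ∈ n → algebraMap R T a ∈ Q.asIdeal := by
      intro a ha
      have h1 : a ∈ (PrimeSpectrum.comap (algebraMap R T) q).asIdeal := ha
      rw [← hQ] at h1
      exact h1
    rw [Ideal.span_le]
    rintro x (rfl | hx)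
    · have h1 : algebraMap O T ϖ = algebraMap R T (algebraMap O R ϖ) :=
        IsScalarTower.algebraMap_apply O R T ϖ
      rw [SetLike.mem_coe, h1]
      apply key
      rw [← h1]
      exact hOn ϖ hϖ.not_isUnit
    · have h1 : x = algebraMap R T (MvPolynomial.X ⟨x, hx⟩) := by
        show x = f (MvPolynomial.X ⟨x, hx⟩)
        rw [MvPolynomial.aeval_X]
      rw [SetLike.mem_coe, h1]
      apply key
      rw [← h1]
      exact hmin.1.2 (Ideal.subset_span (Set.mem_insert_of_mem _ hx))
  -- an element of all other minimal primes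
  obtain ⟨e, hen, he⟩ : ∃ e ∉ n, ∀ Q ∈ (Ideal.span (insert (algebraMap O T ϖ)
      (s : Set T))).minimalPrimes, Q ≠ n → e ∈ Q := by
    have hfin := (Ideal.span (insert (algebraMap O T ϖ)
      (s : Set T))).finite_minimalPrimes_of_isNoetherianRing
    let F : Finset (Ideal T) := hfin.toFinset.erase n
    have hF : ∀ Q ∈ F, ∃ x ∈ Q, x ∉ n := by
      intro Q hQ
      rw [Finset.mem_erase, Set.Finite.mem_toFinset] at hQ
      by_contra hc
      push Not at hc
      have h1 : Q ≤ n := hc
      exact hQ.1 (le_antisymm h1 (hmin.2 ⟨hQ.2.1.1, hQ.2.1.2⟩ h1))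
    choose! x hx hxn using hF
    refine ⟨∏ Q ∈ F, x Q, ?_, ?_⟩
    · intro h
      obtain ⟨Q, hQ, h1⟩ := (Ideal.IsPrime.prod_mem_iff (hp := inferInstanceAs n.IsPrime)).1 h
      exact hxn Q hQ h1
    · intro Q hQ hQn
      have hQF : Q ∈ F := by
        rw [Finset.mem_erase, Set.Finite.mem_toFinset]
        exact ⟨hQn, hQ⟩
      exact Ideal.mem_of_dvd Q (Finset.dvd_prod_of_mem x hQF) (hx Q hQF)
  have hqf : Algebra.QuasiFiniteAt R q.asIdeal := by
    apply Algebra.QuasiFiniteAt.of_isOpen_singleton_fiber
    rw [isOpen_induced_iff]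
    refine ⟨PrimeSpectrum.basicOpen e, PrimeSpectrum.isOpen_basicOpen, ?_⟩
    ext ⟨Q, hQ⟩
    constructor
    · intro h1
      apply Subtype.ext
      have h2 : e ∉ Q.asIdeal := h1
      obtain ⟨Q', hQ', hle⟩ := Ideal.exists_minimalPrimes_le (hfib Q hQ)
      have h3 : Q' = n := by
        by_contra hne
        exact h2 (hle (he Q' hQ' hne))
      apply PrimeSpectrum.ext
      show Q.asIdeal = n
      rw [h3] at hle
      exact (hmax.eq_of_le Q.isPrime.ne_top hle).symm
    · intro h1
      have h2 : Q = q := congrArg Subtype.val h1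
      subst h2
      exact hen
  have : Algebra.QuasiFiniteAt R n := hqf
  obtain ⟨ρ, hρ, hρi, hfrac⟩ := Algebra.zariskisMainProperty_iff.1
    (Algebra.ZariskisMainProperty.of_finiteType (R := R) n)
  have hρ0 : ρ ≠ 0 := fun h => hρ (by rw [h]; exact zero_mem _)
  -- algebraicity over the image of `R`
  have hadj : ∀ a : R, algebraMap R T a ∈ Algebra.adjoin O (s : Set T) := by
    intro a
    show f a ∈ _
    have h1 : f a ∈ (MvPolynomial.aeval (R := O) (fun i : s => (i : T))).range := ⟨a, rfl⟩
    rw [← Algebra.adjoin_range_eq_range_aeval] at h1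
    refine Algebra.adjoin_mono ?_ h1
    rintro _ ⟨i, rfl⟩
    exact i.2
  have halgT : Algebra.IsAlgebraic (Algebra.adjoin O (s : Set T)) T := by
    have hintA : ∀ a : T, IsIntegral R a → IsAlgebraic (Algebra.adjoin O (s : Set T)) a := by
      rintro a ⟨F, hFm, hF⟩
      let j : R →+* Algebra.adjoin O (s : Set T) :=
        (algebraMap R T).codRestrict (Algebra.adjoin O (s : Set T)) hadj
      refine ⟨F.map j, (hFm.map j).ne_zero, ?_⟩
      rw [Polynomial.aeval_def, Polynomial.eval₂_map]
      exact hF
    refine ⟨fun t => ?_⟩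
    obtain ⟨m, hm⟩ := hfrac t
    have h1 := hintA _ hm
    have h2 : IsAlgebraic (Algebra.adjoin O (s : Set T)) (ρ ^ m) := hintA _ (hρi.pow m)
    exact h2.of_mul (mem_nonZeroDivisors_of_ne_zero (pow_ne_zero m hρ0)) h1
  have h1 : Algebra.trdeg O T ≤ Cardinal.mk (s : Set T) :=
    Algebra.IsAlgebraic.trdeg_le_cardinalMk O (s : Set T)
  have h2 := hz.cardinalMk_le_trdeg
  have h3 : ((r : ℕ) : Cardinal.{0}) ≤ (s.card : Cardinal.{0}) := by
    have := h2.trans h1
    simpa using this
  have h4 : r ≤ s.card := by exact_mod_cast h3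
  omega

end Pool.Agent.Lib.MX
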