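import Pool.Agent.Lib.MX.EDefs
import Pool.Agent.Lib.MX.BxB
import Pool.Agent.Lib.MX.DimZ
import Pool.Agent.Lib.TDO.BDefs
import Pool.Agent.Lib.MP_3029eb_ag.AbhC4
import Pool.Agent.Lib.MP_3029eb_ag.AbhBase

/-!
# Module Dim: lower bound for the dimension of good rings (paper 1.1, 1.2)
-/

namespace Pool.Agent.Lib.MX

open Pool.Agent.Lib.MP_3029eb_ag Pool.Agent.Lib.MP_3029eb_ag.Abh Pool.Agent.Lib.TDO

/-- The ring of the elements of `E` of norm at most one, as a subring of `E`. -/
def OE (E W : Type) [Field E] [NormedField W] [IsUltrametricDist W] [Algebra E W] : Subring E :=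
  (ball W).toSubring.comap (algebraMap E W)

variable {E W : Type} [Field E] [NormedField W] [IsUltrametricDist W] [Algebra E W] {p r : ℕ}
  {S : IntermediateField E W}

theorem mem_OE {e : E} : e ∈ OE E W ↔ ‖algebraMap E W e‖ ≤ 1 := Iff.rfl

theorem mem_Lam {z : W} : z ∈ Lam E W ↔ (∃ e : E, algebraMap E W e = z) ∧ ‖z‖ ≤ 1 := Iff.rfl

private theorem Dim_p (hA : AmbE p r E W) : (p : W) ≠ 0 := by
  have := hA.char0
  exact Nat.cast_ne_zero.2 hA.prime.ne_zero

private theorem Dim_pow (hA : AmbE p r E W) {n : ℤ} (h : ‖(p : W)‖ ^ n ≤ 1) : 0 ≤ n := by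
  by_contra hn
  rw [not_le] at hn
  have h0 : 0 < ‖(p : W)‖ := norm_pos_iff.2 (Dim_p hA)
  have h1 : 1 < ‖(p : W)‖ ^ n := one_lt_zpow_of_neg₀ h0 hA.p1 hn
  exact absurd h (not_le.2 h1)

private theorem Dim_unit (e : OE E W) : IsUnit e ↔ ‖algebraMap E W (e : E)‖ = 1 := by
  constructor
  · rintro ⟨u, rfl⟩
    have h1 : ‖algebraMap E W ((u : OE E W) : E)‖ * ‖algebraMap E W ((↑u⁻¹ : OE E W) : E)‖ = 1 := by
      rw [← norm_mul, ← map_mul]
      have h2 : ((u : OE E W) : E) * ((↑u⁻¹ : OE E W) : E) = 1 := by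
        have := congrArg Subtype.val u.mul_inv
        exact this
      rw [h2, map_one, norm_one]
    have h3 := mem_OE.1 (u : OE E W).2
    have h4 := mem_OE.1 (↑u⁻¹ : OE E W).2
    have h5 := norm_nonneg (algebraMap E W ((u : OE E W) : E))
    nlinarith
  · intro h
    have h0 : (e : E) ≠ 0 := by
      intro h0
      rw [h0, map_zero, norm_zero] at h
      exact zero_ne_one h
    refine IsUnit.of_mul_eq_one ⟨(e : E)⁻¹, ?_⟩ ?_
    · rw [mem_OE, map_inv₀, norm_inv, h, inv_one]
    · exact Subtype.ext (mul_inv_cancel₀ h0)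

theorem oe_dvr (hA : AmbE p r E W) : IsDiscreteValuationRing (OE E W) := by
  have hp0 : 0 < ‖(p : W)‖ := norm_pos_iff.2 (Dim_p hA)
  have hpn : ∀ n : ℕ, ‖algebraMap E W (((p : OE E W) ^ n : OE E W) : E)‖ = ‖(p : W)‖ ^ n := by
    intro n
    push_cast
    rw [norm_pow]
  apply IsDiscreteValuationRing.ofHasUnitMulPowIrreducibleFactorization
  refine ⟨(p : OE E W), ⟨?_, ?_⟩, ?_⟩
  · rw [Dim_unit]
    have := hpn 1
    rw [pow_one, pow_one] at this
    rw [this]
    exact hA.p1.ne
  · intro a b hab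
    have ha0 : (a : E) ≠ 0 := by
      intro h
      have h1 := congrArg (fun z : OE E W => ‖algebraMap E W (z : E)‖) hab
      have h2 := hpn 1
      rw [pow_one, pow_one] at h2
      simp only [h2, Subring.coe_mul, h, zero_mul, map_zero, norm_zero] at h1
      exact hp0.ne' h1
    have hb0 : (b : E) ≠ 0 := by
      intro h
      have h1 := congrArg (fun z : OE E W => ‖algebraMap E W (z : E)‖) hab
      have h2 := hpn 1
      rw [pow_one, pow_one] at h2
      simp only [h2, Subring.coe_mul, h, mul_zero, map_zero, norm_zero] at h1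
      exact hp0.ne' h1
    obtain ⟨m, hm⟩ := hA.dvr a ha0
    obtain ⟨n, hn⟩ := hA.dvr b hb0
    have hm0 : 0 ≤ m := Dim_pow hA (by rw [← hm]; exact a.2)
    have hn0 : 0 ≤ n := Dim_pow hA (by rw [← hn]; exact b.2)
    have h1 : ‖(p : W)‖ ^ (m + n) = ‖(p : W)‖ ^ (1 : ℤ) := by
      rw [zpow_add₀ hp0.ne', ← hm, ← hn, ← norm_mul, ← map_mul, zpow_one]
      have h2 := hpn 1
      rw [pow_one, pow_one, hab] at h2
      exact h2
    have h2 : m + n = 1 := zpow_right_injective₀ hp0 hA.p1.ne h1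
    rcases (show m = 0 ∨ n = 0 by omega) with h3 | h3
    · left
      rw [Dim_unit, hm, h3, zpow_zero]
    · right
      rw [Dim_unit, hn, h3, zpow_zero]
  · intro x hx
    have hx0 : (x : E) ≠ 0 := fun h => hx (Subtype.ext h)
    obtain ⟨m, hm⟩ := hA.dvr x hx0
    have hm0 : 0 ≤ m := Dim_pow hA (by rw [← hm]; exact x.2)
    obtain ⟨n, rfl⟩ := Int.eq_ofNat_of_zero_le hm0
    have hpE : ((p : E)) ≠ 0 := by
      intro h
      apply Dim_p hA
      rw [← map_natCast (algebraMap E W), h, map_zero]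
    have hu1 : ‖algebraMap E W ((x : E) / (p : E) ^ n)‖ = 1 := by
      rw [map_div₀, norm_div, map_pow, map_natCast, norm_pow, hm, zpow_natCast]
      exact div_self (pow_ne_zero _ hp0.ne')
    have hu : IsUnit (⟨(x : E) / (p : E) ^ n, hu1.le⟩ : OE E W) := (Dim_unit _).2 hu1
    refine ⟨n, hu.unit, ?_⟩
    apply Subtype.ext
    rw [Subring.coe_mul]
    push_cast
    exact mul_div_cancel₀ _ (pow_ne_zero _ hpE)

private theorem Dim_range : Set.range (algebraMap (OE E W) W) = (Lam E W : Set W) := by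
  ext z
  constructor
  · rintro ⟨e, rfl⟩
    exact ⟨⟨(e : E), rfl⟩, e.2⟩
  · rintro ⟨⟨e, rfl⟩, he⟩
    exact ⟨⟨e, he⟩, rfl⟩

private theorem Dim_le (G : Finset W) (hG : ∀ g ∈ G, ‖g‖ ≤ 1) :
    Subring.closure ((Lam E W : Set W) ∪ (G : Set W)) ≤ (ball W).toSubring := by
  rw [Subring.closure_le]
  rintro z (hz | hz)
  · exact hz.2
  · exact hG z hz

theorem lam_noeth (hA : AmbE p r E W) : IsNoetherianRing (Lam E W) := by
  have := oe_dvr hA
  let f : OE E W →+* Lam E W := (algebraMap (OE E W) W).codRestrict (Lam E W) (fun e => by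
    have : algebraMap (OE E W) W e ∈ Set.range (algebraMap (OE E W) W) := ⟨e, rfl⟩
    rwa [Dim_range] at this)
  refine isNoetherianRing_of_surjective (OE E W) (Lam E W) f ?_
  rintro ⟨z, hz⟩
  obtain ⟨e, he⟩ : z ∈ Set.range (algebraMap (OE E W) W) := by rw [Dim_range]; exact hz
  exact ⟨e, Subtype.ext he⟩

/-- Rings essentially of finite type over `Λ` are noetherian and local. -/
theorem noeth_X (hA : AmbE p r E W) (G : Finset W) (hG : ∀ g ∈ G, ‖g‖ ≤ 1) :
    IsNoetherianRing (locV (ball W) (Subring.closure ((Lam E W : Set W) ∪ (G : Set W)))) ∧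
      IsLocalRing (locV (ball W) (Subring.closure ((Lam E W : Set W) ∪ (G : Set W)))) := by
  have h1 := lam_noeth hA
  have h2 : IsNoetherianRing (Subring.closure ((Lam E W : Set W) ∪ (G : Set W))) :=
    isNoetherianRing_closure (A := Lam E W) G
  exact ⟨isNoetherianRing_locV (ball W), isLocalRing_locV (ball W) (Dim_le G hG)⟩

/-- Paper 1.1: the dimension is at least `r + 1`. -/
theorem dim_X (hA : AmbX p r S) (G : Finset W) (hG : ∀ g ∈ G, g ∈ S ∧ ‖g‖ ≤ 1)
    (halg : ∀ z ∈ S,
      IsAlgebraic (locV (ball W) (Subring.closure ((Lam E W : Set W) ∪ (G : Set W)))) z) :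
    ((r + 1 : ℕ) : WithBot ℕ∞) ≤
      ringKrullDim (locV (ball W) (Subring.closure ((Lam E W : Set W) ∪ (G : Set W)))) := by
  have hG1 : ∀ g ∈ G, ‖g‖ ≤ 1 := fun g hg => (hG g hg).2
  have hball := Dim_le (E := E) G hG1
  rw [C4_dim_locV (ball W) hball]
  set A0 := Subring.closure ((Lam E W : Set W) ∪ (G : Set W)) with hA0
  have hdvr := oe_dvr hA.ambE
  let T := Algebra.adjoin (OE E W) (G : Set W)
  have hCA : T.toSubring = A0 := by
    rw [Algebra.adjoin_eq_ring_closure, Dim_range]
  have hft : Algebra.FiniteType (OE E W) T := (Subalgebra.fg_iff_finiteType _).1 ⟨G, rfl⟩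
  have hTA : ∀ z : W, z ∈ T ↔ z ∈ A0 := by
    intro z
    rw [← hCA]; rfl
  let e : T ≃+* A0 :=
    { toFun := fun x => ⟨x.1, (hTA _).1 x.2⟩
      invFun := fun x => ⟨x.1, (hTA _).2 x.2⟩
      left_inv := fun x => rfl
      right_inv := fun x => rfl
      map_mul' := fun x y => rfl
      map_add' := fun x y => rfl }
  set M : Ideal T := (C3.cen (ball W) hball).comap e with hM
  have hMh : M.height = (C3.cen (ball W) hball).height := e.height_comap _
  have hmem : ∀ t : T, t ∈ M ↔ ‖(t : W)‖ < 1 := by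
    intro t
    rw [hM, Ideal.mem_comap, C3.mem_cen]
    exact ball_val_lt_one _
  have hprime : M.IsPrime := Ideal.comap_isPrime _ _
  rw [← hMh]
  -- `S` as an algebra over `T`
  have hTS : ∀ z ∈ T, z ∈ S := by
    intro z hz
    have h1 : T ≤ S.toSubalgebra.restrictScalars (OE E W) := by
      apply Algebra.adjoin_le
      intro g hg
      exact (hG g hg).1
    exact h1 hz
  let φ : T →+* S :=
    { toFun := fun t => ⟨t.1, hTS _ t.2⟩
      map_one' := rfl
      map_mul' := fun x y => rfl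
      map_zero' := rfl
      map_add' := fun x y => rfl }
  let i1 : Algebra T S := φ.toAlgebra
  have i2 : IsScalarTower (OE E W) T S := IsScalarTower.of_algebraMap_eq fun c => rfl
  have hφ : Function.Injective φ := fun a b h => Subtype.ext (congrArg (fun z : S => (z : W)) h)
  have i3 : FaithfulSMul T S := (faithfulSMul_iff_algebraMap_injective _ _).2 hφ
  have hOT : Function.Injective (algebraMap (OE E W) T) := by
    intro a b h
    have h1 := congrArg (fun z : T => (z : W)) h
    exact Subtype.ext ((algebraMap E W).injective h1)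
  have i4 : FaithfulSMul (OE E W) T := (faithfulSMul_iff_algebraMap_injective _ _).2 hOT
  have i5 : FaithfulSMul (OE E W) E := (faithfulSMul_iff_algebraMap_injective _ _).2
    (fun a b h => Subtype.ext h)
  have halgT : Algebra.IsAlgebraic T S := by
    have hB : ∀ b ∈ locV (ball W) A0, ∃ a d : T, (d : W) ≠ 0 ∧ b * d = a := by
      rintro b ⟨a, ha, d, hd, hd1, hab⟩
      refine ⟨⟨a, (hTA _).2 ha⟩, ⟨d, (hTA _).2 hd⟩, ?_, hab⟩
      intro h0
      have h1 : (ball W).valuation d = 1 := hd1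
      rw [show d = 0 from h0, map_zero] at h1
      exact zero_ne_one h1
    refine ⟨fun z => ?_⟩
    obtain ⟨P, hP0, hP⟩ := halg z z.2
    -- clear the denominators
    choose na da hda hnd using fun b : locV (ball W) A0 => hB b b.2
    let D : ℕ → T := fun i => da (P.coeff i)
    let D0 : T := ∏ i ∈ P.support, D i
    have hD0 : (D0 : W) ≠ 0 := by
      have h1 : (D0 : W) = ∏ i ∈ P.support, (D i : W) := by
        exact map_prod (T.val) _ _
      rw [h1, Finset.prod_ne_zero_iff]
      exact fun i _ => hda _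
    have hcoef : ∀ i, ∃ c : T, (c : W) = (D0 : W) * ((P.coeff i : locV (ball W) A0) : W) := by
      intro i
      by_cases hi : i ∈ P.support
      · refine ⟨(∏ j ∈ P.support.erase i, D j) * na (P.coeff i), ?_⟩
        have h1 : (D0 : W) = ((∏ j ∈ P.support.erase i, D j : T) : W) * (D i : W) := by
          have h2 : D0 = (∏ j ∈ P.support.erase i, D j) * D i :=
            (Finset.prod_erase_mul _ _ hi).symm
          rw [h2]; rfl
        rw [h1]
        have h3 := hnd (P.coeff i)
        show ((∏ j ∈ P.support.erase i, D j : T) : W) * (na (P.coeff i) : W) = _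
        rw [← h3]
        ring
      · refine ⟨0, ?_⟩
        rw [Polynomial.notMem_support_iff.1 hi]
        simp
    choose cf hcf using hcoef
    let Q : Polynomial T := ∑ i ∈ P.support, Polynomial.monomial i (cf i)
    have hQc : ∀ i, Q.coeff i = cf i := by
      intro i
      rw [Polynomial.finsetSum_coeff]
      simp only [Polynomial.coeff_monomial]
      rw [Finset.sum_ite_eq' P.support i cf]
      split_ifs with hi
      · rfl
      · apply Subtype.ext
        rw [hcf, Polynomial.notMem_support_iff.1 hi]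
        simp
    refine ⟨Q, ?_, ?_⟩
    · intro hQ0
      obtain ⟨i, hi⟩ : ∃ i, P.coeff i ≠ 0 := by
        by_contra hc
        push Not at hc
        exact hP0 (Polynomial.ext fun i => by rw [hc i, Polynomial.coeff_zero])
      have h1 := hQc i
      rw [hQ0, Polynomial.coeff_zero] at h1
      have h2 := hcf i
      rw [← h1] at h2
      have h3 : (D0 : W) * ((P.coeff i : locV (ball W) A0) : W) = 0 := h2.symm
      rcases mul_eq_zero.1 h3 with h4 | h4
      · exact hD0 h4
      · exact hi (Subtype.ext h4)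
    · apply Subtype.ext
      have h1 : ((Polynomial.aeval z Q : S) : W) = Polynomial.eval₂ T.val.toRingHom (z : W) Q := by
        rw [Polynomial.aeval_def]
        exact Polynomial.hom_eval₂ Q (algebraMap T S) (algebraMap S W) z
      rw [h1, Polynomial.eval₂_eq_sum_range, ZeroMemClass.coe_zero]
      have h2 : Polynomial.aeval (z : W) P =
          ∑ i ∈ Finset.range (P.natDegree + 1), ((P.coeff i : locV (ball W) A0) : W) * (z : W) ^ i := by
        rw [Polynomial.aeval_eq_sum_range]
        rfl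
      have hQd : Q.natDegree ≤ P.natDegree := by
        rw [Polynomial.natDegree_le_iff_coeff_eq_zero]
        intro N hN
        rw [hQc]
        apply Subtype.ext
        rw [hcf, Polynomial.coeff_eq_zero_of_natDegree_lt hN]
        simp
      have h3 : ∑ i ∈ Finset.range (Q.natDegree + 1), T.val.toRingHom (Q.coeff i) * (z : W) ^ i =
          ∑ i ∈ Finset.range (P.natDegree + 1), T.val.toRingHom (Q.coeff i) * (z : W) ^ i := by
        apply Finset.sum_subset (Finset.range_mono (by omega))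
        intro i _ hi
        rw [Finset.mem_range, not_lt] at hi
        rw [Polynomial.coeff_eq_zero_of_natDegree_lt (by omega), map_zero, zero_mul]
      rw [h3]
      have h4 : ∀ i, T.val.toRingHom (Q.coeff i) * (z : W) ^ i =
          (D0 : W) * (((P.coeff i : locV (ball W) A0) : W) * (z : W) ^ i) := by
        intro i
        rw [hQc]
        show (cf i : W) * _ = _
        rw [hcf]
        ring
      rw [Finset.sum_congr rfl fun i _ => h4 i, ← Finset.mul_sum, ← h2, hP, mul_zero]
  have halgE : Algebra.IsAlgebraic (OE E W) E := by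
    refine ⟨fun x => ?_⟩
    by_cases hx : x = 0
    · rw [hx]; exact isAlgebraic_zero
    rcases le_total ‖algebraMap E W x‖ 1 with h | h
    · exact isAlgebraic_algebraMap (⟨x, h⟩ : OE E W)
    · have h1 : ‖algebraMap E W x⁻¹‖ ≤ 1 := by
        rw [map_inv₀, norm_inv]; exact inv_le_one_of_one_le₀ h
      have h2 : IsAlgebraic (OE E W) (x⁻¹) := isAlgebraic_algebraMap (⟨x⁻¹, h1⟩ : OE E W)
      have h3 := h2.inv
      rwa [inv_inv] at h3
  have htr : Algebra.trdeg (OE E W) T = (r : Cardinal) := by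
    have h1 := _root_.trdeg_add_eq (OE E W) T (A := S)
    have h2 : Algebra.trdeg T S = 0 := _root_.trdeg_eq_zero
    have h3 := _root_.trdeg_add_eq (OE E W) E (A := S)
    have h4 : Algebra.trdeg (OE E W) E = 0 := _root_.trdeg_eq_zero
    rw [h2, add_zero] at h1
    rw [h4, zero_add, hA.trd] at h3
    rw [h1, h3]
  obtain ⟨ι, x, hx⟩ := exists_isTranscendenceBasis' (OE E W) T
  have hcard : Cardinal.mk ι = (r : Cardinal) := by rw [hx.cardinalMk_eq_trdeg, htr]
  obtain ⟨f⟩ : Nonempty (ι ≃ Fin r) := by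
    rw [← Cardinal.eq, hcard]; simp
  have hz : AlgebraicIndependent (OE E W) (x ∘ f.symm) := hx.1.comp _ f.symm.injective
  have hd := dim_ge (O := OE E W) (T := T) M ?_ ?_ (x ∘ f.symm) hz
  · exact_mod_cast hd
  · intro a ha
    rw [hmem]
    rw [Dim_unit] at ha
    exact lt_of_le_of_ne a.2 ha
  · intro t
    obtain ⟨P, hPm, hPc, hP⟩ := hA.res (t : W) (hball ((hTA _).1 t.2))
    have hc : ∀ j, ∃ c : OE E W, algebraMap (OE E W) W c = P.coeff j := by
      intro j
      have : P.coeff j ∈ Set.range (algebraMap (OE E W) W) := by rw [Dim_range]; exact hPc j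
      exact this
    have hlift : P ∈ Polynomial.lifts (algebraMap (OE E W) W) := by
      rw [Polynomial.lifts_iff_coeff_lifts]
      exact hc
    obtain ⟨Q, hQ, -, hQm⟩ := Polynomial.lifts_and_natDegree_eq_and_monic hlift hPm
    refine ⟨Q, ⟨Q.natDegree, ?_⟩, ?_⟩
    · have : Q.coeff Q.natDegree = 1 := hQm
      rw [this]; exact isUnit_one
    · rw [hmem]
      have h1 : ((Polynomial.aeval t Q : T) : W) = P.eval (t : W) := by
        rw [← hQ, Polynomial.eval_map, Polynomial.aeval_def]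
        exact Polynomial.hom_eval₂ Q (algebraMap (OE E W) T) (T.val.toRingHom) t
      rw [h1]
      exact hP

theorem gs_noeth (hA : AmbX p r S) {c : Tri W r} (hc : Gs S c) :
    IsNoetherianRing c.B ∧ IsLocalRing c.B := by
  obtain ⟨G, hG⟩ := hc.fg
  have hG1 : ∀ g ∈ G, ‖g‖ ≤ 1 := by
    intro g hg
    refine (hc.le g ?_).2
    rw [hG]
    exact ⟨g, Subring.subset_closure (Or.inr hg), 1, one_mem _, map_one _, mul_one g⟩
  rw [hG]
  exact noeth_X hA.ambE G hG1

/-- Paper 1.2: no power of `y` is in the ideal generated by the `x i`. -/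
theorem gs_y_pow (hA : AmbX p r S) {c : Tri W r} (hc : Gs S c) (n : ℕ) (b : Fin r → W)
    (hb : ∀ i, b i ∈ c.B) : c.y ^ n ≠ ∑ i, b i * c.x i := by
  intro heq
  obtain ⟨hno, hlo⟩ := gs_noeth hA hc
  have hdim : ((r + 1 : ℕ) : WithBot ℕ∞) ≤ ringKrullDim c.B := by
    obtain ⟨G, hG⟩ := hc.fg
    have hG1 : ∀ g ∈ G, g ∈ S ∧ ‖g‖ ≤ 1 := by
      intro g hg
      refine hc.le g ?_
      rw [hG]
      exact ⟨g, Subring.subset_closure (Or.inr hg), 1, one_mem _, map_one _, mul_one g⟩
    have halg := hc.alg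
    rw [hG] at halg ⊢
    exact dim_X hA G hG1 halg
  have hdom : ∀ z : c.B, z ∈ IsLocalRing.maximalIdeal c.B ↔ ‖(z : W)‖ < 1 := by
    intro z
    rw [IsLocalRing.mem_maximalIdeal, mem_nonunits_iff]
    have hz1 := (hc.le z z.2).2
    constructor
    · intro hz
      by_contra hcon
      have h1 : ‖(z : W)‖ = 1 := le_antisymm hz1 (not_lt.1 hcon)
      apply hz
      have h0 : (z : W) ≠ 0 := by
        intro h0
        rw [h0, norm_zero] at h1
        exact zero_ne_one h1
      obtain ⟨G, hG⟩ := hc.fg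
      have hinv : (z : W)⁻¹ ∈ c.B := by
        have h2 : locV (ball W) c.B = c.B := by
          rw [hG]; exact locV_locV (ball W) _
        have h3 : (z : W)⁻¹ ∈ locV (ball W) c.B :=
          ⟨1, one_mem _, z, z.2, (ball_val_eq_one _).2 h1, inv_mul_cancel₀ h0⟩
        rwa [h2] at h3
      exact IsUnit.of_mul_eq_one ⟨(z : W)⁻¹, hinv⟩ (Subtype.ext (mul_inv_cancel₀ h0))
    · rintro hz ⟨u, hu⟩
      have h2 : (z : W) * ((↑u⁻¹ : c.B) : W) = 1 := by
        rw [← hu]
        exact congrArg Subtype.val u.mul_inv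
      have h3 := (hc.le _ (↑u⁻¹ : c.B).2).2
      have h4 : ‖(z : W)‖ * ‖((↑u⁻¹ : c.B) : W)‖ = 1 := by rw [← norm_mul, h2, norm_one]
      have h5 := norm_nonneg (z : W)
      nlinarith
  -- the maximal ideal is minimal over `(x)`
  let X : Fin r → c.B := fun i => ⟨c.x i, hc.xB i⟩
  let J : Ideal c.B := Ideal.span (Set.range X)
  have hyJ : (⟨c.y, hc.yB⟩ : c.B) ^ n ∈ J := by
    have h1 : (⟨c.y, hc.yB⟩ : c.B) ^ n = ∑ i, (⟨b i, hb i⟩ : c.B) * X i := by
      apply Subtype.ext
      push_cast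
      exact heq
    rw [h1]
    exact Ideal.sum_mem _ fun i _ => Ideal.mul_mem_left _ _ (Ideal.subset_span ⟨i, rfl⟩)
  have hmin : IsLocalRing.maximalIdeal c.B ∈ J.minimalPrimes := by
    refine ⟨⟨inferInstance, ?_⟩, ?_⟩
    · rw [Ideal.span_le]
      rintro _ ⟨i, rfl⟩
      exact (hdom _).2 (hc.ind.lt i)
    · rintro q ⟨hq, hJq⟩ _
      intro z hz
      obtain ⟨b', b0, hb', hb0, hz'⟩ := hc.gen z z.2 ((hdom z).1 hz)
      have hyq : (⟨c.y, hc.yB⟩ : c.B) ∈ q := hq.mem_of_pow_mem _ (hJq hyJ)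
      have h1 : z = ∑ i, (⟨b' i, hb' i⟩ : c.B) * X i + (⟨b0, hb0⟩ : c.B) * ⟨c.y, hc.yB⟩ := by
        apply Subtype.ext
        push_cast
        exact hz'
      rw [h1]
      exact q.add_mem (Ideal.sum_mem _ fun i _ => Ideal.mul_mem_left _ _
        (hJq (Ideal.subset_span ⟨i, rfl⟩))) (q.mul_mem_left _ hyq)
  have hh : (IsLocalRing.maximalIdeal c.B).height ≤ (r : ℕ∞) := by
    classical
    have h1 := Ideal.height_le_card_of_mem_minimalPrimes_span (Set.finite_range X) hmin
    refine h1.trans ?_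
    have h3 : (Set.range X).ncard ≤ r := by
      rw [← Set.image_univ]
      refine (Set.ncard_image_le (Set.finite_univ)).trans ?_
      simp
    exact_mod_cast h3
  rw [← IsLocalRing.maximalIdeal_height_eq_ringKrullDim] at hdim
  have h1 : ((r + 1 : ℕ) : ℕ∞) ≤ (r : ℕ∞) := (by exact_mod_cast hdim : ((r + 1 : ℕ) : ℕ∞) ≤
    (IsLocalRing.maximalIdeal c.B).height).trans hh
  have h2 : r + 1 ≤ r := by exact_mod_cast h1
  omega

theorem Gs.noeth {c : Tri W r} (hA : AmbX p r S) (h : Gs S c) : IsNoetherianRing c.B :=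
  (gs_noeth hA h).1

theorem Gs.y_pow {c : Tri W r} (hA : AmbX p r S) (h : Gs S c) (n : ℕ) (b : Fin r → W)
    (hb : ∀ i, b i ∈ c.B) : c.y ^ n ≠ ∑ i, b i * c.x i :=
  gs_y_pow hA h n b hb

end Pool.Agent.Lib.MX
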