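import Pool.Agent.Lib.MX.Defs

/-!
# Module EDefs: the standing assumptions without the field `S`
-/

namespace Pool.Agent.Lib.MX

open Pool.Agent.Lib.MP_3029eb_ag Pool.Agent.Lib.MP_3029eb_ag.Abh Pool.Agent.Lib.TDO

variable {E W : Type} [Field E] [NormedField W] [IsUltrametricDist W] [Algebra E W] {r : ℕ}

/-- The standing assumptions on `E` and `W`, without the field `S`. -/
structure AmbE (p r : ℕ) (E W : Type) [Field E] [NormedField W] [IsUltrametricDist W]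
    [Algebra E W] : Prop where
  prime : p.Prime
  char0 : CharZero W
  p1 : ‖(p : W)‖ < 1
  dvr : ∀ c : E, c ≠ 0 → ∃ n : ℤ, ‖algebraMap E W c‖ = ‖(p : W)‖ ^ n
  cpl : IsComplete (Set.range (algebraMap E W))
  rank : ∀ z : Fin (r + 1) → W, (∀ i, z i ≠ 0) → ∃ a : Fin (r + 1) → ℤ, a ≠ 0 ∧ ‖mon z a‖ = 1
  res : ∀ z : W, ‖z‖ ≤ 1 → ∃ P : Polynomial W, P.Monic ∧ (∀ j, P.coeff j ∈ Lam E W) ∧
    ‖P.eval z‖ < 1

theorem AmbE.ambX {p : ℕ} (h : AmbE p r E W) (S : IntermediateField E W)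
    (halg : ∀ z : W, IsAlgebraic S z → z ∈ S) (htr : Algebra.trdeg E S = (r : Cardinal)) :
    AmbX p r S :=
  ⟨h.prime, h.char0, h.p1, h.dvr, h.cpl, h.rank, h.res, halg, htr⟩

theorem AmbX.ambE {p : ℕ} {S : IntermediateField E W} (h : AmbX p r S) : AmbE p r E W :=
  ⟨h.prime, h.char0, h.p1, h.dvr, h.cpl, h.rank, h.res⟩

end Pool.Agent.Lib.MX
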