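import Pool.Agent.Lib.MX.SubS
import Pool.Agent.Lib.MX.ExpX
import Pool.Agent.Lib.TDO.Comb
import Pool.Agent.Lib.TDO.PolyB

/-!
# Module ThmA: Theorem A: monomialization (paper 3.3)

Port of `Pool/Agent/Lib/TU/ThmAU.lean` (`thmAU_aux`, `thmAU_run`).
`exists_Ld`; strong induction on `d`, for all good triples `c` with a lead form `Ld c z a0 d`.  `d = 0`: `Ld.moH`.  Let `d ≥ 1` and suppose that no refinement `c'` of `c` has `MoH c' z`.  Let `F := kap c.B`,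
`τ : Sec c.B F τ` (`Gd.exists_sec`).  Iterate `st_lead_HL` (StLdH.lean) with dependent choice on triples `c_s` with `RfS S c c_s`, `c_s.x = c.x`, `kap c_s.B = F`, `Ld c_s z a_s d` (`τ` is also a section for `c_s.B`:
`Sec.mono`, `RfS.B_le`): the new `d'` is not `< d` by the induction hypothesis, so `d' = d`, `c_s.y = x^(β_s) (-τ (e_s) + c_(s+1).y)`, `e_s ≠ 0`, `‖x^(β_s)‖ < 1`, `a_(s+1) = a_s + d β_s`.
The infinite run (write `x := c.x`, `y_s := c_s.y`, `c_0 = c`):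
(1) `‖z‖ ≤ ‖x^(a_s)‖` (`Ld.norm_le`), decreasing in `s`; let `γ` be the infimum, `0 < ‖z‖ ≤ γ`.
(2) `exists_eps` for the stage `c_0 → c_1`: `ε < 1` with `Gn c_s m ≤ ε` for all `m ∈ c.B`, `‖m‖ < 1`, `s ≥ 1`.  Choose `s2 ≥ 1` with `ε ‖x^(a_s)‖ < γ` for all `s ≥ s2` (the norms tend to `γ > 0`: `ε ‖x^(a_s2)‖ < γ` for one
`s2`, since `γ / ε > γ`).
(3) At `s2`: `z' := x^(-a_s2) z ∈ HO c_s2`; `HO_approxS` (ExpX.lean) with `‖x^N‖ ‖x^(a_s2)‖ < γ`, `‖y_s2‖^J ‖x^(a_s2)‖ < γ`: after multiplying with `x^(a_s2)` (`exists_shiftS`) `z = evS τ x y_s2 P + x^(a+N) h1 + x^a y_s2^J h2`.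
(`P` has exponents of norm `≤ ‖x^(a_s2)‖`.)  For `s ≥ s2 + 1`: `Gn c_s (z - evS τ x y_s2 P) < γ` (`y_s2` is monomial for `c_s`: `RfS.y_moH`; `Gn_moH`).
(4) `P_(s2) := P`, `P_(s+1)` from `P_s` by `subS` (`B0 := c.B`, `c' := c_(s+1)`, `e0 := -τ (e_s)`, `eb := -e_s`, `β := β_s`, `y := y_s`), for `s ≥ s2`.  By induction for `s ≥ s2 + 1`: `Gn c_s (z - evS τ x y_s P_s) < γ`, it is in
`HL c_s` (`RfS.Gn_le`, `RfS.HL_le` for the stage `c_s → c_(s+1)`, `Gn_add_le`), because `Gn c_(s+1) (evS τ x y_s P_s - evS τ x y_(s+1) P_(s+1)) ≤ ε ‖x^(a_s)‖ < γ`: all exponents `(a, j)` of `P_s` have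
`‖x^(a + j β)‖ ≤ ‖x^a‖ ≤ ‖x^(a_s)‖` (for `s = s2`: by (3), for `s > s2`: `Lead`).  So `Ld c_s (evS τ x y_s P_s) a_s d` (`Ld.perturb`, `γ ≤ ‖x^(a_s)‖`) and `Lead x P_s a_s d` (`Ld.leadS`) for `s ≥ s2 + 1`.
(5) `TDO.comb` with `nu := nu x`, `p := 2`, `X s := ` support of `P_(s2 + 1 + s)`, `b s := β_(s2+1+s)`, `a0 s := a_(s2+1+s)`: `h1` from `Lead.max`; `h2` with `n = 0` and the second alternative of `h5` by `sub_supp`; `h3` (first
alternative) as in `thmAU_run` by `taylor_eq_case` (the part `φ` of `P_s` at `α = a_(s+1)` has `natDegree ≤ d`, its Taylor coefficients of index `< d` vanish by `Lead x P_(s+1) a_(s+1) d`); `hbd` from `γ`.  Contradiction.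
-/

namespace Pool.Agent.Lib.MX

open Pool.Agent.Lib.MP_3029eb_ag Pool.Agent.Lib.MP_3029eb_ag.Abh Pool.Agent.Lib.TDO

variable {E W : Type} [Field E] [NormedField W] [IsUltrametricDist W] [Algebra E W] {r p : ℕ}
  {S : IntermediateField E W} {c : Tri W r}

private theorem thmA_shr_nonneg {F : Type} [Field F] (β : Fin r → ℤ) (Q : LP F r) :
    ∀ (a' : Fin r → ℤ) (j : ℕ), Q.coeff (a', j) ≠ 0 → 0 ≤ (shr β (a', (j : ℤ))).2 :=
  fun _ j _ => Int.natCast_nonneg j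

/-- the infinite run -/
private theorem thmA_run (hr : 0 < r) (hA : AmbX p r S) {F : Subfield (RW W)} {x : Fin r → W}
    {τ : F → W} (cs : ℕ → Tri W r) (hτ : Sec (cs 0).B F τ) (hx : ∀ s, (cs s).x = x)
    (hF : ∀ s, kap (cs s).B = F) (hst : ∀ s, StR S (cs s) (cs (s + 1)))
    (a b : ℕ → Fin r → ℤ) (e : ℕ → F) (he : ∀ s, e s ≠ 0) {d : ℕ} (hd : 1 ≤ d) {z : W}
    (h0 : z ≠ 0) (hld : ∀ s, Ld (cs s) z (a s) d) (ha : ∀ s, a (s + 1) = a s + d • b s)
    (hy : ∀ s, (cs s).y = mon x (b s) * (-τ (e s) + (cs (s + 1)).y))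
    (hb : ∀ s, ‖mon x (b s)‖ < 1) : False := by
  classical
  have hgd : ∀ s, Gd S (cs s) := fun s => (hst s).gd
  have hind : Indep x := by rw [← hx 0]; exact (hgd 0).ind
  have hxne := hind.ne
  have hpos : ∀ α : Fin r → ℤ, 0 < ‖mon x α‖ := fun α => norm_pos_iff.2 (mon_ne x hxne _)
  have hrf : ∀ s n, RfS S (cs s) (cs (s + n)) := by
    intro s n
    induction n with
    | zero => exact Relation.ReflTransGen.refl
    | succ n ihn => exact Relation.ReflTransGen.tail ihn (hst (s + n))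
  have hrf' : ∀ s n, s ≤ n → RfS S (cs s) (cs n) := by
    intro s n hsn
    obtain ⟨m, rfl⟩ := Nat.exists_eq_add_of_le hsn
    exact hrf s m
  have hnub : ∀ s, 0 < nu x (b s) := by
    intro s
    have h := hb s
    rwa [← norm_one (α := W), ← mon_zero x, norm_mon_lt_iff hind, map_zero] at h
  have hanti1 : ∀ s, ‖mon x (a (s + 1))‖ ≤ ‖mon x (a s)‖ := by
    intro s
    rw [norm_mon_le_iff hind, ha s, map_add, map_nsmul, nsmul_eq_mul]
    have h1 := hnub s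
    have h2 : (0 : ℝ) ≤ (d : ℝ) * nu x (b s) := by positivity
    linarith
  have hanti : ∀ s t, s ≤ t → ‖mon x (a t)‖ ≤ ‖mon x (a s)‖ := by
    intro s t hst'
    induction t, hst' using Nat.le_induction with
    | base => exact le_rfl
    | succ t _ iht => exact (hanti1 t).trans iht
  have hz0 : 0 < ‖z‖ := norm_pos_iff.2 h0
  have hzle : ∀ s, ‖z‖ ≤ ‖mon x (a s)‖ := by
    intro s
    have h := (hld s).norm_le (hgd s)
    rwa [hx s] at h
  -- the infimum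
  obtain ⟨γ, hγdef⟩ : ∃ γ : ℝ, γ = ⨅ s, ‖mon x (a s)‖ := ⟨_, rfl⟩
  have hγz : ‖z‖ ≤ γ := by rw [hγdef]; exact le_ciInf hzle
  have hγ0 : 0 < γ := hz0.trans_le hγz
  have hbdd : BddBelow (Set.range fun s => ‖mon x (a s)‖) :=
    ⟨0, by rintro _ ⟨s, rfl⟩; exact norm_nonneg _⟩
  have hγle : ∀ s, γ ≤ ‖mon x (a s)‖ := fun s => by rw [hγdef]; exact ciInf_le hbdd s
  -- epsilon
  obtain ⟨ε, hε0, hε1, hεG⟩ := exists_eps hr hA (hst 0)
  obtain ⟨s2, hs2, hs2γ⟩ : ∃ s2, 1 ≤ s2 ∧ ε * ‖mon x (a s2)‖ < γ := by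
    have h1 : (⨅ s, ‖mon x (a s)‖) < γ / ε := by
      rw [← hγdef, lt_div_iff₀ hε0]
      exact mul_lt_of_lt_one_right hγ0 hε1
    obtain ⟨s, hs⟩ := exists_lt_of_ciInf_lt h1
    refine ⟨s + 1, by omega, ?_⟩
    have h2 := (hanti1 s).trans_lt hs
    rw [lt_div_iff₀ hε0] at h2
    rwa [mul_comm]
  -- the expansion of `z` at the stage `s2`
  obtain ⟨A, hAdef⟩ : ∃ A, A = a s2 := ⟨_, rfl⟩
  have hBle : ∀ s, (cs 0).B ≤ (cs s).B := fun s => (hrf' 0 s (Nat.zero_le s)).B_le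
  have hτs : ∀ s, Sec (cs s).B F τ := fun s => hτ.mono (hBle s)
  have hz' : Ld (cs s2) (mon x (-A) * z) 0 d := by
    have h := (hld s2).xmul (hgd s2) (-(a s2))
    rw [hx s2, neg_add_cancel] at h
    rw [hAdef]
    exact h
  have hz'HO : mon x (-A) * z ∈ HO (cs s2) := by
    rw [← Gn_le_one_iff hr hA (hgd s2) (hz'.mem_HL (hgd s2)), Gn_eq hr hA (hgd s2) hz', mon_zero,
      norm_one]
  have hγA : 0 < γ / ‖mon x A‖ := div_pos hγ0 (hpos A)
  obtain ⟨N, -, hN⟩ := exists_mon_lt hr hind (γ / ‖mon x A‖) hγA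
  obtain ⟨J, hJ⟩ := exists_pow_lt_of_lt_one hγA (hgd s2).y1
  obtain ⟨P, hPe, g1, hg1, g2, hg2, hzP⟩ :=
    HO_approxS hr (hgd s2) (hF s2) (hτs s2) hz'HO N J
  rw [hx s2] at hPe hzP
  obtain ⟨P1, hP1, hP1c⟩ := exists_shiftS hτ.zero x (cs s2).y hxne P A
  have hAA : mon x A * mon x (-A) = 1 := by
    rw [← mon_add x hxne, add_neg_cancel, mon_zero]
  have hzP1 : z - evS τ x (cs s2).y P1 =
      mon x A * (mon x N * g1) + mon x A * ((cs s2).y ^ J * g2) := by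
    have h1 : z = mon x A * (mon x (-A) * z) := by rw [← mul_assoc, hAA, one_mul]
    rw [hP1]
    calc z - mon x A * evS τ x (cs s2).y P = mon x A * (mon x (-A) * z) -
          mon x A * evS τ x (cs s2).y P := by rw [← h1]
      _ = _ := by rw [hzP]; ring
  have hP1e : ∀ α j, P1.coeff (α, j) ≠ 0 → ‖mon x α‖ ≤ ‖mon x A‖ := by
    intro α j h
    rw [hP1c] at h
    have h1 := (hPe _ _ h).2.1
    have h2 : mon x α = mon x A * mon x (α - A) := by
      rw [← mon_add x hxne, add_sub_cancel]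
    rw [h2, norm_mul]
    exact mul_le_of_le_one_right (norm_nonneg _) h1
  -- the error at later stages
  have hmonHL : ∀ s (α : Fin r → ℤ), mon x α ∈ HL (cs s) := by
    intro s α
    have h := mon_mem_HL (c := cs s) α
    rwa [hx s] at h
  have hmonG : ∀ s (α : Fin r → ℤ), Gn (cs s) (mon x α) = ‖mon x α‖ := by
    intro s α
    have h := Gn_mon hr hA (hgd s) α
    rwa [hx s] at h
  have hD0 : ∀ s, s2 < s → z - evS τ x (cs s2).y P1 ∈ HL (cs s) ∧
      Gn (cs s) (z - evS τ x (cs s2).y P1) < γ := by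
    intro s hs
    have hR : RfS S (cs s2) (cs s) := hrf' s2 s hs.le
    have hymo : MoH (cs s) ((cs s2).y) := RfS.y_moH (hst s2) (hrf' (s2 + 1) s hs)
    have hyJmo : ∀ j : ℕ, MoH (cs s) ((cs s2).y ^ j) := by
      intro j
      induction j with
      | zero =>
        rw [pow_zero]
        exact MoH.of_unit (one_mem _) norm_one
      | succ j ih => rw [pow_succ]; exact ih.mul (hgd s) hymo
    have hyJ : (cs s2).y ^ J ∈ HL (cs s) := (hyJmo J).mem_HL (hgd s)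
    have hyJG : Gn (cs s) ((cs s2).y ^ J) = ‖(cs s2).y ^ J‖ := Gn_moH hr hA (hgd s) (hyJmo J)
    have hg1' := hR.HO_le hg1
    have hg2' := hR.HO_le hg2
    have hG1 := Gn_le_one hr hA (hgd s) hg1'
    have hG2 := Gn_le_one hr hA (hgd s) hg2'
    have hm1 : mon x N * g1 ∈ HL (cs s) := mul_mem (hmonHL s N) (HO_le_HL hg1')
    have hm2 : (cs s2).y ^ J * g2 ∈ HL (cs s) := mul_mem hyJ (HO_le_HL hg2')
    have hm1' : mon x A * (mon x N * g1) ∈ HL (cs s) := mul_mem (hmonHL s A) hm1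
    have hm2' : mon x A * ((cs s2).y ^ J * g2) ∈ HL (cs s) := mul_mem (hmonHL s A) hm2
    rw [hzP1]
    refine ⟨add_mem hm1' hm2', (Gn_add_le hr hA (hgd s) hm1' hm2').trans_lt (max_lt ?_ ?_)⟩
    · rw [Gn_mul hr hA (hgd s) (hmonHL s A) hm1, Gn_mul hr hA (hgd s) (hmonHL s N) (HO_le_HL hg1'),
        hmonG, hmonG]
      rw [lt_div_iff₀ (hpos A)] at hN
      have h3 : ‖mon x N‖ * Gn (cs s) g1 ≤ ‖mon x N‖ :=
        mul_le_of_le_one_right (norm_nonneg _) hG1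
      calc ‖mon x A‖ * (‖mon x N‖ * Gn (cs s) g1) ≤ ‖mon x A‖ * ‖mon x N‖ :=
            mul_le_mul_of_nonneg_left h3 (norm_nonneg _)
        _ = ‖mon x N‖ * ‖mon x A‖ := mul_comm _ _
        _ < γ := hN
    · rw [Gn_mul hr hA (hgd s) (hmonHL s A) hm2, Gn_mul hr hA (hgd s) hyJ (HO_le_HL hg2'),
        hmonG, hyJG, norm_pow]
      rw [lt_div_iff₀ (hpos A)] at hJ
      have h3 : ‖(cs s2).y‖ ^ J * Gn (cs s) g2 ≤ ‖(cs s2).y‖ ^ J :=
        mul_le_of_le_one_right (by positivity) hG2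
      calc ‖mon x A‖ * (‖(cs s2).y‖ ^ J * Gn (cs s) g2) ≤ ‖mon x A‖ * ‖(cs s2).y‖ ^ J :=
            mul_le_mul_of_nonneg_left h3 (norm_nonneg _)
        _ = ‖(cs s2).y‖ ^ J * ‖mon x A‖ := mul_comm _ _
        _ < γ := hJ
  -- substitution
  have hsub : ∀ (t : ℕ) (Q : LP F r), ∃ Q' : LP F r,
      (∀ α i, Q'.coeff (α, i) =
        (Polynomial.taylor (-(e (s2 + t))) (part (shr (b (s2 + t))) Q α)).coeff i) ∧
      evS τ x (cs (s2 + t)).y Q - evS τ x (cs (s2 + t + 1)).y Q' ∈ HL (cs (s2 + t + 1)) ∧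
      ∀ M : ℝ, 0 ≤ M → (∀ α j, Q.coeff (α, j) ≠ 0 → ‖mon x (α + j • b (s2 + t))‖ ≤ M) →
        Gn (cs (s2 + t + 1)) (evS τ x (cs (s2 + t)).y Q - evS τ x (cs (s2 + t + 1)).y Q') ≤
          ε * M := by
    intro t Q
    have hx1 := hx (s2 + t + 1)
    have heb : rs (-τ (e (s2 + t))) = ((-(e (s2 + t)) : F) : RW W) := by
      have hn1 : ‖τ (e (s2 + t))‖ ≤ 1 := hτ.norm _
      have h1 := hτ.rs (e (s2 + t))
      have h2 : rs (-τ (e (s2 + t))) = -rs (τ (e (s2 + t))) := rs_neg hn1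
      rw [h2, h1]
      rfl
    have hyy : (cs (s2 + t)).y =
        mon (cs (s2 + t + 1)).x (b (s2 + t)) * (-τ (e (s2 + t)) + (cs (s2 + t + 1)).y) := by
      rw [hx1]
      exact hy (s2 + t)
    have h := subS hr hA (hgd (s2 + t + 1)) (B0 := (cs 0).B)
      (fun w hw => B_mem_HO (hgd (s2 + t + 1)) (hBle _ hw)) hτ (ε := ε)
      (fun m hm hm1 => hεG _ (hrf' 1 (s2 + t + 1) (by omega)) m hm hm1)
      (β := b (s2 + t)) (e0 := -τ (e (s2 + t))) (neg_mem (hτ.mem _)) (eb := -(e (s2 + t)))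
      heb hyy Q
    rwa [hx1] at h
  choose G hG1 hG2 hG3 using hsub
  obtain ⟨Ps, hPs0, hPs1⟩ : ∃ Ps : ℕ → LP F r, Ps 0 = P1 ∧ ∀ t, Ps (t + 1) = G t (Ps t) :=
    ⟨fun n => Nat.rec P1 (fun t Q => G t Q) n, rfl, fun t => rfl⟩
  -- the exponents become smaller in the substitution
  have hexp : ∀ t, (∀ α j, (Ps t).coeff (α, j) ≠ 0 → ‖mon x α‖ ≤ ‖mon x A‖) →
      ∀ (α : Fin r → ℤ) (j : ℕ), (Ps t).coeff (α, j) ≠ 0 →
        ‖mon x (α + j • b (s2 + t))‖ ≤ ‖mon x A‖ := by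
    intro t h α j hj
    rw [mon_add x hxne, norm_mul, mon_nsmul, norm_pow]
    exact (mul_le_of_le_one_right (norm_nonneg _)
      (pow_le_one₀ (norm_nonneg _) (hb _).le)).trans (h α j hj)
  have hstep : ∀ t, (∀ α j, (Ps t).coeff (α, j) ≠ 0 → ‖mon x α‖ ≤ ‖mon x A‖) →
      z - evS τ x (cs (s2 + t)).y (Ps t) ∈ HL (cs (s2 + t + 1)) →
      Gn (cs (s2 + t + 1)) (z - evS τ x (cs (s2 + t)).y (Ps t)) < γ →
      z - evS τ x (cs (s2 + t + 1)).y (Ps (t + 1)) ∈ HL (cs (s2 + t + 1)) ∧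
      Gn (cs (s2 + t + 1)) (z - evS τ x (cs (s2 + t + 1)).y (Ps (t + 1))) < γ := by
    intro t h1 h2 h3
    have e1 : z - evS τ x (cs (s2 + t + 1)).y (Ps (t + 1)) =
        (z - evS τ x (cs (s2 + t)).y (Ps t)) +
          (evS τ x (cs (s2 + t)).y (Ps t) - evS τ x (cs (s2 + t + 1)).y (Ps (t + 1))) := by ring
    have h4 := hG2 t (Ps t)
    have h5 := hG3 t (Ps t) ‖mon x A‖ (norm_nonneg _) (hexp t h1)
    rw [← hPs1] at h4 h5
    rw [e1]
    refine ⟨add_mem h2 h4, (Gn_add_le hr hA (hgd _) h2 h4).trans_lt (max_lt h3 ?_)⟩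
    refine h5.trans_lt ?_
    rw [hAdef]
    exact hs2γ
  have hleadOf : ∀ t, z - evS τ x (cs (s2 + t)).y (Ps t) ∈ HL (cs (s2 + t)) →
      Gn (cs (s2 + t)) (z - evS τ x (cs (s2 + t)).y (Ps t)) < γ →
      Lead x (Ps t) (a (s2 + t)) d := by
    intro t h1 h2
    have h3 : Gn (cs (s2 + t)) (-(z - evS τ x (cs (s2 + t)).y (Ps t))) <
        ‖mon (cs (s2 + t)).x (a (s2 + t))‖ := by
      rw [Gn_neg hr hA (hgd _) h1, hx (s2 + t)]
      exact h2.trans_le (hγle _)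
    have h4 := (hld (s2 + t)).perturb hr hA (hgd _) (neg_mem h1) h3
    have h5 : z + -(z - evS τ x (cs (s2 + t)).y (Ps t)) = evS τ x (cs (s2 + t)).y (Ps t) := by
      ring
    rw [h5] at h4
    have h6 := hx (s2 + t)
    rw [← h6] at h4
    have h7 := Ld.leadS hr hA (hgd _) (hτs _) h4
    rwa [h6] at h7
  have hmain : ∀ t, z - evS τ x (cs (s2 + t + 1)).y (Ps (t + 1)) ∈ HL (cs (s2 + t + 1)) ∧
      Gn (cs (s2 + t + 1)) (z - evS τ x (cs (s2 + t + 1)).y (Ps (t + 1))) < γ := by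
    intro t
    induction t with
    | zero =>
      have h1 := hD0 (s2 + 1) (by omega)
      refine hstep 0 ?_ ?_ ?_
      · rw [hPs0]; exact hP1e
      · rw [hPs0]; exact h1.1
      · rw [hPs0]; exact h1.2
    | succ t ih =>
      have hl := hleadOf (t + 1) ih.1 ih.2
      refine hstep (t + 1) ?_ ?_ ?_
      · intro α j hj
        refine (hl.max α j hj).trans ?_
        rw [hAdef]
        exact hanti _ _ (by omega)
      · exact RfS.HL_le (hgd (s2 + (t + 1))) (hrf (s2 + (t + 1)) 1) ih.1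
      · exact (RfS.Gn_le hr hA (hgd (s2 + (t + 1))) (hrf (s2 + (t + 1)) 1) ih.1).trans_lt ih.2
  have hlead : ∀ t, Lead x (Ps (t + 1)) (a (s2 + (t + 1))) d := fun t =>
    hleadOf (t + 1) (hmain t).1 (hmain t).2
  have hsup : ∀ t a' j', (Ps (t + 1)).coeff (a', j') ≠ 0 →
      ∃ α j, (Ps t).coeff (α, j) ≠ 0 ∧ j' ≤ j ∧ a' = α + j • b (s2 + t) := by
    intro t a' j' haj
    refine sub_supp (W := W) (F := F) (P := Ps t) (P' := Ps (t + 1)) (β := b (s2 + t))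
      (eb := -(e (s2 + t))) (fun α i => ?_) haj
    rw [hPs1]
    exact hG1 t (Ps t) α i
  refine comb (nu x) (nu_injective hind) 2 d le_rfl hd (fun t => (Ps (t + 1)).coeff.support)
    (fun t => b (s2 + (t + 1))) (fun t => a (s2 + (t + 1))) ?_ ?_ ?_ ?_ ?_ ?_ ?_
  · intro s
    exact hnub _
  · intro s
    exact ha (s2 + (s + 1))
  · intro s n hn
    have h := (hlead s).max n.1 n.2 (Finsupp.mem_support_iff.1 hn)
    rwa [norm_mon_le_iff hind] at h
  · intro s m' hm'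
    obtain ⟨a', j, h6, h7, h8⟩ := hsup (s + 1) m'.1 m'.2 (Finsupp.mem_support_iff.1 hm')
    exact ⟨0, (a', j), Finsupp.mem_support_iff.2 h6, by simpa using h7, by simpa using h8⟩
  · intro s
    left
    obtain ⟨α, hα⟩ : ∃ α, α = a (s2 + (s + 2)) := ⟨_, rfl⟩
    have hα' : a (s2 + (s + 1)) + d • b (s2 + (s + 1)) = α := by
      rw [hα]
      exact (ha (s2 + (s + 1))).symm
    rw [Finsupp.mem_support_iff]
    rw [hα']
    have hl2 : Lead x (Ps (s + 2)) α d := by rw [hα]; exact hlead (s + 1)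
    obtain ⟨φ, hφ⟩ : ∃ φ, φ = part (shr (b (s2 + (s + 1)))) (Ps (s + 1)) α := ⟨_, rfl⟩
    have hco : ∀ i, (Ps (s + 2)).coeff (α, i) =
        (Polynomial.taylor (-(e (s2 + (s + 1)))) φ).coeff i := by
      intro i
      rw [hφ, show s + 2 = s + 1 + 1 from rfl, hPs1 (s + 1), hG1]
    have hφ0 : φ ≠ 0 := by
      intro h0
      have h1 := hl2.mem
      rw [hco, h0, map_zero] at h1
      exact h1 (Polynomial.coeff_zero _)
    have hex : ∀ n, φ.coeff n ≠ 0 →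
        (Ps (s + 1)).coeff (α - n • b (s2 + (s + 1)), n) ≠ 0 := by
      intro n hn
      rw [hφ] at hn
      obtain ⟨a2, j2, h3, h4⟩ := part_coeff_ne (shr (b (s2 + (s + 1)))) (Ps (s + 1))
        (thmA_shr_nonneg _ _) α n hn
      rw [shr_apply] at h4
      have h5 : a2 + (j2 : ℤ) • b (s2 + (s + 1)) = α := congrArg Prod.fst h4
      have h6 : (j2 : ℤ) = (n : ℤ) := congrArg Prod.snd h4
      have h7 : j2 = n := by exact_mod_cast h6
      subst h7
      rw [natCast_zsmul] at h5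
      rw [← h5, add_sub_cancel_right]
      exact h3
    have hdeg : φ.natDegree ≤ d := by
      have h1 := hex φ.natDegree (by
        rw [Polynomial.coeff_natDegree]
        exact Polynomial.leadingCoeff_ne_zero.2 hφ0)
      have h2 := (hlead s).max _ _ h1
      have e1 : nu x (a (s2 + (s + 1)) + d • b (s2 + (s + 1)) -
          φ.natDegree • b (s2 + (s + 1))) =
          nu x (a (s2 + (s + 1))) + (d : ℝ) * nu x (b (s2 + (s + 1))) -
            (φ.natDegree : ℝ) * nu x (b (s2 + (s + 1))) := by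
        rw [map_sub, map_add, map_nsmul, map_nsmul, nsmul_eq_mul, nsmul_eq_mul]
      rw [norm_mon_le_iff hind, ← hα', e1] at h2
      have h3 := hnub (s2 + (s + 1))
      have h4 : (φ.natDegree : ℝ) * nu x (b (s2 + (s + 1))) ≤
          (d : ℝ) * nu x (b (s2 + (s + 1))) := by linarith
      have h5 := le_of_mul_le_mul_right h4 h3
      exact_mod_cast h5
    have hzero : ∀ i < d, (Polynomial.taylor (-(e (s2 + (s + 1)))) φ).coeff i = 0 := by
      intro i hi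
      by_contra hne
      rw [← hco] at hne
      exact absurd (hl2.min i hne) (not_le.2 hi)
    obtain ⟨k1, -, -⟩ := taylor_eq_case (-(e (s2 + (s + 1)))) (neg_ne_zero.2 (he _)) φ hφ0 d
      hdeg hzero
    have h1 := hex 0 k1
    rwa [zero_smul, sub_zero] at h1
  · refine ⟨-Real.log γ, fun s => ?_⟩
    have h6 := hγle (s2 + (s + 1))
    rw [norm_mon_eq_exp x hxne] at h6
    have h7 := Real.log_le_log hγ0 h6
    rw [Real.log_exp] at h7
    linarith
  · right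
    intro s m' hm'
    obtain ⟨a', j, h6, h7, h8⟩ := hsup (s + 1) m'.1 m'.2 (Finsupp.mem_support_iff.1 hm')
    exact ⟨(a', j), Finsupp.mem_support_iff.2 h6, h7, h8⟩

private theorem thmA_aux (hr : 0 < r) (hA : AmbX p r S) {z : W} (h0 : z ≠ 0) (d : ℕ) :
    ∀ (c : Tri W r) (a0 : Fin r → ℤ), Gd S c → Ld c z a0 d →
    ∃ c' : Tri W r, RfS S c c' ∧ MoH c' z := by
  classical
  induction d using Nat.strong_induction_on with
  | _ d ih =>
    intro c a00 hc hl0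
    rcases Nat.eq_zero_or_pos d with rfl | hd
    · exact ⟨c, Relation.ReflTransGen.refl, (Ld.moH hc hl0).1⟩
    by_contra hQ
    obtain ⟨F, hF⟩ : ∃ F : Subfield (RW W), kap c.B = F := ⟨_, rfl⟩
    obtain ⟨τ, hτ⟩ := hc.exists_sec hF
    have hstep : ∀ s : {s : Tri W r × (Fin r → ℤ) // RfS S c s.1 ∧ s.1.x = c.x ∧
        kap s.1.B = F ∧ Ld s.1 z s.2 d},
        ∃ (s' : {s : Tri W r × (Fin r → ℤ) // RfS S c s.1 ∧ s.1.x = c.x ∧
          kap s.1.B = F ∧ Ld s.1 z s.2 d}) (b : Fin r → ℤ) (e : F),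
        s'.1.2 = s.1.2 + d • b ∧ e ≠ 0 ∧
        s.1.1.y = mon c.x b * (-τ e + s'.1.1.y) ∧ ‖mon c.x b‖ < 1 ∧
        StR S s.1.1 s'.1.1 := by
      rintro ⟨⟨c1, a⟩, hR, hx, hF1, hl⟩
      simp only at hR hx hF1 hl
      have hc1 : Gd S c1 := RfS.gd hc hR
      obtain ⟨c', hst, α, d', hl', hdd, hef⟩ :=
        st_lead_HL hr hA hc1 hF1 (hτ.mono hR.B_le) hl
      have hR' : RfS S c c' := Relation.ReflTransGen.tail hR hst
      have hge : d ≤ d' := by
        by_contra hlt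
        rw [not_le] at hlt
        obtain ⟨c'', h1, h2⟩ := ih d' hlt c' α hst.gd' hl'
        exact hQ ⟨c'', Relation.ReflTransGen.trans hR' h1, h2⟩
      have hd' : d' = d := le_antisymm hdd hge
      obtain ⟨hx', hF', β, e, hβ, he, hy, hα⟩ := hef hd' hd
      subst hd'
      rw [hx] at hx' hβ hy
      exact ⟨⟨(c', α), hR', hx', hF', hl'⟩, β, e, hα, he, hy, hβ, hst⟩
    choose next b e h1 h2 h3 h4 h5 using hstep
    obtain ⟨st, hst0, hsucc⟩ : ∃ st : ℕ → {s : Tri W r × (Fin r → ℤ) // RfS S c s.1 ∧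
        s.1.x = c.x ∧ kap s.1.B = F ∧ Ld s.1 z s.2 d},
        st 0 = ⟨(c, a00), Relation.ReflTransGen.refl, rfl, hF, hl0⟩ ∧
          ∀ n, st (n + 1) = next (st n) :=
      ⟨fun n => next^[n] ⟨(c, a00), Relation.ReflTransGen.refl, rfl, hF, hl0⟩, rfl,
        fun n => Function.iterate_succ_apply' _ _ _⟩
    refine thmA_run hr hA (F := F) (x := c.x) (τ := τ) (fun n => (st n).1.1) ?_
      (fun n => (st n).2.2.1) (fun n => (st n).2.2.2.1) ?_ (fun n => (st n).1.2)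
      (fun n => b (st n)) (fun n => e (st n)) (fun n => h2 (st n)) hd h0
      (fun n => (st n).2.2.2.2) ?_ ?_ (fun n => h4 (st n))
    · change Sec (st 0).1.1.B F τ
      rw [hst0]
      exact hτ
    · intro n
      change StR S (st n).1.1 (st (n + 1)).1.1
      rw [hsucc]
      exact h5 (st n)
    · intro n
      change (st (n + 1)).1.2 = (st n).1.2 + d • b (st n)
      rw [hsucc]
      exact h1 (st n)
    · intro n
      change (st n).1.1.y = mon c.x (b (st n)) * (-τ (e (st n)) + (st (n + 1)).1.1.y)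
      rw [hsucc]
      exact h3 (st n)

theorem thmA (hr : 0 < r) (hA : AmbX p r S) (hc : Gd S c) {z : W} (hz : z ∈ HL c) (h0 : z ≠ 0) :
    ∃ c' : Tri W r, RfS S c c' ∧ MoH c' z := by
  obtain ⟨a, d, h⟩ := exists_Ld hr hA hc hz h0
  exact thmA_aux hr hA h0 d c a hc h

end Pool.Agent.Lib.MX
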