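import Pool.Agent.Lib.MX.GoodExt
import Pool.Agent.Lib.MX.ThmA
import Pool.Agent.Lib.TDO.EtPres

set_option autoImplicit false

/-!
# Module MX.Fld: enlarging the field of fractions

`fld`: all elements of `G ⊆ S ∩ L` are algebraic over `Fr E c` (`Gd`: `S` is algebraic over `c.B`), so separable (characteristic zero), and in `cl (Fr E c)` (`Ch.dense`).
`TDO.exists_et` with `k := E`, `E := Fr E c` (nontrivial: `c.x i`, or `p`): `τ`, `P : Polynomial (Fr E c)`, `Et (Fr E c) P τ` (see `Pool/Agent/Lib/TDO/EtLem.lean`, `EtPres.lean` for the definition of `Et`: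
`P(τ) = 0`, `‖τ‖ < 1`, the coefficient of `T` is `1`, all other coefficients have norm `< 1`), `Fr E c ⊔ E(τ) = Fr E c ⊔ E(G)`.
The nonzero coefficients `c_j` (`j ≠ 1`) of `P` are in `Fr E c`: quotients of elements of `HL c`; Theorem A: a refinement `c1` of `c` with `MoH c1 c_j`, so `c_j = x^a u` with
`‖x^a‖ < 1`: `c_j ∈ QH c1`.  Choose a basis change `x1` of `c1.x` with `c_j = ∑ b_i x1_i`, `b_i ∈ Bx c1.B x1` and `⟨Bx c1.B x1, x1, c1.y⟩` strictly good.
`B' := locV (closure (Bx c1.B x1 ∪ {τ}))`: `good_ext0` with `Z := {τ}`, `x' := x1`, `y' := c1.y`: `τ = - c_0 - ∑_(j ≥ 2) c_j τ^j` is in `JI B' x1 y`.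
`Fr E ⟨B', x1, c1.y⟩ = Fr E c1 ⊔ E(τ) = Fr E c ⊔ E(G)`, contained in `L`; dense since it contains `Fr E c`.
`m_all`: `fld` with `G := Z`, then Theorem A for numerators and denominators.
-/

namespace Pool.Agent.Lib.MX

open Pool.Agent.Lib.MP_3029eb_ag Pool.Agent.Lib.MP_3029eb_ag.Abh Pool.Agent.Lib.TDO
open Pool.Agent.Lib.TU (Mt)

variable {E W : Type} [Field E] [NormedField W] [IsUltrametricDist W] [Algebra E W] {p r : ℕ}
  {S : IntermediateField E W}

/-- The rank is positive. -/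
private theorem Fld_r (hA : AmbX p r S) : 0 < r := by
  rcases Nat.eq_zero_or_pos r with h | h
  · exfalso
    subst h
    have := hA.char0
    have hp0 : (p : W) ≠ 0 := Nat.cast_ne_zero.2 hA.prime.ne_zero
    obtain ⟨a, ha, h1⟩ := hA.rank (fun _ => (p : W)) (fun _ => hp0)
    have h2 : mon (fun _ : Fin (0 + 1) => (p : W)) a = (p : W) ^ (a 0) := by
      unfold mon
      rw [Fin.prod_univ_one]
    rw [h2, norm_zpow] at h1
    have h3 : a 0 = 0 :=
      (zpow_eq_one_iff_right₀ (norm_nonneg _) hA.p1.ne).1 h1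
    apply ha
    funext i
    have hi : i = 0 := Fin.ext (by omega)
    rw [hi, h3]
    rfl
  · exact h

/-- Theorem A for finitely many elements. -/
private theorem Fld_thmA (hA : AmbX p r S) {c : Tri W r} (hc : Gd S c) (X : Finset W)
    (hX : ∀ z ∈ X, z ∈ HL c ∧ z ≠ 0) : ∃ c' : Tri W r, RfS S c c' ∧ ∀ z ∈ X, MoH c' z := by
  classical
  induction X using Finset.induction_on with
  | empty => exact ⟨c, Relation.ReflTransGen.refl, fun z hz => absurd hz (Finset.notMem_empty z)⟩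
  | insert a s ha ih =>
    obtain ⟨c1, h1, h2⟩ := ih fun z hz => hX z (Finset.mem_insert_of_mem hz)
    have ha1 := hX a (Finset.mem_insert_self a s)
    obtain ⟨c2, h3, h4⟩ := thmA (Fld_r hA) hA (h1.gd hc) (h1.HL_le hc ha1.1) ha1.2
    refine ⟨c2, h1.trans h3, fun z hz => ?_⟩
    rcases Finset.mem_insert.1 hz with rfl | hz
    · exact h4
    · exact h3.moH (h2 z hz)

/-- Theorem A for finitely many elements of the field of fractions. -/
private theorem Fld_frac (hA : AmbX p r S) {c : Tri W r} (hc : Gd S c) (X : Finset W)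
    (hX : ∀ z ∈ X, z ∈ Fr E c ∧ z ≠ 0) : ∃ c' : Tri W r, RfS S c c' ∧ ∀ z ∈ X, MoH c' z := by
  classical
  have h : ∀ z : W, ∃ a b : W, z ∈ X → (a ∈ HL c ∧ a ≠ 0) ∧ (b ∈ HL c ∧ b ≠ 0) ∧
      z = a * b⁻¹ := by
    intro z
    by_cases hz : z ∈ X
    · obtain ⟨h1, h0⟩ := hX z hz
      obtain ⟨a, ha, b, hb, hb0, h2⟩ := (mem_Fr_iff hc z).1 h1
      refine ⟨a, b, fun _ => ⟨⟨HO_le_HL (B_mem_HO hc ha), ?_⟩,
        ⟨HO_le_HL (B_mem_HO hc hb), hb0⟩, ?_⟩⟩
      · rw [← h2]
        exact mul_ne_zero h0 hb0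
      · rw [← h2, mul_inv_cancel_right₀ hb0]
    · exact ⟨0, 0, fun h => absurd h hz⟩
  choose a b hab using h
  obtain ⟨c', h1, h2⟩ := Fld_thmA hA hc (X.image a ∪ X.image b) (by
    intro z hz
    rcases Finset.mem_union.1 hz with hz | hz
    · obtain ⟨w, hw, rfl⟩ := Finset.mem_image.1 hz
      exact (hab w hw).1
    · obtain ⟨w, hw, rfl⟩ := Finset.mem_image.1 hz
      exact (hab w hw).2.1)
  refine ⟨c', h1, fun z hz => ?_⟩
  rw [(hab z hz).2.2]
  have hc' := h1.gd hc
  exact MoH.mul hc' (h2 _ (Finset.mem_union_left _ (Finset.mem_image_of_mem _ hz)))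
    (MoH.inv hc' (h2 _ (Finset.mem_union_right _ (Finset.mem_image_of_mem _ hz))))

/-- Elements of `S` are separable over the field of fractions. -/
private theorem Fld_sep (hA : AmbX p r S) {c : Tri W r} (hc : Gd S c) {z : W} (hz : z ∈ S) :
    IsSeparable (Fr E c) z := by
  have := hA.char0
  obtain ⟨x1, h1, h2⟩ := hc.ex
  have hle : Bx c.B x1 ≤ (Fr E c).toSubring := by
    intro w hw
    exact HO_mem_Fr hc (Bx_mem_HO hc h1 hw)
  have h3 : IsAlgebraic (Fr E c).toSubring z := isAlgebraic_mono hle (h2.alg z hz)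
  have h4 : IsAlgebraic (Fr E c) z := h3
  have : CharZero (Fr E c) := (algebraMap (Fr E c) W).charZero
  exact (minpoly.irreducible h4.isIntegral).separable

theorem fld (hA : AmbX p r S) {L : IntermediateField E W} {c : Tri W r} (hc : Ch S L c)
    (G : Finset W) (hG : ∀ g ∈ G, g ∈ S ∧ g ∈ L) :
    ∃ c' : Tri W r, Ch S L c' ∧
      Fr E c' = Fr E c ⊔ IntermediateField.adjoin E (G : Set W) := by
  classical
  have hr := Fld_r hA
  have hgd := hc.gd
  have hnt : ∃ z ∈ Fr E c, z ≠ 0 ∧ ‖z‖ < 1 :=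
    ⟨c.x ⟨0, hr⟩, B_le_Fr (hgd.xB _), hgd.ind.ne _, hgd.ind.lt _⟩
  obtain ⟨τ, P, hEt, hfld⟩ := exists_et (Fr E c) hnt G (fun g hg =>
    ⟨Fld_sep hA hgd (hG g hg).1, hc.dense g (hG g hg).2⟩)
  have hFS : Fr E c ≤ S := by
    unfold Fr
    rw [IntermediateField.adjoin_le_iff]
    intro z hz
    exact hgd.mem_S hz
  have hle : ∀ M : IntermediateField E W, Fr E c ≤ M → (∀ g ∈ G, g ∈ M) →
      Fr E c ⊔ IntermediateField.adjoin E {τ} ≤ M := by
    intro M h1 h2
    rw [hfld]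
    exact sup_le h1 (IntermediateField.adjoin_le_iff.2 fun g hg => h2 g hg)
  have hτ : τ ∈ Fr E c ⊔ IntermediateField.adjoin E {τ} :=
    (le_sup_right : IntermediateField.adjoin E {τ} ≤ _)
      (IntermediateField.mem_adjoin_simple_self E τ)
  have hτS : τ ∈ S := hle S hFS (fun g hg => (hG g hg).1) hτ
  -- the refinement
  set X : Finset W := (P.support.image (fun j => ((P.coeff j : Fr E c) : W))) with hX
  obtain ⟨c1, hrf, hMo⟩ := Fld_frac hA hgd X (by
    intro z hz
    rw [hX, Finset.mem_image] at hz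
    obtain ⟨j, hj, rfl⟩ := hz
    refine ⟨(P.coeff j).2, fun h => Polynomial.mem_support_iff.1 hj (Subtype.ext h)⟩)
  have hc1 : Gd S c1 := hrf.gd hgd
  have hQ : ∀ j, j ≠ 1 → ((P.coeff j : Fr E c) : W) ∈ QH c1 := by
    intro j hj
    by_cases h0 : P.coeff j = 0
    · rw [h0]
      exact QH_zero hc1 hr
    · refine (hMo _ ?_).mem_QH hc1 (hEt.cj j hj)
      rw [hX]
      exact Finset.mem_image.2 ⟨j, Polynomial.mem_support_iff.2 h0, rfl⟩
  have hdat : ∀ j : ℕ, ∃ (a : Fin r → ℤ) (h : W), j ≠ 1 → (‖mon c1.x a‖ < 1 ∧ h ∈ HO c1 ∧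
      ((P.coeff j : Fr E c) : W) = mon c1.x a * h) := by
    intro j
    by_cases hj : j = 1
    · exact ⟨0, 0, fun h => absurd hj h⟩
    · obtain ⟨a, ha, h, hh, h1⟩ := hQ j hj
      exact ⟨a, h, fun _ => ⟨ha, hh, h1⟩⟩
  choose a h hah using hdat
  set J : Finset ℕ := (Finset.range (P.natDegree + 1)).filter (fun j => j ≠ 1) with hJ
  obtain ⟨x1, hM1, hG1, hZ1, hY1⟩ := exists_model hc1 (J.image h) (by
    intro z hz
    obtain ⟨j, hj, rfl⟩ := Finset.mem_image.1 hz
    rw [hJ, Finset.mem_filter] at hj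
    exact (hah j hj.2).2.1) (J.image a) (by
    intro b hb
    obtain ⟨j, hj, rfl⟩ := Finset.mem_image.1 hb
    rw [hJ, Finset.mem_filter] at hj
    exact (hah j hj.2).1.le)
  have hcJ : ∀ j ∈ J, ((P.coeff j : Fr E c) : W) ∈ JI (Bx c1.B x1) x1 c1.y := by
    intro j hj
    have hj1 : j ≠ 1 := by
      rw [hJ, Finset.mem_filter] at hj
      exact hj.2
    obtain ⟨β, hβ1, hβ2⟩ := hY1 (a j) (Finset.mem_image_of_mem _ hj)
    rw [(hah j hj1).2.2, hβ1, mul_comm]
    refine JI_mul (hZ1 _ (Finset.mem_image_of_mem _ hj)) (JI_monN (fun i => x_mem_Bx i) ?_)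
    intro h0
    have h1 := hβ2 (hah j hj1).1 ⟨0, hr⟩
    rw [h0] at h1
    exact absurd h1 (by simp)
  -- the new ring
  set B' : Subring W := locV (ball W) (Subring.closure ((Bx c1.B x1 : Set W) ∪ {τ})) with hB'
  have hBB : Bx c1.B x1 ≤ B' := by
    rw [hB']
    intro z hz
    exact subset_locV_closure (Or.inl hz)
  have hτB : τ ∈ B' := by
    rw [hB']
    exact subset_locV_closure (Or.inr rfl)
  have hτJ : τ ∈ JI B' x1 c1.y := by
    have h1 := hEt.root
    rw [Polynomial.aeval_eq_sum_range] at h1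
    have h2 : ∑ i ∈ J, P.coeff i • τ ^ i + τ = 0 := by
      rw [← h1]
      by_cases hd : 1 ∈ Finset.range (P.natDegree + 1)
      · have h3 : J = (Finset.range (P.natDegree + 1)).erase 1 := by
          rw [hJ]
          ext j
          simp only [Finset.mem_filter, Finset.mem_erase, ne_eq]
          tauto
        rw [h3, ← Finset.sum_erase_add _ _ hd, hEt.c1, one_smul, pow_one]
      · exfalso
        apply hd
        rw [Finset.mem_range, Nat.lt_succ_iff]
        refine Polynomial.le_natDegree_of_ne_zero ?_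
        rw [hEt.c1]
        exact one_ne_zero
    have h3 : τ = -∑ i ∈ J, P.coeff i • τ ^ i := by
      rw [add_comm] at h2
      exact eq_neg_of_add_eq_zero_left h2
    rw [h3]
    refine JI_neg (JI_sum _ _ fun j hj => ?_)
    have h4 : P.coeff j • τ ^ j = τ ^ j * ((P.coeff j : Fr E c) : W) := by
      rw [mul_comm]
      rfl
    rw [h4]
    exact JI_mul (pow_mem hτB j) (JI_mono hBB (hcJ j hj))
  have hGs : Gs S (⟨B', x1, c1.y⟩ : Tri W r) := by
    refine good_ext0 hG1 {τ} (Set.finite_singleton τ) ?_ x1 c1.y hM1.ind hc1.y1 B' hB' ?_ ?_ ?_ ?_ ?_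
    · rintro z hz
      rw [Set.mem_singleton_iff.1 hz]
      exact ⟨hτS, hEt.lt.le⟩
    · intro i
      exact hBB (x_mem_Bx i)
    · exact hBB (le_Bx hc1.yB)
    · intro i
      exact JI_x i
    · exact JI_y
    · rintro z hz
      rw [Set.mem_singleton_iff.1 hz]
      exact ⟨0, zero_mem _, by rw [sub_zero]; exact hτJ⟩
  have hfr1 : Fr E c1 = Fr E c := hrf.fr
  have hfr : Fr E (⟨B', x1, c1.y⟩ : Tri W r) = Fr E c ⊔ IntermediateField.adjoin E {τ} := by
    apply le_antisymm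
    · unfold Fr
      rw [IntermediateField.adjoin_le_iff]
      intro z hz
      have hz' : z ∈ (Fr E c ⊔ IntermediateField.adjoin E {τ}).toSubring := by
        refine locV_closure_le _ ?_ (fun w hw _ => ?_) hz
        · rintro v (hv | hv)
          · have h1 : v ∈ Fr E c1 := HO_mem_Fr hc1 (Bx_mem_HO hc1 hM1 hv)
            rw [hfr1] at h1
            exact (le_sup_left : Fr E c ≤ _) h1
          · rw [Set.mem_singleton_iff.1 hv]
            exact hτ
        · exact inv_mem (S := IntermediateField E W) hw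
      exact hz'
    · refine sup_le ?_ ?_
      · unfold Fr
        rw [IntermediateField.adjoin_le_iff]
        intro z hz
        refine IntermediateField.subset_adjoin _ _ ?_
        exact hBB (le_Bx (hrf.B_le hz))
      · rw [IntermediateField.adjoin_le_iff]
        intro z hz
        rw [Set.mem_singleton_iff.1 hz]
        exact IntermediateField.subset_adjoin _ _ hτB
  refine ⟨⟨B', x1, c1.y⟩, ⟨hGs.gd, ?_, ?_⟩, ?_⟩
  · rw [hfr]
    exact hle L hc.le fun g hg => (hG g hg).2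
  · intro z hz
    rw [hfr]
    exact cl_mono le_sup_left (hc.dense z hz)
  · rw [hfr, hfld]

theorem m_all (hA : AmbX p r S) {L : IntermediateField E W} {c : Tri W r} (hc : Ch S L c)
    (Z : Finset W) (hZ : ∀ z ∈ Z, z ∈ S ∧ z ∈ L ∧ z ≠ 0) :
    ∃ c' : Tri W r, Ch S L c' ∧
      Fr E c' = Fr E c ⊔ IntermediateField.adjoin E (Z : Set W) ∧ ∀ z ∈ Z, MoH c' z := by
  obtain ⟨c1, h1, h2⟩ := fld hA hc Z fun z hz => ⟨(hZ z hz).1, (hZ z hz).2.1⟩
  obtain ⟨c2, h3, h4⟩ := Fld_frac hA h1.gd Z (by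
    intro z hz
    refine ⟨?_, (hZ z hz).2.2⟩
    rw [h2]
    exact (le_sup_right : IntermediateField.adjoin E (Z : Set W) ≤ _)
      (IntermediateField.subset_adjoin E _ (Finset.mem_coe.2 hz)))
  exact ⟨c2, h1.of_rfS h3, by rw [h3.fr, h2], h4⟩

/-- Nonzero elements of `L` can be approximated by elements of the field of fractions. -/
theorem Ch.approx {L : IntermediateField E W} {c : Tri W r} (hc : Ch S L c) {z : W} (hz : z ∈ L)
    {ε : ℝ} (hε : 0 < ε) : ∃ z' ∈ Fr E c, ‖z - z'‖ < ε := by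
  obtain ⟨z', h1, h2⟩ := (mem_cl_iff _ z).1 (hc.dense z hz) ε hε
  exact ⟨z', h1, h2⟩

end Pool.Agent.Lib.MX
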