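import Pool.Agent.Lib.MX.PDefs

set_option autoImplicit false

/-!
# Module MX.GactX: first properties of `wp`, `gact`, `LamP` (paper section 5)

`LamP.mono`: `StR.moH`, `StR.HO_le` (`StHO.lean`).
`wp_eq`: `C(p,k) = p * n_k` for `0 < k < p` (`n_k : ℕ`, `n_1 = 1`), `p = u lam^(p-1)`: `C(p,k) lam^k s^k / lam^p = n_k u lam^(k-1) s^k`.
`Gn_pow`: induction with `Gn_mul` (`s ^ 0 = 1`: `Gn_mon` for the exponent `0`).
`gact_HL`: `lam, lam^p ∈ HL c` (`MoH.mem_HL`), `wp_eq`.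
`wp_bound`: by `wp_eq`; `Gn c (lam^(k-1) s^k) = (‖lam‖ Gn s)^(k-1) * Gn s` (`Gn c lam = ‖lam‖`: `Gn_moH`); `(‖lam‖ Gn s)^p ≤ ‖lam‖^p μ < 1` so `‖lam‖ Gn s < 1`; `Gn s ≤ μ^(1/p) < μ` if `1 < μ` (if
`Gn s ≥ μ` then `Gn s ^ p ≥ μ^p > μ`, `p ≥ 2`); natural numbers and `u` have `Gn ≤ 1`.  Strong triangle inequality `Gn_add_le` for the finite sum.
`gact_mod`: `gact z - (z + s^p) = (wp s - s^p) + wp s * (lam^p z)`, `Gn (wp s) ≤ μ`, `Gn (lam^p z) ≤ ‖lam‖^p μ < 1`.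
`gact_comp`: the bound for the composition `s + s' + lam s s'`: `Gn (lam s) ≤ 1`.
-/

namespace Pool.Agent.Lib.MX

open Pool.Agent.Lib.MP_3029eb_ag Pool.Agent.Lib.MP_3029eb_ag.Abh Pool.Agent.Lib.TDO

variable {E W : Type} [Field E] [NormedField W] [IsUltrametricDist W] [Algebra E W] {r p : ℕ}
  {S : IntermediateField E W} {c c' : Tri W r}

theorem LamP.mono {lam : W} (h : LamP p c lam) (h' : RfS S c c') : LamP p c' lam := by
  obtain ⟨u, hu, h1, h2⟩ := h.hp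
  exact ⟨h.ne, h.lt, h'.moH h.mo, u, h'.HO_le hu, h1, h2⟩

theorem wp_eq (hp : p.Prime) {lam : W} (h0 : lam ≠ 0) {u : W} (hu : (p : W) = u * lam ^ (p - 1))
    (s : W) : wp p lam s = s ^ p + u * s + u * ∑ k ∈ Finset.Ico 2 p,
      ((p.choose k / p : ℕ) : W) * lam ^ (k - 1) * s ^ k := by
  have hp2 := hp.two_le
  have hlp : lam ^ (p - 1) * lam = lam ^ p := by
    rw [← pow_succ]
    congr 1
    omega
  have hk : ∀ k ∈ Finset.Ico 2 p, (lam * s) ^ k * ((p.choose k : ℕ) : W) =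
      u * (((p.choose k / p : ℕ) : W) * lam ^ (k - 1) * s ^ k) * lam ^ p := by
    intro k hk
    rw [Finset.mem_Ico] at hk
    have h1 : p ∣ p.choose k := hp.dvd_choose_self (by omega) hk.2
    have h2 : ((p.choose k : ℕ) : W) = ((p.choose k / p : ℕ) : W) * (u * lam ^ (p - 1)) := by
      rw [← hu, ← Nat.cast_mul, Nat.div_mul_cancel h1]
    have h3 : lam ^ k = lam ^ (k - 1) * lam := by
      rw [← pow_succ]
      congr 1
      omega
    rw [h2, mul_pow, h3, ← hlp]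
    ring
  unfold wp
  rw [div_eq_iff (pow_ne_zero _ h0), add_comm (1 : W), add_pow, Finset.sum_range_succ,
    Finset.range_eq_Ico, Finset.sum_eq_sum_Ico_succ_bot (by omega),
    Finset.sum_eq_sum_Ico_succ_bot (by omega)]
  simp only [one_pow, mul_one, pow_zero, Nat.choose_zero_right, Nat.cast_one, zero_add, pow_one,
    Nat.choose_one_right, Nat.choose_self]
  rw [show (1 : ℕ) + 1 = 2 from rfl, Finset.sum_congr rfl hk, ← Finset.sum_mul, ← Finset.mul_sum, hu,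
    mul_pow, ← hlp]
  ring

private theorem GactX_one (hr : 0 < r) (hA : AmbX p r S) (hc : Gd S c) : Gn c 1 = 1 := by
  have h := Gn_mon hr hA hc 0
  rwa [mon_zero, norm_one] at h

theorem Gn_pow (hr : 0 < r) (hA : AmbX p r S) (hc : Gd S c) {s : W} (hs : s ∈ HL c) (n : ℕ) :
    Gn c (s ^ n) = Gn c s ^ n := by
  induction n with
  | zero => rw [pow_zero, pow_zero, GactX_one hr hA hc]
  | succ n ih => rw [pow_succ, pow_succ, Gn_mul hr hA hc (pow_mem hs n) hs, ih]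

theorem Gn_sum_le (hr : 0 < r) (hA : AmbX p r S) (hc : Gd S c) {ι : Type*} (t : Finset ι)
    (f : ι → W) (h : ∀ i ∈ t, f i ∈ HL c) {M : ℝ} (hM : 0 ≤ M) (h1 : ∀ i ∈ t, Gn c (f i) ≤ M) :
    Gn c (∑ i ∈ t, f i) ≤ M := by
  classical
  induction t using Finset.induction_on with
  | empty =>
    rw [Finset.sum_empty, Gn_zero hr hA hc]
    exact hM
  | insert a t ha ih =>
    rw [Finset.sum_insert ha]
    refine (Gn_add_le hr hA hc (h a (Finset.mem_insert_self _ _))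
      (sum_mem fun i hi => h i (Finset.mem_insert_of_mem hi))).trans (max_le ?_ ?_)
    · exact h1 a (Finset.mem_insert_self _ _)
    · exact ih (fun i hi => h i (Finset.mem_insert_of_mem hi))
        (fun i hi => h1 i (Finset.mem_insert_of_mem hi))

theorem Gn_sum_lt (hr : 0 < r) (hA : AmbX p r S) (hc : Gd S c) {ι : Type*} (t : Finset ι)
    (f : ι → W) (h : ∀ i ∈ t, f i ∈ HL c) {M : ℝ} (hM : 0 < M) (h1 : ∀ i ∈ t, Gn c (f i) < M) :
    Gn c (∑ i ∈ t, f i) < M := by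
  classical
  induction t using Finset.induction_on with
  | empty =>
    rw [Finset.sum_empty, Gn_zero hr hA hc]
    exact hM
  | insert a t ha ih =>
    rw [Finset.sum_insert ha]
    refine (Gn_add_le hr hA hc (h a (Finset.mem_insert_self _ _))
      (sum_mem fun i hi => h i (Finset.mem_insert_of_mem hi))).trans_lt (max_lt ?_ ?_)
    · exact h1 a (Finset.mem_insert_self _ _)
    · exact ih (fun i hi => h i (Finset.mem_insert_of_mem hi))
        (fun i hi => h1 i (Finset.mem_insert_of_mem hi))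

private theorem GactX_wpHL (hc : Gd S c) {lam : W} (hl : LamP p c lam) {s : W}
    (hs : s ∈ HL c) : wp p lam s ∈ HL c := by
  have h1 : lam ∈ HL c := hl.mo.mem_HL hc
  have h2 : lam⁻¹ ∈ HL c := (hl.mo.inv hc).mem_HL hc
  unfold wp
  rw [div_eq_mul_inv, ← inv_pow]
  exact mul_mem (sub_mem (pow_mem (add_mem (one_mem _) (mul_mem h1 hs)) _) (one_mem _))
    (pow_mem h2 _)

theorem gact_HL (hA : AmbX p r S) (hc : Gd S c) {lam : W} (hl : LamP p c lam) {s z : W}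
    (hs : s ∈ HL c) (hz : z ∈ HL c) : wp p lam s ∈ HL c ∧ gact p lam s z ∈ HL c := by
  have h1 : lam ∈ HL c := hl.mo.mem_HL hc
  have h2 := GactX_wpHL hc hl hs
  refine ⟨h2, ?_⟩
  unfold gact
  exact add_mem hz (mul_mem h2 (add_mem (one_mem _) (mul_mem (pow_mem h1 _) hz)))

private theorem GactX_lam (hr : 0 < r) (hA : AmbX p r S) (hc : Gd S c) {lam : W}
    (hl : LamP p c lam) : Gn c lam = ‖lam‖ :=
  (moH_iff_Gn hr hA hc (hl.mo.mem_HL hc) hl.ne).1 hl.mo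

private theorem GactX_lt (hA : AmbX p r S) {lam : W} {s : W} {μ : ℝ} (h2 : ‖lam‖ ^ p * μ < 1)
    (hGs : Gn c s ^ p ≤ μ) : ‖lam‖ * Gn c s < 1 := by
  have h3 : (‖lam‖ * Gn c s) ^ p < 1 ^ p := by
    rw [mul_pow, one_pow]
    exact (mul_le_mul_of_nonneg_left hGs (pow_nonneg (norm_nonneg _) _)).trans_lt h2
  exact lt_of_pow_lt_pow_left₀ p zero_le_one h3

/-- `wp s` is close to `s ^ p` -/
theorem wp_bound (hr : 0 < r) (hA : AmbX p r S) (hc : Gd S c) {lam : W} (hl : LamP p c lam)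
    {s : W} (hs : s ∈ HL c) {μ : ℝ} (h1 : 1 < μ) (h2 : ‖lam‖ ^ p * μ < 1)
    (hGs : Gn c s ^ p ≤ μ) :
    ‖lam‖ * Gn c s < 1 ∧ Gn c s < μ ∧ Gn c (wp p lam s - s ^ p) < μ ∧ Gn c (wp p lam s) ≤ μ := by
  have hp := hA.prime
  have hlH : lam ∈ HL c := hl.mo.mem_HL hc
  have ha := GactX_lt hA h2 hGs
  have hb : Gn c s < μ := by
    by_contra hcon
    rw [not_lt] at hcon
    have h3 : μ ^ p ≤ Gn c s ^ p := pow_le_pow_left₀ (by linarith) hcon p
    have h4 : μ < μ ^ p := lt_self_pow₀ h1 hp.one_lt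
    linarith
  obtain ⟨u, hu, -, hup⟩ := hl.hp
  have huH : u ∈ HL c := HO_le_HL hu
  have hu1 : Gn c u ≤ 1 := (Gn_le_one_iff hr hA hc huH).2 hu
  have hnat : ∀ n : ℕ, ((n : ℕ) : W) ∈ HL c ∧ Gn c ((n : ℕ) : W) ≤ 1 := by
    intro n
    have h3 : ((n : ℕ) : W) ∈ HO c := natCast_mem (HO c) n
    exact ⟨HO_le_HL h3, (Gn_le_one_iff hr hA hc (HO_le_HL h3)).2 h3⟩
  have hT : ∀ k ∈ Finset.Ico 2 p, ((p.choose k / p : ℕ) : W) * lam ^ (k - 1) * s ^ k ∈ HL c := by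
    intro k _
    exact mul_mem (mul_mem (hnat _).1 (pow_mem hlH _)) (pow_mem hs _)
  have hTG : ∀ k ∈ Finset.Ico 2 p,
      Gn c (((p.choose k / p : ℕ) : W) * lam ^ (k - 1) * s ^ k) < μ := by
    intro k hk
    rw [Finset.mem_Ico] at hk
    rw [Gn_mul hr hA hc (mul_mem (hnat _).1 (pow_mem hlH _)) (pow_mem hs _),
      Gn_mul hr hA hc (hnat _).1 (pow_mem hlH _), Gn_pow hr hA hc hlH, Gn_pow hr hA hc hs,
      GactX_lam hr hA hc hl]
    have h3 : Gn c s ^ k = Gn c s ^ (k - 1) * Gn c s := by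
      rw [← pow_succ]
      congr 1
      omega
    have h4 : Gn c ((p.choose k / p : ℕ) : W) * ‖lam‖ ^ (k - 1) * Gn c s ^ k =
        (Gn c ((p.choose k / p : ℕ) : W) * (‖lam‖ * Gn c s) ^ (k - 1)) * Gn c s := by
      rw [h3, mul_pow]
      ring
    rw [h4]
    refine lt_of_le_of_lt ?_ hb
    refine mul_le_of_le_one_left (Gn_nonneg _) ?_
    have h5 : (‖lam‖ * Gn c s) ^ (k - 1) ≤ 1 :=
      pow_le_one₀ (mul_nonneg (norm_nonneg _) (Gn_nonneg _)) ha.le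
    exact mul_le_one₀ (hnat _).2 (pow_nonneg (mul_nonneg (norm_nonneg _) (Gn_nonneg _)) _) h5
  have hsum := Gn_sum_lt hr hA hc (Finset.Ico 2 p)
    (fun k => ((p.choose k / p : ℕ) : W) * lam ^ (k - 1) * s ^ k) hT (by linarith) hTG
  have hsumH : ∑ k ∈ Finset.Ico 2 p, ((p.choose k / p : ℕ) : W) * lam ^ (k - 1) * s ^ k ∈ HL c :=
    sum_mem hT
  have hcc : Gn c (wp p lam s - s ^ p) < μ := by
    have e : wp p lam s - s ^ p = u * s + u * ∑ k ∈ Finset.Ico 2 p,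
      ((p.choose k / p : ℕ) : W) * lam ^ (k - 1) * s ^ k := by
      rw [wp_eq hp hl.ne hup s]
      ring
    rw [e]
    refine (Gn_add_le hr hA hc (mul_mem huH hs) (mul_mem huH hsumH)).trans_lt (max_lt ?_ ?_)
    · rw [Gn_mul hr hA hc huH hs]
      exact (mul_le_of_le_one_left (Gn_nonneg _) hu1).trans_lt hb
    · rw [Gn_mul hr hA hc huH hsumH]
      exact (mul_le_of_le_one_left (Gn_nonneg _) hu1).trans_lt hsum
  refine ⟨ha, hb, hcc, ?_⟩
  have e : wp p lam s = (wp p lam s - s ^ p) + s ^ p := by ring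
  rw [e]
  have hwH := GactX_wpHL hc hl hs
  refine (Gn_add_le hr hA hc (sub_mem hwH (pow_mem hs _)) (pow_mem hs _)).trans
    (max_le hcc.le ?_)
  rw [Gn_pow hr hA hc hs]
  exact hGs

/-- `gact z` is close to `z + s ^ p` -/
theorem gact_mod (hr : 0 < r) (hA : AmbX p r S) (hc : Gd S c) {lam : W} (hl : LamP p c lam)
    {s z : W} (hs : s ∈ HL c) (hz : z ∈ HL c) {μ : ℝ} (h1 : 1 < μ) (h2 : ‖lam‖ ^ p * μ < 1)
    (hGs : Gn c s ^ p ≤ μ) (hGz : Gn c z ≤ μ) :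
    Gn c (gact p lam s z - (z + s ^ p)) < μ ∧ Gn c (gact p lam s z) ≤ μ := by
  have hlH : lam ∈ HL c := hl.mo.mem_HL hc
  have hwH := GactX_wpHL hc hl hs
  obtain ⟨-, -, h3, h4⟩ := wp_bound hr hA hc hl hs h1 h2 hGs
  have hlz : lam ^ p * z ∈ HL c := mul_mem (pow_mem hlH _) hz
  have h5 : Gn c (lam ^ p * z) < 1 := by
    rw [Gn_mul hr hA hc (pow_mem hlH _) hz, Gn_pow hr hA hc hlH, GactX_lam hr hA hc hl]
    exact (mul_le_mul_of_nonneg_left hGz (pow_nonneg (norm_nonneg _) _)).trans_lt h2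
  have h6 : Gn c (wp p lam s * (lam ^ p * z)) < μ := by
    rw [Gn_mul hr hA hc hwH hlz]
    have h7 : Gn c (wp p lam s) * Gn c (lam ^ p * z) ≤ μ * Gn c (lam ^ p * z) :=
      mul_le_mul_of_nonneg_right h4 (Gn_nonneg _)
    have h8 : μ * Gn c (lam ^ p * z) < μ * 1 := mul_lt_mul_of_pos_left h5 (by linarith)
    linarith
  have e : gact p lam s z - (z + s ^ p) =
      (wp p lam s - s ^ p) + wp p lam s * (lam ^ p * z) := by
    unfold gact
    ring
  have h7 : Gn c (gact p lam s z - (z + s ^ p)) < μ := by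
    rw [e]
    exact (Gn_add_le hr hA hc (sub_mem hwH (pow_mem hs _)) (mul_mem hwH hlz)).trans_lt
      (max_lt h3 h6)
  refine ⟨h7, ?_⟩
  have hg := (gact_HL hA hc hl hs hz).2
  have hzs : z + s ^ p ∈ HL c := add_mem hz (pow_mem hs _)
  have e2 : gact p lam s z = (gact p lam s z - (z + s ^ p)) + (z + s ^ p) := by ring
  rw [e2]
  refine (Gn_add_le hr hA hc (sub_mem hg hzs) hzs).trans (max_le h7.le ?_)
  refine (Gn_add_le hr hA hc hz (pow_mem hs _)).trans (max_le hGz ?_)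
  rw [Gn_pow hr hA hc hs]
  exact hGs

theorem gact_comp (hr : 0 < r) (hA : AmbX p r S) (hc : Gd S c) {lam : W} (hl : LamP p c lam)
    {s s' : W} (hs : s ∈ HL c) (hs' : s' ∈ HL c) {μ : ℝ} (h1 : 1 ≤ μ) (h2 : ‖lam‖ ^ p * μ < 1)
    (hGs : Gn c s ^ p ≤ μ) (hGs' : Gn c s' ^ p ≤ μ) :
    s + s' + lam * s * s' ∈ HL c ∧ Gn c (s + s' + lam * s * s') ^ p ≤ μ := by
  have hlH : lam ∈ HL c := hl.mo.mem_HL hc
  have hls : lam * s ∈ HL c := mul_mem hlH hs
  have h3 : Gn c (lam * s) ≤ 1 := by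
    rw [Gn_mul hr hA hc hlH hs, GactX_lam hr hA hc hl]
    exact (GactX_lt hA h2 hGs).le
  have h4 : Gn c (lam * s * s') ≤ Gn c s' := by
    rw [Gn_mul hr hA hc hls hs']
    exact mul_le_of_le_one_left (Gn_nonneg _) h3
  have h5 : Gn c (s + s' + lam * s * s') ≤ max (Gn c s) (Gn c s') :=
    (Gn_add_le hr hA hc (add_mem hs hs') (mul_mem hls hs')).trans
      (max_le (Gn_add_le hr hA hc hs hs') (h4.trans (le_max_right _ _)))
  refine ⟨add_mem (add_mem hs hs') (mul_mem hls hs'), ?_⟩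
  refine (pow_le_pow_left₀ (Gn_nonneg _) h5 p).trans ?_
  rcases le_total (Gn c s) (Gn c s') with h | h
  · rwa [max_eq_right h]
  · rwa [max_eq_left h]

end Pool.Agent.Lib.MX
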