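import Pool.Agent.Lib.MX.AdmSt
import Pool.Agent.Lib.MX.ThmF

set_option autoImplicit false

/-!
# Module MX.GnF: the norm `Gn c` on the field of fractions

`exists_gnf`: every `z ∈ Fr E c` is `a / b` with `a, b ∈ HL c`, `b ≠ 0` (the set of these quotients is a subfield containing `c.B`
and the image of `E`: an element of `E` or its inverse is in `Lam E W ≤ c.B`).  Put `N z := Gn c a / Gn c b` for a chosen pair, `N z := 0` if there is none;
well defined since `Gn c` is multiplicative on `HL c` and nonzero on nonzero elements; ultrametric: `a/b + a'/b' = (ab' + a'b)/(bb')`.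
`gnf_adm`: `RfS S c0 c`: `HO c0 ≤ HO c`, `HL c0 ≤ HL c`, `MoH c (mon c0.x a)`, `Fr E c = Fr E c0` (`fr_stage`, induction).  `N z = Gn c z ≤ 1` for
`z ∈ HO c`; `Gn c z = ‖z‖` if `MoH c z`; `‖z‖ ≤ Gn c z` on `HL c`.
-/

namespace Pool.Agent.Lib.MX

open Pool.Agent.Lib.MP_3029eb_ag Pool.Agent.Lib.MP_3029eb_ag.Abh Pool.Agent.Lib.TDO
open Pool.Agent.Lib.TU (Mt)

variable {E W : Type} [Field E] [NormedField W] [IsUltrametricDist W] [Algebra E W] {p r : ℕ}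
  {S : IntermediateField E W}

open Classical in
private noncomputable def GnF_N (c : Tri W r) (z : W) : ℝ :=
  if h : ∃ q : W × W, q.1 ∈ HL c ∧ q.2 ∈ HL c ∧ q.2 ≠ 0 ∧ z * q.2 = q.1 then
    Gn c h.choose.1 / Gn c h.choose.2 else 0

private theorem GnF_eq (hr : 0 < r) (hA : AmbX p r S) {c : Tri W r} (hc : Gd S c) {z a b : W}
    (ha : a ∈ HL c) (hb : b ∈ HL c) (hb0 : b ≠ 0) (h : z * b = a) :
    GnF_N c z = Gn c a / Gn c b := by
  have hex : ∃ q : W × W, q.1 ∈ HL c ∧ q.2 ∈ HL c ∧ q.2 ≠ 0 ∧ z * q.2 = q.1 :=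
    ⟨(a, b), ha, hb, hb0, h⟩
  unfold GnF_N
  rw [dif_pos hex]
  obtain ⟨h1, h2, h3, h4⟩ := hex.choose_spec
  obtain ⟨q, hq⟩ : ∃ q : W × W, hex.choose = q := ⟨_, rfl⟩
  rw [hq] at h1 h2 h3 h4 ⊢
  have p1 : 0 < Gn c q.2 := Gn_pos hr hA hc h2 h3
  have p2 : 0 < Gn c b := Gn_pos hr hA hc hb hb0
  have e1 : q.1 * b = a * q.2 := by
    rw [← h4, ← h]
    ring
  have e2 : Gn c q.1 * Gn c b = Gn c a * Gn c q.2 := by
    rw [← Gn_mul hr hA hc h1 hb, ← Gn_mul hr hA hc ha h2, e1]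
  rw [div_eq_div_iff p1.ne' p2.ne']
  exact e2

private theorem GnF_rep {c : Tri W r} (hc : Gd S c) {z : W} (hz : z ∈ Fr E c) :
    ∃ a ∈ HL c, ∃ b ∈ HL c, b ≠ 0 ∧ z * b = a := by
  obtain ⟨a, ha, b, hb, hb0, h⟩ := (mem_Fr_iff hc z).1 hz
  exact ⟨a, HO_le_HL (B_mem_HO hc ha), b, HO_le_HL (B_mem_HO hc hb), hb0, h⟩

theorem exists_gnf (hr : 0 < r) (hA : AmbX p r S) {c : Tri W r} (hc : Gd S c) :
    ∃ N : W → ℝ, FN (Fr E c) N ∧ ∀ z ∈ HL c, N z = Gn c z := by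
  have g1 : 0 < Gn c (1 : W) := Gn_pos hr hA hc (one_mem _) one_ne_zero
  have h1 : Gn c (1 : W) = 1 := by
    have h := Gn_mul hr hA hc (one_mem (HL c)) (one_mem (HL c))
    rw [mul_one] at h
    exact (mul_left_cancel₀ g1.ne' (by rw [mul_one]; exact h)).symm
  refine ⟨GnF_N c, ⟨?_, ?_, ?_, ?_, ?_⟩, ?_⟩
  · rw [GnF_eq hr hA hc (zero_mem (HL c)) (one_mem (HL c)) one_ne_zero (zero_mul 1),
      Gn_zero hr hA hc, zero_div]
  · rw [GnF_eq hr hA hc (one_mem (HL c)) (one_mem (HL c)) one_ne_zero (mul_one 1)]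
    exact div_self g1.ne'
  · intro z hz hz0
    obtain ⟨a, ha, b, hb, hb0, h⟩ := GnF_rep hc hz
    rw [GnF_eq hr hA hc ha hb hb0 h]
    refine div_pos (Gn_pos hr hA hc ha ?_) (Gn_pos hr hA hc hb hb0)
    rw [← h]
    exact mul_ne_zero hz0 hb0
  · intro z hz z' hz'
    obtain ⟨a, ha, b, hb, hb0, h⟩ := GnF_rep hc hz
    obtain ⟨a', ha', b', hb', hb0', h'⟩ := GnF_rep hc hz'
    have e : z * z' * (b * b') = a * a' := by
      rw [← h, ← h']
      ring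
    rw [GnF_eq hr hA hc (mul_mem ha ha') (mul_mem hb hb') (mul_ne_zero hb0 hb0') e,
      GnF_eq hr hA hc ha hb hb0 h, GnF_eq hr hA hc ha' hb' hb0' h', Gn_mul hr hA hc ha ha',
      Gn_mul hr hA hc hb hb', div_mul_div_comm]
  · intro z hz z' hz'
    obtain ⟨a, ha, b, hb, hb0, h⟩ := GnF_rep hc hz
    obtain ⟨a', ha', b', hb', hb0', h'⟩ := GnF_rep hc hz'
    have e : (z + z') * (b * b') = a * b' + a' * b := by
      rw [← h, ← h']
      ring
    have p1 : 0 < Gn c b := Gn_pos hr hA hc hb hb0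
    have p2 : 0 < Gn c b' := Gn_pos hr hA hc hb' hb0'
    rw [GnF_eq hr hA hc (add_mem (mul_mem ha hb') (mul_mem ha' hb)) (mul_mem hb hb')
      (mul_ne_zero hb0 hb0') e, GnF_eq hr hA hc ha hb hb0 h, GnF_eq hr hA hc ha' hb' hb0' h',
      Gn_mul hr hA hc hb hb', div_le_iff₀ (mul_pos p1 p2)]
    refine (Gn_add_le hr hA hc (mul_mem ha hb') (mul_mem ha' hb)).trans (max_le ?_ ?_)
    · rw [Gn_mul hr hA hc ha hb']
      have e1 : Gn c a * Gn c b' = Gn c a / Gn c b * (Gn c b * Gn c b') := by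
        field_simp
      rw [e1]
      exact mul_le_mul_of_nonneg_right (le_max_left _ _) (mul_pos p1 p2).le
    · rw [Gn_mul hr hA hc ha' hb]
      have e1 : Gn c a' * Gn c b = Gn c a' / Gn c b' * (Gn c b * Gn c b') := by
        field_simp
      rw [e1]
      exact mul_le_mul_of_nonneg_right (le_max_right _ _) (mul_pos p1 p2).le
  · intro z hz
    rw [GnF_eq hr hA hc hz (one_mem (HL c)) one_ne_zero (mul_one z), h1, div_one]

theorem gnf_adm (hr : 0 < r) (hA : AmbX p r S) {c0 c : Tri W r} (hc0 : Gd S c0) (hrf : RfS S c0 c)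
    {N : W → ℝ} (hN : FN (Fr E c) N) (hg : ∀ z ∈ HL c, N z = Gn c z) : Adm E c0 N := by
  have hc : Gd S c := hrf.gd hc0
  refine ⟨?_, ?_, ?_, ?_⟩
  · have h := hrf.fr
    rwa [h] at hN
  · intro z hz
    have h1 : z ∈ HO c := hrf.HO_le hz
    rw [hg z (HO_le_HL h1)]
    exact (Gn_le_one_iff hr hA hc (HO_le_HL h1)).2 h1
  · intro a
    have h1 := hrf.mon_moH hc0 a
    rw [hg _ (h1.mem_HL hc)]
    exact (moH_iff_Gn hr hA hc (h1.mem_HL hc) (h1.ne hc)).1 h1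
  · intro z hz
    have h1 : z ∈ HL c := hrf.HL_le hc0 hz
    rw [hg z h1]
    exact norm_le_Gn hr hA hc h1

end Pool.Agent.Lib.MX
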