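import Pool.Agent.Lib.MX.BxB
import Pool.Agent.Lib.MX.Res
import Pool.Agent.Lib.MP_3029eb_ag.AbhBase
import Pool.Agent.Lib.MP_3029eb_ag.K3

set_option autoImplicit false

/-!
# Module MX.GoodExt: construction of good rings

`B' = locV (B[Z, w])`.  Every element of `B[Z, w]` is `P(w) + i`, `P` a polynomial over `B`, `i` in the
ideal `(x', y') B'` (closure induction).  If `‖P(w)‖ < 1` divide `P` by the monic `G`: `P = G Q + R`, the
residue of `R` is a polynomial over `κ_B` of degree less than the degree of the minimal polynomial `g`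
with root `rs w`, so it is zero, the coefficients of `R` have norm `< 1`, so they are in `(x, y) B`,
which is contained in `(x', y') B'`, and `G(w)` is in `(x', y') B'`.
-/

namespace Pool.Agent.Lib.MX

open Pool.Agent.Lib.MP_3029eb_ag Pool.Agent.Lib.MP_3029eb_ag.Abh Pool.Agent.Lib.TDO
open Pool.Agent.Lib.TU (Mt)

section basic

variable {W : Type} [NormedField W] [IsUltrametricDist W] {r : ℕ}

theorem mem_locB {A : Subring W} {z : W} :
    z ∈ locV (ball W) A ↔ ∃ a ∈ A, ∃ b ∈ A, ‖b‖ = 1 ∧ z * b = a := by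
  constructor
  · rintro ⟨a, ha, b, hb, hb1, h⟩
    exact ⟨a, ha, b, hb, (ball_val_eq_one b).1 hb1, h⟩
  · rintro ⟨a, ha, b, hb, hb1, h⟩
    exact ⟨a, ha, b, hb, (ball_val_eq_one b).2 hb1, h⟩

/-- The ring homomorphism `B → RW W`. -/
noncomputable def rsHom (B : Subring W) (hB : ∀ z ∈ B, ‖z‖ ≤ 1) : B →+* RW W where
  toFun b := rs (b : W)
  map_one' := rs_one
  map_mul' a b := rs_mul (hB a a.2) (hB b b.2)
  map_zero' := rs_zero
  map_add' a b := rs_add (hB a a.2) (hB b b.2)

/-- `JI` of a smaller ring in `JI` of a larger one -/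
theorem JI_mono' {B B' : Subring W} {x x' : Fin r → W} {y y' : W} (h : B ≤ B')
    (hx : ∀ i, x i ∈ JI B' x' y') (hy : y ∈ JI B' x' y') {z : W} (hz : z ∈ JI B x y) :
    z ∈ JI B' x' y' := JI_le hx hy (JI_mono h hz)

end basic

variable {E W : Type} [Field E] [NormedField W] [IsUltrametricDist W] [Algebra E W] {r : ℕ}
  {S : IntermediateField E W}

/-- Construction of good rings, general case. -/
theorem good_ext {c : Tri W r} (hc : Gs S c) {w : W} (hwS : w ∈ S) (hw1 : ‖w‖ ≤ 1)
    (g : Polynomial (kap c.B)) (gm : g.Monic) (gi : Irreducible g)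
    (gw : Polynomial.aeval (rs w) g = 0) (G : Polynomial W) (Gm : G.Monic)
    (Gc : ∀ j, G.coeff j ∈ c.B) (Gr : ∀ j, rs (G.coeff j) = (g.coeff j : RW W))
    (Z : Set W) (hZf : Z.Finite) (hZ : ∀ z ∈ Z, z ∈ S ∧ ‖z‖ ≤ 1) (x' : Fin r → W) (y' : W)
    (hx' : Indep x') (hy' : ‖y'‖ < 1) (B' : Subring W)
    (hB' : B' = locV (ball W) (Subring.closure ((c.B : Set W) ∪ (Z ∪ {w}))))
    (hx'B : ∀ i, x' i ∈ B') (hy'B : y' ∈ B') (hx : ∀ i, c.x i ∈ JI B' x' y')
    (hy : c.y ∈ JI B' x' y')
    (hZd : ∀ z ∈ Z, ∃ P : Polynomial W, (∀ j, P.coeff j ∈ c.B) ∧ z - P.eval w ∈ JI B' x' y')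
    (hG : G.eval w ∈ JI B' x' y') : Gs S (⟨B', x', y'⟩ : Tri W r) := by
  classical
  have hcB1 : ∀ z ∈ c.B, ‖z‖ ≤ 1 := fun z hz => (hc.le z hz).2
  set A : Subring W := Subring.closure ((c.B : Set W) ∪ (Z ∪ {w})) with hA
  have hA1 : A ≤ (ball W).toSubring := by
    rw [hA, Subring.closure_le]
    rintro z (hz | (hz | hz))
    · exact hcB1 z hz
    · exact (hZ z hz).2
    · rw [Set.mem_singleton_iff] at hz
      rw [hz]; exact hw1
  have hB1 : ∀ z ∈ B', ‖z‖ ≤ 1 := by
    intro z hz
    rw [hB'] at hz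
    exact locV_le _ hA1 hz
  have hAB : A ≤ B' := by rw [hB']; exact le_locV _ _
  have hcA : c.B ≤ A := fun z hz => Subring.subset_closure (Or.inl hz)
  have hwA : w ∈ A := Subring.subset_closure (Or.inr (Or.inr rfl))
  have hcB' : c.B ≤ B' := hcA.trans hAB
  have hinv : ∀ z ∈ B', ‖z‖ = 1 → z⁻¹ ∈ B' := by
    intro z hz h1
    rw [hB'] at hz ⊢
    exact inv_mem_locV hz h1
  -- polynomials over c.B
  have hlift : ∀ P : Polynomial W, (∀ j, P.coeff j ∈ c.B) →
      ∃ Q : Polynomial c.B, Q.map c.B.subtype = P := by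
    intro P hP
    have h1 : P ∈ Polynomial.lifts c.B.subtype := by
      rw [Polynomial.lifts_iff_coeff_lifts]
      intro j
      exact ⟨⟨P.coeff j, hP j⟩, rfl⟩
    exact (Polynomial.mem_lifts P).1 h1
  have hev : ∀ P : Polynomial c.B, (P.map c.B.subtype).eval w ∈ B' := by
    intro P
    rw [Polynomial.eval_map, Polynomial.eval₂_eq_sum_range]
    exact sum_mem fun j _ => mul_mem (hcB' (P.coeff j).2) (pow_mem (hAB hwA) _)
  -- the residue polynomial
  have hρF : ∀ b : c.B, rsHom c.B hcB1 b ∈ kap c.B := fun b =>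
    Subfield.subset_closure ⟨b, b.2, rfl⟩
  let ρ : c.B →+* kap c.B := (rsHom c.B hcB1).codRestrict (kap c.B) hρF
  have hρ : ∀ b : c.B, ((ρ b : kap c.B) : RW W) = rs (b : W) := fun b => rfl
  have hrsev : ∀ P : Polynomial c.B,
      Polynomial.aeval (rs w) (P.map ρ) = rs ((P.map c.B.subtype).eval w) := by
    intro P
    induction P using Polynomial.induction_on' with
    | add P Q hP hQ =>
      have h1 : ‖(P.map c.B.subtype).eval w‖ ≤ 1 := hB1 _ (hev P)
      have h2 : ‖(Q.map c.B.subtype).eval w‖ ≤ 1 := hB1 _ (hev Q)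
      rw [Polynomial.map_add, map_add, hP, hQ, Polynomial.map_add, Polynomial.eval_add,
        rs_add h1 h2]
    | monomial n a =>
      rw [Polynomial.map_monomial, Polynomial.aeval_monomial, Polynomial.map_monomial,
        Polynomial.eval_monomial]
      have hpow : ∀ n : ℕ, rs (w ^ n) = rs w ^ n := by
        intro n
        induction n with
        | zero => rw [pow_zero, pow_zero, rs_one]
        | succ n ih =>
          have h3 : ‖w ^ n‖ ≤ 1 := by
            rw [norm_pow]; exact pow_le_one₀ (norm_nonneg _) hw1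
          rw [pow_succ, rs_mul h3 hw1, ih, pow_succ]
      have h3 : ‖w ^ n‖ ≤ 1 := by
        rw [norm_pow]; exact pow_le_one₀ (norm_nonneg _) hw1
      have h4 : ‖(a : W)‖ ≤ 1 := hcB1 _ a.2
      show (algebraMap (kap c.B) (RW W)) (ρ a) * rs w ^ n = rs ((a : W) * w ^ n)
      rw [rs_mul h4 h3, hpow]
      rfl
  obtain ⟨G', hG'⟩ := hlift G Gc
  have hG'm : G'.Monic := by
    have h1 : (G'.map c.B.subtype).Monic := by rw [hG']; exact Gm
    exact Polynomial.monic_of_injective Subtype.coe_injective h1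
  have hG'ρ : G'.map ρ = g := by
    ext j
    rw [Polynomial.coeff_map, hρ]
    have h1 : ((G'.coeff j : c.B) : W) = G.coeff j := by
      rw [← hG', Polynomial.coeff_map]
      rfl
    rw [h1, Gr]
  have hgmin : g = minpoly (kap c.B) (rs w) := minpoly.eq_of_irreducible_of_monic gi gw gm
  have key : ∀ P : Polynomial c.B, ‖(P.map c.B.subtype).eval w‖ < 1 →
      (P.map c.B.subtype).eval w ∈ JI B' x' y' := by
    intro P hP
    set R := P %ₘ G' with hR
    set Q := P /ₘ G' with hQ
    have hdiv : R + G' * Q = P := Polynomial.modByMonic_add_div P G'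
    have hRdeg : R.degree < G'.degree := Polynomial.degree_modByMonic_lt P hG'm
    have hGw : ‖G.eval w‖ < 1 := JI_lt hB1 hx'.lt hy' hG
    have e1 : (P.map c.B.subtype).eval w =
        (R.map c.B.subtype).eval w + G.eval w * (Q.map c.B.subtype).eval w := by
      rw [← hdiv, Polynomial.map_add, Polynomial.eval_add, Polynomial.map_mul,
        Polynomial.eval_mul, hG']
    have hRw : ‖(R.map c.B.subtype).eval w‖ < 1 := by
      have h1 : (R.map c.B.subtype).eval w =
          (P.map c.B.subtype).eval w + -(G.eval w * (Q.map c.B.subtype).eval w) := by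
        rw [e1]; ring
      rw [h1]
      refine (IsUltrametricDist.norm_add_le_max _ _).trans_lt (max_lt hP ?_)
      rw [norm_neg, norm_mul]
      exact (mul_le_of_le_one_right (norm_nonneg _) (hB1 _ (hev Q))).trans_lt hGw
    have hR0 : R.map ρ = 0 := by
      by_contra hne
      have h1 : Polynomial.aeval (rs w) (R.map ρ) = 0 := by
        rw [hrsev, rs_eq_zero_iff hRw.le]
        exact hRw
      have h2 := minpoly.degree_le_of_ne_zero (kap c.B) (rs w) hne h1
      rw [← hgmin, ← hG'ρ, hG'm.degree_map] at h2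
      exact absurd ((Polynomial.degree_map_le (f := ρ) (p := R)).trans_lt hRdeg) (not_lt.2 h2)
    have hRc : ∀ j, ((R.coeff j : c.B) : W) ∈ JI B' x' y' := by
      intro j
      have h1 : (ρ (R.coeff j) : RW W) = 0 := by
        rw [← Polynomial.coeff_map, hR0, Polynomial.coeff_zero]
        rfl
      rw [hρ, rs_eq_zero_iff (hcB1 _ (R.coeff j).2)] at h1
      exact JI_mono' hcB' hx hy (hc.gen _ (R.coeff j).2 h1)
    rw [e1]
    refine JI_add ?_ ?_
    · rw [Polynomial.eval_map, Polynomial.eval₂_eq_sum_range]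
      refine JI_sum _ _ fun j _ => ?_
      rw [mul_comm]
      exact JI_mul (pow_mem (hAB hwA) _) (hRc j)
    · rw [mul_comm]
      exact JI_mul (hev Q) hG
  -- every element of A
  have hdec : ∀ z ∈ A, ∃ P : Polynomial c.B, z - (P.map c.B.subtype).eval w ∈ JI B' x' y' := by
    intro z hz
    rw [hA] at hz
    induction hz using Subring.closure_induction with
    | mem z hz =>
      rcases hz with hz | (hz | hz)
      · refine ⟨Polynomial.C ⟨z, hz⟩, ?_⟩
        rw [Polynomial.map_C, Polynomial.eval_C]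
        show z - z ∈ _
        rw [sub_self]
        exact JI_zero
      · obtain ⟨P, hP, hPz⟩ := hZd z hz
        obtain ⟨Q, hQ⟩ := hlift P hP
        exact ⟨Q, by rw [hQ]; exact hPz⟩
      · rw [Set.mem_singleton_iff] at hz
        refine ⟨Polynomial.X, ?_⟩
        rw [Polynomial.map_X, Polynomial.eval_X, hz, sub_self]
        exact JI_zero
    | zero =>
      refine ⟨0, ?_⟩
      rw [Polynomial.map_zero, Polynomial.eval_zero, sub_zero]
      exact JI_zero
    | one =>
      refine ⟨1, ?_⟩
      rw [Polynomial.map_one, Polynomial.eval_one, sub_self]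
      exact JI_zero
    | add a b _ _ h1 h2 =>
      obtain ⟨P, hP⟩ := h1
      obtain ⟨Q, hQ⟩ := h2
      refine ⟨P + Q, ?_⟩
      rw [Polynomial.map_add, Polynomial.eval_add]
      have e : a + b - ((P.map c.B.subtype).eval w + (Q.map c.B.subtype).eval w) =
          (a - (P.map c.B.subtype).eval w) + (b - (Q.map c.B.subtype).eval w) := by ring
      rw [e]
      exact JI_add hP hQ
    | neg a _ h1 =>
      obtain ⟨P, hP⟩ := h1
      refine ⟨-P, ?_⟩
      rw [Polynomial.map_neg, Polynomial.eval_neg]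
      have e : -a - -(P.map c.B.subtype).eval w = -(a - (P.map c.B.subtype).eval w) := by ring
      rw [e]
      exact JI_neg hP
    | mul a b ha _ h1 h2 =>
      obtain ⟨P, hP⟩ := h1
      obtain ⟨Q, hQ⟩ := h2
      refine ⟨P * Q, ?_⟩
      rw [Polynomial.map_mul, Polynomial.eval_mul]
      have e : a * b - (P.map c.B.subtype).eval w * (Q.map c.B.subtype).eval w =
          a * (b - (Q.map c.B.subtype).eval w) +
            (Q.map c.B.subtype).eval w * (a - (P.map c.B.subtype).eval w) := by ring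
      rw [e]
      exact JI_add (JI_mul (hAB ha) hQ) (JI_mul (hev Q) hP)
  refine ⟨?_, ?_, hx', hy', hx'B, hy'B, ?_, ?_⟩
  · -- finite generation
    obtain ⟨G0, hG0⟩ := hc.fg
    refine ⟨G0 ∪ (hZf.toFinset ∪ {w}), ?_⟩
    show B' = _
    rw [hB', hA]
    have h1 : ((c.B : Set W) ∪ (Z ∪ {w})) =
        ((locV (ball W) (Subring.closure ((Lam E W : Set W) ∪ (G0 : Set W))) : Set W) ∪
          (Z ∪ {w})) := by rw [← hG0]
    rw [h1, locV_closure_locV le_rfl]
    congr 1
    apply le_antisymm
    · rw [Subring.closure_le]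
      rintro z (hz | hz)
      · refine Subring.closure_mono ?_ hz
        rintro u (hu | hu)
        · exact Or.inl hu
        · refine Or.inr ?_
          simp only [Finset.coe_union, Finset.coe_singleton, Set.Finite.coe_toFinset]
          exact Or.inl hu
      · refine Subring.subset_closure (Or.inr ?_)
        simp only [Finset.coe_union, Finset.coe_singleton, Set.Finite.coe_toFinset]
        exact Or.inr hz
    · rw [Subring.closure_le]
      rintro z (hz | hz)
      · exact Subring.subset_closure (Or.inl (Subring.subset_closure (Or.inl hz)))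
      · simp only [Finset.coe_union, Finset.coe_singleton, Set.Finite.coe_toFinset] at hz
        rcases hz with hz | hz
        · exact Subring.subset_closure (Or.inl (Subring.subset_closure (Or.inr hz)))
        · exact Subring.subset_closure (Or.inr hz)
  · intro z hz
    refine ⟨?_, hB1 z hz⟩
    have h1 : A ≤ S.toSubfield.toSubring := by
      rw [hA, Subring.closure_le]
      rintro u (hu | (hu | hu))
      · exact (hc.le u hu).1
      · exact (hZ u hu).1
      · rw [Set.mem_singleton_iff] at hu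
        rw [hu]; exact hwS
    change z ∈ B' at hz
    rw [hB'] at hz
    obtain ⟨a, ha, b, hb, hb1, h⟩ := mem_locB.1 hz
    have hb0 : b ≠ 0 := by
      rintro rfl
      rw [norm_zero] at hb1
      exact zero_ne_one hb1
    have h2 : z = a / b := by rw [← h, mul_div_cancel_right₀ _ hb0]
    rw [h2]
    exact div_mem (h1 ha) (h1 hb)
  · intro z hz hz1
    change z ∈ B' at hz
    have hz' := hz
    rw [hB'] at hz'
    obtain ⟨a, ha, b, hb, hb1, h⟩ := mem_locB.1 hz'
    obtain ⟨P, hP⟩ := hdec a ha
    have ha1 : ‖a‖ < 1 := by rw [← h, norm_mul, hb1, mul_one]; exact hz1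
    have hP1 : ‖(P.map c.B.subtype).eval w‖ < 1 := by
      have e : (P.map c.B.subtype).eval w = a + -(a - (P.map c.B.subtype).eval w) := by ring
      rw [e]
      refine (IsUltrametricDist.norm_add_le_max _ _).trans_lt (max_lt ha1 ?_)
      rw [norm_neg]
      exact JI_lt hB1 hx'.lt hy' hP
    have haI : a ∈ JI B' x' y' := by
      have e : a = (a - (P.map c.B.subtype).eval w) + (P.map c.B.subtype).eval w := by ring
      rw [e]
      exact JI_add hP (key P hP1)
    have hb0 : b ≠ 0 := by
      rintro rfl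
      rw [norm_zero] at hb1
      exact zero_ne_one hb1
    have h2 : z = b⁻¹ * a := by rw [← h]; field_simp
    rw [h2]
    exact JI_mul (hinv b (hAB hb) hb1) haI
  · intro z hz
    have h1 := hc.alg z hz
    obtain ⟨P, hP0, hP⟩ := h1
    refine ⟨P.map (Subring.inclusion hcB'), ?_, ?_⟩
    · exact (Polynomial.map_ne_zero_iff (Subring.inclusion_injective hcB')).2 hP0
    · rw [Polynomial.aeval_def, Polynomial.eval₂_map]
      exact hP

/-- Construction of good rings without residue field extension. -/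
theorem good_ext0 {c : Tri W r} (hc : Gs S c) (Z : Set W) (hZf : Z.Finite)
    (hZ : ∀ z ∈ Z, z ∈ S ∧ ‖z‖ ≤ 1) (x' : Fin r → W) (y' : W)
    (hx' : Indep x') (hy' : ‖y'‖ < 1) (B' : Subring W)
    (hB' : B' = locV (ball W) (Subring.closure ((c.B : Set W) ∪ Z)))
    (hx'B : ∀ i, x' i ∈ B') (hy'B : y' ∈ B') (hx : ∀ i, c.x i ∈ JI B' x' y')
    (hy : c.y ∈ JI B' x' y')
    (hZd : ∀ z ∈ Z, ∃ b ∈ c.B, z - b ∈ JI B' x' y') : Gs S (⟨B', x', y'⟩ : Tri W r) := by
  have h0 : ‖(0 : W)‖ ≤ 1 := by rw [norm_zero]; exact zero_le_one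
  refine good_ext hc (w := 0) (zero_mem S) h0 Polynomial.X Polynomial.monic_X
    Polynomial.irreducible_X (by rw [Polynomial.aeval_X, rs_zero]) Polynomial.X
    Polynomial.monic_X ?_ ?_ Z hZf hZ x' y' hx' hy' B' ?_ hx'B hy'B hx hy ?_ ?_
  · intro j
    rw [Polynomial.coeff_X]
    split_ifs
    · exact one_mem _
    · exact zero_mem _
  · intro j
    rw [Polynomial.coeff_X, Polynomial.coeff_X]
    split_ifs
    · rw [rs_one]; rfl
    · rw [rs_zero]; rfl
  · rw [hB']
    congr 1
    apply le_antisymm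
    · refine Subring.closure_mono ?_
      rintro z (hz | hz)
      · exact Or.inl hz
      · exact Or.inr (Or.inl hz)
    · rw [Subring.closure_le]
      rintro z (hz | (hz | hz))
      · exact Subring.subset_closure (Or.inl hz)
      · exact Subring.subset_closure (Or.inr hz)
      · rw [Set.mem_singleton_iff] at hz
        rw [hz]; exact zero_mem _
  · intro z hz
    obtain ⟨b, hb, hzb⟩ := hZd z hz
    refine ⟨Polynomial.C b, ?_, by rw [Polynomial.eval_C]; exact hzb⟩
    intro j
    rw [Polynomial.coeff_C]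
    split_ifs
    · exact hb
    · exact zero_mem _
  · rw [Polynomial.eval_X]
    exact JI_zero

end Pool.Agent.Lib.MX
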