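import Pool.Agent.Lib.MX.GoodExt
import Pool.Agent.Lib.MX.Inert

set_option autoImplicit false

/-!
# Module MX.KumD: cyclic group of prime order acting trivially on residues: data, eigenprojections
-/

namespace Pool.Agent.Lib.MX

open Pool.Agent.Lib.MP_3029eb_ag Pool.Agent.Lib.MP_3029eb_ag.Abh Pool.Agent.Lib.TDO
open Pool.Agent.Lib.TU (Mt)

variable {E W : Type} [Field E] [NormedField W] [IsUltrametricDist W] [Algebra E W] {p r : ℕ}
  {S : IntermediateField E W}

/-- `Γ` is cyclic of prime order `l ≠ p` with generator `s`, which acts trivially on residues; `ξ ∈ L` is a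
primitive `l`-th root of unity. -/
structure KumD (p : ℕ) {Γ : Type} [Group Γ] {S L L' : IntermediateField E W}
    (act : Act Γ S L L') (l : ℕ) (ξ : W) (s : Γ) : Prop where
  prime : l.Prime
  ne : l ≠ p
  ξL : ξ ∈ L
  prim : IsPrimitiveRoot ξ l
  card : Nat.card Γ = l
  gen : ∀ σ : Γ, ∃ n : ℕ, σ = s ^ n
  res : ∀ z ∈ L', ‖z‖ ≤ 1 → ‖act.f s z - z‖ < 1
  le : L ≤ L'

/-- `c` is a stable strictly good chart of `L'`, with eigenvectors `c.x i`. -/
structure EigX {Γ : Type} [Group Γ] {S L L' : IntermediateField E W} (act : Act Γ S L L')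
    (ξ : W) (s : Γ) (c : Tri W r) (n : Fin r → ℕ) : Prop where
  gs : Gs S c
  ch : Ch S L' c
  st : ∀ (σ : Γ), ∀ z ∈ c.B, act.f σ z ∈ c.B
  ξB : ξ ∈ c.B
  eig : ∀ i, act.f s (c.x i) = ξ ^ n i * c.x i

/-- The projection to the eigenspace of `ξ ^ m`. -/
noncomputable def prj {Γ : Type} [Group Γ] {S L L' : IntermediateField E W}
    (act : Act Γ S L L') (l : ℕ) (ξ : W) (s : Γ) (m : ℤ) (z : W) : W :=
  (l : W)⁻¹ * ∑ j ∈ Finset.range l, ξ ^ (-((j : ℤ) * m)) * act.f (s ^ j) z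

section facts

variable {Γ : Type} [Group Γ] {L L' : IntermediateField E W} {act : Act Γ S L L'} {l : ℕ} {ξ : W}
  {s : Γ}

/-! ### auxiliary facts -/

private theorem kd_sum_le {ι : Type} (t : Finset ι) (f : ι → W) {C : ℝ} (hC : 0 ≤ C)
    (h : ∀ i ∈ t, ‖f i‖ ≤ C) : ‖∑ i ∈ t, f i‖ ≤ C := by
  classical
  induction t using Finset.induction_on with
  | empty => simpa using hC
  | insert a t ha ih =>
    rw [Finset.sum_insert ha]
    exact (IsUltrametricDist.norm_add_le_max _ _).trans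
      (max_le (h a (Finset.mem_insert_self a t))
        (ih fun i hi => h i (Finset.mem_insert_of_mem hi)))

private theorem kd_sum_lt {ι : Type} (t : Finset ι) (f : ι → W) {C : ℝ} (hC : 0 < C)
    (h : ∀ i ∈ t, ‖f i‖ < C) : ‖∑ i ∈ t, f i‖ < C := by
  classical
  induction t using Finset.induction_on with
  | empty => simpa using hC
  | insert a t ha ih =>
    rw [Finset.sum_insert ha]
    exact (IsUltrametricDist.norm_add_le_max _ _).trans_lt
      (max_lt (h a (Finset.mem_insert_self a t))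
        (ih fun i hi => h i (Finset.mem_insert_of_mem hi)))

private theorem kd_one_le_prod {ι : Type} (t : Finset ι) (f : ι → ℝ) (h : ∀ i ∈ t, 1 ≤ f i) :
    1 ≤ ∏ i ∈ t, f i := by
  classical
  induction t using Finset.induction_on with
  | empty => simp
  | insert a t ha ih =>
    rw [Finset.prod_insert ha]
    exact one_le_mul_of_one_le_of_one_le (h a (Finset.mem_insert_self a t))
      (ih fun i hi => h i (Finset.mem_insert_of_mem hi))

private theorem kd_int_le (n : ℤ) : ‖(n : W)‖ ≤ 1 := by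
  obtain ⟨k, rfl | rfl⟩ := n.eq_nat_or_neg
  · simpa using IsUltrametricDist.norm_natCast_le_one W k
  · simpa using IsUltrametricDist.norm_natCast_le_one W k

private theorem kd_geom {η : W} {l : ℕ} (h1 : η ≠ 1) (hl : η ^ l = 1) :
    ∑ j ∈ Finset.range l, η ^ j = 0 := by
  have h := mul_geom_sum η l
  rw [hl, sub_self] at h
  exact (mul_eq_zero.1 h).resolve_left (sub_ne_zero.2 h1)

theorem KumD.norm_l (hA : AmbX p r S) (hK : KumD p act l ξ s) : ‖(l : W)‖ = 1 := by
  refine le_antisymm (IsUltrametricDist.norm_natCast_le_one W l) ?_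
  have hcop : IsCoprime (l : ℤ) (p : ℤ) :=
    Nat.isCoprime_iff_coprime.2 ((Nat.coprime_primes hK.prime hA.prime).2 hK.ne)
  obtain ⟨a, b, hab⟩ := hcop
  by_contra hlt
  rw [not_le] at hlt
  have e : (1 : W) = (a : W) * (l : W) + (b : W) * (p : W) := by
    have := congrArg (fun n : ℤ => (n : W)) hab
    push_cast at this
    exact this.symm
  have h1 : ‖(a : W) * (l : W)‖ < 1 := by
    rw [norm_mul]
    exact (mul_le_of_le_one_left (norm_nonneg _) (kd_int_le a)).trans_lt hlt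
  have h2 : ‖(b : W) * (p : W)‖ < 1 := by
    rw [norm_mul]
    exact (mul_le_of_le_one_left (norm_nonneg _) (kd_int_le b)).trans_lt hA.p1
  have h3 : ‖(1 : W)‖ < 1 := by
    rw [e]
    exact (IsUltrametricDist.norm_add_le_max _ _).trans_lt (max_lt h1 h2)
  rw [norm_one] at h3
  exact lt_irrefl _ h3

private theorem KumD.l0 (hA : AmbX p r S) (hK : KumD p act l ξ s) : (l : W) ≠ 0 := by
  have := KumD.norm_l hA hK
  intro h
  rw [h, norm_zero] at this
  exact zero_ne_one this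

theorem KumD.pow_l (hK : KumD p act l ξ s) : s ^ l = 1 := by
  rw [← hK.card]
  exact pow_card_eq_one'

theorem KumD.fin (hK : KumD p act l ξ s) : Finite Γ := by
  apply Nat.finite_of_card_ne_zero
  rw [hK.card]
  exact hK.prime.ne_zero

theorem KumD.xi0 (hK : KumD p act l ξ s) : ξ ≠ 0 := by
  exact hK.prim.ne_zero hK.prime.ne_zero

theorem KumD.xi1 (hK : KumD p act l ξ s) : ‖ξ‖ = 1 := by
  have h := congrArg norm hK.prim.pow_eq_one
  rw [norm_pow, norm_one] at h
  exact (pow_eq_one_iff_of_nonneg (norm_nonneg _) hK.prime.ne_zero).1 h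

theorem KumD.xiS (hA : AmbX p r S) (hK : KumD p act l ξ s) : ξ ∈ S := by
  refine hA.alg ξ ?_
  apply IsIntegral.isAlgebraic
  refine ⟨Polynomial.X ^ l - 1, Polynomial.monic_X_pow_sub_C 1 hK.prime.ne_zero, ?_⟩
  simp [hK.prim.pow_eq_one]

theorem KumD.xi_fix (hK : KumD p act l ξ s) (σ : Γ) (m : ℤ) : act.f σ (ξ ^ m) = ξ ^ m := by
  have h : ξ ^ m ∈ L := zpow_mem hK.ξL m
  exact (act.fix _ (hK.le h)).2 h σ

private theorem kd_pow_sub {u : W} (hu : ‖u - 1‖ < 1) (j : ℕ) : ‖u ^ j - 1‖ < 1 := by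
  have hu1 : ‖u‖ ≤ 1 := by
    have e : u = (u - 1) + 1 := by ring
    rw [e]
    exact (IsUltrametricDist.norm_add_le_max _ _).trans (max_le hu.le (by rw [norm_one]))
  induction j with
  | zero => simp
  | succ j ih =>
    have e : u ^ (j + 1) - 1 = u * (u ^ j - 1) + (u - 1) := by ring
    rw [e]
    refine (IsUltrametricDist.norm_add_le_max _ _).trans_lt (max_lt ?_ hu)
    rw [norm_mul]
    exact (mul_le_of_le_one_left (norm_nonneg _) hu1).trans_lt ih

/-- `ξ ^ m` close to one is one. -/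
theorem KumD.xi_one (hA : AmbX p r S) (hK : KumD p act l ξ s) {m : ℤ} (h : ‖ξ ^ m - 1‖ < 1) :
    ξ ^ m = 1 := by
  by_contra h1
  have hl : (ξ ^ m) ^ l = 1 := by
    rw [← zpow_natCast, ← zpow_mul, mul_comm, zpow_mul, zpow_natCast, hK.prim.pow_eq_one, one_zpow]
  have h0 := kd_geom h1 hl
  have h2 : ‖∑ j ∈ Finset.range l, ((ξ ^ m) ^ j - 1)‖ < 1 :=
    kd_sum_lt _ _ one_pos fun j _ => kd_pow_sub h j
  rw [Finset.sum_sub_distrib, h0] at h2
  simp only [Finset.sum_const, Finset.card_range, nsmul_eq_mul, mul_one, zero_sub, norm_neg] at h2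
  rw [KumD.norm_l hA hK] at h2
  exact lt_irrefl _ h2

/-- `ξ ^ m = 1` iff `l ∣ m`. -/
theorem KumD.xi_dvd (hK : KumD p act l ξ s) {m : ℤ} : ξ ^ m = 1 ↔ (l : ℤ) ∣ m := by
  exact hK.prim.zpow_eq_one_iff_dvd m

/-- Residual `l`-th roots of unity. -/
theorem KumD.root (hA : AmbX p r S) (hK : KumD p act l ξ s) {u : W} (hu : ‖u‖ = 1)
    (h : ‖u ^ l - 1‖ < 1) : ∃ m : ℕ, ‖u - ξ ^ m‖ < 1 := by
  by_contra hne
  push Not at hne
  have e := congrArg (Polynomial.eval u) (Polynomial.X_pow_sub_one_eq_prod hK.prime.pos hK.prim)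
  rw [Polynomial.eval_prod] at e
  simp only [Polynomial.eval_sub, Polynomial.eval_pow, Polynomial.eval_X, Polynomial.eval_one,
    Polynomial.eval_C] at e
  rw [e, norm_prod] at h
  refine absurd h (not_lt.2 ?_)
  refine kd_one_le_prod _ _ fun η hη => ?_
  have h1 : η ^ l = 1 := by
    rw [Polynomial.mem_nthRootsFinset hK.prime.pos] at hη
    exact hη
  have : NeZero l := ⟨hK.prime.ne_zero⟩
  obtain ⟨i, _, hi⟩ := hK.prim.eq_pow_of_pow_eq_one h1
  rw [← hi]
  exact hne i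

private theorem KumD.pow_eig (hK : KumD p act l ξ s) {m : ℤ} {z : W} (hz : z ∈ L')
    (h : act.f s z = ξ ^ m * z) (j : ℕ) : act.f (s ^ j) z = ξ ^ ((j : ℤ) * m) * z := by
  induction j with
  | zero => simp [act.one z hz]
  | succ j ih =>
    rw [pow_succ', act.mul s (s ^ j) z hz, ih, map_mul, hK.xi_fix, h]
    push_cast
    rw [add_mul, one_mul, zpow_add₀ hK.xi0]
    ring

/-- An element fixed by `s` is in `L`. -/
theorem KumD.mem_L (hK : KumD p act l ξ s) {z : W} (hz : z ∈ L') (h : act.f s z = z) : z ∈ L := by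
  refine (act.fix z hz).1 fun σ => ?_
  obtain ⟨n, rfl⟩ := hK.gen σ
  have := hK.pow_eig (m := 0) hz (by simpa using h) n
  simpa using this

private theorem KumD.fpow_l (hK : KumD p act l ξ s) {z : W} (hz : z ∈ L') :
    act.f (s ^ l) z = z := by
  rw [hK.pow_l, act.one z hz]

private theorem KumD.xi_l (hK : KumD p act l ξ s) (m : ℤ) : ξ ^ ((l : ℤ) * m) = 1 := by
  rw [zpow_mul, zpow_natCast, hK.prim.pow_eq_one, one_zpow]

theorem KumD.prj_eig (hK : KumD p act l ξ s) {m : ℤ} {z : W} (hz : z ∈ L') :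
    act.f s (prj act l ξ s m z) = ξ ^ m * prj act l ξ s m z := by
  unfold prj
  rw [map_mul, map_inv₀, map_natCast, map_sum]
  have e1 : ∀ j ∈ Finset.range l, act.f s (ξ ^ (-((j : ℤ) * m)) * act.f (s ^ j) z) =
      ξ ^ m * (ξ ^ (-(((j + 1 : ℕ) : ℤ) * m)) * act.f (s ^ (j + 1)) z) := by
    intro j _
    rw [map_mul, hK.xi_fix, pow_succ', act.mul s (s ^ j) z hz]
    have e2 : ξ ^ (-((j : ℤ) * m)) = ξ ^ m * ξ ^ (-(((j + 1 : ℕ) : ℤ) * m)) := by
      rw [← zpow_add₀ hK.xi0]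
      congr 1
      push_cast
      ring
    rw [e2]
    ring
  rw [Finset.sum_congr rfl e1, ← Finset.mul_sum]
  have e3 : ∑ j ∈ Finset.range l, ξ ^ (-(((j + 1 : ℕ) : ℤ) * m)) * act.f (s ^ (j + 1)) z =
      ∑ j ∈ Finset.range l, ξ ^ (-((j : ℤ) * m)) * act.f (s ^ j) z := by
    have a1 := Finset.sum_range_succ (fun j : ℕ => ξ ^ (-((j : ℤ) * m)) * act.f (s ^ j) z) l
    have a2 := Finset.sum_range_succ' (fun j : ℕ => ξ ^ (-((j : ℤ) * m)) * act.f (s ^ j) z) l
    rw [a1] at a2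
    have a3 : ξ ^ (-((l : ℤ) * m)) * act.f (s ^ l) z =
        ξ ^ (-(((0 : ℕ) : ℤ) * m)) * act.f (s ^ 0) z := by
      rw [hK.fpow_l hz, zpow_neg, hK.xi_l]
      simp [act.one z hz]
    rw [a3] at a2
    exact (add_right_cancel a2).symm
  rw [e3]
  ring

theorem KumD.prj_mem (hA : AmbX p r S) (hK : KumD p act l ξ s) {m : ℤ} {z : W} (hz : z ∈ L') :
    prj act l ξ s m z ∈ L' := by
  refine mul_mem (inv_mem (natCast_mem L' l)) (sum_mem fun j _ => ?_)
  exact mul_mem (zpow_mem (hK.le hK.ξL) _) (act.memL _ z hz)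

theorem KumD.prj_self (hA : AmbX p r S) (hK : KumD p act l ξ s) {m : ℤ} {z : W} (hz : z ∈ L')
    (h : act.f s z = ξ ^ m * z) : prj act l ξ s m z = z := by
  unfold prj
  have e : ∀ j ∈ Finset.range l, ξ ^ (-((j : ℤ) * m)) * act.f (s ^ j) z = z := by
    intro j _
    rw [hK.pow_eig hz h, ← mul_assoc, ← zpow_add₀ hK.xi0, neg_add_cancel, zpow_zero, one_mul]
  rw [Finset.sum_congr rfl e, Finset.sum_const, Finset.card_range, nsmul_eq_mul,
    inv_mul_cancel_left₀ (hK.l0 hA)]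

/-- The projections of an element of another eigenspace are zero. -/
theorem KumD.prj_ne (hK : KumD p act l ξ s) {m m' : ℤ} {z : W} (hz : z ∈ L')
    (h : act.f s z = ξ ^ m' * z) (hm : ¬ (l : ℤ) ∣ m' - m) : prj act l ξ s m z = 0 := by
  unfold prj
  have e : ∀ j ∈ Finset.range l, ξ ^ (-((j : ℤ) * m)) * act.f (s ^ j) z =
      (ξ ^ (m' - m)) ^ j * z := by
    intro j _
    rw [hK.pow_eig hz h, ← mul_assoc, ← zpow_add₀ hK.xi0, ← zpow_natCast, ← zpow_mul]
    congr 2
    ring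
  rw [Finset.sum_congr rfl e, ← Finset.sum_mul, kd_geom, zero_mul, mul_zero]
  · exact fun h1 => hm (hK.xi_dvd.1 h1)
  · rw [← zpow_natCast, ← zpow_mul, mul_comm]
    exact hK.xi_l _

theorem prj_add (act : Act Γ S L L') (l : ℕ) (ξ : W) (s : Γ) (m : ℤ) (z w : W) :
    prj act l ξ s m (z + w) = prj act l ξ s m z + prj act l ξ s m w := by
  unfold prj
  rw [← mul_add, ← Finset.sum_add_distrib]
  congr 1
  refine Finset.sum_congr rfl fun j _ => ?_
  rw [map_add, mul_add]

/-- `prj` and multiplication by an eigenvector. -/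
theorem KumD.prj_mul (hK : KumD p act l ξ s) {m n : ℤ} {a z : W} (ha : a ∈ L') (hz : z ∈ L')
    (h : act.f s a = ξ ^ n * a) : prj act l ξ s m (z * a) = prj act l ξ s (m - n) z * a := by
  unfold prj
  rw [mul_assoc, Finset.sum_mul]
  congr 1
  refine Finset.sum_congr rfl fun j _ => ?_
  rw [map_mul, hK.pow_eig ha h]
  have e : ξ ^ (-((j : ℤ) * (m - n))) = ξ ^ (-((j : ℤ) * m)) * ξ ^ ((j : ℤ) * n) := by
    rw [← zpow_add₀ hK.xi0]
    congr 1
    ring
  rw [e]
  ring

private theorem KumD.xi_norm (hK : KumD p act l ξ s) (m : ℤ) : ‖ξ ^ m‖ = 1 := by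
  rw [norm_zpow, hK.xi1, one_zpow]

theorem KumD.prj_norm (hA : AmbX p r S) (hK : KumD p act l ξ s) {m : ℤ} {z : W} (hz : z ∈ L') :
    ‖prj act l ξ s m z‖ ≤ ‖z‖ := by
  unfold prj
  rw [norm_mul, norm_inv, hK.norm_l hA, inv_one, one_mul]
  refine kd_sum_le _ _ (norm_nonneg _) fun j _ => ?_
  rw [norm_mul, hK.xi_norm, one_mul, act.iso]

private theorem KumD.xi_B (hK : KumD p act l ξ s) {c : Tri W r} {n : Fin r → ℕ}
    (hc : EigX act ξ s c n) (m : ℤ) : ξ ^ m ∈ c.B := by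
  have hinv : ξ⁻¹ ∈ c.B := hc.gs.inv hc.ξB hK.xi1
  obtain ⟨k, rfl | rfl⟩ := m.eq_nat_or_neg
  · rw [zpow_natCast]
    exact pow_mem hc.ξB k
  · rw [zpow_neg, zpow_natCast, ← inv_pow]
    exact pow_mem hinv k

/-- The projections preserve a stable local ring. -/
theorem KumD.prj_B (hA : AmbX p r S) (hK : KumD p act l ξ s) {c : Tri W r} {n : Fin r → ℕ}
    (hc : EigX act ξ s c n) {m : ℤ} {z : W} (hz : z ∈ c.B) : prj act l ξ s m z ∈ c.B := by
  refine mul_mem (hc.gs.inv (natCast_mem c.B l) (hK.norm_l hA)) (sum_mem fun j _ => ?_)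
  exact mul_mem (hK.xi_B hc _) (hc.st _ z hz)

private theorem KumD.res_pow (hK : KumD p act l ξ s) {z : W} (hz : z ∈ L') (hz1 : ‖z‖ ≤ 1)
    (j : ℕ) : ‖act.f (s ^ j) z - z‖ < 1 := by
  induction j with
  | zero => simp [act.one z hz]
  | succ j ih =>
    have e : act.f (s ^ (j + 1)) z - z =
        (act.f s (act.f (s ^ j) z) - act.f (s ^ j) z) + (act.f (s ^ j) z - z) := by
      rw [pow_succ', act.mul s (s ^ j) z hz]
      ring
    rw [e]
    refine (IsUltrametricDist.norm_add_le_max _ _).trans_lt (max_lt ?_ ih)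
    exact hK.res _ (act.memL _ z hz) (by rw [act.iso]; exact hz1)

/-- `prj 0` is close to the identity. -/
theorem KumD.prj_res (hA : AmbX p r S) (hK : KumD p act l ξ s) {z : W} (hz : z ∈ L')
    (hz1 : ‖z‖ ≤ 1) : ‖prj act l ξ s 0 z - z‖ < 1 := by
  have e : prj act l ξ s 0 z - z = (l : W)⁻¹ * ∑ j ∈ Finset.range l, (act.f (s ^ j) z - z) := by
    unfold prj
    rw [Finset.sum_sub_distrib, mul_sub, Finset.sum_const, Finset.card_range, nsmul_eq_mul,
      inv_mul_cancel_left₀ (hK.l0 hA)]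
    simp
  rw [e, norm_mul, norm_inv, hK.norm_l hA, inv_one, one_mul]
  exact kd_sum_lt _ _ one_pos fun j _ => hK.res_pow hz hz1 j

/-- `z` is the sum of its projections. -/
theorem KumD.prj_sum (hA : AmbX p r S) (hK : KumD p act l ξ s) {z : W} (hz : z ∈ L') :
    z = ∑ m ∈ Finset.range l, prj act l ξ s m z := by
  unfold prj
  rw [← Finset.mul_sum, Finset.sum_comm]
  have e : ∀ j ∈ Finset.range l,
      ∑ m ∈ Finset.range l, ξ ^ (-((j : ℤ) * ((m : ℕ) : ℤ))) * act.f (s ^ j) z =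
        if j = 0 then (l : W) * z else 0 := by
    intro j hj
    rw [← Finset.sum_mul]
    split_ifs with h0
    · subst h0
      simp [act.one z hz]
    · have h1 : ∑ m ∈ Finset.range l, ξ ^ (-((j : ℤ) * ((m : ℕ) : ℤ))) =
          ∑ m ∈ Finset.range l, (ξ ^ (-(j : ℤ))) ^ m := by
        refine Finset.sum_congr rfl fun m _ => ?_
        rw [← zpow_natCast, ← zpow_mul]
        congr 1
        ring
      rw [h1, kd_geom, zero_mul]
      · intro h2
        have h3 := hK.xi_dvd.1 h2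
        rw [dvd_neg, Int.natCast_dvd_natCast] at h3
        exact h0 (Nat.eq_zero_of_dvd_of_lt h3 (Finset.mem_range.1 hj))
      · rw [← zpow_natCast, ← zpow_mul, mul_comm]
        exact hK.xi_l _
  rw [Finset.sum_congr rfl e, Finset.sum_ite_eq' (Finset.range l) 0,
    if_pos (Finset.mem_range.2 hK.prime.pos), inv_mul_cancel_left₀ (hK.l0 hA)]

/-- The image of a monomial. -/
theorem mon_eig (hK : KumD p act l ξ s) {x : Fin r → W} {n : Fin r → ℕ}
    (h : ∀ i, act.f s (x i) = ξ ^ n i * x i) (a : Fin r → ℤ) :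
    act.f s (mon x a) = ξ ^ (∑ i, a i * (n i : ℤ)) * mon x a := by
  classical
  unfold mon
  have key : ∀ t : Finset (Fin r), act.f s (∏ i ∈ t, x i ^ a i) =
      ξ ^ (∑ i ∈ t, a i * (n i : ℤ)) * ∏ i ∈ t, x i ^ a i := by
    intro t
    induction t using Finset.induction_on with
    | empty => simp
    | insert i t hi ih =>
      rw [Finset.prod_insert hi, Finset.sum_insert hi, map_mul, ih, map_zpow₀, h i, mul_zpow,
        zpow_add₀ hK.xi0, ← zpow_natCast, ← zpow_mul, mul_comm (n i : ℤ)]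
      ring
  exact key Finset.univ

end facts

end Pool.Agent.Lib.MX
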