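import Pool.Agent.Lib.MX.KumD
import Pool.Agent.Lib.MX.ParCh

set_option autoImplicit false

/-!
# Module MX.KumPar: eigen-parameters (paper section 11)

Write `s z := act.f s z`.  For `i : Fin r`: `s x_i = x_i u`, `u ∈ c.B`, `‖u‖ = 1`.  `s^j x_i = x_i u_j`, `u_j = ∏_(t<j) s^t u`, `‖u_j - u^j‖ < 1` (`‖s z - z‖ < 1`); `s^l = 1`: `u_l = 1`, so `‖u^l - 1‖ < 1`,
`KumD.root`: `‖u - ξ^m‖ < 1`.  `x i := prj act l ξ s m (c.x i) = c.x i * v`, `v = l⁻¹ ∑_j ξ^(-jm) u_j ∈ c.B` (`‖l‖ = 1`; inverses of elements of norm one are in `c.B`), `‖v - 1‖ < 1` so `‖v‖ = 1`; `prj_eig`.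
`y`: `s y = y v + ∑ b_i x_i` (`act_y` with `f := act.f s`, `f' := act.f s⁻¹`), so `s^j y = y v_j + (element of the ideal (c.x) c.B)`, `v_j = ∏_(t<j) s^t v`; `j = l`: `y (v_l - 1)` is in the ideal of the `c.x i`;
if `‖v_l - 1‖ = 1` then `y` is in this ideal, against `gs_y_pow` (Dim.lean).  So `‖v_l - 1‖ < 1`, `‖v^l - 1‖ < 1`, `‖v - ξ^m‖ < 1`, `y := prj act l ξ s m c.y`.
`eig_start`: `fr_stable` (`Z0 := {ξ}`), `stable_good` (`Z0 := {ξ}`), `eig_par0`, `par_change`; `c := ⟨c0.B, x, y⟩`.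
-/

namespace Pool.Agent.Lib.MX

open Pool.Agent.Lib.MP_3029eb_ag Pool.Agent.Lib.MP_3029eb_ag.Abh Pool.Agent.Lib.TDO
open Pool.Agent.Lib.TU (Mt)

variable {E W : Type} [Field E] [NormedField W] [IsUltrametricDist W] [Algebra E W] {p r : ℕ}
  {S : IntermediateField E W}


section core

variable {Γ : Type} [Group Γ] {L L' : IntermediateField E W} {act : Act Γ S L L'} {l : ℕ} {ξ : W}
  {s : Γ}

theorem KumPar_add {a b : W} (ha : ‖a‖ < 1) (hb : ‖b‖ < 1) : ‖a + b‖ < 1 :=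
  lt_of_le_of_lt (IsUltrametricDist.norm_add_le_max a b) (max_lt ha hb)

theorem KumPar_sum {t : Finset ℕ} {f : ℕ → W} (h : ∀ j ∈ t, ‖f j‖ < 1) :
    ‖∑ j ∈ t, f j‖ < 1 := by
  induction t using Finset.induction_on with
  | empty => simp
  | insert a t ha ih =>
    rw [Finset.sum_insert ha]
    exact KumPar_add (h a (Finset.mem_insert_self a t))
      (ih fun j hj => h j (Finset.mem_insert_of_mem hj))

theorem KumPar_one {z : W} (h : ‖z - 1‖ < 1) : ‖z‖ = 1 := by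
  have h1 : ‖z‖ ≤ 1 := by
    have : z = (z - 1) + 1 := by ring
    rw [this]
    refine (IsUltrametricDist.norm_add_le_max _ _).trans (max_le h.le ?_)
    rw [norm_one]
  by_contra h2
  have h3 : ‖z‖ < 1 := lt_of_le_of_ne h1 h2
  have h4 : ‖(1 : W)‖ < 1 := by
    have : (1 : W) = z + -(z - 1) := by ring
    rw [this]
    exact KumPar_add h3 (by rwa [norm_neg])
  rw [norm_one] at h4
  exact lt_irrefl _ h4

theorem KumPar_pow {a b : W} (ha : ‖a‖ = 1) (hb : ‖b‖ = 1) (h : ‖a - b‖ < 1) (n : ℕ) :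
    ‖a ^ n - b ^ n‖ < 1 := by
  induction n with
  | zero => simp
  | succ n ih =>
    have e : a ^ (n + 1) - b ^ (n + 1) = a ^ n * (a - b) + (a ^ n - b ^ n) * b := by ring
    rw [e]
    apply KumPar_add
    · rw [norm_mul, norm_pow, ha, one_pow, one_mul]; exact h
    · rw [norm_mul, hb, mul_one]; exact ih

/-- The common part for `x i` and `y`. -/
theorem KumPar_core (hA : AmbX p r S) (hK : KumD p act l ξ s) {B : Subring W}
    (hinv : ∀ z ∈ B, ‖z‖ = 1 → z⁻¹ ∈ B) (hB1 : ∀ z ∈ B, ‖z‖ ≤ 1) (hcL : ∀ z ∈ B, z ∈ L')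
    (hξ : ξ ∈ B) (hst : ∀ z ∈ B, act.f s z ∈ B) (I : Set W) (h0 : (0 : W) ∈ I)
    (hadd : ∀ a ∈ I, ∀ b ∈ I, a + b ∈ I) (hmul : ∀ a ∈ B, ∀ b ∈ I, a * b ∈ I)
    (hfs : ∀ a ∈ I, act.f s a ∈ I) {z u : W} (hz : z ∈ B) (hu : u ∈ B) (hu1 : ‖u‖ = 1)
    (hzu : ∃ n ∈ I, act.f s z = z * u + n) (hzI : ∀ a ∈ B, z * a ∈ I → ‖a‖ < 1) :
    ∃ m : ℕ, ∃ v ∈ B, ‖v‖ = 1 ∧ ∃ n ∈ I, prj act l ξ s m z = z * v + n := by
  obtain ⟨n0, hn0, hzu⟩ := hzu
  have hw : ∀ j : ℕ, ∃ w ∈ B, ∃ n ∈ I, act.f (s ^ j) z = z * w + n ∧ ‖w - u ^ j‖ < 1 := by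
    intro j
    induction j with
    | zero =>
      refine ⟨1, one_mem _, 0, h0, ?_, ?_⟩
      · rw [pow_zero, act.one z (hcL z hz), mul_one, add_zero]
      · rw [pow_zero, sub_self, norm_zero]
        exact one_pos
    | succ j ih =>
      obtain ⟨w, hw1, n, hn, hw2, hw3⟩ := ih
      refine ⟨u * act.f s w, mul_mem hu (hst w hw1), act.f s w * n0 + act.f s n,
        hadd _ (hmul _ (hst w hw1) _ hn0) _ (hfs n hn), ?_, ?_⟩
      · rw [pow_succ', act.mul s (s ^ j) z (hcL z hz), hw2, map_add, map_mul, hzu]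
        ring
      · have e : u * act.f s w - u ^ (j + 1) = u * ((act.f s w - w) + (w - u ^ j)) := by
          rw [pow_succ']
          ring
        rw [e, norm_mul, hu1, one_mul]
        exact KumPar_add (hK.res w (hcL w hw1) (hB1 w hw1)) hw3
  choose w hw1 n hn hw2 hw3 using hw
  have hul : ‖u ^ l - 1‖ < 1 := by
    have h1 := hw2 l
    rw [hK.pow_l, act.one z (hcL z hz)] at h1
    have h2 : z * (1 - w l) ∈ I := by
      have : z * (1 - w l) = n l := by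
        rw [mul_sub, mul_one]
        nth_rw 1 [h1]
        ring
      rw [this]
      exact hn l
    have h3 := hzI _ (sub_mem (one_mem _) (hw1 l)) h2
    have e : u ^ l - 1 = -((w l - u ^ l) + (1 - w l)) := by ring
    rw [e, norm_neg]
    exact KumPar_add (hw3 l) h3
  obtain ⟨m, hm⟩ := hK.root hA hu1 hul
  have hξ1 : ‖ξ‖ = 1 := hK.xi1
  have hξm : ‖ξ ^ m‖ = 1 := by rw [norm_pow, hξ1, one_pow]
  have hξi : ξ⁻¹ ∈ B := hinv ξ hξ hξ1
  have hzp : ∀ k : ℤ, ξ ^ k ∈ B := by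
    intro k
    rcases Int.eq_nat_or_neg k with ⟨q, rfl | rfl⟩
    · rw [zpow_natCast]; exact pow_mem hξ q
    · rw [zpow_neg, zpow_natCast, ← inv_pow]; exact pow_mem hξi q
  have hzp1 : ∀ k : ℤ, ‖ξ ^ k‖ = 1 := by
    intro k
    rw [norm_zpow, hξ1, one_zpow]
  have hl1 : ‖(l : W)‖ = 1 := hK.norm_l hA
  have hl0 : (l : W) ≠ 0 := by
    intro h
    rw [h, norm_zero] at hl1
    exact zero_ne_one hl1
  have hli : (l : W)⁻¹ ∈ B := hinv _ (natCast_mem B l) hl1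
  have hIs : ∀ (t : Finset ℕ) (g : ℕ → W), (∀ j ∈ t, g j ∈ I) → ∑ j ∈ t, g j ∈ I := by
    intro t g hg
    induction t using Finset.induction_on with
    | empty => rw [Finset.sum_empty]; exact h0
    | insert a t ha ih =>
      rw [Finset.sum_insert ha]
      exact hadd _ (hg a (Finset.mem_insert_self a t)) _
        (ih fun j hj => hg j (Finset.mem_insert_of_mem hj))
  refine ⟨m, (l : W)⁻¹ * ∑ j ∈ Finset.range l, ξ ^ (-((j : ℤ) * (m : ℤ))) * w j, ?_, ?_,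
    (l : W)⁻¹ * ∑ j ∈ Finset.range l, ξ ^ (-((j : ℤ) * (m : ℤ))) * n j, ?_, ?_⟩
  · exact mul_mem hli (sum_mem fun j _ => mul_mem (hzp _) (hw1 j))
  · apply KumPar_one
    have e : (l : W)⁻¹ * ∑ j ∈ Finset.range l, ξ ^ (-((j : ℤ) * (m : ℤ))) * w j - 1 =
        (l : W)⁻¹ * ∑ j ∈ Finset.range l, (ξ ^ (-((j : ℤ) * (m : ℤ))) * w j - 1) := by
      rw [Finset.sum_sub_distrib, mul_sub, Finset.sum_const, Finset.card_range, nsmul_eq_mul,
        mul_one, inv_mul_cancel₀ hl0]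
    rw [e, norm_mul, norm_inv, hl1, inv_one, one_mul]
    apply KumPar_sum
    intro j _
    have hξ0 : ξ ≠ 0 := hK.xi0
    have e1 : ξ ^ (-((j : ℤ) * (m : ℤ))) * (ξ ^ m) ^ j = 1 := by
      rw [← pow_mul, ← zpow_natCast ξ (m * j), ← zpow_add₀ hξ0]
      push_cast
      rw [show -((j : ℤ) * (m : ℤ)) + (m : ℤ) * (j : ℤ) = 0 by ring, zpow_zero]
    have e2 : ξ ^ (-((j : ℤ) * (m : ℤ))) * w j - 1 =
        ξ ^ (-((j : ℤ) * (m : ℤ))) * ((w j - u ^ j) + (u ^ j - (ξ ^ m) ^ j)) := by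
      rw [mul_add, mul_sub, mul_sub, e1]
      ring
    rw [e2, norm_mul, hzp1, one_mul]
    exact KumPar_add (hw3 j) (KumPar_pow hu1 hξm hm j)
  · exact hmul _ hli _ (hIs _ _ fun j _ => hmul _ (hzp _) _ (hn j))
  · unfold prj
    rw [Finset.sum_congr rfl fun j _ => by rw [hw2 j]]
    have e3 : ∀ j ∈ Finset.range l, ξ ^ (-((j : ℤ) * (m : ℤ))) * (z * w j + n j) =
        z * (ξ ^ (-((j : ℤ) * (m : ℤ))) * w j) + ξ ^ (-((j : ℤ) * (m : ℤ))) * n j := by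
      intro j _
      ring
    rw [Finset.sum_congr rfl e3, Finset.sum_add_distrib, ← Finset.mul_sum]
    ring

end core

theorem eig_par0 (hA : AmbX p r S) {Γ : Type} [Group Γ] {L L' : IntermediateField E W}
    {act : Act Γ S L L'} {l : ℕ} {ξ : W} {s : Γ} (hK : KumD p act l ξ s) {c : Tri W r}
    (hc : Gs S c) (hcL : ∀ z ∈ c.B, z ∈ L') (hξ : ξ ∈ c.B)
    (hst : ∀ (σ : Γ), ∀ z ∈ c.B, act.f σ z ∈ c.B)
    (hxu : ∀ (σ : Γ) (i : Fin r), ∃ u ∈ c.B, ‖u‖ = 1 ∧ act.f σ (c.x i) = c.x i * u) :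
    ∃ (x : Fin r → W) (y : W) (n : Fin r → ℕ) (n0 : ℕ),
      (∀ i, ∃ v ∈ c.B, ‖v‖ = 1 ∧ x i = c.x i * v) ∧
      (∃ v ∈ c.B, ‖v‖ = 1 ∧ ∃ b : Fin r → W, (∀ i, b i ∈ c.B) ∧
        y = c.y * v + ∑ i, b i * c.x i) ∧
      (∀ i, act.f s (x i) = ξ ^ n i * x i) ∧ act.f s y = ξ ^ n0 * y :=  by
  classical
  have hB1 : ∀ z ∈ c.B, ‖z‖ ≤ 1 := fun z hz => (hc.le z hz).2
  have hinv : ∀ z ∈ c.B, ‖z‖ = 1 → z⁻¹ ∈ c.B := fun z hz h1 => hc.inv hz h1
  -- the `x i`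
  have hx : ∀ i, ∃ m : ℕ, ∃ v ∈ c.B, ‖v‖ = 1 ∧ prj act l ξ s m (c.x i) = c.x i * v := by
    intro i
    obtain ⟨u, hu, hu1, hu2⟩ := hxu s i
    have hx0 : c.x i ≠ 0 := hc.ind.ne i
    obtain ⟨m, v, hv, hv1, n, hn, h⟩ := KumPar_core hA hK hinv hB1 hcL hξ (hst s) {0} rfl
      (by
        intro a ha b hb
        rw [Set.mem_singleton_iff] at ha hb ⊢
        rw [ha, hb, add_zero])
      (by
        intro a _ b hb
        rw [Set.mem_singleton_iff] at hb ⊢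
        rw [hb, mul_zero])
      (by
        intro a ha
        rw [Set.mem_singleton_iff] at ha ⊢
        rw [ha, map_zero])
      (hc.xB i) hu hu1 ⟨0, rfl, by rw [hu2, add_zero]⟩
      (by
        intro a _ ha
        rw [Set.mem_singleton_iff] at ha
        have h1 : a = 0 := (mul_eq_zero.1 ha).resolve_left hx0
        rw [h1, norm_zero]
        exact one_pos)
    rw [Set.mem_singleton_iff] at hn
    rw [hn, add_zero] at h
    exact ⟨m, v, hv, hv1, h⟩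
  choose n vx hvx hvx1 hprx using hx
  -- `y`
  have hss : s * s⁻¹ = 1 := mul_inv_cancel s
  obtain ⟨v, hv, hv1, b, hb, hfy⟩ := act_y hA hc (act.f s) (act.f s⁻¹) (act.iso s) (hst s)
    (hst s⁻¹)
    (by
      intro z hz
      rw [← act.mul s s⁻¹ z (hcL z hz), hss, act.one z (hcL z hz)])
    (act.iso s⁻¹) (hxu s)
  let I : Set W := {z | ∃ b : Fin r → W, (∀ i, b i ∈ c.B) ∧ z = ∑ i, b i * c.x i}
  obtain ⟨m, vy, hvy, hvy1, ny, hny, hpry⟩ := KumPar_core hA hK hinv hB1 hcL hξ (hst s) I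
    ⟨fun _ => 0, fun _ => zero_mem _, by simp⟩
    (by
      rintro _ ⟨b1, hb1, rfl⟩ _ ⟨b2, hb2, rfl⟩
      refine ⟨fun i => b1 i + b2 i, fun i => add_mem (hb1 i) (hb2 i), ?_⟩
      rw [← Finset.sum_add_distrib]
      exact Finset.sum_congr rfl fun i _ => by ring)
    (by
      rintro a ha _ ⟨b1, hb1, rfl⟩
      refine ⟨fun i => a * b1 i, fun i => mul_mem ha (hb1 i), ?_⟩
      rw [Finset.mul_sum]
      exact Finset.sum_congr rfl fun i _ => by ring)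
    (by
      rintro _ ⟨b1, hb1, rfl⟩
      choose u hu hu1 hu2 using hxu s
      refine ⟨fun i => act.f s (b1 i) * u i, fun i => mul_mem (hst s _ (hb1 i)) (hu i), ?_⟩
      rw [map_sum]
      refine Finset.sum_congr rfl fun i _ => ?_
      rw [map_mul, hu2 i]
      ring)
    hc.yB hv hv1 ⟨∑ i, b i * c.x i, ⟨b, hb, rfl⟩, hfy⟩
    (by
      rintro a ha ⟨b1, hb1, h1⟩
      refine lt_of_le_of_ne (hB1 a ha) fun ha1 => ?_
      have ha0 : a ≠ 0 := by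
        intro h0
        rw [h0, norm_zero] at ha1
        exact zero_ne_one ha1
      refine gs_y_pow hA hc 1 (fun i => a⁻¹ * b1 i) (fun i => mul_mem (hinv a ha ha1) (hb1 i)) ?_
      have h2 : ∑ i, a⁻¹ * b1 i * c.x i = a⁻¹ * (c.y * a) := by
        rw [h1, Finset.mul_sum]
        exact Finset.sum_congr rfl fun i _ => by ring
      rw [h2, pow_one]
      field_simp)
  obtain ⟨b', hb', hny⟩ := hny
  refine ⟨fun i => prj act l ξ s (n i) (c.x i), prj act l ξ s m c.y, n, m,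
    fun i => ⟨vx i, hvx i, hvx1 i, hprx i⟩, ⟨vy, hvy, hvy1, b', hb', ?_⟩, ?_, ?_⟩
  · rw [hpry, hny]
  · intro i
    have h1 := hK.prj_eig (m := (n i : ℤ)) (hcL _ (hc.xB i))
    rw [zpow_natCast] at h1
    exact h1
  · have h1 := hK.prj_eig (m := (m : ℤ)) (hcL _ hc.yB)
    rw [zpow_natCast] at h1
    exact h1

end Pool.Agent.Lib.MX
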