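import Pool.Agent.Lib.MX.InvX
import Pool.Agent.Lib.MX.ThmF

set_option autoImplicit false

/-!
# Module MX.StabX: a good ring stable under a finite group (paper 4.5)

Write `s z := act.f s z`.  `c`: a refinement of `c0` with `Gn c (s z) = Gn c z`, `s z ∈ HL c` for `z ∈ HL c0` (`inv_gn`) and `MoH c z` for the nonzero `z ∈ Z0` (Theorem A first, then
`inv_gn` with `c' := ` that refinement; `MoH` persists).  Fraction lemma: every `z ∈ HO c` (also `z ∈ c.B`, `z = c.x i`) satisfies `z * b = a` with `a, b ∈ HL c0`, `MoH c b`.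
(1) `s b` is `MoH c`: `s b ∈ HL c`, `Gn c (s b) = Gn c b = ‖b‖ = ‖s b‖` (`MoH` iff `Gn = norm`).  (2) `z ∈ HO c`: `Gn c (s a) = Gn c a = Gn c z * Gn c b ≤ Gn c (s b)`, so
`s z = s a / s b` is in `HL c` with `Gn c (s z) ≤ 1`: in `HO c`.  (3) `z = mon c.x a'`: `Gn c (s z) = Gn c (s a) / Gn c (s b) = Gn c z = ‖z‖ = ‖s z‖`: `MoH c (s z)`; so
`s (c.x i) = mon c.x a' * u`, `‖u‖ = 1`, `u ∈ HO c`, `‖mon c.x a'‖ = ‖c.x i‖`, `a' = Pi.single i 1`: `s (c.x i) = c.x i * u_(s,i)`; `u⁻¹ ∈ HO c`.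
(4) `c.B = locV (closure (Lam ∪ G))`.  The finite set of all `s g` (`g ∈ G`), `u_(s,i)`, `u_(s,i)⁻¹`, `z ∈ Z0` is in `HO c`, so in `Bx c.B x''` for one basis change `x''` of `c.x`
(directedness), and we may take `x''` so that `⟨Bx c.B x'', x'', c.y⟩` is strictly good (`Gd.ex`, and `Gs` passes to further basis changes: `good_ext0` with `Z := range x''`).
`cs := ⟨Bx c.B x'', x'', c.y⟩`.  `s (x'' i)` is `x'' i` times a product of integral powers of `u_(s,j)`.  So `s (cs.B) ≤ cs.B`: generators.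
`Fr E cs = Fr E c = Fr E c0` (`x''` are monomials in `c.x`).  `Ch S L' cs`.
-/

namespace Pool.Agent.Lib.MX

open Pool.Agent.Lib.MP_3029eb_ag Pool.Agent.Lib.MP_3029eb_ag.Abh Pool.Agent.Lib.TDO
open Pool.Agent.Lib.TU (Mt)

variable {E W : Type} [Field E] [NormedField W] [IsUltrametricDist W] [Algebra E W] {p r : ℕ}
  {S : IntermediateField E W}

/-- Norms of `z * b`. -/
private theorem stabX_quot (hr : 0 < r) (hA : AmbX p r S) {Γ : Type} [Group Γ]
    {L L' : IntermediateField E W} (act : Act Γ S L L') {c0 c : Tri W r} (hc0 : Gd S c0)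
    (hrf : RfS S c0 c)
    (hinv : ∀ s : Γ, ∀ z ∈ HL c0, act.f s z ∈ HL c ∧ Gn c (act.f s z) = Gn c z)
    (s : Γ) {z : W} (hz : z ∈ HL c) : act.f s z ∈ HL c ∧ Gn c (act.f s z) = Gn c z := by
  have hc : Gd S c := hrf.gd hc0
  obtain ⟨n, hn, d, hd, hdm, hnd⟩ := hrf.frac hc0 hz
  have hn' := HO_le_HL (c := c0) hn
  have hd' := HO_le_HL (c := c0) hd
  obtain ⟨h1, h2⟩ := hinv s n hn'
  obtain ⟨h3, h4⟩ := hinv s d hd'
  have hd0 : d ≠ 0 := hdm.ne hc
  have hnc := hrf.HL_le hc0 hn'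
  have hdc := hrf.HL_le hc0 hd'
  have hsd0 : act.f s d ≠ 0 := by
    intro h0
    have h5 := act.iso s d
    rw [h0, norm_zero] at h5
    exact hd0 (norm_eq_zero.1 h5.symm)
  have hsd : MoH c (act.f s d) := by
    rw [moH_iff_Gn hr hA hc h3 hsd0, h4, (moH_iff_Gn hr hA hc hdc hd0).1 hdm, act.iso]
  have hmul : act.f s z * act.f s d = act.f s n := by rw [← map_mul, hnd]
  have hz' : act.f s z = act.f s n * (act.f s d)⁻¹ := by
    rw [← hmul, mul_inv_cancel_right₀ hsd0]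
  have hzL : act.f s z ∈ HL c := by
    rw [hz']
    exact mul_mem h1 ((hsd.inv hc).mem_HL hc)
  refine ⟨hzL, ?_⟩
  have h5 : Gn c (act.f s z) * Gn c (act.f s d) = Gn c (act.f s n) := by
    rw [← Gn_mul hr hA hc hzL h3, hmul]
  have h6 : Gn c z * Gn c d = Gn c n := by
    rw [← Gn_mul hr hA hc hz hdc, hnd]
  have h7 : 0 < Gn c d := Gn_pos hr hA hc hdc hd0
  rw [h4, h2, ← h6] at h5
  exact mul_right_cancel₀ h7.ne' h5

private theorem stabX_mono {Γ : Type} [Group Γ] {L L' : IntermediateField E W}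
    (act : Act Γ S L L') (s : Γ) (x : Fin r → W) (a : Fin r → ℤ) :
    act.f s (mon x a) = mon (fun i => act.f s (x i)) a := by
  unfold mon
  rw [map_prod]
  exact Finset.prod_congr rfl fun i _ => by rw [map_zpow₀]

private theorem stabX_mul (x u : Fin r → W) (a : Fin r → ℤ) :
    mon (fun i => x i * u i) a = mon x a * mon u a := by
  unfold mon
  rw [← Finset.prod_mul_distrib]
  exact Finset.prod_congr rfl fun i _ => by rw [mul_zpow]

private theorem stabX_fr {c : Tri W r} (hc : Gd S c) {x1 : Fin r → W} (h1 : Mt c.x x1) :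
    Fr E (⟨Bx c.B x1, x1, c.y⟩ : Tri W r) = Fr E c := by
  apply le_antisymm
  · unfold Fr
    rw [IntermediateField.adjoin_le_iff]
    intro z hz
    exact HO_mem_Fr hc (Bx_mem_HO hc h1 hz)
  · exact IntermediateField.adjoin.mono _ _ _ (fun z hz => le_Bx hz)

private theorem stabX_unit {c : Tri W r} (hc : Gd S c) {z : W} {i : Fin r} (hz : MoH c z)
    (h1 : ‖z‖ = ‖c.x i‖) : ∃ u ∈ HO c, ‖u‖ = 1 ∧ z = c.x i * u := by
  obtain ⟨a, u, hu, hu1, rfl⟩ := hz
  refine ⟨u, hu, hu1, ?_⟩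
  rw [norm_mul, hu1, mul_one, ← mon_single c.x i] at h1
  rw [norm_mon_inj hc.ind h1, mon_single]

theorem stable_good (hr : 0 < r) (hA : AmbX p r S) {Γ : Type} [Group Γ] [Finite Γ]
    {L L' : IntermediateField E W} (act : Act Γ S L L') {c0 : Tri W r} (hc0 : Ch S L' c0)
    (hM : ∀ (s : Γ), ∀ z ∈ Fr E c0, act.f s z ∈ Fr E c0) (Z0 : Finset W)
    (hZ0 : ∀ z ∈ Z0, z ∈ Fr E c0 ∧ ‖z‖ ≤ 1) :
    ∃ c : Tri W r, Gs S c ∧ Ch S L' c ∧ Fr E c = Fr E c0 ∧
      (∀ s : Γ, ∀ z ∈ c.B, act.f s z ∈ c.B) ∧ (∀ z ∈ Z0, z ∈ c.B) ∧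
      ∀ (s : Γ) (i : Fin r), ∃ u ∈ c.B, ‖u‖ = 1 ∧ act.f s (c.x i) = c.x i * u := by
  classical
  have hg0 := hc0.gd
  obtain ⟨c1, hr1, hZ1⟩ := thmA_HO hr hA hg0 Z0 hZ0
  obtain ⟨c, hr2, hinv0⟩ := inv_gn hr hA act hg0 hc0.le hM hr1
  have hrf : RfS S c0 c := hr1.trans hr2
  have hc : Gd S c := hrf.gd hg0
  have hinv := hinv0 c Relation.ReflTransGen.refl
  have key : ∀ (s : Γ) {z : W}, z ∈ HL c → act.f s z ∈ HL c ∧ Gn c (act.f s z) = Gn c z :=
    fun s z hz => stabX_quot hr hA act hg0 hrf hinv s hz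
  have hHO : ∀ (s : Γ) {z : W}, z ∈ HO c → act.f s z ∈ HO c := by
    intro s z hz
    have h1 := key s (HO_le_HL hz)
    rw [← Gn_le_one_iff hr hA hc h1.1, h1.2, Gn_le_one_iff hr hA hc (HO_le_HL hz)]
    exact hz
  have hMo : ∀ (s : Γ) {z : W}, MoH c z → MoH c (act.f s z) := by
    intro s z hz
    have hz0 := hz.ne hc
    have h1 := key s (hz.mem_HL hc)
    have h2 : act.f s z ≠ 0 := by
      intro h0
      have h5 := act.iso s z
      rw [h0, norm_zero] at h5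
      exact hz0 (norm_eq_zero.1 h5.symm)
    rw [moH_iff_Gn hr hA hc h1.1 h2, h1.2, (moH_iff_Gn hr hA hc (hz.mem_HL hc) hz0).1 hz,
      act.iso]
  have hx : ∀ (s : Γ) (i : Fin r), ∃ u ∈ HO c, ‖u‖ = 1 ∧ act.f s (c.x i) = c.x i * u := by
    intro s i
    refine stabX_unit hc (hMo s ?_) (act.iso s _)
    have h1 := MoH.of_mon hc (Pi.single i 1)
    rwa [mon_single] at h1
  choose u huO hu1 hux using hx
  obtain ⟨G, hG⟩ := hc.fg
  have hGB : ∀ g ∈ G, g ∈ c.B := by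
    intro g hg
    rw [hG]
    exact subset_locV_closure (Or.inr hg)
  haveI : Fintype Γ := Fintype.ofFinite Γ
  let F1 : Finset W := (Finset.univ ×ˢ G).image fun q : Γ × W => act.f q.1 q.2
  let F2 : Finset W := (Finset.univ : Finset (Γ × Fin r)).image fun q => u q.1 q.2
  let F3 : Finset W := (Finset.univ : Finset (Γ × Fin r)).image fun q => (u q.1 q.2)⁻¹
  have hF1 : ∀ z ∈ F1, z ∈ HO c := by
    intro z hz
    obtain ⟨q, hq, rfl⟩ := Finset.mem_image.1 hz
    exact hHO q.1 (B_mem_HO hc (hGB _ (Finset.mem_product.1 hq).2))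
  have hF2 : ∀ z ∈ F2, z ∈ HO c := by
    intro z hz
    obtain ⟨q, -, rfl⟩ := Finset.mem_image.1 hz
    exact huO _ _
  have hF3 : ∀ z ∈ F3, z ∈ HO c := by
    intro z hz
    obtain ⟨q, -, rfl⟩ := Finset.mem_image.1 hz
    exact inv_mem_HO hc (huO _ _) (hu1 _ _)
  obtain ⟨x1, hmt, hgs, hF, -⟩ := exists_model hc (((F1 ∪ F2) ∪ F3) ∪ Z0) (by
    intro z hz
    rcases Finset.mem_union.1 hz with hz | hz
    · rcases Finset.mem_union.1 hz with hz | hz
      · rcases Finset.mem_union.1 hz with hz | hz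
        · exact hF1 z hz
        · exact hF2 z hz
      · exact hF3 z hz
    · exact hr2.HO_le (hZ1 z hz)) ∅ (fun a ha => absurd ha (Finset.notMem_empty a))
  have hu : ∀ (s : Γ) (i : Fin r), u s i ∈ Bx c.B x1 := fun s i =>
    hF _ (Finset.mem_union_left _ (Finset.mem_union_left _ (Finset.mem_union_right _
      (Finset.mem_image.2 ⟨(s, i), Finset.mem_univ _, rfl⟩))))
  have hui : ∀ (s : Γ) (i : Fin r), (u s i)⁻¹ ∈ Bx c.B x1 := fun s i =>
    hF _ (Finset.mem_union_left _ (Finset.mem_union_right _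
      (Finset.mem_image.2 ⟨(s, i), Finset.mem_univ _, rfl⟩)))
  have huz : ∀ (s : Γ) (i : Fin r) (n : ℤ), u s i ^ n ∈ Bx c.B x1 := by
    intro s i n
    cases n with
    | ofNat n =>
      rw [Int.ofNat_eq_natCast, zpow_natCast]
      exact pow_mem (hu s i) n
    | negSucc n =>
      rw [zpow_negSucc, ← inv_pow]
      exact pow_mem (hui s i) _
  have hmu : ∀ (s : Γ) (a : Fin r → ℤ), mon (u s) a ∈ Bx c.B x1 ∧ ‖mon (u s) a‖ = 1 := by
    intro s a
    unfold mon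
    refine ⟨Subring.prod_mem _ fun i _ => huz s i _, ?_⟩
    rw [norm_prod]
    exact Finset.prod_eq_one fun i _ => by rw [norm_zpow, hu1, one_zpow]
  have hfx : ∀ s : Γ, (fun i => act.f s (c.x i)) = fun i => c.x i * u s i := fun s =>
    funext fun i => hux s i
  have hsx : ∀ (s : Γ) (i : Fin r), ∃ v ∈ Bx c.B x1, ‖v‖ = 1 ∧ act.f s (x1 i) = x1 i * v := by
    intro s i
    obtain ⟨A, B, -, hB, -⟩ := hmt.mat
    refine ⟨mon (u s) (B i), (hmu s _).1, (hmu s _).2, ?_⟩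
    rw [hB i, stabX_mono, hfx, stabX_mul]
  have hfr : Fr E (⟨Bx c.B x1, x1, c.y⟩ : Tri W r) = Fr E c0 := by
    rw [stabX_fr hc hmt, hrf.fr]
  refine ⟨⟨Bx c.B x1, x1, c.y⟩, hgs, ⟨hgs.gd, ?_, ?_⟩, hfr, ?_, ?_, hsx⟩
  · rw [hfr]; exact hc0.le
  · rw [hfr]; exact hc0.dense
  · intro s z hz
    have h1 : z ∈ (Bx c.B x1).comap (act.f s : W →+* W) := by
      refine Bx_le _ ?_ ?_ ?_ hz
      · intro w hw
        rw [hG] at hw
        refine locV_closure_le ((Bx c.B x1).comap (act.f s : W →+* W)) ?_ ?_ hw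
        · rintro v (hv | hv)
          · have hv' := hv
            obtain ⟨⟨e, rfl⟩, -⟩ := hv'
            show act.f s (algebraMap E W e) ∈ Bx c.B x1
            rw [AlgHom.commutes]
            exact le_Bx (hc.lam_le hv)
          · exact hF _ (Finset.mem_union_left _ (Finset.mem_union_left _
              (Finset.mem_union_left _ (Finset.mem_image.2 ⟨(s, v),
                Finset.mem_product.2 ⟨Finset.mem_univ _, hv⟩, rfl⟩))))
        · intro v hv hv1
          show act.f s v⁻¹ ∈ Bx c.B x1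
          rw [map_inv₀]
          exact inv_mem_Bx hv (by rw [← act.iso s v] at hv1; exact hv1)
      · intro i
        obtain ⟨v, hv, -, h2⟩ := hsx s i
        show act.f s (x1 i) ∈ Bx c.B x1
        rw [h2]
        exact mul_mem (x_mem_Bx i) hv
      · intro v hv hv1
        show act.f s v⁻¹ ∈ Bx c.B x1
        rw [map_inv₀]
        exact inv_mem_Bx hv (by rw [← act.iso s v] at hv1; exact hv1)
    exact h1
  · intro z hz
    exact hF z (Finset.mem_union_right _ hz)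

end Pool.Agent.Lib.MX
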