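import Pool.Agent.Lib.MX.KumPar
import Pool.Agent.Lib.MX.StabX
import Pool.Agent.Lib.MX.FrStab

set_option autoImplicit false

/-!
# Module MX.KumStart: a stable chart with eigen-parameters (paper section 11)

`fr_stable` (`Z0 := {ξ}`, `ξ ∈ S` by `KumD.xiS`, `ξ ∈ L ≤ L'`), `stable_good` (`Z0 := {ξ}`), `eig_par0`, `par_change`: `c := ⟨c0.B, x, y⟩`.
`Fr E c` depends on `c.B` only, so `Ch S L' c` (`Gs.gd`).
-/

namespace Pool.Agent.Lib.MX

open Pool.Agent.Lib.MP_3029eb_ag Pool.Agent.Lib.MP_3029eb_ag.Abh Pool.Agent.Lib.TDO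
open Pool.Agent.Lib.TU (Mt)

variable {E W : Type} [Field E] [NormedField W] [IsUltrametricDist W] [Algebra E W] {p r : ℕ}
  {S : IntermediateField E W}

theorem eig_start (hr : 0 < r) (hA : AmbX p r S) {Γ : Type} [Group Γ] {L L' : IntermediateField E W}
    {act : Act Γ S L L'} {l : ℕ} {ξ : W} {s : Γ} (hK : KumD p act l ξ s) (h : HasCh S r L') :
    ∃ (c : Tri W r) (n : Fin r → ℕ) (n0 : ℕ), EigX act ξ s c n ∧
      act.f s c.y = ξ ^ n0 * c.y := by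
  classical
  obtain ⟨c00, hc00⟩ := h
  have hfin : Finite Γ := hK.fin
  have hξL' : ξ ∈ L' := hK.le hK.ξL
  obtain ⟨c0, hc0, hM, hZ⟩ := fr_stable hr hA act hc00 {ξ} (by
    intro z hz
    rw [Finset.mem_singleton] at hz
    rw [hz]
    exact ⟨hK.xiS hA, hξL'⟩)
  obtain ⟨c1, hgs, hch, -, hst, hξB, hxu⟩ := stable_good hr hA act hc0 hM {ξ} (by
    intro z hz
    rw [Finset.mem_singleton] at hz
    rw [hz]
    exact ⟨hZ ξ (Finset.mem_singleton_self ξ), hK.xi1.le⟩)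
  have hξ1 : ξ ∈ c1.B := hξB ξ (Finset.mem_singleton_self ξ)
  have hcL : ∀ z ∈ c1.B, z ∈ L' := fun z hz =>
    hch.le (IntermediateField.subset_adjoin E (c1.B : Set W) hz)
  obtain ⟨x, y, n, n0, hx, hy, hxe, hye⟩ := eig_par0 hA hK hgs hcL hξ1 hst hxu
  have hg := par_change hgs x y hx hy
  refine ⟨⟨c1.B, x, y⟩, n, n0, ⟨hg, ⟨hg.gd, hch.le, hch.dense⟩, hst, hξ1, hxe⟩, hye⟩

end Pool.Agent.Lib.MX
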