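import Pool.Agent.Lib.MX.PBas
import Pool.Agent.Lib.MX.KumX
import Pool.Agent.Lib.MX.StEx
import Pool.Agent.Lib.MX.GoodExt
import Pool.Agent.Lib.TU.MtB

set_option autoImplicit false

/-!
# Module MX.PEnd0: the end cases of the `p`-step with `d = 0` (paper 5.4)

`s := t - 1`, `p_exp`.  `p = mon c.x c0 * u_p`, `u_p ∈ HO c`, `‖u_p‖ = 1` (`hp`).  All elements `h ∈ HO c` which occur (`v`, `u_p`, their inverses) are in `B := Bx c.B x1` for a basis change such that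
`c1 := ⟨B, x1, c.y⟩` is strictly good (`exists_model`); monomials in `c.x` are monomials in `x1`.  Write `x` for `x1`.
`p_end0a`: `a0 ∉ p ℤ^r`: `um_perron` with `t := s`, `l := p`, `b := a0` (`‖s‖^p = ‖g‖ = ‖mon x a0‖`): `η := s^p * mon x (-a0)`, `‖η‖ = 1`; `x'`; then `TU.exists_Mt` on `x'`: all `x i` and all
`p * s^(k-p)` (`0 < k < p`, norm `< 1`; a Laurent monomial in `x, s` times the unit `u_p`) are `monN x' α * η^n * (unit of B)`, `1 ≤ α i`.
`η (1 + θ') = v`, `θ' = ∑ C(p,k) s^(k-p)`, `C(p,k) = p * (integer)`.  `good_ext` for `c1` with `w := η`, `g := X - C (rs v)`, `G := X - C v`, `Z := range x'`, `y' := c.y`, `B' := locV (closure (B ∪ (range x' ∪ {η})))`: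
`G(η) = η - v = - η θ'` is in the ideal `JI B' x' y` (each `p s^(k-p)` is); `x i`, `x' i` too.  `Fr E ⟨B', x', c.y⟩ = Fr E c ⊔ E(t)`: `x' i` is a Laurent monomial in `x, s`; `s` is a Laurent monomial in `x'` times a power
of `η`.  `ext_dense`.
`p_end0b`: `a0 = p • a`: `om := s * mon x (-a)`, `‖om‖ = 1`, `om^p (1 + θ') = v`, `θ' = ∑ C(p,k) mon x ((k-p) • a) * om^(k-p)`; `‖p * mon x ((k-p) • a)‖ < 1`: Perron (`TU.exists_Mt`): `x'` with `x i`, `mon x (c0 + (k-p) • a)` in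
`(x')`.  `good_ext` with `w := om`, `g := X^p - C (rs v)` irreducible over `kap B = kap c.B` (`kap_Bx`), `G := X^p - C v`, `G(om) = - om^p θ' ∈ JI B' x' y`, `Z := range x'`.
-/

namespace Pool.Agent.Lib.MX

open Pool.Agent.Lib.MP_3029eb_ag Pool.Agent.Lib.MP_3029eb_ag.Abh Pool.Agent.Lib.TDO
open Pool.Agent.Lib.TU (Mt)

variable {E W : Type} [Field E] [NormedField W] [IsUltrametricDist W] [Algebra E W] {p r : ℕ}
  {S : IntermediateField E W}

private theorem pend0_fr_locV (B : Subring W) (X : Set W) :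
    IntermediateField.adjoin E
        ((locV (ball W) (Subring.closure ((B : Set W) ∪ X)) : Subring W) : Set W) =
      IntermediateField.adjoin E (B : Set W) ⊔ IntermediateField.adjoin E X := by
  set M : IntermediateField E W :=
    IntermediateField.adjoin E (B : Set W) ⊔ IntermediateField.adjoin E X with hM
  have hBM : ∀ z ∈ B, z ∈ M := fun z hz =>
    (le_sup_left : _ ≤ M) (IntermediateField.subset_adjoin E _ hz)
  have hXM : ∀ z ∈ X, z ∈ M := fun z hz =>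
    (le_sup_right : _ ≤ M) (IntermediateField.subset_adjoin E _ hz)
  have hcl : Subring.closure ((B : Set W) ∪ X) ≤ M.toSubfield.toSubring := by
    rw [Subring.closure_le]
    rintro z (hz | hz)
    · exact hBM z hz
    · exact hXM z hz
  apply le_antisymm
  · rw [IntermediateField.adjoin_le_iff]
    intro z hz
    obtain ⟨a, ha, b, hb, hb1, h⟩ := mem_locB.1 hz
    have hb0 : b ≠ 0 := by
      rintro rfl
      rw [norm_zero] at hb1
      exact zero_ne_one hb1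
    have h2 : z = a / b := by rw [← h, mul_div_cancel_right₀ _ hb0]
    rw [h2]
    exact div_mem (hcl ha) (hcl hb)
  · refine sup_le (IntermediateField.adjoin.mono E _ _ fun z hz => ?_)
      (IntermediateField.adjoin.mono E _ _ fun z hz => ?_)
    · exact le_locV _ _ (Subring.subset_closure (Or.inl hz))
    · exact le_locV _ _ (Subring.subset_closure (Or.inr hz))

private theorem pend0_fr_bx {c : Tri W r} (hc : Gd S c) {x' : Fin r → W} (hx : Mt c.x x') :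
    Fr E (⟨Bx c.B x', x', c.y⟩ : Tri W r) = Fr E c := by
  apply le_antisymm
  · change IntermediateField.adjoin E ((Bx c.B x' : Subring W) : Set W) ≤ _
    rw [IntermediateField.adjoin_le_iff]
    intro z hz
    exact HO_mem_Fr hc (Bx_mem_HO hc hx hz)
  · change IntermediateField.adjoin E (c.B : Set W) ≤
      IntermediateField.adjoin E ((Bx c.B x' : Subring W) : Set W)
    exact IntermediateField.adjoin.mono E _ _ fun z hz => le_Bx hz

private theorem pend0_ch_bx {L : IntermediateField E W} {c : Tri W r} (hc : Ch S L c)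
    {x' : Fin r → W} (hx : Mt c.x x') (hs : Gs S (⟨Bx c.B x', x', c.y⟩ : Tri W r)) :
    Ch S L (⟨Bx c.B x', x', c.y⟩ : Tri W r) := by
  refine ⟨hs.gd, ?_, ?_⟩
  · rw [pend0_fr_bx hc.gd hx]
    exact hc.le
  · intro z hz
    rw [pend0_fr_bx hc.gd hx]
    exact hc.dense z hz

/-- the common construction -/
private theorem pend0_core (hA : AmbX p r S) {L : IntermediateField E W} {c : Tri W r}
    (hC : Ch S L c) (hs : Gs S c) {v w t : W} {d : ℕ} (hd : 0 < d) (hv : v ∈ c.B)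
    (hv1 : ‖v‖ = 1)
    (hirr : Irreducible (Polynomial.X ^ d - Polynomial.C (⟨rs v, rs_mem_kap hv⟩ : kap c.B)))
    (hwS : w ∈ S) (hw1 : ‖w‖ = 1) {x' : Fin r → W} (hx' : Indep x') (hx'S : ∀ i, x' i ∈ S)
    (hx : ∀ i, ∃ (α : Fin r → ℕ) (n : ℤ), c.x i = monN x' α * w ^ n)
    (hk : ∀ k, 0 < k → k < p → ∃ (β : Fin r → ℕ) (n : ℤ), ∃ u ∈ c.B, β ≠ 0 ∧
      (p : W) * (t - 1) ^ ((k : ℤ) - p) = monN x' β * w ^ n * u)
    (hθ : w ^ d * (1 + ∑ k ∈ Finset.Ioo 0 p, (p.choose k : W) * (t - 1) ^ ((k : ℤ) - p)) = v)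
    (h1 : ∀ i, x' i ∈ Fr E c ⊔ IntermediateField.adjoin E {t})
    (h2 : w ∈ Fr E c ⊔ IntermediateField.adjoin E {t})
    (h3 : t ∈ Fr E c ⊔ IntermediateField.adjoin E (Set.range x' ∪ {w})) :
    HasCh S r (L ⊔ IntermediateField.adjoin E {t}) := by
  have hp := hA.prime
  have hy1 := hC.gd.y1
  have hw0 : w ≠ 0 := norm_pos_iff.1 (by rw [hw1]; exact one_pos)
  set B' : Subring W := locV (ball W) (Subring.closure ((c.B : Set W) ∪ (Set.range x' ∪ {w})))
    with hB'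
  have hBB : ∀ z ∈ c.B, z ∈ B' := fun z hz => subset_locV_closure (Or.inl hz)
  have hx'B : ∀ i, x' i ∈ B' := fun i => subset_locV_closure (Or.inr (Or.inl ⟨i, rfl⟩))
  have hwB : w ∈ B' := subset_locV_closure (Or.inr (Or.inr rfl))
  have hyB : c.y ∈ B' := hBB _ hs.yB
  have hnB : ∀ z ∈ B', ‖z‖ ≤ 1 := by
    intro z hz
    refine norm_le_locV_closure ?_ hz
    rintro z (hz | ⟨i, rfl⟩ | hz)
    · exact hC.gd.norm_le hz
    · exact (hx'.lt i).le
    · rw [Set.mem_singleton_iff.1 hz]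
      exact hw1.le
  have hwB' : w⁻¹ ∈ B' := inv_mem_locV hwB hw1
  have hzp : ∀ n : ℤ, w ^ n ∈ B' := by
    intro n
    obtain ⟨m, rfl | rfl⟩ := n.eq_nat_or_neg
    · rw [zpow_natCast]
      exact pow_mem hwB m
    · rw [zpow_neg, zpow_natCast, ← inv_pow]
      exact pow_mem hwB' m
  have hxJ : ∀ i, c.x i ∈ JI B' x' c.y := by
    intro i
    obtain ⟨α, n, h⟩ := hx i
    have hα : α ≠ 0 := by
      rintro rfl
      have h4 := hs.ind.lt i
      rw [h, monN_zero, one_mul, norm_zpow, hw1, one_zpow] at h4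
      exact lt_irrefl _ h4
    rw [h, mul_comm]
    exact JI_mul (hzp n) (JI_monN hx'B hα)
  set θ : W := ∑ k ∈ Finset.Ioo 0 p, (p.choose k : W) * (t - 1) ^ ((k : ℤ) - p) with hθd
  have hθJ : θ ∈ JI B' x' c.y := by
    refine JI_sum _ _ fun k hkm => ?_
    rw [Finset.mem_Ioo] at hkm
    obtain ⟨m, hm⟩ := hp.dvd_choose_self hkm.1.ne' hkm.2
    obtain ⟨β, n, u, hu, hβ, h⟩ := hk k hkm.1 hkm.2
    have h4 : (p.choose k : W) * (t - 1) ^ ((k : ℤ) - p) =
        (m : W) * w ^ n * u * monN x' β := by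
      rw [hm, Nat.cast_mul]
      calc (p : W) * m * (t - 1) ^ ((k : ℤ) - p) = m * ((p : W) * (t - 1) ^ ((k : ℤ) - p)) := by
            ring
        _ = _ := by rw [h]; ring
    rw [h4]
    exact JI_mul (mul_mem (mul_mem (natCast_mem B' m) (hzp n)) (hBB u hu)) (JI_monN hx'B hβ)
  have hθ1 : ‖θ‖ < 1 := JI_lt hnB (fun i => hx'.lt i) hy1 hθJ
  have hwd : w ^ d - v = -(w ^ d * θ) := by rw [← hθ]; ring
  have hGJ : w ^ d - v ∈ JI B' x' c.y := by
    rw [hwd]
    exact JI_neg (JI_mul (pow_mem hwB d) hθJ)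
  have hrs : rs w ^ d = rs v := by
    rw [← rs_pow hw1.le, rs_eq_iff (by rw [norm_pow, hw1, one_pow]) hv1.le, hwd, norm_neg,
      norm_mul, norm_pow, hw1, one_pow, one_mul]
    exact hθ1
  have hg : Gs S (⟨B', x', c.y⟩ : Tri W r) := by
    refine good_ext hs hwS hw1.le _ (Polynomial.monic_X_pow_sub_C _ hd.ne') hirr ?_
      (Polynomial.X ^ d - Polynomial.C v) (Polynomial.monic_X_pow_sub_C _ hd.ne') ?_ ?_
      (Set.range x') (Set.finite_range x') ?_ x' c.y hx' hy1 B' hB' hx'B hyB hxJ JI_y ?_ ?_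
    · rw [map_sub, map_pow, Polynomial.aeval_X, Polynomial.aeval_C, hrs]
      exact sub_self _
    · intro j
      rw [Polynomial.coeff_sub, Polynomial.coeff_X_pow, Polynomial.coeff_C]
      refine sub_mem ?_ ?_
      · split_ifs
        · exact one_mem _
        · exact zero_mem _
      · split_ifs
        · exact hv
        · exact zero_mem _
    · intro j
      rw [Polynomial.coeff_sub, Polynomial.coeff_X_pow, Polynomial.coeff_C,
        Polynomial.coeff_sub, Polynomial.coeff_X_pow, Polynomial.coeff_C]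
      rw [rs_sub (by split_ifs <;> simp) (by split_ifs <;> simp [hv1])]
      push_cast
      congr 1
      · split_ifs
        · rw [rs_one]; rfl
        · rw [rs_zero]; rfl
      · split_ifs
        · rfl
        · rw [rs_zero]; rfl
    · rintro _ ⟨i, rfl⟩
      exact ⟨hx'S i, (hx'.lt i).le⟩
    · rintro _ ⟨i, rfl⟩
      refine ⟨0, fun j => ?_, ?_⟩
      · rw [Polynomial.coeff_zero]; exact zero_mem _
      · rw [Polynomial.eval_zero, sub_zero]
        exact JI_x i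
    · rw [Polynomial.eval_sub, Polynomial.eval_pow, Polynomial.eval_X, Polynomial.eval_C]
      exact hGJ
  have hFr : Fr E (⟨B', x', c.y⟩ : Tri W r) = Fr E c ⊔ IntermediateField.adjoin E {t} := by
    have h4 : Fr E (⟨B', x', c.y⟩ : Tri W r) =
        Fr E c ⊔ IntermediateField.adjoin E (Set.range x' ∪ {w}) :=
      pend0_fr_locV c.B (Set.range x' ∪ {w})
    rw [h4]
    apply le_antisymm
    · refine sup_le le_sup_left ?_
      rw [IntermediateField.adjoin_le_iff]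
      rintro _ (⟨i, rfl⟩ | hz)
      · exact h1 i
      · rw [Set.mem_singleton_iff.1 hz]
        exact h2
    · refine sup_le le_sup_left ?_
      rw [IntermediateField.adjoin_simple_le_iff]
      exact h3
  exact ⟨_, ext_dense hC hg.gd {t} hFr⟩

/-- Laurent monomials in `x, w` -/
private def pendQ {W : Type} [Field W] {r : ℕ} (x : Fin r → W) (w z : W) : Prop :=
  ∃ (β : Fin r → ℤ) (m : ℤ), z = mon x β * w ^ m

private theorem pendQ_mul {W : Type} [Field W] {r : ℕ} {x : Fin r → W} (hx : ∀ i, x i ≠ 0)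
    {w z z' : W} (hw : w ≠ 0) (h : pendQ x w z) (h' : pendQ x w z') : pendQ x w (z * z') := by
  obtain ⟨β, m, rfl⟩ := h
  obtain ⟨β', m', rfl⟩ := h'
  exact ⟨β + β', m + m', by rw [mon_add x hx, zpow_add₀ hw]; ring⟩

private theorem pendQ_zpow {W : Type} [Field W] {r : ℕ} {x : Fin r → W} {w z : W}
    (h : pendQ x w z) (n : ℤ) : pendQ x w (z ^ n) := by
  obtain ⟨β, m, rfl⟩ := h
  refine ⟨n • β, m * n, ?_⟩
  rw [mon_zsmul, mul_zpow, zpow_mul]

private theorem pendQ_mon {W : Type} [Field W] {r : ℕ} {x x' : Fin r → W} (hx' : ∀ i, x' i ≠ 0)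
    {w : W} (hw : w ≠ 0) (h : ∀ i, pendQ x' w (x i)) (a : Fin r → ℤ) : pendQ x' w (mon x a) := by
  unfold mon
  refine Finset.prod_induction _ (pendQ x' w) (fun _ _ => pendQ_mul hx' hw) ?_
    (fun i _ => pendQ_zpow (h i) _)
  exact ⟨0, 0, by rw [mon_zero, zpow_zero, one_mul]⟩

private theorem pend0_monN {W : Type} [Field W] {r : ℕ} {x' x'' : Fin r → W}
    (h : ∀ i, ∃ β : Fin r → ℕ, x' i = monN x'' β) (α : Fin r → ℕ) :
    ∃ β : Fin r → ℕ, monN x' α = monN x'' β := by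
  unfold monN at *
  refine Finset.prod_induction _ (fun z => ∃ β : Fin r → ℕ, z = ∏ i, x'' i ^ β i) ?_ ?_ ?_
  · rintro _ _ ⟨β, rfl⟩ ⟨β', rfl⟩
    refine ⟨β + β', ?_⟩
    rw [← Finset.prod_mul_distrib]
    exact Finset.prod_congr rfl fun i _ => by rw [Pi.add_apply, pow_add]
  · exact ⟨0, by simp⟩
  · intro i _
    obtain ⟨β, hβ⟩ := h i
    refine ⟨fun j => β j * α i, ?_⟩
    rw [hβ, ← Finset.prod_pow]
    exact Finset.prod_congr rfl fun j _ => by rw [pow_mul]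

private theorem pend0_model {L : IntermediateField E W} {c : Tri W r} (hc : Ch S L c)
    (hp : MoH c (p : W)) {v : W} (hv : v ∈ HO c) :
    ∃ (x1 : Fin r → W) (c0 : Fin r → ℤ) (u : W), Mt c.x x1 ∧
      Gs S (⟨Bx c.B x1, x1, c.y⟩ : Tri W r) ∧ v ∈ Bx c.B x1 ∧ u ∈ Bx c.B x1 ∧ ‖u‖ = 1 ∧
      (p : W) = mon x1 c0 * u := by
  classical
  obtain ⟨b, u, hu, hu1, hpu⟩ := hp
  obtain ⟨x1, h1, hs, hZ, -⟩ := exists_model hc.gd {v, u} (fun z hz => by
    rw [Finset.mem_insert, Finset.mem_singleton] at hz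
    rcases hz with rfl | rfl
    · exact hv
    · exact hu) ∅ (fun a ha => absurd ha (Finset.notMem_empty a))
  obtain ⟨b', hb'⟩ := h1.mon_eq b
  exact ⟨x1, b', u, h1, hs, hZ v (by simp), hZ u (by simp), hu1, by rw [hpu, hb']⟩

private theorem pend0_algS (hA : AmbX p r S) {g t : W} (hg : g ∈ S) (ht : t ^ p = 1 + g) :
    t ∈ S := by
  refine hA.alg t (IsAlgebraic.of_pow hA.prime.pos ?_)
  rw [ht]
  exact isAlgebraic_algebraMap (⟨1 + g, add_mem (one_mem S) hg⟩ : S)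

theorem p_end0a (hr : 0 < r) (hA : AmbX p r S) {L : IntermediateField E W} {c : Tri W r}
    (hc : Ch S L c) {ζ t g v : W} (hζ : IsPrimitiveRoot ζ p) (hp : MoH c (p : W))
    (ht : t ^ p = 1 + g) (hg1 : ‖g‖ < 1) (hg : ‖ζ - 1‖ ^ p < ‖g‖) {a0 : Fin r → ℤ}
    (ha0 : ∀ a, a0 ≠ p • a) (hv : v ∈ HO c) (hv1 : ‖v‖ = 1) (hgv : g = mon c.x a0 * v) :
    HasCh S r (L ⊔ IntermediateField.adjoin E {t}) := by
  classical
  have hpr := hA.prime
  obtain ⟨hs1, hs2, hs3, hs4, hs5⟩ := p_exp hpr hA.p1 hζ ht hg1 hg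
  obtain ⟨x1, c0, u, hx1, hs, hvB, huB, hu1, hpu⟩ := pend0_model hc hp hv
  have hC := pend0_ch_bx hc hx1 hs
  have hind : Indep x1 := hx1.ind
  obtain ⟨a1, ha1⟩ := hx1.mon_eq a0
  have ha1' : ∀ a, a1 ≠ p • a := by
    intro a h
    obtain ⟨a2, ha2⟩ := hx1.mon_eq' hc.gd.ind a
    apply ha0 a2
    have h1 : mon c.x a0 = mon c.x (p • a2) := by rw [ha1, h, mon_nsmul, ha2, ← mon_nsmul]
    have h2 : mon c.x (a0 - p • a2) = 1 := by
      rw [sub_eq_add_neg, mon_add _ hc.gd.ind.ne, mon_neg, h1,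
        mul_inv_cancel₀ (mon_ne _ hc.gd.ind.ne _)]
    have h3 := hc.gd.ind.indep (a0 - p • a2) (by rw [h2, norm_one])
    exact sub_eq_zero.1 h3
  set s : W := t - 1 with hsd
  have hs0 : s ≠ 0 := norm_pos_iff.1 ((norm_nonneg _).trans_lt hs2)
  have hgv1 : g = mon x1 a1 * v := by rw [hgv, ha1]
  have hgn : ‖s‖ ^ p = ‖mon x1 a1‖ := by rw [hs1, hgv1, norm_mul, hv1, mul_one]
  have hm0 : ∀ a, mon x1 a ≠ 0 := fun a => mon_ne x1 hind.ne a
  obtain ⟨x', hx', h1, -, ⟨α0, n0, h2⟩, h3⟩ := um_perron hind hs0 hpr ha1' hgn ∅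
    (fun a ha => absurd ha (Finset.notMem_empty a))
  set η : W := s ^ p * mon x1 (-a1) with hη
  have hη1 : ‖η‖ = 1 := by
    rw [hη, norm_mul, norm_pow, hgn, mon_neg, norm_inv,
      mul_inv_cancel₀ (norm_ne_zero_iff.2 (hm0 a1))]
  have hη0 : η ≠ 0 := norm_pos_iff.1 (by rw [hη1]; exact one_pos)
  have hgS : g ∈ S := by
    rw [hgv]
    exact mul_mem (hc.gd.monS a0) (HO_mem_S hc.gd hv)
  have htS : t ∈ S := pend0_algS hA hgS ht
  have hsS : s ∈ S := sub_mem htS (one_mem S)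
  have hm1S : ∀ a, mon x1 a ∈ S := fun a => hs.gd.monS a
  have hηS : η ∈ S := mul_mem (pow_mem hsS p) (hm1S _)
  have hx'S : ∀ i, x' i ∈ S := by
    intro i
    obtain ⟨a, j, h⟩ := h3 i
    rw [h]
    exact mul_mem (hm1S a) (zpow_mem hsS j)
  have hQx : ∀ i, pendQ x' η (x1 i) := by
    intro i
    obtain ⟨α, n, -, h⟩ := h1 i
    refine ⟨fun j => (α j : ℤ), n, ?_⟩
    rw [h]
    unfold mon monN
    simp only [zpow_natCast]
  have hQ : ∀ k : ℤ, pendQ x' η (mon x1 c0 * s ^ k) := fun k =>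
    pendQ_mul hx'.ne hη0 (pendQ_mon hx'.ne hη0 hQx c0) (pendQ_zpow ⟨α0, n0, h2⟩ k)
  choose β m hβ using hQ
  have hβn : ∀ k : ℕ, 0 < k → k < p → ‖mon x' (β ((k : ℤ) - p))‖ < 1 := by
    intro k hk0 hkp
    have h := hs4 k hk0 hkp
    have h5 : (p : W) * s ^ ((k : ℤ) - p) = mon x1 c0 * s ^ ((k : ℤ) - p) * u := by
      rw [hpu]
      ring
    rw [h5, norm_mul, hu1, mul_one, hβ, norm_mul, norm_zpow, hη1, one_zpow, mul_one] at h
    exact h
  obtain ⟨x'', hM, hY⟩ := TU.exists_Mt hx'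
    ((Finset.Ioo 0 p).image fun k : ℕ => β ((k : ℤ) - p)) (by
      intro a ha
      obtain ⟨k, hk, rfl⟩ := Finset.mem_image.1 ha
      rw [Finset.mem_Ioo] at hk
      exact (hβn k hk.1 hk.2).le)
  obtain ⟨A, B, hA1, hB1, -⟩ := hM.mat
  have hirr : Irreducible (Polynomial.X ^ 1 - Polynomial.C (⟨rs v, rs_mem_kap hvB⟩ :
      kap (Bx c.B x1))) := by
    rw [pow_one]
    exact Polynomial.irreducible_X_sub_C _
  have hFc : ∀ a, mon x1 a ∈ Fr E (⟨Bx c.B x1, x1, c.y⟩ : Tri W r) := fun a =>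
    mon_mem_Fr hs.gd a
  set M : IntermediateField E W := Fr E (⟨Bx c.B x1, x1, c.y⟩ : Tri W r) ⊔
    IntermediateField.adjoin E {t} with hMd
  have htM : t ∈ M := (le_sup_right : IntermediateField.adjoin E {t} ≤ M)
    (IntermediateField.mem_adjoin_simple_self E t)
  have hsM : s ∈ M := sub_mem htM (one_mem M)
  have hmM : ∀ a, mon x1 a ∈ M := fun a => (le_sup_left : _ ≤ M) (hFc a)
  have hx'M : ∀ i, x' i ∈ M := by
    intro i
    obtain ⟨a, j, h⟩ := h3 i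
    rw [h]
    exact mul_mem (hmM a) (zpow_mem hsM j)
  refine pend0_core hA hC hs one_pos hvB hv1 hirr hηS hη1 hM.ind ?_ ?_ ?_ ?_ ?_ ?_ ?_
  · intro i
    rw [hB1]
    exact prod_mem fun j _ => zpow_mem (hx'S j) _
  · intro i
    obtain ⟨α, n, -, h⟩ := h1 i
    obtain ⟨γ, hγ⟩ := pend0_monN (fun i => ⟨A i, hA1 i⟩) α
    exact ⟨γ, n, by rw [← hγ]; exact h⟩
  · intro k hk0 hkp
    obtain ⟨γ, hγ, hγ1⟩ := hY (β ((k : ℤ) - p)) (Finset.mem_image.2
      ⟨k, Finset.mem_Ioo.2 ⟨hk0, hkp⟩, rfl⟩)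
    refine ⟨γ, m ((k : ℤ) - p), u, huB, ?_, ?_⟩
    · rintro rfl
      have h4 := hγ1 (hβn k hk0 hkp) ⟨0, hr⟩
      simp at h4
    · rw [← hγ, ← hβ, hpu]
      ring
  · rw [pow_one, hη]
    have h4 : s ^ p * mon x1 (-a1) *
        (1 + ∑ k ∈ Finset.Ioo 0 p, (p.choose k : W) * s ^ ((k : ℤ) - p)) =
        mon x1 (-a1) * (s ^ p *
        (1 + ∑ k ∈ Finset.Ioo 0 p, (p.choose k : W) * s ^ ((k : ℤ) - p))) := by ring
    rw [h4, hs5, hgv1, ← mul_assoc, mon_neg, inv_mul_cancel₀ (hm0 a1), one_mul]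
  · intro i
    rw [hB1]
    exact prod_mem fun j _ => zpow_mem (hx'M j) _
  · exact mul_mem (pow_mem hsM p) (hmM _)
  · set N : IntermediateField E W := Fr E (⟨Bx c.B x1, x1, c.y⟩ : Tri W r) ⊔
      IntermediateField.adjoin E (Set.range x'' ∪ {η}) with hNd
    have hx''N : ∀ i, x'' i ∈ N := fun i => (le_sup_right : _ ≤ N)
      (IntermediateField.subset_adjoin E _ (Or.inl ⟨i, rfl⟩))
    have hηN : η ∈ N := (le_sup_right : _ ≤ N)
      (IntermediateField.subset_adjoin E _ (Or.inr rfl))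
    have hx'N : ∀ i, x' i ∈ N := by
      intro i
      rw [hA1]
      exact prod_mem fun j _ => pow_mem (hx''N j) _
    have hsN : s ∈ N := by
      rw [h2]
      exact mul_mem (prod_mem fun j _ => zpow_mem (hx'N j) _) (zpow_mem hηN _)
    have h4 : t = s + 1 := by rw [hsd]; ring
    rw [h4]
    exact add_mem hsN (one_mem N)

theorem p_end0b (hr : 0 < r) (hA : AmbX p r S) {L : IntermediateField E W} {c : Tri W r}
    (hc : Ch S L c) {ζ t g v : W} (hζ : IsPrimitiveRoot ζ p) (hp : MoH c (p : W))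
    (ht : t ^ p = 1 + g) (hg1 : ‖g‖ < 1) (hg : ‖ζ - 1‖ ^ p < ‖g‖) {a : Fin r → ℤ}
    (hv : v ∈ HO c) (hv1 : ‖v‖ = 1) (hgv : g = mon c.x (p • a) * v)
    (hres : ∀ b ∈ c.B, rs v ≠ rs b ^ p) :
    HasCh S r (L ⊔ IntermediateField.adjoin E {t}) := by
  classical
  have hpr := hA.prime
  obtain ⟨hs1, hs2, hs3, hs4, hs5⟩ := p_exp hpr hA.p1 hζ ht hg1 hg
  obtain ⟨x1, c0, u, hx1, hs, hvB, huB, hu1, hpu⟩ := pend0_model hc hp hv
  have hC := pend0_ch_bx hc hx1 hs
  have hind : Indep x1 := hx1.ind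
  obtain ⟨a1, ha1⟩ := hx1.mon_eq a
  set s : W := t - 1 with hsd
  have hs0 : s ≠ 0 := norm_pos_iff.1 ((norm_nonneg _).trans_lt hs2)
  have hgv1 : g = mon x1 a1 ^ p * v := by rw [hgv, mon_nsmul, ha1]
  have hm0 : ∀ a, mon x1 a ≠ 0 := fun a => mon_ne x1 hind.ne a
  have hgn : ‖s‖ ^ p = ‖mon x1 a1‖ ^ p := by rw [hs1, hgv1, norm_mul, hv1, mul_one, norm_pow]
  have hgn1 : ‖s‖ = ‖mon x1 a1‖ :=
    (pow_left_inj₀ (norm_nonneg _) (norm_nonneg _) hpr.ne_zero).1 hgn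
  set η : W := s * (mon x1 a1)⁻¹ with hη
  have hη1 : ‖η‖ = 1 := by
    rw [hη, norm_mul, norm_inv, hgn1, mul_inv_cancel₀ (norm_ne_zero_iff.2 (hm0 a1))]
  have hη0 : η ≠ 0 := norm_pos_iff.1 (by rw [hη1]; exact one_pos)
  have hsη : s = mon x1 a1 * η := by
    rw [hη, mul_comm, mul_assoc, inv_mul_cancel₀ (hm0 a1), mul_one]
  have hgS : g ∈ S := by
    rw [hgv]
    exact mul_mem (hc.gd.monS _) (HO_mem_S hc.gd hv)
  have htS : t ∈ S := pend0_algS hA hgS ht
  have hsS : s ∈ S := sub_mem htS (one_mem S)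
  have hm1S : ∀ a, mon x1 a ∈ S := fun a => hs.gd.monS a
  have hηS : η ∈ S := mul_mem hsS (inv_mem (hm1S _))
  have hkey : ∀ k : ℤ, (p : W) * s ^ k = mon x1 (c0 + k • a1) * η ^ k * u := by
    intro k
    rw [hpu, mon_add x1 hind.ne, mon_zsmul, hsη, mul_zpow]
    ring
  have hβn : ∀ k : ℕ, 0 < k → k < p → ‖mon x1 (c0 + ((k : ℤ) - p) • a1)‖ < 1 := by
    intro k hk0 hkp
    have h := hs4 k hk0 hkp
    rw [hkey, norm_mul, hu1, mul_one, norm_mul, norm_zpow, hη1, one_zpow, mul_one] at h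
    exact h
  obtain ⟨x'', hM, hY⟩ := TU.exists_Mt hind
    ((Finset.Ioo 0 p).image fun k : ℕ => c0 + ((k : ℤ) - p) • a1) (by
      intro a ha
      obtain ⟨k, hk, rfl⟩ := Finset.mem_image.1 ha
      rw [Finset.mem_Ioo] at hk
      exact (hβn k hk.1 hk.2).le)
  obtain ⟨A, B, hA1, hB1, -⟩ := hM.mat
  have hirr : Irreducible (Polynomial.X ^ p - Polynomial.C (⟨rs v, rs_mem_kap hvB⟩ :
      kap (Bx c.B x1))) := by
    refine X_pow_sub_C_irreducible_of_prime hpr fun b hb => ?_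
    have hb1 : (b : RW W) ^ p = rs v := by
      have h := congrArg (fun z : kap (Bx c.B x1) => (z : RW W)) hb
      simpa using h
    have hb2 : (b : RW W) ∈ kap c.B := by
      rw [← kap_Bx hc.gd hx1 hs]
      exact b.2
    obtain ⟨z, hz, hzb⟩ := (hc.gd.mem_kap_iff _).1 hb2
    exact hres z hz (by rw [hzb, hb1])
  have hFc : ∀ a, mon x1 a ∈ Fr E (⟨Bx c.B x1, x1, c.y⟩ : Tri W r) := fun a =>
    mon_mem_Fr hs.gd a
  set M : IntermediateField E W := Fr E (⟨Bx c.B x1, x1, c.y⟩ : Tri W r) ⊔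
    IntermediateField.adjoin E {t} with hMd
  have htM : t ∈ M := (le_sup_right : IntermediateField.adjoin E {t} ≤ M)
    (IntermediateField.mem_adjoin_simple_self E t)
  have hsM : s ∈ M := sub_mem htM (one_mem M)
  have hmM : ∀ a, mon x1 a ∈ M := fun a => (le_sup_left : _ ≤ M) (hFc a)
  refine pend0_core hA hC hs hpr.pos hvB hv1 hirr hηS hη1 hM.ind ?_ ?_ ?_ ?_ ?_ ?_ ?_
  · intro i
    rw [hB1]
    exact hm1S _
  · intro i
    exact ⟨A i, 0, by rw [zpow_zero, mul_one]; exact hA1 i⟩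
  · intro k hk0 hkp
    obtain ⟨γ, hγ, hγ1⟩ := hY (c0 + ((k : ℤ) - p) • a1) (Finset.mem_image.2
      ⟨k, Finset.mem_Ioo.2 ⟨hk0, hkp⟩, rfl⟩)
    refine ⟨γ, (k : ℤ) - p, u, huB, ?_, ?_⟩
    · rintro rfl
      have h4 := hγ1 (hβn k hk0 hkp) ⟨0, hr⟩
      simp at h4
    · rw [← hγ]
      exact hkey _
  · have h4 : η ^ p *
        (1 + ∑ k ∈ Finset.Ioo 0 p, (p.choose k : W) * s ^ ((k : ℤ) - p)) =
        (mon x1 a1 ^ p)⁻¹ * (s ^ p *
        (1 + ∑ k ∈ Finset.Ioo 0 p, (p.choose k : W) * s ^ ((k : ℤ) - p))) := by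
      rw [hη, mul_pow, inv_pow]
      ring
    rw [h4, hs5, hgv1, ← mul_assoc, inv_mul_cancel₀ (pow_ne_zero p (hm0 a1)), one_mul]
  · intro i
    rw [hB1]
    exact hmM _
  · exact mul_mem hsM (inv_mem (hmM _))
  · set N : IntermediateField E W := Fr E (⟨Bx c.B x1, x1, c.y⟩ : Tri W r) ⊔
      IntermediateField.adjoin E (Set.range x'' ∪ {η}) with hNd
    have hηN : η ∈ N := (le_sup_right : _ ≤ N)
      (IntermediateField.subset_adjoin E _ (Or.inr rfl))
    have hsN : s ∈ N := by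
      rw [hsη]
      exact mul_mem ((le_sup_left : _ ≤ N) (hFc _)) hηN
    have h4 : t = s + 1 := by rw [hsd]; ring
    rw [h4]
    exact add_mem hsN (one_mem N)

end Pool.Agent.Lib.MX
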