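import Pool.Agent.Lib.MX.PBas
import Pool.Agent.Lib.MX.KumX
import Pool.Agent.Lib.MX.StEx

set_option autoImplicit false

/-!
# Module MX.PEnd1: the end case of the `p`-step with `d = 1` (paper 5.4)

`s := t - 1`, `p_exp`.  `p = mon c.x c0 * u_p`.  `Ld c g a0 1`: `g = mon c.x a0 * (c.y * v + q)`, `v ∈ HO c`, `‖v‖ = 1`, `q = mon c.x b * h ∈ QH c`.  All elements of `HO c` which occur (`v`, `v⁻¹`, `u_p`, `h`) are in `B := Bx c.B x1`
for a basis change such that `c1 := ⟨B, x1, c.y⟩` is strictly good and `q ∈ (x1) B` (`exists_model`).  Write `x` for `x1`.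
`e ≥ 1` minimal with `‖s‖^e = ‖mon x β‖` for some `β` (exists by `hA.rank`, see `stex_rank` in StEx.lean; or `‖s‖^p = ‖g‖` ..), `TDO.exists_um` for `x, s, e, β`: `x'`, `T`, `w := s^e * mon x (-β)`, `‖w‖ = 1`.  `TU.exists_Mt` on
`x'`: all `x i`, `s`, `mon x (-a0) * s^p` (norm `‖y v + q‖ < 1`), `p * s^(k-p)` (`0 < k < p`, times a unit) are `monN x' α * w^m * (unit of B)` with `1 ≤ α i` (Laurent monomials in `x, s` of norm `< 1`).
`κ := kap B`, `g1 := minpoly κ (rs w)` (`res_alg`), `G` a monic lift (`exists_lift`), `y' := G(w)`, `‖y'‖ < 1`, `Z := range x'`, `B' := locV (closure (B ∪ (range x' ∪ {w})))`.  `good_ext`: `x i ∈ JI B' x' y'`; `y v + q =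
mon x (-a0) * s^p * (1 + θ')` is in `JI B' x' y'`, `q` too, so `y = v⁻¹ (..)` too; `G(w) = y'`.  `Fr E ⟨B', x', y'⟩ = Fr E c ⊔ E(t)` (`x' i`, `w` are Laurent monomials in `x, s`; `s` is one in `x', w`).  `ext_dense`.
-/

namespace Pool.Agent.Lib.MX

open Pool.Agent.Lib.MP_3029eb_ag Pool.Agent.Lib.MP_3029eb_ag.Abh Pool.Agent.Lib.TDO
open Pool.Agent.Lib.TU (Mt)

variable {E W : Type} [Field E] [NormedField W] [IsUltrametricDist W] [Algebra E W] {p r : ℕ}
  {S : IntermediateField E W}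

private theorem pend1_rank (hA : AmbX p r S) {x : Fin r → W} {y : W} (hx : Indep x)
    (hy : y ≠ 0) : ∃ e : ℕ, 1 ≤ e ∧ ∃ B : Fin r → ℤ, ‖y‖ ^ e = ‖mon x B‖ := by
  obtain ⟨a, ha, hna⟩ := hA.rank (Fin.cons y x) (by
    intro i
    refine Fin.cases ?_ (fun i => ?_) i
    · exact hy
    · exact hx.ne i)
  have hm : mon (Fin.cons y x : Fin (r + 1) → W) a = y ^ a 0 * mon x (fun i => a i.succ) := by
    unfold mon
    rw [Fin.prod_univ_succ, Fin.cons_zero]
    congr 1
  rw [hm, norm_mul, norm_zpow] at hna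
  have ha0 : a 0 ≠ 0 := by
    intro h0
    rw [h0, zpow_zero, one_mul] at hna
    have h1 := hx.indep _ hna
    refine ha (funext fun i => ?_)
    refine Fin.cases ?_ (fun i => ?_) i
    · exact h0
    · exact congrFun h1 i
  rcases lt_or_gt_of_ne ha0 with h | h
  · refine ⟨(-(a 0)).toNat, by omega, fun i => a i.succ, ?_⟩
    rw [← zpow_natCast, Int.toNat_of_nonneg (by omega), zpow_neg]
    exact inv_eq_of_mul_eq_one_right hna
  · refine ⟨(a 0).toNat, by omega, -fun i => a i.succ, ?_⟩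
    rw [← zpow_natCast, Int.toNat_of_nonneg (by omega), mon_neg, norm_inv]
    exact eq_inv_of_mul_eq_one_left hna

private theorem pend1_um (hA : AmbX p r S) {x : Fin r → W} {y : W} (hx : Indep x)
    (hy : y ≠ 0) : ∃ (x' : Fin r → W) (w : W) (e : ℕ) (B : Fin r → ℤ)
      (T : ((Fin r → ℤ) × ℤ) ≃+ ((Fin r → ℤ) × ℤ)), Indep x' ∧ ‖w‖ = 1 ∧
      w = y ^ e * mon x (-B) ∧
      ∀ (a : Fin r → ℤ) (j : ℤ), mon x a * y ^ j = mon x' (T (a, j)).1 * w ^ (T (a, j)).2 := by
  classical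
  have hex := pend1_rank hA hx hy
  obtain ⟨e, heq⟩ : ∃ e, e = Nat.find hex := ⟨_, rfl⟩
  obtain ⟨he, B, hB⟩ := Nat.find_spec hex
  rw [← heq] at he hB
  have hmin : ∀ e' : ℕ, 1 ≤ e' → e' < e → ∀ B' : Fin r → ℤ, ‖y‖ ^ e' ≠ ‖mon x B'‖ := by
    intro e' h1 h2 B' h3
    rw [heq] at h2
    exact Nat.find_min hex h2 ⟨h1, B', h3⟩
  have hmB : mon x B ≠ 0 := mon_ne x hx.ne B
  obtain ⟨x', T, hx', -, hm⟩ := exists_um x hx y hy e he B hB hmin
  refine ⟨x', y ^ e * mon x (-B), e, B, T, hx', ?_, rfl, hm⟩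
  rw [norm_mul, norm_pow, hB, mon_neg, norm_inv, mul_inv_cancel₀]
  exact norm_ne_zero_iff.2 hmB

private theorem pend1_sum_lt {ι : Type} (s : Finset ι) (f : ι → W) (h : ∀ i ∈ s, ‖f i‖ < 1) :
    ‖∑ i ∈ s, f i‖ < 1 := by
  classical
  induction s using Finset.induction_on with
  | empty => rw [Finset.sum_empty, norm_zero]; exact one_pos
  | insert a s ha ih =>
    rw [Finset.sum_insert ha]
    exact (IsUltrametricDist.norm_add_le_max _ _).trans_lt (max_lt
      (h a (Finset.mem_insert_self a s)) (ih fun i hi => h i (Finset.mem_insert_of_mem hi)))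

private theorem pend1_fr_locV (B : Subring W) (X : Set W) :
    IntermediateField.adjoin E
        ((locV (ball W) (Subring.closure ((B : Set W) ∪ X)) : Subring W) : Set W) =
      IntermediateField.adjoin E (B : Set W) ⊔ IntermediateField.adjoin E X := by
  set M : IntermediateField E W :=
    IntermediateField.adjoin E (B : Set W) ⊔ IntermediateField.adjoin E X with hM
  have hBM : ∀ z ∈ B, z ∈ M := fun z hz =>
    (le_sup_left : _ ≤ M) (IntermediateField.subset_adjoin E _ hz)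
  have hXM : ∀ z ∈ X, z ∈ M := fun z hz =>
    (le_sup_right : _ ≤ M) (IntermediateField.subset_adjoin E _ hz)
  have hcl : Subring.closure ((B : Set W) ∪ X) ≤ M.toSubfield.toSubring := by
    rw [Subring.closure_le]
    rintro z (hz | hz)
    · exact hBM z hz
    · exact hXM z hz
  apply le_antisymm
  · rw [IntermediateField.adjoin_le_iff]
    intro z hz
    obtain ⟨a, ha, b, hb, hb1, h⟩ := mem_locB.1 hz
    have hb0 : b ≠ 0 := by
      rintro rfl
      rw [norm_zero] at hb1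
      exact zero_ne_one hb1
    have h2 : z = a / b := by rw [← h, mul_div_cancel_right₀ _ hb0]
    rw [h2]
    exact div_mem (hcl ha) (hcl hb)
  · refine sup_le (IntermediateField.adjoin.mono E _ _ fun z hz => ?_)
      (IntermediateField.adjoin.mono E _ _ fun z hz => ?_)
    · exact le_locV _ _ (Subring.subset_closure (Or.inl hz))
    · exact le_locV _ _ (Subring.subset_closure (Or.inr hz))

private theorem pend1_fr_bx {c : Tri W r} (hc : Gd S c) {x' : Fin r → W} (hx : Mt c.x x') :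
    Fr E (⟨Bx c.B x', x', c.y⟩ : Tri W r) = Fr E c := by
  apply le_antisymm
  · change IntermediateField.adjoin E ((Bx c.B x' : Subring W) : Set W) ≤ _
    rw [IntermediateField.adjoin_le_iff]
    intro z hz
    exact HO_mem_Fr hc (Bx_mem_HO hc hx hz)
  · change IntermediateField.adjoin E (c.B : Set W) ≤
      IntermediateField.adjoin E ((Bx c.B x' : Subring W) : Set W)
    exact IntermediateField.adjoin.mono E _ _ fun z hz => le_Bx hz

/-- The case of a strictly good triple. -/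
private theorem pend1_aux (hr : 0 < r) (hA : AmbX p r S) {c : Tri W r} (hs : Gs S c)
    {s v h u : W} {a b c0 : Fin r → ℤ} (hs0 : s ≠ 0) (hsS : s ∈ S) (hv : v ∈ c.B)
    (hv1 : ‖v‖ = 1) (hh : h ∈ c.B) (hu : u ∈ c.B) (hu1 : ‖u‖ = 1) (hb : ‖mon c.x b‖ < 1)
    (hpe : (p : W) = mon c.x c0 * u)
    (hk : ∀ k, 0 < k → k < p → ‖(p : W) * s ^ ((k : ℤ) - p)‖ < 1)
    (hg : s ^ p * (1 + ∑ k ∈ Finset.Ioo 0 p, (p.choose k : W) * s ^ ((k : ℤ) - p)) =
      mon c.x a * (c.y * v + mon c.x b * h)) :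
    ∃ c' : Tri W r, Gs S c' ∧ Fr E c' = Fr E c ⊔ IntermediateField.adjoin E {s} := by
  classical
  have hxi := hs.ind
  have hgd := hs.gd
  have hn : ∀ z ∈ c.B, ‖z‖ ≤ 1 := fun z hz => (hs.le z hz).2
  have hp := hA.prime
  obtain ⟨x', w, e, β, T, hx', hw1, hw, hm⟩ := pend1_um hA hxi hs0
  -- the binomial coefficients
  have hch : ∀ k ∈ Finset.Ioo 0 p, (p.choose k : W) = ((p.choose k / p : ℕ) : W) * (p : W) := by
    intro k hk1
    rw [Finset.mem_Ioo] at hk1
    have h1 : p ∣ p.choose k := hp.dvd_choose_self (by omega) hk1.2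
    rw [← Nat.cast_mul, Nat.div_mul_cancel h1]
  have hterm : ∀ k ∈ Finset.Ioo 0 p, (p.choose k : W) * s ^ ((k : ℤ) - p) =
      ((p.choose k / p : ℕ) : W) * (u * (mon c.x c0 * s ^ ((k : ℤ) - p))) := by
    intro k hk1
    rw [hch k hk1]
    have h1 : (p : W) = mon c.x c0 * u := hpe
    calc ((p.choose k / p : ℕ) : W) * (p : W) * s ^ ((k : ℤ) - p)
        = ((p.choose k / p : ℕ) : W) * (mon c.x c0 * u) * s ^ ((k : ℤ) - p) := by rw [← h1]
      _ = _ := by ring
  set θ : W := ∑ k ∈ Finset.Ioo 0 p, (p.choose k : W) * s ^ ((k : ℤ) - p) with hθ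
  have hk' : ∀ k ∈ Finset.Ioo 0 p, ‖mon c.x c0 * s ^ ((k : ℤ) - p)‖ < 1 := by
    intro k hk1
    rw [Finset.mem_Ioo] at hk1
    have h1 := hk k hk1.1 hk1.2
    rw [hpe] at h1
    have h2 : mon c.x c0 * u * s ^ ((k : ℤ) - (p : ℤ)) =
        u * (mon c.x c0 * s ^ ((k : ℤ) - (p : ℤ))) := by ring
    rw [h2, norm_mul, hu1, one_mul] at h1
    exact h1
  have hθ1 : ‖θ‖ < 1 := by
    rw [hθ]
    refine pend1_sum_lt _ _ fun k hk1 => ?_
    rw [hterm k hk1, norm_mul, norm_mul, hu1, one_mul]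
    exact (mul_le_of_le_one_left (norm_nonneg _)
      (IsUltrametricDist.norm_natCast_le_one W _)).trans_lt (hk' k hk1)
  have h1θ : ‖1 + θ‖ = 1 := by
    have h2 : ‖θ‖ ≠ ‖(1 : W)‖ := by rw [norm_one]; exact hθ1.ne
    rw [add_comm, IsUltrametricDist.norm_add_eq_max_of_norm_ne_norm h2, norm_one]
    exact max_eq_right hθ1.le
  have hQ1 : ‖c.y * v + mon c.x b * h‖ < 1 := by
    refine (IsUltrametricDist.norm_add_le_max _ _).trans_lt (max_lt ?_ ?_)
    · rw [norm_mul, hv1, mul_one]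
      exact hs.y1
    · rw [norm_mul]
      exact (mul_le_of_le_one_right (norm_nonneg _) (hn h hh)).trans_lt hb
  have hma0 : mon c.x a ≠ 0 := mon_ne c.x hxi.ne a
  have hQe : mon c.x (-a) * s ^ (p : ℤ) * (1 + θ) = c.y * v + mon c.x b * h := by
    rw [zpow_natCast, mul_assoc, hg, ← mul_assoc, mon_neg, inv_mul_cancel₀ hma0, one_mul]
  have hQn : ‖mon c.x (-a) * s ^ (p : ℤ)‖ < 1 := by
    have h2 := congrArg norm hQe
    rw [norm_mul, h1θ, mul_one] at h2
    rw [h2]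
    exact hQ1
  -- the list of exponents
  set Y : Finset ((Fin r → ℤ) × ℤ) := (Finset.univ.image fun i : Fin r =>
    ((Pi.single i 1 : Fin r → ℤ), (0 : ℤ))) ∪ ({(-a, (p : ℤ)), (b, (0 : ℤ))} ∪
      (Finset.Ioo 0 p).image fun k : ℕ => (c0, (k : ℤ) - (p : ℤ))) with hY
  have hYi : ∀ i, ((Pi.single i 1 : Fin r → ℤ), (0 : ℤ)) ∈ Y := fun i =>
    Finset.mem_union_left _ (Finset.mem_image_of_mem _ (Finset.mem_univ i))
  have hYa : (-a, (p : ℤ)) ∈ Y := Finset.mem_union_right _ (Finset.mem_union_left _ (by simp))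
  have hYb : (b, (0 : ℤ)) ∈ Y := Finset.mem_union_right _ (Finset.mem_union_left _ (by simp))
  have hYk : ∀ k ∈ Finset.Ioo 0 p, (c0, (k : ℤ) - (p : ℤ)) ∈ Y := fun k hk1 =>
    Finset.mem_union_right _ (Finset.mem_union_right _
      (Finset.mem_image_of_mem (fun k : ℕ => (c0, (k : ℤ) - (p : ℤ))) hk1))
  have hY1 : ∀ m ∈ Y, ‖mon c.x m.1 * s ^ m.2‖ < 1 := by
    intro m hmY
    rw [hY, Finset.mem_union, Finset.mem_union, Finset.mem_image, Finset.mem_image] at hmY
    rcases hmY with ⟨i, -, rfl⟩ | hmY | ⟨k, hk1, rfl⟩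
    · change ‖mon c.x (Pi.single i 1) * s ^ (0 : ℤ)‖ < 1
      rw [mon_single, zpow_zero, mul_one]
      exact hxi.lt i
    · rw [Finset.mem_insert, Finset.mem_singleton] at hmY
      rcases hmY with rfl | rfl
      · exact hQn
      · change ‖mon c.x b * s ^ (0 : ℤ)‖ < 1
        rw [zpow_zero, mul_one]
        exact hb
    · exact hk' k hk1
  have hwz : ∀ n : ℤ, ‖w ^ n‖ = 1 := fun n => by rw [norm_zpow, hw1, one_zpow]
  have hYT : ∀ m ∈ Y, ‖mon x' (T m).1‖ < 1 := by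
    intro m hmY
    have h2 := hY1 m hmY
    rw [hm m.1 m.2, norm_mul, hwz, mul_one] at h2
    exact h2
  obtain ⟨x'', hx'', hYM⟩ := TU.exists_Mt hx' (Y.image fun m => (T m).1) (by
    intro a' ha'
    obtain ⟨m, hmY, rfl⟩ := Finset.mem_image.1 ha'
    exact (hYT m hmY).le)
  -- the new ring
  obtain ⟨B'', hB''⟩ : ∃ B'' : Subring W, B'' = locV (ball W) (Subring.closure
    ((c.B : Set W) ∪ (Set.range x'' ∪ {w}))) := ⟨_, rfl⟩
  have hinv'' : ∀ z ∈ B'', ‖z‖ = 1 → z⁻¹ ∈ B'' := by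
    rw [hB'']
    intro z hz h2
    exact inv_mem_locV hz h2
  have hw'' : w ∈ B'' := by
    rw [hB'']
    exact subset_locV_closure (Or.inr (Or.inr rfl))
  have hwz'' : ∀ n : ℤ, w ^ n ∈ B'' := by
    intro n
    cases n with
    | ofNat n =>
      rw [Int.ofNat_eq_natCast, zpow_natCast]
      exact pow_mem hw'' n
    | negSucc n =>
      rw [zpow_negSucc]
      exact hinv'' _ (pow_mem hw'' _) (by rw [norm_pow, hw1, one_pow])
  have hx''m : ∀ i, x'' i ∈ B'' := fun i => by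
    rw [hB'']
    exact subset_locV_closure (Or.inr (Or.inl ⟨i, rfl⟩))
  have hcB'' : ∀ z ∈ c.B, z ∈ B'' := fun z hz => by
    rw [hB'']
    exact subset_locV_closure (Or.inl hz)
  have hnat'' : ∀ n : ℕ, (n : W) ∈ B'' := fun n => natCast_mem B'' n
  -- the residue of `w`
  have hint := res_alg hA hs.lam_le (F := kap c.B) rfl hw1.le
  set g : Polynomial (kap c.B) := minpoly (kap c.B) (rs w) with hgdef
  have gm : g.Monic := minpoly.monic hint
  have gi : Irreducible g := minpoly.irreducible hint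
  have gw : Polynomial.aeval (rs w) g = 0 := minpoly.aeval (kap c.B) (rs w)
  obtain ⟨τ, hτ⟩ := hgd.exists_sec (F := kap c.B) rfl
  obtain ⟨G, Gm, Gc, Gr, -, -⟩ := exists_lift hτ g gm
  have hyG : G.eval w ∈ B'' ∧ ‖G.eval w‖ < 1 := by
    refine ⟨?_, ?_⟩
    · rw [Polynomial.eval_eq_sum_range]
      exact sum_mem fun j _ => mul_mem (hcB'' _ (Gc j)) (pow_mem hw'' _)
    · have h2 := rs_eval hw1.le g G (fun j => hn _ (Gc j)) Gr
      rw [← rs_eq_zero_iff h2.1, h2.2, gw]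
  have hne : ∀ d : Fin r → ℕ, (∀ l, 1 ≤ d l) → d ≠ 0 := by
    intro d hd h0
    have h2 := hd ⟨0, hr⟩
    rw [h0, Pi.zero_apply] at h2
    omega
  have hJ : ∀ m ∈ Y, mon c.x m.1 * s ^ m.2 ∈ JI B'' x'' (G.eval w) := by
    intro m hmY
    obtain ⟨d, hd, hd1⟩ := hYM _ (Finset.mem_image_of_mem (fun m => (T m).1) hmY)
    rw [hm m.1 m.2, Prod.mk.eta, hd, mul_comm]
    exact JI_mul (hwz'' _) (JI_monN hx''m (hne d (hd1 (hYT m hmY))))
  have hJB : ∀ z ∈ JI B'' x'' (G.eval w), z ∈ B'' := fun z hz => JI_mem hx''m hyG.1 hz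
  have hθB : θ ∈ B'' := by
    rw [hθ]
    refine sum_mem fun k hk1 => ?_
    rw [hterm k hk1]
    exact mul_mem (hnat'' _) (mul_mem (hcB'' u hu) (hJB _ (hJ _ (hYk k hk1))))
  have hxJ : ∀ i, c.x i ∈ JI B'' x'' (G.eval w) := by
    intro i
    have h2 := hJ _ (hYi i)
    simp only [mon_single, zpow_zero, mul_one] at h2
    exact h2
  have hyJ : c.y ∈ JI B'' x'' (G.eval w) := by
    have hv0 : v ≠ 0 := by
      rintro rfl
      rw [norm_zero] at hv1
      exact zero_ne_one hv1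
    have h2 : c.y * v + mon c.x b * h ∈ JI B'' x'' (G.eval w) := by
      rw [← hQe, mul_comm]
      exact JI_mul (add_mem (one_mem _) hθB) (hJ _ hYa)
    have h3 : mon c.x b * h ∈ JI B'' x'' (G.eval w) := by
      have h4 := hJ _ hYb
      simp only [zpow_zero, mul_one] at h4
      rw [mul_comm]
      exact JI_mul (hcB'' h hh) h4
    have h5 := JI_mul (hcB'' _ (hs.inv hv hv1)) (JI_sub h2 h3)
    have h6 : v⁻¹ * (c.y * v + mon c.x b * h - mon c.x b * h) = c.y := by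
      rw [add_sub_cancel_right, mul_comm c.y v, ← mul_assoc, inv_mul_cancel₀ hv0, one_mul]
    rwa [h6] at h5
  -- membership in `S`
  have hSm : ∀ d : Fin r → ℤ, ∀ j : ℤ, mon c.x d * s ^ j ∈ S := fun d j =>
    mul_mem (hgd.monS d) (zpow_mem hsS _)
  have hwS : w ∈ S := by
    have h2 := hSm (-β) (e : ℤ)
    rw [zpow_natCast, mul_comm, ← hw] at h2
    exact h2
  have hx'e : ∀ d : Fin r → ℤ, mon x' d =
      mon c.x (T.symm (d, 0)).1 * s ^ (T.symm (d, 0)).2 := by
    intro d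
    rw [hm, Prod.mk.eta, T.apply_symm_apply, zpow_zero, mul_one]
  have hx''e : ∀ i, ∃ (d : Fin r → ℤ) (j : ℤ), x'' i = mon c.x d * s ^ j := by
    intro i
    obtain ⟨d, hd⟩ := hx''.mon_eq' hx' (Pi.single i 1)
    rw [mon_single] at hd
    exact ⟨_, _, hd.trans (hx'e d)⟩
  have hGs : Gs S (⟨B'', x'', G.eval w⟩ : Tri W r) := by
    refine good_ext hs hwS hw1.le g gm gi gw G Gm Gc Gr
      (Set.range x'') (Set.finite_range x'') ?_ x'' (G.eval w) hx''.ind hyG.2 B'' hB'' hx''m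
      hyG.1 hxJ hyJ ?_ JI_y
    · rintro _ ⟨i, rfl⟩
      obtain ⟨d, j, hd⟩ := hx''e i
      exact ⟨by rw [hd]; exact hSm d j, (hx''.ind.lt i).le⟩
    · rintro _ ⟨i, rfl⟩
      refine ⟨0, fun j => by rw [Polynomial.coeff_zero]; exact zero_mem _, ?_⟩
      rw [Polynomial.eval_zero, sub_zero]
      exact JI_x i
  refine ⟨_, hGs, ?_⟩
  -- the fields of fractions
  have hFr : Fr E (⟨B'', x'', G.eval w⟩ : Tri W r) =
      Fr E c ⊔ IntermediateField.adjoin E (Set.range x'' ∪ {w}) := by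
    change IntermediateField.adjoin E (B'' : Set W) = _
    rw [hB'']
    exact pend1_fr_locV c.B _
  rw [hFr]
  have hsM : ∀ d : Fin r → ℤ, ∀ j : ℤ,
      mon c.x d * s ^ j ∈ Fr E c ⊔ IntermediateField.adjoin E {s} := fun d j =>
    mul_mem ((le_sup_left : Fr E c ≤ Fr E c ⊔ IntermediateField.adjoin E {s})
      (mon_mem_Fr hgd d)) (zpow_mem ((le_sup_right : _ ≤ Fr E c ⊔
        IntermediateField.adjoin E {s}) (IntermediateField.mem_adjoin_simple_self E s)) j)
  apply le_antisymm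
  · refine sup_le le_sup_left ?_
    rw [IntermediateField.adjoin_le_iff]
    rintro z (⟨i, rfl⟩ | hz)
    · obtain ⟨d, j, hd⟩ := hx''e i
      rw [hd]
      exact hsM d j
    · rw [Set.mem_singleton_iff.1 hz]
      have h2 := hsM (-β) (e : ℤ)
      rw [zpow_natCast, mul_comm, ← hw] at h2
      exact h2
  · refine sup_le le_sup_left ?_
    rw [IntermediateField.adjoin_simple_le_iff]
    refine (le_sup_right : _ ≤ Fr E c ⊔ IntermediateField.adjoin E (Set.range x'' ∪ {w})) ?_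
    have h2 := hm 0 1
    rw [mon_zero, one_mul, zpow_one] at h2
    rw [h2]
    have hin : ∀ z ∈ (Set.range x'' ∪ {w} : Set W),
        z ∈ IntermediateField.adjoin E (Set.range x'' ∪ {w}) := fun z hz =>
      IntermediateField.subset_adjoin E _ hz
    refine mul_mem ?_ (zpow_mem (hin w (Or.inr rfl)) _)
    obtain ⟨d, hd⟩ := hx''.mon_eq (T (0, 1)).1
    rw [hd]
    unfold mon
    exact prod_mem fun i _ => zpow_mem (hin (x'' i) (Or.inl ⟨i, rfl⟩)) _

theorem p_end1 (hr : 0 < r) (hA : AmbX p r S) {L : IntermediateField E W} {c : Tri W r}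
    (hc : Ch S L c) {ζ t g : W} (hζ : IsPrimitiveRoot ζ p) (hp : MoH c (p : W))
    (ht : t ^ p = 1 + g) (hg1 : ‖g‖ < 1) (hg : ‖ζ - 1‖ ^ p < ‖g‖) {a0 : Fin r → ℤ}
    (hl : Ld c g a0 1) : HasCh S r (L ⊔ IntermediateField.adjoin E {t}) := by
  classical
  obtain ⟨c0, u, huO, hu1, hpe⟩ := hp
  obtain ⟨v, hvO, hv1, q, ⟨b, hb, h, hhO, hq⟩, hge⟩ := hl
  obtain ⟨-, hs1, -, hk, hse⟩ := p_exp hA.prime hA.p1 hζ ht hg1 hg
  set s : W := t - 1 with hs
  have hs0 : s ≠ 0 := by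
    rw [← norm_pos_iff]
    exact (norm_nonneg _).trans_lt hs1
  have hgd := hc.gd
  have hgS : g ∈ S := by
    rw [hge]
    refine mul_mem (hgd.monS a0) (add_mem (mul_mem (pow_mem (hgd.mem_S hgd.yB) 1)
      (HO_mem_S hgd hvO)) ?_)
    rw [hq]
    exact mul_mem (hgd.monS b) (HO_mem_S hgd hhO)
  have htS : t ∈ S := by
    refine hA.alg t (IsAlgebraic.of_pow hA.prime.pos ?_)
    rw [ht]
    exact isAlgebraic_algebraMap (⟨1 + g, add_mem (one_mem S) hgS⟩ : S)
  have hsS : s ∈ S := sub_mem htS (one_mem S)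
  obtain ⟨x1, hx1, hg1', hZ, -⟩ := exists_model hgd {v, h, u} (fun z hz => by
    rw [Finset.mem_insert, Finset.mem_insert, Finset.mem_singleton] at hz
    rcases hz with rfl | rfl | rfl
    · exact hvO
    · exact hhO
    · exact huO) ∅ (fun a ha => absurd ha (Finset.notMem_empty a))
  obtain ⟨a0', ha0'⟩ := hx1.mon_eq a0
  obtain ⟨b', hb'⟩ := hx1.mon_eq b
  obtain ⟨c0', hc0'⟩ := hx1.mon_eq c0
  obtain ⟨c', hc', hF⟩ := pend1_aux (s := s) (v := v) (h := h) (u := u) (a := a0') (b := b')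
    (c0 := c0') hr hA hg1' hs0 hsS (hZ v (by simp)) hv1 (hZ h (by simp)) (hZ u (by simp)) hu1
    (by
      change ‖mon x1 b'‖ < 1
      rw [← hb']; exact hb) (by
      change (p : W) = mon x1 c0' * u
      rw [← hc0']; exact hpe) hk (by
      change _ = mon x1 a0' * (c.y * v + mon x1 b' * h)
      rw [hse, ← ha0', ← hb', hge, hq, pow_one])
  have hF2 : Fr E c' = Fr E c ⊔ IntermediateField.adjoin E {t} := by
    rw [hF, pend1_fr_bx hgd hx1]
    apply le_antisymm
    · refine sup_le le_sup_left ?_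
      rw [IntermediateField.adjoin_simple_le_iff]
      exact sub_mem ((le_sup_right : _ ≤ Fr E c ⊔ IntermediateField.adjoin E {t})
        (IntermediateField.mem_adjoin_simple_self E t)) (one_mem _)
    · refine sup_le le_sup_left ?_
      rw [IntermediateField.adjoin_simple_le_iff]
      have h2 : t = s + 1 := by rw [hs]; ring
      rw [h2]
      exact add_mem ((le_sup_right : _ ≤ Fr E c ⊔ IntermediateField.adjoin E {s})
        (IntermediateField.mem_adjoin_simple_self E s)) (one_mem _)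
  exact ⟨c', ext_dense hc hc'.gd {t} hF2⟩

end Pool.Agent.Lib.MX
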