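import Pool.Agent.Lib.MX.PAS

set_option autoImplicit false

/-!
# Module MX.PRed: reductions of the `p`-step (paper 5.0)

`p_res`: the residue of the unit `f` is no `p`-th power: after a basis change `c` is strictly good, `f ∈ c.B` (`exists_model`), `kap` does not change (`kap_Bx`).  `g := X^p - C (rs f)` over `κ := kap c.B` is irreducible
(`X_pow_sub_C_irreducible_of_prime`), `good_ext` with `w := t`, `G := X^p - C f`, `G(t) = 0`, `Z := ∅`, `x' := c.x`, `y' := c.y`; `t ∈ S` (`hA.alg`); `ext_dense`.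
`p_red`: `t = 0` is trivial.  `f := t^p`.  `f' ∈ Fr E c`, `‖f - f'‖ < ‖lam‖^p ‖f‖` (`Ch.approx`), `p_hensel`: replace `t` by `t / (1 + lam u)` (the field `L ⊔ E(t)` does not change): `f ∈ Fr E c`.
`m_all` with `Z := {f, p, lam}` (all in `S ∩ L`): chart `c1` of `L`, `f = mon c1.x b * u`, `u ∈ HO c1`, `‖u‖ = 1`.  `b ∉ p ℤ^r`: `kum_ram` (KumX.lean; if it is missing there copy the argument).  `b = p • b'`: replace `t` by `t * mon c1.x (-b')`:
`f = u`.  If `rs u` is not `rs b ^ p` with `b ∈ c1.B`: `p_res`.  Otherwise `rs u = rs b ^ p`, `‖b‖ = 1`, replace `t` by `t / b`: `f = u / b^p`, `‖f - 1‖ < 1`, `f ∈ HO c1` (`b⁻¹ ∈ c1.B`), `g := f - 1 ∈ HO c1 ≤ Fr E c1`.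
`‖g‖ ≤ ‖lam‖^p`: `p_as`.  Otherwise the hypothesis `h1`.
-/

namespace Pool.Agent.Lib.MX

open Pool.Agent.Lib.MP_3029eb_ag Pool.Agent.Lib.MP_3029eb_ag.Abh Pool.Agent.Lib.TDO
open Pool.Agent.Lib.TU (Mt)

variable {E W : Type} [Field E] [NormedField W] [IsUltrametricDist W] [Algebra E W] {p r : ℕ}
  {S : IntermediateField E W}

private theorem PRed_fr_locV (B : Subring W) (X : Set W) :
    IntermediateField.adjoin E
        ((locV (ball W) (Subring.closure ((B : Set W) ∪ X)) : Subring W) : Set W) =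
      IntermediateField.adjoin E (B : Set W) ⊔ IntermediateField.adjoin E X := by
  set M : IntermediateField E W :=
    IntermediateField.adjoin E (B : Set W) ⊔ IntermediateField.adjoin E X with hM
  have hBM : ∀ z ∈ B, z ∈ M := fun z hz =>
    (le_sup_left : _ ≤ M) (IntermediateField.subset_adjoin E _ hz)
  have hXM : ∀ z ∈ X, z ∈ M := fun z hz =>
    (le_sup_right : _ ≤ M) (IntermediateField.subset_adjoin E _ hz)
  have hcl : Subring.closure ((B : Set W) ∪ X) ≤ M.toSubfield.toSubring := by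
    rw [Subring.closure_le]
    rintro z (hz | hz)
    · exact hBM z hz
    · exact hXM z hz
  apply le_antisymm
  · rw [IntermediateField.adjoin_le_iff]
    intro z hz
    obtain ⟨a, ha, b, hb, hb1, h⟩ := mem_locB.1 hz
    have hb0 : b ≠ 0 := by
      rintro rfl
      rw [norm_zero] at hb1
      exact zero_ne_one hb1
    have h2 : z = a / b := by rw [← h, mul_div_cancel_right₀ _ hb0]
    rw [h2]
    exact div_mem (hcl ha) (hcl hb)
  · refine sup_le (IntermediateField.adjoin.mono E _ _ fun z hz => ?_)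
      (IntermediateField.adjoin.mono E _ _ fun z hz => ?_)
    · exact le_locV _ _ (Subring.subset_closure (Or.inl hz))
    · exact le_locV _ _ (Subring.subset_closure (Or.inr hz))

omit [IsUltrametricDist W] in
private theorem PRed_sup_eq (L : IntermediateField E W) {w t : W} (ht : t ∈ L) (ht0 : t ≠ 0) :
    L ⊔ IntermediateField.adjoin E {w / t} = L ⊔ IntermediateField.adjoin E {w} := by
  apply le_antisymm
  · refine sup_le le_sup_left ?_
    rw [IntermediateField.adjoin_simple_le_iff]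
    exact div_mem ((le_sup_right : _ ≤ L ⊔ IntermediateField.adjoin E {w})
      (IntermediateField.mem_adjoin_simple_self E w))
      ((le_sup_left : L ≤ L ⊔ IntermediateField.adjoin E {w}) ht)
  · refine sup_le le_sup_left ?_
    rw [IntermediateField.adjoin_simple_le_iff]
    have h1 : w = (w / t) * t := by field_simp
    have h2 : (w / t) * t ∈ L ⊔ IntermediateField.adjoin E {w / t} :=
      mul_mem ((le_sup_right : _ ≤ L ⊔ IntermediateField.adjoin E {w / t})
        (IntermediateField.mem_adjoin_simple_self E _))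
        ((le_sup_left : L ≤ L ⊔ IntermediateField.adjoin E {w / t}) ht)
    rwa [← h1] at h2

private theorem PRed_fr_bx {c : Tri W r} (hc : Gd S c) {x' : Fin r → W} (hx : Mt c.x x') :
    Fr E (⟨Bx c.B x', x', c.y⟩ : Tri W r) = Fr E c := by
  apply le_antisymm
  · change IntermediateField.adjoin E ((Bx c.B x' : Subring W) : Set W) ≤ _
    rw [IntermediateField.adjoin_le_iff]
    intro z hz
    exact HO_mem_Fr hc (Bx_mem_HO hc hx hz)
  · change IntermediateField.adjoin E (c.B : Set W) ≤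
      IntermediateField.adjoin E ((Bx c.B x' : Subring W) : Set W)
    exact IntermediateField.adjoin.mono E _ _ fun z hz => le_Bx hz

private theorem PRed_fr_S {c : Tri W r} (hc : Gd S c) {z : W} (hz : z ∈ Fr E c) : z ∈ S := by
  obtain ⟨a, ha, b, hb, hb0, h⟩ := (mem_Fr_iff hc z).1 hz
  have h2 : z = a / b := by rw [← h, mul_div_cancel_right₀ _ hb0]
  rw [h2]
  exact div_mem (hc.mem_S ha) (hc.mem_S hb)

private theorem PRed_bx {L : IntermediateField E W} {c : Tri W r} (hC : Ch S L c)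
    {x' : Fin r → W} (hx' : Mt c.x x') (hs : Gs S (⟨Bx c.B x', x', c.y⟩ : Tri W r)) :
    Ch S L (⟨Bx c.B x', x', c.y⟩ : Tri W r) := by
  refine ⟨hs.gd, ?_, ?_⟩
  · rw [PRed_fr_bx hC.gd hx']
    exact hC.le
  · intro z hz
    rw [PRed_fr_bx hC.gd hx']
    exact hC.dense z hz

/-- the ramified case -/
private theorem PRed_ram {L : IntermediateField E W} {c : Tri W r}
    (hC : Ch S L c) (hs : Gs S c) {l : ℕ} (hl : l.Prime) {w1 : W}
    (hw0 : w1 ≠ 0) (hwS : w1 ∈ S) {b : Fin r → ℤ} {u : W} (hu : u ∈ c.B) (hu' : u⁻¹ ∈ c.B)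
    (hu1 : ‖u‖ = 1) (hw : w1 ^ l = mon c.x b * u) (hb2 : ∀ b' : Fin r → ℤ, b ≠ l • b') :
    HasCh S r (L ⊔ IntermediateField.adjoin E {w1}) := by
  have hok := hC.gd
  have hind := hok.ind
  have hmb0 : ∀ a, mon c.x a ≠ 0 := fun a => mon_ne c.x hind.ne a
  have hmS : ∀ a, mon c.x a ∈ S := fun a => hok.monS a
  have htb : ‖w1‖ ^ l = ‖mon c.x b‖ := by rw [← norm_pow, hw, norm_mul, hu1, mul_one]
  have hη : w1 ^ l * mon c.x (-b) = u := by
    rw [hw, mon_neg, mul_comm (mon c.x b) u, mul_assoc, mul_inv_cancel₀ (hmb0 b), mul_one]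
  obtain ⟨x', hx', h1, -, ⟨α0, n0, h2⟩, h3⟩ := um_perron hind hw0 hl hb2 htb ∅
    (fun a ha => absurd ha (Finset.notMem_empty a))
  rw [hη] at h1 h2
  have hzp : ∀ n : ℤ, u ^ n ∈ c.B := by
    intro n
    obtain ⟨m, rfl | rfl⟩ := n.eq_nat_or_neg
    · rw [zpow_natCast]
      exact pow_mem hu m
    · rw [zpow_neg, zpow_natCast, ← inv_pow]
      exact pow_mem hu' m
  have hx'S : ∀ i, x' i ∈ S := by
    intro i
    obtain ⟨a, j, h⟩ := h3 i
    rw [h]
    exact mul_mem (hmS a) (zpow_mem hwS j)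
  have hg : Gs S (⟨Bx c.B x', x', c.y⟩ : Tri W r) := by
    refine good_ram hs x' hx' hx'S fun i => ?_
    obtain ⟨α, n, hα, h⟩ := h1 i
    exact ⟨α, u ^ n, hα, hzp n, by rw [norm_zpow, hu1, one_zpow], h⟩
  have hFr : Fr E (⟨Bx c.B x', x', c.y⟩ : Tri W r) =
      Fr E c ⊔ IntermediateField.adjoin E {w1} := by
    have h4 : Fr E (⟨Bx c.B x', x', c.y⟩ : Tri W r) =
        Fr E c ⊔ IntermediateField.adjoin E (Set.range x') := PRed_fr_locV c.B (Set.range x')
    rw [h4]
    apply le_antisymm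
    · refine sup_le le_sup_left ?_
      rw [IntermediateField.adjoin_le_iff]
      rintro _ ⟨i, rfl⟩
      obtain ⟨a, j, h⟩ := h3 i
      rw [h]
      exact mul_mem ((le_sup_left : Fr E c ≤ Fr E c ⊔ IntermediateField.adjoin E {w1})
        (mon_mem_Fr hok a)) (zpow_mem ((le_sup_right : _ ≤ Fr E c ⊔
          IntermediateField.adjoin E {w1}) (IntermediateField.mem_adjoin_simple_self E w1)) j)
    · refine sup_le le_sup_left ?_
      rw [IntermediateField.adjoin_simple_le_iff, h2]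
      refine mul_mem ?_ (zpow_mem ((le_sup_left : Fr E c ≤ Fr E c ⊔
        IntermediateField.adjoin E (Set.range x')) (B_le_Fr hu)) n0)
      refine (le_sup_right : _ ≤ Fr E c ⊔ IntermediateField.adjoin E (Set.range x')) ?_
      refine (IntermediateField.adjoin E (Set.range x')).prod_mem fun j _ => zpow_mem ?_ _
      exact IntermediateField.subset_adjoin E (Set.range x') ⟨j, rfl⟩
  exact ⟨_, ext_dense hC hg.gd {w1} hFr⟩

/-- Basis changes do not change the residue field. -/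
private theorem PRed_kap {c : Tri W r} (hc : Gd S c) {x1 : Fin r → W} (h1 : Mt c.x x1)
    (hs : Gs S (⟨Bx c.B x1, x1, c.y⟩ : Tri W r)) : kap (Bx c.B x1) = kap c.B := by
  apply le_antisymm
  · intro a ha
    obtain ⟨z, hz, rfl⟩ := (MX.mem_kap_iff (fun z hz => (hs.le z hz).2)
      (fun z hz h => hs.inv hz h) a).1 ha
    obtain ⟨e, he, h2⟩ := hc.dec h1 hs hz
    have h3 : rs z = rs e := (rs_eq_iff (hs.le z hz).2 (hc.norm_le he)).2
      (JI_lt (fun w hw => (hs.le w hw).2) h1.ind.lt hc.y1 h2)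
    rw [h3]
    exact rs_mem_kap he
  · exact kap_mono le_Bx

omit [IsUltrametricDist W] in
private theorem PRed_norm {p : ℕ} (hp : p ≠ 0) {t f : W} (hf1 : ‖f‖ = 1) (ht : t ^ p = f) :
    ‖t‖ = 1 := by
  have h1 : ‖t‖ ^ p = 1 := by rw [← norm_pow, ht, hf1]
  exact (pow_eq_one_iff_of_nonneg (norm_nonneg t) hp).1 h1

private theorem PRed_S (hA : AmbX p r S) {t f : W} (hf : f ∈ S) (ht : t ^ p = f) : t ∈ S := by
  refine hA.alg t (IsAlgebraic.of_pow hA.prime.pos ?_)
  rw [ht]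
  exact isAlgebraic_algebraMap (⟨f, hf⟩ : S)

theorem p_res (hr : 0 < r) (hA : AmbX p r S) {L : IntermediateField E W} {c : Tri W r}
    (hc : Ch S L c) {f t : W} (hf : f ∈ HO c) (hf1 : ‖f‖ = 1)
    (hres : ∀ b ∈ c.B, rs f ≠ rs b ^ p) (ht : t ^ p = f) :
    HasCh S r (L ⊔ IntermediateField.adjoin E {t}) := by
  classical
  obtain ⟨x', hx', hs, hZ, -⟩ := exists_model hc.gd {f} (fun z hz => by
    rw [Finset.mem_singleton.1 hz]; exact hf) ∅ (fun a ha => absurd ha (Finset.notMem_empty a))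
  have hfB : f ∈ Bx c.B x' := hZ f (Finset.mem_singleton_self f)
  have hkap := PRed_kap hc.gd hx' hs
  have hC1 := PRed_bx hc hx' hs
  have hFr1 := PRed_fr_bx hc.gd hx'
  set c1 : Tri W r := ⟨Bx c.B x', x', c.y⟩ with hc1
  have hB1 : c1.B = Bx c.B x' := rfl
  have ht1 : ‖t‖ = 1 := PRed_norm hA.prime.ne_zero hf1 ht
  have htS : t ∈ S := PRed_S hA (HO_mem_S hc.gd hf) ht
  have hfk : rs f ∈ kap c1.B := rs_mem_kap hfB
  set g : Polynomial (kap c1.B) := Polynomial.X ^ p - Polynomial.C ⟨rs f, hfk⟩ with hg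
  have hgi : Irreducible g := by
    refine X_pow_sub_C_irreducible_of_prime hA.prime ?_
    rintro ⟨b, hb⟩ hbf
    have h1 : b ^ p = rs f := congrArg Subtype.val hbf
    rw [hB1, hkap] at hb
    obtain ⟨e, he, rfl⟩ := (MX.mem_kap_iff (fun _ hz => hc.gd.norm_le hz)
      (fun _ hz h1 => hc.gd.inv hz h1) b).1 hb
    exact hres e he h1.symm
  have hgm : g.Monic := Polynomial.monic_X_pow_sub_C _ hA.prime.ne_zero
  have hGm : (Polynomial.X ^ p - Polynomial.C f : Polynomial W).Monic :=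
    Polynomial.monic_X_pow_sub_C _ hA.prime.ne_zero
  have hgw : Polynomial.aeval (rs t) g = 0 := by
    rw [hg, map_sub, map_pow, Polynomial.aeval_X, Polynomial.aeval_C]
    have h1 : algebraMap (kap c1.B) (RW W) ⟨rs f, hfk⟩ = rs f := rfl
    rw [h1, ← rs_pow ht1.le, ht, sub_self]
  have hG0 : (Polynomial.X ^ p - Polynomial.C f : Polynomial W).eval t = 0 := by
    rw [Polynomial.eval_sub, Polynomial.eval_pow, Polynomial.eval_X, Polynomial.eval_C, ht,
      sub_self]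
  set B' : Subring W := locV (ball W) (Subring.closure ((c1.B : Set W) ∪ {t})) with hB'
  have hcB' : c1.B ≤ B' := fun b hb => subset_locV_closure (Or.inl hb)
  have hgood : Gs S (⟨B', c1.x, c1.y⟩ : Tri W r) := by
    refine good_ext hs htS ht1.le g hgm hgi hgw (Polynomial.X ^ p - Polynomial.C f) hGm
      (fun j => ?_) (fun j => ?_) ∅ Set.finite_empty (fun z hz => absurd hz (Set.notMem_empty z))
      c1.x c1.y hs.ind hs.y1 B' ?_ (fun i => hcB' (hs.xB i)) (hcB' hs.yB) (fun i => JI_x i) JI_y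
      (fun z hz => absurd hz (Set.notMem_empty z)) ?_
    · rw [Polynomial.coeff_sub, Polynomial.coeff_X_pow, Polynomial.coeff_C]
      refine sub_mem ?_ ?_
      · split_ifs
        · exact one_mem _
        · exact zero_mem _
      · split_ifs
        · exact hfB
        · exact zero_mem _
    · rw [hg, Polynomial.coeff_sub, Polynomial.coeff_sub, Polynomial.coeff_X_pow,
        Polynomial.coeff_X_pow, Polynomial.coeff_C, Polynomial.coeff_C]
      have e1 : ‖(if j = p then (1 : W) else 0)‖ ≤ 1 := by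
        split_ifs
        · rw [norm_one]
        · rw [norm_zero]; exact zero_le_one
      have e2 : ‖(if j = 0 then f else 0)‖ ≤ 1 := by
        split_ifs
        · exact hf1.le
        · rw [norm_zero]; exact zero_le_one
      rw [rs_sub e1 e2]
      have e3 : rs (if j = p then (1 : W) else 0) =
          (((if j = p then 1 else 0 : kap c1.B)) : RW W) := by
        split_ifs
        · exact rs_one
        · exact rs_zero
      have e4 : rs (if j = 0 then f else 0) =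
          (((if j = 0 then ⟨rs f, hfk⟩ else 0 : kap c1.B)) : RW W) := by
        split_ifs
        · rfl
        · exact rs_zero
      rw [e3, e4]
      rfl
    · rw [hB', Set.empty_union]
    · rw [hG0]
      exact JI_zero
  have hFr : Fr E (⟨B', c1.x, c1.y⟩ : Tri W r) = Fr E c1 ⊔ IntermediateField.adjoin E {t} :=
    PRed_fr_locV c1.B {t}
  exact ⟨_, ext_dense hC1 hgood.gd {t} hFr⟩

/-- the case `t ^ p = mon c.x b * u` -/
private theorem PRed_fin (hr : 0 < r) (hA : AmbX p r S) {L : IntermediateField E W}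
    (hL : IsComplete (L : Set W)) (h : HasCh S r L) {ζ : W} (hζL : ζ ∈ L)
    (hζ : IsPrimitiveRoot ζ p)
    (h1 : ∀ (c : Tri W r) (g t : W), Ch S L c → MoH c (p : W) → MoH c (ζ - 1) → g ∈ HO c →
      ‖ζ - 1‖ ^ p < ‖g‖ → ‖g‖ < 1 → t ^ p = 1 + g →
        HasCh S r (L ⊔ IntermediateField.adjoin E {t})) {c : Tri W r} (hC : Ch S L c)
    (hMp : MoH c (p : W)) (hMl : MoH c (ζ - 1)) {u t : W} (hu : u ∈ HO c) (hu1 : ‖u‖ = 1)
    (ht : t ^ p = u) : HasCh S r (L ⊔ IntermediateField.adjoin E {t}) := by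
  by_cases hres : ∀ b ∈ c.B, rs u ≠ rs b ^ p
  · exact p_res hr hA hC hu hu1 hres ht
  push Not at hres
  obtain ⟨b, hb, hub⟩ := hres
  have hbn : ‖b‖ ≤ 1 := hC.gd.norm_le hb
  have hb1 : ‖b‖ = 1 := by
    rw [← rs_ne_zero_iff hbn]
    intro h0
    rw [h0, zero_pow hA.prime.ne_zero] at hub
    exact (rs_ne_zero_iff hu1.le).2 hu1 hub
  have hb0 : b ≠ 0 := norm_pos_iff.1 (by rw [hb1]; exact one_pos)
  have hbH : b ∈ HO c := B_mem_HO hC.gd hb
  have hbL : b ∈ L := hC.le (B_le_Fr hb)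
  have hbi : b⁻¹ ∈ HO c := inv_mem_HO hC.gd hbH hb1
  set f3 : W := u * b⁻¹ ^ p with hf3
  have ht3 : (t / b) ^ p = f3 := by
    rw [div_pow, ht, hf3, inv_pow, div_eq_mul_inv]
  have hf3H : f3 ∈ HO c := mul_mem hu (pow_mem hbi p)
  have hf3n : ‖f3‖ = 1 := by
    rw [hf3, norm_mul, norm_pow, norm_inv, hb1, hu1, inv_one, one_pow, one_mul]
  have hf3L : f3 ∈ L := hC.le (HO_mem_Fr hC.gd hf3H)
  have hrs3 : rs f3 = rs (1 : W) := by
    have e1 : ‖b⁻¹‖ ≤ 1 := by rw [norm_inv, hb1, inv_one]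
    have e2 : rs b ≠ 0 := (rs_ne_zero_iff hbn).2 hb1
    rw [hf3, rs_mul hu1.le (by rw [norm_pow]; exact pow_le_one₀ (norm_nonneg _) e1),
      rs_pow e1, hub, rs_inv hb1, ← mul_pow, mul_inv_cancel₀ e2, one_pow, rs_one]
  have hg3 : ‖f3 - 1‖ < 1 := (rs_eq_iff hf3n.le (by rw [norm_one])).1 hrs3
  rw [← PRed_sup_eq L (w := t) hbL hb0]
  by_cases hlt : ‖ζ - 1‖ ^ p < ‖f3 - 1‖
  · exact h1 c (f3 - 1) (t / b) hC hMp hMl (sub_mem hf3H (one_mem _)) hlt hg3
      (by rw [ht3]; ring)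
  · rw [not_lt] at hlt
    refine p_as hr hA hL h hζL hζ ?_ ?_
    · rw [ht3]; exact hf3L
    · rw [ht3]; exact hlt

theorem p_red (hr : 0 < r) (hA : AmbX p r S) {L : IntermediateField E W}
    (hL : IsComplete (L : Set W)) (h : HasCh S r L) {ζ : W} (hζL : ζ ∈ L)
    (hζ : IsPrimitiveRoot ζ p)
    (h1 : ∀ (c : Tri W r) (g t : W), Ch S L c → MoH c (p : W) → MoH c (ζ - 1) → g ∈ HO c →
      ‖ζ - 1‖ ^ p < ‖g‖ → ‖g‖ < 1 → t ^ p = 1 + g →
        HasCh S r (L ⊔ IntermediateField.adjoin E {t})) {t : W} (ht : t ^ p ∈ L) :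
    HasCh S r (L ⊔ IntermediateField.adjoin E {t}) := by
  classical
  by_cases ht0 : t = 0
  · have h2 : L ⊔ IntermediateField.adjoin E {t} = L := by
      rw [ht0, IntermediateField.adjoin_zero, sup_bot_eq]
    rw [h2]; exact h
  obtain ⟨c₁, hC₁⟩ := id h
  have hp := hA.prime
  have hchar := hA.char0
  have hp0 : (p : W) ≠ 0 := Nat.cast_ne_zero.2 hp.ne_zero
  have hlp := lam_pow hp hA.p1 hζ
  have hl0 : ζ - 1 ≠ 0 := by
    intro h0
    rw [h0, norm_zero, zero_pow (by have := hp.two_le; omega)] at hlp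
    exact (norm_pos_iff.2 hp0).ne hlp
  have hln : 0 < ‖ζ - 1‖ := norm_pos_iff.2 hl0
  have hl1 : ‖ζ - 1‖ < 1 := by
    by_contra hcon
    rw [not_lt] at hcon
    have h2 : 1 ≤ ‖ζ - 1‖ ^ (p - 1) := one_le_pow₀ hcon
    rw [hlp] at h2
    exact absurd hA.p1 (not_lt.2 h2)
  have hlpn : 0 < ‖ζ - 1‖ ^ p := pow_pos hln p
  have hlp1 : ‖ζ - 1‖ ^ p < 1 := pow_lt_one₀ (norm_nonneg _) hl1 hp.ne_zero
  set f : W := t ^ p with hf
  have hf0 : f ≠ 0 := pow_ne_zero p ht0
  have hfn : 0 < ‖f‖ := norm_pos_iff.2 hf0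
  obtain ⟨g, hg, hgf⟩ := hC₁.approx ht (mul_pos hlpn hfn)
  have hgf' : ‖f - g‖ < ‖f‖ := by
    refine hgf.trans ?_
    calc ‖ζ - 1‖ ^ p * ‖f‖ < 1 * ‖f‖ := mul_lt_mul_of_pos_right hlp1 hfn
      _ = ‖f‖ := one_mul _
  have hgn : ‖g‖ = ‖f‖ := by
    have h2 : g = f + -(f - g) := by ring
    rw [h2, IsUltrametricDist.norm_add_eq_max_of_norm_ne_norm (by rw [norm_neg]; exact hgf'.ne'),
      norm_neg]
    exact max_eq_left hgf'.le
  have hg0 : g ≠ 0 := by
    intro h0
    rw [h0, norm_zero] at hgn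
    linarith
  have hgL : g ∈ L := hC₁.le hg
  have hgS : g ∈ S := PRed_fr_S hC₁.gd hg
  have hδL : f / g - 1 ∈ L := sub_mem (div_mem ht hgL) (one_mem L)
  have hδn : ‖f / g - 1‖ < ‖ζ - 1‖ ^ p := by
    have h2 : f / g - 1 = (f - g) / g := by field_simp
    rw [h2, norm_div, hgn, div_lt_iff₀ hfn]
    exact hgf
  obtain ⟨v, hvL, hv1, hv⟩ := p_hensel hp hA.p1 hL hζL hζ hδL hδn
  set τ : W := 1 + (ζ - 1) * v with hτ
  have hτp : τ ^ p = f / g := by rw [hv]; ring
  have hτL : τ ∈ L := add_mem (one_mem L) (mul_mem (sub_mem hζL (one_mem L)) hvL)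
  have hτ0 : τ ≠ 0 := by
    intro h0
    rw [h0, zero_pow hp.ne_zero] at hτp
    exact div_ne_zero hf0 hg0 hτp.symm
  set t1 : W := t / τ with ht1
  have ht1p : t1 ^ p = g := by
    rw [ht1, div_pow, hτp, ← hf]
    field_simp
  have ht10 : t1 ≠ 0 := div_ne_zero ht0 hτ0
  rw [← PRed_sup_eq L (w := t) hτL hτ0, ← ht1]
  have ht1S : t1 ∈ S := PRed_S hA hgS ht1p
  have hζS : ζ ∈ S := PRed_S hA (one_mem S) hζ.pow_eq_one
  have hpS : (p : W) ∈ S := natCast_mem S p
  have hpL : (p : W) ∈ L := natCast_mem L p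
  obtain ⟨c, hC, -, hM⟩ := m_all hA hC₁ {g, (p : W), ζ - 1} (fun z hz => by
    rw [Finset.mem_insert, Finset.mem_insert, Finset.mem_singleton] at hz
    rcases hz with rfl | rfl | rfl
    · exact ⟨hgS, hgL, hg0⟩
    · exact ⟨hpS, hpL, hp0⟩
    · exact ⟨sub_mem hζS (one_mem S), sub_mem hζL (one_mem L), hl0⟩)
  have hMp : MoH c (p : W) := hM _ (by simp)
  have hMl : MoH c (ζ - 1) := hM _ (by simp)
  obtain ⟨b, u, huO, hu1, hgb⟩ := hM g (by simp)
  by_cases hb : ∃ b' : Fin r → ℤ, b = p • b'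
  · obtain ⟨b', hb'⟩ := hb
    have hm0 : mon c.x b' ≠ 0 := mon_ne c.x hC.gd.ind.ne b'
    have hmL : mon c.x b' ∈ L := hC.le (mon_mem_Fr hC.gd b')
    rw [← PRed_sup_eq L (w := t1) hmL hm0]
    refine PRed_fin hr hA hL h hζL hζ h1 hC hMp hMl huO hu1 ?_
    rw [div_pow, ht1p, hgb, hb', mon_nsmul, mul_comm, mul_div_assoc,
      div_self (pow_ne_zero p hm0), mul_one]
  · have hb2 : ∀ b' : Fin r → ℤ, b ≠ p • b' := fun b' h => hb ⟨b', h⟩
    obtain ⟨x', hx', hs, hZ, -⟩ := exists_model hC.gd {u, u⁻¹} (fun z hz => by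
      rw [Finset.mem_insert, Finset.mem_singleton] at hz
      rcases hz with rfl | rfl
      · exact huO
      · exact inv_mem_HO hC.gd huO hu1) ∅ (fun a ha => absurd ha (Finset.notMem_empty a))
    obtain ⟨b1, hb1⟩ := hx'.mon_eq b
    refine PRed_ram (PRed_bx hC hx' hs) hs hp ht10 ht1S (b := b1) (u := u) (hZ u (by simp))
      (hZ u⁻¹ (by simp)) hu1 ?_ ?_
    · rw [ht1p, hgb, hb1]
    · intro b' hbb
      obtain ⟨b'', hb''⟩ := hx'.mon_eq' hC.gd.ind b'
      have h2 : mon c.x b = mon c.x (p • b'') := by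
        rw [hb1, hbb]
        have e1 : mon (⟨Bx c.B x', x', c.y⟩ : Tri W r).x (p • b') = mon x' b' ^ p :=
          mon_nsmul _ _ _
        have e2 : mon c.x (p • b'') = mon c.x b'' ^ p := mon_nsmul _ _ _
        rw [e2, ← hb'']
        exact e1
      exact hb2 b'' (norm_mon_inj hC.gd.ind (congrArg norm h2))

end Pool.Agent.Lib.MX
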