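import Pool.Agent.Lib.MX.RunC
import Pool.Agent.Lib.MX.PRed
import Pool.Agent.Lib.MX.PEnd0
import Pool.Agent.Lib.MX.PEnd1

set_option autoImplicit false

/-!
# Module MX.PStep: the step of degree `p` (paper section 5)
-/

namespace Pool.Agent.Lib.MX

open Pool.Agent.Lib.MP_3029eb_ag Pool.Agent.Lib.MP_3029eb_ag.Abh Pool.Agent.Lib.TDO

variable {E W : Type} [Field E] [NormedField W] [IsUltrametricDist W] [Algebra E W] {p r : ℕ}
  {S : IntermediateField E W}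

/-- `ζ - 1` satisfies `LamP`. -/
private theorem pstep_lam (hr : 0 < r) (hA : AmbX p r S) {c : Tri W r} (hc : Gd S c) {ζ : W}
    (hζ : IsPrimitiveRoot ζ p) (h1 : MoH c (p : W)) (h2 : MoH c (ζ - 1)) :
    LamP p c (ζ - 1) := by
  have hp := hA.prime
  have hpow := lam_pow hp hA.p1 hζ
  have hne : ζ - 1 ≠ 0 := h2.ne hc
  have hlt : ‖ζ - 1‖ < 1 := by
    by_contra hcon
    rw [not_lt] at hcon
    have h3 : 1 ≤ ‖ζ - 1‖ ^ (p - 1) := one_le_pow₀ hcon
    rw [hpow] at h3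
    exact absurd hA.p1 (not_lt.2 h3)
  have hu := lam_unit hp hA.p1 hζ
  have hmo : MoH c ((p : W) / (ζ - 1) ^ (p - 1)) := by
    rw [div_eq_mul_inv]
    have h3 : MoH c ((ζ - 1) ^ (p - 1)) := by
      generalize p - 1 = n
      induction n with
      | zero =>
        rw [pow_zero]
        exact ⟨0, 1, one_mem _, norm_one, by rw [mon_zero, one_mul]⟩
      | succ n ih =>
        rw [pow_succ]
        exact ih.mul hc h2
    exact h1.mul hc (h3.inv hc)
  have hn : ‖(p : W) / (ζ - 1) ^ (p - 1)‖ = 1 := by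
    rw [norm_div, norm_pow, hpow]
    exact div_self (norm_ne_zero_iff.2 (h1.ne hc))
  have hmem : (p : W) / (ζ - 1) ^ (p - 1) ∈ HO c := by
    have h4 := hmo.mem_HL hc
    rw [← Gn_le_one_iff hr hA hc h4, Gn_moH hr hA hc hmo, hn]
  exact ⟨hne, hlt, h2, _, hmem, hu, by rw [div_mul_cancel₀ _ (pow_ne_zero _ hne)]⟩

/-- Replacing `t` by `t u` with a unit `u` of `L`. -/
private theorem pstep_fld {L : IntermediateField E W} {t u : W} (hu : u ∈ L) (hu0 : u ≠ 0) :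
    L ⊔ IntermediateField.adjoin E {t * u} = L ⊔ IntermediateField.adjoin E {t} := by
  apply le_antisymm
  · refine sup_le le_sup_left ?_
    rw [IntermediateField.adjoin_simple_le_iff]
    have h1 : t ∈ L ⊔ IntermediateField.adjoin E {t} :=
      (le_sup_right : IntermediateField.adjoin E {t} ≤ _)
        (IntermediateField.mem_adjoin_simple_self E t)
    exact mul_mem h1 ((le_sup_left : L ≤ _) hu)
  · refine sup_le le_sup_left ?_
    rw [IntermediateField.adjoin_simple_le_iff]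
    have h1 : t * u ∈ L ⊔ IntermediateField.adjoin E {t * u} :=
      (le_sup_right : IntermediateField.adjoin E {t * u} ≤ _)
        (IntermediateField.mem_adjoin_simple_self E (t * u))
    have h2 : u⁻¹ ∈ L ⊔ IntermediateField.adjoin E {t * u} :=
      (le_sup_left : L ≤ _) (inv_mem hu)
    have h3 := mul_mem h1 h2
    rwa [mul_assoc, mul_inv_cancel₀ hu0, mul_one] at h3

private theorem pstep_Gn (hr : 0 < r) (hA : AmbX p r S) {c : Tri W r} (hc : Gd S c) {lam : W}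
    (hl : MoH c lam) {z : W} (hz : z ∈ HL c) : Gn c (lam ^ p * z) = ‖lam‖ ^ p * Gn c z := by
  have h1 := hl.mem_HL hc
  rw [Gn_mul hr hA hc (pow_mem h1 p) hz, Gn_pow hr hA hc h1, Gn_moH hr hA hc hl]

/-- The residue of an element of `HO c` is the residue of an element of `c.B`. -/
private theorem pstep_res (hr : 0 < r) {c : Tri W r} (hc : Gd S c) {v : W} (hv : v ∈ HO c) :
    ∃ b ∈ c.B, rs v = rs b := by
  obtain ⟨b, hb, q, hq, h, hh, e⟩ := HO_dec hr hc hv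
  have h1 : ‖v‖ ≤ 1 := HO_norm_le hc hv
  have h2 : ‖b‖ ≤ 1 := hc.norm_le hb
  refine ⟨b, hb, (rs_eq_iff h1 h2).2 ?_⟩
  have h3 : v - b = q + h * c.y := by rw [e]; ring
  rw [h3]
  refine (IsUltrametricDist.norm_add_le_max _ _).trans_lt (max_lt (QH_norm hc hq) ?_)
  rw [norm_mul]
  exact (mul_le_of_le_one_left (norm_nonneg _) (HO_norm_le hc hh)).trans_lt hc.y1

theorem pStep (hr : 0 < r) (hA : AmbX p r S) {L : IntermediateField E W}
    (hL : IsComplete (L : Set W)) (h : HasCh S r L) {t ζ : W} (hζL : ζ ∈ L)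
    (hζ : IsPrimitiveRoot ζ p) (ht : t ^ p ∈ L) :
    HasCh S r (L ⊔ IntermediateField.adjoin E {t}) := by
  refine p_red hr hA hL h hζL hζ ?_ ht
  intro c g t hc hpM hlM hg hg1 hg2 htp
  obtain ⟨lam, hlam⟩ : ∃ lam, lam = ζ - 1 := ⟨_, rfl⟩
  rw [← hlam] at hlM hg1
  -- one stage
  obtain ⟨τ, hτ⟩ := hc.gd.exists_sec (F := kap c.B) rfl
  obtain ⟨c1, e, β, w, g1, G, T, hst, -⟩ := exists_st hr hA hc.gd rfl hτ ∅
    (fun n hn => absurd hn (Finset.notMem_empty n))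
  have hS1 : StR S c c1 := hst.stR
  have hR1 : RfS S c c1 := Relation.ReflTransGen.single hS1
  have hc1 : Ch S L c1 := hc.of_rfS hR1
  have hl1 : LamP p c1 lam := by
    rw [hlam]
    exact pstep_lam hr hA hc1.gd hζ (hS1.moH hpM) (hlam ▸ hS1.moH hlM)
  have hlp0 : lam ^ p ≠ 0 := pow_ne_zero _ hl1.ne
  have hgQ : g ∈ QH c1 := RfS.lt_one hr hS1 Relation.ReflTransGen.refl hg hg2
  have hgHL : g ∈ HL c1 := HO_le_HL (QH_mem_HO hc1.gd hgQ)
  obtain ⟨z, hzdef⟩ : ∃ z, z = (lam⁻¹) ^ p * g := ⟨_, rfl⟩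
  have hzg : lam ^ p * z = g := by
    rw [hzdef, ← mul_assoc, ← mul_pow, mul_inv_cancel₀ hl1.ne, one_pow, one_mul]
  have hz : z ∈ HL c1 := by
    rw [hzdef]
    exact mul_mem (pow_mem ((hl1.mo.inv hc1.gd).mem_HL hc1.gd) p) hgHL
  have hz1 : ‖lam‖ ^ p * Gn c1 z < 1 := by
    rw [← pstep_Gn hr hA hc1.gd hl1.mo hz, hzg]
    exact (Gn_lt_one_iff hr hA hc1.gd hgHL).2 hgQ
  obtain ⟨c2, hR2, s, hs, hs1, hcase⟩ := p_core hr hA hc1.gd hl1 hz hz1
  have hc2 : Ch S L c2 := hc1.of_rfS hR2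
  have hl2 : LamP p c2 lam := hl1.mono hR2
  have hz2 : z ∈ HL c2 := RfS.HL_le hc1.gd hR2 hz
  have hz21 : ‖lam‖ ^ p * Gn c2 z < 1 :=
    (mul_le_mul_of_nonneg_left (RfS.Gn_le hr hA hc1.gd hR2 hz)
      (pow_nonneg (norm_nonneg _) _)).trans_lt hz1
  obtain ⟨z', hz'⟩ : ∃ z', z' = gact p lam s z := ⟨_, rfl⟩
  have hz'L : z' ∈ HL c2 := by
    rw [hz']
    exact (gact_HL hA hc2.gd hl2 hs hz2).2
  have hz'1 : ‖lam‖ ^ p * Gn c2 z' < 1 := by
    rw [hz']
    exact gact_lt hr hA hc2.gd hl2 hs hs1 hz2 hz21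
  rw [← hz'] at hcase
  -- the new root
  have hu1 : ‖lam * s‖ < 1 := by
    rw [norm_mul]
    exact (mul_le_mul_of_nonneg_left (norm_le_Gn hr hA hc2.gd hs) (norm_nonneg _)).trans_lt hs1
  have hu0 : 1 + lam * s ≠ 0 := by
    intro h0
    have h1 : lam * s = -1 := by linear_combination h0
    rw [h1, norm_neg, norm_one] at hu1
    exact lt_irrefl _ hu1
  have hlamL : lam ∈ L := by
    rw [hlam]
    exact sub_mem hζL (one_mem _)
  have huL : 1 + lam * s ∈ L :=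
    add_mem (one_mem _) (mul_mem hlamL (hc2.le (HL_mem_Fr hc2.gd hs)))
  have htp' : (t * (1 + lam * s)) ^ p = 1 + lam ^ p * z' := by
    rw [hz', gact_spec hl1.ne, hzg, mul_pow, htp]
  have hz'F : z' ∈ L := hc2.le (HL_mem_Fr hc2.gd hz'L)
  have htL' : (t * (1 + lam * s)) ^ p ∈ L := by
    rw [htp']
    exact add_mem (one_mem _) (mul_mem (pow_mem hlamL p) hz'F)
  rw [← pstep_fld (t := t) huL hu0]
  by_cases hle : ‖lam ^ p * z'‖ ≤ ‖lam‖ ^ p
  · refine p_as hr hA hL h hζL hζ htL' ?_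
    rw [htp', add_sub_cancel_left, ← hlam]
    exact hle
  rw [not_le] at hle
  have hg'1 : ‖lam ^ p * z'‖ < 1 := by
    rw [norm_mul, norm_pow]
    exact (mul_le_mul_of_nonneg_left (norm_le_Gn hr hA hc2.gd hz'L)
      (pow_nonneg (norm_nonneg _) _)).trans_lt hz'1
  have hpM2 : MoH c2 (p : W) := RfS.moH (Relation.ReflTransGen.trans hR1 hR2) hpM
  rcases hcase with hHO | ⟨a, d, hd, h1a, v, hv, hv1, ⟨q, hq, hzq⟩, hnp⟩
  · exfalso
    have h1 : ‖z'‖ ≤ 1 := HO_norm_le hc2.gd hHO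
    rw [norm_mul, norm_pow] at hle
    exact absurd (mul_le_of_le_one_right (pow_nonneg (norm_nonneg lam) p) h1) (not_le.2 hle)
  obtain ⟨l, vl, hvl, hvl1, hll⟩ := hl2.mo
  have hxne := hc2.gd.ind.ne
  have hlpx : lam ^ p = mon c2.x (p • l) * vl ^ p := by
    rw [hll, mul_pow, mon_nsmul]
  have hvlp : vl ^ p ∈ HO c2 := pow_mem hvl p
  have hvlp1 : ‖vl ^ p‖ = 1 := by rw [norm_pow, hvl1, one_pow]
  have hle2 : ‖ζ - 1‖ ^ p < ‖lam ^ p * z'‖ := by rw [← hlam]; exact hle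
  interval_cases d
  · -- d = 0
    have hgv : lam ^ p * z' = mon c2.x (p • l + a) * (vl ^ p * (v + q)) := by
      rw [hzq, hlpx, mon_add c2.x hxne, pow_zero, one_mul]
      ring
    have hvq : v + q ∈ HO c2 := add_mem hv (QH_mem_HO hc2.gd hq)
    have hvq1 : ‖v + q‖ = 1 := by
      have h1 : ‖q‖ < ‖v‖ := by
        rw [hv1]
        exact QH_norm hc2.gd hq
      rw [IsUltrametricDist.norm_add_eq_max_of_norm_ne_norm h1.ne', max_eq_left h1.le, hv1]
    have hrvq : rs (v + q) = rs v := by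
      rw [rs_add hv1.le (QH_norm hc2.gd hq).le,
        (rs_eq_zero_iff (QH_norm hc2.gd hq).le).2 (QH_norm hc2.gd hq), add_zero]
    have hV : vl ^ p * (v + q) ∈ HO c2 := mul_mem hvlp hvq
    have hV1 : ‖vl ^ p * (v + q)‖ = 1 := by rw [norm_mul, hvlp1, hvq1, one_mul]
    by_cases ha : ∃ a', a = p • a'
    · obtain ⟨a', rfl⟩ := ha
      have hgv' : lam ^ p * z' = mon c2.x (p • (l + a')) * (vl ^ p * (v + q)) := by
        rw [hgv, smul_add]
      refine p_end0b hr hA hc2 hζ hpM2 htp' hg'1 hle2 hV hV1 hgv' ?_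
      intro b hb hbr
      refine hnp ⟨⟨a', rfl⟩, dvd_zero _, ?_⟩
      have hb1 : ‖b‖ ≤ 1 := hc2.gd.norm_le hb
      have hvln : ‖vl‖ ≤ 1 := hvl1.le
      rw [rs_mul hvlp1.le hvq1.le, rs_pow hvln, hrvq] at hbr
      have hrv0 : rs vl ≠ 0 := (rs_ne_zero_iff hvln).2 hvl1
      obtain ⟨b', hb', hbb'⟩ := pstep_res hr hc2.gd hvl
      refine ⟨rs b * (rs vl)⁻¹, ?_, ?_⟩
      · refine mul_mem (rs_mem_kap hb) (inv_mem ?_)
        rw [hbb']
        exact rs_mem_kap hb'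
      · rw [mul_pow, ← hbr, inv_pow]
        field_simp
    · refine p_end0a hr hA hc2 hζ hpM2 htp' hg'1 hle2 ?_ hV hV1 hgv
      intro b hb
      refine ha ⟨b - l, ?_⟩
      rw [smul_sub, ← hb, add_sub_cancel_left]
  · -- d = 1
    refine p_end1 hr hA hc2 hζ hpM2 htp' hg'1 hle2 (a0 := p • l + a) ?_
    refine ⟨vl ^ p * v, mul_mem hvlp hv, by rw [norm_mul, hvlp1, hv1, one_mul], vl ^ p * q, ?_, ?_⟩
    · rw [mul_comm]
      exact QH_mul hc2.gd hq hvlp
    · rw [hzq, hlpx, mon_add c2.x hxne]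
      ring

end Pool.Agent.Lib.MX
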