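import Pool.Agent.Lib.MX.MainT
import Pool.Agent.Lib.MX.PStep

set_option autoImplicit false

/-!
# Module MX.MainP: finite extensions of a field with a chart have a chart
-/

namespace Pool.Agent.Lib.MX

open Pool.Agent.Lib.MP_3029eb_ag Pool.Agent.Lib.MP_3029eb_ag.Abh Pool.Agent.Lib.TDO

theorem hasCh_finset {E W : Type} [Field E] [NontriviallyNormedField W] [IsUltrametricDist W]
    [Algebra E W] [IsAlgClosed W] {p r : ℕ} (hr : 0 < r) {S : IntermediateField E W}
    (hA : AmbX p r S) {L : IntermediateField E W} (hL : IsComplete (L : Set W))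
    (halg : ∀ z : W, IsAlgebraic L z) (h : HasCh S r L) (G : Finset W) :
    HasCh S r (L ⊔ IntermediateField.adjoin E (G : Set W)) :=
  hasCh_finset0 hr hA (fun _ _ _ hL1 h1 hζ hζp ht => pStep hr hA hL1 h1 hζ hζp ht) hL halg h G

end Pool.Agent.Lib.MX
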