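import Pool.Agent.Lib.MX.KumX
import Pool.Agent.Lib.MX.UnrX
import Pool.Agent.Lib.MX.Inert
import Pool.Agent.Lib.MX.InPrim
import Pool.Agent.Lib.MX.KChain
import Pool.Agent.Lib.TDO.Iso
import Pool.Agent.Lib.TDO.Cl

set_option autoImplicit false

/-!
# Module MX.TowX: finite extensions (paper section 8)

Port of `Pool/Agent/Lib/TU/TowerU.lean` (`towerU`), whose private lemmas can be copied.  Changes: `k` is `E`, characteristic zero (every algebraic element is separable); `exists_inertia`, `exists_inertia_gen`, `kstep_chainX`,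
`pstep_chainX` of `Inert`, `InPrim`, `KChain` (they need `‖((p : ℕ) : N)‖ < 1`); `‖(n : W)‖ = 1` for `n` prime to `p`: `norm_cast_one`.
Let `ζ ∈ W` be a primitive `p`-th root of unity and replace `G` by `G ∪ {ζ}` in the definition of `F := ∏ minpoly L θ` (but `L' = L ⊔ E(G)`): so `ζ ∈ N`.  `P` fixes `ζ`: for `g ∈ P`, `g ζ = ζ^i`; `orderOf g` is a power of `p`
(`P` is a `p`-group), and `g` restricted to `{ζ^i}` has order dividing `p - 1`; so `g ζ = ζ`.
(c) of the header of TowerU: `pstep_chainX` from `fixedField P` to `fixedField (P ⊓ U)`: chain of Kummer steps of degree `p`, `ζ` in all these fields; `hps` (the `p`-step) for each step, completeness by `isComplete_sup`.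
The other steps: (a) `unr_stepX`, (b) `kstep_chainX`, `kummer_stepX`; (d) `kstep_chainX`, `TTower.kstep`; (e) `TTower.ustep`.
-/

namespace Pool.Agent.Lib.MX

open Pool.Agent.Lib.MP_3029eb_ag Pool.Agent.Lib.MP_3029eb_ag.Abh Pool.Agent.Lib.TDO

/-- An intermediate field of `N / L` as an intermediate field of `W / k`. -/
private noncomputable def TwX {k W : Type} [Field k] [Field W] [Algebra k W]
    {L : IntermediateField k W} (N : IntermediateField L W) (E : IntermediateField L N) :
    IntermediateField k W :=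
  (IntermediateField.lift E).restrictScalars k

private theorem towX_mem {k W : Type} [Field k] [Field W] [Algebra k W]
    {L : IntermediateField k W} {N : IntermediateField L W} {E : IntermediateField L N} {z : W} :
    z ∈ TwX N E ↔ ∃ w ∈ E, (w : W) = z := by
  constructor
  · intro h
    have h1 : z ∈ IntermediateField.lift E := h
    exact h1
  · intro h
    have h1 : z ∈ IntermediateField.lift E := h
    exact h1

private theorem towX_bot {k W : Type} [Field k] [Field W] [Algebra k W]
    {L : IntermediateField k W} (N : IntermediateField L W) : TwX N ⊥ = L := by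
  ext z
  rw [towX_mem]
  constructor
  · rintro ⟨w, hw, rfl⟩
    obtain ⟨a, rfl⟩ := IntermediateField.mem_bot.mp hw
    exact a.2
  · intro hz
    exact ⟨algebraMap L N ⟨z, hz⟩, IntermediateField.mem_bot.mpr ⟨_, rfl⟩, rfl⟩

private theorem towX_le {k W : Type} [Field k] [Field W] [Algebra k W]
    {L : IntermediateField k W} (N : IntermediateField L W) (E : IntermediateField L N) :
    L ≤ TwX N E := by
  intro z hz
  exact towX_mem.mpr ⟨algebraMap L N ⟨z, hz⟩, E.algebraMap_mem _, rfl⟩

private theorem towX_sup {k W : Type} [Field k] [Field W] [Algebra k W]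
    {L : IntermediateField k W} (N : IntermediateField L W) (E : IntermediateField L N)
    (S : Set N) : TwX N (E ⊔ IntermediateField.adjoin L S) =
      TwX N E ⊔ IntermediateField.adjoin k ((fun w : N => (w : W)) '' S) := by
  apply le_antisymm
  · intro z hz
    obtain ⟨v, hv, rfl⟩ := towX_mem.mp hz
    have hLM : L ≤ TwX N E ⊔ IntermediateField.adjoin k ((fun w : N => (w : W)) '' S) :=
      (towX_le N E).trans le_sup_left
    have h1 : E ⊔ IntermediateField.adjoin L S ≤
        (IntermediateField.extendScalars hLM).comap N.val := by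
      refine sup_le ?_ ?_
      · intro w hw
        have h2 : (w : W) ∈ TwX N E ⊔
            IntermediateField.adjoin k ((fun w : N => (w : W)) '' S) :=
          (le_sup_left (a := TwX N E)) (towX_mem.mpr ⟨w, hw, rfl⟩)
        exact h2
      · rw [IntermediateField.adjoin_le_iff]
        intro w hw
        have h2 : (w : W) ∈ TwX N E ⊔
            IntermediateField.adjoin k ((fun w : N => (w : W)) '' S) :=
          (le_sup_right (a := TwX N E)) (IntermediateField.subset_adjoin k _ ⟨w, hw, rfl⟩)
        exact h2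
    exact h1 hv
  · refine sup_le ?_ ?_
    · intro z hz
      obtain ⟨v, hv, rfl⟩ := towX_mem.mp hz
      exact towX_mem.mpr ⟨v, (le_sup_left (a := E)) hv, rfl⟩
    · rw [IntermediateField.adjoin_le_iff]
      rintro _ ⟨w, hw, rfl⟩
      exact towX_mem.mpr ⟨w, (le_sup_right (a := E))
        (IntermediateField.subset_adjoin L S hw), rfl⟩

/-- roots of unity near one are one -/
private theorem towX_root {W : Type} [NormedField W] [IsUltrametricDist W] {n : ℕ}
    (hn : ‖(n : W)‖ = 1) {η : W} (h1 : η ^ n = 1) (h2 : ‖η - 1‖ < 1) : η = 1 := by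
  by_contra hne
  have h3 : ∑ i ∈ Finset.range n, η ^ i = 0 := by
    have h := mul_geom_sum η n
    rw [h1, sub_self] at h
    exact (mul_eq_zero.1 h).resolve_left (sub_ne_zero.2 hne)
  have hη : ‖η‖ ≤ 1 := by
    have h : η = (η - 1) + 1 := by ring
    rw [h]
    exact (IsUltrametricDist.norm_add_le_max _ _).trans (max_le h2.le (by rw [norm_one]))
  have h4 : ∀ i : ℕ, ‖η ^ i - 1‖ < 1 := by
    intro i
    induction i with
    | zero => simp
    | succ i ih =>
      have h : η ^ (i + 1) - 1 = η ^ i * (η - 1) + (η ^ i - 1) := by ring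
      rw [h]
      refine (IsUltrametricDist.norm_add_le_max _ _).trans_lt (max_lt ?_ ih)
      rw [norm_mul, norm_pow]
      exact (mul_le_of_le_one_left (norm_nonneg _) (pow_le_one₀ (norm_nonneg _) hη)).trans_lt h2
  have h5 : (n : W) = -∑ i ∈ Finset.range n, (η ^ i - 1) := by
    rw [Finset.sum_sub_distrib, h3]
    simp
  have h6 : ‖∑ i ∈ Finset.range n, (η ^ i - 1)‖ < 1 := by
    refine Finset.sum_induction _ (fun y : W => ‖y‖ < 1) ?_ ?_ (fun i _ => h4 i)
    · intro a c ha hc
      exact (IsUltrametricDist.norm_add_le_max a c).trans_lt (max_lt ha hc)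
    · simp
  rw [h5, norm_neg] at hn
  exact absurd hn (ne_of_lt h6)

/-- coefficients of a product of linear factors -/
private theorem towX_coeff {W : Type} [NormedField W] [IsUltrametricDist W] (s : Multiset W)
    (hs : ∀ c ∈ s, ‖c‖ ≤ 1) : ∀ i : ℕ,
    ‖((s.map fun c => (Polynomial.X - Polynomial.C c)).prod).coeff i‖ ≤ 1 := by
  induction s using Multiset.induction with
  | empty =>
    intro i
    rw [Multiset.map_zero, Multiset.prod_zero, Polynomial.coeff_one]
    split_ifs <;> simp
  | cons c s ih =>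
    have ih' := ih (fun c hc => hs c (Multiset.mem_cons_of_mem hc))
    have hc := hs c (Multiset.mem_cons_self c s)
    intro i
    rw [Multiset.map_cons, Multiset.prod_cons, sub_mul, Polynomial.coeff_sub,
      Polynomial.coeff_C_mul, sub_eq_add_neg]
    refine (IsUltrametricDist.norm_add_le_max _ _).trans (max_le ?_ ?_)
    · rcases i with _ | i
      · simp
      · rw [Polynomial.coeff_X_mul]
        exact ih' i
    · rw [norm_neg, norm_mul]
      exact mul_le_one₀ hc (norm_nonneg _) (ih' i)

/-- the roots in `W` of the minimal polynomial of an element of a Galois extension -/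
private theorem towX_conj {A W : Type} [Field A] [Field W] [Algebra A W]
    (N : IntermediateField A W) [FiniteDimensional A N] [IsGalois A N] (z : N) {y : W}
    (hy : Polynomial.aeval y (minpoly A z) = 0) : ∃ σ : N ≃ₐ[A] N, ((σ z : N) : W) = y := by
  have hspl : ((minpoly A z).map (algebraMap A N)).Splits := Normal.splits inferInstance z
  have hm : ((minpoly A z).map (algebraMap A N)).Monic :=
    (minpoly.monic (Algebra.IsIntegral.isIntegral z)).map _
  have h1 : (((minpoly A z).map (algebraMap A N)).map (algebraMap N W)).eval y = 0 := by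
    rw [Polynomial.map_map, ← IsScalarTower.algebraMap_eq A N W, Polynomial.eval_map,
      ← Polynomial.aeval_def]
    exact hy
  rw [hspl.eq_prod_roots_of_monic hm, Polynomial.map_multiset_prod, Multiset.map_map,
    Polynomial.eval_multiset_prod, Multiset.map_map, Multiset.prod_eq_zero_iff,
    Multiset.mem_map] at h1
  obtain ⟨a, ha, h2⟩ := h1
  simp only [Function.comp_apply, Polynomial.map_sub, Polynomial.map_X, Polynomial.map_C,
    Polynomial.eval_sub, Polynomial.eval_X, Polynomial.eval_C] at h2
  have h3 : Polynomial.aeval a (minpoly A z) = 0 := by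
    rw [Polynomial.aeval_def, ← Polynomial.eval_map]
    exact (Polynomial.mem_roots hm.ne_zero).1 ha
  obtain ⟨σ, hσ⟩ := minpoly.exists_algEquiv_of_root' (Algebra.IsAlgebraic.isAlgebraic z) h3
  refine ⟨σ, ?_⟩
  rw [hσ]
  exact (sub_eq_zero.1 h2).symm

/-- unramified steps -/
private theorem towX_ustep {k W : Type} [Field k] [NormedField W] [Algebra k W] [IsAlgClosed W]
    (L L2 : IntermediateField k W) (hle : L ≤ L2) (N : IntermediateField L W)
    [FiniteDimensional L N] [IsGalois L N] (z : N) (hz : ‖(z : W)‖ ≤ 1)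
    (hconj : ∀ σ : N ≃ₐ[L] N, ((σ z : N) : W) ∈ L ⊔ IntermediateField.adjoin k {(z : W)})
    (hdist : ∀ σ : N ≃ₐ[L] N, σ z ≠ z → ‖((σ z : N) : W) - (z : W)‖ = 1) :
    TU.UStep L2 (L2 ⊔ IntermediateField.adjoin k {(z : W)}) := by
  classical
  set q : Polynomial L2 := (minpoly L z).map (IntermediateField.inclusion hle).toRingHom with hq
  have hcomp : (algebraMap L2 W).comp (IntermediateField.inclusion hle).toRingHom =
      algebraMap L W := rfl
  have hroot : ∀ y : W, Polynomial.aeval y q = Polynomial.aeval y (minpoly L z) := by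
    intro y
    rw [Polynomial.aeval_def, Polynomial.aeval_def, hq, Polynomial.eval₂_map, hcomp]
  have hsep : (minpoly L z).Separable := Algebra.IsSeparable.isSeparable L z
  have hqsep : q.Separable := hsep.map
  have hq0 : q ≠ 0 := hqsep.ne_zero
  have hsplit : (q.map (algebraMap L2 W)).Splits := IsAlgClosed.splits _
  have hSF : q.IsSplittingField L2 (IntermediateField.adjoin L2 (q.rootSet W)) :=
    IntermediateField.adjoin_rootSet_isSplittingField hsplit
  have hzroot : (z : W) ∈ q.rootSet W := by
    rw [Polynomial.mem_rootSet]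
    refine ⟨hq0, ?_⟩
    rw [hroot]
    have h1 : ((Polynomial.aeval z (minpoly L z) : N) : W) =
        Polynomial.aeval (z : W) (minpoly L z) := by
      rw [← IntermediateField.coe_val, ← Polynomial.aeval_algHom_apply]
    rw [← h1, minpoly.aeval]
    rfl
  have hadj : IntermediateField.adjoin L2 (q.rootSet W) =
      IntermediateField.adjoin L2 {(z : W)} := by
    apply le_antisymm
    · rw [IntermediateField.adjoin_le_iff]
      intro y hy
      rw [Polynomial.mem_rootSet, hroot] at hy
      obtain ⟨σ, hσ⟩ := towX_conj N z hy.2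
      have h1 := hconj σ
      rw [hσ] at h1
      have h2 : L ⊔ IntermediateField.adjoin k {(z : W)} ≤
          (IntermediateField.adjoin L2 {(z : W)}).restrictScalars k := by
        rw [IntermediateField.restrictScalars_adjoin_eq_sup]
        exact sup_le_sup_right hle _
      exact h2 h1
    · rw [IntermediateField.adjoin_le_iff]
      rintro _ rfl
      exact IntermediateField.subset_adjoin _ _ hzroot
  refine ⟨IntermediateField.adjoin L2 (q.rootSet W), ?_, ?_, ?_, ?_⟩
  · exact Polynomial.IsSplittingField.finiteDimensional _ q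
  · exact IsGalois.of_separable_splitting_field hqsep
  · rw [hadj, IntermediateField.restrictScalars_adjoin_eq_sup]
  · refine ⟨⟨(z : W), IntermediateField.subset_adjoin _ _ hzroot⟩, hz, ?_⟩
    intro σ hσ
    set ζ : IntermediateField.adjoin L2 (q.rootSet W) :=
      ⟨(z : W), IntermediateField.subset_adjoin _ _ hzroot⟩ with hζ
    have h1 : Polynomial.aeval ((σ ζ : IntermediateField.adjoin L2 (q.rootSet W)) : W) q = 0 := by
      have h2 : Polynomial.aeval ζ q = 0 := by
        apply Subtype.ext
        have h3 : ((Polynomial.aeval ζ q : IntermediateField.adjoin L2 (q.rootSet W)) : W) =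
            Polynomial.aeval (z : W) q := by
          rw [← IntermediateField.coe_val, ← Polynomial.aeval_algHom_apply]
          rfl
        rw [h3]
        exact ((Polynomial.mem_rootSet).1 hzroot).2
      have h4 : Polynomial.aeval (σ ζ) q = 0 := by
        have h6 := Polynomial.aeval_algHom_apply σ.toAlgHom ζ q
        rw [h2, map_zero] at h6
        exact h6
      have h5 : ((Polynomial.aeval (σ ζ) q : IntermediateField.adjoin L2 (q.rootSet W)) : W) =
          Polynomial.aeval ((σ ζ : IntermediateField.adjoin L2 (q.rootSet W)) : W) q := by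
        rw [← IntermediateField.coe_val, ← Polynomial.aeval_algHom_apply]
      rw [← h5, h4]
      rfl
    rw [hroot] at h1
    obtain ⟨τ, hτ⟩ := towX_conj N z h1
    have hne : τ z ≠ z := by
      intro h2
      apply hσ
      have h3 : σ ζ = ζ := by
        apply Subtype.ext
        rw [← hτ, h2]
      have h4 : IntermediateField.adjoin L2 (q.rootSet W) =
          IntermediateField.adjoin L2 {(z : W)} := hadj
      have h5 : σ.toAlgHom = AlgHom.id L2 (IntermediateField.adjoin L2 (q.rootSet W)) := by
        refine IntermediateField.algHom_ext_of_eq_adjoin L2 h4 ?_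
        intro x hx
        rw [Set.mem_singleton_iff] at hx
        subst hx
        exact h3
      exact AlgEquiv.ext fun y => DFunLike.congr_fun h5 y
    rw [← hτ]
    exact hdist τ hne


/-- the minimal polynomial of a generator of the inertia field -/
private theorem towX_unr {k W : Type} [Field k] [NormedField W] [IsUltrametricDist W]
    [Algebra k W] (L : IntermediateField k W) (N : IntermediateField L W)
    [FiniteDimensional L N] [IsGalois L N] (z : N) (hz : ‖(z : W)‖ ≤ 1)
    (hiso : ∀ σ : N ≃ₐ[L] N, ‖((σ z : N) : W)‖ = ‖(z : W)‖)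
    (hdist : ∀ σ : N ≃ₐ[L] N, σ z ≠ z → ‖((σ z : N) : W) - (z : W)‖ = 1) :
    ∃ f : Polynomial W, (∀ j, f.coeff j ∈ L ∧ ‖f.coeff j‖ ≤ 1) ∧ f.Monic ∧
      f.eval (z : W) = 0 ∧ ‖f.derivative.eval (z : W)‖ = 1 := by
  classical
  set g : Polynomial N := (minpoly L z).map (algebraMap L N) with hg
  have hm0 := minpoly.monic (Algebra.IsIntegral.isIntegral (R := L) z)
  have hspl : g.Splits := Normal.splits inferInstance z
  have hm : g.Monic := hm0.map _
  have hroots : ∀ a ∈ g.roots, ∃ σ : N ≃ₐ[L] N, σ z = a := by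
    intro a ha
    have h3 : Polynomial.aeval a (minpoly L z) = 0 := by
      rw [Polynomial.aeval_def, ← Polynomial.eval_map]
      exact (Polynomial.mem_roots hm.ne_zero).1 ha
    exact minpoly.exists_algEquiv_of_root' (Algebra.IsAlgebraic.isAlgebraic z) h3
  have hzr : z ∈ g.roots := by
    rw [Polynomial.mem_roots hm.ne_zero, Polynomial.IsRoot.def, hg, Polynomial.eval_map,
      ← Polynomial.aeval_def, minpoly.aeval]
  have hfg : g.map (algebraMap N W) = (minpoly L z).map (algebraMap L W) := by
    rw [hg, Polynomial.map_map, ← IsScalarTower.algebraMap_eq L N W]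
  refine ⟨g.map (algebraMap N W), fun j => ⟨?_, ?_⟩, hm.map _, ?_, ?_⟩
  · rw [hfg, Polynomial.coeff_map]
    exact ((minpoly L z).coeff j).2
  · rw [hspl.eq_prod_roots_of_monic hm, Polynomial.map_multiset_prod, Multiset.map_map]
    have h1 : g.roots.map ((Polynomial.map (algebraMap N W)) ∘ fun a => Polynomial.X -
        Polynomial.C a) = (g.roots.map (fun a : N => (a : W))).map
          (fun c => Polynomial.X - Polynomial.C c) := by
      rw [Multiset.map_map]
      refine Multiset.map_congr rfl fun a _ => ?_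
      simp only [Function.comp_apply, Polynomial.map_sub, Polynomial.map_X, Polynomial.map_C]
      rfl
    rw [h1]
    refine towX_coeff _ ?_ j
    intro c hc
    obtain ⟨a, ha, rfl⟩ := Multiset.mem_map.1 hc
    obtain ⟨σ, rfl⟩ := hroots a ha
    rw [hiso]
    exact hz
  · have h1 : (z : W) = algebraMap N W z := rfl
    rw [h1, Polynomial.eval_map_apply, (Polynomial.mem_roots hm.ne_zero).1 hzr, map_zero]
  · have h1 : (z : W) = algebraMap N W z := rfl
    rw [Polynomial.derivative_map, h1, Polynomial.eval_map_apply,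
      hspl.eval_root_derivative hm hzr, map_multiset_prod, Multiset.map_map]
    have hnd : g.roots.Nodup := by
      refine Polynomial.nodup_roots ?_
      have h2 : (minpoly L z).Separable := Algebra.IsSeparable.isSeparable L z
      exact h2.map
    refine Multiset.prod_induction (fun x : W => ‖x‖ = 1) _ ?_ (by simp) ?_
    · intro a b ha hb
      rw [norm_mul, ha, hb, one_mul]
    · intro c hc
      obtain ⟨a, ha, rfl⟩ := Multiset.mem_map.1 hc
      rw [hnd.mem_erase_iff] at ha
      obtain ⟨σ, rfl⟩ := hroots a ha.2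
      have h3 := hdist σ ha.1
      rw [norm_sub_rev] at h3
      exact h3

/-- the order of an automorphism which moves a root of a polynomial -/
private theorem towX_order {A N : Type} [Field A] [Field N] [Algebra A N] (F : Polynomial A)
    (hF : F ≠ 0) (g : N ≃ₐ[A] N) {l : ℕ} (hl : l.Prime) (hg : orderOf g = l) {x : N}
    (hx : Polynomial.aeval x F = 0) (hgx : g x ≠ x) : l ≤ F.natDegree := by
  classical
  have key : ∀ i j, i < j → j < l → (g ^ i) x ≠ (g ^ j) x := by
    intro i j hij hj h
    have h1 : (g ^ (j - i)) x = x := by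
      have h2 : g ^ j = g ^ i * g ^ (j - i) := by
        rw [← pow_add]
        congr 1
        omega
      rw [h2, AlgEquiv.mul_apply] at h
      exact ((g ^ i).injective h).symm
    have hco : (j - i).Coprime (orderOf g) := by
      rw [hg, Nat.coprime_comm]
      refine (Nat.Prime.coprime_iff_not_dvd hl).2 fun hd => ?_
      have := Nat.le_of_dvd (by omega) hd
      omega
    obtain ⟨m, hm⟩ := exists_pow_eq_self_of_coprime hco
    have h3 : ∀ m : ℕ, ((g ^ (j - i)) ^ m) x = x := by
      intro m
      induction m with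
      | zero => simp
      | succ m ih => rw [pow_succ, AlgEquiv.mul_apply, h1, ih]
    have h4 := h3 m
    rw [hm] at h4
    exact hgx h4
  have hinj : Set.InjOn (fun i : ℕ => (g ^ i) x) (Finset.range l : Set ℕ) := by
    intro i hi j hj h
    rw [Finset.mem_coe, Finset.mem_range] at hi hj
    rcases lt_trichotomy i j with h1 | h1 | h1
    · exact absurd h (key i j h1 hj)
    · exact h1
    · exact absurd h.symm (key j i h1 hi)
  have hF' : F.map (algebraMap A N) ≠ 0 := (Polynomial.map_ne_zero_iff (algebraMap A N).injective).2 hF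
  have hsub : (Finset.range l).image (fun i : ℕ => (g ^ i) x) ⊆
      (F.map (algebraMap A N)).roots.toFinset := by
    intro y hy
    obtain ⟨i, -, rfl⟩ := Finset.mem_image.1 hy
    rw [Multiset.mem_toFinset, Polynomial.mem_roots hF', Polynomial.IsRoot.def,
      Polynomial.eval_map, ← Polynomial.aeval_def]
    have h6 := Polynomial.aeval_algHom_apply (g ^ i).toAlgHom x F
    rw [hx, map_zero] at h6
    exact h6
  calc l = ((Finset.range l).image (fun i : ℕ => (g ^ i) x)).card := by
        rw [Finset.card_image_of_injOn hinj, Finset.card_range]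
    _ ≤ (F.map (algebraMap A N)).roots.toFinset.card := Finset.card_le_card hsub
    _ ≤ Multiset.card (F.map (algebraMap A N)).roots := Multiset.toFinset_card_le _
    _ ≤ (F.map (algebraMap A N)).natDegree := Polynomial.card_roots' _
    _ = F.natDegree := Polynomial.natDegree_map _

/-- a `p`-group fixes the `p`-th roots of unity -/
private theorem towX_fix {A N : Type} [Field A] [Field N] [Algebra A N] (p : ℕ) [Fact p.Prime]
    {ζ : N} (hζ : IsPrimitiveRoot ζ p) (P : Subgroup (N ≃ₐ[A] N)) (hP : IsPGroup p P)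
    {g : N ≃ₐ[A] N} (hg : g ∈ P) : g ζ = ζ := by
  have hp : p.Prime := Fact.out
  have : NeZero p := ⟨hp.ne_zero⟩
  have h1 : (g ζ) ^ p = 1 := by rw [← map_pow, hζ.pow_eq_one, map_one]
  obtain ⟨i, -, hi⟩ := hζ.eq_pow_of_pow_eq_one h1
  have h2 : ∀ m : ℕ, (g ^ m) ζ = ζ ^ (i ^ m) := by
    intro m
    induction m with
    | zero => simp
    | succ m ih =>
      rw [pow_succ', AlgEquiv.mul_apply, ih, map_pow, ← hi, ← pow_mul]
      congr 1
      ring
  obtain ⟨m, hm⟩ := hP ⟨g, hg⟩
  have h3 : g ^ p ^ m = 1 := by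
    have h := congrArg (fun x : P => (x : N ≃ₐ[A] N)) hm
    simpa using h
  have h4 := h2 (p ^ m)
  rw [h3, AlgEquiv.one_apply] at h4
  have h5 : ζ ^ 1 = ζ ^ (i ^ p ^ m) := by rw [pow_one]; exact h4
  have hmod : ∀ j : ℕ, ζ ^ (j % p) = ζ ^ j := by
    intro j
    have h := pow_mod_orderOf ζ j
    rwa [← hζ.eq_orderOf] at h
  have h6 : 1 ≡ i ^ p ^ m [MOD p] := by
    refine hζ.pow_inj (Nat.mod_lt _ hp.pos) (Nat.mod_lt _ hp.pos) ?_
    rw [hmod, hmod, h5]
  have h7 : 1 ≡ i [MOD p] := by
    rw [← ZMod.natCast_eq_natCast_iff] at h6 ⊢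
    rw [Nat.cast_pow, ZMod.pow_card_pow] at h6
    exact h6
  rw [← hi]
  have h8 : ζ ^ 1 = ζ ^ i := by
    rw [← hmod 1, ← hmod i]
    exact congrArg (fun j => ζ ^ j) h7
  rw [← h8, pow_one]

theorem towX {E W : Type} [Field E] [NontriviallyNormedField W] [IsUltrametricDist W]
    [Algebra E W] [IsAlgClosed W] {p r : ℕ} (hr : 0 < r) {S : IntermediateField E W}
    (hA : AmbX p r S)
    (hps : ∀ (L : IntermediateField E W) (t ζ : W), IsComplete (L : Set W) → HasCh S r L →
      ζ ∈ L → IsPrimitiveRoot ζ p → t ^ p ∈ L →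
        HasCh S r (L ⊔ IntermediateField.adjoin E {t}))
    {L : IntermediateField E W} (hL : IsComplete (L : Set W)) (h : HasCh S r L) (G : Finset W)
    (hG : ∀ θ ∈ G, IsAlgebraic L θ) :
    TTower S r p (L ⊔ IntermediateField.adjoin E (G : Set W)) := by
  classical
  have hp : p.Prime := hA.prime
  have : Fact p.Prime := ⟨hp⟩
  have : CharZero W := hA.char0
  have : CharZero L := (algebraMap L W).charZero
  have : NeZero (p : W) := ⟨Nat.cast_ne_zero.2 hp.ne_zero⟩
  have : NeZero p := ⟨hp.ne_zero⟩
  obtain ⟨ζp, hζp⟩ := HasEnoughRootsOfUnity.exists_primitiveRoot W p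
  -- a small element
  have hnt : ∃ z ∈ L, z ≠ 0 ∧ ‖z‖ < 1 :=
    ⟨(p : W), natCast_mem L p, Nat.cast_ne_zero.2 hp.ne_zero, hA.p1⟩
  set G1 : Finset W := insert ζp G with hG1
  have hGint : ∀ θ ∈ G1, IsIntegral L θ := by
    intro θ hθ
    rcases Finset.mem_insert.1 hθ with rfl | hθ
    · exact hζp.isIntegral hp.pos |>.tower_top
    · exact (hG θ hθ).isIntegral
  set F : Polynomial L := ∏ θ ∈ G1, minpoly L θ with hF
  have hmono : ∀ θ ∈ G1, (minpoly L θ).Monic := fun θ hθ =>
    minpoly.monic (hGint θ hθ)
  have hF0 : F ≠ 0 := (Polynomial.monic_prod_of_monic _ _ hmono).ne_zero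
  -- the primes
  set T : Finset ℕ := (Finset.range (F.natDegree + 1)).filter (fun l => l.Prime ∧ l ≠ p) with hT
  set n : ℕ := ∏ l ∈ T, l with hn
  have hpn : ¬ p ∣ n := by
    intro hd
    obtain ⟨l, hl, hpl⟩ := (Prime.dvd_finsetProd_iff hp.prime _).1 hd
    obtain ⟨-, hl1, hl2⟩ := Finset.mem_filter.1 hl
    exact hl2 ((Nat.prime_dvd_prime_iff_eq hp hl1).1 hpl).symm
  have hn0 : n ≠ 0 := fun h0 => hpn (h0 ▸ dvd_zero p)
  have hnL : (n : L) ≠ 0 := Nat.cast_ne_zero.2 hn0
  set Q : Polynomial L := Polynomial.X ^ n - Polynomial.C 1 with hQ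
  have hQsep : Q.Separable := Polynomial.separable_X_pow_sub_C 1 hnL one_ne_zero
  have hQ0 : Q ≠ 0 := hQsep.ne_zero
  have hFQ : F * Q ≠ 0 := mul_ne_zero hF0 hQ0
  have hsplit : ((F * Q).map (algebraMap L W)).Splits := IsAlgClosed.splits _
  let N : IntermediateField L W := IntermediateField.adjoin L ((F * Q).rootSet W)
  have hSF : (F * Q).IsSplittingField L N :=
    IntermediateField.adjoin_rootSet_isSplittingField hsplit
  have hfd : FiniteDimensional L N := Polynomial.IsSplittingField.finiteDimensional N (F * Q)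
  have hnorm : Normal L N := Normal.of_isSplittingField (F * Q)
  have hsepN : Algebra.IsSeparable L N := inferInstance
  have hgal : IsGalois L N := IsGalois.mk
  have hmem : ∀ z : W, Polynomial.aeval z (F * Q) = 0 → z ∈ N := by
    intro z hz
    apply IntermediateField.subset_adjoin
    rw [Polynomial.mem_rootSet]
    exact ⟨hFQ, hz⟩
  have hG1N : ∀ θ ∈ G1, θ ∈ N := by
    intro θ hθ
    apply hmem
    rw [map_mul, hF, map_prod, Finset.prod_eq_zero hθ (minpoly.aeval L θ), zero_mul]
  have hGN : ∀ θ ∈ G, θ ∈ N := fun θ hθ => hG1N θ (Finset.mem_insert_of_mem hθ)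
  have hζN : ζp ∈ N := hG1N ζp (Finset.mem_insert_self _ _)
  have hpN : ‖((p : ℕ) : N)‖ < 1 := hA.p1
  have halg : Algebra.IsAlgebraic L N := inferInstance
  have hiso : ∀ (σ : N ≃ₐ[L] N) (z : N), ‖((σ z : N) : W)‖ = ‖(z : W)‖ := fun σ z =>
    isometry_of_complete L hL hnt N σ z
  -- inertia and ramification groups
  obtain ⟨P, I, hPn, hIn, hPI, hPp, hPc, hPi, hI⟩ :=
    exists_inertia (A := L) (N := N) p hpN hiso
  obtain ⟨z, hz1, hzI, hzn⟩ := exists_inertia_gen (A := L) (N := N) p hpN hiso I hI
  -- roots of unity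
  have hnN : ‖((n : ℕ) : N)‖ = 1 := norm_cast_one p hpN n hpn
  have hfix : ∀ ξ : N, ξ ^ n = 1 → ∀ g ∈ I, g ξ = ξ := by
    intro ξ hξ g hg
    have hξ0 : ξ ≠ 0 := by
      rintro rfl
      rw [zero_pow hn0] at hξ
      exact zero_ne_one hξ
    have hξn : ‖ξ‖ = 1 :=
      (pow_eq_one_iff_of_nonneg (norm_nonneg _) hn0).1 (by rw [← norm_pow, hξ, norm_one])
    have h1 := (hI g).1 hg ξ hξn.le
    have h2 : (g ξ / ξ) ^ n = 1 := by rw [div_pow, ← map_pow, hξ, map_one, div_one]
    have h3 : ‖g ξ / ξ - 1‖ < 1 := by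
      rw [div_sub_one hξ0, norm_div, hξn, div_one]
      exact h1
    have h4 := towX_root hnN h2 h3
    rwa [div_eq_one_iff_eq hξ0] at h4
  have hprim : ∀ l : ℕ, l.Prime → l ≤ F.natDegree → l ≠ p →
      ∃ ξ : N, IsPrimitiveRoot ξ l ∧ ∀ g ∈ I, g ξ = ξ := by
    intro l hl hle hlp
    have hlT : l ∈ T := Finset.mem_filter.2 ⟨Finset.mem_range.2 (by omega), hl, hlp⟩
    have hln : l ∣ n := Finset.dvd_prod_of_mem _ hlT
    have hlW : (l : W) ≠ 0 := Nat.cast_ne_zero.2 hl.ne_zero
    have : NeZero (l : W) := ⟨hlW⟩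
    have : NeZero l := ⟨hl.ne_zero⟩
    obtain ⟨ξ, hξ⟩ := HasEnoughRootsOfUnity.exists_primitiveRoot W l
    have hξn : ξ ^ n = 1 := (hξ.pow_eq_one_iff_dvd n).2 hln
    have hξN : ξ ∈ N := by
      apply hmem
      rw [map_mul, hQ, map_sub, map_pow, Polynomial.aeval_X, Polynomial.aeval_C, map_one, hξn,
        sub_self, mul_zero]
    have hp1 : IsPrimitiveRoot (⟨ξ, hξN⟩ : N) l :=
      IsPrimitiveRoot.of_map_of_injective (f := algebraMap N W) hξ (algebraMap N W).injective
    exact ⟨⟨ξ, hξN⟩, hp1, fun g hg => hfix _ (Subtype.ext hξn) g hg⟩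
  have hcardI : ∀ l : ℕ, l.Prime → l ∣ Nat.card I → l ≤ F.natDegree := by
    intro l hl hd
    have : Fact l.Prime := ⟨hl⟩
    obtain ⟨g, hg⟩ := exists_prime_orderOf_dvd_card' (G := I) l hd
    have hg' : orderOf (g : N ≃ₐ[L] N) = l := by
      rw [Subgroup.orderOf_coe]
      exact hg
    by_contra hlt
    have hall : ∀ x : N, Polynomial.aeval x F = 0 → (g : N ≃ₐ[L] N) x = x := by
      intro x hx
      by_contra hne
      exact hlt (towX_order F hF0 (g : N ≃ₐ[L] N) hl hg' hx hne)
    have hone : (g : N ≃ₐ[L] N) = 1 := by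
      have h5 : (g : N ≃ₐ[L] N).toAlgHom = AlgHom.id L N := by
        refine IntermediateField.adjoin_algHom_ext L ?_
        intro x hx
        rw [Polynomial.mem_rootSet] at hx
        obtain ⟨-, hx0⟩ := hx
        have hxN : x ∈ N := hmem x hx0
        rw [map_mul, mul_eq_zero] at hx0
        have hco : ∀ q : Polynomial L, Polynomial.aeval x q = 0 →
            Polynomial.aeval (⟨x, hxN⟩ : N) q = 0 := by
          intro q hq
          apply Subtype.ext
          have h6 : ((Polynomial.aeval (⟨x, hxN⟩ : N) q : N) : W) = Polynomial.aeval x q := by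
            rw [← IntermediateField.coe_val, ← Polynomial.aeval_algHom_apply]
            rfl
          rw [h6, hq]
          rfl
        rcases hx0 with hx0 | hx0
        · exact hall _ (hco F hx0)
        · refine hfix _ ?_ _ g.2
          have h6 := hco Q hx0
          rw [hQ, map_sub, map_pow, Polynomial.aeval_X, Polynomial.aeval_C, map_one,
            sub_eq_zero] at h6
          exact h6
      exact AlgEquiv.ext fun y => DFunLike.congr_fun h5 y
    rw [hone, orderOf_one] at hg'
    exact hl.one_lt.ne hg'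
  have hroots : ∀ G' : Subgroup (N ≃ₐ[L] N), G' ≤ I → ∀ l : ℕ, l.Prime → l ∣ Nat.card G' →
      l ≠ p → ∃ ζ ∈ IntermediateField.fixedField G', IsPrimitiveRoot ζ l := by
    intro G' hG' l hl hd hlp
    obtain ⟨ξ, hξ, hξI⟩ := hprim l hl
      (hcardI l hl (hd.trans (Subgroup.card_dvd_of_le hG'))) hlp
    refine ⟨ξ, ?_, hξ⟩
    rw [IntermediateField.mem_fixedField_iff]
    exact fun g hg => hξI g (hG' hg)
  -- one step keeps completeness
  have hcomp : ∀ (D : IntermediateField L N) (w : N) (P : Polynomial (TwX N D)),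
      P ≠ 0 → Polynomial.aeval (w : W) P = 0 →
      IsComplete ((TwX N D : IntermediateField E W) : Set W) →
      IsComplete ((TwX N D ⊔ IntermediateField.adjoin E {(w : W)} :
        IntermediateField E W) : Set W) := by
    intro D w P hP hw hc
    refine isComplete_sup hc ?_ _ ⟨P, hP, hw⟩
    obtain ⟨z, hz, hz0, hz1⟩ := hnt
    exact ⟨z, towX_le N D hz, hz0, hz1⟩
  have hstep : ∀ (D : IntermediateField L N) (w : N),
      TwX N (D ⊔ IntermediateField.adjoin L {w}) =
        TwX N D ⊔ IntermediateField.adjoin E {(w : W)} := by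
    intro D w
    rw [towX_sup, Set.image_singleton]
  -- the inertia field
  have hIfix : (IntermediateField.adjoin L {z}).fixingSubgroup = I := by
    ext g
    constructor
    · intro hg
      have h1 : g z = z := (IntermediateField.mem_fixingSubgroup_iff _ g).1 hg z
        (IntermediateField.subset_adjoin _ _ rfl)
      by_contra hgI
      have h2 := hzn g hgI
      rw [h1, sub_self, norm_zero] at h2
      exact zero_ne_one h2
    · intro hg
      have h1 : IntermediateField.adjoin L {z} ≤ IntermediateField.fixedField I := by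
        rw [IntermediateField.adjoin_le_iff]
        rintro _ rfl
        rw [SetLike.mem_coe, IntermediateField.mem_fixedField_iff]
        exact hzI
      exact (IntermediateField.le_iff_le _ _).1 h1 hg
  have hfixI : IntermediateField.fixedField I = IntermediateField.adjoin L {z} := by
    rw [← hIfix]
    exact IsGalois.fixedField_fixingSubgroup _
  have hTI : TwX N (IntermediateField.fixedField I) =
      L ⊔ IntermediateField.adjoin E {(z : W)} := by
    rw [hfixI]
    have h1 := hstep ⊥ z
    rw [bot_sup_eq, towX_bot] at h1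
    exact h1
  have hdist : ∀ σ : N ≃ₐ[L] N, σ z ≠ z → ‖((σ z : N) : W) - (z : W)‖ = 1 := by
    intro σ hσ
    exact hzn σ fun hI' => hσ (hzI σ hI')
  have hconj : ∀ σ : N ≃ₐ[L] N, ((σ z : N) : W) ∈
      L ⊔ IntermediateField.adjoin E {(z : W)} := by
    intro σ
    rw [← hTI]
    refine towX_mem.mpr ⟨σ z, ?_, rfl⟩
    rw [IntermediateField.mem_fixedField_iff]
    intro g hg
    have h1 := hzI _ (hIn.conj_mem g hg σ⁻¹)
    rw [inv_inv] at h1
    have h2 : g (σ z) = σ ((σ⁻¹ * g * σ) z) := by
      rw [← AlgEquiv.mul_apply, ← AlgEquiv.mul_apply]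
      congr 1
      group
    rw [h2, h1]
  have hzalg : IsAlgebraic L (z : W) :=
    (Algebra.IsAlgebraic.isAlgebraic (R := L) z).algebraMap (A := W)
  -- (a)
  have hbaseI : IsComplete ((TwX N (IntermediateField.fixedField I) :
      IntermediateField E W) : Set W) ∧ HasCh S r (TwX N (IntermediateField.fixedField I)) := by
    rw [hTI]
    refine ⟨isComplete_sup hL hnt _ hzalg, ?_⟩
    obtain ⟨f, hf, hfm, h0, h1⟩ := towX_unr L N z hz1 (fun σ => hiso σ z) hdist
    exact unr_stepX hr hA hL h f hfm hf h0 h1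
  -- (b) Kummer steps up
  have hK : ∀ D : IntermediateField L N, Relation.ReflTransGen
      (fun D D' : IntermediateField L N => ∃ l : ℕ, l.Prime ∧ l ≠ p ∧ KStepX l D D')
      (IntermediateField.fixedField I) D →
      IsComplete ((TwX N D : IntermediateField E W) : Set W) ∧ HasCh S r (TwX N D) := by
    intro D hD
    induction hD with
    | refl => exact hbaseI
    | tail _ hs ih =>
      obtain ⟨l, hl, hlp, w, ζ, hw, -, -, rfl⟩ := hs
      rename_i D1 _
      have hwl : (w : W) ^ l ∈ TwX N D1 := towX_mem.mpr ⟨w ^ l, hw, rfl⟩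
      rw [hstep]
      refine ⟨hcomp D1 w (Polynomial.X ^ l - Polynomial.C ⟨_, hwl⟩)
        (Polynomial.X_pow_sub_C_ne_zero hl.pos _) (by simp) ih.1, ?_⟩
      exact kummer_stepX hA ih.1 ih.2 hl hlp hwl
  -- (c) steps of degree `p` up
  have hAS : ∀ D0 D : IntermediateField L N, Relation.ReflTransGen (KStepX (A := L) (N := N) p)
      D0 D → IsComplete ((TwX N D0 : IntermediateField E W) : Set W) →
      HasCh S r (TwX N D0) →
      IsComplete ((TwX N D : IntermediateField E W) : Set W) ∧ HasCh S r (TwX N D) := by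
    intro D0 D hD hc hch
    induction hD with
    | refl => exact ⟨hc, hch⟩
    | tail _ hs ih =>
      obtain ⟨w, ζ, hw, hζ, hζpr, rfl⟩ := hs
      rename_i D1 _
      have hwl : (w : W) ^ p ∈ TwX N D1 := towX_mem.mpr ⟨w ^ p, hw, rfl⟩
      rw [hstep]
      refine ⟨hcomp D1 w (Polynomial.X ^ p - Polynomial.C ⟨_, hwl⟩)
        (Polynomial.X_pow_sub_C_ne_zero hp.pos _) (by simp) ih.1, ?_⟩
      exact hps _ (w : W) (ζ : W) ih.1 ih.2 (towX_mem.mpr ⟨ζ, hζ, rfl⟩)
        (hζpr.map_of_injective (f := algebraMap N W) (algebraMap N W).injective) hwl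
  -- the group `P` fixes the `p`-th roots of unity
  have hζP : ∃ ζ ∈ IntermediateField.fixedField P, IsPrimitiveRoot ζ p := by
    have hp1 : IsPrimitiveRoot (⟨ζp, hζN⟩ : N) p :=
      IsPrimitiveRoot.of_map_of_injective (f := algebraMap N W) hζp (algebraMap N W).injective
    refine ⟨⟨ζp, hζN⟩, ?_, hp1⟩
    rw [IntermediateField.mem_fixedField_iff]
    intro g hg
    exact towX_fix p hp1 P hPp hg
  -- the subgroup of `L'`
  set L' : IntermediateField L N := IntermediateField.adjoin L {w : N | (w : W) ∈ G} with hL'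
  set U : Subgroup (N ≃ₐ[L] N) := L'.fixingSubgroup with hU
  have hTL' : TwX N L' = L ⊔ IntermediateField.adjoin E (G : Set W) := by
    have h1 : L' = ⊥ ⊔ IntermediateField.adjoin L {w : N | (w : W) ∈ G} := by
      rw [bot_sup_eq]
    rw [h1, towX_sup, towX_bot]
    congr 2
    ext z
    constructor
    · rintro ⟨w, hw, rfl⟩
      exact hw
    · intro hz
      exact ⟨⟨z, hGN z hz⟩, hz, rfl⟩
  have hbase := hK _ (kstep_chainX p P I hPI (hroots I le_rfl) hPc hPi)
  have hPU := hAS _ _ (pstep_chainX p (P ⊓ U) P inf_le_left hPp hζP) hbase.1 hbase.2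
  -- (d) Kummer steps down
  have hindex : (P ⊓ U).relIndex (I ⊓ U) ∣ P.relIndex I := by
    have h1 : (P ⊓ U).relIndex (I ⊓ U) = P.relIndex (I ⊓ U) := by
      rw [← Subgroup.inf_relIndex_right P (I ⊓ U)]
      congr 1
      rw [← inf_assoc, inf_eq_left.2 hPI]
    have h2 : (P.subgroupOf I).Normal := Subgroup.normal_subgroupOf
    have h3 := Subgroup.relIndex_dvd_index_of_normal (P.subgroupOf I) ((I ⊓ U).subgroupOf I)
    rw [Subgroup.relIndex_subgroupOf inf_le_left] at h3
    rw [h1]
    exact h3
  have hchain := kstep_chainX p (P ⊓ U) (I ⊓ U) (inf_le_inf_right U hPI)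
    (hroots (I ⊓ U) inf_le_left)
    (fun g hg h hh => ⟨hPc g hg.1 h hh.1, U.mul_mem (U.mul_mem (U.mul_mem hg.2 hh.2)
      (U.inv_mem hg.2)) (U.inv_mem hh.2)⟩)
    (Nat.Coprime.coprime_dvd_right hindex hPi)
  have hdown : ∀ D : IntermediateField L N, Relation.ReflTransGen
      (fun D D' : IntermediateField L N => ∃ l : ℕ, l.Prime ∧ l ≠ p ∧ KStepX l D D') D
      (IntermediateField.fixedField (P ⊓ U)) → TTower S r p (TwX N D) := by
    intro D hD
    induction hD using Relation.ReflTransGen.head_induction_on with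
    | refl => exact TTower.base _ hPU.2
    | head hs _ ih =>
      obtain ⟨l, hl, hlp, w, ζ, hw, hζ, hζl, rfl⟩ := hs
      refine TTower.kstep _ l (w : W) (ζ : W) hl hlp (towX_mem.mpr ⟨w ^ l, hw, rfl⟩)
        (towX_mem.mpr ⟨ζ, hζ, rfl⟩)
        (hζl.map_of_injective (f := algebraMap N W) (algebraMap N W).injective) ?_
      rw [← hstep]
      exact ih
  -- (e) the unramified step
  have hLU : IntermediateField.fixedField (I ⊓ U) = L' ⊔ IntermediateField.adjoin L {z} := by
    rw [← IsGalois.fixedField_fixingSubgroup (L' ⊔ IntermediateField.adjoin L {z}),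
      IntermediateField.fixingSubgroup_sup, hIfix, inf_comm]
  have hfin := hdown _ hchain
  rw [hLU, hstep] at hfin
  rw [← hTL']
  exact TTower.ustep _ _
    (towX_ustep L (TwX N L') (towX_le N L') N z hz1 hconj hdist) hfin

end Pool.Agent.Lib.MX
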