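import Pool.Agent.Lib.MX.DescX
import Pool.Agent.Lib.MX.TowX

set_option autoImplicit false

/-!
# Module MX.MainT: finite extensions of a field with a chart have a chart

`hasCh_finset0`: `c` the chart of `L`; `F0 := Fr E c ≤ S`, `F0 ≤ L`, `S` is algebraic over `F0` (`Gd`); `towX`, `desc_allX` for `L ⊔ E(G)`, complete by `isComplete_sup_finset`.
-/

namespace Pool.Agent.Lib.MX

open Pool.Agent.Lib.MP_3029eb_ag Pool.Agent.Lib.MP_3029eb_ag.Abh Pool.Agent.Lib.TDO

private theorem isAlgebraic_if_mono {E W : Type} [Field E] [Field W] [Algebra E W]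
    {L L' : IntermediateField E W} (h : L ≤ L') {z : W} (hz : IsAlgebraic L z) :
    IsAlgebraic L' z := by
  obtain ⟨P, hP0, hP⟩ := hz
  refine ⟨P.map (IntermediateField.inclusion h).toRingHom, ?_, ?_⟩
  · rw [Ne, Polynomial.map_eq_zero_iff (RingHom.injective _)]
    exact hP0
  · rw [Polynomial.aeval_def, Polynomial.eval₂_map]
    rw [Polynomial.aeval_def] at hP
    rw [← hP]
    rfl

private theorem isAlgebraic_of_subring {E W : Type} [Field E] [Field W] [Algebra E W]
    {A : Subring W} {L : IntermediateField E W} (h : ∀ z ∈ A, z ∈ L) {z : W}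
    (hz : IsAlgebraic A z) : IsAlgebraic L z := by
  obtain ⟨P, hP0, hP⟩ := hz
  let f : A →+* L :=
    { toFun := fun a => ⟨(a : W), h a a.2⟩
      map_one' := rfl
      map_mul' := fun _ _ => rfl
      map_zero' := rfl
      map_add' := fun _ _ => rfl }
  have hf : Function.Injective f := fun a b hab => by
    apply Subtype.ext
    exact congrArg (fun u : L => (u : W)) hab
  refine ⟨P.map f, ?_, ?_⟩
  · rw [Ne, Polynomial.map_eq_zero_iff hf]
    exact hP0
  · rw [Polynomial.aeval_def, Polynomial.eval₂_map]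
    rw [Polynomial.aeval_def] at hP
    rw [← hP]
    rfl

theorem hasCh_finset0 {E W : Type} [Field E] [NontriviallyNormedField W] [IsUltrametricDist W]
    [Algebra E W] [IsAlgClosed W] {p r : ℕ} (hr : 0 < r) {S : IntermediateField E W}
    (hA : AmbX p r S)
    (hps : ∀ (L : IntermediateField E W) (t ζ : W), IsComplete (L : Set W) → HasCh S r L →
      ζ ∈ L → IsPrimitiveRoot ζ p → t ^ p ∈ L →
        HasCh S r (L ⊔ IntermediateField.adjoin E {t}))
    {L : IntermediateField E W} (hL : IsComplete (L : Set W)) (halg : ∀ z : W, IsAlgebraic L z)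
    (h : HasCh S r L) (G : Finset W) :
    HasCh S r (L ⊔ IntermediateField.adjoin E (G : Set W)) := by
  obtain ⟨c, hc⟩ := h
  have hFS : Fr E c ≤ S := IntermediateField.adjoin_le_iff.2 fun z hz => hc.gd.mem_S hz
  obtain ⟨x1, hx1, hg1⟩ := hc.gd.ex
  have hBF : ∀ z ∈ c.B, z ∈ Fr E c := fun z hz => IntermediateField.subset_adjoin E _ hz
  have hx1F : ∀ i, x1 i ∈ Fr E c := by
    intro i
    obtain ⟨A, B, -, hB, -⟩ := hx1.mat
    rw [hB i]
    exact prod_mem fun j _ => zpow_mem (hBF _ (hc.gd.xB j)) _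
  have hBx : ∀ z ∈ Bx c.B x1, z ∈ Fr E c := by
    intro z hz
    exact Bx_le (Fr E c).toSubfield.toSubring hBF hx1F (fun u hu _ => (Fr E c).inv_mem hu) hz
  have hSF : ∀ z ∈ S, IsAlgebraic (Fr E c) z := fun z hz =>
    isAlgebraic_of_subring hBx (hg1.alg z hz)
  have hle : L ≤ L ⊔ IntermediateField.adjoin E (G : Set W) := le_sup_left
  have hnt : ∃ z ∈ L, z ≠ 0 ∧ ‖z‖ < 1 := by
    have := hA.char0
    exact ⟨(p : W), natCast_mem L p, Nat.cast_ne_zero.2 hA.prime.ne_zero, hA.p1⟩
  exact desc_allX hr hA hFS hSF (hc.le.trans hle)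
    (isComplete_sup_finset hL hnt G fun θ _ => halg θ)
    (fun z => isAlgebraic_if_mono hle (halg z))
    (towX hr hA hps hL ⟨c, hc⟩ G fun θ _ => halg θ)

end Pool.Agent.Lib.MX
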