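import Pool.Agent.Lib.MX.PBas
import Pool.Agent.Lib.MX.KumX

set_option autoImplicit false

/-!
# Module MX.PAS: the case `‖t ^ p - 1‖ ≤ ‖ζ - 1‖ ^ p` of the `p`-step (paper 5.0)

Write `lam := ζ - 1`, `f := t^p = 1 + g`.
`p_small` (`‖g‖ < ‖lam‖^p`): `p_hensel`: `t^p = (1 + lam u)^p`, `1 + lam u ∈ L`, so `t = (1 + lam u) ζ^i ∈ L`, `L ⊔ E(t) = L`.
`p_as` (`‖g‖ ≤ ‖lam‖^p`): Suppose `t ∉ L`.  `s := (t - 1) / lam` is a root of `h(T) = ((1 + lam T)^p - 1) / lam^p - v`, `v := g / lam^p ∈ L`, `‖v‖ ≤ 1`; `h` is monic, its coefficients have norm `≤ 1` and `h` is residually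
`T^p - T - rs v` (`lam_coeff`, `lam_unit`).  `‖s‖ ≤ 1`.  First approximate: choose `f' ∈ Fr E c` with `‖f - f'‖ < ‖lam‖^p` (`Ch.approx`), `f = f' (1 + z)`, `z ∈ L`, `‖z‖ < ‖lam‖^p`, `p_hensel`: replace `t` by
`t / (1 + lam u)`: we may assume `g ∈ Fr E c` (`‖g‖ ≤ ‖lam‖^p` still holds).  `m_all` with `Z := {lam, p} ∪ ({v} \ {0})` (`lam ∈ S ∩ L`): a chart `c1` of `L` (`v ∈ Fr E c1`, `MoH`): `v ∈ HO c1`,
`p / lam^(p-1) ∈ HO c1`, `lam ∈ HO c1`; pass to a basis change (`exists_model` or `Gd.ex`, `Gs.bx`): `c2` strictly good with the coefficients of `h` in `c2.B`.  `κ := kap c2.B`, `g1 := X^p - X - rs v` over `κ`.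
If `g1` has a root in `κ`, `rs b`, `b ∈ c2.B`: `‖h(b)‖ < 1`, `‖h'(b)‖ = 1` (`h' = -1` residually): `henselU`: a root of `h` in `L`, `b'`: `(1 + lam b')^p = 1 + g = t^p`, so `t ∈ L`.
If not: `g1` is irreducible (Artin-Schreier polynomial over a field of characteristic `p` without roots: Mathlib `Polynomial.X_pow_sub_X_sub_C_irreducible..` or argue: the roots in a splitting field are `a + i`, the
sum of the roots of a factor of degree `d` is `d a + i`).  `good_ext` with `w := s`, `g := g1`, `G := h`, `Z := ∅`, `x' := c2.x`, `y' := c2.y`: `c3 := ⟨locV (closure (c2.B ∪ {s})), c2.x, c2.y⟩` strictly good,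
`Fr E c3 = Fr E c2 ⊔ E(s) = Fr E c2 ⊔ E(t)` (`lam ∈ Fr E c2`), `ext_dense`.
-/

namespace Pool.Agent.Lib.MX

open Pool.Agent.Lib.MP_3029eb_ag Pool.Agent.Lib.MP_3029eb_ag.Abh Pool.Agent.Lib.TDO
open Pool.Agent.Lib.TU (Mt)

variable {E W : Type} [Field E] [NormedField W] [IsUltrametricDist W] [Algebra E W] {p r : ℕ}
  {S : IntermediateField E W}

private theorem pas_fr_locV (B : Subring W) (X : Set W) :
    IntermediateField.adjoin E
        ((locV (ball W) (Subring.closure ((B : Set W) ∪ X)) : Subring W) : Set W) =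
      IntermediateField.adjoin E (B : Set W) ⊔ IntermediateField.adjoin E X := by
  set M : IntermediateField E W :=
    IntermediateField.adjoin E (B : Set W) ⊔ IntermediateField.adjoin E X with hM
  have hBM : ∀ z ∈ B, z ∈ M := fun z hz =>
    (le_sup_left : _ ≤ M) (IntermediateField.subset_adjoin E _ hz)
  have hXM : ∀ z ∈ X, z ∈ M := fun z hz =>
    (le_sup_right : _ ≤ M) (IntermediateField.subset_adjoin E _ hz)
  have hcl : Subring.closure ((B : Set W) ∪ X) ≤ M.toSubfield.toSubring := by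
    rw [Subring.closure_le]
    rintro z (hz | hz)
    · exact hBM z hz
    · exact hXM z hz
  apply le_antisymm
  · rw [IntermediateField.adjoin_le_iff]
    intro z hz
    obtain ⟨a, ha, b, hb, hb1, h⟩ := mem_locB.1 hz
    have hb0 : b ≠ 0 := by
      rintro rfl
      rw [norm_zero] at hb1
      exact zero_ne_one hb1
    have h2 : z = a / b := by rw [← h, mul_div_cancel_right₀ _ hb0]
    rw [h2]
    exact div_mem (hcl ha) (hcl hb)
  · refine sup_le (IntermediateField.adjoin.mono E _ _ fun z hz => ?_)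
      (IntermediateField.adjoin.mono E _ _ fun z hz => ?_)
    · exact le_locV _ _ (Subring.subset_closure (Or.inl hz))
    · exact le_locV _ _ (Subring.subset_closure (Or.inr hz))

omit [IsUltrametricDist W] in
private theorem pas_sup_div (L : IntermediateField E W) {w t : W} (ht : t ∈ L) (ht0 : t ≠ 0) :
    L ⊔ IntermediateField.adjoin E {w / t} = L ⊔ IntermediateField.adjoin E {w} := by
  apply le_antisymm
  · refine sup_le le_sup_left ?_
    rw [IntermediateField.adjoin_simple_le_iff]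
    exact div_mem ((le_sup_right : _ ≤ L ⊔ IntermediateField.adjoin E {w})
      (IntermediateField.mem_adjoin_simple_self E w))
      ((le_sup_left : L ≤ L ⊔ IntermediateField.adjoin E {w}) ht)
  · refine sup_le le_sup_left ?_
    rw [IntermediateField.adjoin_simple_le_iff]
    have h1 : w = (w / t) * t := by field_simp
    have h2 : (w / t) * t ∈ L ⊔ IntermediateField.adjoin E {w / t} :=
      mul_mem ((le_sup_right : _ ≤ L ⊔ IntermediateField.adjoin E {w / t})
        (IntermediateField.mem_adjoin_simple_self E _))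
        ((le_sup_left : L ≤ L ⊔ IntermediateField.adjoin E {w / t}) ht)
    rwa [← h1] at h2

omit [IsUltrametricDist W] in
private theorem pas_sup_sub (L : IntermediateField E W) {w : W} :
    L ⊔ IntermediateField.adjoin E {w - 1} = L ⊔ IntermediateField.adjoin E {w} := by
  apply le_antisymm
  · refine sup_le le_sup_left ?_
    rw [IntermediateField.adjoin_simple_le_iff]
    exact sub_mem ((le_sup_right : _ ≤ L ⊔ IntermediateField.adjoin E {w})
      (IntermediateField.mem_adjoin_simple_self E w)) (one_mem _)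
  · refine sup_le le_sup_left ?_
    rw [IntermediateField.adjoin_simple_le_iff]
    have h1 : w = (w - 1) + 1 := by ring
    have h2 : (w - 1) + 1 ∈ L ⊔ IntermediateField.adjoin E {w - 1} :=
      add_mem ((le_sup_right : _ ≤ L ⊔ IntermediateField.adjoin E {w - 1})
        (IntermediateField.mem_adjoin_simple_self E _)) (one_mem _)
    rwa [← h1] at h2

private theorem pas_fr_bx {c : Tri W r} (hc : Gd S c) {x' : Fin r → W} (hx : Mt c.x x') :
    Fr E (⟨Bx c.B x', x', c.y⟩ : Tri W r) = Fr E c := by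
  apply le_antisymm
  · change IntermediateField.adjoin E ((Bx c.B x' : Subring W) : Set W) ≤ _
    rw [IntermediateField.adjoin_le_iff]
    intro z hz
    exact HO_mem_Fr hc (Bx_mem_HO hc hx hz)
  · change IntermediateField.adjoin E (c.B : Set W) ≤
      IntermediateField.adjoin E ((Bx c.B x' : Subring W) : Set W)
    exact IntermediateField.adjoin.mono E _ _ fun z hz => le_Bx hz

private theorem pas_fr_S {c : Tri W r} (hc : Gd S c) {z : W} (hz : z ∈ Fr E c) : z ∈ S := by
  obtain ⟨a, ha, b, hb, hb0, h⟩ := (mem_Fr_iff hc z).1 hz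
  have h2 : z = a / b := by rw [← h, mul_div_cancel_right₀ _ hb0]
  rw [h2]
  exact div_mem (hc.mem_S ha) (hc.mem_S hb)

/-- expansion of a `p`-th power -/
private theorem pas_pow (hp : p.Prime) {x : W} (hx : ‖x‖ ≤ 1) :
    ‖(1 + x) ^ p - 1 - x ^ p‖ ≤ ‖(p : W)‖ * ‖x‖ := by
  have h1 : (1 + x) ^ p = ∑ m ∈ Finset.range (p + 1), x ^ m * (p.choose m : W) := by
    rw [add_comm, add_pow]
    exact Finset.sum_congr rfl fun m _ => by rw [one_pow, mul_one]
  have h2 : (1 + x) ^ p - 1 - x ^ p = ∑ m ∈ Finset.Ioo 0 p, x ^ m * (p.choose m : W) := by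
    rw [h1, Finset.sum_range_succ, Nat.choose_self, Nat.cast_one, mul_one]
    have h3 : Finset.range p = insert 0 (Finset.Ioo 0 p) := by
      ext m
      simp only [Finset.mem_range, Finset.mem_insert, Finset.mem_Ioo]
      have := hp.pos
      omega
    rw [h3, Finset.sum_insert (by simp), Nat.choose_zero_right, pow_zero, one_mul, Nat.cast_one]
    ring
  rw [h2]
  refine IsUltrametricDist.norm_sum_le_of_forall_le_of_nonneg
    (mul_nonneg (norm_nonneg _) (norm_nonneg _)) fun m hm => ?_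
  rw [Finset.mem_Ioo] at hm
  obtain ⟨q, hq⟩ := hp.dvd_choose_self hm.1.ne' hm.2
  rw [hq, Nat.cast_mul, norm_mul, norm_mul, norm_pow]
  have h5 : ‖((q : ℕ) : W)‖ ≤ 1 := IsUltrametricDist.norm_natCast_le_one W q
  have h6 : ‖x‖ ^ m ≤ ‖x‖ := pow_le_of_le_one (norm_nonneg _) hx hm.1.ne'
  calc ‖x‖ ^ m * (‖((p : ℕ) : W)‖ * ‖((q : ℕ) : W)‖)
      ≤ ‖x‖ * (‖((p : ℕ) : W)‖ * 1) := by gcongr
    _ = ‖(p : W)‖ * ‖x‖ := by ring

/-- a root of norm at most `‖lam‖` -/
private theorem pas_le (hp : p.Prime) {x : W} {a : ℝ} (ha : 0 ≤ a) (hpa : a ^ (p - 1) = ‖(p : W)‖)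
    (hx : ‖x‖ ≤ 1) (h : ‖(1 + x) ^ p - 1‖ ≤ a ^ p) : ‖x‖ ≤ a := by
  by_contra hcon
  rw [not_le] at hcon
  have h1 := pas_pow hp hx
  rw [← hpa] at h1
  have e : x ^ p = ((1 + x) ^ p - 1) + -((1 + x) ^ p - 1 - x ^ p) := by ring
  have h2 : ‖x‖ ^ p ≤ max (a ^ p) (a ^ (p - 1) * ‖x‖) := by
    rw [← norm_pow, e]
    refine (IsUltrametricDist.norm_add_le_max _ _).trans (max_le_max h ?_)
    rw [norm_neg]
    exact h1
  have h3 : a ^ p < ‖x‖ ^ p := pow_lt_pow_left₀ hcon ha hp.ne_zero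
  have h4 : a ^ (p - 1) * ‖x‖ < ‖x‖ ^ p := by
    have h5 : a ^ (p - 1) < ‖x‖ ^ (p - 1) := pow_lt_pow_left₀ hcon ha (by have := hp.two_le; omega)
    have h6 : ‖x‖ ^ p = ‖x‖ ^ (p - 1) * ‖x‖ := by
      rw [← pow_succ, Nat.sub_add_cancel hp.one_le]
    rw [h6]
    exact mul_lt_mul_of_pos_right h5 (ha.trans_lt hcon)
  exact absurd h2 (not_le.2 (max_lt h3 h4))

/-- the polynomial `((1 + lam T) ^ p - 1) / lam ^ p - v` -/
private noncomputable def pasPol (p : ℕ) (lam v : W) : Polynomial W :=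
  Polynomial.C (lam ^ p)⁻¹ *
    (((1 + Polynomial.X : Polynomial W) ^ p).comp (Polynomial.C lam * Polynomial.X) - 1) -
    Polynomial.C v

omit [IsUltrametricDist W] in
private theorem pas_coeff (hp : p.Prime) {lam v : W} (hl : lam ≠ 0) (B : Subring W)
    (hlB : lam ∈ B) (hq : (p : W) / lam ^ (p - 1) ∈ B) (hv : v ∈ B) (j : ℕ) :
    (pasPol p lam v).coeff j ∈ B := by
  have hl' : ∀ n, lam ^ n ≠ 0 := fun n => pow_ne_zero n hl
  unfold pasPol
  rw [Polynomial.coeff_sub, Polynomial.coeff_C_mul, Polynomial.coeff_sub,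
    Polynomial.comp_C_mul_X_coeff, Polynomial.coeff_one_add_X_pow, Polynomial.coeff_one,
    Polynomial.coeff_C]
  rcases Nat.eq_zero_or_pos j with rfl | hj
  · rw [if_pos rfl, if_pos rfl, Nat.choose_zero_right, Nat.cast_one, pow_zero, mul_one, sub_self,
      mul_zero, zero_sub]
    exact neg_mem hv
  · rw [if_neg hj.ne', if_neg hj.ne', sub_zero, sub_zero]
    rcases lt_trichotomy j p with hjp | rfl | hjp
    · obtain ⟨m, hm⟩ := hp.dvd_choose_self hj.ne' hjp
      obtain ⟨k, rfl⟩ : ∃ k, j = k + 1 := ⟨j - 1, by omega⟩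
      have hpp : lam ^ p = lam ^ (p - 1) * lam := by
        rw [← pow_succ, Nat.sub_add_cancel hp.one_le]
      have e : (lam ^ p)⁻¹ * ((p.choose (k + 1) : W) * lam ^ (k + 1)) =
          ((p : W) / lam ^ (p - 1)) * ((m : W) * lam ^ k) := by
        rw [hm, Nat.cast_mul, hpp]
        have := hl' (p - 1)
        field_simp
        ring
      rw [e]
      exact mul_mem hq (mul_mem (natCast_mem B m) (pow_mem hlB k))
    · rw [Nat.choose_self, Nat.cast_one, one_mul, inv_mul_cancel₀ (hl' _)]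
      exact one_mem B
    · rw [Nat.choose_eq_zero_of_lt hjp, Nat.cast_zero, zero_mul, mul_zero]
      exact zero_mem B

omit [IsUltrametricDist W] in
private theorem pas_eval {lam v s : W} :
    (pasPol p lam v).eval s = (lam ^ p)⁻¹ * ((1 + lam * s) ^ p - 1) - v := by
  unfold pasPol
  rw [Polynomial.eval_sub, Polynomial.eval_C, Polynomial.eval_mul, Polynomial.eval_C,
    Polynomial.eval_sub, Polynomial.eval_one, Polynomial.eval_comp, Polynomial.eval_mul,
    Polynomial.eval_C, Polynomial.eval_X, Polynomial.eval_pow, Polynomial.eval_add,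
    Polynomial.eval_one, Polynomial.eval_X]

omit [IsUltrametricDist W] in
private theorem pas_deriv {lam v s : W} :
    (pasPol p lam v).derivative.eval s =
      (lam ^ p)⁻¹ * (lam * ((p : W) * (1 + lam * s) ^ (p - 1))) := by
  unfold pasPol
  rw [Polynomial.derivative_sub, Polynomial.derivative_C, sub_zero, Polynomial.derivative_C_mul,
    Polynomial.derivative_sub, Polynomial.derivative_one, sub_zero, Polynomial.derivative_comp,
    Polynomial.derivative_C_mul, Polynomial.derivative_X, mul_one, Polynomial.derivative_pow,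
    Polynomial.derivative_add, Polynomial.derivative_one, zero_add, Polynomial.derivative_X,
    mul_one]
  simp only [Polynomial.eval_mul, Polynomial.eval_C, Polynomial.eval_comp, Polynomial.eval_pow,
    Polynomial.eval_add, Polynomial.eval_one, Polynomial.eval_X]

theorem p_small (hA : AmbX p r S) {L : IntermediateField E W} (hL : IsComplete (L : Set W))
    {ζ t : W} (hζL : ζ ∈ L) (hζ : IsPrimitiveRoot ζ p) (ht : t ^ p ∈ L)
    (h1 : ‖t ^ p - 1‖ < ‖ζ - 1‖ ^ p) : t ∈ L := by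
  obtain ⟨u, hu, -, h⟩ := p_hensel hA.prime hA.p1 hL hζL hζ (z := t ^ p - 1)
    (sub_mem ht (one_mem L)) h1
  have h2 : (1 + (ζ - 1) * u) ^ p = t ^ p := by rw [h]; ring
  have ha : 1 + (ζ - 1) * u ∈ L :=
    add_mem (one_mem L) (mul_mem (sub_mem hζL (one_mem L)) hu)
  by_cases h0 : 1 + (ζ - 1) * u = 0
  · rw [h0, zero_pow hA.prime.ne_zero] at h2
    rw [pow_eq_zero_iff hA.prime.ne_zero |>.1 h2.symm]
    exact zero_mem L
  · have h3 : (t / (1 + (ζ - 1) * u)) ^ p = 1 := by
      rw [div_pow, h2, div_self]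
      rw [← h2]
      exact pow_ne_zero _ h0
    have : NeZero p := ⟨hA.prime.ne_zero⟩
    obtain ⟨i, -, hi⟩ := hζ.eq_pow_of_pow_eq_one h3
    have h4 : t = ζ ^ i * (1 + (ζ - 1) * u) := by rw [hi, div_mul_cancel₀ _ h0]
    rw [h4]
    exact mul_mem (pow_mem hζL i) ha

theorem p_as (hr : 0 < r) (hA : AmbX p r S) {L : IntermediateField E W}
    (hL : IsComplete (L : Set W)) (h : HasCh S r L) {ζ t : W} (hζL : ζ ∈ L)
    (hζ : IsPrimitiveRoot ζ p) (ht : t ^ p ∈ L) (h1 : ‖t ^ p - 1‖ ≤ ‖ζ - 1‖ ^ p) :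
    HasCh S r (L ⊔ IntermediateField.adjoin E {t}) := by
  classical
  have hp := hA.prime
  have hp1 := hA.p1
  have hch := hA.char0
  obtain ⟨c₁, hC₁⟩ := h
  set lam : W := ζ - 1 with hlam
  have hlp := lam_pow hp hp1 hζ
  rw [← hlam] at hlp
  have hl0 : lam ≠ 0 := by
    intro h0
    rw [hlam, sub_eq_zero] at h0
    exact hζ.ne_one hp.one_lt h0
  have hln : 0 < ‖lam‖ := norm_pos_iff.2 hl0
  have hl1 : ‖lam‖ < 1 := by
    by_contra hcon
    rw [not_lt] at hcon
    have h2 := one_le_pow₀ (n := p - 1) hcon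
    rw [hlp] at h2
    exact absurd hp1 (not_lt.2 h2)
  have hlL : lam ∈ L := sub_mem hζL (one_mem L)
  have hζS : ζ ∈ S := by
    refine hA.alg ζ (IsAlgebraic.of_pow hp.pos ?_)
    rw [hζ.pow_eq_one]
    exact isAlgebraic_algebraMap (1 : S)
  have hlS : lam ∈ S := sub_mem hζS (one_mem S)
  have hl1p : ‖lam ^ p‖ < 1 := by
    rw [norm_pow]
    exact pow_lt_one₀ (norm_nonneg _) hl1 hp.ne_zero
  have hlpn : 0 < ‖lam ^ p‖ := norm_pos_iff.2 (pow_ne_zero p hl0)
  -- the element `q`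
  set q : W := (p : W) / lam ^ (p - 1) with hq
  have hqn : ‖q‖ = 1 := by
    rw [hq, norm_div, norm_pow, hlp, div_self]
    rw [← hlp]
    exact (pow_pos hln _).ne'
  have hqL : q ∈ L := div_mem (natCast_mem L p) (pow_mem hlL _)
  have hqS : q ∈ S := div_mem (natCast_mem S p) (pow_mem hlS _)
  -- approximation of `v`
  set v₀ : W := (t ^ p - 1) / lam ^ p with hv₀
  have hv₀L : v₀ ∈ L := div_mem (sub_mem ht (one_mem L)) (pow_mem hlL p)
  have hv₀n : ‖v₀‖ ≤ 1 := by
    rw [hv₀, norm_div, div_le_one hlpn, norm_pow]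
    exact h1
  obtain ⟨v, hvF, hvd⟩ := hC₁.approx hv₀L one_pos
  have hvL : v ∈ L := hC₁.le hvF
  have hvS : v ∈ S := pas_fr_S hC₁.gd hvF
  have hvn : ‖v‖ ≤ 1 := by
    have e : v = v₀ + -(v₀ - v) := by ring
    rw [e]
    refine (IsUltrametricDist.norm_add_le_max _ _).trans (max_le hv₀n ?_)
    rw [norm_neg]
    exact hvd.le
  have hlv : ‖lam ^ p * v‖ < 1 := by
    rw [norm_mul]
    exact (mul_le_of_le_one_right (norm_nonneg _) hvn).trans_lt hl1p
  have h1v : ‖1 + lam ^ p * v‖ = 1 := by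
    rw [IsUltrametricDist.norm_add_eq_max_of_norm_ne_norm (by rw [norm_one]; exact hlv.ne'),
      norm_one]
    exact max_eq_left hlv.le
  have h1v0 : 1 + lam ^ p * v ≠ 0 := norm_pos_iff.1 (by rw [h1v]; exact one_pos)
  have hlpvL : 1 + lam ^ p * v ∈ L := add_mem (one_mem L) (mul_mem (pow_mem hlL p) hvL)
  -- the correction
  set z : W := lam ^ p * (v₀ - v) / (1 + lam ^ p * v) with hz
  have hzL : z ∈ L := div_mem (mul_mem (pow_mem hlL p) (sub_mem hv₀L hvL)) hlpvL
  have hzn : ‖z‖ < ‖ζ - 1‖ ^ p := by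
    rw [hz, norm_div, h1v, div_one, norm_mul, ← hlam, ← norm_pow]
    calc ‖lam ^ p‖ * ‖v₀ - v‖ < ‖lam ^ p‖ * 1 := mul_lt_mul_of_pos_left hvd hlpn
      _ = ‖lam ^ p‖ := mul_one _
  obtain ⟨u, huL, hun, hu⟩ := p_hensel hp hp1 hL hζL hζ hzL hzn
  rw [← hlam] at hu
  set a : W := 1 + lam * u with ha
  have haL : a ∈ L := add_mem (one_mem L) (mul_mem hlL huL)
  have hlu : ‖lam * u‖ < 1 := by
    rw [norm_mul]
    exact (mul_le_of_le_one_right (norm_nonneg _) hun.le).trans_lt hl1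
  have han : ‖a‖ = 1 := by
    rw [ha, IsUltrametricDist.norm_add_eq_max_of_norm_ne_norm (by rw [norm_one]; exact hlu.ne'),
      norm_one]
    exact max_eq_left hlu.le
  have ha0 : a ≠ 0 := norm_pos_iff.1 (by rw [han]; exact one_pos)
  have htp : t ^ p = (1 + lam ^ p * v) * (1 + z) := by
    have e1 : t ^ p = 1 + lam ^ p * v₀ := by
      rw [hv₀, mul_div_cancel₀ _ (pow_ne_zero p hl0)]
      ring
    rw [e1, hz, mul_add, mul_one, mul_div_cancel₀ _ h1v0]
    ring
  set t' : W := t / a with ht'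
  have ht'p : t' ^ p = 1 + lam ^ p * v := by
    rw [ht', div_pow, hu, htp, mul_div_cancel_right₀]
    rw [← hu]
    exact pow_ne_zero p ha0
  have hext : L ⊔ IntermediateField.adjoin E {t'} = L ⊔ IntermediateField.adjoin E {t} :=
    pas_sup_div L haL ha0
  rw [← hext]
  have ht'S : t' ∈ S := by
    refine hA.alg t' (IsAlgebraic.of_pow hp.pos ?_)
    rw [ht'p]
    exact isAlgebraic_algebraMap (⟨1 + lam ^ p * v, add_mem (one_mem S)
      (mul_mem (pow_mem hlS p) hvS)⟩ : S)
  have ht'n : ‖t'‖ = 1 := by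
    have h2 : ‖t'‖ ^ p = 1 := by rw [← norm_pow, ht'p, h1v]
    exact (pow_eq_one_iff_of_nonneg (norm_nonneg t') hp.ne_zero).1 h2
  -- the generator
  set s : W := (t' - 1) / lam with hs
  have hls : lam * s = t' - 1 := by rw [hs, mul_div_cancel₀ _ hl0]
  have h1ls : 1 + lam * s = t' := by rw [hls]; ring
  have hsS : s ∈ S := div_mem (sub_mem ht'S (one_mem S)) hlS
  have hsn : ‖s‖ ≤ 1 := by
    have h2 : ‖t' - 1‖ ≤ ‖lam‖ := by
      refine pas_le hp (norm_nonneg _) hlp ?_ ?_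
      · rw [sub_eq_add_neg]
        refine (IsUltrametricDist.norm_add_le_max _ _).trans (max_le ht'n.le ?_)
        rw [norm_neg, norm_one]
      · have e : (1 + (t' - 1)) ^ p - 1 = lam ^ p * v := by
          rw [add_sub_cancel, ht'p]
          ring
        rw [e, norm_mul, norm_pow]
        exact mul_le_of_le_one_right (by positivity) hvn
    rw [hs, norm_div, div_le_one hln]
    exact h2
  have hext2 : L ⊔ IntermediateField.adjoin E {s} = L ⊔ IntermediateField.adjoin E {t'} := by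
    rw [hs, pas_sup_div L hlL hl0, pas_sup_sub]
  rw [← hext2]
  -- the chart
  obtain ⟨c, hC, -, hM⟩ := m_all hA hC₁ (({lam, q, v} : Finset W).filter (· ≠ 0)) (by
    intro z hz
    rw [Finset.mem_filter, Finset.mem_insert, Finset.mem_insert, Finset.mem_singleton] at hz
    rcases hz with ⟨rfl | rfl | rfl, h0⟩
    · exact ⟨hlS, hlL, h0⟩
    · exact ⟨hqS, hqL, h0⟩
    · exact ⟨hvS, hvL, h0⟩)
  have hHO : ∀ z ∈ ({lam, q, v} : Finset W), z ∈ HO c := by
    intro z hz
    by_cases h0 : z = 0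
    · rw [h0]; exact zero_mem _
    · refine (hM z (Finset.mem_filter.2 ⟨hz, h0⟩)).mem_HO hC.gd ?_
      rw [Finset.mem_insert, Finset.mem_insert, Finset.mem_singleton] at hz
      rcases hz with rfl | rfl | rfl
      · exact hl1.le
      · exact hqn.le
      · exact hvn
  obtain ⟨x', hx', hg, hZ, -⟩ := exists_model hC.gd {lam, q, v} hHO ∅
    (fun a ha => absurd ha (Finset.notMem_empty a))
  have hC' : Ch S L (⟨Bx c.B x', x', c.y⟩ : Tri W r) := by
    refine ⟨hg.gd, ?_, ?_⟩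
    · rw [pas_fr_bx hC.gd hx']
      exact hC.le
    · intro z hz
      rw [pas_fr_bx hC.gd hx']
      exact hC.dense z hz
  have hlB : lam ∈ Bx c.B x' := hZ lam (by simp)
  have hqB : q ∈ Bx c.B x' := hZ q (by simp)
  have hvB : v ∈ Bx c.B x' := hZ v (by simp)
  have hG : Gs S (⟨locV (ball W) (Subring.closure ((Bx c.B x' : Set W) ∪ {s})), x', c.y⟩ :
      Tri W r) := by
    refine good_unr (c := (⟨Bx c.B x', x', c.y⟩ : Tri W r)) hg hsS hsn (pasPol p lam v) ?_ ?_ ?_
    · exact pas_coeff hp hl0 _ hlB hqB hvB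
    · rw [pas_eval, h1ls, ht'p]
      have := pow_ne_zero p hl0
      field_simp
      ring
    · rw [pas_deriv, h1ls]
      have hpp : lam ^ p = lam ^ (p - 1) * lam := by
        rw [← pow_succ, Nat.sub_add_cancel hp.one_le]
      have e : (lam ^ p)⁻¹ * (lam * ((p : W) * t' ^ (p - 1))) = q * t' ^ (p - 1) := by
        rw [hpp, hq]
        have := pow_ne_zero (p - 1) hl0
        field_simp
      rw [e, norm_mul, hqn, norm_pow, ht'n, one_pow, mul_one]
  exact ⟨_, ext_dense hC' hG.gd {s} (pas_fr_locV (Bx c.B x') {s})⟩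

end Pool.Agent.Lib.MX
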