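import Pool.Agent.Lib.MX.Defs
import Pool.Agent.Lib.MX.Inert
import Pool.Agent.Lib.TU.HenU

set_option autoImplicit false

/-!
# Module MX.PBas: extensions of degree `p`: first facts (paper section 5)

Write `lam := ζ - 1`.
`lam_pow`: `∏_(0<i<p) (1 - ζ^i) = p`, `‖1 - ζ^i‖ = ‖1 - ζ‖` (`1 - ζ^i = (1 - ζ)(1 + .. + ζ^(i-1))` and conversely `ζ = (ζ^i)^j`).
`p_poly`: the coefficients of `((1 + lam T)^p - 1) / lam^p` are `C(p,k) lam^(k-p)` (`k ≥ 1`): norm `≤ 1`, `< 1` for `1 < k < p`, `1` for `k = p`; `k = 1`: `q := p / lam^(p-1)`, `‖q + 1‖ < 1`: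
`p = ∏_(0<i<p) (1 - ζ^i) = (-1)^(p-1) lam^(p-1) ∏_(0<i<p) (1 + .. + ζ^(i-1))`, `1 + .. + ζ^(i-1)` is close to `i`, `(p-1)!` is close to `-1` (Wilson), and `(-1)^(p-1)` is close to `1` (for `p = 2`: `-1 = 1 - 2`).
`p_hensel`: `h(T) := ((1 + lam T)^p - 1) / lam^p - z / lam^p`, `‖h(0)‖ < 1`, `‖h'(0)‖ = ‖q‖ = 1`: `TU.henselU` with `x := 0`.
`p_exp`: `s := t - 1`, `(1 + s)^p = 1 + g`: `s^p + ∑_(0<k<p) C(p,k) s^k = g`.  `‖s‖ ≤ 1` (`‖t‖ = 1`).  If `‖s‖ ≤ ‖lam‖` then `‖g‖ ≤ max (‖s‖^p) (‖p‖ ‖s‖) ≤ ‖lam‖^p`: contradiction.  So `‖s‖ > ‖lam‖`,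
`‖C(p,k) s^(k-p)‖ ≤ ‖p‖ ‖s‖^(k-p) ≤ ‖p‖ / ‖s‖^(p-1) < 1`.
-/

namespace Pool.Agent.Lib.MX

open Pool.Agent.Lib.MP_3029eb_ag Pool.Agent.Lib.MP_3029eb_ag.Abh Pool.Agent.Lib.TDO

variable {E W : Type} [Field E] [NormedField W] [IsUltrametricDist W] [Algebra E W] {p r : ℕ}

private theorem PBas_sum_lt {ι : Type} (s : Finset ι) (f : ι → W) {c : ℝ} (hc : 0 < c)
    (h : ∀ i ∈ s, ‖f i‖ < c) : ‖∑ i ∈ s, f i‖ < c := by
  classical
  induction s using Finset.induction_on with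
  | empty => simpa using hc
  | insert a s ha ih =>
    rw [Finset.sum_insert ha]
    refine (IsUltrametricDist.norm_add_le_max _ _).trans_lt (max_lt ?_ ?_)
    · exact h a (Finset.mem_insert_self a s)
    · exact ih fun i hi => h i (Finset.mem_insert_of_mem hi)

private theorem PBas_sum_le {ι : Type} (s : Finset ι) (f : ι → W) {c : ℝ} (hc : 0 ≤ c)
    (h : ∀ i ∈ s, ‖f i‖ ≤ c) : ‖∑ i ∈ s, f i‖ ≤ c := by
  classical
  induction s using Finset.induction_on with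
  | empty => simpa using hc
  | insert a s ha ih =>
    rw [Finset.sum_insert ha]
    refine (IsUltrametricDist.norm_add_le_max _ _).trans (max_le ?_ ?_)
    · exact h a (Finset.mem_insert_self a s)
    · exact ih fun i hi => h i (Finset.mem_insert_of_mem hi)

private theorem PBas_sub (a b : W) : ‖a - b‖ ≤ max ‖a‖ ‖b‖ := by
  rw [sub_eq_add_neg, ← norm_neg b]
  exact IsUltrametricDist.norm_add_le_max a (-b)

private theorem PBas_add_eq {a b : W} (h : ‖b‖ < ‖a‖) : ‖a + b‖ = ‖a‖ := by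
  refine le_antisymm ((IsUltrametricDist.norm_add_le_max a b).trans (max_le le_rfl h.le)) ?_
  have h1 : ‖a‖ ≤ max ‖a + b‖ ‖b‖ := by
    have h2 := PBas_sub (a + b) b
    rwa [add_sub_cancel_right] at h2
  rcases le_max_iff.1 h1 with h2 | h2
  · exact h2
  · exact absurd h (not_lt.2 h2)

private theorem PBas_choose (hp : p.Prime) {k : ℕ} (hk : 0 < k) (hkp : k < p) :
    ‖(p.choose k : W)‖ ≤ ‖(p : W)‖ := by
  obtain ⟨m, hm⟩ := hp.dvd_choose_self hk.ne' hkp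
  rw [hm, Nat.cast_mul, norm_mul]
  exact mul_le_of_le_one_right (norm_nonneg _) (IsUltrametricDist.norm_natCast_le_one W m)

omit [IsUltrametricDist W] in
private theorem PBas_binom (hp : p.Prime) (x : W) :
    (1 + x) ^ p = 1 + x ^ p + ∑ k ∈ Finset.Ioo 0 p, (p.choose k : W) * x ^ k := by
  have h : Finset.range (p + 1) = insert 0 (insert p (Finset.Ioo 0 p)) := by
    ext k
    have := hp.pos
    simp only [Finset.mem_range, Finset.mem_insert, Finset.mem_Ioo]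
    omega
  rw [add_comm 1 x, add_pow, h, Finset.sum_insert (by
    have := hp.pos
    simp only [Finset.mem_insert, Finset.mem_Ioo]
    omega), Finset.sum_insert (by simp)]
  simp only [one_pow, mul_one, pow_zero, Nat.choose_zero_right, Nat.cast_one, Nat.choose_self]
  rw [add_assoc]
  congr 2
  exact Finset.sum_congr rfl fun k _ => mul_comm _ _

omit [IsUltrametricDist W] in
private theorem PBas_norm_root (hp : p.Prime) {ζ : W} (hζ : IsPrimitiveRoot ζ p) : ‖ζ‖ = 1 := by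
  have h : ‖ζ‖ ^ p = 1 := by rw [← norm_pow, hζ.pow_eq_one, norm_one]
  exact (pow_eq_one_iff_of_nonneg (norm_nonneg _) hp.ne_zero).1 h

omit [IsUltrametricDist W] in
private theorem PBas_lam_ne (hp : p.Prime) {ζ : W} (hζ : IsPrimitiveRoot ζ p) : ζ - 1 ≠ 0 :=
  sub_ne_zero.2 (hζ.ne_one hp.one_lt)

omit [IsUltrametricDist W] in
/-- the binomial expansion of `ζ ^ p = 1` -/
private theorem PBas_zero (hp : p.Prime) {ζ : W} (hζ : IsPrimitiveRoot ζ p) :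
    (ζ - 1) ^ p + ∑ k ∈ Finset.Ioo 0 p, (p.choose k : W) * (ζ - 1) ^ k = 0 := by
  have h := PBas_binom hp (ζ - 1)
  rw [add_sub_cancel, hζ.pow_eq_one] at h
  linear_combination -h

private theorem PBas_lt (hp : p.Prime) (hp1 : ‖(p : W)‖ < 1) {ζ : W} (hζ : IsPrimitiveRoot ζ p) :
    ‖ζ - 1‖ < 1 ∧ ‖ζ - 1‖ ^ p ≤ ‖(p : W)‖ * ‖ζ - 1‖ := by
  have h0 := PBas_zero hp hζ
  have hle : ‖ζ - 1‖ ≤ 1 := by
    refine (PBas_sub ζ 1).trans (max_le ?_ ?_)
    · rw [PBas_norm_root hp hζ]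
    · rw [norm_one]
  have hpos : 0 < ‖ζ - 1‖ := norm_pos_iff.2 (PBas_lam_ne hp hζ)
  have h1 : ‖ζ - 1‖ ^ p ≤ ‖(p : W)‖ * ‖ζ - 1‖ := by
    have e : (ζ - 1) ^ p = -∑ k ∈ Finset.Ioo 0 p, (p.choose k : W) * (ζ - 1) ^ k :=
      eq_neg_of_add_eq_zero_left h0
    rw [← norm_pow, e, norm_neg]
    refine PBas_sum_le _ _ (by positivity) fun k hk => ?_
    rw [Finset.mem_Ioo] at hk
    rw [norm_mul, norm_pow]
    refine mul_le_mul (PBas_choose hp hk.1 hk.2) ?_ (by positivity) (norm_nonneg _)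
    calc ‖ζ - 1‖ ^ k ≤ ‖ζ - 1‖ ^ 1 := pow_le_pow_of_le_one hpos.le hle hk.1
      _ = ‖ζ - 1‖ := pow_one _
  refine ⟨lt_of_le_of_ne hle fun h => ?_, h1⟩
  rw [h, one_pow, mul_one] at h1
  linarith

theorem lam_pow (hp : p.Prime) (hp1 : ‖(p : W)‖ < 1) {ζ : W} (hζ : IsPrimitiveRoot ζ p) :
    ‖ζ - 1‖ ^ (p - 1) = ‖(p : W)‖ := by
  have h0 := PBas_zero hp hζ
  obtain ⟨hlt, hle⟩ := PBas_lt hp hp1 hζ
  have hpos : 0 < ‖ζ - 1‖ := norm_pos_iff.2 (PBas_lam_ne hp hζ)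
  have hp2 := hp.two_le
  have hsplit : ‖ζ - 1‖ ^ p = ‖ζ - 1‖ ^ (p - 1) * ‖ζ - 1‖ := by
    rw [← pow_succ]
    congr 1
    omega
  have hppos : 0 < ‖(p : W)‖ := by
    rw [hsplit] at hle
    have h1 := le_of_mul_le_mul_right hle hpos
    exact (pow_pos hpos _).trans_le h1
  have hI : Finset.Ioo 0 p = insert 1 (Finset.Ioo 1 p) := by
    ext k
    simp only [Finset.mem_insert, Finset.mem_Ioo]
    omega
  rw [hI, Finset.sum_insert (by simp), Nat.choose_one_right, pow_one] at h0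
  have e : (ζ - 1) ^ p = -((p : W) * (ζ - 1) +
      ∑ k ∈ Finset.Ioo 1 p, (p.choose k : W) * (ζ - 1) ^ k) := eq_neg_of_add_eq_zero_left h0
  have hsmall : ‖∑ k ∈ Finset.Ioo 1 p, (p.choose k : W) * (ζ - 1) ^ k‖ <
      ‖(p : W) * (ζ - 1)‖ := by
    refine PBas_sum_lt _ _ (by rw [norm_mul]; positivity) fun k hk => ?_
    rw [Finset.mem_Ioo] at hk
    rw [norm_mul, norm_mul, norm_pow]
    calc ‖(p.choose k : W)‖ * ‖ζ - 1‖ ^ k ≤ ‖(p : W)‖ * ‖ζ - 1‖ ^ k :=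
          mul_le_mul_of_nonneg_right (PBas_choose hp (by omega) hk.2) (by positivity)
      _ < ‖(p : W)‖ * ‖ζ - 1‖ := by
          refine mul_lt_mul_of_pos_left ?_ hppos
          calc ‖ζ - 1‖ ^ k < ‖ζ - 1‖ ^ 1 := pow_lt_pow_right_of_lt_one₀ hpos hlt hk.1
            _ = ‖ζ - 1‖ := pow_one _
  have h2 : ‖ζ - 1‖ ^ p = ‖(p : W)‖ * ‖ζ - 1‖ := by
    rw [← norm_pow, e, norm_neg, PBas_add_eq hsmall, norm_mul]
  rw [hsplit] at h2
  exact mul_right_cancel₀ hpos.ne' h2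

private theorem PBas_lam_lt (hp : p.Prime) (hp1 : ‖(p : W)‖ < 1) {ζ : W}
    (hζ : IsPrimitiveRoot ζ p) : ‖ζ - 1‖ < 1 := (PBas_lt hp hp1 hζ).1

private theorem PBas_coeff (hp : p.Prime) (hp1 : ‖(p : W)‖ < 1) {ζ : W}
    (hζ : IsPrimitiveRoot ζ p) {k : ℕ} (hk : 1 < k) (hkp : k < p) :
    ‖(p.choose k : W) * (ζ - 1) ^ k / (ζ - 1) ^ p‖ < 1 := by
  have hpos : 0 < ‖ζ - 1‖ := norm_pos_iff.2 (PBas_lam_ne hp hζ)
  have hlt := PBas_lam_lt hp hp1 hζ
  rw [norm_div, norm_mul, norm_pow, norm_pow, div_lt_one (pow_pos hpos _)]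
  calc ‖(p.choose k : W)‖ * ‖ζ - 1‖ ^ k ≤ ‖(p : W)‖ * ‖ζ - 1‖ ^ k :=
        mul_le_mul_of_nonneg_right (PBas_choose hp (by omega) hkp) (by positivity)
    _ = ‖ζ - 1‖ ^ (p - 1 + k) := by rw [← lam_pow hp hp1 hζ, pow_add]
    _ < ‖ζ - 1‖ ^ p := pow_lt_pow_right_of_lt_one₀ hpos hlt (by omega)

/-- The number `p / (ζ - 1) ^ (p - 1)` is close to `-1`. -/
theorem lam_unit (hp : p.Prime) (hp1 : ‖(p : W)‖ < 1) {ζ : W} (hζ : IsPrimitiveRoot ζ p) :
    ‖(p : W) / (ζ - 1) ^ (p - 1) + 1‖ < 1 := by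
  have h0 := PBas_zero hp hζ
  have hne := PBas_lam_ne hp hζ
  have hp2 := hp.two_le
  have hI : Finset.Ioo 0 p = insert 1 (Finset.Ioo 1 p) := by
    ext k
    simp only [Finset.mem_insert, Finset.mem_Ioo]
    omega
  rw [hI, Finset.sum_insert (by simp), Nat.choose_one_right, pow_one] at h0
  have hsplit : (ζ - 1) ^ p = (ζ - 1) ^ (p - 1) * (ζ - 1) := by
    rw [← pow_succ]
    congr 1
    omega
  have e : (p : W) / (ζ - 1) ^ (p - 1) + 1 =
      -∑ k ∈ Finset.Ioo 1 p, (p.choose k : W) * (ζ - 1) ^ k / (ζ - 1) ^ p := by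
    rw [← Finset.sum_div]
    have h1 : (p : W) / (ζ - 1) ^ (p - 1) = (p : W) * (ζ - 1) / (ζ - 1) ^ p := by
      rw [hsplit, mul_div_mul_right _ _ hne]
    have h2 : (p : W) * (ζ - 1) / (ζ - 1) ^ p + 1 =
        ((p : W) * (ζ - 1) + (ζ - 1) ^ p) / (ζ - 1) ^ p := by
      rw [add_div, div_self (pow_ne_zero p hne)]
    rw [h1, h2, ← neg_div]
    congr 1
    linear_combination h0
  rw [e, norm_neg]
  refine PBas_sum_lt _ _ one_pos fun k hk => ?_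
  rw [Finset.mem_Ioo] at hk
  exact PBas_coeff hp hp1 hζ hk.1 hk.2

/-- The coefficients of `((1 + (ζ - 1) T) ^ p - 1) / (ζ - 1) ^ p`. -/
theorem lam_coeff (hp : p.Prime) (hp1 : ‖(p : W)‖ < 1) {ζ : W} (hζ : IsPrimitiveRoot ζ p)
    {k : ℕ} (hk : 1 < k) (hkp : k < p) : ‖(p.choose k : W) * (ζ - 1) ^ k / (ζ - 1) ^ p‖ < 1 :=
  PBas_coeff hp hp1 hζ hk hkp

theorem p_hensel (hp : p.Prime) (hp1 : ‖(p : W)‖ < 1) {L : IntermediateField E W}
    (hL : IsComplete (L : Set W)) {ζ : W} (hζL : ζ ∈ L) (hζ : IsPrimitiveRoot ζ p) {z : W}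
    (hz : z ∈ L) (hz1 : ‖z‖ < ‖ζ - 1‖ ^ p) :
    ∃ u ∈ L, ‖u‖ < 1 ∧ (1 + (ζ - 1) * u) ^ p = 1 + z := by
  have hne := PBas_lam_ne hp hζ
  have hpos : 0 < ‖ζ - 1‖ := norm_pos_iff.2 hne
  have hlt := PBas_lam_lt hp hp1 hζ
  have hp2 := hp.two_le
  have hlL : ζ - 1 ∈ L := L.sub_mem hζL L.one_mem
  let f : Polynomial W := Polynomial.C ((ζ - 1) ^ p)⁻¹ *
    (((1 + Polynomial.X) ^ p).comp (Polynomial.C (ζ - 1) * Polynomial.X) -
      Polynomial.C (1 + z))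
  have hcoef : ∀ j, f.coeff j = ((ζ - 1) ^ p)⁻¹ *
      ((p.choose j : W) * (ζ - 1) ^ j - if j = 0 then 1 + z else 0) := by
    intro j
    change (Polynomial.C ((ζ - 1) ^ p)⁻¹ *
    (((1 + Polynomial.X) ^ p).comp (Polynomial.C (ζ - 1) * Polynomial.X) -
      Polynomial.C (1 + z))).coeff j = _
    rw [Polynomial.coeff_C_mul, Polynomial.coeff_sub, Polynomial.comp_C_mul_X_coeff,
      Polynomial.coeff_one_add_X_pow, Polynomial.coeff_C]
  have hev : ∀ x : W, f.eval x = ((ζ - 1) ^ p)⁻¹ * ((1 + (ζ - 1) * x) ^ p - (1 + z)) := by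
    intro x
    change (Polynomial.C ((ζ - 1) ^ p)⁻¹ *
    (((1 + Polynomial.X) ^ p).comp (Polynomial.C (ζ - 1) * Polynomial.X) -
      Polynomial.C (1 + z))).eval x = _
    simp
  have h1 : ∀ j, f.coeff j ∈ L ∧ ‖f.coeff j‖ ≤ 1 := by
    intro j
    rw [hcoef]
    refine ⟨L.mul_mem (L.inv_mem (pow_mem hlL p)) (L.sub_mem (L.mul_mem (natCast_mem L _)
      (pow_mem hlL j)) ?_), ?_⟩
    · split_ifs
      · exact L.add_mem L.one_mem hz
      · exact L.zero_mem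
    · rcases Nat.eq_zero_or_pos j with hj | hj
      · subst hj
        rw [if_pos rfl, Nat.choose_zero_right, Nat.cast_one, pow_zero, one_mul, norm_mul, norm_inv,
          norm_pow, show (1 : W) - (1 + z) = -z by ring, norm_neg, inv_mul_le_iff₀ (pow_pos hpos p)]
        linarith
      · rw [if_neg hj.ne', sub_zero]
        rcases lt_trichotomy j p with hjp | hjp | hjp
        · rcases Nat.lt_or_ge 1 j with hj1 | hj1
          · rw [inv_mul_eq_div]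
            exact (PBas_coeff hp hp1 hζ hj1 hjp).le
          · have hj' : j = 1 := by omega
            subst hj'
            rw [Nat.choose_one_right, pow_one, norm_mul, norm_mul, norm_inv, norm_pow,
              inv_mul_le_iff₀ (pow_pos hpos p), mul_one, ← lam_pow hp hp1 hζ, ← pow_succ]
            refine le_of_eq ?_
            congr 1
            omega
        · subst hjp
          rw [Nat.choose_self, Nat.cast_one, one_mul, inv_mul_cancel₀ (pow_ne_zero _ hne),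
            norm_one]
        · rw [Nat.choose_eq_zero_of_lt hjp, Nat.cast_zero, zero_mul, mul_zero, norm_zero]
          exact zero_le_one
  have h2 : ‖f.eval 0‖ < 1 := by
    rw [hev, mul_zero, add_zero, one_pow, show (1 : W) - (1 + z) = -z by ring, norm_mul, norm_neg,
      norm_inv, norm_pow, inv_mul_lt_iff₀ (pow_pos hpos p), mul_one]
    exact hz1
  have h3 : ‖f.derivative.eval 0‖ = 1 := by
    rw [← Polynomial.coeff_zero_eq_eval_zero, Polynomial.coeff_derivative, hcoef, if_neg (by simp)]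
    simp only [zero_add, Nat.choose_one_right, pow_one, sub_zero, Nat.cast_zero, mul_one]
    rw [norm_mul, norm_mul, norm_inv, norm_pow, ← lam_pow hp hp1 hζ, ← pow_succ,
      show p - 1 + 1 = p by omega]
    exact inv_mul_cancel₀ (pow_pos hpos p).ne'
  obtain ⟨c, hc, hc1, hc2⟩ := TU.henselU L hL f h1 (x := 0) L.zero_mem (by simp) h2 h3
  refine ⟨c, hc, by simpa using hc2, ?_⟩
  rw [hev] at hc1
  rcases mul_eq_zero.1 hc1 with h4 | h4
  · exact absurd h4 (inv_ne_zero (pow_ne_zero p hne))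
  · exact sub_eq_zero.1 h4

theorem p_exp (hp : p.Prime) (hp1 : ‖(p : W)‖ < 1) {ζ : W} (hζ : IsPrimitiveRoot ζ p) {t g : W}
    (ht : t ^ p = 1 + g) (hg1 : ‖g‖ < 1) (hg : ‖ζ - 1‖ ^ p < ‖g‖) :
    ‖t - 1‖ ^ p = ‖g‖ ∧ ‖ζ - 1‖ < ‖t - 1‖ ∧ ‖t - 1‖ < 1 ∧
      (∀ k, 0 < k → k < p → ‖(p : W) * (t - 1) ^ ((k : ℤ) - p)‖ < 1) ∧
      (t - 1) ^ p * (1 + ∑ k ∈ Finset.Ioo 0 p, (p.choose k : W) * (t - 1) ^ ((k : ℤ) - p)) =
        g := by
  have hpos : 0 < ‖ζ - 1‖ := norm_pos_iff.2 (PBas_lam_ne hp hζ)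
  have hp2 := hp.two_le
  have hlam := lam_pow hp hp1 hζ
  have htn : ‖t‖ = 1 := by
    have h1 : ‖t‖ ^ p = 1 := by
      rw [← norm_pow, ht, PBas_add_eq (by rw [norm_one]; exact hg1), norm_one]
    exact (pow_eq_one_iff_of_nonneg (norm_nonneg _) hp.ne_zero).1 h1
  have hs1 : ‖t - 1‖ ≤ 1 := by
    refine (PBas_sub t 1).trans (max_le htn.le ?_)
    rw [norm_one]
  have hexp : (t - 1) ^ p + ∑ k ∈ Finset.Ioo 0 p, (p.choose k : W) * (t - 1) ^ k = g := by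
    have h := PBas_binom hp (t - 1)
    rw [add_sub_cancel, ht] at h
    linear_combination -h
  have hlp : ‖(p : W)‖ * ‖ζ - 1‖ = ‖ζ - 1‖ ^ p := by
    rw [← hlam, ← pow_succ]
    congr 1
    omega
  have hls : ‖ζ - 1‖ < ‖t - 1‖ := by
    by_contra hc
    push Not at hc
    refine absurd hg (not_lt.2 ?_)
    rw [← hexp]
    refine (IsUltrametricDist.norm_add_le_max _ _).trans (max_le ?_ ?_)
    · rw [norm_pow]
      exact pow_le_pow_left₀ (norm_nonneg _) hc p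
    · refine PBas_sum_le _ _ (by positivity) fun k hk => ?_
      rw [Finset.mem_Ioo] at hk
      rw [norm_mul, norm_pow, ← hlp]
      refine mul_le_mul (PBas_choose hp hk.1 hk.2) ?_ (by positivity) (norm_nonneg _)
      calc ‖t - 1‖ ^ k ≤ ‖t - 1‖ ^ 1 := pow_le_pow_of_le_one (norm_nonneg _) hs1 hk.1
        _ = ‖t - 1‖ := pow_one _
        _ ≤ ‖ζ - 1‖ := hc
  have hspos : 0 < ‖t - 1‖ := hpos.trans hls
  have hs0 : t - 1 ≠ 0 := norm_pos_iff.1 hspos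
  have hk4 : ∀ k, 0 < k → k < p → ‖(p : W)‖ * ‖t - 1‖ ^ ((k : ℤ) - p) < 1 := by
    intro k hk hkp
    have e : ‖t - 1‖ ^ ((k : ℤ) - p) = (‖t - 1‖ ^ (p - k))⁻¹ := by
      rw [← zpow_natCast, ← zpow_neg]
      congr 1
      have : ((p - k : ℕ) : ℤ) = (p : ℤ) - k := by omega
      rw [this]
      ring
    rw [e, ← div_eq_mul_inv, div_lt_one (pow_pos hspos _), ← hlam]
    calc ‖ζ - 1‖ ^ (p - 1) < ‖t - 1‖ ^ (p - 1) :=
          pow_lt_pow_left₀ hls hpos.le (by omega)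
      _ ≤ ‖t - 1‖ ^ (p - k) := pow_le_pow_of_le_one hspos.le hs1 (by omega)
  have hfac : (t - 1) ^ p * (1 + ∑ k ∈ Finset.Ioo 0 p,
      (p.choose k : W) * (t - 1) ^ ((k : ℤ) - p)) = g := by
    rw [← hexp, mul_add, mul_one, Finset.mul_sum]
    congr 1
    refine Finset.sum_congr rfl fun k _ => ?_
    have e : (t - 1) ^ p * (t - 1) ^ ((k : ℤ) - p) = (t - 1) ^ k := by
      rw [← zpow_natCast (t - 1) p, ← zpow_add₀ hs0, ← zpow_natCast (t - 1) k]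
      congr 1
      ring
    rw [← e]
    ring
  have hsum : ‖∑ k ∈ Finset.Ioo 0 p, (p.choose k : W) * (t - 1) ^ ((k : ℤ) - p)‖ < 1 := by
    refine PBas_sum_lt _ _ one_pos fun k hk => ?_
    rw [Finset.mem_Ioo] at hk
    rw [norm_mul, norm_zpow]
    exact (mul_le_mul_of_nonneg_right (PBas_choose hp hk.1 hk.2) (by positivity)).trans_lt
      (hk4 k hk.1 hk.2)
  have hnorm : ‖t - 1‖ ^ p = ‖g‖ := by
    rw [← hfac, norm_mul, norm_pow, PBas_add_eq (by rw [norm_one]; exact hsum), norm_one, mul_one]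
  refine ⟨hnorm, hls, ?_, fun k hk hkp => ?_, hfac⟩
  · by_contra hc
    push Not at hc
    have : 1 ≤ ‖t - 1‖ ^ p := one_le_pow₀ hc
    linarith
  · rw [norm_mul, norm_zpow]
    exact hk4 k hk hkp

end Pool.Agent.Lib.MX
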