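import Pool.Agent.Lib.MX.StLdH

set_option autoImplicit false

/-!
# Module MX.PDefs: definitions for the core of the `p`-step (paper 5.1 - 5.3)

`1 + lam^p z` is multiplied by `(1 + lam s)^p = 1 + lam^p wp(s)`: `z` becomes `gact z = z + wp(s) (1 + lam^p z)`.
-/

namespace Pool.Agent.Lib.MX

open Pool.Agent.Lib.MP_3029eb_ag Pool.Agent.Lib.MP_3029eb_ag.Abh Pool.Agent.Lib.TDO

/-- `((1 + lam s) ^ p - 1) / lam ^ p` -/
noncomputable def wp {W : Type} [Field W] (p : ℕ) (lam s : W) : W :=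
  ((1 + lam * s) ^ p - 1) / lam ^ p

/-- `1 + lam ^ p * gact = (1 + lam ^ p * z) * (1 + lam * s) ^ p` -/
noncomputable def gact {W : Type} [Field W] (p : ℕ) (lam s z : W) : W :=
  z + wp p lam s * (1 + lam ^ p * z)

theorem gact_spec {W : Type} [Field W] {p : ℕ} {lam : W} (h : lam ≠ 0) (s z : W) :
    1 + lam ^ p * gact p lam s z = (1 + lam ^ p * z) * (1 + lam * s) ^ p := by
  have h1 : lam ^ p ≠ 0 := pow_ne_zero _ h
  unfold gact wp
  field_simp
  ring

theorem gact_zero {W : Type} [Field W] {p : ℕ} {lam : W} (z : W) :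
    gact p lam 0 z = z := by
  unfold gact wp
  simp

theorem gact_gact {W : Type} [Field W] {p : ℕ} {lam : W} (h : lam ≠ 0) (s s' z : W) :
    gact p lam s' (gact p lam s z) = gact p lam (s + s' + lam * s * s') z := by
  have h1 : lam ^ p ≠ 0 := pow_ne_zero _ h
  have e : 1 + lam ^ p * gact p lam s' (gact p lam s z) =
      1 + lam ^ p * gact p lam (s + s' + lam * s * s') z := by
    rw [gact_spec h, gact_spec h, gact_spec h, mul_assoc, ← mul_pow]
    congr 2
    ring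
  exact mul_left_cancel₀ h1 (add_left_cancel e)

/-- The shear `(a, j) ↦ (a + j β, j)`. -/
def shr {r : ℕ} (β : Fin r → ℤ) : ((Fin r → ℤ) × ℤ) ≃+ ((Fin r → ℤ) × ℤ) where
  toFun n := (n.1 + n.2 • β, n.2)
  invFun n := (n.1 - n.2 • β, n.2)
  left_inv n := by simp
  right_inv n := by simp
  map_add' n n' := by
    refine Prod.ext ?_ rfl
    simp only [Prod.fst_add, Prod.snd_add, add_smul]
    abel

theorem shr_apply {r : ℕ} (β a : Fin r → ℤ) (j : ℤ) : shr β (a, j) = (a + j • β, j) := rfl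

variable {E W : Type} [Field E] [NormedField W] [IsUltrametricDist W] [Algebra E W] {r p : ℕ}
  {S : IntermediateField E W} {c c' : Tri W r} {F : Subfield (RW W)}

/-- `lam` plays the role of `ζ - 1`: it is a monomial times a unit and `p = u lam ^ (p - 1)` with
`u` close to `-1`. -/
structure LamP (p : ℕ) (c : Tri W r) (lam : W) : Prop where
  ne : lam ≠ 0
  lt : ‖lam‖ < 1
  mo : MoH c lam
  hp : ∃ u ∈ HO c, ‖u + 1‖ < 1 ∧ (p : W) = u * lam ^ (p - 1)

/-- Reduced Laurent polynomials: all exponents are large and not of `p`-type. -/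
def Rdp (p : ℕ) {W : Type} [NormedField W] {C : Type} [Field C] (x : Fin r → W)
    (P : LP C r) : Prop :=
  ∀ a j, P.coeff (a, j) ≠ 0 → 1 < ‖mon x a‖ ∧ ¬ PT p a j (P.coeff (a, j))

/-- Errors of a normal form. -/
def Er (c : Tri W r) (a : Fin r → ℤ) (J : ℕ) (z : W) : Prop :=
  ∃ e1 ∈ HO c, ∃ e2 ∈ HO c, z = e1 + mon c.x a * c.y ^ J * e2

/-- Small errors relative to the exponent `(α, J)`. -/
def Sm (c : Tri W r) (α : Fin r → ℤ) (J : ℕ) (z : W) : Prop :=
  ∃ e1 ∈ HL c, Gn c e1 < ‖mon c.x α‖ ∧ ∃ e2 ∈ HO c, z = e1 + mon c.x α * c.y ^ J * e2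

/-- Lead form which is not of `p`-type. -/
def NLd (p : ℕ) (c : Tri W r) (z : W) (a : Fin r → ℤ) (d : ℕ) : Prop :=
  1 < ‖mon c.x a‖ ∧ ∃ v ∈ HO c, ‖v‖ = 1 ∧ (∃ q ∈ QH c, z = mon c.x a * (c.y ^ d * v + q)) ∧
    ¬ ((∃ a' : Fin r → ℤ, a = p • a') ∧ p ∣ d ∧ ∃ b ∈ kap c.B, rs v = b ^ p)

/-- A stage with `e = f = 1` and the same monomial parameters. -/
structure St1 (S : IntermediateField E W) (c c' : Tri W r) (F : Subfield (RW W))
    (β : Fin r → ℤ) (e0 : W) : Prop where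
  st : StR S c c'
  hx : c'.x = c.x
  hF : kap c.B = F
  hF' : kap c'.B = F
  e0B : e0 ∈ c.B
  e01 : ‖e0‖ = 1
  hy : c.y = mon c.x β * (e0 + c'.y)

end Pool.Agent.Lib.MX
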