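import Pool.Agent.Lib.MX.QAmbB

/-!
# Module QAmb: the ambient field of a local ring of mixed characteristic
-/

namespace Pool.Agent.Lib.MX

open Pool.Agent.Lib.MP_3029eb_ag Pool.Agent.Lib.MP_3029eb_ag.Abh Pool.Agent.Lib.TDO
open IsLocalRing
open Pool.Agent.Lib.TQ (Cp Nl range_eq_Cp)

theorem exists_WX (p : ℕ) [Fact p.Prime] {K : Type} [NontriviallyNormedField K]
    [IsUltrametricDist K] [CharZero K] (hp1 : ‖(p : K)‖ < 1) (A : Subring K) [IsLocalRing A]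
    [IsNoetherianRing A] (hA : Dom A.subtype)
    (hfrac : ∀ z : K, ∃ a ∈ A, ∃ b ∈ A, b ≠ 0 ∧ z * b = a) {r : ℕ}
    (hrank : ∀ z : Fin (r + 1) → K, (∀ i, z i ≠ 0) →
      ∃ a : Fin (r + 1) → ℤ, a ≠ 0 ∧ ‖mon z a‖ = 1)
    (hres : ∀ z : K, ‖z‖ ≤ 1 → ∃ f : Polynomial A, (∃ n, ‖((f.coeff n : A) : K)‖ = 1) ∧
      ‖Polynomial.eval₂ A.subtype z f‖ < 1) :
    ∃ (E W : Type) (_ : Field E) (_ : NontriviallyNormedField W) (_ : IsUltrametricDist W)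
      (_ : Algebra E W) (_ : IsAlgClosed W) (L : IntermediateField E W) (κ : K →+* W),
      (∀ z, ‖κ z‖ = ‖z‖) ∧ (∀ z, κ z ∈ L) ∧ AmbE p r E W ∧ (∀ z : W, IsAlgebraic L z) ∧
      Nl L.toSubfield (A.map κ) ∧
      (∀ z ∈ L, ∀ ε : ℝ, 0 < ε → ∃ a ∈ A.map κ, ∃ b ∈ A.map κ, b ≠ 0 ∧ ‖z - a / b‖ < ε) ∧
      (∀ e ∈ Lam E W, e ∈ Cp (A.map κ)) ∧ ∀ z ∈ A.map κ, ∃ e ∈ Lam E W, ‖z - e‖ < 1 := by
  obtain ⟨E, L0, iE, nf0, u0, c0, alg0, j, φ, hj, hd, hamb0, hφ, hφa, hΛφ, hAΛ⟩ :=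
    exists_WB p hp1 A hA hrank hres
  obtain ⟨W, nfW, huW, algW, hac, ι, hι, hamb, hcomp, halgW⟩ := exists_WA hamb0
  have hLr : ((ι.fieldRange : IntermediateField E W) : Set W) = Set.range ι := rfl
  have hιL : ∀ z, ι z ∈ (ι.fieldRange : IntermediateField E W) := fun z => ⟨z, rfl⟩
  let κ : K →+* W := (ι : L0 →+* W).comp j
  have hκ : ∀ z, κ z = ι (j z) := fun z => rfl
  have hκn : ∀ z, ‖κ z‖ = ‖z‖ := fun z => by rw [hκ, hι, hj]
  have hκL : ∀ z, κ z ∈ (ι.fieldRange : IntermediateField E W) := fun z => hιL (j z)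
  have hLam : ∀ z : W, z ∈ Lam E W ↔ ∃ y ∈ Lam E L0, ι y = z := by
    intro z
    constructor
    · rintro ⟨⟨e, he⟩, hz⟩
      refine ⟨algebraMap E L0 e, ⟨⟨e, rfl⟩, ?_⟩, ?_⟩
      · show ‖algebraMap E L0 e‖ ≤ 1
        rw [← hι, ι.commutes]
        have he' : algebraMap E W e = z := he
        rw [he']
        exact hz
      · rw [ι.commutes]
        exact he
    · rintro ⟨y, ⟨⟨e, he⟩, hy⟩, rfl⟩
      refine ⟨⟨e, ?_⟩, ?_⟩
      · have he' : algebraMap E L0 e = y := he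
        rw [← he', ι.commutes]
      · show ‖ι y‖ ≤ 1
        rw [hι]
        exact hy
  have hnl : Nl (ι.fieldRange : IntermediateField E W).toSubfield (A.map κ) := by
    refine ⟨?_, ?_, ?_, ?_, ?_, ?_⟩
    · show IsComplete ((ι.fieldRange : IntermediateField E W) : Set W)
      rw [hLr]
      exact hcomp
    · obtain ⟨z, hz0, hz1⟩ := NormedField.exists_norm_lt_one K
      exact ⟨κ z, hκL z, norm_pos_iff.1 (by rw [hκn]; exact hz0), by rw [hκn]; exact hz1⟩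
    · rintro _ ⟨a, -, rfl⟩
      exact hκL a
    · rintro _ ⟨a, ha, rfl⟩
      rw [hκn]
      exact (hA ⟨a, ha⟩).1
    · rintro _ ⟨a, ha, rfl⟩ h1
      rw [hκn] at h1
      have h2 : IsUnit (⟨a, ha⟩ : A) := by
        by_contra h3
        have h4 := ((hA ⟨a, ha⟩).2).1 h3
        have h5 : ‖a‖ < 1 := h4
        linarith
      obtain ⟨b, hb⟩ := h2.exists_right_inv
      have hb' : a * (b : K) = 1 := congrArg Subtype.val hb
      refine ⟨b, b.2, ?_⟩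
      have h6 : κ a * κ b = 1 := by rw [← map_mul, hb', map_one]
      exact eq_inv_of_mul_eq_one_right h6
    · exact isNoetherianRing_of_ringEquiv A (A.equivMapOfInjective κ κ.injective)
  have hCp : (((ι : L0 →+* W).comp φ)).range = Cp (A.map κ) := by
    refine range_eq_Cp hnl _ (fun t => ?_) (fun a => ?_) ?_
    · rw [RingHom.comp_apply]
      have h1 : ‖(ι : L0 →+* W) (φ t)‖ = ‖φ t‖ := hι (φ t)
      rw [h1]
      exact hφ t
    · rw [RingHom.comp_apply, hφa]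
      exact ⟨a, a.2, rfl⟩
    · rintro _ ⟨a, ha, rfl⟩
      refine ⟨⟨a, ha⟩, ?_⟩
      rw [RingHom.comp_apply, hφa]
      rfl
  refine ⟨E, W, iE, nfW, huW, algW, hac, ι.fieldRange, κ, hκn, hκL, hamb, ?_, hnl, ?_, ?_, ?_⟩
  · intro z
    obtain ⟨q, hq, hq0⟩ := halgW z
    let ι' : L0 →+* (ι.fieldRange : IntermediateField E W) :=
      (ι : L0 →+* W).codRestrict (ι.fieldRange : IntermediateField E W).toSubring hιL
    refine ⟨q.map ι', ?_, ?_⟩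
    · exact (Polynomial.map_ne_zero_iff ι'.injective).2 hq
    · rw [Polynomial.aeval_def, Polynomial.eval₂_map]
      exact hq0
  · rintro _ ⟨w0, rfl⟩ ε hε
    obtain ⟨y, hy⟩ := hd w0 ε hε
    obtain ⟨a, ha, b, hb, hb0, hab⟩ := hfrac y
    refine ⟨κ a, ⟨a, ha, rfl⟩, κ b, ⟨b, hb, rfl⟩, (_root_.map_ne_zero κ).2 hb0, ?_⟩
    have h1 : κ a / κ b = κ y := by
      rw [← hab, map_mul, mul_div_cancel_right₀ _ ((_root_.map_ne_zero κ).2 hb0)]
    rw [h1, hκ]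
    show ‖ι w0 - ι (j y)‖ < ε
    rw [← map_sub, hι]
    exact hy
  · intro e he
    obtain ⟨y, hy, rfl⟩ := (hLam e).1 he
    rw [← hCp]
    obtain ⟨t, ht⟩ := hΛφ y hy
    exact ⟨t, by rw [RingHom.comp_apply, ht]; rfl⟩
  · rintro _ ⟨a, ha, rfl⟩
    obtain ⟨e, he, h1⟩ := hAΛ ⟨a, ha⟩
    refine ⟨ι e, (hLam _).2 ⟨e, he, rfl⟩, ?_⟩
    have h2 : κ a - ι e = ι (j a - e) := by rw [map_sub, hκ]
    rw [h2, hι]
    exact h1

end Pool.Agent.Lib.MX
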