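import Pool.Agent.Lib.MX.QAmbA
import Pool.Agent.Lib.MP_3029eb_ag.CR
import Pool.Agent.Lib.MP_3029eb_ag.CL
import Pool.Agent.Lib.TQ.WK

/-!
# Module QAmbB: the Cohen ring inside the completion of `K`
-/

namespace Pool.Agent.Lib.MX

open Pool.Agent.Lib.MP_3029eb_ag Pool.Agent.Lib.MP_3029eb_ag.Abh Pool.Agent.Lib.TDO
open IsLocalRing

private theorem qb_norm_mon {L : Type} [NormedField L] {r : ℕ} (u : Fin r → L)
    (a : Fin r → ℤ) : ‖mon u a‖ = ∏ i, ‖u i‖ ^ a i := by
  unfold mon
  rw [norm_prod]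
  exact Finset.prod_congr rfl fun i _ => norm_zpow _ _

private theorem qb_ultra {F : Type} [NormedField F] [IsUltrametricDist F] :
    IsUltrametricDist (UniformSpace.Completion F) := by
  refine IsUltrametricDist.isUltrametricDist_of_forall_norm_add_le_max_norm fun x y => ?_
  refine UniformSpace.Completion.induction_on₂ x y ?_ fun a b => ?_
  · exact isClosed_le ((continuous_fst.add continuous_snd).norm)
      (continuous_fst.norm.max continuous_snd.norm)
  · rw [← UniformSpace.Completion.coe_add, UniformSpace.Completion.norm_coe,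
      UniformSpace.Completion.norm_coe, UniformSpace.Completion.norm_coe]
    exact IsUltrametricDist.norm_add_le_max a b

private theorem qb_prec {T : Type} [CommRing T] [IsLocalRing T]
    [IsAdicComplete (maximalIdeal T) T] (f : ℕ → T)
    (hf : ∀ n, f (n + 1) - f n ∈ maximalIdeal T ^ n) :
    ∃ t, ∀ n, t - f n ∈ maximalIdeal T ^ n := by
  have h1 : ∀ m n, m ≤ n → f n - f m ∈ maximalIdeal T ^ m := by
    intro m n hmn
    induction n, hmn using Nat.le_induction with
    | base => rw [sub_self]; exact zero_mem _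
    | succ n hmn ih =>
      have h2 : f (n + 1) - f m = (f (n + 1) - f n) + (f n - f m) := by ring
      rw [h2]
      exact add_mem (Ideal.pow_le_pow_right hmn (hf n)) ih
  obtain ⟨t, ht⟩ := IsPrecomplete.prec' (I := maximalIdeal T) (M := T) f (by
    intro m n hmn
    rw [SModEq.sub_mem, smul_eq_mul, Ideal.mul_top, ← neg_sub]
    exact neg_mem (h1 m n hmn))
  refine ⟨t, fun n => ?_⟩
  have h2 := ht n
  rw [SModEq.sub_mem, smul_eq_mul, Ideal.mul_top] at h2
  rw [← neg_sub]
  exact neg_mem h2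

/-- The fraction field of a complete discrete valuation ring with uniformizer `p` in a normed
field. -/
private theorem qb_field (p : ℕ) [Fact p.Prime] {L : Type} [NontriviallyNormedField L]
    [IsUltrametricDist L] [CompleteSpace L] (hp0 : (p : L) ≠ 0) (hp1 : ‖(p : L)‖ < 1)
    (C : Type) [CommRing C] [IsDomain C] [IsDiscreteValuationRing C]
    [IsAdicComplete (maximalIdeal C) C] (hCm : maximalIdeal C = Ideal.span {(p : C)})
    (ψ : C →+* L) (hψ : ∀ c, ‖ψ c‖ ≤ 1) :
    ∃ _ : Algebra (FractionRing C) L,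
      (∀ c : FractionRing C, c ≠ 0 → ∃ n : ℤ, ‖algebraMap (FractionRing C) L c‖ = ‖(p : L)‖ ^ n) ∧
      IsComplete (Set.range (algebraMap (FractionRing C) L)) ∧
      ∀ z : L, z ∈ Lam (FractionRing C) L ↔ z ∈ ψ.range := by
  have hpn : 0 < ‖(p : L)‖ := norm_pos_iff.2 hp0
  have hirr : Irreducible (p : C) := (IsDiscreteValuationRing.irreducible_iff_uniformizer _).2 hCm
  have hunit : ∀ u : Cˣ, ‖ψ u‖ = 1 := by
    intro u
    have h1 : ‖ψ (u : C)‖ * ‖ψ ((u⁻¹ : Cˣ) : C)‖ = 1 := by
      rw [← norm_mul, ← map_mul, Units.mul_inv, map_one, norm_one]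
    have h2 := hψ (u : C)
    have h3 := hψ ((u⁻¹ : Cˣ) : C)
    have h4 := norm_nonneg (ψ (u : C))
    nlinarith
  have hfac : ∀ c : C, c ≠ 0 → ∃ (n : ℕ) (u : Cˣ), c = (u : C) * (p : C) ^ n := by
    intro c hc
    obtain ⟨n, u, hu⟩ := IsDiscreteValuationRing.eq_unit_mul_pow_irreducible hc hirr
    exact ⟨n, u, hu⟩
  have hnorm : ∀ (n : ℕ) (u : Cˣ), ‖ψ ((u : C) * (p : C) ^ n)‖ = ‖(p : L)‖ ^ n := by
    intro n u
    rw [map_mul, map_pow, map_natCast, norm_mul, norm_pow, hunit, one_mul]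
  have hinj : Function.Injective ψ := by
    rw [injective_iff_map_eq_zero]
    intro c hc
    by_contra h0
    obtain ⟨n, u, rfl⟩ := hfac c h0
    have h1 := hnorm n u
    rw [hc, norm_zero] at h1
    exact (pow_pos hpn n).ne h1
  let f : FractionRing C →+* L := IsFractionRing.lift (K := FractionRing C) hinj
  have hf : ∀ c : C, f (algebraMap C (FractionRing C) c) = ψ c := fun c =>
    IsFractionRing.lift_algebraMap hinj c
  let alg : Algebra (FractionRing C) L := f.toAlgebra
  have hrep : ∀ e : FractionRing C, e ≠ 0 → ∃ (m n : ℕ) (u : Cˣ),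
      f e * (p : L) ^ n = ψ u * (p : L) ^ m ∧ ‖f e‖ = ‖(p : L)‖ ^ ((m : ℤ) - n) := by
    intro e he
    obtain ⟨a, b, hb, rfl⟩ := IsFractionRing.div_surjective (A := C) e
    have hb0 : b ≠ 0 := nonZeroDivisors.ne_zero hb
    have ha0 : a ≠ 0 := by
      rintro rfl
      rw [map_zero, zero_div] at he
      exact he rfl
    obtain ⟨m, u, hu⟩ := hfac a ha0
    obtain ⟨n, v, hv⟩ := hfac b hb0
    have hψv : ψ (v : C) ≠ 0 := by
      intro h
      have := hunit v
      rw [h, norm_zero] at this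
      exact zero_ne_one this
    have hvi : ψ ((v⁻¹ : Cˣ) : C) * ψ (v : C) = 1 := by
      rw [← map_mul, Units.inv_mul, map_one]
    refine ⟨m, n, u * v⁻¹, ?_, ?_⟩
    · rw [map_div₀, hf, hf, hu, hv, map_mul, map_mul, map_pow, map_pow, map_natCast,
        Units.val_mul, map_mul, div_mul_eq_mul_div, div_eq_iff (mul_ne_zero hψv (pow_ne_zero _ hp0))]
      calc ψ ↑u * (p : L) ^ m * (p : L) ^ n
          = (ψ ((v⁻¹ : Cˣ) : C) * ψ (v : C)) * (ψ ↑u * (p : L) ^ m * (p : L) ^ n) := by
            rw [hvi, one_mul]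
        _ = ψ ↑u * ψ ↑v⁻¹ * (p : L) ^ m * (ψ ↑v * (p : L) ^ n) := by ring
    · rw [map_div₀, hf, hf, norm_div, hu, hv, hnorm, hnorm, zpow_sub₀ hpn.ne', zpow_natCast,
        zpow_natCast]
  have hΛ : ∀ z : L, z ∈ Lam (FractionRing C) L ↔ z ∈ ψ.range := by
    intro z
    constructor
    · rintro ⟨⟨e, he⟩, hz⟩
      have he' : f e = z := he
      by_cases h0 : e = 0
      · refine ⟨0, ?_⟩
        rw [map_zero, ← he', h0, map_zero]
      · obtain ⟨m, n, u, h1, h2⟩ := hrep e h0
        have h3 : (0 : ℤ) ≤ (m : ℤ) - n := by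
          by_contra hn
          rw [not_le] at hn
          have h4 : 1 < ‖(p : L)‖ ^ ((m : ℤ) - n) := one_lt_zpow_of_neg₀ hpn hp1 hn
          rw [← h2, he'] at h4
          exact absurd hz (not_le.2 h4)
        have h4 : n ≤ m := by omega
        refine ⟨(u : C) * (p : C) ^ (m - n), ?_⟩
        rw [map_mul, map_pow, map_natCast, ← he']
        have h5 : (p : L) ^ m = (p : L) ^ (m - n) * (p : L) ^ n := by
          rw [← pow_add]; congr 1; omega
        rw [h5, ← mul_assoc] at h1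
        exact (mul_right_cancel₀ (pow_ne_zero _ hp0) h1).symm
    · rintro ⟨c, rfl⟩
      exact ⟨⟨algebraMap C (FractionRing C) c, hf c⟩, hψ c⟩
  refine ⟨alg, ?_, ?_, hΛ⟩
  · intro e he
    obtain ⟨m, n, u, -, h2⟩ := hrep e he
    exact ⟨(m : ℤ) - n, h2⟩
  · apply IsClosed.isComplete
    rw [← closure_subset_iff_isClosed]
    intro z hz
    rw [Metric.mem_closure_iff] at hz
    choose w hw hwz using fun n : ℕ => hz (‖(p : L)‖ ^ n) (pow_pos hpn n)
    have hd : ∀ n, ‖w (n + 1) - w n‖ ≤ ‖(p : L)‖ ^ n := by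
      intro n
      have h1 : w (n + 1) - w n = (z - w n) + -(z - w (n + 1)) := by ring
      rw [h1]
      refine (IsUltrametricDist.norm_add_le_max _ _).trans (max_le ?_ ?_)
      · rw [← dist_eq_norm]; exact (hwz n).le
      · rw [norm_neg, ← dist_eq_norm]
        exact (hwz (n + 1)).le.trans (pow_le_pow_of_le_one hpn.le hp1.le (Nat.le_succ n))
    have hc : ∀ n, ∃ c : C, w (n + 1) - w n = (p : L) ^ n * ψ c := by
      intro n
      have h1 : (w (n + 1) - w n) / (p : L) ^ n ∈ Lam (FractionRing C) L := by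
        obtain ⟨e1, he1⟩ := hw (n + 1)
        obtain ⟨e2, he2⟩ := hw n
        refine ⟨⟨(e1 - e2) / (p : FractionRing C) ^ n, ?_⟩, ?_⟩
        · rw [map_div₀, map_sub, map_pow, map_natCast]
          have h3 : algebraMap (FractionRing C) L e1 = w (n + 1) := he1
          have h4 : algebraMap (FractionRing C) L e2 = w n := he2
          rw [h3, h4]
        · show ‖(w (n + 1) - w n) / (p : L) ^ n‖ ≤ 1
          rw [norm_div, norm_pow, div_le_one (pow_pos hpn n)]
          exact hd n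
      obtain ⟨c, hc⟩ := (hΛ _).1 h1
      refine ⟨c, ?_⟩
      rw [hc, mul_div_cancel₀ _ (pow_ne_zero _ hp0)]
    choose c hc using hc
    obtain ⟨t, ht⟩ := qb_prec (T := C) (fun n => ∑ i ∈ Finset.range n, (p : C) ^ i * c i) (by
      intro n
      rw [Finset.sum_range_succ, add_sub_cancel_left, hCm, Ideal.span_singleton_pow]
      exact Ideal.mem_span_singleton.2 (dvd_mul_right _ _))
    have hsum : ∀ n, ψ (∑ i ∈ Finset.range n, (p : C) ^ i * c i) = w n - w 0 := by
      intro n
      induction n with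
      | zero => simp
      | succ n ih =>
        rw [Finset.sum_range_succ, map_add, ih, map_mul, map_pow, map_natCast, ← hc n]
        ring
    have htn : ∀ n, ‖z - (w 0 + ψ t)‖ ≤ ‖(p : L)‖ ^ n := by
      intro n
      have h1 := ht n
      rw [hCm, Ideal.span_singleton_pow, Ideal.mem_span_singleton] at h1
      obtain ⟨s, hs⟩ := h1
      have h2 : z - (w 0 + ψ t) = (z - w n) + -(ψ (t - ∑ i ∈ Finset.range n, (p : C) ^ i * c i)) := by
        rw [map_sub, hsum]
        ring
      rw [h2]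
      refine (IsUltrametricDist.norm_add_le_max _ _).trans (max_le ?_ ?_)
      · rw [← dist_eq_norm]; exact (hwz n).le
      · rw [norm_neg, hs, map_mul, map_pow, map_natCast, norm_mul, norm_pow]
        exact mul_le_of_le_one_right (pow_nonneg hpn.le n) (hψ s)
    have hz0 : z = w 0 + ψ t := by
      rw [← sub_eq_zero, ← norm_eq_zero]
      refine le_antisymm ?_ (norm_nonneg _)
      exact ge_of_tendsto (tendsto_pow_atTop_nhds_zero_of_lt_one hpn.le hp1)
        (Filter.Eventually.of_forall htn)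
    rw [hz0]
    obtain ⟨e0, he0⟩ := hw 0
    refine ⟨e0 + algebraMap C (FractionRing C) t, ?_⟩
    rw [map_add]
    have h3 : algebraMap (FractionRing C) L e0 = w 0 := he0
    rw [h3]
    congr 1
    exact hf t

theorem exists_WB (p : ℕ) [Fact p.Prime] {K : Type} [NontriviallyNormedField K]
    [IsUltrametricDist K] [CharZero K] (hp1 : ‖(p : K)‖ < 1) (A : Subring K) [IsLocalRing A]
    [IsNoetherianRing A] (hA : Dom A.subtype) {r : ℕ}
    (hrank : ∀ z : Fin (r + 1) → K, (∀ i, z i ≠ 0) →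
      ∃ a : Fin (r + 1) → ℤ, a ≠ 0 ∧ ‖mon z a‖ = 1)
    (hres : ∀ z : K, ‖z‖ ≤ 1 → ∃ f : Polynomial A, (∃ n, ‖((f.coeff n : A) : K)‖ = 1) ∧
      ‖Polynomial.eval₂ A.subtype z f‖ < 1) :
    ∃ (E L0 : Type) (_ : Field E) (_ : NontriviallyNormedField L0) (_ : IsUltrametricDist L0)
      (_ : CompleteSpace L0) (_ : Algebra E L0) (j : K →+* L0)
      (φ : AdicCompletion (maximalIdeal A) A →+* L0),
      (∀ z, ‖j z‖ = ‖z‖) ∧ (∀ z : L0, ∀ ε : ℝ, 0 < ε → ∃ f : K, ‖z - j f‖ < ε) ∧
      AmbE p r E L0 ∧ Dom φ ∧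
      (∀ a : A, φ (algebraMap A (AdicCompletion (maximalIdeal A) A) a) = j a) ∧
      (∀ z ∈ Lam E L0, z ∈ φ.range) ∧ ∀ a : A, ∃ e ∈ Lam E L0, ‖j a - e‖ < 1 := by
  let L0 := UniformSpace.Completion K
  let j : K →+* L0 := UniformSpace.Completion.coeRingHom
  have hj : ∀ z, ‖j z‖ = ‖z‖ := fun z => UniformSpace.Completion.norm_coe z
  let nf : NontriviallyNormedField L0 :=
    { (inferInstance : NormedField L0) with
      non_trivial := by
        obtain ⟨x, hx⟩ := NontriviallyNormedField.non_trivial (α := K)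
        exact ⟨j x, by rw [hj]; exact hx⟩ }
  have hu : IsUltrametricDist L0 := qb_ultra
  have hd : ∀ z : L0, ∀ ε : ℝ, 0 < ε → ∃ f : K, ‖z - j f‖ < ε := by
    intro z ε hε
    obtain ⟨f, hf⟩ := (Metric.denseRange_iff.mp
      (UniformSpace.Completion.denseRange_coe (α := K))) z ε hε
    exact ⟨f, by rw [← dist_eq_norm]; exact hf⟩
  have hι : SameCompletion (algebraMap A (AdicCompletion (maximalIdeal A) A)) :=
    sameCompletion_adicCompletion A
  obtain ⟨φ, hφ, hφ1⟩ := exists_lift_ball A (L := L0) (j.comp A.subtype) (by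
    intro a
    rw [RingHom.comp_apply, hj]
    exact hA a)
  have hφa : ∀ a : A, φ (algebraMap A (AdicCompletion (maximalIdeal A) A) a) = j a := by
    intro a
    have h1 := congrArg (fun g => g a) hφ1
    simp only [RingHom.comp_apply] at h1
    exact h1
  have hpj : j (p : K) = (p : L0) := map_natCast j p
  have hpL1 : ‖(p : L0)‖ < 1 := by
    rw [← hpj, hj]; exact hp1
  have hpL0 : (p : L0) ≠ 0 := by
    rw [← hpj]
    exact (_root_.map_ne_zero j).2 (Nat.cast_ne_zero.2 (Fact.out : p.Prime).ne_zero)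
  have hpT : ((p : ℕ) : AdicCompletion (maximalIdeal A) A) ∈
      maximalIdeal (AdicCompletion (maximalIdeal A) A) := by
    refine ((hφ _).2).2 ?_
    rw [map_natCast]
    exact hpL1
  have hch : CharP (ResidueField (AdicCompletion (maximalIdeal A) A)) p := by
    rw [CharP.charP_iff_prime_eq_zero (Fact.out : p.Prime)]
    rw [← map_natCast (residue (AdicCompletion (maximalIdeal A) A)), residue_eq_zero_iff]
    exact hpT
  obtain ⟨C, iC, iCd, iCdvr, iCc, iC0, q, hCm, hq⟩ :=
    exists_cohen_ring p (ResidueField (AdicCompletion (maximalIdeal A) A))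
  obtain ⟨g, hg⟩ := exists_coefficient_map p (AdicCompletion (maximalIdeal A) A) hpT C hCm q
  obtain ⟨alg, h1, h2, h3⟩ := qb_field p hpL0 hpL1 C hCm (φ.comp g) (fun c => (hφ _).1)
  have hΛφ : ∀ z ∈ Lam (FractionRing C) L0, z ∈ φ.range := by
    intro z hz
    obtain ⟨c, hc⟩ := (h3 z).1 hz
    exact ⟨g c, hc⟩
  have hAΛ : ∀ a : A, ∃ e ∈ Lam (FractionRing C) L0, ‖j a - e‖ < 1 := by
    intro a
    obtain ⟨c, hc⟩ := hq (residue _ (algebraMap A (AdicCompletion (maximalIdeal A) A) a))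
    refine ⟨φ (g c), (h3 _).2 ⟨c, rfl⟩, ?_⟩
    rw [← hφa, ← map_sub]
    refine ((hφ _).2).1 ?_
    rw [← residue_eq_zero_iff, map_sub, ← hc, ← hg, RingHom.comp_apply, sub_self]
  refine ⟨FractionRing C, L0, inferInstance, nf, hu, inferInstance, alg, j, φ, hj, hd,
    ⟨(Fact.out : p.Prime), charZero_of_injective_ringHom j.injective, hpL1, h1, h2, ?_, ?_⟩,
    hφ, hφa, hΛφ, hAΛ⟩
  · intro z hz
    have h1 : ∀ i, ∃ f : K, ‖z i - j f‖ < ‖z i‖ := fun i => hd (z i) _ (norm_pos_iff.mpr (hz i))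
    choose f' hf' using h1
    have h2 : ∀ i, ‖f' i‖ = ‖z i‖ := by
      intro i
      rw [← hj]
      have h3 : j (f' i) = z i + -(z i - j (f' i)) := by ring
      rw [h3]
      have h4 : ‖-(z i - j (f' i))‖ < ‖z i‖ := by rw [norm_neg]; exact hf' i
      rw [IsUltrametricDist.norm_add_eq_max_of_norm_ne_norm h4.ne']
      exact max_eq_left h4.le
    obtain ⟨a, ha, ha1⟩ := hrank f' fun i => norm_pos_iff.mp (by
      rw [h2]; exact norm_pos_iff.mpr (hz i))
    refine ⟨a, ha, ?_⟩
    rw [qb_norm_mon] at ha1 ⊢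
    rw [← ha1]
    exact Finset.prod_congr rfl fun i _ => by rw [h2]
  · intro z hz
    obtain ⟨f', hf'⟩ := hd z 1 one_pos
    have hf1 : ‖j f'‖ ≤ 1 := by
      have h4 : j f' = z + -(z - j f') := by ring
      rw [h4]
      exact (IsUltrametricDist.norm_add_le_max _ _).trans
        (max_le hz (by rw [norm_neg]; exact hf'.le))
    have hf2 : ‖f'‖ ≤ 1 := by rw [← hj]; exact hf1
    obtain ⟨P, ⟨n, hn⟩, hP⟩ := hres f' hf2
    refine res_of_alg hz ?_
    have h5 : rs z = rs (j f') := (rs_eq_iff hz hf1).2 hf'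
    rw [h5]
    refine alg_of_res hf1 (P.map (j.comp A.subtype)) (fun i => ?_) ⟨n, ?_⟩ ?_
    · rw [Polynomial.coeff_map]
      exact hAΛ (P.coeff i)
    · rw [Polynomial.coeff_map, RingHom.comp_apply, hj]
      exact hn
    · rw [Polynomial.eval_map, ← Polynomial.hom_eval₂, hj]
      exact hP

end Pool.Agent.Lib.MX
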