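import Pool.Agent.Lib.MX.QDinH
import Pool.Agent.Lib.MX.QAD
import Pool.Agent.Lib.TDO.EtPres

/-!
# Module QApp1: for a large chart all elements of `HL` are approximable by fractions of `A`
-/

namespace Pool.Agent.Lib.MX

open Pool.Agent.Lib.MP_3029eb_ag Pool.Agent.Lib.MP_3029eb_ag.Abh Pool.Agent.Lib.TDO
open Pool.Agent.Lib.TU (Mt exists_Mt)
open Pool.Agent.Lib.TQ

variable {E W : Type} [Field E] [NormedField W] [IsUltrametricDist W] [Algebra E W] {r p : ℕ}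
  {S L : IntermediateField E W} {c c' c'' : Tri W r}

private theorem qapp_poly (F : IntermediateField E W) {τ : W} (hτ : IsIntegral F τ) {z : W}
    (hz : z ∈ F ⊔ IntermediateField.adjoin E {τ}) :
    ∃ Q : Polynomial F, Polynomial.aeval τ Q = z := by
  have h1 : F ⊔ IntermediateField.adjoin E {τ} ≤
      (IntermediateField.adjoin F {τ}).restrictScalars E := by
    refine sup_le ?_ ?_
    · intro u hu
      exact (IntermediateField.adjoin F {τ}).algebraMap_mem ⟨u, hu⟩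
    · rw [IntermediateField.adjoin_le_iff, Set.singleton_subset_iff]
      exact IntermediateField.mem_adjoin_simple_self F τ
  have h2 : z ∈ (IntermediateField.adjoin F {τ}).toSubalgebra := h1 hz
  rw [IntermediateField.adjoin_simple_toSubalgebra_of_isAlgebraic hτ.isAlgebraic,
    Algebra.adjoin_singleton_eq_range_aeval] at h2
  exact h2

/-- the elements of `E` are fractions of elements of `Λ` -/
private theorem qapp_E (hE : AmbE p r E W) (e : E) :
    ∃ a ∈ Lam E W, ∃ b ∈ Lam E W, b ≠ 0 ∧ algebraMap E W e * b = a := by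
  rcases le_total ‖algebraMap E W e‖ 1 with h | h
  · exact ⟨algebraMap E W e, ⟨⟨e, rfl⟩, h⟩, 1, one_mem _, one_ne_zero, mul_one _⟩
  · have h0 : algebraMap E W e ≠ 0 := by
      intro h0
      rw [h0, norm_zero] at h
      exact absurd h (not_le.2 one_pos)
    refine ⟨1, one_mem _, (algebraMap E W e)⁻¹, ⟨⟨e⁻¹, map_inv₀ _ _⟩, ?_⟩, inv_ne_zero h0,
      mul_inv_cancel₀ h0⟩
    show ‖(algebraMap E W e)⁻¹‖ ≤ 1
    rw [norm_inv]
    exact inv_le_one_of_one_le₀ h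

/-- fractions -/
private theorem qapp_frac (hE : AmbE p r E W) (T : Set W) {z : W}
    (hz : z ∈ IntermediateField.adjoin E T) :
    ∃ a ∈ Subring.closure ((Lam E W : Set W) ∪ T), ∃ b ∈ Subring.closure ((Lam E W : Set W) ∪ T),
      b ≠ 0 ∧ z * b = a := by
  refine IntermediateField.adjoin_induction E
    (p := fun z _ => ∃ a ∈ Subring.closure ((Lam E W : Set W) ∪ T),
      ∃ b ∈ Subring.closure ((Lam E W : Set W) ∪ T), b ≠ 0 ∧ z * b = a)
    (fun x hx => ⟨x, Subring.subset_closure (Or.inr hx), 1, one_mem _, one_ne_zero, mul_one x⟩)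
    (fun e => ?_) ?_ ?_ ?_ hz
  · obtain ⟨a, ha, b, hb, hb0, h⟩ := qapp_E hE e
    exact ⟨a, Subring.subset_closure (Or.inl ha), b, Subring.subset_closure (Or.inl hb), hb0, h⟩
  · rintro x y _ _ ⟨a, ha, b, hb, hb0, e⟩ ⟨a', ha', b', hb', hb0', e'⟩
    refine ⟨a * b' + a' * b, add_mem (mul_mem ha hb') (mul_mem ha' hb), b * b', mul_mem hb hb',
      mul_ne_zero hb0 hb0', ?_⟩
    rw [← e, ← e']; ring
  · rintro x _ ⟨a, ha, b, hb, hb0, e⟩
    by_cases hx : x = 0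
    · exact ⟨0, zero_mem _, 1, one_mem _, one_ne_zero, by rw [hx, inv_zero, zero_mul]⟩
    · refine ⟨b, hb, a, ha, ?_, ?_⟩
      · rw [← e]; exact mul_ne_zero hx hb0
      · rw [← e, ← mul_assoc, inv_mul_cancel₀ hx, one_mul]
  · rintro x y _ _ ⟨a, ha, b, hb, hb0, e⟩ ⟨a', ha', b', hb', hb0', e'⟩
    refine ⟨a * a', mul_mem ha ha', b * b', mul_mem hb hb', mul_ne_zero hb0 hb0', ?_⟩
    rw [← e, ← e']; ring

theorem app_AD (hC : CtX p S L c) (A : Subring W) {n q : ℕ} (t : Fin n → W)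
    (w w' : Fin q → W) (F F' : Fin q → Polynomial W) (N : ℕ)
    (hD : DatX p S L A t w w' F F' N)
    (hLF : L = cl (IntermediateField.adjoin E (Set.range t ∪ Set.range w')))
    (hSF : ∀ z : W, z ∈ S ↔
      IsAlgebraic (IntermediateField.adjoin E (Set.range t ∪ Set.range w')) z) :
    ∃ (c' : Tri W r) (x' : Fin r → W), CtX p S L c' ∧ Mx S c' x' ∧ A ≤ Cp (Bx c'.B x') ∧
      ∀ z ∈ HL c', z ∈ AD S c' A := by
  classical
  have hc0 := hC.amb.char0
  obtain ⟨c1, x1, hC1, hM1, hAB, htB, hw'B, hδM, hη⟩ := d_in_H hC A t w w' F F' N hD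
  obtain ⟨c2, h12⟩ := hC1.exists_stR
  have hC2 := hC1.rfS (Relation.ReflTransGen.single h12)
  have hE := hC.amb.ambE
  have hB1 : ∀ z ∈ Bx c1.B x1, z ∈ HO c1 := fun z hz => hM1.mem_HO hC1 hz
  obtain ⟨T, hT⟩ : ∃ T : Set W, T = Set.range t ∪ Set.range w' := ⟨_, rfl⟩
  rw [← hT] at hLF hSF
  obtain ⟨F2, hF2⟩ : ∃ F2 : IntermediateField E W, F2 = IntermediateField.adjoin E T := ⟨_, rfl⟩
  rw [← hF2] at hLF hSF
  have hTB : ∀ z ∈ T, z ∈ Bx c1.B x1 := by
    rw [hT]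
    rintro z (⟨i, rfl⟩ | ⟨j, rfl⟩)
    · exact htB i
    · exact hw'B j
  have hF2Fr : F2 ≤ Fr E c1 := by
    rw [hF2, IntermediateField.adjoin_le_iff]
    exact fun z hz => HO_mem_Fr hC1.gd (hB1 z (hTB z hz))
  obtain ⟨G1, hG1⟩ := hC1.gd.fg
  have hG1B : ∀ g ∈ G1, g ∈ c1.B := fun g hg => by
    rw [hG1]; exact subset_locV_closure (Or.inr hg)
  obtain ⟨i0, hi0⟩ := hD.tp
  have hp0 : (p : W) ≠ 0 := Nat.cast_ne_zero.2 hC.amb.prime.ne_zero
  have hpF : (p : W) ∈ F2 := by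
    rw [hF2]
    exact natCast_mem _ p
  obtain ⟨τ, P, hEt, hfld⟩ := exists_et F2 ⟨(p : W), hpF, hp0, hC.amb.p1⟩ G1 (fun g hg => ⟨by
    have h1 : IsAlgebraic F2 g := (hSF g).1 (hC1.gd.mem_S (hG1B g hg))
    exact PerfectField.separable_of_irreducible (minpoly.irreducible h1.isIntegral), by
    rw [← hLF]
    exact hC1.ch.le (B_le_Fr (hG1B g hg))⟩)
  have hτFr : τ ∈ Fr E c1 := by
    have h1 : F2 ⊔ IntermediateField.adjoin E (G1 : Set W) ≤ Fr E c1 := by
      refine sup_le hF2Fr ?_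
      rw [IntermediateField.adjoin_le_iff]
      exact fun g hg => B_le_Fr (hG1B g hg)
    rw [← hfld] at h1
    exact h1 ((le_sup_right : IntermediateField.adjoin E {τ} ≤ _)
      (IntermediateField.mem_adjoin_simple_self E τ))
  have hτint : IsIntegral F2 τ := by
    have h1 : τ ∈ S := by
      obtain ⟨a, ha, b, hb, hb0, e⟩ := (mem_Fr_iff hC1.gd τ).1 hτFr
      have h2 : τ = a / b := by rw [← e]; field_simp
      rw [h2]
      exact div_mem (hC1.gd.mem_S ha) (hC1.gd.mem_S hb)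
    exact ((hSF τ).1 h1).isIntegral
  -- the elements of `G1` as polynomials in `τ`
  have hQ : ∀ z : W, ∃ Q : Polynomial F2, z ∈ G1 → Polynomial.aeval τ Q = z := by
    intro z
    by_cases hz : z ∈ G1
    · have h1 : z ∈ F2 ⊔ IntermediateField.adjoin E {τ} := by
        rw [hfld]
        exact (le_sup_right : IntermediateField.adjoin E (G1 : Set W) ≤ _)
          (IntermediateField.subset_adjoin _ _ hz)
      obtain ⟨Q, hQ⟩ := qapp_poly F2 hτint h1
      exact ⟨Q, fun _ => hQ⟩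
    · exact ⟨0, fun h => absurd h hz⟩
  choose Q hQ using hQ
  obtain ⟨A0, hA0⟩ : ∃ A0 : Subring W, A0 = Subring.closure ((Lam E W : Set W) ∪ T) := ⟨_, rfl⟩
  have hLB : ∀ e ∈ Lam E W, e ∈ Bx c1.B x1 := fun e he => le_Bx (hC1.gd.lam_le he)
  have hA01 : ∀ a ∈ A0, a ∈ HO c1 := by
    have h1 : A0 ≤ HO c1 := by
      rw [hA0, Subring.closure_le]
      rintro z (hz | hz)
      · exact hB1 z (hLB z hz)
      · exact hB1 z (hTB z hz)
    exact fun a ha => h1 ha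
  have hfrac : ∀ z ∈ F2, ∃ ab : W × W, ab.1 ∈ A0 ∧ ab.2 ∈ A0 ∧ ab.2 ≠ 0 ∧ z * ab.2 = ab.1 := by
    intro z hz
    rw [hF2] at hz
    obtain ⟨a, ha, b, hb, hb0, h⟩ := qapp_frac hE T hz
    rw [← hA0] at ha hb
    exact ⟨(a, b), ha, hb, hb0, h⟩
  have hfr : ∀ z : F2, ∃ ab : W × W, ab.1 ∈ A0 ∧ ab.2 ∈ A0 ∧ ab.2 ≠ 0 ∧ (z : W) * ab.2 = ab.1 :=
    fun z => hfrac _ z.2
  choose ab hab1 hab2 hab0 habe using hfr
  -- the finite set of coefficients
  obtain ⟨K, hK⟩ : ∃ K : Finset F2, K = (Finset.range (P.natDegree + 1)).image (fun j => P.coeff j) ∪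
    G1.biUnion (fun z => (Finset.range ((Q z).natDegree + 1)).image (fun j => (Q z).coeff j)) :=
    ⟨_, rfl⟩
  obtain ⟨E1, hE1⟩ : ∃ E1 : Finset W, E1 = ((K.image (fun f => (ab f).1) ∪
    K.image (fun f => (ab f).2)) ∪ {τ}).filter (fun z => z ≠ 0) := ⟨_, rfl⟩
  have hE1M : ∀ z ∈ E1, z ∈ Fr E c2 ∧ z ≠ 0 := by
    intro z hz
    rw [hE1, Finset.mem_filter, Finset.mem_union, Finset.mem_union, Finset.mem_image,
      Finset.mem_image, Finset.mem_singleton] at hz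
    refine ⟨?_, hz.2⟩
    rw [h12.fr]
    rcases hz.1 with (⟨f, -, rfl⟩ | ⟨f, -, rfl⟩) | h
    · exact HO_mem_Fr hC1.gd (hA01 _ (hab1 f))
    · exact HO_mem_Fr hC1.gd (hA01 _ (hab2 f))
    · rw [h]; exact hτFr
  obtain ⟨c3, h23, hmo⟩ := thmA_fin hC.r0 hC.amb hC2.gd E1 hE1M
  have hC3 := hC2.rfS h23
  have h13 : RfS S c1 c3 := Relation.ReflTransGen.head h12 h23
  obtain ⟨x3, hM3, hle3⟩ := RfS.mx hC1 h13 hM1
  refine ⟨c3, x3, hC3, hM3, hAB.trans (Cp_mono (hM1.nl hC1) (hM3.nl hC3) (hle3.trans le_Cp)), ?_⟩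
  have hA3 : ∀ a ∈ A, a ∈ HC S c3 := fun a ha =>
    RfS.HC_le hC1 h13 ((mem_HC_iff hC1 a).2 ⟨x1, hM1, hAB ha⟩)
  have hB3 : ∀ z ∈ Bx c1.B x1, z ∈ HO c3 := fun z hz => h13.HO_le (hB1 z hz)
  have hADinv : ∀ a ∈ AD S c3 A, MoH c3 a → a⁻¹ ∈ AD S c3 A := fun a ha h => AD_inv hC3 hA3 ha h
  have hADun : ∀ a ∈ AD S c3 A, a ∈ HO c3 → ‖a‖ = 1 → a⁻¹ ∈ AD S c3 A :=
    fun a ha h h1 => hADinv a ha (MoH.of_unit h h1)
  have hfromD : ∀ z ∈ Cp A, z ∈ Bx c1.B x1 → z ∈ AD S c3 A := fun z hz hzB =>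
    AD_of_D hC1 hD.nl h12 h23 hM1 hAB hz (HO_le_HL (hB3 z hzB))
  have hLA : ∀ e ∈ Lam E W, e ∈ AD S c3 A := fun e he => hfromD e (hD.CD e he) (hLB e he)
  have htA : ∀ i, t i ∈ AD S c3 A := fun i => hfromD _ (hD.tD i).1 (htB i)
  have hcl : Subring.closure ((Lam E W : Set W) ∪ Set.range t) ≤ AD S c3 A := by
    rw [Subring.closure_le]
    rintro z (hz | ⟨i, rfl⟩)
    · exact hLA z hz
    · exact htA i
  have hclO : Subring.closure ((Lam E W : Set W) ∪ Set.range t) ≤ HO c3 := by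
    rw [Subring.closure_le]
    rintro z (hz | ⟨i, rfl⟩)
    · exact hB3 z (hLB z hz)
    · exact hB3 _ (htB i)
  have hPt : ∀ z ∈ PtX E t, z ∈ AD S c3 A ∧ z ∈ HO c3 := by
    rintro z ⟨a, ha, b, hb, hb1, e⟩
    have h1 : ‖b‖ = 1 := (ball_val_eq_one b).1 hb1
    have hb0 : b ≠ 0 := norm_pos_iff.1 (by rw [h1]; exact one_pos)
    have h2 : z = a * b⁻¹ := by rw [← e, mul_assoc, mul_inv_cancel₀ hb0, mul_one]
    rw [h2]
    exact ⟨mul_mem (hcl ha) (hADun b (hcl hb) (hclO hb) h1),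
      mul_mem (hclO ha) (inv_mem_HO hC3.gd (hclO hb) h1)⟩
  have hw'A : ∀ j, w' j ∈ AD S c3 A := by
    intro j
    obtain ⟨η, hηB, hη1, hηe⟩ := hη j
    have hηQ : η ∈ QC S c3 := HC_lt_one hC1 h12 h23
      ((mem_HC_iff hC1 η).2 ⟨x1, hM1, hηB⟩) hη1
    refine AD_newton (q := -η) (b := w j) hC3 hA3 (F' j) (fun i => hPt _ (hD.FP' j i))
      (hB3 _ (hw'B j)) (hD.root' j) (MoC.of_MoH hC3 (h13.moH (hδM j)))
      (AfC_le hC3 (hD.wA j).1) (hA3 _ (hD.wA j).1) (QC_neg hηQ) ?_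
    rw [hηe]; ring
  have hA0A : A0 ≤ AD S c3 A := by
    rw [hA0, Subring.closure_le]
    rintro z (hz | hz)
    · exact hLA z hz
    · rw [hT] at hz
      rcases hz with ⟨i, rfl⟩ | ⟨j, rfl⟩
      · exact htA i
      · exact hw'A j
  have hA0H : ∀ a ∈ A0, a ∈ HO c3 := fun a ha => h13.HO_le (hA01 a ha)
  -- the coefficients
  have hden : ∀ f ∈ K, MoH c3 (ab f).2 := by
    intro f hf
    refine hmo _ ?_
    rw [hE1, Finset.mem_filter, Finset.mem_union, Finset.mem_union]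
    exact ⟨Or.inl (Or.inr (Finset.mem_image_of_mem _ hf)), hab0 f⟩
  have hKA : ∀ f ∈ K, (f : W) ∈ AD S c3 A := by
    intro f hf
    have h1 : (f : W) = (ab f).1 * ((ab f).2)⁻¹ := by
      rw [← habe f]
      have := hab0 f
      field_simp
    rw [h1]
    exact mul_mem (hA0A (hab1 f)) (hADinv _ (hA0A (hab2 f)) (hden f hf))
  have hKm : ∀ f ∈ K, (f : W) = 0 ∨ MoH c3 (f : W) := by
    intro f hf
    by_cases h0 : (f : W) = 0
    · exact Or.inl h0
    · right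
      have hn0 : (ab f).1 ≠ 0 := by
        rw [← habe f]
        exact mul_ne_zero h0 (hab0 f)
      have hnum : MoH c3 (ab f).1 := by
        refine hmo _ ?_
        rw [hE1, Finset.mem_filter, Finset.mem_union, Finset.mem_union]
        exact ⟨Or.inl (Or.inl (Finset.mem_image_of_mem _ hf)), hn0⟩
      have h1 : (f : W) = (ab f).1 * ((ab f).2)⁻¹ := by
        rw [← habe f]
        have := hab0 f
        field_simp
      rw [h1]
      exact MoH.mul hC3.gd hnum (MoH.inv hC3.gd (hden f hf))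
  have hPK : ∀ j, ((P.coeff j : F2) : W) ∈ AD S c3 A ∧ (((P.coeff j : F2) : W) = 0 ∨
      MoH c3 ((P.coeff j : F2) : W)) := by
    intro j
    by_cases hj : j ≤ P.natDegree
    · have : P.coeff j ∈ K := by
        rw [hK, Finset.mem_union]
        exact Or.inl (Finset.mem_image_of_mem _ (Finset.mem_range.2 (Nat.lt_succ_of_le hj)))
      exact ⟨hKA _ this, hKm _ this⟩
    · rw [Polynomial.coeff_eq_zero_of_natDegree_lt (not_le.1 hj)]
      exact ⟨zero_mem _, Or.inl rfl⟩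
  have hQK : ∀ z ∈ G1, ∀ j, (((Q z).coeff j : F2) : W) ∈ AD S c3 A := by
    intro z hz j
    by_cases hj : j ≤ (Q z).natDegree
    · have : (Q z).coeff j ∈ K := by
        rw [hK, Finset.mem_union, Finset.mem_biUnion]
        exact Or.inr ⟨z, hz, Finset.mem_image_of_mem _
          (Finset.mem_range.2 (Nat.lt_succ_of_le hj))⟩
      exact hKA _ this
    · rw [Polynomial.coeff_eq_zero_of_natDegree_lt (not_le.1 hj)]
      exact zero_mem _
  have hPn : ∀ j, ‖((P.coeff j : F2) : W)‖ ≤ 1 := by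
    intro j
    by_cases hj : j = 1
    · rw [hj, hEt.c1]
      exact norm_one.le
    · exact (hEt.cj j hj).le
  obtain ⟨Pw, hPw⟩ : ∃ Pw : Polynomial W, Pw = P.map (algebraMap F2 W) := ⟨_, rfl⟩
  have hPwc : ∀ j, Pw.coeff j = ((P.coeff j : F2) : W) := by
    intro j
    rw [hPw, Polynomial.coeff_map]
    rfl
  have hPH : ∀ j, Pw.coeff j ∈ HO c3 := by
    intro j
    rw [hPwc]
    rcases (hPK j).2 with h | h
    · rw [h]
      exact zero_mem _
    · exact MoH.mem_HO hC3.gd h (hPn j)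
  have hroot : Pw.eval τ = 0 := by
    rw [hPw, Polynomial.eval_map_algebraMap]
    exact hEt.root
  have hτM : τ = 0 ∨ MoH c3 τ := by
    by_cases h0 : τ = 0
    · exact Or.inl h0
    · right
      refine hmo _ ?_
      rw [hE1, Finset.mem_filter, Finset.mem_union]
      exact ⟨Or.inr (Finset.mem_singleton_self _), h0⟩
  have hτH : τ ∈ HO c3 := by
    rcases hτM with h | h
    · rw [h]; exact zero_mem _
    · exact MoH.mem_HO hC3.gd h hEt.lt.le
  have hτQ : τ ∈ QC S c3 := by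
    rcases hτM with h | h
    · rw [h]; exact QC_zero hC3
    · exact (MoC.of_MoH hC3 h).mem_QC hC3 hEt.lt
  have hdH : Pw.derivative.eval τ ∈ HO c3 := by
    rw [Polynomial.eval_eq_sum_range]
    refine sum_mem fun j _ => mul_mem ?_ (pow_mem hτH j)
    rw [Polynomial.coeff_derivative]
    exact mul_mem (hPH _) (add_mem (natCast_mem _ j) (one_mem _))
  have hd1 : ‖Pw.derivative.eval τ‖ = 1 := by
    have h1 := (norm_eval_close Pw Pw (fun j => by rw [hPwc]; exact hPn j) (ε := 0)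
      (fun j => by rw [sub_self, norm_zero]) (a := τ) (b := 0) hEt.lt.le
      (by rw [norm_zero]; exact zero_le_one)).2
    have h2 : Pw.derivative.eval 0 = 1 := by
      rw [← Polynomial.coeff_zero_eq_eval_zero, Polynomial.coeff_derivative, hPwc]
      simp [hEt.c1]
    rw [h2, sub_zero, max_eq_left (norm_nonneg _)] at h1
    have h3 : ‖Pw.derivative.eval τ - 1‖ < 1 := h1.trans_lt hEt.lt
    have h4 : Pw.derivative.eval τ = 1 + (Pw.derivative.eval τ - 1) := by ring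
    rw [h4, IsUltrametricDist.norm_add_eq_max_of_norm_ne_norm, norm_one, max_eq_left h3.le]
    rw [norm_one]
    exact h3.ne'
  have hτA : τ ∈ AD S c3 A := by
    refine AD_newton (q := τ * (Pw.derivative.eval τ)⁻¹) (b := 0) hC3 hA3 Pw (fun j => ⟨?_, hPH j⟩)
      hτH hroot (MoC.of_unit (HO_le_HC hC3 hdH) hd1) (zero_mem _) (zero_mem _)
      (QC_mul hτQ (inv_mem_HC hC3 (HO_le_HC hC3 hdH) hd1)) ?_
    · rw [hPwc]
      exact (hPK j).1
    · have h1 : Pw.derivative.eval τ ≠ 0 := by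
        intro h
        rw [h, norm_zero] at hd1
        exact zero_ne_one hd1
      rw [sub_zero]
      field_simp
  have hGA : ∀ g ∈ G1, g ∈ AD S c3 A := by
    intro g hg
    rw [← hQ g hg, Polynomial.aeval_eq_sum_range]
    refine sum_mem fun j _ => ?_
    rw [Algebra.smul_def]
    exact mul_mem (hQK g hg j) (pow_mem hτA j)
  -- localizations
  have hloc : ∀ X : Set W, (∀ z ∈ X, z ∈ AD S c3 A ∧ z ∈ HO c3) →
      ∀ z ∈ locV (ball W) (Subring.closure X), z ∈ AD S c3 A ∧ z ∈ HO c3 := by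
    intro X hX
    have h1 : Subring.closure X ≤ AD S c3 A := Subring.closure_le.2 fun z hz => (hX z hz).1
    have h2 : Subring.closure X ≤ HO c3 := Subring.closure_le.2 fun z hz => (hX z hz).2
    rintro z ⟨a, ha, b, hb, hb1, e⟩
    have h3 : ‖b‖ = 1 := (ball_val_eq_one b).1 hb1
    have hb0 : b ≠ 0 := norm_pos_iff.1 (by rw [h3]; exact one_pos)
    have h4 : z = a * b⁻¹ := by rw [← e, mul_assoc, mul_inv_cancel₀ hb0, mul_one]
    rw [h4]
    exact ⟨mul_mem (h1 ha) (hADun b (h1 hb) (h2 hb) h3),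
      mul_mem (h2 ha) (inv_mem_HO hC3.gd (h2 hb) h3)⟩
  have hBA : ∀ z ∈ c1.B, z ∈ AD S c3 A ∧ z ∈ HO c3 := by
    intro z hz
    rw [hG1] at hz
    refine hloc _ ?_ z hz
    rintro v (hv | hv)
    · exact ⟨hLA v hv, hB3 v (hLB v hv)⟩
    · exact ⟨hGA v hv, hB3 v (le_Bx (hG1B v hv))⟩
  have hxA : ∀ a : Fin r → ℤ, mon c1.x a ∈ AD S c3 A := by
    intro a
    unfold mon
    refine prod_mem fun i _ => ?_
    have h1 := (hBA _ (hC1.gd.xB i)).1
    cases a i with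
    | ofNat m =>
      rw [Int.ofNat_eq_natCast, zpow_natCast]
      exact pow_mem h1 m
    | negSucc m =>
      rw [zpow_negSucc, ← inv_pow]
      exact pow_mem (hADinv _ h1 (h13.x_moH hC1.gd i)) _
  have hHA : ∀ z ∈ HO c1, z ∈ AD S c3 A := by
    intro z hz
    obtain ⟨x', hx', hz'⟩ := (mem_HO_iff hC1.gd z).1 hz
    refine (hloc _ ?_ z hz').1
    rintro v (hv | ⟨i, rfl⟩)
    · exact hBA v hv
    · obtain ⟨b, hb⟩ := Mt.mon_eq' hC1.gd.ind hx' (Pi.single i 1)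
      rw [mon_single] at hb
      refine ⟨?_, ?_⟩
      · rw [hb]
        exact hxA b
      · exact h13.HO_le (Bx_mem_HO hC1.gd hx' (x_mem_Bx i))
  intro z hz
  obtain ⟨n', hn', d, hd, hdM, e⟩ := h13.frac hC1.gd hz
  have h1 : z = n' * d⁻¹ := by
    rw [← e, mul_assoc, mul_inv_cancel₀ (hdM.ne hC3.gd), mul_one]
  rw [h1]
  exact mul_mem (hHA n' hn') (hADinv d (hHA d hd) hdM)

end Pool.Agent.Lib.MX
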