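import Pool.Agent.Lib.MX.QDefs
import Pool.Agent.Lib.MX.Dim
import Pool.Agent.Lib.TQ.CpC
import Pool.Agent.Lib.MP_3029eb_ag.Comp1

/-!
# Module QFin: the completion of `A` is finite over the completion of `Λ[t]`
-/

namespace Pool.Agent.Lib.MX

open Pool.Agent.Lib.MP_3029eb_ag Pool.Agent.Lib.MP_3029eb_ag.Abh Pool.Agent.Lib.TDO
open Pool.Agent.Lib.TQ

variable {E W : Type} [Field E] [NormedField W] [IsUltrametricDist W] [Algebra E W] {p r : ℕ}

/-- The maximal ideal of `Λ` is generated by `p`. -/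
theorem lam_lt (hE : AmbE p r E W) {e : W} (he : e ∈ Lam E W) (h1 : ‖e‖ < 1) :
    ∃ e' ∈ Lam E W, e = p * e' := by
  have hp0 : (p : W) ≠ 0 := by
    have := hE.char0
    exact Nat.cast_ne_zero.2 hE.prime.ne_zero
  have hpn : 0 < ‖(p : W)‖ := norm_pos_iff.2 hp0
  by_cases h0 : e = 0
  · exact ⟨0, zero_mem _, by rw [h0, mul_zero]⟩
  obtain ⟨⟨c, hc⟩, hc1⟩ := he
  have hc0 : c ≠ 0 := by
    rintro rfl
    exact h0 (by rw [← hc]; exact map_zero _)
  have hc' : algebraMap E W c = e := hc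
  obtain ⟨n, hn⟩ := hE.dvr c hc0
  have hn1 : 1 ≤ n := by
    by_contra h2
    have h3 : n ≤ 0 := by omega
    rw [hc'] at hn
    rw [hn] at h1
    exact absurd h1 (not_lt.2 (one_le_zpow_of_nonpos₀ hpn hE.p1.le h3))
  refine ⟨e / p, ⟨⟨c / p, ?_⟩, ?_⟩, by field_simp⟩
  · rw [map_div₀, map_natCast]
    show algebraMap E W c / p = e / p
    rw [hc']
  · show ‖e / p‖ ≤ 1
    rw [norm_div, div_le_one hpn, ← hc', hn]
    calc ‖(p : W)‖ ^ n ≤ ‖(p : W)‖ ^ (1 : ℤ) :=
          zpow_le_zpow_right_of_le_one₀ hpn hE.p1.le hn1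
      _ = ‖(p : W)‖ := zpow_one _

/-- The ring `Λ[t]` is noetherian. -/
theorem ptx_noeth (hE : AmbE p r E W) {n : ℕ} (t : Fin n → W) :
    IsNoetherianRing (Subring.closure ((Lam E W : Set W) ∪ Set.range t)) := by
  classical
  have h1 := lam_noeth hE
  have h2 := isNoetherianRing_closure (A := Lam E W) (Finset.univ.image t)
  rw [Finset.coe_image, Finset.coe_univ, Set.image_univ] at h2
  exact h2

theorem q_fin (hAE : AmbE p r E W) {X : Subfield W} {D : Subring W} (hD : Nl X D)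
    (hDc : Cp D = D) (hC0D : ∀ e ∈ Lam E W, e ∈ D)
    (hres : ∀ z ∈ D, ∃ e ∈ Lam E W, ‖z - e‖ < 1) {n : ℕ} (t : Fin n → W)
    (htp : ∃ i, t i = (p : W))
    (ht : ∀ i, t i ∈ D ∧ ‖t i‖ < 1) (N : ℕ)
    (hN : ∀ z ∈ mP D N, z ∈ Submodule.span D (Set.range t)) :
    Nl X (PtX E t) ∧ Cp (PtX E t) ≤ D ∧
      (∀ z ∈ PtX E t, ‖z‖ < 1 → z ∈ Submodule.span (PtX E t) (Set.range t)) ∧
      ∃ (l : ℕ) (v : Fin l → W), (∀ i, v i ∈ D) ∧
        ∀ z ∈ D, ∃ c : Fin l → W, (∀ i, c i ∈ Cp (PtX E t)) ∧ z = ∑ i, c i * v i := by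
  obtain ⟨R, hE⟩ : ∃ R : Subring W, R = Subring.closure ((Lam E W : Set W) ∪ Set.range t) :=
    ⟨_, rfl⟩
  have hEn : IsNoetherianRing R := by
    rw [hE]; exact ptx_noeth hAE t
  have hPE : PtX E t = locV (ball W) R := by rw [hE]; rfl
  obtain ⟨P, hPdef⟩ : ∃ P : Subring W, P = PtX E t := ⟨_, rfl⟩
  rw [← hPdef] at hPE ⊢
  have hED : R ≤ D := by
    rw [hE, Subring.closure_le]
    rintro z (hz | ⟨j, rfl⟩)
    · exact hC0D z hz
    · exact (ht j).1
  have hLD : P ≤ D := by
    have h1 := locV_mono (ball W) hED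
    rw [hPE]
    rwa [hD.locV_eq] at h1
  have hNl : Nl X P :=
    { comp := hD.comp
      nt := hD.nt
      le := fun z hz => hD.le z (hLD hz)
      one := fun z hz => hD.one z (hLD hz)
      inv := fun z hz h1 => by
        rw [hPE] at hz ⊢
        exact E5_inv (locV_locV (ball W) R) hz ((ball_val_eq_one z).2 h1)
      noeth := by
        rw [hPE]
        exact isNoetherianRing_locV (ball W) }
  have hEL : R ≤ P := by
    rw [hPE]
    exact le_locV (ball W) R
  have hC0E : ∀ e ∈ Lam E W, e ∈ R := by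
    intro e he
    rw [hE]
    exact Subring.subset_closure (Or.inl he)
  have htE : ∀ j, t j ∈ R := by
    intro j
    rw [hE]
    exact Subring.subset_closure (Or.inr ⟨j, rfl⟩)
  have hlt : ∀ y ∈ Submodule.span P (Set.range t), ‖y‖ < 1 := by
    intro y hy
    induction hy using Submodule.span_induction with
    | mem x hx =>
      obtain ⟨i, rfl⟩ := hx
      exact (ht i).2
    | zero => rw [norm_zero]; exact zero_lt_one
    | add x y _ _ hx hy =>
      exact (IsUltrametricDist.norm_add_le_max x y).trans_lt (max_lt hx hy)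
    | smul a x _ hx =>
      have h1 : a • x = (a : W) * x := rfl
      rw [h1, norm_mul]
      exact lt_of_le_of_lt (mul_le_of_le_one_left (norm_nonneg _) (hNl.one a a.2)) hx
  have hdec : ∀ a ∈ R, ∃ e ∈ Lam E W, a - e ∈ Submodule.span P (Set.range t) := by
    intro a ha
    have ha' := ha
    rw [hE] at ha
    induction ha using Subring.closure_induction with
    | mem x hx =>
      rcases hx with hx | hx
      · exact ⟨x, hx, by rw [sub_self]; exact zero_mem _⟩
      · exact ⟨0, zero_mem _, by rw [sub_zero]; exact Submodule.subset_span hx⟩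
    | zero => exact ⟨0, zero_mem _, by rw [sub_zero]; exact zero_mem _⟩
    | one => exact ⟨1, one_mem _, by rw [sub_self]; exact zero_mem _⟩
    | add x y hx hy h1 h2 =>
      rw [← hE] at hx hy
      obtain ⟨e, he, h1⟩ := h1 hx
      obtain ⟨e', he', h2⟩ := h2 hy
      refine ⟨e + e', add_mem he he', ?_⟩
      rw [add_sub_add_comm]
      exact add_mem h1 h2
    | neg x hx h1 =>
      rw [← hE] at hx
      obtain ⟨e, he, h1⟩ := h1 hx
      refine ⟨-e, neg_mem he, ?_⟩
      have h3 : -x - -e = -(x - e) := by ring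
      rw [h3]
      exact neg_mem h1
    | mul x y hx hy h1 h2 =>
      rw [← hE] at hx hy
      obtain ⟨e, he, h1⟩ := h1 hx
      obtain ⟨e', he', h2⟩ := h2 hy
      refine ⟨e * e', mul_mem he he', ?_⟩
      have h3 : x * y - e * e' = (⟨x, hEL hx⟩ : P) • (y - e') +
          (⟨e', hEL (hC0E e' he')⟩ : P) • (x - e) := by
        show _ = x * (y - e') + e' * (x - e)
        ring
      rw [h3]
      exact add_mem (Submodule.smul_mem _ _ h2) (Submodule.smul_mem _ _ h1)
  have hgenP : ∀ z ∈ P, ‖z‖ < 1 → z ∈ Submodule.span P (Set.range t) := by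
    intro z hz hz1
    have hz' := hz
    rw [hPE] at hz'
    obtain ⟨a, ha, b, hb, hb1, hab⟩ := hz'
    have hb2 : ‖b‖ = 1 := (ball_val_eq_one b).1 hb1
    have hb0 : b ≠ 0 := by
      intro h0
      rw [h0, norm_zero] at hb2
      exact zero_ne_one hb2
    have ha1 : ‖a‖ < 1 := by rw [← hab, norm_mul, hb2, mul_one]; exact hz1
    obtain ⟨e, he, h1⟩ := hdec a ha
    have he0 : e ∈ Submodule.span P (Set.range t) := by
      have h3 : e = a + -(a - e) := by ring
      have h4 : ‖e‖ < 1 := by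
        rw [h3]
        refine (IsUltrametricDist.norm_add_le_max _ _).trans_lt (max_lt ha1 ?_)
        rw [norm_neg]
        exact hlt _ h1
      obtain ⟨e', he', hee⟩ := lam_lt hAE he h4
      obtain ⟨i, hi⟩ := htp
      have h6 : e = (⟨e', hEL (hC0E e' he')⟩ : P) • t i := by
        show e = e' * t i
        rw [hi, hee, mul_comm]
      rw [h6]
      exact Submodule.smul_mem _ _ (Submodule.subset_span ⟨i, rfl⟩)
    replace h1 : a ∈ Submodule.span P (Set.range t) := by
      have h3 : a = (a - e) + e := by ring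
      rw [h3]
      exact add_mem h1 he0
    have h5 : z = (⟨b⁻¹, hNl.inv b (hEL hb) hb2⟩ : P) • a := by
      show z = b⁻¹ * a
      rw [← hab]
      field_simp
    rw [h5]
    exact Submodule.smul_mem _ _ h1
  have hCD : Cp P ≤ D := by
    have h1 : Cp P ≤ Cp D := Cp_mono hNl hD (by rw [hDc]; exact hLD)
    rwa [hDc] at h1
  refine ⟨hNl, hCD, hgenP, cp_fin hNl hD hDc hLD ?_ N ?_⟩
  · intro z hz
    obtain ⟨e, he, h1⟩ := hres z hz
    exact ⟨e, hEL (hC0E e he), h1⟩
  · intro z hz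
    refine Submodule.span_mono ?_ (hN z hz)
    rintro _ ⟨i, rfl⟩
    exact ⟨hEL (htE i), (ht i).2⟩

end Pool.Agent.Lib.MX
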