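import Pool.Agent.Lib.MX.BxB
import Pool.Agent.Lib.MX.QFin
import Pool.Agent.Lib.TDO.Mon

/-!
# Module QCh0: the first chart
-/

namespace Pool.Agent.Lib.MX

open Pool.Agent.Lib.MP_3029eb_ag Pool.Agent.Lib.MP_3029eb_ag.Abh Pool.Agent.Lib.TDO
open Pool.Agent.Lib.TU (Mt exists_Mt)

section
variable {W : Type} [NormedField W] [IsUltrametricDist W] {r : ℕ}

/-- the norm of a sum of elements with pairwise distinct norms -/
theorem exists_norm_sum {ι : Type} (s : Finset ι) (hs : s.Nonempty) (f : ι → W)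
    (hne : ∀ i ∈ s, ∀ j ∈ s, i ≠ j → ‖f i‖ ≠ ‖f j‖) : ∃ i ∈ s, ‖∑ i ∈ s, f i‖ = ‖f i‖ := by
  classical
  induction hs using Finset.Nonempty.cons_induction with
  | singleton a => exact ⟨a, Finset.mem_singleton_self a, by rw [Finset.sum_singleton]⟩
  | cons a s ha hs ih =>
    obtain ⟨i, hi, h1⟩ := ih fun i hi j hj => hne i (Finset.mem_cons_of_mem hi) j
      (Finset.mem_cons_of_mem hj)
    rw [Finset.sum_cons]
    have h2 : ‖f a‖ ≠ ‖∑ i ∈ s, f i‖ := by
      rw [h1]
      refine hne a (Finset.mem_cons_self a s) i (Finset.mem_cons_of_mem hi) ?_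
      rintro rfl
      exact ha hi
    rw [IsUltrametricDist.norm_add_eq_max_of_norm_ne_norm h2]
    rcases max_cases ‖f a‖ ‖∑ i ∈ s, f i‖ with ⟨h, -⟩ | ⟨h, -⟩
    · exact ⟨a, Finset.mem_cons_self a s, h⟩
    · exact ⟨i, Finset.mem_cons_of_mem hi, by rw [h, h1]⟩

private theorem qch_mon_smul {W : Type} [Field W] (x : Fin r → W) (n : ℤ) (a : Fin r → ℤ) :
    mon x (n • a) = mon x a ^ n := by
  unfold mon
  rw [← Finset.prod_zpow]
  refine Finset.prod_congr rfl fun i _ => ?_
  rw [Pi.smul_apply, smul_eq_mul, mul_comm, zpow_mul]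

omit [IsUltrametricDist W] in
/-- exchange of one of the independent elements -/
theorem indep_exch {x : Fin r → W} (hx : Indep x) {u : W} (hu0 : u ≠ 0) (hu1 : ‖u‖ < 1)
    (hrank : ∀ z : Fin (r + 1) → W, (∀ i, z i ≠ 0) → ∃ a : Fin (r + 1) → ℤ, a ≠ 0 ∧ ‖mon z a‖ = 1) :
    ∃ j, Indep (Function.update x j u) := by
  classical
  obtain ⟨a, ha0, ha⟩ := hrank (Fin.cons u x) (by
    intro i
    refine Fin.cases ?_ (fun i => ?_) i
    · rw [Fin.cons_zero]; exact hu0
    · rw [Fin.cons_succ]; exact hx.ne i)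
  have h1 : ‖u ^ a 0‖ * ‖mon x (fun i => a i.succ)‖ = 1 := by
    rw [← ha, ← norm_mul]
    congr 1
    unfold mon
    rw [Fin.prod_univ_succ, Fin.cons_zero]
    simp only [Fin.cons_succ]
  have h2 : a 0 ≠ 0 := by
    intro h0
    rw [h0, zpow_zero, norm_one, one_mul] at h1
    have h3 := hx.indep _ h1
    apply ha0
    funext i
    refine Fin.cases h0 (fun i => ?_) i
    exact congrFun h3 i
  have h3 : ∃ j : Fin r, a j.succ ≠ 0 := by
    by_contra hc
    push Not at hc
    have h4 : (fun i : Fin r => a i.succ) = 0 := funext hc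
    rw [h4, TDO.mon_zero, norm_one, mul_one, norm_zpow] at h1
    have h5 := (zpow_eq_one_iff_right₀ (norm_nonneg u) hu1.ne).1 h1
    exact h2 h5
  obtain ⟨j, hj⟩ := h3
  refine ⟨j, fun i => ?_, fun i => ?_, fun δ hδ => ?_⟩
  · by_cases h : i = j
    · rw [h, Function.update_self]; exact hu0
    · rw [Function.update_of_ne h]; exact hx.ne i
  · by_cases h : i = j
    · rw [h, Function.update_self]; exact hu1
    · rw [Function.update_of_ne h]; exact hx.lt i
  · -- `mon (update x j u) δ = u ^ δ j * mon x (update δ j 0)`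
    have h4 : mon (Function.update x j u) δ = u ^ δ j * mon x (Function.update δ j 0) := by
      unfold mon
      rw [← Finset.mul_prod_erase _ _ (Finset.mem_univ j),
        ← Finset.mul_prod_erase Finset.univ (fun i => x i ^ Function.update δ j 0 i)
          (Finset.mem_univ j), Function.update_self, Function.update_self, zpow_zero, one_mul]
      congr 1
      refine Finset.prod_congr rfl fun i hi => ?_
      have h5 := Finset.ne_of_mem_erase hi
      rw [Function.update_of_ne h5, Function.update_of_ne h5]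
    have h5 : ‖mon x (fun i => -(δ j) * a i.succ + a 0 * Function.update δ j 0 i)‖ = 1 := by
      have h6 : (fun i => -(δ j) * a i.succ + a 0 * Function.update δ j 0 i) =
          (-(δ j)) • (fun i : Fin r => a i.succ) + (a 0) • (Function.update δ j 0) := by
        funext i
        simp only [Pi.add_apply, Pi.smul_apply, smul_eq_mul]
      rw [h6, TDO.mon_add x hx.ne, qch_mon_smul, qch_mon_smul, norm_mul, norm_zpow, norm_zpow]
      have h7 : ‖mon x fun i => a i.succ‖ = (‖u ^ a 0‖)⁻¹ :=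
        eq_inv_of_mul_eq_one_right h1
      have h8 : ‖mon x (Function.update δ j 0)‖ = (‖u ^ δ j‖)⁻¹ := by
        rw [h4, norm_mul] at hδ
        exact eq_inv_of_mul_eq_one_right hδ
      have hu : ‖u‖ ≠ 0 := norm_ne_zero_iff.2 hu0
      rw [h7, h8, norm_zpow, norm_zpow, inv_zpow, inv_zpow, ← zpow_mul, ← zpow_mul,
        ← mul_inv, ← zpow_add₀ hu]
      have h9 : a 0 * -δ j + δ j * a 0 = 0 := by ring
      rw [h9, zpow_zero, inv_one]
    have h6 := hx.indep _ h5
    have h7 := congrFun h6 j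
    simp only [Function.update_self, mul_zero, add_zero, Pi.zero_apply] at h7
    have h8 : δ j = 0 := by
      rcases mul_eq_zero.1 h7 with h | h
      · exact neg_eq_zero.1 h
      · exact absurd h hj
    funext i
    by_cases h : i = j
    · rw [h]; exact h8
    · have h9 := congrFun h6 i
      rw [h8] at h9
      simp only [Function.update_of_ne h, neg_zero, zero_mul, zero_add, Pi.zero_apply] at h9
      exact (mul_eq_zero.1 h9).resolve_left h2

end

variable {E W : Type} [Field E] [NormedField W] [IsUltrametricDist W] [Algebra E W] {p r : ℕ}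

/-- independence of the norms and algebraic independence -/
theorem algInd_x (hE : AmbE p r E W) {x : Fin r → W} (hx : Indep x) {j : Fin r}
    (hxj : x j = p) : AlgebraicIndependent E (fun i : {i : Fin r // i ≠ j} => x i) := by
  classical
  rw [algebraicIndependent_iff]
  intro P hP
  by_contra hP0
  have h1 : ∀ m : {i : Fin r // i ≠ j} →₀ ℕ, ∃ n : ℤ, m ∈ P.support →
      ‖algebraMap E W (P.coeff m)‖ = ‖(p : W)‖ ^ n := by
    intro m
    by_cases hm : m ∈ P.support
    · obtain ⟨n, hn⟩ := hE.dvr (P.coeff m) (MvPolynomial.mem_support_iff.1 hm)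
      exact ⟨n, fun _ => hn⟩
    · exact ⟨0, fun h => absurd h hm⟩
  choose n hn using h1
  obtain ⟨δ, hδ⟩ : ∃ δ : ({i : Fin r // i ≠ j} →₀ ℕ) → Fin r → ℤ, δ = fun m i =>
    if h : i = j then n m else (m ⟨i, h⟩ : ℤ) := ⟨_, rfl⟩
  have h2 : ∀ m ∈ P.support, ‖algebraMap E W (P.coeff m) * ∏ i : {i : Fin r // i ≠ j},
      x i ^ m i‖ = ‖mon x (δ m)‖ := by
    intro m hm
    have h3 : mon x (δ m) = x j ^ n m * ∏ i : {i : Fin r // i ≠ j}, x i ^ m i := by
      unfold mon
      rw [← Finset.mul_prod_erase _ _ (Finset.mem_univ j)]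
      congr 1
      · rw [hδ]
        simp only [dite_true]
      · rw [Finset.prod_subtype (p := fun i => i ≠ j) (Finset.univ.erase j) (fun i => by simp)]
        refine Finset.prod_congr rfl fun i _ => ?_
        rw [hδ]
        simp only [dif_neg i.2, zpow_natCast]
    rw [h3, norm_mul, norm_mul, hn m hm, hxj, norm_zpow]
  have h4 : P.support.Nonempty := by
    rw [Finset.nonempty_iff_ne_empty]
    intro h
    exact hP0 (MvPolynomial.support_eq_empty.1 h)
  obtain ⟨m, hm, h5⟩ := exists_norm_sum P.support h4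
    (fun m => algebraMap E W (P.coeff m) * ∏ i : {i : Fin r // i ≠ j}, x i ^ m i) (by
      intro m hm m' hm' hmm h
      rw [h2 m hm, h2 m' hm'] at h
      apply hmm
      have h6 := norm_mon_inj hx h
      ext i
      have h7 := congrFun h6 i
      rw [hδ] at h7
      simp only [dif_neg i.2] at h7
      exact_mod_cast h7)
  rw [MvPolynomial.aeval_def, MvPolynomial.eval₂_eq'] at hP
  rw [hP, norm_zero] at h5
  rw [h2 m hm] at h5
  exact mon_ne x hx.ne _ (norm_eq_zero.1 h5.symm)

/-- algebraic over the field of fractions, so algebraic over the ring -/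
theorem alg_frac {A0 : Subring W} {F : IntermediateField E W} (hle : ∀ a ∈ A0, a ∈ F)
    (hfr : ∀ z ∈ F, ∃ a ∈ A0, ∃ b ∈ A0, b ≠ 0 ∧ z * b = a) {z : W} (hz : IsAlgebraic F z) :
    IsAlgebraic A0 z := by
  let _ : Algebra A0 F :=
    (A0.subtype.codRestrict F.toSubfield.toSubring (fun a => hle a a.2)).toAlgebra
  have : IsScalarTower A0 F W := IsScalarTower.of_algebraMap_eq fun _ => rfl
  have : Algebra.IsAlgebraic A0 F := by
    refine ⟨fun u => ?_⟩
    obtain ⟨a, ha, b, hb, hb0, h⟩ := hfr u u.2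
    refine ⟨Polynomial.C (⟨b, hb⟩ : A0) * Polynomial.X - Polynomial.C (⟨a, ha⟩ : A0), ?_, ?_⟩
    · intro h0
      have h1 := congrArg (fun P => Polynomial.coeff P 1) h0
      simp only [Polynomial.coeff_sub, Polynomial.coeff_C_mul, Polynomial.coeff_X_one, mul_one,
        Polynomial.coeff_C_succ, sub_zero, Polynomial.coeff_zero] at h1
      exact hb0 (congrArg Subtype.val h1)
    · rw [map_sub, map_mul, Polynomial.aeval_C, Polynomial.aeval_C, Polynomial.aeval_X, sub_eq_zero]
      apply Subtype.ext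
      show b * (u : W) = a
      rw [← h, mul_comm]
  exact hz.restrictScalars A0

/-- the elements of `E` are fractions of elements of `Λ` -/
private theorem qch_E (e : E) :
    ∃ a ∈ Lam E W, ∃ b ∈ Lam E W, b ≠ 0 ∧ algebraMap E W e * b = a := by
  rcases le_total ‖algebraMap E W e‖ 1 with h | h
  · exact ⟨algebraMap E W e, ⟨⟨e, rfl⟩, h⟩, 1, one_mem _, one_ne_zero, mul_one _⟩
  · have h0 : algebraMap E W e ≠ 0 := by
      intro h0
      rw [h0, norm_zero] at h
      exact absurd h (not_le.2 one_pos)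
    refine ⟨1, one_mem _, (algebraMap E W e)⁻¹, ⟨⟨e⁻¹, map_inv₀ _ _⟩, ?_⟩, inv_ne_zero h0,
      mul_inv_cancel₀ h0⟩
    show ‖(algebraMap E W e)⁻¹‖ ≤ 1
    rw [norm_inv]
    exact inv_le_one_of_one_le₀ h

/-- fractions -/
theorem adjoin_frac (T : Set W) {z : W}
    (hz : z ∈ IntermediateField.adjoin E T) :
    ∃ a ∈ Subring.closure ((Lam E W : Set W) ∪ T), ∃ b ∈ Subring.closure ((Lam E W : Set W) ∪ T),
      b ≠ 0 ∧ z * b = a := by
  refine IntermediateField.adjoin_induction E
    (p := fun z _ => ∃ a ∈ Subring.closure ((Lam E W : Set W) ∪ T),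
      ∃ b ∈ Subring.closure ((Lam E W : Set W) ∪ T), b ≠ 0 ∧ z * b = a)
    (fun x hx => ⟨x, Subring.subset_closure (Or.inr hx), 1, one_mem _, one_ne_zero, mul_one x⟩)
    (fun e => ?_) ?_ ?_ ?_ hz
  · obtain ⟨a, ha, b, hb, hb0, h⟩ := qch_E (W := W) e
    exact ⟨a, Subring.subset_closure (Or.inl ha), b, Subring.subset_closure (Or.inl hb), hb0, h⟩
  · rintro x y _ _ ⟨a, ha, b, hb, hb0, e⟩ ⟨a', ha', b', hb', hb0', e'⟩
    refine ⟨a * b' + a' * b, add_mem (mul_mem ha hb') (mul_mem ha' hb), b * b', mul_mem hb hb',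
      mul_ne_zero hb0 hb0', ?_⟩
    rw [← e, ← e']; ring
  · rintro x _ ⟨a, ha, b, hb, hb0, e⟩
    by_cases hx : x = 0
    · exact ⟨0, zero_mem _, 1, one_mem _, one_ne_zero, by rw [hx, inv_zero, zero_mul]⟩
    · refine ⟨b, hb, a, ha, ?_, ?_⟩
      · rw [← e]; exact mul_ne_zero hx hb0
      · rw [← e, ← mul_assoc, inv_mul_cancel₀ hx, one_mul]
  · rintro x y _ _ ⟨a, ha, b, hb, hb0, e⟩ ⟨a', ha', b', hb', hb0', e'⟩
    refine ⟨a * a', mul_mem ha ha', b * b', mul_mem hb hb', mul_ne_zero hb0 hb0', ?_⟩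
    rw [← e, ← e']; ring


/-- the first chart -/
theorem gs_start {S : IntermediateField E W} (hA : AmbX p r S) {x : Fin r → W} (hx : Indep x)
    {j : Fin r} (hxj : x j = p) (hxS : ∀ i, x i ∈ S) {y : W} (hyS : y ∈ S) (hy1 : ‖y‖ < 1)
    (halg : ∀ z ∈ S, IsAlgebraic (IntermediateField.adjoin E (insert y (Set.range x))) z) :
    ∃ c : Tri W r, Gs S c ∧ Fr E c = IntermediateField.adjoin E (insert y (Set.range x)) := by
  classical
  obtain ⟨B, hB⟩ : ∃ B : Subring W, B = locV (ball W) (Subring.closure ((Lam E W : Set W) ∪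
    insert y (Set.range x))) := ⟨_, rfl⟩
  have hXn : ∀ z ∈ (Lam E W : Set W) ∪ insert y (Set.range x), ‖z‖ ≤ 1 := by
    rintro z (hz | (rfl | ⟨i, rfl⟩))
    · exact hz.2
    · exact hy1.le
    · exact (hx.lt i).le
  have hBn : ∀ z ∈ B, ‖z‖ ≤ 1 := fun z hz => by
    rw [hB] at hz
    exact norm_le_locV_closure hXn hz
  have hsub : ∀ z ∈ (Lam E W : Set W) ∪ insert y (Set.range x), z ∈ B := fun z hz => by
    rw [hB]; exact subset_locV_closure hz
  have hLB : ∀ z ∈ Lam E W, z ∈ B := fun z hz => hsub z (Or.inl hz)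
  have hyB : y ∈ B := hsub y (Or.inr (Or.inl rfl))
  have hxB : ∀ i, x i ∈ B := fun i => hsub _ (Or.inr (Or.inr ⟨i, rfl⟩))
  have hXS : ∀ z ∈ (Lam E W : Set W) ∪ insert y (Set.range x), z ∈ S := by
    rintro z (hz | (rfl | ⟨i, rfl⟩))
    · obtain ⟨⟨e, rfl⟩, -⟩ := hz
      exact S.algebraMap_mem e
    · exact hyS
    · exact hxS i
  have hgen := gen_ext (B := Lam E W) (A := B) (x := x) (y := y) (by
    rintro z ⟨⟨e, rfl⟩, h0⟩ h1
    refine ⟨⟨e⁻¹, map_inv₀ _ _⟩, ?_⟩
    show ‖(algebraMap E W e)⁻¹‖ ≤ 1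
    rw [norm_inv, h1, inv_one]) (insert y (Set.range x)) hB hBn hx.lt hy1 (by
    rintro g (rfl | ⟨i, rfl⟩)
    · exact ⟨0, zero_mem _, by rw [sub_zero]; exact JI_y⟩
    · exact ⟨0, zero_mem _, by rw [sub_zero]; exact JI_x i⟩) (by
    intro z hz h1
    obtain ⟨e', he', rfl⟩ := lam_lt hA.ambE hz h1
    rw [← hxj, mul_comm]
    exact JI_mul (hLB _ he') (JI_x j))
  refine ⟨⟨B, x, y⟩, ⟨⟨insert y (Finset.univ.image x), ?_⟩, fun z hz => ⟨?_, hBn z hz⟩, hx, hy1,
    hxB, hyB, fun z hz h1 => hgen.2 z hz h1, fun z hz => ?_⟩, ?_⟩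
  · rw [Finset.coe_insert, Finset.coe_image, Finset.coe_univ, Set.image_univ]
    exact hB
  · have hz' : z ∈ B := hz
    rw [hB] at hz'
    obtain ⟨a, ha, b, hb, hb1, hab⟩ := hz'
    have h4 : Subring.closure ((Lam E W : Set W) ∪ insert y (Set.range x)) ≤
        S.toSubfield.toSubring := by
      rw [Subring.closure_le]
      exact hXS
    have hb0 : b ≠ 0 := by
      rintro rfl
      rw [map_zero] at hb1
      exact zero_ne_one hb1
    rw [eq_div_of_mul_eq hb0 hab]
    exact div_mem (h4 ha) (h4 hb)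
  · show IsAlgebraic B z
    have h1 : Subring.closure ((Lam E W : Set W) ∪ insert y (Set.range x)) ≤ B := by
      rw [Subring.closure_le]
      exact hsub
    refine isAlgebraic_mono h1 (alg_frac ?_ (fun z hz => adjoin_frac _ hz) (halg z hz))
    have h2 : Subring.closure ((Lam E W : Set W) ∪ insert y (Set.range x)) ≤
        (IntermediateField.adjoin E (insert y (Set.range x))).toSubfield.toSubring := by
      rw [Subring.closure_le]
      rintro z (hz | hz)
      · obtain ⟨⟨e, rfl⟩, -⟩ := hz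
        exact IntermediateField.algebraMap_mem _ e
      · exact IntermediateField.subset_adjoin E _ hz
    exact fun a ha => h2 ha
  · show IntermediateField.adjoin E (B : Set W) = _
    apply le_antisymm
    · rw [IntermediateField.adjoin_le_iff]
      intro z hz
      have hz' : z ∈ B := hz
      rw [hB] at hz'
      obtain ⟨a, ha, b, hb, hb1, hab⟩ := hz'
      have h4 : Subring.closure ((Lam E W : Set W) ∪ insert y (Set.range x)) ≤
          (IntermediateField.adjoin E (insert y (Set.range x))).toSubfield.toSubring := by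
        rw [Subring.closure_le]
        rintro z (hz | hz)
        · obtain ⟨⟨e, rfl⟩, -⟩ := hz
          exact IntermediateField.algebraMap_mem _ e
        · exact IntermediateField.subset_adjoin E _ hz
      have hb0 : b ≠ 0 := by
        rintro rfl
        rw [map_zero] at hb1
        exact zero_ne_one hb1
      rw [eq_div_of_mul_eq hb0 hab]
      exact div_mem (h4 ha) (h4 hb)
    · rw [IntermediateField.adjoin_le_iff]
      exact fun z hz => IntermediateField.subset_adjoin E _ (hsub z (Or.inr hz))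

end Pool.Agent.Lib.MX
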