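import Pool.Agent.Lib.MX.EDefs
import Pool.Agent.Lib.TQ.Defs

/-!
# Module QDefs (section 13): definitions for the quasi-excellent end in mixed characteristic

The completions `TQ.Cp B` of noetherian local subrings of `W`, the completed versions of `HO` etc.
for the charts without coefficient field of `MX.Defs`, approximation data.
-/

namespace Pool.Agent.Lib.MX

open Pool.Agent.Lib.MP_3029eb_ag Pool.Agent.Lib.MP_3029eb_ag.Abh Pool.Agent.Lib.TDO
open Pool.Agent.Lib.TU (Mt)
open Pool.Agent.Lib.TQ (mI mP Cp Nl DenD)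

variable {E W : Type} [Field E] [NormedField W] [IsUltrametricDist W] [Algebra E W] {r : ℕ}

/-- `x'` is a model of `c`: `(Bx c.B x', x', c.y)` is strictly good. -/
def Mx (S : IntermediateField E W) (c : Tri W r) (x' : Fin r → W) : Prop :=
  Mt c.x x' ∧ Gs S (⟨Bx c.B x', x', c.y⟩ : Tri W r)

/-- The union of the completions of the models of `c` (see `mem_HC_iff`). -/
def HC (S : IntermediateField E W) (c : Tri W r) : Subring W :=
  Subring.closure {z | ∃ x' : Fin r → W, Mx S c x' ∧ z ∈ Cp (Bx c.B x')}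

/-- `z` is a monomial in `x` times a unit of `HC S c`. -/
def MoC (S : IntermediateField E W) (c : Tri W r) (z : W) : Prop := Mo (HC S c) c.x z

/-- The ideal of `HC S c` generated by the monomials of norm less than one. -/
def QC (S : IntermediateField E W) (c : Tri W r) : Set W :=
  {z | ∃ a : Fin r → ℤ, ‖mon c.x a‖ < 1 ∧ ∃ h ∈ HC S c, z = mon c.x a * h}

/-- `HC S c [1/x]` -/
def HLC (S : IntermediateField E W) (c : Tri W r) : Set W :=
  {z | ∃ a : Fin r → ℤ, ∃ h ∈ HC S c, z = mon c.x a * h}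

/-- The fractions `n / d` with `n, d ∈ A` and `d` monomial for the triple `c`
(see `mem_AfC_iff`). -/
def AfC (S : IntermediateField E W) (c : Tri W r) (A : Subring W) : Subring W :=
  Subring.closure {z | ∃ n ∈ A, ∃ d ∈ A, MoC S c d ∧ z * d = n}

/-- The elements of `HL c` in the closure of `AfC S c A` for the monomial topology
(see `mem_AD_iff`). -/
def AD (S : IntermediateField E W) (c : Tri W r) (A : Subring W) : Subring W :=
  Subring.closure {z | z ∈ HL c ∧ ∀ N : Fin r → ℤ, ∃ a ∈ AfC S c A, ∃ h ∈ HC S c,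
    z = a + mon c.x N * h}

/-- The localization of `Λ[t]` at the centre of the norm. -/
def PtX (E : Type) {W : Type} [Field E] [NormedField W] [IsUltrametricDist W] [Algebra E W]
    {n : ℕ} (t : Fin n → W) : Subring W :=
  locV (ball W) (Subring.closure ((Lam E W : Set W) ∪ Set.range t))

/-- Approximation data for the local ring `A`: elements `t i` of the completion of `A`, one of them
is `p`, generators `w j` of the maximal ideal of `A`, which are simple roots of the polynomials `F j`
with coefficients in the completion of `Λ[t]`, approximations `F' j` of `F j` with coefficients in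
the localization of `Λ[t]`, and simple roots `w' j` of `F' j` close to `w j`. -/
structure DatX (p : ℕ) (S L : IntermediateField E W) (A : Subring W)
    {n q : ℕ} (t : Fin n → W) (w w' : Fin q → W)
    (F F' : Fin q → Polynomial W) (N : ℕ) : Prop where
  nl : Nl L.toSubfield A
  CD : ∀ e ∈ Lam E W, e ∈ Cp A
  res : ∀ z ∈ Cp A, ∃ e ∈ Lam E W, ‖z - e‖ < 1
  tp : ∃ i, t i = (p : W)
  tD : ∀ i, t i ∈ Cp A ∧ ‖t i‖ < 1
  tM : ∀ i, t i ∈ S ∧ t i ∈ L ∧ t i ≠ 0
  wA : ∀ j, w j ∈ A ∧ ‖w j‖ < 1
  gen : ∀ z ∈ A, ‖z‖ < 1 → z ∈ Submodule.span A (Set.range w)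
  FP : ∀ j i, (F j).coeff i ∈ Cp (PtX E t)
  FP' : ∀ j i, (F' j).coeff i ∈ PtX E t
  close : ∀ j i, (F j).coeff i - (F' j).coeff i ∈ mP (Cp (PtX E t)) N
  root : ∀ j, (F j).eval (w j) = 0
  root' : ∀ j, (F' j).eval (w' j) = 0
  wM' : ∀ j, w' j ∈ S ∧ w' j ∈ L ∧ ‖w' j‖ ≤ 1
  der0 : ∀ j, (F' j).derivative.eval (w' j) ≠ 0
  der : ∀ j, ‖(F j).derivative.eval (w j)‖ = ‖(F' j).derivative.eval (w' j)‖
  ww' : ∀ j, ‖w j - w' j‖ < ‖(F' j).derivative.eval (w' j)‖
  tN : ∀ j, ∀ α : Fin n → ℕ, ∑ i, α i = N →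
    ‖monN t α‖ < ‖(F' j).derivative.eval (w' j)‖ ^ 2

/-- The ring `A` and the model `x'` of the triple `c` have the same completion. -/
structure Syn (S : IntermediateField E W) (c : Tri W r) (A : Subring W) (x' : Fin r → W) :
    Prop where
  mdl : Mx S c x'
  eq : Cp A = Cp (Bx c.B x')

end Pool.Agent.Lib.MX
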