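import Pool.Agent.Lib.MX.QMainK
import Pool.Agent.Lib.CQ.ImplQ
import Pool.Agent.Lib.CQ.EmbQ
import Pool.Agent.Lib.TC.I3
import Pool.Agent.Lib.MP_3029eb_ag.ImpComplIso

/-!
# Module QEmb: embedded local uniformization from the implicit ideal, mixed characteristic
-/

open IsLocalRing

namespace Pool.Agent.Lib.MXB

open TC CQ Pool.Agent.Lib.MP_3029eb_ag Pool.Agent.Lib.MP_3029eb_ag.Abh

private theorem embA_ball (p : ℕ) [Fact p.Prime] {L : Type}
    [NontriviallyNormedField L] [IsUltrametricDist L] [CharZero L] (hp1 : ‖(p : L)‖ < 1)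
    {r : ℕ} (hr : 0 < r) (x : Fin r → L) (hx : IndV (ball L) x)
    (hrank : ∀ z : Fin (r + 1) → L, (∀ i, z i ≠ 0) →
      ∃ a : Fin (r + 1) → ℤ, a ≠ 0 ∧ (ball L).valuation (mon z a) = 1)
    (B : Subring L) [IsNoetherianRing B] [IsLocalRing B] (hBW : B ≤ (ball L).toSubring)
    (hloc : locV (ball L) B = B) (hfrac : ∀ z : L, ∃ a ∈ B, ∃ b ∈ B, b ≠ 0 ∧ z * b = a)
    (hB : GoodBase B)
    (hres : ∀ z : L, z ∈ ball L → ∃ f : Polynomial B,
      (∃ n, (ball L).valuation ((f.coeff n : B) : L) = 1) ∧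
      (ball L).valuation (Polynomial.eval₂ B.subtype z f) < 1)
    (I : Ideal (AdicCompletion (maximalIdeal B) B)) (hI : Impl (ball L) B.subtype I)
    (hdim : ringKrullDim (AdicCompletion (maximalIdeal B) B ⧸ I) ≤
      ((r + 1 : ℕ) : WithBot ℕ∞)) :
    EMB3 (ball L) B r := by
  classical
  obtain ⟨Ω, i1, i2, i3, κ, hκ, hκd⟩ := exists_completion_field L
  have hdomB : Dom B.subtype := dom_subtype B hBW hloc
  obtain ⟨φ, hφ, hφA⟩ := Imp.exists_lift_subring κ hκ B hdomB
  have hsm : ∃ c : B, B.subtype c ≠ 0 ∧ ‖B.subtype c‖ < 1 := by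
    obtain ⟨z, hz0, hz1⟩ := NormedField.exists_norm_lt_one L
    obtain ⟨a, ha, b, hb, hb0, hab⟩ := hfrac z
    have hz0' : z ≠ 0 := norm_pos_iff.1 hz0
    refine ⟨⟨a, ha⟩, ?_, ?_⟩
    · show a ≠ 0
      rw [← hab]
      exact mul_ne_zero hz0' hb0
    · show ‖a‖ < 1
      rw [← hab, norm_mul]
      have h1 : ‖b‖ ≤ 1 := (mem_ball b).1 (hBW hb)
      exact (mul_le_of_le_one_right (norm_nonneg _) h1).trans_lt hz1
  have hIle : I ≤ RingHom.ker φ :=
    le_kerQ κ hκ B B.subtype hsm I hI φ (fun t => (hφ t).1) (fun c => hφA c)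
  have hdim' : ringKrullDim (AdicCompletion (maximalIdeal B) B ⧸ RingHom.ker φ) ≤
      ((r + 1 : ℕ) : WithBot ℕ∞) := by
    refine le_trans ?_ hdim
    exact ringKrullDim_le_of_surjective (Ideal.Quotient.factor hIle)
      (Ideal.Quotient.factor_surjective hIle)
  obtain ⟨h, hE⟩ := Pool.Agent.Lib.MX.qe_ballX p hp1 B hBW hloc hfrac hr x hx
    (fun z hz => by
      obtain ⟨a, ha, h1⟩ := hrank z hz
      exact ⟨a, ha, (J7_val_one_iff _).1 h1⟩)
    (fun z hz => by
      obtain ⟨f, ⟨n, hn⟩, hf⟩ := hres z hz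
      exact ⟨f, ⟨n, (J7_val_one_iff _).1 hn⟩, (Imp.ID_lt_iff _).1 hf⟩)
    (fun g hg A' hA' hloc' => by
      have hBA : B ≤ A' := by
        rw [hA']
        exact fun a ha => le_locV _ _ (Subring.subset_closure (Or.inl ha))
      have h1 : EFT (Subring.inclusion hBA) := by
        subst hA'
        have h2 := EFT_locV (ball L) B (RingHom.id B) (by
          let i2 := (RingHom.id B).toAlgebra
          show Algebra.EssFiniteType B B
          exact Algebra.EssFiniteType.of_surjective (Algebra.ofId B B)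
            (fun b => ⟨b, rfl⟩)) g (Subring.inclusion hBA) (fun a => rfl)
        rwa [RingHom.comp_id] at h2
      have hn : IsNoetherianRing A' := h1.isNoetherianRing
      exact hB.2 A' (Subring.inclusion hBA) h1)
    κ hκ hκd φ hφ hφA hdim'
  exact EMB3_of_EMB2 hE

/-- The case where `L` is the field of fractions of `B`. -/
theorem emb3_qe_frac (p : ℕ) [Fact p.Prime] {L : Type}
    [Field L] [CharZero L] (W : ValuationSubring L) (hp1 : W.valuation (p : L) < 1)
    (harch : ∀ a b : L, a ≠ 0 → W.valuation b < 1 →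
      ∃ n : ℕ, W.valuation (b ^ n) ≤ W.valuation a)
    {r : ℕ} (hr : 0 < r) (x : Fin r → L) (hx : IndV W x)
    (hrank : ∀ z : Fin (r + 1) → L, (∀ i, z i ≠ 0) →
      ∃ a : Fin (r + 1) → ℤ, a ≠ 0 ∧ W.valuation (mon z a) = 1)
    (B : Subring L) [IsNoetherianRing B] [IsLocalRing B] (hBW : B ≤ W.toSubring)
    (hloc : locV W B = B) (hfrac : ∀ z : L, ∃ a ∈ B, ∃ b ∈ B, b ≠ 0 ∧ z * b = a)
    (hB : GoodBase B)
    (hres : ∀ z : L, z ∈ W → ∃ f : Polynomial B,
      (∃ n, W.valuation ((f.coeff n : B) : L) = 1) ∧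
      W.valuation (Polynomial.eval₂ B.subtype z f) < 1)
    (I : Ideal (AdicCompletion (maximalIdeal B) B)) (hI : Impl W B.subtype I)
    (hdim : ringKrullDim (AdicCompletion (maximalIdeal B) B ⧸ I) ≤
      ((r + 1 : ℕ) : WithBot ℕ∞)) :
    EMB3 W B r := by
  have hW : W ≠ ⊤ := by
    intro h
    exact hr.ne' (hx.eq_zero_of_top h)
  obtain ⟨v, hna, hnt, hVv⟩ := exists_absval W hW harch
  let iN : NormedField L := v.toNormedField
  have hnorm : ∀ z : L, ‖z‖ = v z := fun z => rfl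
  let iNN : NontriviallyNormedField L :=
    { v.toNormedField with
      non_trivial := by
        obtain ⟨y, hy0, hy⟩ := hnt
        refine ⟨y⁻¹, ?_⟩
        have h1 : v y⁻¹ = (v y)⁻¹ := map_inv₀ v y
        show 1 < v y⁻¹
        rw [h1]
        exact (one_lt_inv₀ (v.pos hy0)).2 hy }
  have iU : IsUltrametricDist L :=
    IsUltrametricDist.isUltrametricDist_of_forall_norm_add_le_max_norm hna
  have hVb : W = ball L := by
    ext z
    rw [hVv, mem_ball]
    exact Iff.rfl
  subst hVb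
  exact embA_ball (L := L) p ((Imp.ID_lt_iff _).1 hp1) hr x hx hrank B hBW hloc hfrac hB hres I hI
    hdim

theorem emb3_qe (p : ℕ) [Fact p.Prime] {L : Type}
    [Field L] [CharZero L] (W : ValuationSubring L) (hp1 : W.valuation (p : L) < 1)
    (harch : ∀ a b : L, a ≠ 0 → W.valuation b < 1 →
      ∃ n : ℕ, W.valuation (b ^ n) ≤ W.valuation a)
    {r : ℕ} (hr : 0 < r) (x : Fin r → L) (hx : IndV W x)
    (hrank : ∀ z : Fin (r + 1) → L, (∀ i, z i ≠ 0) →
      ∃ a : Fin (r + 1) → ℤ, a ≠ 0 ∧ W.valuation (mon z a) = 1)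
    (B : Subring L) [IsNoetherianRing B] [IsLocalRing B] (hBW : B ≤ W.toSubring)
    (hloc : locV W B = B) (hxB : ∀ i, ∃ a ∈ B, ∃ b ∈ B, b ≠ 0 ∧ x i * b = a)
    (hB : GoodBase B)
    (hres : ∀ z : L, z ∈ W → ∃ f : Polynomial B,
      (∃ n, W.valuation ((f.coeff n : B) : L) = 1) ∧
      W.valuation (Polynomial.eval₂ B.subtype z f) < 1)
    (I : Ideal (AdicCompletion (maximalIdeal B) B)) (hI : Impl W B.subtype I)
    (hdim : ringKrullDim (AdicCompletion (maximalIdeal B) B ⧸ I) ≤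
      ((r + 1 : ℕ) : WithBot ℕ∞)) :
    EMB3 W B r := by
  classical
  have hj : Function.Injective (B.subtype) := Subtype.val_injective
  set φ : FractionRing B →+* L := IsFractionRing.lift hj with hφ
  have hφj : ∀ r : B, φ (algebraMap B _ r) = (r : L) :=
    fun r => IsFractionRing.lift_algebraMap hj r
  have hinj : Function.Injective (algebraMap B (FractionRing B)) :=
    IsFractionRing.injective B (FractionRing B)
  set A0 : Subring (FractionRing B) := (algebraMap B (FractionRing B)).range with hA0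
  have hmap : A0.map φ = B := by
    ext z
    constructor
    · rintro ⟨_, ⟨r, rfl⟩, rfl⟩
      rw [hφj]
      exact r.2
    · intro hz
      exact ⟨algebraMap B _ ⟨z, hz⟩, ⟨⟨z, hz⟩, rfl⟩, hφj _⟩
  have hfrac : ∀ z : FractionRing B, ∃ a ∈ A0, ∃ b ∈ A0, b ≠ 0 ∧ z * b = a := by
    intro z
    obtain ⟨⟨a, b⟩, hab⟩ := IsLocalization.surj (nonZeroDivisors B) z
    refine ⟨algebraMap B _ a, ⟨a, rfl⟩, algebraMap B _ b, ⟨b, rfl⟩, ?_, hab⟩
    intro h0
    exact nonZeroDivisors.ne_zero b.2 (hinj (by rw [h0, map_zero]))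
  have hsurj : ∀ z : L, (∃ a ∈ B, ∃ b ∈ B, b ≠ 0 ∧ z * b = a) → ∃ z0, φ z0 = z := by
    rintro z ⟨a, ha, b, hb, hb0, hz⟩
    refine ⟨algebraMap B _ ⟨a, ha⟩ / algebraMap B _ ⟨b, hb⟩, ?_⟩
    rw [map_div₀, hφj, hφj, div_eq_iff hb0]
    exact hz.symm
  have hx0 : ∀ i, ∃ z0, φ z0 = x i := fun i => hsurj _ (hxB i)
  choose x0 hx0 using hx0
  have hmon : ∀ {n : ℕ} (z : Fin n → FractionRing B) (m : Fin n → ℤ),
      φ (mon z m) = mon (fun i => φ (z i)) m := by
    intro n z m
    unfold mon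
    rw [map_prod]
    refine Finset.prod_congr rfl fun i _ => ?_
    rw [map_zpow₀]
  -- the isomorphism
  have hbij : Function.Bijective (algebraMap B (FractionRing B)).rangeRestrict :=
    ⟨fun a b hab => hinj (congrArg Subtype.val hab), RingHom.rangeRestrict_surjective _⟩
  let e : B ≃+* A0 := RingEquiv.ofBijective _ hbij
  have he : ∀ b : B, ((e b : A0) : FractionRing B) = algebraMap B _ b := fun b => rfl
  have hφe : ∀ b : B, φ ((e b : A0) : FractionRing B) = b := fun b => by rw [he, hφj]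
  have iN0 : IsNoetherianRing A0 := isNoetherianRing_of_ringEquiv B e
  have iL0 : IsLocalRing A0 := e.isLocalRing
  have hBW0 : A0 ≤ (W.comap φ).toSubring := by
    rintro _ ⟨b, rfl⟩
    change φ (algebraMap B _ b) ∈ W
    rw [hφj]
    exact hBW b.2
  have hloc0 : locV (W.comap φ) A0 = A0 := by
    apply le_antisymm _ (le_locV _ _)
    rintro z ⟨a, ⟨a', rfl⟩, b, ⟨b', rfl⟩, hb1, hz⟩
    rw [C2_comap_val_one, hφj] at hb1
    have h1 : φ z ∈ locV W B := ⟨a', a'.2, b', b'.2, hb1, by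
      rw [← hφj a', ← hφj b', ← map_mul, hz]⟩
    rw [hloc] at h1
    refine ⟨⟨φ z, h1⟩, ?_⟩
    apply φ.injective
    rw [hφj]
  have iC0 : CharZero (FractionRing B) := RingHom.charZero φ
  obtain ⟨E, hE⟩ := Imp.exists_completion_equiv e
  have hEFTe' : EFT (e : B →+* A0) := EFT_of_surjective _ e.surjective
  have h3 : EMB3 (W.comap φ) A0 r := by
    refine emb3_qe_frac p (W.comap φ) ?_ ?_ hr x0 ⟨?_, ?_⟩ ?_ A0 hBW0 hloc0 hfrac
      (goodBase_of_EFT hB hEFTe') ?_ (I.map (E : _ →+* _)) ?_ ?_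
    · rw [I3_comap_lt_one, map_natCast]
      exact hp1
    · intro a b ha hb
      obtain ⟨n, hn⟩ := harch (φ a) (φ b) ((map_ne_zero φ).2 ha) ((I3_comap_lt_one W φ b).1 hb)
      refine ⟨n, ?_⟩
      rw [I3_comap_le, map_pow]
      exact hn
    · intro i h0
      apply hx.ne i
      rw [← hx0 i, h0, map_zero]
    · intro m hm
      rw [C2_comap_val_one, hmon] at hm
      apply hx.indep m
      have h1 : (fun i => φ (x0 i)) = x := funext hx0
      rwa [h1] at hm
    · intro z hz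
      obtain ⟨a, ha, h1⟩ := hrank (fun i => φ (z i)) (fun i => (map_ne_zero φ).2 (hz i))
      exact ⟨a, ha, by rw [C2_comap_val_one, hmon]; exact h1⟩
    · intro z hz
      obtain ⟨f, ⟨n, hn⟩, hf⟩ := hres (φ z) hz
      refine ⟨f.map (e : B →+* A0), ⟨n, ?_⟩, ?_⟩
      · rw [C2_comap_val_one, Polynomial.coeff_map]
        have h1 : φ (((e : B →+* A0) (f.coeff n) : A0) : FractionRing B) = f.coeff n := hφe _
        rw [h1]
        exact hn
      · rw [I3_comap_lt_one, Polynomial.eval₂_map, Polynomial.hom_eval₂]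
        have h1 : φ.comp (A0.subtype.comp (e : B →+* A0)) = B.subtype :=
          RingHom.ext fun b => hφe b
        rw [h1]
        exact hf
    · intro d hd
      obtain ⟨d, rfl⟩ := e.surjective d
      have hd' : B.subtype d ≠ 0 := by
        intro h0
        apply hd
        apply φ.injective
        rw [map_zero]
        exact (hφe d).trans h0
      refine (Ideal.map_mono (hI d hd')).trans ?_
      rw [Ideal.map_span]
      refine Ideal.span_mono ?_
      rintro _ ⟨_, ⟨c, hc, rfl⟩, rfl⟩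
      refine ⟨e c, ?_, (hE c).symm⟩
      have hc' : W.valuation (c : L) ≤ W.valuation (d : L) := hc
      show (W.comap φ).valuation ((e c : A0) : FractionRing B) ≤
        (W.comap φ).valuation ((e d : A0) : FractionRing B)
      rw [I3_comap_le, hφe, hφe]
      exact hc'
    · rw [← dim_mapQ E]
      exact hdim
  exact EMB3_map φ W (W.comap φ) (fun _ => Iff.rfl) (fun z => C2_comap_val_one W φ z) B A0 hmap
    hfrac hsurj h3

end Pool.Agent.Lib.MXB
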