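import Pool.Agent.Lib.MX.QDefs
import Pool.Agent.Lib.MX.Dim
import Pool.Agent.Lib.MX.StHO
import Pool.Agent.Lib.TQ.CpB
import Pool.Agent.Lib.TU.HOApp

/-!
# Module QHC: the completed ring `HC S c`, basic properties
-/

namespace Pool.Agent.Lib.MX

open Pool.Agent.Lib.MP_3029eb_ag Pool.Agent.Lib.MP_3029eb_ag.Abh Pool.Agent.Lib.TDO
open Pool.Agent.Lib.TU (Mt exists_Mt)
open Pool.Agent.Lib.TQ

variable {E W : Type} [Field E] [NormedField W] [IsUltrametricDist W] [Algebra E W] {r p : ℕ}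
  {S L : IntermediateField E W} {c c' c'' : Tri W r}

/-- `c` is a chart of the complete field `L`, and the standing assumptions. -/
structure CtX (p : ℕ) (S L : IntermediateField E W) (c : Tri W r) : Prop where
  r0 : 0 < r
  amb : AmbX p r S
  cpl : IsComplete (L : Set W)
  ch : Ch S L c

theorem CtX.gd (hC : CtX p S L c) : Gd S c := hC.ch.gd

theorem CtX.rfS (hC : CtX p S L c) (h : RfS S c c') : CtX p S L c' :=
  ⟨hC.r0, hC.amb, hC.cpl, hC.ch.of_rfS h⟩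

theorem Mx.norm_le {x' : Fin r → W} (h : Mx S c x') {z : W} (hz : z ∈ Bx c.B x') : ‖z‖ ≤ 1 :=
  (h.2.le z hz).2

theorem Mx.mem_HO (hC : CtX p S L c) {x' : Fin r → W} (h : Mx S c x') {z : W}
    (hz : z ∈ Bx c.B x') : z ∈ HO c := (mem_HO_iff hC.gd z).2 ⟨x', h.1, hz⟩

theorem Mx.gen {x' : Fin r → W} (h : Mx S c x') {z : W} (hz : z ∈ Bx c.B x') (h1 : ‖z‖ < 1) :
    ∃ (b : Fin r → W) (b0 : W), (∀ i, b i ∈ Bx c.B x') ∧ b0 ∈ Bx c.B x' ∧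
      z = ∑ i, b i * x' i + b0 * c.y := h.2.gen z hz h1

theorem Mx.nl (hC : CtX p S L c) {x' : Fin r → W} (h : Mx S c x') :
    Nl L.toSubfield (Bx c.B x') := by
  exact
    { comp := hC.cpl
      nt := ⟨c.x ⟨0, hC.r0⟩, hC.ch.le (B_le_Fr (hC.gd.xB _)), hC.gd.ind.ne _, hC.gd.ind.lt _⟩
      le := fun z hz => hC.ch.le (HO_mem_Fr hC.gd (h.mem_HO hC hz))
      one := fun z hz => h.norm_le hz
      inv := fun z hz h1 => inv_mem_Bx hz h1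
      noeth := Gs.noeth hC.amb h.2 }

theorem Mx.triv (hC : CtX p S L c) : ∃ x' : Fin r → W, Mx S c x' := by
  obtain ⟨x1, h1, h2⟩ := hC.gd.ex
  exact ⟨x1, h1, h2⟩

theorem Mx.union (hC : CtX p S L c) {x1 x2 : Fin r → W} (h1 : Mx S c x1) (h2 : Mx S c x2) :
    ∃ x3 : Fin r → W, Mx S c x3 ∧ Mt x1 x3 ∧ Mt x2 x3 ∧ Bx c.B x1 ≤ Bx c.B x3 ∧
      Bx c.B x2 ≤ Bx c.B x3 := by
  obtain ⟨x3, h3, h4, h5⟩ := Mt.union hC.gd.ind h1.1 h2.1
  exact ⟨x3, ⟨h5, Gs.further h1.2 h3⟩, h3, h4, fun z hz => Bx_mono (Mt.x_monN h3) hz,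
    fun z hz => Bx_mono (Mt.x_monN h4) hz⟩

private theorem hcb_pair (hC : CtX p S L c)
    {z w : W} {x1 x2 : Fin r → W}
    (h1 : Mx S c x1) (hz : z ∈ Cp (Bx c.B x1)) (h2 : Mx S c x2)
    (hw : w ∈ Cp (Bx c.B x2)) :
    ∃ x' : Fin r → W, Mx S c x' ∧ z ∈ Cp (Bx c.B x') ∧
      w ∈ Cp (Bx c.B x') := by
  obtain ⟨x3, h3, -, -, h4, h5⟩ := Mx.union hC h1 h2
  exact ⟨x3, h3,
    Cp_mono (h1.nl hC) (h3.nl hC) (fun v hv => le_Cp (h4 hv)) hz,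
    Cp_mono (h2.nl hC) (h3.nl hC) (fun v hv => le_Cp (h5 hv)) hw⟩

theorem mem_HC_iff (hC : CtX p S L c)
    (z : W) : z ∈ HC S c ↔ ∃ x' : Fin r → W, Mx S c x' ∧
      z ∈ Cp (Bx c.B x') := by
  constructor
  · intro hz
    unfold HC at hz
    induction hz using Subring.closure_induction with
    | mem w hw => exact hw
    | zero => obtain ⟨x1, h1⟩ := Mx.triv hC; exact ⟨x1, h1, zero_mem _⟩
    | one => obtain ⟨x1, h1⟩ := Mx.triv hC; exact ⟨x1, h1, one_mem _⟩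
    | add a b _ _ ha hb =>
      obtain ⟨x1, h1, hz1⟩ := ha
      obtain ⟨x2, h2, hz2⟩ := hb
      obtain ⟨x', h, hz, hw⟩ := hcb_pair hC h1 hz1 h2 hz2
      exact ⟨x', h, add_mem hz hw⟩
    | neg a _ ha =>
      obtain ⟨x1, h1, hz1⟩ := ha
      exact ⟨x1, h1, neg_mem hz1⟩
    | mul a b _ _ ha hb =>
      obtain ⟨x1, h1, hz1⟩ := ha
      obtain ⟨x2, h2, hz2⟩ := hb
      obtain ⟨x', h, hz, hw⟩ := hcb_pair hC h1 hz1 h2 hz2
      exact ⟨x', h, mul_mem hz hw⟩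
  · intro hz
    exact Subring.subset_closure hz

private theorem hcb_common (hC : CtX p S L c) (Z : Finset W) (hZ : ∀ z ∈ Z, z ∈ HC S c) :
    ∃ x' : Fin r → W, Mx S c x' ∧ ∀ z ∈ Z, z ∈ Cp (Bx c.B x') := by
  classical
  induction Z using Finset.induction_on with
  | empty =>
    obtain ⟨x1, h1⟩ := Mx.triv hC
    exact ⟨x1, h1, fun z hz => absurd hz (Finset.notMem_empty z)⟩
  | insert a s ha ih =>
    obtain ⟨x1, h1, h2⟩ := ih fun z hz => hZ z (Finset.mem_insert_of_mem hz)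
    obtain ⟨x2, h3, h4⟩ :=
      (mem_HC_iff hC a).1 (hZ a (Finset.mem_insert_self a s))
    obtain ⟨x3, h5, -, -, h6, h7⟩ := Mx.union hC h1 h3
    refine ⟨x3, h5, fun z hz => ?_⟩
    rcases Finset.mem_insert.1 hz with rfl | hz
    · exact Cp_mono (h3.nl hC) (h5.nl hC) (fun v hv => le_Cp (h7 hv)) h4
    · exact Cp_mono (h1.nl hC) (h5.nl hC) (fun v hv => le_Cp (h6 hv)) (h2 z hz)

theorem exists_modelC (hC : CtX p S L c)
    (ZO : Finset W) (hZO : ∀ z ∈ ZO, z ∈ HO c) (Z : Finset W) (hZ : ∀ z ∈ Z, z ∈ HC S c)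
    (Y : Finset (Fin r → ℤ)) (hY : ∀ a ∈ Y, ‖mon c.x a‖ ≤ 1) :
    ∃ x' : Fin r → W, Mx S c x' ∧ (∀ z ∈ ZO, z ∈ Bx c.B x') ∧
      (∀ z ∈ Z, z ∈ Cp (Bx c.B x')) ∧
      ∀ a ∈ Y, ∃ β : Fin r → ℕ, mon c.x a = monN x' β ∧ (‖mon c.x a‖ < 1 → ∀ i, 1 ≤ β i) := by
  classical
  obtain ⟨x1, h1, h2⟩ := hcb_common hC Z hZ
  obtain ⟨x', h3, h4, h5, h6⟩ := exists_model hC.gd (ZO ∪ Finset.univ.image x1) (by
    intro z hz
    rcases Finset.mem_union.1 hz with hz | hz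
    · exact hZO z hz
    · obtain ⟨i, -, rfl⟩ := Finset.mem_image.1 hz
      exact h1.mem_HO hC (h1.2.xB i)) Y hY
  have h7 : Bx c.B x1 ≤ Bx c.B x' := fun v hv => Bx_le (Bx c.B x') (fun w hw => le_Bx hw)
    (fun i => h5 _ (Finset.mem_union_right _ (Finset.mem_image_of_mem _ (Finset.mem_univ i))))
    (fun w hw hw1 => inv_mem_Bx hw hw1) hv
  have h8 : Mx S c x' := ⟨h3, h4⟩
  exact ⟨x', h8, fun z hz => h5 z (Finset.mem_union_left _ hz), fun z hz =>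
    Cp_mono (h1.nl hC) (h8.nl hC) (fun v hv => le_Cp (h7 hv)) (h2 z hz), h6⟩

theorem HO_le_HC (hC : CtX p S L c) {z : W}
    (hz : z ∈ HO c) : z ∈ HC S c := by
  obtain ⟨x', h1, h3, h2, -⟩ := exists_model hC.gd {z} (fun w hw => by
    rw [Finset.mem_singleton.1 hw]; exact hz) ∅ (fun a ha => absurd ha (Finset.notMem_empty a))
  exact (mem_HC_iff hC z).2 ⟨x', ⟨h1, h3⟩, le_Cp (h2 z (Finset.mem_singleton_self z))⟩

theorem HC_norm_le (hC : CtX p S L c)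
    {z : W} (hz : z ∈ HC S c) : ‖z‖ ≤ 1 := by
  obtain ⟨x', h1, h2⟩ := (mem_HC_iff hC z).1 hz
  exact (h1.nl hC).cp.one z h2

theorem HC_mem_L (hC : CtX p S L c)
    {z : W} (hz : z ∈ HC S c) : z ∈ L := by
  obtain ⟨x', h1, h2⟩ := (mem_HC_iff hC z).1 hz
  exact (h1.nl hC).cp.le z h2

theorem inv_mem_HC (hC : CtX p S L c)
    {z : W} (hz : z ∈ HC S c) (h1 : ‖z‖ = 1) : z⁻¹ ∈ HC S c := by
  obtain ⟨x', h2, h3⟩ := (mem_HC_iff hC z).1 hz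
  exact (mem_HC_iff hC _).2 ⟨x', h2, (h2.nl hC).cp.inv z h3 h1⟩

theorem mon_mem_HC (hC : CtX p S L c)
    {a : Fin r → ℤ} (ha : ‖mon c.x a‖ ≤ 1) : mon c.x a ∈ HC S c := by
  exact HO_le_HC hC (mon_mem_HO hC.gd ha)

theorem QC_mem_HC (hC : CtX p S L c)
    {z : W} (hz : z ∈ QC S c) : z ∈ HC S c := by
  obtain ⟨a, ha, h, hh, rfl⟩ := hz
  exact mul_mem (mon_mem_HC hC ha.le) hh

theorem QC_zero (hC : CtX p S L c) : (0 : W) ∈ QC S c := by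
  obtain ⟨N, -, hN⟩ := exists_mon_lt hC.r0 hC.gd.ind 1 one_pos
  exact ⟨N, hN, 0, zero_mem _, by rw [mul_zero]⟩

theorem QC_norm (hC : CtX p S L c)
    {z : W} (hz : z ∈ QC S c) : ‖z‖ < 1 := by
  obtain ⟨a, ha, h, hh, rfl⟩ := hz
  rw [norm_mul]
  exact lt_of_le_of_lt (mul_le_of_le_one_right (norm_nonneg _) (HC_norm_le hC hh)) ha

private theorem hcb_quot (hC : CtX p S L c)
    {a b : Fin r → ℤ} (h : ‖mon c.x b‖ ≤ ‖mon c.x a‖) :
    mon c.x (b - a) ∈ HC S c ∧ mon c.x b = mon c.x a * mon c.x (b - a) := by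
  have ha : mon c.x a ≠ 0 := mon_ne c.x hC.gd.ind.ne a
  have h1 : mon c.x b = mon c.x a * mon c.x (b - a) := by
    rw [← TDO.mon_add c.x hC.gd.ind.ne]
    congr 1
    abel
  refine ⟨mon_mem_HC hC ?_, h1⟩
  rw [h1, norm_mul] at h
  have h2 : 0 < ‖mon c.x a‖ := norm_pos_iff.2 ha
  by_contra hcon
  push Not at hcon
  have h3 : ‖mon c.x a‖ * 1 < ‖mon c.x a‖ * ‖mon c.x (b - a)‖ := mul_lt_mul_of_pos_left hcon h2
  linarith

theorem QC_add (hC : CtX p S L c)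
    {z z' : W} (hz : z ∈ QC S c) (hz' : z' ∈ QC S c) : z + z' ∈ QC S c := by
  obtain ⟨a, ha, h, hh, rfl⟩ := hz
  obtain ⟨a', ha', h', hh', rfl⟩ := hz'
  rcases le_total ‖mon c.x a'‖ ‖mon c.x a‖ with hle | hle
  · obtain ⟨h1, h2⟩ := hcb_quot hC hle
    refine ⟨a, ha, h + mon c.x (a' - a) * h', add_mem hh (mul_mem h1 hh'), ?_⟩
    rw [h2]; ring
  · obtain ⟨h1, h2⟩ := hcb_quot hC hle
    refine ⟨a', ha', mon c.x (a - a') * h + h', add_mem (mul_mem h1 hh) hh', ?_⟩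
    rw [h2]; ring

theorem QC_neg {z : W} (hz : z ∈ QC S c) : -z ∈ QC S c := by
  obtain ⟨a, ha, h, hh, rfl⟩ := hz
  exact ⟨a, ha, -h, neg_mem hh, by ring⟩

theorem QC_mul {z h : W} (hz : z ∈ QC S c) (hh : h ∈ HC S c) : z * h ∈ QC S c := by
  obtain ⟨a, ha, h', hh', rfl⟩ := hz
  exact ⟨a, ha, h' * h, mul_mem hh' hh, by ring⟩

theorem QH_mem_QC (hC : CtX p S L c)
    {z : W} (hz : z ∈ QH c) : z ∈ QC S c := by
  obtain ⟨a, ha, h, hh, rfl⟩ := hz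
  exact ⟨a, ha, h, HO_le_HC hC hh, rfl⟩

private theorem hcb_gen (hC : CtX p S L c)
    {z : W} (hz : z ∈ HC S c) (h1 : ‖z‖ < 1) :
    ∃ q ∈ QC S c, ∃ b ∈ HC S c, z = q + b * c.y := by
  obtain ⟨x', h2, h3⟩ := (mem_HC_iff hC z).1 hz
  have h4 := Cp_max (h2.nl hC) h3 h1
  refine Submodule.span_induction
    (p := fun v _ => ∃ q ∈ QC S c, ∃ b ∈ HC S c, v = q + b * c.y) ?_ ?_ ?_ ?_ h4
  · rintro v ⟨hv, hv1⟩
    obtain ⟨q, hq, b, hb, hvb⟩ := HO_gen hC.r0 hC.gd (h2.mem_HO hC hv) hv1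
    exact ⟨q, QH_mem_QC hC hq, b, HO_le_HC hC hb, hvb⟩
  · exact ⟨0, QC_zero hC, 0, zero_mem _, by ring⟩
  · rintro v w - - ⟨q, hq, b, hb, rfl⟩ ⟨q', hq', b', hb', rfl⟩
    exact ⟨q + q', QC_add hC hq hq', b + b', add_mem hb hb', by ring⟩
  · rintro a v - ⟨q, hq, b, hb, rfl⟩
    have ha : (a : W) ∈ HC S c := (mem_HC_iff hC _).2 ⟨x', h2, a.2⟩
    refine ⟨q * a, QC_mul hq ha, a * b, mul_mem ha hb, ?_⟩
    rw [Subring.smul_def, smul_eq_mul]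
    ring

theorem HC_dec (hC : CtX p S L c)
    {z : W} (hz : z ∈ HC S c) : ∃ e ∈ c.B, ∃ q ∈ QC S c, ∃ b ∈ HC S c, z = e + q + b * c.y := by
  obtain ⟨x', h2, h3⟩ := (mem_HC_iff hC z).1 hz
  have hN := h2.nl hC
  obtain ⟨b, hb, hb1⟩ := Cp_dens hN h3 1
  obtain ⟨hb2, hb3⟩ := hN.cp.mP_one_iff.1 hb1
  obtain ⟨q, hq, b', hb', hz'⟩ := hcb_gen hC
    ((mem_HC_iff hC _).2 ⟨x', h2, hb2⟩) hb3
  obtain ⟨e, he, q1, hq1, b1, hb1, hb4⟩ := HO_dec hC.r0 hC.gd (h2.mem_HO hC hb)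
  refine ⟨e, he, q1 + q, QC_add hC (QH_mem_QC hC hq1) hq, b1 + b',
    add_mem (HO_le_HC hC hb1) hb', ?_⟩
  have h5 : z = b + (z - b) := by ring
  rw [h5, hz', hb4]
  ring

theorem HC_gen (hC : CtX p S L c)
    {z : W} (hz : z ∈ HC S c) (h1 : ‖z‖ < 1) :
    ∃ q ∈ QC S c, ∃ b ∈ HC S c, z = q + b * c.y := by
  exact hcb_gen hC hz h1

theorem HC_appr (hC : CtX p S L c)
    {z : W} (hz : z ∈ HC S c) (N : Fin r → ℤ) (J : ℕ) :
    ∃ h ∈ HO c, ∃ h1 ∈ HC S c, ∃ h2 ∈ HC S c, z = h + mon c.x N * h1 + c.y ^ J * h2 := by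
  classical
  obtain ⟨x', hM, hzB⟩ := (mem_HC_iff hC z).1 hz
  have hN := hM.nl hC
  have hx := hC.gd.ind
  have hx' : Indep x' := hM.1.ind
  have hCpHC : ∀ t ∈ Cp (Bx c.B x'), t ∈ HC S c := fun t ht =>
    (mem_HC_iff hC t).2 ⟨x', hM, ht⟩
  have hyHC : ∀ j : ℕ, c.y ^ j ∈ HC S c := fun j =>
    pow_mem (HO_le_HC hC (y_mem_HO hC.gd)) j
  obtain ⟨ρ, hρ0, hρ1, hρ⟩ : ∃ ρ : ℝ, 0 ≤ ρ ∧ ρ < 1 ∧ ∀ i, ‖x' i‖ ≤ ρ := by
    have : Nonempty (Fin r) := ⟨⟨0, hC.r0⟩⟩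
    obtain ⟨i₀, hi₀⟩ := Finite.exists_max (fun i => ‖x' i‖)
    exact ⟨‖x' i₀‖, norm_nonneg _, hx'.lt i₀, hi₀⟩
  obtain ⟨n₁, hn₁⟩ : ∃ n₁ : ℕ, ρ ^ n₁ ≤ ‖mon c.x N‖ := by
    obtain ⟨n, hn⟩ := exists_pow_lt_of_lt_one (norm_pos_iff.2 (mon_ne c.x hx.ne N)) hρ1
    exact ⟨n, hn.le⟩
  obtain ⟨b, hb, hb1⟩ := Cp_dens hN hzB (n₁ + J)
  have hw : ∀ j, (Fin.cons c.y x' : Fin (r + 1) → W) j ∈ Cp (Bx c.B x') ∧
      ‖(Fin.cons c.y x' : Fin (r + 1) → W) j‖ < 1 := by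
    intro j
    refine Fin.cases ?_ (fun i => ?_) j
    · rw [Fin.cons_zero]
      exact ⟨le_Cp hM.2.yB, hC.gd.y1⟩
    · rw [Fin.cons_succ]
      exact ⟨le_Cp (hM.2.xB i), hx'.lt i⟩
  have hwg : ∀ v ∈ Cp (Bx c.B x'), ‖v‖ < 1 →
      v ∈ Submodule.span (Cp (Bx c.B x')) (Set.range (Fin.cons c.y x' : Fin (r + 1) → W)) := by
    intro v hv hv1
    refine Submodule.span_le.2 ?_ (Cp_max hN hv hv1)
    rintro u ⟨hu, hu1⟩
    obtain ⟨d, d0, hd, hd0, rfl⟩ := hM.2.gen u hu hu1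
    refine add_mem (sum_mem fun i _ => ?_) ?_
    · have h1 : x' i ∈ Submodule.span (Cp (Bx c.B x'))
          (Set.range (Fin.cons c.y x' : Fin (r + 1) → W)) :=
        Submodule.subset_span ⟨i.succ, by rw [Fin.cons_succ]⟩
      exact Submodule.smul_mem _ (⟨d i, le_Cp (hd i)⟩ : Cp (Bx c.B x')) h1
    · have h1 : c.y ∈ Submodule.span (Cp (Bx c.B x'))
          (Set.range (Fin.cons c.y x' : Fin (r + 1) → W)) :=
        Submodule.subset_span ⟨0, by rw [Fin.cons_zero]⟩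
      exact Submodule.smul_mem _ (⟨d0, le_Cp hd0⟩ : Cp (Bx c.B x')) h1
  have h1 := hN.cp.mP_gen (Fin.cons c.y x' : Fin (r + 1) → W) hw hwg hb1
  have h2 : ∃ h1 ∈ HC S c, ∃ h2 ∈ HC S c, z - b = mon c.x N * h1 + c.y ^ J * h2 := by
    refine Submodule.span_induction
      (p := fun v _ => ∃ h1 ∈ HC S c, ∃ h2 ∈ HC S c, v = mon c.x N * h1 + c.y ^ J * h2)
      ?_ ?_ ?_ ?_ h1
    · rintro v ⟨α, hα, rfl⟩
      have h3 : monN (Fin.cons c.y x' : Fin (r + 1) → W) α =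
          c.y ^ α 0 * monN x' (fun i => α i.succ) := by
        unfold monN
        rw [Fin.prod_univ_succ, Fin.cons_zero]
        simp only [Fin.cons_succ]
      rw [Fin.sum_univ_succ] at hα
      obtain ⟨a, ha⟩ := Mt.mon_eq' hx hM.1 fun i => (α i.succ : ℤ)
      have ha' : monN x' (fun i => α i.succ) = mon c.x a := by
        rw [← ha]
        unfold monN mon
        exact Finset.prod_congr rfl fun i _ => (zpow_natCast _ _).symm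
      have hn : ‖mon c.x a‖ ≤ ρ ^ (∑ i : Fin r, α i.succ) := by
        rw [← ha']
        unfold monN
        rw [norm_prod, ← Finset.prod_pow_eq_pow_sum]
        refine Finset.prod_le_prod (fun i _ => norm_nonneg _) fun i _ => ?_
        rw [norm_pow]
        exact pow_le_pow_left₀ (norm_nonneg _) (hρ i) _
      have hn1 : ‖mon c.x a‖ ≤ 1 := hn.trans (pow_le_one₀ hρ0 hρ1.le)
      rw [h3, ha']
      by_cases hJ : J ≤ α 0
      · refine ⟨0, zero_mem _, c.y ^ (α 0 - J) * mon c.x a,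
          mul_mem (hyHC _) (mon_mem_HC hC hn1), ?_⟩
        conv_lhs => rw [← Nat.add_sub_cancel' hJ, pow_add]
        ring
      · have h4 : ‖mon c.x a‖ ≤ ‖mon c.x N‖ := by
          refine hn.trans ((pow_le_pow_of_le_one hρ0 hρ1.le ?_).trans hn₁)
          omega
        obtain ⟨h5, h6⟩ := hcb_quot hC h4
        refine ⟨mon c.x (a - N) * c.y ^ α 0, mul_mem h5 (hyHC _), 0, zero_mem _, ?_⟩
        rw [h6]
        ring
    · exact ⟨0, zero_mem _, 0, zero_mem _, by ring⟩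
    · rintro v w - - ⟨h1, hh1, h2, hh2, rfl⟩ ⟨h1', hh1', h2', hh2', rfl⟩
      exact ⟨h1 + h1', add_mem hh1 hh1', h2 + h2', add_mem hh2 hh2', by ring⟩
    · rintro d v - ⟨h1, hh1, h2, hh2, rfl⟩
      have hd : (d : W) ∈ HC S c := hCpHC _ d.2
      refine ⟨d * h1, mul_mem hd hh1, d * h2, mul_mem hd hh2, ?_⟩
      rw [Subring.smul_def, smul_eq_mul]
      ring
  obtain ⟨h1, hh1, h2, hh2, h3⟩ := h2
  refine ⟨b, hM.mem_HO hC hb, h1, hh1, h2, hh2, ?_⟩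
  have h5 : z = b + (z - b) := by ring
  rw [h5, h3]
  ring

/-! ### Monomial elements -/

theorem MoC.mul (hC : CtX p S L c) {z z' : W} (h : MoC S c z) (h' : MoC S c z') :
    MoC S c (z * z') := by
  obtain ⟨a, u, hu, hu1, rfl⟩ := h
  obtain ⟨a', u', hu', hu1', rfl⟩ := h'
  refine ⟨a + a', u * u', mul_mem hu hu', by rw [norm_mul, hu1, hu1', one_mul], ?_⟩
  rw [TDO.mon_add c.x hC.gd.ind.ne]; ring

theorem MoC.inv (hC : CtX p S L c) {z : W}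
    (h : MoC S c z) : MoC S c z⁻¹ := by
  obtain ⟨a, u, hu, hu1, rfl⟩ := h
  refine ⟨-a, u⁻¹, inv_mem_HC hC hu hu1, by rw [norm_inv, hu1, inv_one], ?_⟩
  rw [TDO.mon_neg, mul_inv]

private theorem hcb_one : MoC S c (1 : W) :=
  ⟨0, 1, one_mem _, norm_one, by rw [mon_zero, one_mul]⟩

theorem MoC.pow (hC : CtX p S L c) {z : W} (h : MoC S c z) (n : ℕ) : MoC S c (z ^ n) := by
  induction n with
  | zero =>
    rw [pow_zero]
    exact hcb_one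
  | succ n ih =>
    rw [pow_succ]
    exact MoC.mul hC ih h

theorem MoC.prod (hC : CtX p S L c) {ι : Type} (s : Finset ι) (f : ι → W)
    (h : ∀ i ∈ s, MoC S c (f i)) : MoC S c (∏ i ∈ s, f i) := by
  exact Finset.prod_induction f (fun z => MoC S c z) (fun _ _ ha hb => MoC.mul hC ha hb)
    hcb_one h

theorem MoC.ne (hC : CtX p S L c) {z : W} (h : MoC S c z) : z ≠ 0 := by
  obtain ⟨a, u, hu, hu1, rfl⟩ := h
  exact mul_ne_zero (mon_ne c.x hC.gd.ind.ne a) (norm_pos_iff.1 (by rw [hu1]; exact one_pos))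

theorem MoC.mem_HC (hC : CtX p S L c)
    {z : W} (h : MoC S c z) (h1 : ‖z‖ ≤ 1) : z ∈ HC S c := by
  obtain ⟨a, u, hu, hu1, rfl⟩ := h
  rw [norm_mul, hu1, mul_one] at h1
  exact mul_mem (mon_mem_HC hC h1) hu

theorem MoC.mem_QC (hC : CtX p S L c)
    {z : W} (h : MoC S c z) (h1 : ‖z‖ < 1) : z ∈ QC S c := by
  obtain ⟨a, u, hu, hu1, rfl⟩ := h
  rw [norm_mul, hu1, mul_one] at h1
  exact ⟨a, h1, u, hu, rfl⟩

theorem MoC.of_mon (hC : CtX p S L c) (a : Fin r → ℤ) : MoC S c (mon c.x a) := by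
  exact ⟨a, 1, one_mem _, norm_one, by rw [mul_one]⟩

theorem MoC.of_unit {z : W} (hz : z ∈ HC S c) (h1 : ‖z‖ = 1) : MoC S c z := by
  exact ⟨0, z, hz, h1, by rw [mon_zero, one_mul]⟩

theorem MoC.of_MoH (hC : CtX p S L c)
    {z : W} (h : MoH c z) : MoC S c z := by
  obtain ⟨a, u, hu, hu1, rfl⟩ := h
  exact ⟨a, u, HO_le_HC hC hu, hu1, rfl⟩

/-- small perturbations of monomial elements -/
theorem MoC.perturb (hC : CtX p S L c)
    {z q : W} (h : MoC S c z) (hq : q ∈ QC S c) :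
    MoC S c (z * (1 + q)) ∧ MoC S c (z + z * q) := by
  have h0 : MoC S c (1 + q) := by
    refine MoC.of_unit (add_mem (one_mem _) (QC_mem_HC hC hq)) ?_
    have h1 : ‖q‖ < ‖(1 : W)‖ := by
      rw [norm_one]
      exact QC_norm hC hq
    rw [add_comm, IsUltrametricDist.norm_add_eq_max_of_norm_ne_norm h1.ne, max_eq_right h1.le,
      norm_one]
  have h1 : MoC S c (z * (1 + q)) := MoC.mul hC h h0
  refine ⟨h1, ?_⟩
  rw [mul_add, mul_one] at h1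
  exact h1

/-! ### The ring `HLC` -/

theorem HC_le_HLC {z : W} (hz : z ∈ HC S c) : z ∈ HLC S c := by
  exact ⟨0, z, hz, by rw [mon_zero, one_mul]⟩

theorem HL_le_HLC (hC : CtX p S L c)
    {z : W} (hz : z ∈ HL c) : z ∈ HLC S c := by
  obtain ⟨a, h, hh, rfl⟩ := (mem_HL_iff hC.gd z).1 hz
  exact ⟨a, h, HO_le_HC hC hh, rfl⟩

theorem HLC_add (hC : CtX p S L c)
    {z z' : W} (hz : z ∈ HLC S c) (hz' : z' ∈ HLC S c) : z + z' ∈ HLC S c := by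
  obtain ⟨a, h, hh, rfl⟩ := hz
  obtain ⟨a', h', hh', rfl⟩ := hz'
  rcases le_total ‖mon c.x a'‖ ‖mon c.x a‖ with hle | hle
  · obtain ⟨h1, h2⟩ := hcb_quot hC hle
    refine ⟨a, h + mon c.x (a' - a) * h', add_mem hh (mul_mem h1 hh'), ?_⟩
    rw [h2]; ring
  · obtain ⟨h1, h2⟩ := hcb_quot hC hle
    refine ⟨a', mon c.x (a - a') * h + h', add_mem (mul_mem h1 hh) hh', ?_⟩
    rw [h2]; ring

theorem HLC_mul (hC : CtX p S L c) {z z' : W} (hz : z ∈ HLC S c) (hz' : z' ∈ HLC S c) :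
    z * z' ∈ HLC S c := by
  obtain ⟨a, h, hh, rfl⟩ := hz
  obtain ⟨a', h', hh', rfl⟩ := hz'
  exact ⟨a + a', h * h', mul_mem hh hh', by rw [TDO.mon_add c.x hC.gd.ind.ne]; ring⟩

theorem MoC.mem_HLC (hC : CtX p S L c) {z : W} (h : MoC S c z) : z ∈ HLC S c := by
  obtain ⟨a, u, hu, -, rfl⟩ := h
  exact ⟨a, u, hu, rfl⟩

end Pool.Agent.Lib.MX
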