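import Pool.Agent.Lib.MX.QFin
import Mathlib.RingTheory.AlgebraicIndependent.AlgebraicClosure

/-!
# Module QInd: the parameters other than `p` are algebraically independent over `E`
-/

namespace Pool.Agent.Lib.MX

open Pool.Agent.Lib.MP_3029eb_ag Pool.Agent.Lib.MP_3029eb_ag.Abh Pool.Agent.Lib.TDO
open Pool.Agent.Lib.TQ

private theorem qind_prime_le {R : Type} [CommRing R] [IsLocalRing R] {J : Ideal R}
    (hmin : IsLocalRing.maximalIdeal R ∈ J.minimalPrimes) (q : Ideal R) [q.IsPrime]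
    (hq : J ≤ q) : IsLocalRing.maximalIdeal R ≤ q :=
  hmin.2 ⟨inferInstance, hq⟩ (IsLocalRing.le_maximalIdeal (Ideal.IsPrime.ne_top inferInstance))

variable {E W : Type} [Field E] [NormedField W] [IsUltrametricDist W] [Algebra E W] {p r : ℕ}

private theorem q_dim {X : Subfield W} {D P : Subring W} (hD : Nl X D) (hP : Nl X P)
    (hPD : Cp P ≤ D) {l : ℕ} (v : Fin l → W) (hv : ∀ i, v i ∈ D)
    (hgen : ∀ z ∈ D, ∃ c : Fin l → W, (∀ i, c i ∈ Cp P) ∧ z = ∑ i, c i * v i) :
    ringKrullDim D ≤ ringKrullDim P := by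
  classical
  have hlD : IsLocalRing D := hD.isLocal
  have hnD : IsNoetherianRing D := hD.noeth
  have hlP : IsLocalRing P := hP.isLocal
  have hnP : IsNoetherianRing P := hP.noeth
  have hPD' : P ≤ D := le_Cp.trans hPD
  have hlR : IsLocalRing (Cp P) := hP.cp.isLocal
  obtain ⟨s, hs, hcard⟩ :=
    (IsLocalRing.maximalIdeal P).exists_finset_card_eq_height_of_isNoetherianRing
  let j : P →+* D := Subring.inclusion hPD'
  let i : Cp P →+* D := Subring.inclusion hPD
  let : Algebra (Cp P) D := i.toAlgebra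
  have hfin : Module.Finite (Cp P) D := by
    refine ⟨⟨Finset.univ.image fun a : Fin l => (⟨v a, hv a⟩ : D), ?_⟩⟩
    rw [eq_top_iff]
    intro z _
    obtain ⟨c, hc, hz⟩ := hgen z z.2
    have h1 : z = ∑ a, (⟨c a, hc a⟩ : Cp P) • (⟨v a, hv a⟩ : D) := by
      apply Subtype.ext
      rw [AddSubmonoidClass.coe_finsetSum]
      exact hz
    rw [h1]
    refine Submodule.sum_mem _ fun a _ => Submodule.smul_mem _ _ (Submodule.subset_span ?_)
    exact Finset.mem_coe.2 (Finset.mem_image_of_mem _ (Finset.mem_univ a))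
  have hint : Algebra.IsIntegral (Cp P) D := Algebra.IsIntegral.of_finite _ _
  have hmin : IsLocalRing.maximalIdeal D ∈ (Ideal.span ((s.image j : Finset D) : Set D)).minimalPrimes := by
    refine ⟨⟨inferInstance, ?_⟩, ?_⟩
    · rw [Ideal.span_le, Finset.coe_image]
      rintro _ ⟨b, hb, rfl⟩
      have h1 : b ∈ IsLocalRing.maximalIdeal P := hs.1.2 (Ideal.subset_span hb)
      rw [← hP.mI_eq, hP.mem_mI] at h1
      show j b ∈ IsLocalRing.maximalIdeal D
      rw [← hD.mI_eq, hD.mem_mI]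
      exact h1
    · rintro q ⟨hq, hqs⟩ _
      have h1 : IsLocalRing.maximalIdeal P ≤ q.comap j := by
        have : (q.comap j).IsPrime := Ideal.comap_isPrime j q
        refine qind_prime_le hs (q.comap j) ?_
        rw [Ideal.span_le]
        intro b hb
        refine hqs (Ideal.subset_span ?_)
        rw [Finset.coe_image]
        exact ⟨b, hb, rfl⟩
      have h2 : ∀ z ∈ Submodule.span (Cp P) {b : W | b ∈ P ∧ ‖b‖ < 1},
          ∃ h : z ∈ D, (⟨z, h⟩ : D) ∈ q := by
        intro z hz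
        induction hz using Submodule.span_induction with
        | mem x hx =>
          refine ⟨hPD' hx.1, ?_⟩
          have h3 : (⟨x, hx.1⟩ : P) ∈ IsLocalRing.maximalIdeal P := by
            rw [← hP.mI_eq, hP.mem_mI]
            exact hx.2
          exact h1 h3
        | zero => exact ⟨zero_mem _, zero_mem q⟩
        | add x y _ _ hx hy =>
          obtain ⟨h3, h4⟩ := hx
          obtain ⟨h5, h6⟩ := hy
          exact ⟨add_mem h3 h5, q.add_mem h4 h6⟩
        | smul a x _ hx =>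
          obtain ⟨h3, h4⟩ := hx
          exact ⟨mul_mem (hPD a.2) h3, q.mul_mem_left ⟨(a : W), hPD a.2⟩ h4⟩
      have h3 : q.comap (algebraMap (Cp P) D) = IsLocalRing.maximalIdeal (Cp P) := by
        have hpr : (q.comap (algebraMap (Cp P) D)).IsPrime := Ideal.comap_isPrime _ q
        refine le_antisymm (IsLocalRing.le_maximalIdeal hpr.ne_top) ?_
        intro z hz
        rw [← hP.cp.mI_eq, hP.cp.mem_mI] at hz
        obtain ⟨h4, h5⟩ := h2 z (Cp_max hP z.2 hz)
        exact h5
      have h4 : (q.comap (algebraMap (Cp P) D)).IsMaximal := by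
        rw [h3]
        exact IsLocalRing.maximalIdeal.isMaximal _
      have h5 : q.IsMaximal := Ideal.isMaximal_of_isIntegral_of_isMaximal_comap q h4
      rw [IsLocalRing.eq_maximalIdeal h5]
  have h1 := Ideal.height_le_card_of_mem_minimalPrimes_span_finset hmin
  rw [← IsLocalRing.maximalIdeal_height_eq_ringKrullDim,
    ← IsLocalRing.maximalIdeal_height_eq_ringKrullDim]
  have h2 : ((s.image j).card : ℕ∞) ≤ (s.card : ℕ∞) := by exact_mod_cast Finset.card_image_le
  rw [hcard] at h2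
  exact_mod_cast h1.trans h2

private theorem qind_range (ρ : ℕ) (t : Fin (ρ + 1) → W) (hpΛ : (p : W) ∈ Lam E W)
    (ht0 : t 0 = (p : W)) :
    (MvPolynomial.aeval (fun i : Fin ρ => t i.succ) :
      MvPolynomial (Fin ρ) (OE E W) →ₐ[OE E W] W).toRingHom.range =
      Subring.closure ((Lam E W : Set W) ∪ Set.range t) := by
  have h1 : (MvPolynomial.aeval (fun i : Fin ρ => t i.succ) :
      MvPolynomial (Fin ρ) (OE E W) →ₐ[OE E W] W).range =
      Algebra.adjoin (OE E W) (Set.range fun i : Fin ρ => t i.succ) :=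
    (Algebra.adjoin_range_eq_range_aeval (OE E W) _).symm
  have h2 := Algebra.adjoin_eq_ring_closure (R := OE E W) (s := Set.range fun i : Fin ρ => t i.succ)
  have h3 : Set.range (algebraMap (OE E W) W) = (Lam E W : Set W) := by
    ext z
    constructor
    · rintro ⟨e, rfl⟩
      exact ⟨⟨(e : E), rfl⟩, e.2⟩
    · rintro ⟨⟨e, rfl⟩, he⟩
      exact ⟨⟨e, he⟩, rfl⟩
  rw [h3] at h2
  have h4 : (MvPolynomial.aeval (fun i : Fin ρ => t i.succ) :
      MvPolynomial (Fin ρ) (OE E W) →ₐ[OE E W] W).toRingHom.range =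
      Subring.closure ((Lam E W : Set W) ∪ Set.range fun i : Fin ρ => t i.succ) := by
    rw [← h2, ← h1]
    rfl
  rw [h4]
  apply le_antisymm
  · refine Subring.closure_mono (Set.union_subset_union_right _ ?_)
    rintro _ ⟨i, rfl⟩
    exact ⟨i.succ, rfl⟩
  · rw [Subring.closure_le]
    rintro z (hz | ⟨i, rfl⟩)
    · exact Subring.subset_closure (Or.inl hz)
    · refine Fin.cases ?_ (fun i => ?_) i
      · rw [ht0]
        exact Subring.subset_closure (Or.inl hpΛ)
      · exact Subring.subset_closure (Or.inr ⟨i, rfl⟩)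

theorem q_indep (hAE : AmbE p r E W) {X : Subfield W} {D : Subring W} (hD : Nl X D) {ρ : ℕ}
    (hdim : ringKrullDim D = (((ρ + 1 : ℕ) : ℕ∞) : WithBot ℕ∞)) (t : Fin (ρ + 1) → W)
    (ht0 : t 0 = (p : W)) (hP : Nl X (PtX E t)) (hPD : Cp (PtX E t) ≤ D) {l : ℕ}
    (v : Fin l → W) (hv : ∀ i, v i ∈ D)
    (hgen : ∀ z ∈ D, ∃ c : Fin l → W, (∀ i, c i ∈ Cp (PtX E t)) ∧ z = ∑ i, c i * v i) :
    AlgebraicIndependent E (fun i : Fin ρ => t i.succ) := by
  have hdvr := oe_dvr hAE
  have hpΛ : (p : W) ∈ Lam E W :=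
    ⟨⟨(p : E), map_natCast (algebraMap E W) p⟩, hAE.p1.le⟩
  have halgE : Algebra.IsAlgebraic (OE E W) E := by
    refine ⟨fun x => ?_⟩
    by_cases hx : x = 0
    · rw [hx]; exact isAlgebraic_zero
    rcases le_total ‖algebraMap E W x‖ 1 with h | h
    · exact isAlgebraic_algebraMap (⟨x, h⟩ : OE E W)
    · have h1 : ‖algebraMap E W x⁻¹‖ ≤ 1 := by
        rw [map_inv₀, norm_inv]; exact inv_le_one_of_one_le₀ h
      have h2 : IsAlgebraic (OE E W) (x⁻¹) := isAlgebraic_algebraMap (⟨x⁻¹, h1⟩ : OE E W)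
      have h3 := h2.inv
      rwa [inv_inv] at h3
  suffices h : AlgebraicIndependent (OE E W) (fun i : Fin ρ => t i.succ) from h.extendScalars E
  by_contra hna
  rw [algebraicIndependent_iff] at hna
  push Not at hna
  obtain ⟨f, hf, hf0⟩ := hna
  have h1 := q_dim hD hP hPD v hv hgen
  have hEb : Subring.closure ((Lam E W : Set W) ∪ Set.range t) ≤ (ball W).toSubring := by
    have h2 : Subring.closure ((Lam E W : Set W) ∪ Set.range t) ≤ PtX E t := le_locV (ball W) _
    exact h2.trans hP.le_ball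
  have h2 : ringKrullDim (PtX E t) ≤
      ringKrullDim (Subring.closure ((Lam E W : Set W) ∪ Set.range t)) := by
    have h3 := C4_dim_locV (ball W) hEb
    unfold PtX
    rw [h3]
    exact Ideal.height_le_ringKrullDim_of_ne_top (Ideal.IsPrime.ne_top inferInstance)
  rw [← qind_range ρ t hpΛ ht0] at h2
  have h3 := ringKrullDim_succ_le_of_surjective
    (MvPolynomial.aeval (fun i : Fin ρ => t i.succ) :
      MvPolynomial (Fin ρ) (OE E W) →ₐ[OE E W] W).toRingHom.rangeRestrict
    (RingHom.rangeRestrict_surjective _) (r := f) (mem_nonZeroDivisors_of_ne_zero hf0)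
    (Subtype.ext hf)
  rw [MvPolynomial.ringKrullDim_of_isNoetherianRing,
    IsDiscreteValuationRing.ringKrullDim_eq_one (OE E W),
    Nat.card_eq_fintype_card, Fintype.card_fin] at h3
  rw [hdim] at h1
  have h4 : ((((ρ + 1 : ℕ) : ℕ∞) : WithBot ℕ∞)) + 1 ≤ 1 + ((ρ : ℕ) : WithBot ℕ∞) :=
    (add_le_add_left (h1.trans h2) 1).trans h3
  have h5 : ((ρ + 1 + 1 : ℕ) : WithBot ℕ∞) ≤ ((1 + ρ : ℕ) : WithBot ℕ∞) := by
    exact_mod_cast h4
  have h6 : ρ + 1 + 1 ≤ 1 + ρ := by exact_mod_cast h5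
  omega

end Pool.Agent.Lib.MX
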