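import Pool.Agent.Lib.MX.QStg
import Pool.Agent.Lib.TQ.KerT
import Pool.Agent.Lib.TQ.DenB
import Pool.Agent.Lib.MP_3029eb_ag.ImpRank

/-!
# Module QIter: following a refinement of charts by local blowings up of `A`
-/

namespace Pool.Agent.Lib.MX

open Pool.Agent.Lib.MP_3029eb_ag Pool.Agent.Lib.MP_3029eb_ag.Abh Pool.Agent.Lib.TDO
open Pool.Agent.Lib.TU (Mt exists_Mt)
open Pool.Agent.Lib.TQ IsLocalRing

private theorem qit_nl {W : Type} [NormedField W] [IsUltrametricDist W] {X : Subfield W}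
    {A : Subring W} (h : Nl X A) (g : Finset W)
    (hg : ∀ u ∈ g, ‖u‖ ≤ 1 ∧ ∃ n ∈ A, ∃ d ∈ A, d ≠ 0 ∧ u * d = n) :
    Nl X (locV (ball W) (Subring.closure ((A : Set W) ∪ (g : Set W)))) := by
  refine h.adjoin g fun u hu => ⟨?_, (hg u hu).1⟩
  obtain ⟨-, n, hn, d, hd, hd0, hud⟩ := hg u hu
  have h1 : u = n * d⁻¹ := by
    rw [← hud, mul_assoc, mul_inv_cancel₀ hd0, mul_one]
  rw [h1]
  exact X.mul_mem (h.le n hn) (X.inv_mem (h.le d hd))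

private theorem qit_le {W : Type} [NormedField W] [IsUltrametricDist W]
    (A : Subring W) (g : Finset W) :
    A ≤ locV (ball W) (Subring.closure ((A : Set W) ∪ (g : Set W))) := fun z hz =>
  ⟨z, Subring.subset_closure (Or.inl hz), 1, one_mem _, map_one _, mul_one z⟩

/-- fractions of fractions -/
private theorem qit_frac {W : Type} [NormedField W] {A A1 : Subring W}
    (hf : ∀ z ∈ A1, ∃ n ∈ A, ∃ d ∈ A, d ≠ 0 ∧ z * d = n) {u : W}
    (hu : ∃ n ∈ A1, ∃ d ∈ A1, d ≠ 0 ∧ u * d = n) : ∃ n ∈ A, ∃ d ∈ A, d ≠ 0 ∧ u * d = n := by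
  obtain ⟨n, hn, d, hd, hd0, hud⟩ := hu
  obtain ⟨n1, hn1, d1, hd1, hd10, hnd⟩ := hf n hn
  obtain ⟨n2, hn2, d2, hd2, hd20, hdd⟩ := hf d hd
  have hn20 : n2 ≠ 0 := by
    rw [← hdd]
    exact mul_ne_zero hd0 hd20
  refine ⟨n1 * d2, mul_mem hn1 hd2, n2 * d1, mul_mem hn2 hd1, mul_ne_zero hn20 hd10, ?_⟩
  rw [← hdd, ← hnd, ← hud]
  ring

/-- the last stage: kernels -/
private theorem qit_ker {W : Type} [NormedField W] [IsUltrametricDist W] {X : Subfield W}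
    {A1 A2 : Subring W} (h1 : Nl X A1) (h2 : Nl X A2) (hle : A1 ≤ A2) {r l : ℕ} (hr : 0 < r)
    (U : Fin r → W) (y1 : W) (ξ : Fin l → W) (hU : ∀ i, U i ∈ A2 ∧ ‖U i‖ < 1)
    (hy : y1 ∈ A2) (hy1 : ‖y1‖ < 1)
    (hgen : ∀ z ∈ A2, ‖z‖ < 1 →
        z ∈ Submodule.span A2 ({a : W | a ∈ A1 ∧ ‖a‖ < 1} ∪ (Set.range U ∪ {y1})))
    (hξ : ∀ i, ξ i ∈ A1 ∧ ‖ξ i‖ < 1)
    (hξg : ∀ z ∈ Cp A1, ‖z‖ < 1 → z ∈ Submodule.span (Cp A1) (Set.range ξ))
    (hξU : ∀ i, ∃ b ∈ A2, ξ i = (∏ i, U i) * b)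
    (hdim : ((r + 1 : ℕ) : WithBot ℕ∞) ≤ ringKrullDim (Cp A2))
    [IsLocalRing A1] [IsNoetherianRing A1] [IsLocalRing A2] [IsNoetherianRing A2]
    (φ : AdicCompletion (maximalIdeal A1) A1 →+* W) (hφ : Dom φ)
    (hφ1 : ∀ a : A1, φ (algebraMap A1 (AdicCompletion (maximalIdeal A1) A1) a) = a)
    (φ' : AdicCompletion (maximalIdeal A2) A2 →+* W) (hφ' : Dom φ')
    (hφ1' : ∀ a : A2, φ' (algebraMap A2 (AdicCompletion (maximalIdeal A2) A2) a) = a)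
    (χ : AdicCompletion (maximalIdeal A1) A1 →+* AdicCompletion (maximalIdeal A2) A2)
    (hχ : IsLocalHom χ)
    (hχA : ∀ a : A1, χ (algebraMap A1 (AdicCompletion (maximalIdeal A1) A1) a) =
        algebraMap A2 (AdicCompletion (maximalIdeal A2) A2) ⟨a, hle a.2⟩)
    (hχφ : ∀ t, φ' (χ t) = φ t) : RingHom.ker φ' = (RingHom.ker φ).map χ := by
  refine (ker_map h1 h2 hle φ hφ hφ1 φ' hφ' hφ1' χ hχ hχA hχφ (n := r + 1) ξ hξ hξg
    (Fin.cons y1 U) ?_ ?_ ?_ hdim).1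
  · intro i
    refine Fin.cases ?_ ?_ i
    · rw [Fin.cons_zero]
      exact ⟨hy, hy1⟩
    · intro j
      rw [Fin.cons_succ]
      exact hU j
  · intro z hz hz1
    have h3 := hgen z hz hz1
    have h4 : Set.range (Fin.cons y1 U : Fin (r + 1) → W) = Set.range U ∪ {y1} := by
      rw [Fin.range_cons, Set.insert_eq, Set.union_comm]
    rw [h4]
    exact h3
  · intro i
    obtain ⟨b, hb, hb1⟩ := hξU i
    let i0 : Fin r := ⟨0, hr⟩
    have h5 : (∏ i, U i) * b = ((∏ i ∈ Finset.univ.erase i0, U i) * b) * U i0 := by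
      rw [← Finset.mul_prod_erase Finset.univ U (Finset.mem_univ i0)]
      ring
    have h6 : (∏ i ∈ Finset.univ.erase i0, U i) * b ∈ A2 :=
      mul_mem (Subring.prod_mem _ fun j _ => (hU j).1) hb
    rw [hb1, h5]
    exact Submodule.smul_mem _ (⟨_, h6⟩ : A2) (Submodule.subset_span ⟨i0.succ, by
      rw [Fin.cons_succ]⟩)

variable {E W : Type} [Field E] [NormedField W] [IsUltrametricDist W] [Algebra E W] {r p : ℕ}
  {S L : IntermediateField E W} {c c' : Tri W r}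

/-- the induction -/
private theorem qit_main (hC : CtX p S L c) (h : RfS S c c')
    (A : Subring W) (hAN : Nl L.toSubfield A) {x' : Fin r → W}
    (hsyn : Syn S c A x') [IsLocalRing A] [IsNoetherianRing A]
    (φ : AdicCompletion (maximalIdeal A) A →+* W) (hφ : Dom φ)
    (h1 : ∀ a : A, φ (algebraMap A (AdicCompletion (maximalIdeal A) A) a) = a)
    (hdim : ∀ g : Finset W, (∀ u ∈ g, ‖u‖ ≤ 1 ∧ ∃ n ∈ A, ∃ d ∈ A, d ≠ 0 ∧ u * d = n) →
      ((r + 1 : ℕ) : WithBot ℕ∞) ≤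
        ringKrullDim (Cp (locV (ball W) (Subring.closure ((A : Set W) ∪ (g : Set W)))))) :
    ∃ (g : Finset W) (A' : Subring W) (x'' : Fin r → W) (Δ : Finset W),
      A' = locV (ball W) (Subring.closure ((A : Set W) ∪ (g : Set W))) ∧
      (∀ u ∈ g, ‖u‖ ≤ 1 ∧ ∃ n ∈ A, ∃ d ∈ A, d ≠ 0 ∧ u * d = n) ∧
      Syn S c' A' x'' ∧ DenD A A' Δ ∧ (∀ δ ∈ Δ, δ ∈ A' ∧ MoC S c' δ) ∧
      ∃ hle : A ≤ A', ∀ (_ : IsLocalRing A') (_ : IsNoetherianRing A')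
        (φ' : AdicCompletion (maximalIdeal A') A' →+* W) (_ : Dom φ')
        (_ : ∀ a : A', φ' (algebraMap A' (AdicCompletion (maximalIdeal A') A') a) = a)
        (χ : AdicCompletion (maximalIdeal A) A →+* AdicCompletion (maximalIdeal A') A')
        (_ : IsLocalHom χ)
        (_ : ∀ a : A, χ (algebraMap A (AdicCompletion (maximalIdeal A) A) a) =
          algebraMap A' (AdicCompletion (maximalIdeal A') A') ⟨a, hle a.2⟩)
        (_ : ∀ t, φ' (χ t) = φ t), RingHom.ker φ' = (RingHom.ker φ).map χ := by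
  classical
  induction h with
  | refl =>
    have hA : locV (ball W) (Subring.closure ((A : Set W) ∪ ((∅ : Finset W) : Set W))) = A := by
      rw [Finset.coe_empty, Set.union_empty, Subring.closure_eq, hAN.locV_eq]
    refine ⟨∅, A, x', ∅, hA.symm, fun u hu => absurd hu (Finset.notMem_empty u), hsyn,
      DenD.refl, fun δ hδ => absurd hδ (Finset.notMem_empty δ), le_rfl, ?_⟩
    intro _ _ φ' hφ' h1' χ hχ hχA hχφ
    have h2 : χ = RingHom.id _ := chi_unique hAN hAN le_rfl χ (RingHom.id _) hχ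
      (isLocalHom_id _) hχA (fun a => rfl)
    subst h2
    have h3 : φ' = φ := by
      ext t
      exact hχφ t
    rw [h3, Ideal.map_id]
  | @tail c1 c2 h01 h12 ih =>
    obtain ⟨g1, A1, x1, Δ1, hA1, hg1, hsyn1, hden1, hΔ1, hle1, hker1⟩ := ih
    have hN1 : Nl L.toSubfield A1 := by
      rw [hA1]
      exact qit_nl hAN g1 hg1
    have hC1 : CtX p S L c1 := hC.rfS h01
    obtain ⟨g2, U, y1, ξ, x2, A2, hA2, hg2, hsyn2, -, -, -, hU, hy1, hy1', hgen, hξ, hξg,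
      hξU⟩ := stage_syn hC1 h12 A1 hN1 hsyn1 ∅ (fun z hz => absurd hz (Finset.notMem_empty z))
        ∅ (fun z hz => absurd hz (Finset.notMem_empty z)) ∅
        (fun z hz => absurd hz (Finset.notMem_empty z))
    have h12' : RfS S c1 c2 := Relation.ReflTransGen.single h12
    have hC2 : CtX p S L c2 := hC1.rfS h12'
    have hle2 : A1 ≤ A2 := by
      rw [hA2]
      exact qit_le A1 g2
    have hg2' : ∀ u ∈ g2, ‖u‖ ≤ 1 ∧ ∃ n ∈ A1, ∃ d ∈ A1, d ≠ 0 ∧ u * d = n := by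
      intro u hu
      obtain ⟨hu1, n, hn, d, hd, hd0, hud⟩ := hg2 u hu
      exact ⟨hu1, n, hn, d, hd, hd0.ne hC2, hud.2⟩
    have hN2 : Nl L.toSubfield A2 := by
      rw [hA2]
      exact qit_nl hN1 g2 hg2'
    have hfr1 : ∀ z ∈ A1, ∃ n ∈ A, ∃ d ∈ A, d ≠ 0 ∧ z * d = n :=
      frac_of_frac g1 (fun u hu => (hg1 u hu).2) A1 hA1
    have hg12 : ∀ u ∈ g1 ∪ g2, ‖u‖ ≤ 1 ∧ ∃ n ∈ A, ∃ d ∈ A, d ≠ 0 ∧ u * d = n := by
      intro u hu
      rcases Finset.mem_union.1 hu with hu | hu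
      · exact hg1 u hu
      · exact ⟨(hg2' u hu).1, qit_frac hfr1 (hg2' u hu).2⟩
    have hA2' : A2 = locV (ball W) (Subring.closure ((A : Set W) ∪ ((g1 ∪ g2 : Finset W) : Set W))) := by
      rw [Imp.locV_locV_union' (ball W) A A1 g1 g2 hA1, hA2]
    -- denominators
    have hΔ : ∃ Δ2 : Finset W, (∀ u ∈ g2, ∃ n ∈ A1, ∃ d ∈ A1, d ∈ Δ2 ∧ u * d = n) ∧
        ∀ δ ∈ Δ2, δ ∈ A1 ∧ MoC S c2 δ := by
      choose! n hn d hd hd1 hnd using fun u hu => (hg2 u hu).2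
      refine ⟨g2.image d, fun u hu => ⟨n u, hn u hu, d u, hd u hu,
        Finset.mem_image_of_mem d hu, (hnd u hu).2⟩, fun δ hδ => ?_⟩
      obtain ⟨u, hu, rfl⟩ := Finset.mem_image.1 hδ
      exact ⟨hd u hu, hd1 u hu⟩
    obtain ⟨Δ2, hΔ2, hΔ2'⟩ := hΔ
    have hden2 : DenD A1 A2 Δ2 := DenD.of_frac g2 Δ2 hΔ2 A2 hA2
    refine ⟨g1 ∪ g2, A2, x2, Δ1 ∪ Δ2, hA2', hg12, hsyn2, DenD.trans hle2 hden1 hden2, ?_,
      hle1.trans hle2, ?_⟩
    · intro δ hδ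
      rcases Finset.mem_union.1 hδ with hδ | hδ
      · exact ⟨hle2 (hΔ1 δ hδ).1, RfS.moC hC1 h12' (hΔ1 δ hδ).2⟩
      · exact ⟨hle2 (hΔ2' δ hδ).1, (hΔ2' δ hδ).2⟩
    · intro _ _ φ' hφ' h1' χ hχ hχA hχφ
      have iL1 : IsLocalRing A1 := hN1.isLocal
      have iN1 : IsNoetherianRing A1 := hN1.noeth
      obtain ⟨φ1, hφ1, hφ11, -⟩ := exists_phiB hN1
      obtain ⟨χ1, hχ1, hχ1A, hχ1φ⟩ := exists_chi hAN hN1 hle1 φ hφ h1 φ1 hφ1 hφ11
      obtain ⟨χ2, hχ2, hχ2A, hχ2φ⟩ := exists_chi hN1 hN2 hle2 φ1 hφ1 hφ11 φ' hφ' h1'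
      have hk1 := hker1 iL1 iN1 φ1 hφ1 hφ11 χ1 hχ1 hχ1A hχ1φ
      have hU1 : ∀ i, U i ∈ A2 ∧ ‖U i‖ < 1 := by
        intro i
        obtain ⟨hUi, u, -, hu1, hUu⟩ := hU i
        refine ⟨hUi, ?_⟩
        rw [hUu, norm_mul, hu1, mul_one]
        exact (hsyn2.mdl.1.ind.lt i)
      have hdim2 : ((r + 1 : ℕ) : WithBot ℕ∞) ≤ ringKrullDim (Cp A2) := by
        have h2 := hdim (g1 ∪ g2) hg12
        rw [← hA2'] at h2
        exact h2
      have hk2 := qit_ker hN1 hN2 hle2 hC.r0 U y1 ξ hU1 hy1 hy1' hgen hξ hξg hξU hdim2 φ1 hφ1 hφ11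
        φ' hφ' h1' χ2 hχ2 hχ2A hχ2φ
      have hχ12 : χ = χ2.comp χ1 := by
        refine chi_unique hAN hN2 (hle1.trans hle2) χ (χ2.comp χ1) hχ
          (RingHom.isLocalHom_comp χ2 χ1) hχA ?_
        intro a
        rw [RingHom.comp_apply, hχ1A, hχ2A]
      rw [hk2, hk1, Ideal.map_map, hχ12]


theorem iter_syn (hC : CtX p S L c) (h : RfS S c c')
    (A : Subring W) (hAN : Nl L.toSubfield A) {x' : Fin r → W}
    (hsyn : Syn S c A x') [IsLocalRing A] [IsNoetherianRing A]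
    (φ : AdicCompletion (maximalIdeal A) A →+* W) (hφ : Dom φ)
    (h1 : ∀ a : A, φ (algebraMap A (AdicCompletion (maximalIdeal A) A) a) = a)
    (hdim : ∀ g : Finset W, (∀ u ∈ g, ‖u‖ ≤ 1 ∧ ∃ n ∈ A, ∃ d ∈ A, d ≠ 0 ∧ u * d = n) →
      ((r + 1 : ℕ) : WithBot ℕ∞) ≤
        ringKrullDim (Cp (locV (ball W) (Subring.closure ((A : Set W) ∪ (g : Set W)))))) :
    ∃ (g : Finset W) (A' : Subring W) (x'' : Fin r → W) (Δ : Finset W),
      A' = locV (ball W) (Subring.closure ((A : Set W) ∪ (g : Set W))) ∧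
      (∀ u ∈ g, ‖u‖ ≤ 1 ∧ ∃ n ∈ A, ∃ d ∈ A, d ≠ 0 ∧ u * d = n) ∧
      Syn S c' A' x'' ∧ DenD A A' Δ ∧ (∀ δ ∈ Δ, δ ∈ A' ∧ MoC S c' δ) ∧
      ∃ hle : A ≤ A', ∀ (_ : IsLocalRing A') (_ : IsNoetherianRing A')
        (φ' : AdicCompletion (maximalIdeal A') A' →+* W) (_ : Dom φ')
        (_ : ∀ a : A', φ' (algebraMap A' (AdicCompletion (maximalIdeal A') A') a) = a)
        (χ : AdicCompletion (maximalIdeal A) A →+* AdicCompletion (maximalIdeal A') A')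
        (_ : IsLocalHom χ)
        (_ : ∀ a : A, χ (algebraMap A (AdicCompletion (maximalIdeal A) A) a) =
          algebraMap A' (AdicCompletion (maximalIdeal A') A') ⟨a, hle a.2⟩)
        (_ : ∀ t, φ' (χ t) = φ t), RingHom.ker φ' = (RingHom.ker φ).map χ :=
  qit_main hC h A hAN hsyn φ hφ h1 hdim

end Pool.Agent.Lib.MX
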