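import Pool.Agent.Lib.MX.QIter
import Pool.Agent.Lib.MX.QHCmo
import Pool.Agent.Lib.TQ.FinG

/-!
# Module QLast: the local blowing up before the last one
-/

namespace Pool.Agent.Lib.MX

open Pool.Agent.Lib.MP_3029eb_ag Pool.Agent.Lib.MP_3029eb_ag.Abh Pool.Agent.Lib.TDO
open Pool.Agent.Lib.TU (Mt exists_Mt)
open Pool.Agent.Lib.TQ IsLocalRing

private theorem qla_nl {W : Type} [NormedField W] [IsUltrametricDist W] {X : Subfield W}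
    {A : Subring W} (h : Nl X A) (g : Finset W)
    (hg : ∀ u ∈ g, ‖u‖ ≤ 1 ∧ ∃ n ∈ A, ∃ d ∈ A, d ≠ 0 ∧ u * d = n) :
    Nl X (locV (ball W) (Subring.closure ((A : Set W) ∪ (g : Set W)))) := by
  refine h.adjoin g fun u hu => ⟨?_, (hg u hu).1⟩
  obtain ⟨-, n, hn, d, hd, hd0, hud⟩ := hg u hu
  have h1 : u = n * d⁻¹ := by
    rw [← hud, mul_assoc, mul_inv_cancel₀ hd0, mul_one]
  rw [h1]
  exact X.mul_mem (h.le n hn) (X.inv_mem (h.le d hd))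

private theorem qla_le {W : Type} [NormedField W] [IsUltrametricDist W]
    (A : Subring W) (g : Finset W) :
    A ≤ locV (ball W) (Subring.closure ((A : Set W) ∪ (g : Set W))) := fun z hz =>
  ⟨z, Subring.subset_closure (Or.inl hz), 1, one_mem _, map_one _, mul_one z⟩

/-- fractions of fractions -/
private theorem qla_frac {W : Type} [NormedField W] {A A1 : Subring W}
    (hf : ∀ z ∈ A1, ∃ n ∈ A, ∃ d ∈ A, d ≠ 0 ∧ z * d = n) {u : W}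
    (hu : ∃ n ∈ A1, ∃ d ∈ A1, d ≠ 0 ∧ u * d = n) : ∃ n ∈ A, ∃ d ∈ A, d ≠ 0 ∧ u * d = n := by
  obtain ⟨n, hn, d, hd, hd0, hud⟩ := hu
  obtain ⟨n1, hn1, d1, hd1, hd10, hnd⟩ := hf n hn
  obtain ⟨n2, hn2, d2, hd2, hd20, hdd⟩ := hf d hd
  have hn20 : n2 ≠ 0 := by
    rw [← hdd]
    exact mul_ne_zero hd0 hd20
  refine ⟨n1 * d2, mul_mem hn1 hd2, n2 * d1, mul_mem hn2 hd1, mul_ne_zero hn20 hd10, ?_⟩
  rw [← hdd, ← hnd, ← hud]
  ring

/-- the last stage: kernels -/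
private theorem qla_ker {W : Type} [NormedField W] [IsUltrametricDist W] {X : Subfield W}
    {A1 A2 : Subring W} (h1 : Nl X A1) (h2 : Nl X A2) (hle : A1 ≤ A2) {r l : ℕ} (hr : 0 < r)
    (U : Fin r → W) (y1 : W) (ξ : Fin l → W) (hU : ∀ i, U i ∈ A2 ∧ ‖U i‖ < 1)
    (hy : y1 ∈ A2) (hy1 : ‖y1‖ < 1)
    (hgen : ∀ z ∈ A2, ‖z‖ < 1 →
        z ∈ Submodule.span A2 ({a : W | a ∈ A1 ∧ ‖a‖ < 1} ∪ (Set.range U ∪ {y1})))
    (hξ : ∀ i, ξ i ∈ A1 ∧ ‖ξ i‖ < 1)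
    (hξg : ∀ z ∈ Cp A1, ‖z‖ < 1 → z ∈ Submodule.span (Cp A1) (Set.range ξ))
    (hξU : ∀ i, ∃ b ∈ A2, ξ i = (∏ i, U i) * b)
    (hdim : ((r + 1 : ℕ) : WithBot ℕ∞) ≤ ringKrullDim (Cp A2))
    [IsLocalRing A1] [IsNoetherianRing A1] [IsLocalRing A2] [IsNoetherianRing A2]
    (φ : AdicCompletion (maximalIdeal A1) A1 →+* W) (hφ : Dom φ)
    (hφ1 : ∀ a : A1, φ (algebraMap A1 (AdicCompletion (maximalIdeal A1) A1) a) = a)
    (φ' : AdicCompletion (maximalIdeal A2) A2 →+* W) (hφ' : Dom φ')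
    (hφ1' : ∀ a : A2, φ' (algebraMap A2 (AdicCompletion (maximalIdeal A2) A2) a) = a)
    (χ : AdicCompletion (maximalIdeal A1) A1 →+* AdicCompletion (maximalIdeal A2) A2)
    (hχ : IsLocalHom χ)
    (hχA : ∀ a : A1, χ (algebraMap A1 (AdicCompletion (maximalIdeal A1) A1) a) =
        algebraMap A2 (AdicCompletion (maximalIdeal A2) A2) ⟨a, hle a.2⟩)
    (hχφ : ∀ t, φ' (χ t) = φ t) : RingHom.ker φ' = (RingHom.ker φ).map χ := by
  refine (ker_map h1 h2 hle φ hφ hφ1 φ' hφ' hφ1' χ hχ hχA hχφ (n := r + 1) ξ hξ hξg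
    (Fin.cons y1 U) ?_ ?_ ?_ hdim).1
  · intro i
    refine Fin.cases ?_ ?_ i
    · rw [Fin.cons_zero]
      exact ⟨hy, hy1⟩
    · intro j
      rw [Fin.cons_succ]
      exact hU j
  · intro z hz hz1
    have h3 := hgen z hz hz1
    have h4 : Set.range (Fin.cons y1 U : Fin (r + 1) → W) = Set.range U ∪ {y1} := by
      rw [Fin.range_cons, Set.insert_eq, Set.union_comm]
    rw [h4]
    exact h3
  · intro i
    obtain ⟨b, hb, hb1⟩ := hξU i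
    let i0 : Fin r := ⟨0, hr⟩
    have h5 : (∏ i, U i) * b = ((∏ i ∈ Finset.univ.erase i0, U i) * b) * U i0 := by
      rw [← Finset.mul_prod_erase Finset.univ U (Finset.mem_univ i0)]
      ring
    have h6 : (∏ i ∈ Finset.univ.erase i0, U i) * b ∈ A2 :=
      mul_mem (Subring.prod_mem _ fun j _ => (hU j).1) hb
    rw [hb1, h5]
    exact Submodule.smul_mem _ (⟨_, h6⟩ : A2) (Submodule.subset_span ⟨i0.succ, by
      rw [Fin.cons_succ]⟩)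

/-- monomials in `x2` and in `U` -/
private theorem qla_mon {W : Type} [NormedField W] {r : ℕ} {U x2 uu : Fin r → W}
    (hUu : ∀ i, U i = x2 i * uu i) (β : Fin r → ℕ) : monN U β = monN x2 β * monN uu β := by
  unfold monN
  rw [← Finset.prod_mul_distrib]
  exact Finset.prod_congr rfl fun i _ => by rw [hUu, mul_pow]

private theorem qla_ind {W : Type} [NormedField W] {r : ℕ} {U x2 uu : Fin r → W}
    (hx : Indep x2) (hu : ∀ i, ‖uu i‖ = 1) (hUu : ∀ i, U i = x2 i * uu i) : Indep U := by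
  have hn : ∀ i, ‖U i‖ = ‖x2 i‖ := fun i => by rw [hUu, norm_mul, hu, mul_one]
  refine ⟨fun i h0 => hx.ne i ?_, fun i => by rw [hn]; exact hx.lt i, fun δ hδ => hx.indep δ ?_⟩
  · have h1 := hn i
    rw [h0, norm_zero] at h1
    exact norm_eq_zero.1 h1.symm
  · rw [← hδ]
    unfold mon
    rw [norm_prod, norm_prod]
    exact Finset.prod_congr rfl fun i _ => by rw [norm_zpow, norm_zpow, hn]

/-- the maximal ideal of `Cp A2` -/
private theorem qla_gen {W : Type} [NormedField W] [IsUltrametricDist W] {X : Subfield W}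
    {A1 A2 : Subring W} (h1 : Nl X A1) (h2 : Nl X A2) (hle : A1 ≤ A2) {r l : ℕ} (hr : 0 < r)
    (U : Fin r → W) (y1 : W) (ξ : Fin l → W) (hU : ∀ i, U i ∈ A2)
    (hgen : ∀ z ∈ A2, ‖z‖ < 1 →
        z ∈ Submodule.span A2 ({a : W | a ∈ A1 ∧ ‖a‖ < 1} ∪ (Set.range U ∪ {y1})))
    (hξg : ∀ z ∈ Cp A1, ‖z‖ < 1 → z ∈ Submodule.span (Cp A1) (Set.range ξ))
    (hξU : ∀ i, ∃ b ∈ A2, ξ i = (∏ i, U i) * b) :
    ∀ z ∈ Cp A2, ‖z‖ < 1 → z ∈ Submodule.span (Cp A2) (insert y1 (Set.range U)) := by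
  have hC : Cp A1 ≤ Cp A2 := Cp_mono h1 h2 (hle.trans le_Cp)
  have hξ : ∀ i, ξ i ∈ Submodule.span (Cp A2) (insert y1 (Set.range U)) := by
    intro i
    obtain ⟨b, hb, hb1⟩ := hξU i
    let i0 : Fin r := ⟨0, hr⟩
    have h5 : (∏ i, U i) * b = ((∏ i ∈ Finset.univ.erase i0, U i) * b) * U i0 := by
      rw [← Finset.mul_prod_erase Finset.univ U (Finset.mem_univ i0)]
      ring
    have h6 : (∏ i ∈ Finset.univ.erase i0, U i) * b ∈ Cp A2 :=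
      le_Cp (mul_mem (Subring.prod_mem _ fun j _ => hU j) hb)
    rw [hb1, h5]
    exact Submodule.smul_mem _ (⟨_, h6⟩ : Cp A2)
      (Submodule.subset_span (Set.mem_insert_of_mem _ ⟨i0, rfl⟩))
  have hsm : ∀ a ∈ A1, ‖a‖ < 1 → a ∈ Submodule.span (Cp A2) (insert y1 (Set.range U)) := by
    intro a ha ha1
    have h3 := hξg a (le_Cp ha) ha1
    clear ha ha1
    induction h3 using Submodule.span_induction with
    | mem x hx => obtain ⟨i, rfl⟩ := hx; exact hξ i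
    | zero => exact zero_mem _
    | add x y _ _ hx hy => exact add_mem (hx) (hy)
    | smul a x _ hx => exact Submodule.smul_mem _ (⟨a, hC a.2⟩ : Cp A2) hx
  intro z hz hz1
  refine Submodule.span_le.2 ?_ (Cp_max h2 hz hz1)
  rintro b ⟨hb, hb1⟩
  have h3 := hgen b hb hb1
  rw [SetLike.mem_coe]
  clear hb1 hb
  induction h3 using Submodule.span_induction with
  | mem x hx =>
    rcases hx with hx | hx | hx
    · exact hsm x hx.1 hx.2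
    · exact Submodule.subset_span (Set.mem_insert_of_mem _ hx)
    · exact Submodule.subset_span (Or.inl hx)
  | zero => exact zero_mem _
  | add x y _ _ hx hy => exact add_mem hx hy
  | smul a x _ hx => exact Submodule.smul_mem _ (⟨a, le_Cp a.2⟩ : Cp A2) hx

variable {E W : Type} [Field E] [NormedField W] [IsUltrametricDist W] [Algebra E W] {r p : ℕ}
  {S L : IntermediateField E W} {c c' : Tri W r}

theorem last_stage (hC : CtX p S L c) (A : Subring W) (hAN : Nl L.toSubfield A)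
    {x' : Fin r → W} (hsyn : Syn S c A x') [IsLocalRing A] [IsNoetherianRing A]
    (φ : AdicCompletion (maximalIdeal A) A →+* W) (hφ : Dom φ)
    (h1 : ∀ a : A, φ (algebraMap A (AdicCompletion (maximalIdeal A) A) a) = a)
    (hdim : ∀ g : Finset W, (∀ u ∈ g, ‖u‖ ≤ 1 ∧ ∃ n ∈ A, ∃ d ∈ A, d ≠ 0 ∧ u * d = n) →
      ((r + 1 : ℕ) : WithBot ℕ∞) ≤
        ringKrullDim (Cp (locV (ball W) (Subring.closure ((A : Set W) ∪ (g : Set W))))))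
    (Z : Finset W) (hZ : ∀ z ∈ Z, z ∈ Cp A ∧ z ≠ 0) :
    ∃ (g1 g2 : Finset W) (A1 A2 : Subring W) (U : Fin r → W) (y1 : W) (ξ : Fin (r + 1) → W)
      (Δ : Finset W),
      A1 = locV (ball W) (Subring.closure ((A : Set W) ∪ (g1 : Set W))) ∧
      (∀ u ∈ g1, ‖u‖ ≤ 1 ∧ ∃ n ∈ A, ∃ d ∈ A, d ≠ 0 ∧ u * d = n) ∧
      A2 = locV (ball W) (Subring.closure ((A1 : Set W) ∪ (g2 : Set W))) ∧
      (∀ u ∈ g2, ‖u‖ ≤ 1 ∧ ∃ n ∈ A1, ∃ d ∈ A1, d ≠ 0 ∧ u * d = n) ∧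
      Indep U ∧ (∀ i, U i ∈ A2) ∧ (y1 ∈ A2 ∧ ‖y1‖ < 1) ∧
      (∀ z ∈ Cp A2, ‖z‖ < 1 → z ∈ Submodule.span (Cp A2) (insert y1 (Set.range U))) ∧
      (∀ l, ξ l ∈ A1 ∧ ‖ξ l‖ < 1) ∧
      (∀ z ∈ Cp A1, ‖z‖ < 1 → z ∈ Submodule.span (Cp A1) (Set.range ξ)) ∧
      (∀ l, ∃ b ∈ A2, ξ l = (∏ i, U i) * b) ∧ DenD A A2 Δ ∧
      (∀ δ ∈ Δ, δ ∈ A2 ∧ ∃ β : Fin r → ℕ, ∃ u ∈ Cp A2, ‖u‖ = 1 ∧ δ = monN U β * u) ∧
      (∀ z ∈ Z, ∃ β : Fin r → ℕ, ∃ u ∈ Cp A2, ‖u‖ = 1 ∧ z = monN U β * u) ∧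
      (∀ z ∈ Z, ∀ z' ∈ Z, ‖z‖ ≤ ‖z'‖ → ∃ β : Fin r → ℕ, ‖z‖ = ‖z'‖ * ‖monN U β‖) ∧
      ∃ (hle1 : A ≤ A1) (hle2 : A1 ≤ A2), ∀ (_ : IsLocalRing A1) (_ : IsNoetherianRing A1)
        (_ : IsLocalRing A2) (_ : IsNoetherianRing A2)
        (φ1 : AdicCompletion (maximalIdeal A1) A1 →+* W) (_ : Dom φ1)
        (_ : ∀ a : A1, φ1 (algebraMap A1 (AdicCompletion (maximalIdeal A1) A1) a) = a)
        (φ2 : AdicCompletion (maximalIdeal A2) A2 →+* W) (_ : Dom φ2)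
        (_ : ∀ a : A2, φ2 (algebraMap A2 (AdicCompletion (maximalIdeal A2) A2) a) = a)
        (χ1 : AdicCompletion (maximalIdeal A) A →+* AdicCompletion (maximalIdeal A1) A1)
        (_ : IsLocalHom χ1)
        (_ : ∀ a : A, χ1 (algebraMap A (AdicCompletion (maximalIdeal A) A) a) =
          algebraMap A1 (AdicCompletion (maximalIdeal A1) A1) ⟨a, hle1 a.2⟩)
        (_ : ∀ t, φ1 (χ1 t) = φ t)
        (χ2 : AdicCompletion (maximalIdeal A1) A1 →+* AdicCompletion (maximalIdeal A2) A2)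
        (_ : IsLocalHom χ2)
        (_ : ∀ a : A1, χ2 (algebraMap A1 (AdicCompletion (maximalIdeal A1) A1) a) =
          algebraMap A2 (AdicCompletion (maximalIdeal A2) A2) ⟨a, hle2 a.2⟩)
        (_ : ∀ t, φ2 (χ2 t) = φ1 t),
        RingHom.ker φ1 = (RingHom.ker φ).map χ1 ∧ RingHom.ker φ2 = (RingHom.ker φ1).map χ2 := by
  classical
  have hr := hC.r0
  obtain ⟨c1, hrf1, hMo⟩ := hc_mo hC Z fun z hz =>
    ⟨HC_le_HLC ((mem_HC_iff hC z).2 ⟨x', hsyn.mdl, hsyn.eq ▸ (hZ z hz).1⟩), (hZ z hz).2⟩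
  obtain ⟨g1, A1, x1, Δ1, hA1, hg1, hsyn1, hden1, hΔ1, hle1, hker1⟩ :=
    iter_syn hC hrf1 A hAN hsyn φ hφ h1 hdim
  have hN1 : Nl L.toSubfield A1 := by
    rw [hA1]
    exact qla_nl hAN g1 hg1
  have hC1 : CtX p S L c1 := hC.rfS hrf1
  obtain ⟨c2, hst⟩ := hC1.exists_stR
  have h12 : RfS S c1 c2 := Relation.ReflTransGen.single hst
  have hC2 : CtX p S L c2 := hC1.rfS h12
  have hne := hC2.gd.ind.ne
  -- the monomial elements
  have hM2 : ∀ z ∈ Z ∪ Δ1, MoC S c2 z ∧ ‖z‖ ≤ 1 := by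
    intro z hz
    rcases Finset.mem_union.1 hz with hz | hz
    · exact ⟨RfS.moC hC1 h12 (hMo z hz), hAN.cp.one z (hZ z hz).1⟩
    · exact ⟨RfS.moC hC1 h12 (hΔ1 z hz).2, hN1.one z (hΔ1 z hz).1⟩
  choose! e u hu hu1 hzu using fun z hz => (hM2 z hz).1
  have hen : ∀ z ∈ Z ∪ Δ1, ‖mon c2.x (e z)‖ = ‖z‖ := by
    intro z hz
    conv_rhs => rw [hzu z hz]
    rw [norm_mul, hu1 z hz, mul_one]
  have hsub : ∀ z ∈ Z, ∀ z' ∈ Z, ‖mon c2.x (e z - e z')‖ * ‖z'‖ = ‖z‖ := by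
    intro z hz z' hz'
    have h2 : e z - e z' = e z + -e z' := sub_eq_add_neg _ _
    have h3 : ‖z'‖ ≠ 0 := norm_ne_zero_iff.2 (hZ z' hz').2
    rw [h2, TDO.mon_add c2.x hne, TDO.mon_neg, norm_mul, norm_inv,
      hen z (Finset.mem_union_left _ hz), hen z' (Finset.mem_union_left _ hz')]
    field_simp
  obtain ⟨g2, U, y1, ξ, x2, A2, hA2, hg2, hsyn2, -, hZ2, hY2, hU, hy1, hy1', hgen, hξ, hξg,
    hξU⟩ := stage_syn hC1 hst A1 hN1 hsyn1 ∅ (fun z hz => absurd hz (Finset.notMem_empty z))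
      ((Z ∪ Δ1).image u) (fun z hz => by
        obtain ⟨z', hz', rfl⟩ := Finset.mem_image.1 hz
        exact hu z' hz')
      ((Z ∪ Δ1).image e ∪ ((Z ×ˢ Z).filter fun p => ‖p.1‖ ≤ ‖p.2‖).image fun p => e p.1 - e p.2)
      (fun a ha => by
        rcases Finset.mem_union.1 ha with ha | ha
        · obtain ⟨z', hz', rfl⟩ := Finset.mem_image.1 ha
          rw [hen z' hz']
          exact (hM2 z' hz').2
        · obtain ⟨p, hp, rfl⟩ := Finset.mem_image.1 ha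
          obtain ⟨hp1, hp2⟩ := Finset.mem_filter.1 hp
          obtain ⟨hp3, hp4⟩ := Finset.mem_product.1 hp1
          have h2 := hsub p.1 hp3 p.2 hp4
          have h3 : 0 < ‖p.2‖ := norm_pos_iff.2 (hZ p.2 hp4).2
          by_contra h4
          push Not at h4
          have h5 : ‖p.2‖ < ‖mon c2.x (e p.1 - e p.2)‖ * ‖p.2‖ := lt_mul_of_one_lt_left h3 h4
          rw [h2] at h5
          exact absurd hp2 (not_le.2 h5))
  have hle2 : A1 ≤ A2 := by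
    rw [hA2]
    exact qla_le A1 g2
  have hg2' : ∀ u ∈ g2, ‖u‖ ≤ 1 ∧ ∃ n ∈ A1, ∃ d ∈ A1, d ≠ 0 ∧ u * d = n := by
    intro u hu
    obtain ⟨hu1, n, hn, d, hd, hd0, hud⟩ := hg2 u hu
    exact ⟨hu1, n, hn, d, hd, hd0.ne hC2, hud.2⟩
  have hN2 : Nl L.toSubfield A2 := by
    rw [hA2]
    exact qla_nl hN1 g2 hg2'
  have hfr1 : ∀ z ∈ A1, ∃ n ∈ A, ∃ d ∈ A, d ≠ 0 ∧ z * d = n :=
    frac_of_frac g1 (fun u hu => (hg1 u hu).2) A1 hA1
  have hg12 : ∀ u ∈ g1 ∪ g2, ‖u‖ ≤ 1 ∧ ∃ n ∈ A, ∃ d ∈ A, d ≠ 0 ∧ u * d = n := by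
    intro u hu
    rcases Finset.mem_union.1 hu with hu | hu
    · exact hg1 u hu
    · exact ⟨(hg2' u hu).1, qla_frac hfr1 (hg2' u hu).2⟩
  have hA2' : A2 = locV (ball W)
      (Subring.closure ((A : Set W) ∪ ((g1 ∪ g2 : Finset W) : Set W))) := by
    rw [Imp.locV_locV_union' (ball W) A A1 g1 g2 hA1, hA2]
  have hdim2 : ((r + 1 : ℕ) : WithBot ℕ∞) ≤ ringKrullDim (Cp A2) := by
    have h2 := hdim (g1 ∪ g2) hg12
    rw [← hA2'] at h2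
    exact h2
  -- the parameters
  choose uu huu huu1 hUu using fun i => (hU i).2
  have hind : Indep U := qla_ind hsyn2.mdl.1.ind huu1 hUu
  have hmono : ∀ β : Fin r → ℕ, ∃ v ∈ Cp A2, ‖v‖ = 1 ∧ monN x2 β = monN U β * v := by
    intro β
    have h2 : monN uu β ∈ Cp A2 := E0_monN_mem _ huu β
    have h3 : ‖monN uu β‖ = 1 := by
      unfold monN
      rw [norm_prod]
      exact Finset.prod_eq_one fun i _ => by rw [norm_pow, huu1, one_pow]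
    have h4 : monN uu β ≠ 0 := norm_ne_zero_iff.1 (by rw [h3]; exact one_ne_zero)
    refine ⟨(monN uu β)⁻¹, hN2.cp.inv _ h2 h3, by rw [norm_inv, h3, inv_one], ?_⟩
    rw [qla_mon hUu β, mul_assoc, mul_inv_cancel₀ h4, mul_one]
  have hall : ∀ z ∈ Z ∪ Δ1, ∃ β : Fin r → ℕ, ∃ u ∈ Cp A2, ‖u‖ = 1 ∧ z = monN U β * u := by
    intro z hz
    obtain ⟨β, hβ, -⟩ := hY2 (e z) (Finset.mem_union_left _ (Finset.mem_image_of_mem e hz))
    obtain ⟨v, hv, hv1, hxv⟩ := hmono β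
    have h2 : u z ∈ Cp A2 := by
      rw [hsyn2.eq]
      exact hZ2 _ (Finset.mem_image_of_mem u hz)
    refine ⟨β, v * u z, mul_mem hv h2, by rw [norm_mul, hv1, hu1 z hz, one_mul], ?_⟩
    conv_lhs => rw [hzu z hz, hβ, hxv]
    ring
  -- denominators
  have hΔ : ∃ Δ2 : Finset W, (∀ u ∈ g2, ∃ n ∈ A1, ∃ d ∈ A1, d ∈ Δ2 ∧ u * d = n) ∧
      ∀ δ ∈ Δ2, δ ∈ A1 ∧ MonV (ball W) A2 U δ := by
    choose! n hn d hd hd1 hd2 hnd using fun u hu => (hg2 u hu).2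
    refine ⟨g2.image d, fun u hu => ⟨n u, hn u hu, d u, hd u hu,
      Finset.mem_image_of_mem d hu, hnd u hu⟩, fun δ hδ => ?_⟩
    obtain ⟨u, hu, rfl⟩ := Finset.mem_image.1 hδ
    exact ⟨hd u hu, hd2 u hu⟩
  obtain ⟨Δ2, hΔ2, hΔ2'⟩ := hΔ
  have hden2 : DenD A1 A2 Δ2 := DenD.of_frac g2 Δ2 hΔ2 A2 hA2
  refine ⟨g1, g2, A1, A2, U, y1, ξ, Δ1 ∪ Δ2, hA1, hg1, hA2, hg2', hind, fun i => (hU i).1,
    ⟨hy1, hy1'⟩, qla_gen hN1 hN2 hle2 hr U y1 ξ (fun i => (hU i).1) hgen hξg hξU, hξ, hξg, hξU,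
    DenD.trans hle2 hden1 hden2, ?_, fun z hz => hall z (Finset.mem_union_left _ hz), ?_,
    hle1, hle2, ?_⟩
  · intro δ hδ
    rcases Finset.mem_union.1 hδ with hδ | hδ
    · exact ⟨hle2 (hΔ1 δ hδ).1, hall δ (Finset.mem_union_right _ hδ)⟩
    · obtain ⟨w, hw, hw1, β, hβ⟩ := (hΔ2' δ hδ).2
      exact ⟨hle2 (hΔ2' δ hδ).1, β, w, le_Cp hw, (ball_val_eq_one w).1 hw1,
        by rw [hβ, mul_comm]⟩
  · intro z hz z' hz' hzz
    obtain ⟨β, hβ, -⟩ := hY2 (e z - e z') (Finset.mem_union_right _ (Finset.mem_image.2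
      ⟨(z, z'), Finset.mem_filter.2 ⟨Finset.mem_product.2 ⟨hz, hz'⟩, hzz⟩, rfl⟩))
    obtain ⟨v, hv, hv1, hxv⟩ := hmono β
    refine ⟨β, ?_⟩
    rw [← hsub z hz z' hz', hβ, hxv, norm_mul, hv1, mul_one, mul_comm]
  · intro iL1 iN1 iL2 iN2 φ1 hφ1 hφ11 φ2 hφ2 hφ21 χ1 hχ1 hχ1A hχ1φ χ2 hχ2 hχ2A hχ2φ
    refine ⟨hker1 iL1 iN1 φ1 hφ1 hφ11 χ1 hχ1 hχ1A hχ1φ, ?_⟩
    exact qla_ker hN1 hN2 hle2 hr U y1 ξ (fun i => ⟨(hU i).1, hind.lt i⟩) hy1 hy1' hgen hξ hξg hξU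
      hdim2 φ1 hφ1 hφ11 φ2 hφ2 hφ21 χ2 hχ2 hχ2A hχ2φ

end Pool.Agent.Lib.MX
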