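import Pool.Agent.Lib.MX.QDefs
import Pool.Agent.Lib.TQ.CgD

/-!
# Module QSep: simple roots (characteristic zero)
-/

namespace Pool.Agent.Lib.MX

open Pool.Agent.Lib.MP_3029eb_ag Pool.Agent.Lib.MP_3029eb_ag.Abh Pool.Agent.Lib.TDO

theorem q_sep {W : Type} [Field W] [CharZero W] (R D : Subring W) (hRD : R ≤ D) {l : ℕ}
    (v : Fin l → W) (hv : ∀ i, v i ∈ D)
    (hgen : ∀ z ∈ D, ∃ c : Fin l → W, (∀ i, c i ∈ R) ∧ z = ∑ i, c i * v i) :
    ∀ z ∈ D, ∃ F : Polynomial W, (∀ j, F.coeff j ∈ R) ∧ F.eval z = 0 ∧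
      F.derivative.eval z ≠ 0 := by
  intro z hz
  refine TQ.sep_poly R ?_
  let i : R →+* D := Subring.inclusion hRD
  let _ : Algebra R D := i.toAlgebra
  have hfin : Module.Finite R D := by
    classical
    refine ⟨⟨Finset.univ.image fun a : Fin l => (⟨v a, hv a⟩ : D), ?_⟩⟩
    rw [eq_top_iff]
    intro z _
    obtain ⟨c, hc, hz⟩ := hgen z z.2
    have h1 : z = ∑ a, (⟨c a, hc a⟩ : R) • (⟨v a, hv a⟩ : D) := by
      apply Subtype.ext
      rw [AddSubmonoidClass.coe_finsetSum]
      exact hz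
    rw [h1]
    refine Submodule.sum_mem _ fun a _ => Submodule.smul_mem _ _ (Submodule.subset_span ?_)
    exact Finset.mem_coe.2 (Finset.mem_image_of_mem _ (Finset.mem_univ a))
  have hint : IsIntegral R (⟨z, hz⟩ : D) := (Algebra.IsIntegral.of_finite R D).isIntegral _
  obtain ⟨P, hPm, hP⟩ := hint
  let j : R →+* Subfield.closure (R : Set W) :=
    { toFun := fun a => ⟨a, Subfield.subset_closure a.2⟩
      map_one' := rfl
      map_mul' := fun _ _ => rfl
      map_zero' := rfl
      map_add' := fun _ _ => rfl }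
  have h1 : IsIntegral (Subfield.closure (R : Set W)) z := by
    refine ⟨P.map j, hPm.map j, ?_⟩
    rw [Polynomial.eval₂_map]
    have h2 := congrArg (D.subtype) hP
    rw [Polynomial.hom_eval₂, map_zero] at h2
    exact h2
  exact PerfectField.separable_of_irreducible (minpoly.irreducible h1)

end Pool.Agent.Lib.MX
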