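import Pool.Agent.Lib.MX.DimZ
import Pool.Agent.Lib.TQ.CpC

/-!
# Module QSop: systems of parameters containing `p`
-/

namespace Pool.Agent.Lib.MX

open Pool.Agent.Lib.MP_3029eb_ag Pool.Agent.Lib.MP_3029eb_ag.Abh Pool.Agent.Lib.TDO
open Pool.Agent.Lib.TQ

private theorem qsop_prime_le {R : Type} [CommRing R] [IsLocalRing R] {J : Ideal R}
    (hmin : IsLocalRing.maximalIdeal R ∈ J.minimalPrimes) (q : Ideal R) [q.IsPrime]
    (hq : J ≤ q) : IsLocalRing.maximalIdeal R ≤ q :=
  hmin.2 ⟨inferInstance, hq⟩ (IsLocalRing.le_maximalIdeal (Ideal.IsPrime.ne_top inferInstance))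

theorem q_sop {W : Type} [NormedField W] [IsUltrametricDist W] {X : Subfield W} {D : Subring W}
    (hD : Nl X D) {r : ℕ} (hdim : ringKrullDim D = (((r + 1 : ℕ) : ℕ∞) : WithBot ℕ∞)) (p : ℕ)
    (hp0 : (p : W) ≠ 0) (hp1 : ‖(p : W)‖ < 1) :
    ∃ t : Fin (r + 1) → W, t 0 = p ∧ (∀ i, t i ∈ D ∧ ‖t i‖ < 1 ∧ t i ≠ 0) ∧
      ∃ N : ℕ, ∀ z ∈ mP D N, z ∈ Submodule.span D (Set.range t) := by
  classical
  have hloc : IsLocalRing D := hD.isLocal
  have hnoe : IsNoetherianRing D := hD.noeth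
  have hpm : (p : D) ∈ IsLocalRing.maximalIdeal D := by
    rw [← hD.mI_eq, hD.mem_mI]
    exact hp1
  have hpD0 : (p : D) ≠ 0 := by
    intro h
    apply hp0
    have h1 := congrArg (fun z : D => (z : W)) h
    exact h1
  have hht : (IsLocalRing.maximalIdeal D).height ≤ ((r + 1 : ℕ) : ℕ∞) := by
    have h1 := IsLocalRing.maximalIdeal_height_eq_ringKrullDim (R := D)
    rw [hdim] at h1
    have h2 : (IsLocalRing.maximalIdeal D).height = ((r + 1 : ℕ) : ℕ∞) := by exact_mod_cast h1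
    exact h2.le
  obtain ⟨s, hcard, hs⟩ := exists_sys (IsLocalRing.maximalIdeal D) (p : D) hpm hpD0 hht
  have hrad : (Ideal.span (insert (p : D) (s : Set D))).radical = IsLocalRing.maximalIdeal D := by
    apply le_antisymm
    · exact (Ideal.IsPrime.radical_le_iff inferInstance).2 hs.1.2
    · rw [Ideal.radical_eq_sInf]
      refine le_sInf fun q hq => ?_
      have := hq.2
      exact qsop_prime_le hs q hq.1
  obtain ⟨N, hN⟩ := Ideal.exists_radical_pow_le_of_fg (Ideal.span (insert (p : D) (s : Set D)))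
    (IsNoetherian.noetherian _)
  rw [hrad] at hN
  let s0 := s.erase 0
  have hs0 : s0.card ≤ r := by
    have h1 : s0.card ≤ s.card := Finset.card_erase_le
    omega
  let y : Fin (r + 1) → D := Fin.cons (p : D) (fun i : Fin r =>
    if h : (i : ℕ) < s0.card then ((s0.equivFin.symm ⟨i, h⟩ : s0) : D) else (p : D))
  have hy : ∀ i, y i = (p : D) ∨ y i ∈ s0 := by
    intro i
    refine Fin.cases ?_ (fun i => ?_) i
    · left; rfl
    · by_cases h : (i : ℕ) < s0.card
      · right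
        show (if h : (i : ℕ) < s0.card then ((s0.equivFin.symm ⟨i, h⟩ : s0) : D) else (p : D)) ∈ s0
        rw [dif_pos h]
        exact (s0.equivFin.symm ⟨i, h⟩).2
      · left
        show (if h : (i : ℕ) < s0.card then ((s0.equivFin.symm ⟨i, h⟩ : s0) : D) else (p : D)) = _
        rw [dif_neg h]
  have hsur : ∀ x ∈ s0, ∃ i, y i = x := by
    intro x hx
    let j := s0.equivFin ⟨x, hx⟩
    refine ⟨Fin.succ ⟨(j : ℕ), lt_of_lt_of_le j.2 hs0⟩, ?_⟩
    show (if h : (j : ℕ) < s0.card then ((s0.equivFin.symm ⟨j, h⟩ : s0) : D) else (p : D)) = x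
    rw [dif_pos j.2]
    show ((s0.equivFin.symm j : s0) : D) = x
    rw [Equiv.symm_apply_apply]
  refine ⟨fun i => (y i : W), rfl, ?_, N, ?_⟩
  · intro i
    rcases hy i with h | h
    · refine ⟨(y i).2, ?_, ?_⟩
      · show ‖((y i : D) : W)‖ < 1
        rw [h]; exact hp1
      · show ((y i : D) : W) ≠ 0
        rw [h]; exact hp0
    · refine ⟨(y i).2, ?_, ?_⟩
      · have h1 : y i ∈ IsLocalRing.maximalIdeal D :=
          hs.1.2 (Ideal.subset_span (Set.mem_insert_of_mem _ (Finset.mem_of_mem_erase h)))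
        rw [← hD.mI_eq] at h1
        exact (hD.mem_mI _).1 h1
      · intro h2
        exact (Finset.ne_of_mem_erase h) (Subtype.ext h2)
  · rintro _ ⟨z, hz, rfl⟩
    rw [hD.mI_eq] at hz
    have h1 : Ideal.span (insert (p : D) (s : Set D)) ≤ Ideal.span (Set.range y) := by
      rw [Ideal.span_le]
      rintro x (rfl | hx)
      · exact Ideal.subset_span ⟨0, rfl⟩
      · by_cases hx0 : x = 0
        · rw [hx0]
          exact zero_mem _
        · obtain ⟨i, hi⟩ := hsur x (Finset.mem_erase.2 ⟨hx0, hx⟩)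
          exact Ideal.subset_span ⟨i, hi⟩
    have h2 := Submodule.mem_map_of_mem (f := (Algebra.linearMap D W)) (h1 (hN hz))
    unfold Ideal.span at h2
    rw [Submodule.map_span, ← Set.range_comp] at h2
    exact h2

end Pool.Agent.Lib.MX
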