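import Pool.Agent.Lib.MX.QTr
import Pool.Agent.Lib.MX.QCh0
import Pool.Agent.Lib.MX.QDat
import Pool.Agent.Lib.MX.QInd
import Pool.Agent.Lib.MX.QSep
import Pool.Agent.Lib.MX.QSop
import Pool.Agent.Lib.MX.MainP

/-!
# Module QStart: the field `S`, the approximation data and a chart of `L`
-/

namespace Pool.Agent.Lib.MX

open Pool.Agent.Lib.MP_3029eb_ag Pool.Agent.Lib.MP_3029eb_ag.Abh Pool.Agent.Lib.TDO
open Pool.Agent.Lib.TU (Mt exists_Mt)
open Pool.Agent.Lib.TQ

private theorem qsa_indep {W : Type} [NormedField W] [IsUltrametricDist W] {r : ℕ}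
    {x x' : Fin r → W} (hx : Indep x) (h : ∀ i, ‖x i - x' i‖ < ‖x i‖) : Indep x' := by
  have hn : ∀ i, ‖x' i‖ = ‖x i‖ := by
    intro i
    have h1 : x' i = x i + (x' i - x i) := by ring
    have h2 : ‖x' i - x i‖ < ‖x i‖ := by rw [norm_sub_rev]; exact h i
    rw [h1, IsUltrametricDist.norm_add_eq_max_of_norm_ne_norm h2.ne', max_eq_left h2.le]
  have hm : ∀ a : Fin r → ℤ, ‖mon x' a‖ = ‖mon x a‖ := by
    intro a
    unfold mon
    rw [norm_prod, norm_prod]
    refine Finset.prod_congr rfl fun i _ => ?_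
    rw [norm_zpow, norm_zpow, hn]
  refine ⟨fun i h0 => hx.ne i ?_, fun i => ?_, fun δ hδ => ?_⟩
  · rw [← norm_eq_zero, ← hn, h0, norm_zero]
  · rw [hn]
    exact hx.lt i
  · apply hx.indep
    rw [← hm]
    exact hδ

variable {E W : Type} [Field E] [NontriviallyNormedField W] [IsUltrametricDist W] [Algebra E W]
  [IsAlgClosed W] {p r : ℕ}

theorem chart_in (hr : 0 < r) (hAE : AmbE p r E W) (F0 : IntermediateField E W) (G : Finset W)
    (hG : IntermediateField.adjoin E (G : Set W) = F0) (τ : Fin r → W)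
    (hτ : AlgebraicIndependent E τ) (hτF : ∀ i, τ i ∈ F0) (hτ1 : ∀ i, ‖τ i‖ < 1)
    (hFτ : ∀ z ∈ F0, IsAlgebraic (IntermediateField.adjoin E (Set.range τ)) z) (x : Fin r → W)
    (hx : Indep x) (hxF : ∀ i, x i ∈ F0)
    (hcomp : IsComplete ((cl F0 : IntermediateField E W) : Set W))
    (halg : ∀ z : W, IsAlgebraic (cl F0 : IntermediateField E W) z) :
    AmbX p r (aC F0) ∧ HasCh (aC F0) r (cl F0) := by
  classical
  have hc0 := hAE.char0
  have hp0 : (p : W) ≠ 0 := Nat.cast_ne_zero.2 hAE.prime.ne_zero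
  have htr : Algebra.trdeg E (aC F0) = (r : Cardinal) := by
    have h1 := trdeg_eq τ hτ (aC F0) (fun i => le_aC _ (hτF i)) (fun z hz =>
      mem_aC.1 (aC_le (fun z hz => mem_aC.2 (hFτ z hz)) hz))
    rwa [Fintype.card_fin] at h1
  have hA : AmbX p r (aC F0) := hAE.ambX _ (fun z hz => aC_closed hz) htr
  refine ⟨hA, ?_⟩
  obtain ⟨j, hx'⟩ := indep_exch hx hp0 hAE.p1 hAE.rank
  obtain ⟨x', hx'e⟩ : ∃ x' : Fin r → W, x' = Function.update x j (p : W) := ⟨_, rfl⟩
  rw [← hx'e] at hx'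
  have hx'j : x' j = p := by rw [hx'e, Function.update_self]
  have hx'F : ∀ i, x' i ∈ F0 := by
    intro i
    by_cases h : i = j
    · rw [h, hx'j]; exact natCast_mem _ p
    · rw [hx'e, Function.update_of_ne h]; exact hxF i
  have hXi := algInd_x hAE hx' hx'j
  have hcard : Fintype.card {i : Fin r // i ≠ j} + 1 = r := by
    rw [Fintype.card_subtype_compl, Fintype.card_fin, Fintype.card_subtype_eq]
    omega
  have hl : ∃ l, Transcendental (Algebra.adjoin E (Set.range fun i : {i : Fin r // i ≠ j} => x' i))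
      (τ l) := by
    by_contra hc
    push Not at hc
    have h1 : aC F0 ≤ aC (IntermediateField.adjoin E
        (Set.range fun i : {i : Fin r // i ≠ j} => x' i)) := by
      have h2 : IntermediateField.adjoin E (Set.range τ) ≤ aC (IntermediateField.adjoin E
        (Set.range fun i : {i : Fin r // i ≠ j} => x' i)) := by
        rw [IntermediateField.adjoin_le_iff]
        rintro _ ⟨l, rfl⟩
        have h3 := not_not.1 (hc l)
        exact mem_aC.2 (IntermediateField.isAlgebraic_adjoin_iff.2 h3)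
      refine aC_le fun z hz => ?_
      exact aC_le h2 (mem_aC.2 (hFτ z hz))
    have h2 := trdeg_eq _ hXi (aC F0) (fun i => le_aC _ (hx'F i)) (fun z hz => mem_aC.1 (h1 hz))
    rw [htr] at h2
    have h3 : r = Fintype.card {i : Fin r // i ≠ j} := by exact_mod_cast h2
    omega
  obtain ⟨l, hl⟩ := hl
  have hv := (AlgebraicIndependent.option_iff (a := τ l)).2 ⟨hXi, hl⟩
  have hvalg := alg_of_trdeg _ hv (aC F0) (by
    rintro (_ | i)
    · exact le_aC _ (hτF l)
    · exact le_aC _ (hx'F i)) (by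
    rw [htr, Fintype.card_option, hcard])
  have halg' : ∀ z ∈ aC F0,
      IsAlgebraic (IntermediateField.adjoin E (insert (τ l) (Set.range x'))) z := by
    intro z hz
    refine alg_mono (IntermediateField.adjoin.mono E _ _ ?_) (hvalg z hz)
    rintro _ ⟨_ | i, rfl⟩
    · exact Or.inl rfl
    · exact Or.inr ⟨i, rfl⟩
  obtain ⟨c, hgs, hFr⟩ := gs_start hA hx' hx'j (fun i => le_aC _ (hx'F i)) (le_aC _ (hτF l))
    (hτ1 l) halg'
  obtain ⟨F1, hF1⟩ : ∃ F1 : IntermediateField E W,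
    F1 = IntermediateField.adjoin E (insert (τ l) (Set.range x')) := ⟨_, rfl⟩
  rw [← hF1] at hFr halg'
  have hF10 : F1 ≤ F0 := by
    rw [hF1, IntermediateField.adjoin_le_iff]
    rintro z (rfl | ⟨i, rfl⟩)
    · exact hτF l
    · exact hx'F i
  have hL0c : IsComplete ((cl F1 : IntermediateField E W) : Set W) :=
    isComplete_cl hcomp (hF10.trans (le_cl F0))
  have hch : Ch (aC F0) (cl F1) c := by
    refine ⟨hgs.gd, ?_, fun z hz => ?_⟩
    · rw [hFr]; exact le_cl F1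
    · rw [hFr]; exact hz
  have hGF : ∀ θ ∈ G, θ ∈ F0 := fun θ hθ => by
    rw [← hG]; exact IntermediateField.subset_adjoin E _ hθ
  have hGalg : ∀ θ ∈ G, IsAlgebraic (cl F1 : IntermediateField E W) θ := fun θ hθ =>
    alg_mono (le_cl F1) (halg' θ (le_aC _ (hGF θ hθ)))
  have hnt : ∃ z ∈ (cl F1 : IntermediateField E W), z ≠ 0 ∧ ‖z‖ < 1 :=
    ⟨(p : W), natCast_mem _ p, hp0, hAE.p1⟩
  have hcl : cl F1 ⊔ IntermediateField.adjoin E (G : Set W) = cl F0 := by
    apply le_antisymm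
    · refine sup_le (cl_mono hF10) ?_
      rw [hG]
      exact le_cl F0
    · refine cl_le_of_isComplete (isComplete_sup_finset hL0c hnt G hGalg) ?_
      rw [← hG]
      exact le_sup_right
  have halg0 : ∀ z : W, IsAlgebraic (cl F1 : IntermediateField E W) z := by
    intro z
    have h1 : cl F0 ≤ aC (cl F1) := by
      rw [← hcl]
      refine sup_le (le_aC _) ?_
      rw [IntermediateField.adjoin_le_iff]
      exact fun θ hθ => mem_aC.2 (hGalg θ hθ)
    exact mem_aC.1 (aC_le h1 (mem_aC.2 (halg z)))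
  have h := hasCh_finset hr hA hL0c halg0 ⟨c, hch⟩ G
  rwa [hcl] at h

theorem start_W (hr : 0 < r) (hAE : AmbE p r E W) (L : IntermediateField E W)
    (halg : ∀ z : W, IsAlgebraic L z) (A : Subring W) (hN : Nl L.toSubfield A)
    (hdens : ∀ z ∈ L, ∀ ε : ℝ, 0 < ε → ∃ a ∈ A, ∃ b ∈ A, b ≠ 0 ∧ ‖z - a / b‖ < ε)
    (hCD : ∀ e ∈ Lam E W, e ∈ Cp A) (hres : ∀ z ∈ A, ∃ e ∈ Lam E W, ‖z - e‖ < 1)
    (x : Fin r → W) (hx : Indep x) (hxL : ∀ i, x i ∈ L)
    (hdim : ringKrullDim (Cp A) = (((r + 1 : ℕ) : ℕ∞) : WithBot ℕ∞)) :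
    ∃ (S : IntermediateField E W) (q : ℕ) (t : Fin (r + 1) → W) (w w' : Fin q → W)
      (F F' : Fin q → Polynomial W) (N : ℕ), AmbX p r S ∧ HasCh S r L ∧
      DatX p S L A t w w' F F' N ∧
      (∀ z : W, z ∈ S ↔
        IsAlgebraic (IntermediateField.adjoin E (Set.range t ∪ Set.range w')) z) ∧
      L = cl (IntermediateField.adjoin E (Set.range t ∪ Set.range w')) := by
  classical
  have hc0 := hAE.char0
  have hp0 : (p : W) ≠ 0 := Nat.cast_ne_zero.2 hAE.prime.ne_zero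
  have hres' : ∀ z ∈ Cp A, ∃ e ∈ Lam E W, ‖z - e‖ < 1 := by
    intro z hz
    obtain ⟨b, hb, hb1⟩ := Cp_dens hN hz 1
    have h1 : ‖z - b‖ < 1 := ((hN.cp.mP_one_iff).1 hb1).2
    obtain ⟨a, ha, ha1⟩ := hres b hb
    refine ⟨a, ha, ?_⟩
    have h2 : z - a = (z - b) + (b - a) := by ring
    rw [h2]
    exact lt_of_le_of_lt (IsUltrametricDist.norm_add_le_max _ _) (max_lt h1 ha1)
  obtain ⟨t, ht0, ht, N0, hN0⟩ := q_sop hN.cp hdim p hp0 hAE.p1
  obtain ⟨hP, hPD, -, l, v, hv, hgen⟩ := q_fin hAE hN.cp (Cp_idem hN) hCD hres' t ⟨0, ht0⟩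
    (fun i => ⟨(ht i).1, (ht i).2.1⟩) N0 hN0
  have hsep := q_sep (Cp (PtX E t)) (Cp A) hPD v hv hgen
  have hind := q_indep hAE hN.cp hdim t ht0 hP hPD v hv hgen
  obtain ⟨q, w, w', F, F', N, hL, hdat⟩ := exists_datX hAE (Nat.succ_pos r) L A hN hdens t
    ⟨0, ht0⟩ hCD hres' ht hP hPD hsep
  obtain ⟨F2, hF2⟩ : ∃ F2 : IntermediateField E W,
    F2 = IntermediateField.adjoin E (Set.range t ∪ Set.range w') := ⟨_, rfl⟩
  rw [← hF2] at hL
  have hSm : ∀ z : W, z ∈ aC F2 ↔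
      IsAlgebraic (IntermediateField.adjoin E (Set.range t ∪ Set.range w')) z := fun z => by
    rw [← hF2]; exact mem_aC
  have hD0 := hdat (aC F2) hSm
  obtain ⟨G, hG⟩ : ∃ G : Finset W, G = Finset.univ.image t ∪ Finset.univ.image w' := ⟨_, rfl⟩
  have hGF : IntermediateField.adjoin E (G : Set W) = F2 := by
    rw [hF2, hG, Finset.coe_union, Finset.coe_image, Finset.coe_image, Finset.coe_univ,
      Finset.coe_univ, Set.image_univ, Set.image_univ]
  have htF : ∀ i, t i ∈ F2 := fun i => by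
    rw [hF2]; exact IntermediateField.subset_adjoin E _ (Or.inl ⟨i, rfl⟩)
  have hx' : ∀ i, ∃ y ∈ F2, ‖x i - y‖ < ‖x i‖ := by
    intro i
    have h1 : x i ∈ cl F2 := by rw [← hL]; exact hxL i
    exact (mem_cl_iff F2 (x i)).1 h1 _ (norm_pos_iff.2 (hx.ne i))
  choose x' hx'F hx'n using hx'
  -- `F2` is algebraic over `E(t)`
  obtain ⟨K1, hK1⟩ : ∃ K1 : IntermediateField E W,
    K1 = IntermediateField.adjoin E (Set.range fun i : Fin r => t i.succ) := ⟨_, rfl⟩
  have htK : ∀ i, t i ∈ K1 := by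
    intro i
    refine Fin.cases ?_ (fun i => ?_) i
    · rw [ht0]; exact natCast_mem _ p
    · rw [hK1]; exact IntermediateField.subset_adjoin E _ ⟨i, rfl⟩
  have hPA : ∀ z ∈ PtX E t, z ∈ aC K1 := by
    rintro z ⟨a, ha, b, hb, hb1, hab⟩
    have h4 : Subring.closure ((Lam E W : Set W) ∪ Set.range t) ≤ (aC K1).toSubfield.toSubring := by
      rw [Subring.closure_le]
      rintro y (hy | ⟨i, rfl⟩)
      · obtain ⟨⟨e, rfl⟩, -⟩ := hy
        exact IntermediateField.algebraMap_mem _ e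
      · exact le_aC _ (htK i)
    have hb0 : b ≠ 0 := by
      rintro rfl
      rw [map_zero] at hb1
      exact zero_ne_one hb1
    rw [eq_div_of_mul_eq hb0 hab]
    exact div_mem (h4 ha) (h4 hb)
  have hwA : ∀ j, w' j ∈ aC K1 := by
    intro j
    refine aC_closed ?_
    have h6 : F' j ∈ Polynomial.lifts (algebraMap (aC K1) W) := by
      rw [Polynomial.lifts_iff_coeff_lifts]
      intro i
      exact ⟨⟨(F' j).coeff i, hPA _ (hD0.FP' j i)⟩, rfl⟩
    obtain ⟨Q, hQ⟩ := (Polynomial.mem_lifts _).1 h6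
    refine ⟨Q, ?_, ?_⟩
    · intro h0
      apply hD0.der0 j
      rw [← hQ, h0, Polynomial.map_zero, Polynomial.derivative_zero, Polynomial.eval_zero]
    · rw [Polynomial.aeval_def, ← Polynomial.eval_map, hQ]
      exact hD0.root' j
  have hFτ : ∀ z ∈ F2, IsAlgebraic K1 z := by
    have h1 : F2 ≤ aC K1 := by
      rw [hF2, IntermediateField.adjoin_le_iff]
      rintro z (⟨i, rfl⟩ | ⟨j, rfl⟩)
      · exact le_aC _ (htK i)
      · exact hwA j
    exact fun z hz => mem_aC.1 (h1 hz)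
  rw [hK1] at hFτ
  obtain ⟨hAX, hch⟩ := chart_in hr hAE F2 G hGF (fun i : Fin r => t i.succ) hind
    (fun i => htF _) (fun i => (ht _).2.1) hFτ x' (qsa_indep hx hx'n) hx'F
    (by rw [← hL]; exact hN.comp) (by rw [← hL]; exact halg)
  rw [← hL] at hch
  exact ⟨aC F2, q, t, w, w', F, F', N, hAX, hch, hD0, hSm, by rw [← hF2]; exact hL⟩

end Pool.Agent.Lib.MX
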