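import Pool.Agent.Lib.TQ.CaseK
import Pool.Agent.Lib.MX.QStart
import Pool.Agent.Lib.MX.QMainW
import Pool.Agent.Lib.MX.QAmb
import Pool.Agent.Lib.TDO.Transp

/-!
# Module QMainK: the theorem for local rings of a normed field of mixed characteristic
-/

namespace Pool.Agent.Lib.MX

open Pool.Agent.Lib.MP_3029eb_ag Pool.Agent.Lib.MP_3029eb_ag.Abh Pool.Agent.Lib.TDO
open Pool.Agent.Lib.TU (Mt exists_Mt)
open Pool.Agent.Lib.TQ IsLocalRing

theorem qe_ballX (p : ℕ) [Fact p.Prime] {K : Type}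
    [NontriviallyNormedField K] [IsUltrametricDist K] [CharZero K] (hp1 : ‖(p : K)‖ < 1)
    (A : Subring K) [IsLocalRing A]
    [IsNoetherianRing A] (hA : A ≤ (ball K).toSubring) (hloc : locV (ball K) A = A)
    (hfrac : ∀ z : K, ∃ a ∈ A, ∃ b ∈ A, b ≠ 0 ∧ z * b = a)
    {r : ℕ} (hr : 0 < r) (x : Fin r → K) (hx : IndV (ball K) x)
    (hrank : ∀ z : Fin (r + 1) → K, (∀ i, z i ≠ 0) →
      ∃ a : Fin (r + 1) → ℤ, a ≠ 0 ∧ ‖mon z a‖ = 1)
    (hres : ∀ z : K, ‖z‖ ≤ 1 → ∃ f : Polynomial A, (∃ n, ‖((f.coeff n : A) : K)‖ = 1) ∧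
      ‖Polynomial.eval₂ A.subtype z f‖ < 1)
    (hreg : ∀ g : Finset K, (∀ t ∈ g, ‖t‖ ≤ 1) →
      ∀ A' : Subring K, A' = locV (ball K) (Subring.closure ((A : Set K) ∪ (g : Set K))) →
      ∀ (_ : IsLocalRing A'), GFR A')
    {L : Type} [NontriviallyNormedField L] [IsUltrametricDist L] [CompleteSpace L] (κ : K →+* L)
    (hκ : ∀ z, ‖κ z‖ = ‖z‖) (hκd : DenseRange κ)
    (φ : AdicCompletion (maximalIdeal A) A →+* L) (hφ : Dom φ)
    (hφA : ∀ a : A, φ (algebraMap A (AdicCompletion (maximalIdeal A) A) a) = κ (a : K))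
    (hdim : ringKrullDim (AdicCompletion (maximalIdeal A) A ⧸ RingHom.ker φ) ≤
      ((r + 1 : ℕ) : WithBot ℕ∞)) :
    ∃ h, Imp.EMB2 (ball K) A r h := by
  classical
  have hdA : Dom A.subtype := dom_subtype A hA hloc
  obtain ⟨E, W, i0, i1, i2, i3, i4, LW, κW, hκW, hκL, hAE, halg, hN, hdens, hCD, hresW⟩ :=
    exists_WX p hp1 A hdA hfrac hrank hres
  have hinj : Function.Injective κW := κW.injective
  have hfr : ∀ t : W, (∃ n ∈ A.map κW, ∃ d ∈ A.map κW, d ≠ 0 ∧ t * d = n) → ∃ s : K, κW s = t := by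
    rintro t ⟨_, ⟨n, hn, rfl⟩, _, ⟨d, hd, rfl⟩, hd0, e⟩
    refine ⟨n / d, ?_⟩
    rw [map_div₀, ← e, mul_div_assoc, div_self hd0, mul_one]
  -- transport of finite sets of fractions
  have hstar : ∀ gW : Finset W, (∀ u ∈ gW, ‖u‖ ≤ 1 ∧ ∃ n ∈ A.map κW, ∃ d ∈ A.map κW,
      d ≠ 0 ∧ u * d = n) → ∃ g : Finset K, (∀ t ∈ g, ‖t‖ ≤ 1) ∧ g.image κW = gW ∧
      locV (ball W) (Subring.closure (((A.map κW : Subring W) : Set W) ∪ (gW : Set W))) =
        (locV (ball K) (Subring.closure ((A : Set K) ∪ (g : Set K)))).map κW := by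
    intro gW hgW
    have him : (gW.preimage κW hinj.injOn).image κW = gW := by
      ext t
      rw [Finset.mem_image]
      constructor
      · rintro ⟨a, ha, rfl⟩
        exact Finset.mem_preimage.1 ha
      · intro ht
        obtain ⟨a, rfl⟩ := hfr t (hgW t ht).2
        exact ⟨a, Finset.mem_preimage.2 ht, rfl⟩
    refine ⟨gW.preimage κW hinj.injOn, fun t ht => ?_, him, ?_⟩
    · rw [← hκW]
      exact (hgW _ (Finset.mem_preimage.1 ht)).1
    · rw [locV_map κW hκW, ← Finset.coe_image, him]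
  by_cases hc : ∃ g : Finset K, (∀ t ∈ g, ‖t‖ ≤ 1) ∧
      ringKrullDim (Cp ((locV (ball K) (Subring.closure ((A : Set K) ∪ (g : Set K)))).map κW)) ≤
        ((r : ℕ) : WithBot ℕ∞)
  · obtain ⟨g, hg, hd⟩ := hc
    exact case_one A hA hloc hfrac hr x hx κ hκ hκd (X := LW.toSubfield) κW hκW hκL hN g hg _ rfl
      (hreg g hg _ rfl) hd
  have hc' : ∀ g : Finset K, (∀ t ∈ g, ‖t‖ ≤ 1) → ((r + 1 : ℕ) : WithBot ℕ∞) ≤
      ringKrullDim (Cp ((locV (ball K) (Subring.closure ((A : Set K) ∪ (g : Set K)))).map κW)) := by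
    intro g hg
    by_contra h1
    apply hc
    refine ⟨g, hg, ?_⟩
    rw [not_le] at h1
    by_contra h2
    rw [not_le] at h2
    have h3 := (ENat.WithBot.add_one_le_iff (n := r)).2 h2
    push_cast at h1 h3
    exact absurd (h3.trans_lt h1) (lt_irrefl _)
  -- the dimension of the completion
  have hdimA : ringKrullDim (Cp (A.map κW)) = (((r + 1 : ℕ) : ℕ∞) : WithBot ℕ∞) := by
    apply le_antisymm
    · rw [← dim_eq A κW hκW hN κ hκ φ hφ hφA]
      exact hdim
    · have h1 := hc' ∅ (fun t ht => absurd ht (Finset.notMem_empty t))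
      rw [Finset.coe_empty, Set.union_empty, Subring.closure_eq, hloc] at h1
      exact h1
  -- elements of norm less than one
  have hxne : ∀ i, ‖x i‖ ≠ 1 := by
    intro i h1
    have h2 := hx.indep (Pi.single i 1) (by
      rw [ball_val_eq_one]
      unfold mon
      rw [Finset.prod_eq_single i]
      · rw [Pi.single_eq_same, zpow_one]; exact h1
      · intro j _ hj
        rw [Pi.single_eq_of_ne hj, zpow_zero]
      · intro h; exact absurd (Finset.mem_univ i) h)
    have h3 := congrFun h2 i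
    rw [Pi.single_eq_same] at h3
    exact one_ne_zero h3
  let τ : Fin r → ℤ := fun i => if ‖x i‖ < 1 then 1 else -1
  have hτ : ∀ i, τ i ≠ 0 := by
    intro i
    show (if ‖x i‖ < 1 then (1 : ℤ) else -1) ≠ 0
    split_ifs <;> norm_num
  have hind : Indep (fun i => κW (x i ^ τ i)) := by
    refine ⟨fun i => (map_ne_zero κW).2 (zpow_ne_zero _ (hx.ne i)), fun i => ?_, fun δ hδ => ?_⟩
    · show ‖κW (x i ^ (if ‖x i‖ < 1 then (1 : ℤ) else -1))‖ < 1
      rw [hκW]
      split_ifs with h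
      · rw [zpow_one]; exact h
      · rw [zpow_neg_one, norm_inv]
        exact inv_lt_one_of_one_lt₀ (lt_of_le_of_ne (not_lt.1 h) (hxne i).symm)
    · have h1 : mon (fun i => κW (x i ^ τ i)) δ = κW (mon x (fun i => τ i * δ i)) := by
        unfold mon
        rw [map_prod]
        refine Finset.prod_congr rfl fun i _ => ?_
        rw [← map_zpow₀, zpow_mul]
      have h2 := hx.indep (fun i => τ i * δ i) (by rw [ball_val_eq_one, ← hκW, ← h1]; exact hδ)
      funext i
      have h3 := congrFun h2 i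
      exact (mul_eq_zero.1 h3).resolve_left (hτ i)
  obtain ⟨S, q, t, w, w', F, F', N, hAX, hch, hD, hSF, hLF⟩ :=
    start_W hr hAE LW halg (A.map κW) hN hdens hCD hresW _ hind (fun i => hκL _) hdimA
  obtain ⟨h, H⟩ := main_W hr hAX hch (A.map κW) t w w' F F' N hD hSF hLF
    (by
      intro b hb
      obtain ⟨a, ha, h1⟩ := Cp_dens hN (hCD b hb) 1
      exact ⟨a, ha, ((hN.cp.mP_one_iff).1 h1).2⟩)
    (by
      intro gW hgW
      obtain ⟨g, hg, -, he⟩ := hstar gW hgW
      rw [he]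
      exact hc' g hg)
    (by
      intro gW hgW A' hA' iA'
      obtain ⟨g, hg, -, he⟩ := hstar gW hgW
      have hN' : Nl LW.toSubfield A' := by
        rw [hA']
        refine hN.adjoin gW fun u hu => ⟨?_, (hgW u hu).1⟩
        obtain ⟨s, rfl⟩ := hfr u (hgW u hu).2
        exact hκL s
      have iN' : IsNoetherianRing A' := hN'.noeth
      have hA1 : A' = (locV (ball K) (Subring.closure ((A : Set K) ∪ (g : Set K)))).map κW :=
        hA'.trans he
      clear hA' he hN'
      subst hA1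
      have e := Subring.equivMapOfInjective
        (locV (ball K) (Subring.closure ((A : Set K) ∪ (g : Set K)))) κW hinj
      have j1 : IsLocalRing (locV (ball K) (Subring.closure ((A : Set K) ∪ (g : Set K)))) :=
        e.symm.isLocalRing
      have j2 : IsNoetherianRing (locV (ball K) (Subring.closure ((A : Set K) ∪ (g : Set K)))) :=
        isNoetherianRing_of_ringEquiv _ e.symm
      exact gfr_equiv e (hreg g hg _ rfl j1))
  refine ⟨h, fun s hs => ?_⟩
  obtain ⟨gW, uW, gsW, hgW, hcard, hgood, hmono⟩ := H (s.image κW) (by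
    intro z hz
    obtain ⟨f, hf, rfl⟩ := Finset.mem_image.1 hz
    obtain ⟨hf0, hfV, a, ha, b, hb, hb0, hab⟩ := hs f hf
    refine ⟨(map_ne_zero κW).2 hf0, by rw [hκW]; exact (mem_ball _).1 hfV, κW a, ⟨a, ha, rfl⟩,
      κW b, ⟨b, hb, rfl⟩, (map_ne_zero κW).2 hb0, ?_⟩
    rw [← map_mul, hab])
  obtain ⟨g, hg, him, he⟩ := hstar gW hgW
  have hu : ∀ i, ∃ z : K, κW z = uW i := by
    intro i
    have h1 := hgood.mem i
    rw [he] at h1
    obtain ⟨z, -, hz⟩ := h1
    exact ⟨z, hz⟩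
  choose u' hu' using hu
  have hgs : (gsW.preimage κW hinj.injOn).image κW = gsW := by
    ext t
    rw [Finset.mem_image]
    constructor
    · rintro ⟨a, ha, rfl⟩
      exact Finset.mem_preimage.1 ha
    · intro ht
      have h1 := hgood.gmem t ht
      rw [he] at h1
      obtain ⟨z, -, hz⟩ := h1
      refine ⟨z, Finset.mem_preimage.2 ?_, hz⟩
      rw [hz]
      exact ht
  have hu'' : (fun i => κW (u' i)) = uW := funext fun i => hu' i
  have hV : ∀ z, z ∈ ball K ↔ ‖κW z‖ ≤ 1 := by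
    intro z
    rw [mem_ball, hκW z]
  obtain ⟨hG1, hM1⟩ := transp κW (ball K) hV A g u' (gsW.preimage κW hinj.injOn) (by
    rw [him, hgs, hu'']
    exact hgood)
  refine ⟨g, u', gsW.preimage κW hinj.injOn, hg, ?_, hG1, ?_⟩
  · rw [← hcard]
    conv_rhs => rw [← hgs]
    exact (Finset.card_image_of_injective _ hinj).symm
  · intro f hf
    apply hM1
    rw [him, hu'']
    exact hmono _ (Finset.mem_image_of_mem κW hf)

end Pool.Agent.Lib.MX
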