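import Mathlib

/-!
# Module QTr: algebraic closures inside a field and transcendence degrees
-/

namespace Pool.Agent.Lib.MX

section
variable {E W : Type} [Field E] [Field W] [Algebra E W]

/-- the algebraic closure of `F` in `W` -/
noncomputable def aC (F : IntermediateField E W) : IntermediateField E W :=
  (algebraicClosure F W).restrictScalars E

theorem mem_aC {F : IntermediateField E W} {z : W} : z ∈ aC F ↔ IsAlgebraic F z :=
  mem_algebraicClosure_iff

theorem le_aC (F : IntermediateField E W) : F ≤ aC F := fun z hz =>
  mem_aC.2 (isAlgebraic_algebraMap (⟨z, hz⟩ : F))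

theorem aC_closed {F : IntermediateField E W} {z : W} (hz : IsAlgebraic (aC F) z) : z ∈ aC F := by
  have h1 : IsAlgebraic (algebraicClosure F W) z := hz
  exact mem_aC.2 (h1.restrictScalars F)

theorem alg_mono {F F' : IntermediateField E W} (h : F ≤ F') {z : W} (hz : IsAlgebraic F z) :
    IsAlgebraic F' z := by
  let _ : Algebra F F' := (IntermediateField.inclusion h).toRingHom.toAlgebra
  have : IsScalarTower F F' W := .of_algebraMap_eq fun _ => rfl
  exact hz.tower_top F'

theorem aC_le {F F' : IntermediateField E W} (h : F ≤ aC F') : aC F ≤ aC F' := fun z hz =>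
  aC_closed (alg_mono h (mem_aC.1 hz))

open scoped IntermediateField.algebraAdjoinAdjoin in
theorem trdeg_eq {ι : Type} [Fintype ι] (Z : ι → W) (hZ : AlgebraicIndependent E Z)
    (C : IntermediateField E W) (hZC : ∀ i, Z i ∈ C)
    (halg : ∀ e ∈ C, IsAlgebraic (IntermediateField.adjoin E (Set.range Z)) e) :
    Algebra.trdeg E C = (Fintype.card ι : Cardinal) := by
  set Z' : ι → C := fun i => ⟨Z i, hZC i⟩ with hZ'
  have hind : AlgebraicIndependent E Z' := by
    have h1 : AlgebraicIndependent E (C.val ∘ Z') := hZ
    exact AlgebraicIndependent.of_comp C.val h1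
  have hb : IsTranscendenceBasis E Z' := by
    rw [hind.isTranscendenceBasis_iff_isAlgebraic]
    set R := Algebra.adjoin E (Set.range Z') with hR
    set S := Algebra.adjoin E (Set.range Z) with hS
    have hmap : R.map C.val = S := by
      rw [hR, AlgHom.map_adjoin, ← Set.range_comp]
      rfl
    let f : R →ₐ[E] S := (C.val.comp R.val).codRestrict S (fun x => by
      rw [← hmap]
      exact ⟨x.1, x.2, rfl⟩)
    constructor
    intro a
    have h1 : IsAlgebraic S (C.val a) := by
      have h2 := halg a.1 a.2
      exact (IsFractionRing.isAlgebraic_iff S (IntermediateField.adjoin E (Set.range Z)) W).2 h2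
    refine h1.of_ringHom_of_comp_eq f.toRingHom C.val.toRingHom ?_ ?_ ?_
    · rintro ⟨s, hs⟩
      have hs2 := hs
      rw [← hmap] at hs2
      obtain ⟨r, hr, hrs⟩ := hs2
      exact ⟨⟨r, hr⟩, Subtype.ext hrs⟩
    · exact C.val.toRingHom.injective
    · ext x
      rfl
  rw [← hb.cardinalMk_eq_trdeg]
  simp

/-- independent elements, as many as the transcendence degree -/
theorem alg_of_trdeg {ι : Type} [Fintype ι] (Z : ι → W) (hZ : AlgebraicIndependent E Z)
    (C : IntermediateField E W) (hZC : ∀ i, Z i ∈ C)
    (htr : Algebra.trdeg E C = (Fintype.card ι : Cardinal)) :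
    ∀ e ∈ C, IsAlgebraic (IntermediateField.adjoin E (Set.range Z)) e := by
  intro e he
  set Z' : ι → C := fun i => ⟨Z i, hZC i⟩ with hZ'
  have hind : AlgebraicIndependent E Z' := by
    have h1 : AlgebraicIndependent E (C.val ∘ Z') := hZ
    exact AlgebraicIndependent.of_comp C.val h1
  have hb : IsTranscendenceBasis E Z' := by
    refine hind.isTranscendenceBasis_of_trdeg_le_of_finite ?_
    rw [htr, Cardinal.mk_fintype]
  rw [hind.isTranscendenceBasis_iff_isAlgebraic] at hb
  have h2 : IsAlgebraic (Algebra.adjoin E (Set.range Z')) (⟨e, he⟩ : C) := hb.isAlgebraic _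
  have h3 : IsAlgebraic (Algebra.adjoin E (Set.range Z')) e := by
    have h4 := h2.algebraMap (A := W)
    exact h4
  obtain ⟨P, hP0, hP⟩ := h3
  let f : Algebra.adjoin E (Set.range Z') →+* IntermediateField.adjoin E (Set.range Z) :=
    (C.val.toRingHom.comp (Algebra.adjoin E (Set.range Z')).val.toRingHom).codRestrict
      (IntermediateField.adjoin E (Set.range Z)) (fun y => by
        have h3 : (Algebra.adjoin E (Set.range Z')).map C.val ≤
            (IntermediateField.adjoin E (Set.range Z)).toSubalgebra := by
          rw [AlgHom.map_adjoin, ← Set.range_comp]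
          exact IntermediateField.algebra_adjoin_le_adjoin E _
        exact h3 ⟨y.1, y.2, rfl⟩)
  have hf : Function.Injective f := by
    intro a b hab
    have h4 : ((a : C) : W) = ((b : C) : W) := congrArg
      (fun t : IntermediateField.adjoin E (Set.range Z) => (t : W)) hab
    exact Subtype.ext (Subtype.ext h4)
  refine ⟨P.map f, (Polynomial.map_ne_zero_iff hf).2 hP0, ?_⟩
  rw [Polynomial.aeval_def, Polynomial.eval₂_map]
  exact hP

end

end Pool.Agent.Lib.MX
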