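import Pool.Agent.Lib.MX.RunA
import Pool.Agent.Lib.MX.TrkX
import Pool.Agent.Lib.MX.SubS
import Pool.Agent.Lib.TDO.Comb

set_option autoImplicit false

/-!
# Module MX.RunB: there is no infinite run of the `p`-step (paper 5.3)

`Mn.mono`, `Mn.act`: definition; `Mn.act` by `gact_gact` (`σ' ∘ σ = σ + σ' + lam σ σ'`; `‖lam‖ Gn (σ + σ' + lam σ σ') < 1`; `σ ∈ HL c ≤ HL c'`, `Gn c' σ ≤ Gn c σ`: `RfS.HL_le`, `RfS.Gn_le`), `LamP.ne`.
`run_inf`.  Write `x := (c 0).x = (c s).x`, `y_s := (c s).y`, `B0 := (c 0).B`, `μ_s := ‖x^(a s)‖`; `RfS S (c i) (c j)` for `i ≤ j`; `μ_s > 1` (`Rdp`, `Lead.mem`).  `‖x^(β s)‖ = ‖y_s‖ < 1`, so `μ_(s+1) = μ_s ‖y_s‖^d` decreases; let `γ ≥ 1` be the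
infimum of the `μ_s`.
`exists_eps` (SubS.lean) for `c 0 → c 1`: `ε1 < 1` with `Gn (c s) m ≤ ε1` for `m ∈ B0`, `‖m‖ < 1`, `s ≥ 1`.  With `u := p / lam^(p-1) ∈ HO (c 0)`, `‖u + 1‖ < 1` (`LamP.hp`): `u + 1 ∈ QH (c 1)` (`RfS.lt_one`), `Gn (c s) (u + 1) ≤
Gn (c 1) (u + 1) < 1`.  Let `ε < 1` be the maximum of `ε1`, `Gn (c 1) (u + 1)` and `(‖lam‖^p μ_0)^(1/p)` (`Real.rpow`, or choose any `ε < 1` with `‖lam‖^p μ_0 ≤ ε^p` by continuity), `ε > 0`.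
Choose `s2 ≥ 1` with `ε μ_s2 < γ` (`γ / ε > γ`), so `ε μ_s < γ` for all `s ≥ s2`.
PHASE 2 (dependent choice on `s`, starting at `s = s2` with `z', P' := z s2, P s2`): pairs `(z'_s, P'_s)` for `s ≥ s2` with: `Mn p S lam d (c s) z'_s`, `Rdp p x P'_s`, `Lead x P'_s (a s) d`, `z'_s = evS τ x y_s P'_s + E_s` with
`Ng (c (s+1)) γ E_s`.  At `s = s2`: `(hs s2).err` (`E ∈ HO (c (s2+1))`: `Gn ≤ 1`).
Step `s → s + 1`, write `c' := c (s+1)`, `y' := y_(s+1)`: `run_osc` for `z'_s, P'_s` (`h := h1 s`; `Gn c' E_s < γ ≤ μ_(s+1) = ‖x^(a s) y_s^d‖` or `≤ 1`; `Mn.mono`): `α`.  `subS` (`B0 := (c 0).B`, `e0 := -τ (e s)`, `eb := -e s`, `c' := c'`,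
`M := ‖x^α‖`; all exponents `(a', j)` of `P'_s` have `‖x^(a' + jβ)‖ = ‖x^a' y_s^j‖ ≤ ‖x^α‖`): `P2`, `evS τ x y_s P'_s = evS τ x y' P2 + D`, `Gn c' D ≤ ε ‖x^α‖ ≤ ε μ_s < γ`; the exponents of `P2` have norm `≤ ‖x^α‖` (`sub_supp`).
So `z'_s = evS τ x y' P2 + (D + E_s)`, `Ng c' γ (D + E_s)` (`Ng.add`).  `trk` (TrkX.lean) at `c'` with `μ := ‖x^α‖` (`1 < μ`, `‖lam‖^p μ ≤ ‖lam‖^p μ_0 ≤ ε^p`, `ε μ < γ`, `Gn c' z'_s ≤ μ`): `σ, P'', z''`: `gact p lam σ z'_s =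
evS τ x y' P'' + z''`, `Ng c' γ z''`.  `Sm c' α (d+1) z''` (`e2 := 0`; `Gn c' z'' < γ ≤ μ_(s+1) ≤ ‖x^α‖`, or `≤ 1 < ‖x^α‖`).  `run_osc`: `α = a s + d • β s = a (s+1)`, `Lead x P'' (a (s+1)) d`, and
(H3) `P'_s.coeff (a s + d β_s, 0) ≠ 0` or `P'_s.coeff (a s + (d-1) β_s, 1) ≠ 0`.  New pair: `gact p lam σ z'_s`, `P''` (`Mn.act`: `(‖lam‖ Gn σ)^p ≤ ‖lam‖^p ‖x^α‖ < 1`; `Ng (c (s+2)) γ z''` by `RfS.Gn_le`).
(H2) if `P''.coeff (a', j') ≠ 0` then (`trk`) `P2.coeff (p^n • a', p^n * j') ≠ 0`, then (`sub_supp`) `P'_s.coeff (a'', j'') ≠ 0` with `p^n * j' ≤ j''`, `p^n • a' = a'' + j'' • β_s`.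
CONTRADICTION: `TDO.comb` with `nu := nu x`, `X s := ` support of `P'_(s2+s)`, `b s := β (s2+s)`, `a0 s := a (s2+s)`: `h1` from `Lead.max`, `h2`, `h3` (the second alternative with `2 ≤ d`) as above, `hbd` and the first
alternative of `h5` because `μ_s > 1` (`nu x (a s) < 0`; `norm_mon_lt_iff`, `nu x 0 = 0`).
-/

namespace Pool.Agent.Lib.MX

open Pool.Agent.Lib.MP_3029eb_ag Pool.Agent.Lib.MP_3029eb_ag.Abh Pool.Agent.Lib.TDO

variable {E W : Type} [Field E] [NormedField W] [IsUltrametricDist W] [Algebra E W] {r p : ℕ}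
  {S : IntermediateField E W} {c c' : Tri W r} {F : Subfield (RW W)}

private theorem RunB_lam (hr : 0 < r) (hA : AmbX p r S) (hc : Gd S c) {lam : W}
    (hl : LamP p c lam) : Gn c lam = ‖lam‖ :=
  (moH_iff_Gn hr hA hc (hl.mo.mem_HL hc) hl.ne).1 hl.mo

theorem Mn.mono {lam : W} {d : ℕ} {z : W} (h : Mn p S lam d c z) (h' : RfS S c c') :
    Mn p S lam d c' z :=
  ⟨fun c'' h2 => h.no c'' (Relation.ReflTransGen.trans h' h2),
    fun c'' h2 => h.min c'' (Relation.ReflTransGen.trans h' h2)⟩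

theorem Mn.act (hr : 0 < r) (hA : AmbX p r S) (hc : Gd S c) {lam : W} (hlam : LamP p c lam)
    {d : ℕ} {z : W} (h : Mn p S lam d c z) {s : W} (hs : s ∈ HL c) (hs1 : ‖lam‖ * Gn c s < 1) :
    Mn p S lam d c (gact p lam s z) := by
  have key : ∀ c'' : Tri W r, RfS S c c'' → ∀ σ ∈ HL c'', ‖lam‖ * Gn c'' σ < 1 →
      s + σ + lam * s * σ ∈ HL c'' ∧ ‖lam‖ * Gn c'' (s + σ + lam * s * σ) < 1 := by
    intro c'' hR σ hσ hσ1
    have hc'' := hR.gd hc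
    have hl := hlam.mono hR
    have hlH : lam ∈ HL c'' := hl.mo.mem_HL hc''
    have hlG := RunB_lam hr hA hc'' hl
    have hs' : s ∈ HL c'' := hR.HL_le hc hs
    have h0 : 0 < ‖lam‖ := norm_pos_iff.2 hl.ne
    have hs2 : ‖lam‖ * Gn c'' s < 1 :=
      (mul_le_mul_of_nonneg_left (hR.Gn_le hr hA hc hs) h0.le).trans_lt hs1
    have hls : lam * s ∈ HL c'' := mul_mem hlH hs'
    have h1 : Gn c'' (lam * s * σ) ≤ Gn c'' σ := by
      rw [Gn_mul hr hA hc'' hls hσ, Gn_mul hr hA hc'' hlH hs', hlG]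
      exact mul_le_of_le_one_left (Gn_nonneg _) hs2.le
    have h2 : Gn c'' (s + σ + lam * s * σ) ≤ max (Gn c'' s) (Gn c'' σ) :=
      (Gn_add_le hr hA hc'' (add_mem hs' hσ) (mul_mem hls hσ)).trans
        (max_le (Gn_add_le hr hA hc'' hs' hσ) (h1.trans (le_max_right _ _)))
    refine ⟨add_mem (add_mem hs' hσ) (mul_mem hls hσ), ?_⟩
    refine (mul_le_mul_of_nonneg_left h2 h0.le).trans_lt ?_
    rcases le_total (Gn c'' s) (Gn c'' σ) with h | h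
    · rwa [max_eq_right h]
    · rwa [max_eq_left h]
  constructor
  · intro c'' hR σ hσ hσ1
    rw [gact_gact hlam.ne]
    obtain ⟨h1, h2⟩ := key c'' hR σ hσ hσ1
    exact h.no c'' hR _ h1 h2
  · intro c'' hR σ hσ hσ1 a d' hn
    rw [gact_gact hlam.ne] at hn
    obtain ⟨h1, h2⟩ := key c'' hR σ hσ hσ1
    exact h.min c'' hR _ h1 h2 a d' hn

/-- The states of the run. -/
structure Rs (p : ℕ) (S : IntermediateField E W) (lam : W) (d : ℕ) (F : Subfield (RW W))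
    (τ : F → W) (c : Tri W r) (z : W) (P : LP F r) (a : Fin r → ℤ) : Prop where
  gd : Gd S c
  hF : kap c.B = F
  sec : Sec c.B F τ
  lamP : LamP p c lam
  mn : Mn p S lam d c z
  red : Rdp p c.x P
  lead : Lead c.x P a d
  lt : ‖lam‖ ^ p * ‖mon c.x a‖ < 1
  err : ∃ z0 : W, z = evS τ c.x c.y P + z0 ∧ ∀ c' : Tri W r, StR S c c' → z0 ∈ HO c'

/-- The pairs of the second phase. -/
private structure RunB_Q (p : ℕ) (S : IntermediateField E W) (lam : W) (d : ℕ) (γ : ℝ)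
    (F : Subfield (RW W)) (τ : F → W) (c c' : Tri W r) (a : Fin r → ℤ) (q : W × LP F r) :
    Prop where
  mn : Mn p S lam d c q.1
  red : Rdp p c.x q.2
  lead : Lead c.x q.2 a d
  err : ∃ z0 : W, q.1 = evS τ c.x c.y q.2 + z0 ∧ Ng c' γ z0

private theorem RunB_step (hr : 0 < r) (hA : AmbX p r S) {d : ℕ} (hd : 2 ≤ d) {τ : F → W}
    {lam : W} {c c' c'' : Tri W r} {β : Fin r → ℤ} {e : F} {B0 : Subring W} (hτ : Sec B0 F τ)
    (hB0 : ∀ z ∈ B0, z ∈ HO c') (hsec : Sec c.B F τ) (hsec' : Sec c'.B F τ)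
    (hlam : LamP p c' lam) (h1 : St1 S c c' F β (-τ e)) (h2 : StR S c' c'') {ε γ : ℝ}
    (hε1 : ε < 1) (hε0 : 0 ≤ ε) (hε : ∀ m ∈ B0, ‖m‖ < 1 → Gn c' m ≤ ε)
    (hu : Gn c' ((p : W) / lam ^ (p - 1) + 1) ≤ ε) {a : Fin r → ℤ}
    (hlt : ‖lam‖ ^ p * ‖mon c.x a‖ < 1)
    (hlμ : ‖lam‖ ^ p * ‖mon c.x a‖ ≤ ε ^ p) (hγ : ε * ‖mon c.x a‖ < γ)
    (hγ1 : γ ≤ ‖mon c.x a * c.y ^ d‖) {q : W × LP F r}
    (hq : RunB_Q p S lam d γ F τ c c' a q) :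
    ∃ q' : W × LP F r, RunB_Q p S lam d γ F τ c' c'' (a + d • β) q' ∧
      (q.2.coeff (a + d • β, 0) ≠ 0 ∨ q.2.coeff (a + (d - 1) • β, 1) ≠ 0) ∧
      ∀ a' j', q'.2.coeff (a', j') ≠ 0 → ∃ (n : ℕ) (a2 : Fin r → ℤ) (j2 : ℕ),
        q.2.coeff (a2, j2) ≠ 0 ∧ p ^ n * j' ≤ j2 ∧ p ^ n • a' = a2 + j2 • β := by
  obtain ⟨z, P⟩ := q
  obtain ⟨hmn, hred, hl, z0, hz, hz0⟩ := hq
  dsimp only at hmn hred hl hz ⊢
  have hc := h1.st.gd
  have hc' := h1.st.gd'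
  have hxe := h1.hx
  have hR : RfS S c c' := Relation.ReflTransGen.single h1.st
  have hmn' : Mn p S lam d c' z := hmn.mono hR
  have hE1 : Gn c' z0 < ‖mon c.x a * c.y ^ d‖ ∨ Gn c' z0 ≤ 1 :=
    hz0.2.imp (fun h => lt_of_lt_of_le h hγ1) id
  obtain ⟨α, hα1, hα2, hα3, hα4, hα5⟩ :=
    run_osc hr hA h1 hsec hred hl hd hlam hlt hz hz0.1 hE1 hmn'
  -- the norm of `x^β`
  have hβy : ‖mon c.x β‖ = ‖c.y‖ := by
    have h3 : ‖-τ e + c'.y‖ = 1 := by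
      have h4 : ‖c'.y‖ < ‖-τ e‖ := by rw [h1.e01]; exact hc'.y1
      rw [IsUltrametricDist.norm_add_eq_max_of_norm_ne_norm h4.ne', max_eq_left h4.le, h1.e01]
    have h5 := congrArg norm h1.hy
    rw [norm_mul, h3, mul_one] at h5
    exact h5.symm
  have hαd : ‖mon c.x a * c.y ^ d‖ ≤ ‖mon c'.x α‖ := hα3 a d hl.mem
  -- the substitution
  have heb : rs (-τ e) = ((-e : F) : RW W) := by
    rw [rs_neg (hτ.norm e), hτ.rs e]
    rfl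
  have hy : c.y = mon c'.x β * (-τ e + c'.y) := by
    rw [hxe]
    exact h1.hy
  obtain ⟨P2, hP2, hDm, hDM⟩ := subS hr hA hc' hB0 hτ hε (neg_mem (hτ.mem e)) heb hy P
  have hPn : ∀ a' j, P.coeff (a', j) ≠ 0 → ‖mon c'.x (a' + j • β)‖ ≤ ‖mon c'.x α‖ := by
    intro a' j h3
    have h4 := hα3 a' j h3
    rw [hxe, mon_add c.x hc.ind.ne, mon_nsmul, norm_mul, norm_pow, hβy, ← hxe]
    rw [norm_mul, norm_pow] at h4
    rw [hxe]
    rw [hxe] at h4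
    exact h4
  have hD : Gn c' (evS τ c'.x c.y P - evS τ c'.x c'.y P2) ≤ ε * ‖mon c'.x α‖ :=
    hDM _ (norm_nonneg _) hPn
  have hεα : ε * ‖mon c'.x α‖ < γ := (mul_le_mul_of_nonneg_left hα2 hε0).trans_lt hγ
  have hDN : Ng c' γ (evS τ c'.x c.y P - evS τ c'.x c'.y P2) :=
    ⟨hDm, Or.inl (hD.trans_lt hεα)⟩
  have hz2 : z = evS τ c'.x c'.y P2 + ((evS τ c'.x c.y P - evS τ c'.x c'.y P2) + z0) := by
    rw [hz, hxe]
    ring
  have hP2n : ∀ a' j, P2.coeff (a', j) ≠ 0 → ‖mon c'.x a'‖ ≤ ‖mon c'.x α‖ := by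
    intro a' j h3
    obtain ⟨a2, j2, h4, -, h5⟩ := sub_supp hP2 h3
    rw [h5]
    exact hPn a2 j2 h4
  have hlp : 0 ≤ ‖lam‖ ^ p := pow_nonneg (norm_nonneg _) _
  obtain ⟨σ, hσ, hσp, P', hred', hP', z', hz', hg⟩ := trk hr hA hc' hB0 hτ hε1 hε hlam hu hα1
    ((mul_le_mul_of_nonneg_left hα2 hlp).trans hlμ) hεα hP2n hz2 (hDN.add hr hA hc' hz0) hα4
  have hSm : Sm c' α (d + 1) z' := by
    refine ⟨z', hz'.1, ?_, 0, zero_mem _, by rw [mul_zero, add_zero]⟩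
    rcases hz'.2 with h3 | h3
    · exact h3.trans_le (hγ1.trans hαd)
    · exact h3.trans_lt hα1
  obtain ⟨hαe, hl', h3⟩ := hα5 σ hσ hσp τ P' z' hsec' hred' hSm hg (fun a' j h => (hP' a' j h).2.1)
  refine ⟨(gact p lam σ z, P'), ⟨?_, hred', ?_, ?_⟩, h3, ?_⟩
  · refine hmn'.act hr hA hc' hlam hσ ?_
    have h4 : (‖lam‖ * Gn c' σ) ^ p < 1 ^ p := by
      rw [mul_pow, one_pow]
      refine (mul_le_mul_of_nonneg_left hσp hlp).trans_lt ?_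
      exact (mul_le_mul_of_nonneg_left hα2 hlp).trans_lt hlt
    exact lt_of_pow_lt_pow_left₀ p zero_le_one h4
  · rw [← hαe]
    exact hl'
  · refine ⟨z', hg, ?_⟩
    have hR' : RfS S c' c'' := Relation.ReflTransGen.single h2
    have h5 := hR'.Gn_le hr hA hc' hz'.1
    exact ⟨hR'.HL_le hc' hz'.1, hz'.2.imp (fun h => h5.trans_lt h) (fun h => h5.trans h)⟩
  · intro a' j' h4
    obtain ⟨-, -, n, h5⟩ := hP' a' j' h4
    obtain ⟨a2, j2, h6, h7, h8⟩ := sub_supp hP2 h5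
    exact ⟨n, a2, j2, h6, h7, h8⟩

theorem run_inf (hr : 0 < r) (hA : AmbX p r S) {d : ℕ} (hd : 2 ≤ d) {τ : F → W} {lam : W}
    (c : ℕ → Tri W r) (z : ℕ → W) (P : ℕ → LP F r) (a β : ℕ → Fin r → ℤ) (e : ℕ → F)
    (hτ : Sec (c 0).B F τ) (hs : ∀ s, Rs p S lam d F τ (c s) (z s) (P s) (a s))
    (h1 : ∀ s, St1 S (c s) (c (s + 1)) F (β s) (-τ (e s)))
    (ha : ∀ s, a (s + 1) = a s + d • β s) : False := by
  classical
  have hp := hA.prime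
  have hx : ∀ s, (c s).x = (c 0).x := by
    intro s
    induction s with
    | zero => rfl
    | succ s ih => rw [(h1 s).hx, ih]
  have hrf : ∀ i j, i ≤ j → RfS S (c i) (c j) := by
    intro i j hij
    induction j, hij using Nat.le_induction with
    | base => exact Relation.ReflTransGen.refl
    | succ j _ ih => exact Relation.ReflTransGen.tail ih (h1 j).st
  have hind : Indep (c 0).x := (hs 0).gd.ind
  have hβy : ∀ s, ‖mon (c 0).x (β s)‖ = ‖(c s).y‖ := by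
    intro s
    have hc' := (hs (s + 1)).gd
    have h3 : ‖-τ (e s) + (c (s + 1)).y‖ = 1 := by
      have h4 : ‖(c (s + 1)).y‖ < ‖-τ (e s)‖ := by rw [(h1 s).e01]; exact hc'.y1
      rw [IsUltrametricDist.norm_add_eq_max_of_norm_ne_norm h4.ne', max_eq_left h4.le, (h1 s).e01]
    have h5 := congrArg norm (h1 s).hy
    rw [norm_mul, h3, mul_one, hx s] at h5
    exact h5.symm
  obtain ⟨μ, hμ⟩ : ∃ μ : ℕ → ℝ, μ = fun s => ‖mon (c 0).x (a s)‖ := ⟨_, rfl⟩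
  have hμs : ∀ s, ‖mon (c s).x (a s)‖ = μ s := fun s => by rw [hμ, hx s]
  have hμ1 : ∀ s, 1 < μ s := by
    intro s
    have h3 := ((hs s).red (a s) d (hs s).lead.mem).1
    rwa [hμs] at h3
  have hμy : ∀ s, ‖mon (c s).x (a s) * (c s).y ^ d‖ = μ (s + 1) := by
    intro s
    rw [hμ]
    dsimp only
    rw [ha, mon_add (c 0).x hind.ne, mon_nsmul, norm_mul, norm_mul, norm_pow, norm_pow, hβy, hx s]
  have hanti : Antitone μ := by
    refine antitone_nat_of_succ_le fun s => ?_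
    rw [← hμy s, norm_mul, norm_pow, hμs]
    exact mul_le_of_le_one_right (by linarith [hμ1 s])
      (pow_le_one₀ (norm_nonneg _) (hs s).gd.y1.le)
  have hbdd : BddBelow (Set.range μ) := ⟨1, by
    rintro _ ⟨s, rfl⟩
    exact (hμ1 s).le⟩
  obtain ⟨γ, hγ⟩ : ∃ γ : ℝ, γ = ⨅ s, μ s := ⟨_, rfl⟩
  have hγle : ∀ s, γ ≤ μ s := fun s => by
    rw [hγ]
    exact ciInf_le hbdd s
  have hγ1 : 1 ≤ γ := by
    rw [hγ]
    exact le_ciInf fun s => (hμ1 s).le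
  have hγ0 : 0 < γ := lt_of_lt_of_le one_pos hγ1
  -- the constant `ε`
  obtain ⟨ε1, hε10, hε11, hε12⟩ := exists_eps hr hA (h1 0).st
  obtain ⟨u, hu, hu1, hup⟩ := (hs 0).lamP.hp
  have hlam0 : lam ≠ 0 := (hs 0).lamP.ne
  have hueq : (p : W) / lam ^ (p - 1) + 1 = u + 1 := by
    rw [hup, mul_div_cancel_right₀ _ (pow_ne_zero _ hlam0)]
  have hu2 : u + 1 ∈ HO (c 0) := add_mem hu (one_mem _)
  have hu3 : u + 1 ∈ QH (c 1) := RfS.lt_one hr (h1 0).st Relation.ReflTransGen.refl hu2 hu1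
  have hc1 : Gd S (c 1) := (hs 1).gd
  have hu4 : Gn (c 1) (u + 1) < 1 :=
    (Gn_lt_one_iff hr hA hc1 (HO_le_HL (QH_mem_HO hc1 hu3))).2 hu3
  obtain ⟨ε3, hε3, hε31, hε32⟩ : ∃ ε3 : ℝ, 0 < ε3 ∧ ε3 < 1 ∧ ‖lam‖ ^ p * μ 0 ≤ ε3 ^ p := by
    have h3 : ‖lam‖ ^ p * μ 0 < 1 := by
      have h4 := (hs 0).lt
      rwa [hμs] at h4
    have h4 : 0 < ‖lam‖ ^ p * μ 0 :=
      mul_pos (pow_pos (norm_pos_iff.2 hlam0) _) (by linarith [hμ1 0])
    refine ⟨(‖lam‖ ^ p * μ 0) ^ ((p : ℝ)⁻¹), Real.rpow_pos_of_pos h4 _,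
      Real.rpow_lt_one h4.le h3 (inv_pos.2 (by exact_mod_cast hp.pos)), ?_⟩
    rw [Real.rpow_inv_natCast_pow h4.le hp.ne_zero]
  obtain ⟨ε, hεdef⟩ : ∃ ε : ℝ, ε = max ε1 (max (Gn (c 1) (u + 1)) ε3) := ⟨_, rfl⟩
  have hε1 : ε < 1 := by
    rw [hεdef]
    exact max_lt hε11 (max_lt hu4 hε31)
  have hε0 : 0 < ε := by
    rw [hεdef]
    exact lt_of_lt_of_le hε10 (le_max_left _ _)
  have hεp : ∀ s, ‖lam‖ ^ p * μ s ≤ ε ^ p := by
    intro s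
    have h3 : ε3 ≤ ε := by
      rw [hεdef]
      exact (le_max_right _ _).trans (le_max_right _ _)
    calc ‖lam‖ ^ p * μ s ≤ ‖lam‖ ^ p * μ 0 :=
          mul_le_mul_of_nonneg_left (hanti (Nat.zero_le s)) (pow_nonneg (norm_nonneg _) _)
      _ ≤ ε3 ^ p := hε32
      _ ≤ ε ^ p := pow_le_pow_left₀ hε3.le h3 p
  have hε : ∀ s, 1 ≤ s → ∀ m ∈ (c 0).B, ‖m‖ < 1 → Gn (c s) m ≤ ε := by
    intro s h3 m hm hm1
    refine (hε12 (c s) (hrf 1 s h3) m hm hm1).trans ?_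
    rw [hεdef]
    exact le_max_left _ _
  have hεu : ∀ s, 1 ≤ s → Gn (c s) ((p : W) / lam ^ (p - 1) + 1) ≤ ε := by
    intro s h3
    rw [hueq]
    refine ((hrf 1 s h3).Gn_le hr hA hc1 (HO_le_HL (QH_mem_HO hc1 hu3))).trans ?_
    rw [hεdef]
    exact (le_max_left _ _).trans (le_max_right _ _)
  -- the start of the second phase
  obtain ⟨s2, hs21, hs2⟩ : ∃ s2, 1 ≤ s2 ∧ ∀ s, s2 ≤ s → ε * μ s < γ := by
    have h3 : (⨅ s, μ s) < γ / ε := by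
      rw [← hγ, lt_div_iff₀ hε0]
      nlinarith
    obtain ⟨s0, h4⟩ := exists_lt_of_ciInf_lt h3
    refine ⟨s0 + 1, by omega, fun s h5 => ?_⟩
    rw [lt_div_iff₀ hε0] at h4
    have h6 : μ s ≤ μ s0 := hanti (by omega)
    nlinarith
  have hstart : RunB_Q p S lam d γ F τ (c s2) (c (s2 + 1)) (a s2) (z s2, P s2) := by
    refine ⟨(hs s2).mn, (hs s2).red, (hs s2).lead, ?_⟩
    obtain ⟨z0, hz0, hz1⟩ := (hs s2).err
    have h3 := hz1 _ (h1 s2).st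
    exact ⟨z0, hz0, HO_le_HL h3, Or.inr ((Gn_le_one_iff hr hA (hs (s2 + 1)).gd (HO_le_HL h3)).2 h3)⟩
  have hstep : ∀ t (q : W × LP F r),
      RunB_Q p S lam d γ F τ (c (s2 + t)) (c (s2 + t + 1)) (a (s2 + t)) q →
      ∃ q' : W × LP F r,
        RunB_Q p S lam d γ F τ (c (s2 + (t + 1))) (c (s2 + (t + 1) + 1)) (a (s2 + (t + 1))) q' ∧
        (q.2.coeff (a (s2 + t) + d • β (s2 + t), 0) ≠ 0 ∨
          q.2.coeff (a (s2 + t) + (d - 1) • β (s2 + t), 1) ≠ 0) ∧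
        ∀ a' j', q'.2.coeff (a', j') ≠ 0 → ∃ (n : ℕ) (a2 : Fin r → ℤ) (j2 : ℕ),
          q.2.coeff (a2, j2) ≠ 0 ∧ p ^ n * j' ≤ j2 ∧ p ^ n • a' = a2 + j2 • β (s2 + t) := by
    intro t q hq
    have hst : 1 ≤ s2 + t + 1 := by omega
    have hB0 : ∀ z ∈ (c 0).B, z ∈ HO (c (s2 + t + 1)) := fun z hz =>
      B_mem_HO (hs _).gd ((hrf 0 (s2 + t + 1) (Nat.zero_le _)).B_le hz)
    obtain ⟨q', h3, h4, h5⟩ := RunB_step hr hA hd hτ hB0 (hs (s2 + t)).sec (hs (s2 + t + 1)).sec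
      (hs (s2 + t + 1)).lamP (h1 (s2 + t)) (h1 (s2 + t + 1)).st hε1 hε0.le (hε _ hst) (hεu _ hst)
      (a := a (s2 + t)) (γ := γ) (hs (s2 + t)).lt (by rw [hμs]; exact hεp _)
      (by rw [hμs]; exact hs2 _ (by omega)) (by rw [hμy]; exact hγle _) hq
    refine ⟨q', ?_, h4, h5⟩
    rw [← ha] at h3
    exact h3
  choose! nx hnx using hstep
  obtain ⟨st, hst0, hsucc⟩ : ∃ st : ℕ → W × LP F r, st 0 = (z s2, P s2) ∧
      ∀ t, st (t + 1) = nx t (st t) :=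
    ⟨fun t => Nat.rec (z s2, P s2) (fun t q => nx t q) t, rfl, fun t => rfl⟩
  have hQ : ∀ t, RunB_Q p S lam d γ F τ (c (s2 + t)) (c (s2 + t + 1)) (a (s2 + t)) (st t) := by
    intro t
    induction t with
    | zero => rw [hst0]; exact hstart
    | succ t ih => rw [hsucc]; exact (hnx t _ ih).1
  have hneg : ∀ s, nu (c 0).x (a s) < 0 := by
    intro s
    have h3 := hμ1 s
    rw [hμ] at h3
    dsimp only at h3
    rw [← norm_one (α := W), ← mon_zero (c 0).x, norm_mon_lt_iff hind, map_zero] at h3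
    exact h3
  refine comb (nu (c 0).x) (nu_injective hind) p d hp.two_le (by omega)
    (fun t => (st t).2.coeff.support) (fun t => β (s2 + t)) (fun t => a (s2 + t)) ?_ ?_ ?_ ?_ ?_
    ⟨0, fun t => (hneg _).le⟩ (Or.inl fun t => hneg _)
  · intro t
    have h3 : ‖mon (c 0).x (β (s2 + t))‖ < 1 := by
      rw [hβy]
      exact (hs _).gd.y1
    rw [← norm_one (α := W), ← mon_zero (c 0).x, norm_mon_lt_iff hind, map_zero] at h3
    exact h3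
  · intro t
    exact ha (s2 + t)
  · intro t m hm
    have h3 := (hQ t).lead.max m.1 m.2 (Finsupp.mem_support_iff.1 hm)
    rwa [hx, norm_mon_le_iff hind] at h3
  · intro t m' hm'
    have h3 := (hnx t _ (hQ t)).2.2 m'.1 m'.2 (by
      rw [← hsucc]
      exact Finsupp.mem_support_iff.1 hm')
    obtain ⟨n, a2, j2, h4, h5, h6⟩ := h3
    exact ⟨n, (a2, j2), Finsupp.mem_support_iff.2 h4, h5, h6⟩
  · intro t
    rcases (hnx t _ (hQ t)).2.1 with h3 | h3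
    · exact Or.inl (Finsupp.mem_support_iff.2 h3)
    · exact Or.inr ⟨hd, Finsupp.mem_support_iff.2 h3⟩

end Pool.Agent.Lib.MX
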