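import Pool.Agent.Lib.MX.RunB

set_option autoImplicit false

/-!
# Module MX.RunC: the core of the `p`-step (paper 5.3)

`gact_lt`: `lam^p gact z = lam^p z (1 + lam s)^p + ((1 + lam s)^p - 1)`; `Gn c (lam s) = ‖lam‖ Gn c s < 1` (`Gn_moH`), so `lam s ∈ QH c` (`Gn_lt_one_iff`), `1 + lam s ∈ HO c`, `(1 + lam s)^p - 1 ∈ QH c` (it is `lam s` times an
element of `HO c`), `lam^p z ∈ QH c`: so `lam^p gact z ∈ QH c`; `Gn c (lam^p z') = ‖lam‖^p Gn c z'` (`Gn_mul`, `Gn_moH`).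
`p_core`.  Suppose not.  CALL a pair `(c1, z1)` with `RfS S c c1` and `z1 = gact p lam s1 z`, `s1 ∈ HL c1`, `‖lam‖ Gn c1 s1 < 1` a member of the class.  COMPOSITION: if `RfS S c1 c2`, `s2 ∈ HL c2`, `‖lam‖ Gn c2 s2 < 1` then
`(c2, gact p lam s2 z1)` is a member of the class (`gact_gact`; `RfS.HL_le`, `RfS.Gn_le`; `‖lam‖ Gn (s1 + s2 + lam s1 s2) < 1`).  By assumption no member has `z1 ∈ HO c1`, and none has `NLd p c1 z1 a d` with `d ≤ 1`.
(1) Some member has `NLd p c1 z1 a d` for some `a`, `d`.  Suppose not.  `F := kap c.B`, `τ` a section.  `z ∉ HO c` (member with `s1 = 0`: `gact_zero`), so `1 < Gn c z = ‖x^a0‖` (`exists_Ld`, `Gn_eq`, `Gn_le_one_iff`).  `exists_nf` at `c`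
with `a0` and `J` with `‖x^a0‖ ‖c.y‖^J ≤ 1`: `s, P, z'`; `z1 := gact p lam s z` (`(‖lam‖ Gn s)^p ≤ ‖lam‖^p ‖x^a0‖ < 1`: member).  `er_ho`: `z' ∈ HO c'` for all stages `c → c'`.  If `P = 0`: take any stage (`exists_st` with
`X := ∅`): `z1 = z' ∈ HO c'` (`evS_zero`), contradiction.  `P ≠ 0`: `Lead c.x P a d0` (`exists_leadS`), `‖x^a‖ ≤ ‖x^a0‖`; `stage_gen` with `d := max d0 2`: first alternative: contradiction; second: `NLd`; third: `Lead c'.x P' ..`,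
`Er c' ..`: `er_sm` (`1 < ‖mon c'.x (a + d • β)‖` by `Rdp`) and `nld_of` give `NLd`.
(2) Let `d` be the least number such that a member has `NLd p c1 z1 a d`; `2 ≤ d`.  Let `(c0, z0)`, `a0` be such a member.  `Mn p S lam d c0 z0` (COMPOSITION).  `F := kap c0.B`, `τ` a section.  `1 < ‖x^a0‖ = Gn c0 z0` (`NLd.ld`, `Gn_eq`),
`‖lam‖^p ‖x^a0‖ < 1` (`gact_lt`).  `exists_nf` at `c0` with `J ≥ d + 1`, `‖x^a0‖ ‖c0.y‖^J ≤ 1`: `s, P, z'`; `Sm c0 a0 i z'` for `i ≤ d + 1` (`er_sm`); `nf_start`: `P.coeff (a0, i) ≠ 0` for some `i ≤ d`; `lead_min`: `Lead c0.x P a0 d'`,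
`d' ≤ i ≤ d`; `nld_of`: `NLd p c0 (gact p lam s z0) a0 d'`, so `d ≤ d'`, `d' = d`.  So `Rs p S lam d F τ c0 (gact p lam s z0) P a0` (`Mn.act`, `er_ho`).
(3) STEP: if `Rs p S lam d F τ c1 z1 P1 a1` then there are `c2, z2, P2, β, ε` with `St1 S c1 c2 F β (-τ ε)` and `Rs p S lam d F τ c2 z2 P2 (a1 + d • β)`: `stage_gen` with `d0 := d`; the first alternative contradicts `mn.no` (`σ = 0`),
the second `mn.min`; the third gives `s, P', z', J`: `z2 := gact p lam s z1`; `Mn.mono`, `Mn.act`, `er_ho`, `Sec.mono`, `LamP.mono`, `‖lam‖^p ‖mon c2.x (a1 + dβ)‖ ≤ ‖lam‖^p ‖mon c1.x a1‖ < 1`.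
(4) Dependent choice (subtype of quadruples `(c, z, P, a)` with `Rs`) gives sequences, `run_inf`: contradiction (`Sec (c 0).B F τ` is `(hs 0).sec`).
-/

namespace Pool.Agent.Lib.MX

open Pool.Agent.Lib.MP_3029eb_ag Pool.Agent.Lib.MP_3029eb_ag.Abh Pool.Agent.Lib.TDO

variable {E W : Type} [Field E] [NormedField W] [IsUltrametricDist W] [Algebra E W] {r p : ℕ}
  {S : IntermediateField E W} {c c' : Tri W r}

private theorem runc_lt {a b μ : ℝ} (ha : 0 ≤ a) (hb : b ^ p ≤ μ)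
    (h : a ^ p * μ < 1) : a * b < 1 := by
  by_contra hcon
  have h1 := one_le_pow₀ (n := p) (not_lt.1 hcon)
  rw [mul_pow] at h1
  have h2 : a ^ p * b ^ p ≤ a ^ p * μ := mul_le_mul_of_nonneg_left hb (pow_nonneg ha _)
  linarith

theorem gact_lt (hr : 0 < r) (hA : AmbX p r S) (hc : Gd S c) {lam : W} (hlam : LamP p c lam)
    {s z : W} (hs : s ∈ HL c) (hs1 : ‖lam‖ * Gn c s < 1) (hz : z ∈ HL c)
    (hz1 : ‖lam‖ ^ p * Gn c z < 1) : ‖lam‖ ^ p * Gn c (gact p lam s z) < 1 := by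
  have hlHL : lam ∈ HL c := hlam.mo.mem_HL hc
  have hGl : Gn c lam = ‖lam‖ := Gn_moH hr hA hc hlam.mo
  have hlp : lam ^ p ∈ HL c := pow_mem hlHL p
  have hGlp : Gn c (lam ^ p) = ‖lam‖ ^ p := by rw [Gn_pow hr hA hc hlHL, hGl]
  have h1 : lam * s ∈ QH c := by
    rw [← Gn_lt_one_iff hr hA hc (mul_mem hlHL hs), Gn_mul hr hA hc hlHL hs, hGl]
    exact hs1
  have h2 : lam ^ p * z ∈ QH c := by
    rw [← Gn_lt_one_iff hr hA hc (mul_mem hlp hz), Gn_mul hr hA hc hlp hz, hGlp]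
    exact hz1
  have h3 : 1 + lam * s ∈ HO c := add_mem (one_mem _) (QH_mem_HO hc h1)
  have h4 : (1 + lam * s) ^ p - 1 ∈ QH c := by
    have e : (1 + lam * s) ^ p - 1 = lam * s * ∑ i ∈ Finset.range p, (1 + lam * s) ^ i := by
      rw [← geom_sum_mul (1 + lam * s) p, add_sub_cancel_left]
      ring
    rw [e]
    exact QH_mul hc h1 (sum_mem fun i _ => pow_mem h3 i)
  have hg : gact p lam s z ∈ HL c := (gact_HL hA hc hlam hs hz).2
  have h5 : lam ^ p * gact p lam s z ∈ QH c := by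
    have h6 := gact_spec (p := p) hlam.ne s z
    have e : lam ^ p * gact p lam s z =
        lam ^ p * z * (1 + lam * s) ^ p + ((1 + lam * s) ^ p - 1) := by
      linear_combination h6
    rw [e]
    exact QH_add hc (QH_mul hc h2 (pow_mem h3 p)) h4
  rw [← Gn_lt_one_iff hr hA hc (mul_mem hlp hg), Gn_mul hr hA hc hlp hg, hGlp] at h5
  exact h5

/-- composition of two corrections -/
private theorem runc_comp (hr : 0 < r) (hA : AmbX p r S) (hc : Gd S c) {lam : W}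
    (hlam : LamP p c lam) (h : RfS S c c') {s s' : W} (hs : s ∈ HL c) (hs1 : ‖lam‖ * Gn c s < 1)
    (hs' : s' ∈ HL c') (hs1' : ‖lam‖ * Gn c' s' < 1) (z : W) :
    s + s' + lam * s * s' ∈ HL c' ∧ ‖lam‖ * Gn c' (s + s' + lam * s * s') < 1 ∧
      gact p lam s' (gact p lam s z) = gact p lam (s + s' + lam * s * s') z := by
  have hc' := h.gd hc
  have hlam' := hlam.mono h
  have hlHL : lam ∈ HL c' := hlam'.mo.mem_HL hc'
  have hGl : Gn c' lam = ‖lam‖ := Gn_moH hr hA hc' hlam'.mo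
  have hsc := h.HL_le hc hs
  have hs2 : ‖lam‖ * Gn c' s < 1 :=
    (mul_le_mul_of_nonneg_left (h.Gn_le hr hA hc hs) (norm_nonneg _)).trans_lt hs1
  refine ⟨add_mem (add_mem hsc hs') (mul_mem (mul_mem hlHL hsc) hs'), ?_,
    gact_gact hlam.ne s s' z⟩
  have h0 : 0 ≤ ‖lam‖ := norm_nonneg _
  have h1 : Gn c' (s + s' + lam * s * s') ≤
      max (max (Gn c' s) (Gn c' s')) (Gn c' (lam * s * s')) :=
    (Gn_add_le hr hA hc' (add_mem hsc hs') (mul_mem (mul_mem hlHL hsc) hs')).trans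
      (max_le_max (Gn_add_le hr hA hc' hsc hs') le_rfl)
  have h2 : Gn c' (lam * s * s') = ‖lam‖ * Gn c' s * Gn c' s' := by
    rw [Gn_mul hr hA hc' (mul_mem hlHL hsc) hs', Gn_mul hr hA hc' hlHL hsc, hGl]
  refine (mul_le_mul_of_nonneg_left h1 h0).trans_lt ?_
  rw [h2, mul_max_of_nonneg _ _ h0, mul_max_of_nonneg _ _ h0]
  refine max_lt (max_lt hs2 hs1') ?_
  have e : ‖lam‖ * (‖lam‖ * Gn c' s * Gn c' s') = (‖lam‖ * Gn c' s) * (‖lam‖ * Gn c' s') := by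
    ring
  rw [e]
  exact mul_lt_one_of_nonneg_of_lt_one_left (mul_nonneg h0 (Gn_nonneg _)) hs2 hs1'.le

private theorem runc_J (hc : Gd S c) {a : Fin r → ℤ} (J0 : ℕ) :
    ∃ J, J0 ≤ J ∧ ‖mon c.x a‖ * ‖c.y‖ ^ J ≤ 1 := by
  have hm : 0 < ‖mon c.x a‖ := norm_pos_iff.2 (mon_ne c.x hc.ind.ne a)
  obtain ⟨J, hJ⟩ := exists_pow_lt_of_lt_one (inv_pos.2 hm) hc.y1
  refine ⟨max J0 J, le_max_left _ _, ?_⟩
  have h1 : ‖c.y‖ ^ max J0 J ≤ ‖c.y‖ ^ J :=
    pow_le_pow_of_le_one (norm_nonneg _) hc.y1.le (le_max_right _ _)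
  calc ‖mon c.x a‖ * ‖c.y‖ ^ max J0 J ≤ ‖mon c.x a‖ * ‖mon c.x a‖⁻¹ :=
        mul_le_mul_of_nonneg_left (h1.trans hJ.le) hm.le
    _ = 1 := mul_inv_cancel₀ hm.ne'

/-- one step of the run -/
private theorem runc_step (hr : 0 < r) (hA : AmbX p r S) {lam : W} {d : ℕ} (hd : 2 ≤ d)
    {F : Subfield (RW W)} {τ : F → W} {c1 : Tri W r} {z1 : W} {P1 : LP F r} {a1 : Fin r → ℤ}
    (h : Rs p S lam d F τ c1 z1 P1 a1) :
    ∃ (c2 : Tri W r) (z2 : W) (P2 : LP F r) (β : Fin r → ℤ) (ε : F),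
      Rs p S lam d F τ c2 z2 P2 (a1 + d • β) ∧ St1 S c1 c2 F β (-τ ε) := by
  obtain ⟨z0, hz0, hE⟩ := h.err
  obtain ⟨c', hst, halt⟩ := stage_gen hr hA h.gd h.hF h.sec h.lamP h.red h.lead le_rfl hd h.lt
    hz0 hE
  have hR : RfS S c1 c' := Relation.ReflTransGen.single hst
  have hc' := hst.gd'
  rcases halt with halt | ⟨s, hs, hs1, α, d', hd', hN⟩ | ⟨β, ε, -, hSt1, s, hs, hs1, P', hred',
    hl', hle, z', J, hga, hEr, hJ, hJn⟩
  · exfalso
    refine h.mn.no c' hR 0 (zero_mem _) ?_ ?_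
    · rw [Gn_zero hr hA hc', mul_zero]
      exact one_pos
    · rw [gact_zero]
      exact halt
  · exfalso
    have := h.mn.min c' hR s hs hs1 α d' hN
    omega
  · refine ⟨c', gact p lam s z1, P', β, ε, ?_, hSt1⟩
    have hlam' := h.lamP.mono hR
    exact
      { gd := hc'
        hF := hSt1.hF'
        sec := h.sec.mono hst.B_le
        lamP := hlam'
        mn := (h.mn.mono hR).act hr hA hc' hlam' hs hs1
        red := hred'
        lead := hl'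
        lt := (mul_le_mul_of_nonneg_left hle (pow_nonneg (norm_nonneg _) _)).trans_lt h.lt
        err := ⟨z', hga, fun c'' h'' => er_ho hr h'' hEr hJn⟩ }

/-- there is no state of the run -/
private theorem runc_no (hr : 0 < r) (hA : AmbX p r S) {lam : W} {d : ℕ} (hd : 2 ≤ d)
    {F : Subfield (RW W)} {τ : F → W} {c1 : Tri W r} {z1 : W} {P1 : LP F r} {a1 : Fin r → ℤ}
    (h : Rs p S lam d F τ c1 z1 P1 a1) : False := by
  let Q : Type := {q : Tri W r × W × LP F r × (Fin r → ℤ) //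
    Rs p S lam d F τ q.1 q.2.1 q.2.2.1 q.2.2.2}
  have hstep : ∀ q : Q, ∃ (q' : Q) (β : Fin r → ℤ) (ε : F),
      St1 S q.1.1 q'.1.1 F β (-τ ε) ∧ q'.1.2.2.2 = q.1.2.2.2 + d • β := by
    intro q
    obtain ⟨c2, z2, P2, β, ε, h1, h2⟩ := runc_step hr hA hd q.2
    exact ⟨⟨(c2, z2, P2, q.1.2.2.2 + d • β), h1⟩, β, ε, h2, rfl⟩
  choose nx β ε h1 h2 using hstep
  let q0 : Q := ⟨(c1, z1, P1, a1), h⟩
  let sq : ℕ → Q := fun n => nx^[n] q0
  have hsq : ∀ n, sq (n + 1) = nx (sq n) := fun n => Function.iterate_succ_apply' nx n q0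
  refine run_inf hr hA hd (τ := τ) (lam := lam) (F := F) (fun n => (sq n).1.1)
    (fun n => (sq n).1.2.1) (fun n => (sq n).1.2.2.1) (fun n => (sq n).1.2.2.2)
    (fun n => β (sq n)) (fun n => ε (sq n)) (sq 0).2.sec (fun n => (sq n).2) ?_ ?_
  · intro n
    have h3 := h1 (sq n)
    rw [← hsq] at h3
    exact h3
  · intro n
    have h3 := h2 (sq n)
    rw [← hsq] at h3
    exact h3

theorem p_core (hr : 0 < r) (hA : AmbX p r S) (hc : Gd S c) {lam : W} (hlam : LamP p c lam)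
    {z : W} (hz : z ∈ HL c) (hz1 : ‖lam‖ ^ p * Gn c z < 1) :
    ∃ c' : Tri W r, RfS S c c' ∧ ∃ s ∈ HL c', ‖lam‖ * Gn c' s < 1 ∧
      (gact p lam s z ∈ HO c' ∨
        ∃ (a : Fin r → ℤ) (d : ℕ), d ≤ 1 ∧ NLd p c' (gact p lam s z) a d) := by
  classical
  have hp := hA.prime
  by_contra hcon
  push Not at hcon
  -- (1)
  have hmem : ∃ (d : ℕ) (c1 : Tri W r) (s1 : W) (a : Fin r → ℤ), RfS S c c1 ∧ s1 ∈ HL c1 ∧
      ‖lam‖ * Gn c1 s1 < 1 ∧ NLd p c1 (gact p lam s1 z) a d := by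
    by_contra hno
    push Not at hno
    obtain ⟨τ, hτ⟩ := hc.exists_sec (F := kap c.B) rfl
    have hzno : z ∉ HO c := by
      intro hzO
      refine (hcon c Relation.ReflTransGen.refl 0 (zero_mem _) ?_).1 ?_
      · rw [Gn_zero hr hA hc, mul_zero]
        exact one_pos
      · rw [gact_zero]
        exact hzO
    have hz0 : z ≠ 0 := by
      rintro rfl
      exact hzno (zero_mem _)
    obtain ⟨a0, d00, hld⟩ := exists_Ld hr hA hc hz hz0
    have hGz := Gn_eq hr hA hc hld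
    have h1 : 1 < ‖mon c.x a0‖ := by
      by_contra hle
      refine hzno ((Gn_le_one_iff hr hA hc hz).1 ?_)
      rw [hGz]
      exact not_lt.1 hle
    have h2 : ‖lam‖ ^ p * ‖mon c.x a0‖ < 1 := by rw [← hGz]; exact hz1
    obtain ⟨J, -, hJ⟩ := runc_J hc (a := a0) 0
    obtain ⟨s, hs, hGs, P, hred, hP, z', hEr, hga⟩ := exists_nf hr hA hc rfl hτ hlam hz hGz.le
      h1.le h2 J
    have hs1 : ‖lam‖ * Gn c s < 1 := runc_lt (norm_nonneg _) hGs h2
    have hz' : ∀ c' : Tri W r, StR S c c' → z' ∈ HO c' := fun c' h => er_ho hr h hEr hJ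
    have hnot : ∀ c' : Tri W r, StR S c c' → gact p lam s z ∉ HO c' := by
      intro c' h
      have hR : RfS S c c' := Relation.ReflTransGen.single h
      refine (hcon c' hR s (hR.HL_le hc hs) ?_).1
      exact (mul_le_mul_of_nonneg_left (hR.Gn_le hr hA hc hs) (norm_nonneg _)).trans_lt hs1
    by_cases hP0 : P = 0
    · obtain ⟨c', e, β, w, g, G, T, hSt, -⟩ := exists_st hr hA hc rfl hτ ∅
        (fun n hn => absurd hn (Finset.notMem_empty n))
      refine hnot c' hSt.stR ?_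
      rw [hga, hP0, evS_zero, zero_add]
      exact hz' c' hSt.stR
    · obtain ⟨a, d0, hl⟩ := exists_leadS c.x P hP0
      have hm : ‖lam‖ ^ p * ‖mon c.x a‖ < 1 :=
        (mul_le_mul_of_nonneg_left (hP a d0 hl.mem).1 (pow_nonneg (norm_nonneg _) _)).trans_lt h2
      obtain ⟨c', hst, halt⟩ := stage_gen hr hA hc rfl hτ hlam hred hl (le_max_left d0 2)
        (le_max_right d0 2) hm hga hz'
      have hR : RfS S c c' := Relation.ReflTransGen.single hst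
      have hc' := hst.gd'
      rcases halt with halt | ⟨s2, hs2, hs21, α, d', -, hN⟩ | ⟨β, ε, -, hSt1, s2, hs2, hs21, P',
        hred', hl', hle, z'', J', hga', hEr', hJ', hJn'⟩
      · exact hnot c' hst halt
      · obtain ⟨h3, h4, h5⟩ := runc_comp hr hA hc hlam hR hs hs1 hs2 hs21 z
        rw [h5] at hN
        exact hno d' c' _ α hR h3 h4 hN
      · have hα1 := (hred' _ _ hl'.mem).1
        have hSm := er_sm hr hA hc' hEr' hα1 le_rfl hJ'
        have hN := nld_of hr hA hc' hSt1.hF' (hτ.mono hst.B_le) hl' hred' hga' hSm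
        obtain ⟨h3, h4, h5⟩ := runc_comp hr hA hc hlam hR hs hs1 hs2 hs21 z
        rw [h5] at hN
        exact hno _ c' _ _ hR h3 h4 hN
  -- (2)
  obtain ⟨c0, s1, a0, hR0, hs1, hs11, hN⟩ := Nat.find_spec hmem
  have hmin : ∀ (d' : ℕ) (c1 : Tri W r) (s1 : W) (a : Fin r → ℤ), RfS S c c1 → s1 ∈ HL c1 →
      ‖lam‖ * Gn c1 s1 < 1 → NLd p c1 (gact p lam s1 z) a d' → Nat.find hmem ≤ d' :=
    fun d' c1 s1 a h1 h2 h3 h4 => Nat.find_min' hmem ⟨c1, s1, a, h1, h2, h3, h4⟩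
  generalize hdd : Nat.find hmem = d at hN hmin
  have hd : 2 ≤ d := by
    by_contra hlt
    exact (hcon c0 hR0 s1 hs1 hs11).2 a0 d (by omega) hN
  have hc0 := hR0.gd hc
  have hlam0 := hlam.mono hR0
  have hMn : Mn p S lam d c0 (gact p lam s1 z) := by
    refine ⟨fun c' h σ hσ hσ1 => ?_, fun c' h σ hσ hσ1 a d' hN' => ?_⟩
    · obtain ⟨h3, h4, h5⟩ := runc_comp hr hA hc0 hlam0 h hs1 hs11 hσ hσ1 z
      rw [h5]
      exact (hcon c' (Relation.ReflTransGen.trans hR0 h) _ h3 h4).1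
    · obtain ⟨h3, h4, h5⟩ := runc_comp hr hA hc0 hlam0 h hs1 hs11 hσ hσ1 z
      rw [h5] at hN'
      exact hmin d' c' _ a (Relation.ReflTransGen.trans hR0 h) h3 h4 hN'
  obtain ⟨τ, hτ⟩ := hc0.exists_sec (F := kap c0.B) rfl
  have hz0HL : gact p lam s1 z ∈ HL c0 := hN.ld.mem_HL hc0
  have hGz0 : Gn c0 (gact p lam s1 z) = ‖mon c0.x a0‖ := Gn_eq hr hA hc0 hN.ld
  have h1 : 1 < ‖mon c0.x a0‖ := hN.1
  have h2 : ‖lam‖ ^ p * ‖mon c0.x a0‖ < 1 := by
    rw [← hGz0]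
    exact gact_lt hr hA hc0 hlam0 hs1 hs11 (hR0.HL_le hc hz)
      ((mul_le_mul_of_nonneg_left (hR0.Gn_le hr hA hc hz)
        (pow_nonneg (norm_nonneg _) _)).trans_lt hz1)
  obtain ⟨J, hJd, hJ⟩ := runc_J hc0 (a := a0) (d + 1)
  obtain ⟨s, hs, hGs, P, hred, hP, z', hEr, hga⟩ := exists_nf hr hA hc0 rfl hτ hlam0 hz0HL
    hGz0.le h1.le h2 J
  have hs0 : ‖lam‖ * Gn c0 s < 1 := runc_lt (norm_nonneg _) hGs h2
  obtain ⟨i, hid, hi⟩ := nf_start hr hA hc0 rfl hτ hlam0 hN h2 hs hGs hga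
    (er_sm hr hA hc0 hEr h1 le_rfl hJd) (fun a' j h => (hP a' j h).1)
  obtain ⟨d', hd'i, hl⟩ := lead_min hi (fun a' j h => (hP a' j h).1)
  have hN2 : NLd p c0 (gact p lam s (gact p lam s1 z)) a0 d' :=
    nld_of hr hA hc0 rfl hτ hl hred hga (er_sm hr hA hc0 hEr h1 le_rfl (by omega))
  have hdd' := hMn.min c0 Relation.ReflTransGen.refl s hs hs0 a0 d' hN2
  have hde : d' = d := by omega
  subst hde
  exact runc_no hr hA hd (c1 := c0) (z1 := gact p lam s (gact p lam s1 z)) (P1 := P) (a1 := a0)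
    { gd := hc0
      hF := rfl
      sec := hτ
      lamP := hlam0
      mn := hMn.act hr hA hc0 hlam0 hs hs0
      red := hred
      lead := hl
      lt := h2
      err := ⟨z', hga, fun c'' h'' => er_ho hr h'' hEr hJ⟩ }

end Pool.Agent.Lib.MX
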