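import Pool.Agent.Lib.MX.StLd

/-!
# Module StLdH: the lead form of an element of `HL` after a stage (paper 3.2, 3.3)
-/

namespace Pool.Agent.Lib.MX

open Pool.Agent.Lib.MP_3029eb_ag Pool.Agent.Lib.MP_3029eb_ag.Abh Pool.Agent.Lib.TDO
open Pool.Agent.Lib.TU (Mt exists_Mt)
open Polynomial

variable {E W : Type} [Field E] [NormedField W] [IsUltrametricDist W] [Algebra E W] {r p : ℕ}
  {S : IntermediateField E W} {c c' : Tri W r} {F : Subfield (RW W)}

theorem Sec.mono {B B' : Subring W} {τ : F → W} (h : Sec B F τ) (hB : B ≤ B') : Sec B' F τ :=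
  ⟨fun c => hB (h.mem c), h.norm, h.rs, h.zero⟩

/-- Shifting the exponents. -/
theorem exists_shiftS {τ : F → W} (h0 : τ 0 = 0) (x : Fin r → W) (y : W) (hx : ∀ i, x i ≠ 0)
    (P : LP F r) (b : Fin r → ℤ) :
    ∃ P' : LP F r, evS τ x y P' = mon x b * evS τ x y P ∧
      ∀ a j, P'.coeff (a, j) = P.coeff (a - b, j) := by
  classical
  obtain ⟨P', h1, h2, h3⟩ := exists_LP h0 x y P.coeff.support (fun m => (m.1 + b, m.2))
    (fun m _ m' _ h => by
      rw [Prod.mk.injEq] at h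
      exact Prod.ext (add_right_cancel h.1) h.2) (fun m => P.coeff m)
  refine ⟨P', ?_, fun a j => ?_⟩
  · rw [h3]
    unfold evS Finsupp.sum
    rw [Finset.mul_sum]
    refine Finset.sum_congr rfl fun m _ => ?_
    rw [mon_add x hx]
    ring
  · by_cases h : P.coeff (a - b, j) = 0
    · rw [h]
      by_contra hne
      obtain ⟨m, hm, hme, hm0⟩ := h2 _ hne
      rw [Prod.mk.injEq] at hme
      have h4 : m = (a - b, j) := Prod.ext (by rw [← hme.1, add_sub_cancel_right]) hme.2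
      rw [h4] at hm0
      exact hm0 h
    · have h4 := h1 (a - b, j) (Finsupp.mem_support_iff.2 h)
      simp only [sub_add_cancel] at h4
      exact h4

/-- approximation of an element with a lead form -/
theorem approx_lead (hr : 0 < r) (hA : AmbX p r S) (hok : Gd S c)
    (hF : kap c.B = F) {τ : F → W} (hτ : Sec c.B F τ) {d : ℕ} {v q : W} (hv : v ∈ HO c)
    (hv1 : ‖v‖ = 1) (hq : q ∈ QH c) :
    ∃ (P : LP F r) (N : Fin r → ℤ), ∃ h1 ∈ HO c, ∃ h2 ∈ HO c,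
      c.y ^ d * v + q = evS τ c.x c.y P + mon c.x N * h1 + c.y ^ (d + 1) * h2 ∧
      ‖mon c.x N‖ < ‖c.y‖ ^ d ∧ Lead c.x P 0 d := by
  have hy0 : c.y ≠ 0 := hok.y_ne hA
  have hyp : 0 < ‖c.y‖ := norm_pos_iff.2 hy0
  have hy1 : ‖c.y‖ < 1 := hok.y1
  obtain ⟨N, -, hN⟩ := exists_mon_lt hr hok.ind (‖c.y‖ ^ d) (by positivity)
  have hz : c.y ^ d * v + q ∈ HO c :=
    add_mem (mul_mem (pow_mem (y_mem_HO hok) _) hv) (QH_mem_HO hok hq)
  obtain ⟨P, -, h1, hh1, h2, hh2, hP⟩ := HO_approxS hr hok hF hτ hz N (d + 1)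
  refine ⟨P, N, h1, hh1, h2, hh2, hP, hN, ?_⟩
  have hN1 : ‖mon c.x N‖ < 1 := hN.trans_le (pow_le_one₀ (norm_nonneg _) hy1.le)
  have hyh : ‖c.y * h2‖ < 1 := by
    rw [norm_mul]
    exact (mul_le_of_le_one_right (norm_nonneg _) (HO_norm_le hok hh2)).trans_lt hy1
  have hyhm : c.y * h2 ∈ HO c := mul_mem (y_mem_HO hok) hh2
  refine Ld.leadS hr hA hok hτ ⟨v - c.y * h2, sub_mem hv hyhm, ?_, q + -(mon c.x N * h1), ?_, ?_⟩
  · rw [sub_eq_add_neg, IsUltrametricDist.norm_add_eq_max_of_norm_ne_norm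
      (by rw [hv1, norm_neg]; exact hyh.ne'), norm_neg, hv1, max_eq_left hyh.le]
  · exact QH_add hok hq (QH_neg hok (mon_mul_mem_QH hok hN1 hh1))
  · rw [mon_zero, one_mul]
    have h3 : evS τ c.x c.y P = c.y ^ d * v + q - mon c.x N * h1 - c.y ^ (d + 1) * h2 := by
      rw [hP]; ring
    rw [h3]
    ring

/-- all monomials become large after multiplication by `mon x b` -/
theorem exists_large {W : Type} [NormedField W] {r : ℕ}
    (hr : 0 < r) {x : Fin r → W} {y : W} (hx : Indep x) (hy : y ≠ 0)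
    (s : Finset ((Fin r → ℤ) × ℕ)) :
    ∃ b : Fin r → ℤ, ∀ n ∈ s, 1 ≤ ‖mon x b‖ * ‖mon x n.1 * y ^ n.2‖ := by
  have hpos : ∀ n : (Fin r → ℤ) × ℕ, 0 < ‖mon x n.1 * y ^ n.2‖ := fun n =>
    norm_pos_iff.2 (mul_ne_zero (mon_ne x hx.ne _) (pow_ne_zero _ hy))
  obtain ⟨C, hC, hCs⟩ : ∃ C : ℝ, 0 < C ∧ ∀ n ∈ s, C ≤ ‖mon x n.1 * y ^ n.2‖ := by
    rcases s.eq_empty_or_nonempty with he | he
    · exact ⟨1, one_pos, fun n hn => by rw [he] at hn; exact absurd hn (Finset.notMem_empty _)⟩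
    · obtain ⟨n₀, hn₀, hmin⟩ := s.exists_min_image (fun n => ‖mon x n.1 * y ^ n.2‖) he
      exact ⟨_, hpos n₀, hmin⟩
  obtain ⟨N, -, hN⟩ := exists_mon_lt hr hx C hC
  refine ⟨-N, fun n hn => ?_⟩
  have hNp : 0 < ‖mon x N‖ := norm_pos_iff.2 (mon_ne x hx.ne N)
  rw [mon_neg, norm_inv, ← div_eq_inv_mul, one_le_div hNp]
  exact hN.le.trans (hCs n hn)

/-- `Gn` of monomials of an earlier triple. -/
theorem Gn_moH (hr : 0 < r) (hA : AmbX p r S) (hc' : Gd S c') {z : W} (h : MoH c' z) :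
    Gn c' z = ‖z‖ :=
  (moH_iff_Gn hr hA hc' (h.mem_HL hc') (h.ne hc')).1 h

theorem Gn_le_one (hr : 0 < r) (hA : AmbX p r S) (hc' : Gd S c') {z : W} (h : z ∈ HO c') :
    Gn c' z ≤ 1 := (Gn_le_one_iff hr hA hc' (HO_le_HL h)).2 h

/-- See the header. -/
theorem st_lead_HL (hr : 0 < r) (hA : AmbX p r S) (hc : Gd S c) (hF : kap c.B = F) {τ : F → W}
    (hτ : Sec c.B F τ) {z : W} {a0 : Fin r → ℤ} {d : ℕ} (hz : Ld c z a0 d) :
    ∃ c' : Tri W r, StR S c c' ∧ ∃ (α : Fin r → ℤ) (d' : ℕ), Ld c' z α d' ∧ d' ≤ d ∧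
      (d' = d → 1 ≤ d → c'.x = c.x ∧ kap c'.B = F ∧ ∃ (β : Fin r → ℤ) (a : F),
        ‖mon c.x β‖ < 1 ∧ a ≠ 0 ∧ c.y = mon c.x β * (-τ a + c'.y) ∧ α = a0 + d • β) := by
  classical
  have hok := hc
  have hx := hok.ind
  have hy0 : c.y ≠ 0 := hok.y_ne hA
  have hyp : 0 < ‖c.y‖ := norm_pos_iff.2 hy0
  have hy1 : ‖c.y‖ < 1 := hok.y1
  obtain ⟨v, hv, hv1, q, hq, hzq⟩ := hz
  obtain ⟨P, N, h1, hh1, h2, hh2, hP, hN, hlead⟩ := approx_lead hr hA hok hF hτ (d := d) hv hv1 hq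
  obtain ⟨b, hb⟩ := exists_large hr hx hy0 P.coeff.support
  obtain ⟨P1, hP1, hP1c⟩ := exists_shiftS hτ.zero c.x c.y hx.ne P b
  have hxb : 0 < ‖mon c.x b‖ := norm_pos_iff.2 (mon_ne c.x hx.ne b)
  have hab : ∀ a : Fin r → ℤ, mon c.x a = mon c.x b * mon c.x (a - b) := fun a => by
    rw [← mon_add c.x hx.ne, add_sub_cancel]
  have hlead1 : Lead c.x P1 b d := by
    refine ⟨?_, fun a j haj => ?_, fun j hj => ?_⟩
    · rw [hP1c, sub_self]; exact hlead.mem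
    · rw [hP1c] at haj
      have h3 := hlead.max _ _ haj
      rw [mon_zero, norm_one] at h3
      rw [hab a, norm_mul]
      exact mul_le_of_le_one_right hxb.le h3
    · rw [hP1c, sub_self] at hj
      exact hlead.min j hj
  obtain ⟨c', e, B, w, g, G, T, hSt, hT, hGτ, hGd, he⟩ := exists_st hr hA hc hF hτ P1.coeff.support
    (fun n hn => by
      rw [Finsupp.mem_support_iff] at hn
      have hn' : P1.coeff (n.1, n.2) ≠ 0 := hn
      rw [hP1c] at hn'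
      have h3 := hb (n.1 - b, n.2) (Finsupp.mem_support_iff.2 hn')
      rw [hab n.1, mul_assoc, norm_mul]
      exact h3)
  have hT' : ∀ a j, P1.coeff (a, j) ≠ 0 → 0 ≤ (T (a, (j : ℤ))).2 := fun a j haj =>
    hT (a, j) (Finsupp.mem_support_iff.2 haj)
  obtain ⟨α1, d', hld, hle, hdd, heq⟩ := st_lead hr hSt hτ hA P1 hT' he hlead1
  have hR : StR S c c' := hSt.stR
  have hok' : Gd S c' := hSt.gd'
  have hx' := hok'.ind
  -- the norms for `c'`
  have hGmon : ∀ (a : Fin r → ℤ) (j : ℕ), mon c.x a * c.y ^ j ∈ HL c' ∧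
      Gn c' (mon c.x a * c.y ^ j) = ‖mon c.x a * c.y ^ j‖ := fun a j => by
    have h3 : MoH c' (mon c.x a * c.y ^ j) := by
      have := hR.mon_moH a (j : ℤ)
      rwa [zpow_natCast] at this
    exact ⟨h3.mem_HL hok', Gn_moH hr hA hok' h3⟩
  have hGH : ∀ h ∈ HO c, h ∈ HL c' ∧ Gn c' h ≤ 1 := fun h hh => by
    have h3 := hR.HO_le hh
    exact ⟨HO_le_HL h3, Gn_le_one hr hA hok' h3⟩
  set δ : W := (mon c.x (b + N) * c.y ^ 0) * h1 + (mon c.x b * c.y ^ (d + 1)) * h2 with hδ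
  have hm1 : (mon c.x (b + N) * c.y ^ 0) * h1 ∈ HL c' := mul_mem (hGmon _ _).1 (hGH h1 hh1).1
  have hm2 : (mon c.x b * c.y ^ (d + 1)) * h2 ∈ HL c' := mul_mem (hGmon _ _).1 (hGH h2 hh2).1
  have hδm : δ ∈ HL c' := add_mem hm1 hm2
  have hδG : Gn c' δ < ‖mon c'.x α1‖ := by
    refine lt_of_lt_of_le ?_ hle
    refine (Gn_add_le hr hA hok' hm1 hm2).trans_lt (max_lt ?_ ?_)
    · rw [Gn_mul hr hA hok' (hGmon _ _).1 (hGH h1 hh1).1, (hGmon _ _).2, pow_zero, mul_one,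
        mon_add c.x hx.ne, norm_mul, norm_mul, norm_pow]
      refine (mul_le_of_le_one_right (by positivity) (hGH h1 hh1).2).trans_lt ?_
      exact mul_lt_mul_of_pos_left hN hxb
    · rw [Gn_mul hr hA hok' (hGmon _ _).1 (hGH h2 hh2).1, (hGmon _ _).2, norm_mul, norm_mul,
        norm_pow, norm_pow]
      refine (mul_le_of_le_one_right (by positivity) (hGH h2 hh2).2).trans_lt ?_
      exact mul_lt_mul_of_pos_left (pow_lt_pow_right_of_lt_one₀ hyp hy1 (Nat.lt_succ_self d)) hxb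
  have hld2 : Ld c' (evS τ c.x c.y P1 + δ) α1 d' := hld.perturb hr hA hok' hδm hδG
  -- back to `z`
  have hzeq : z = mon c'.x (T (a0 - b, 0)).1 *
      (w ^ (T (a0 - b, 0)).2 * (evS τ c.x c.y P1 + δ)) := by
    have h3 := hSt.hm (a0 - b) 0
    rw [zpow_zero, mul_one] at h3
    rw [← mul_assoc, ← h3, hzq, hP, hP1, hδ, hab a0, mon_add c.x hx.ne]
    ring
  have hgp := (St.g_facts hSt).2
  have hef1 : 1 ≤ e * g.natDegree := Nat.one_le_iff_ne_zero.2
    (Nat.mul_ne_zero (by have := hSt.e1; omega) (by omega))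
  have hd'd : d' ≤ d := (Nat.le_mul_of_pos_right d' hef1).trans hdd
  refine ⟨c', hR, (T (a0 - b, 0)).1 + α1, d', ?_, hd'd, fun hd hd1 => ?_⟩
  · rw [hzeq]
    exact (hld2.unit_mul hok' (hSt.w_zpow _).1 (hSt.w_zpow _).2).xmul hok' _
  · have hef : e * g.natDegree = 1 := by
      subst hd
      by_contra hne
      have h3 : 2 ≤ e * g.natDegree := by omega
      have h4 : d' * 2 ≤ d' * (e * g.natDegree) := Nat.mul_le_mul_left _ h3
      omega
    have he1 : e = 1 := Nat.eq_one_of_mul_eq_one_right hef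
    have hg1 : g.natDegree = 1 := Nat.eq_one_of_mul_eq_one_left hef
    obtain ⟨hcx, hTT⟩ := he he1
    have hw := hSt.hw
    rw [he1, pow_one] at hw
    have hyβ : ‖c.y‖ = ‖mon c.x B‖ := by rw [hw, norm_mul, hSt.w1, mul_one]
    have hGw : c'.y = w + τ (g.coeff 0) := by
      have h3 := hSt.Gm.eq_X_add_C (hGd.trans hg1)
      rw [hSt.hy, h3, eval_add, eval_X, eval_C, hGτ 0 (by omega)]
    refine ⟨hcx, hSt.kap_eq hr hg1, B, g.coeff 0, by rw [← hyβ]; exact hy1, ?_, ?_, ?_⟩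
    · intro h0
      have h3 := hSt.gm.eq_X_add_C hg1
      rw [h0, C_0, add_zero] at h3
      have h4 := hSt.gw
      rw [h3, aeval_X] at h4
      exact (rs_ne_zero_iff hSt.w1.le).2 hSt.w1 h4
    · rw [hGw, hw]
      ring
    · have h4 := (heq hef hd).1
      have h5 := hTT (a0 - b) 0
      rw [h5, h4]
      simp only [zero_smul, add_zero]
      abel

end Pool.Agent.Lib.MX
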